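import Pool.Agent.Lib.MP_7b7e48_nt.RG.Defs
import Pool.Agent.Lib.Sieve.Mertens

/-!
# Module A7 (45 minutes): the density of the rough integers coprime to `N`

PROOF. `φ(N)/N = ∏_{p ∣ N} (1 - 1/p)` (`Nat.totient_eq_mul_prod_factors`), so the product is
`∏_{p ≤ z} (1 - 1/p) ∏_{p ∣ N, p > z} (1 - 1/p)`. Mertens (`Lib/MP_45349e_nt/AA/Fund.lean`, `V_inv_le'`; or
`Lib/Sieve/Mertens`): the first factor is `≥ c / log z`. The second factor is `≥ 1 - ∑_{p ∣ N, p > z} 1/p ≥ 1 - r/z` with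
`r = #{p ∣ N : p > z} ≤ log N / log z ≤ z / log z`, so it is `≥ 1 - 1/log z ≥ 1/2` (`z ≥ 8 > e²`).
-/

open Finset

namespace Pool.Agent.Lib.RG

/-- `1 - ∑ a ≤ ∏ (1 - a)` for `0 ≤ a ≤ 1`. -/
private theorem A7_one_sub {ι : Type*} (s : Finset ι) (a : ι → ℝ)
    (h : ∀ i ∈ s, 0 ≤ a i ∧ a i ≤ 1) :
    1 - ∑ i ∈ s, a i ≤ ∏ i ∈ s, (1 - a i) ∧ ∏ i ∈ s, (1 - a i) ≤ 1 ∧ 0 ≤ ∏ i ∈ s, (1 - a i) := by
  classical
  induction s using Finset.induction_on with
  | empty => simp
  | insert j s hj ih =>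
    obtain ⟨h1, h2, h3⟩ := ih fun i hi => h i (Finset.mem_insert_of_mem hi)
    obtain ⟨h4, h5⟩ := h j (Finset.mem_insert_self j s)
    rw [Finset.sum_insert hj, Finset.prod_insert hj]
    refine ⟨?_, ?_, mul_nonneg (by linarith) h3⟩
    · nlinarith
    · nlinarith

private theorem A7_fac {p : ℕ} (hp : p.Prime) : 0 < 1 - 1 / (p : ℝ) ∧ 1 - 1 / (p : ℝ) ≤ 1 := by
  have h2 : (2 : ℝ) ≤ p := by exact_mod_cast hp.two_le
  have h3 : (0 : ℝ) < 1 / (p : ℝ) := by positivity
  constructor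
  · rw [sub_pos, div_lt_one (by linarith)]
    linarith
  · linarith

theorem prod_lower : ∃ c : ℝ, 0 < c ∧ ∀ z : ℕ, 2 ≤ z → ∀ P : Finset ℕ,
    (∀ r ∈ P, r.Prime ∧ r ≤ z) → c / Real.log z ≤ ∏ p ∈ P, (1 - 1 / (p : ℝ)) := by
  obtain ⟨C, hC, h⟩ := Pool.Agent.Lib.Sieve.mertens_product_upper
  refine ⟨1 / C, by positivity, ?_⟩
  intro z hz P hP
  have hlog : 0 < Real.log z := Real.log_pos (by exact_mod_cast hz)
  have hPpos : 0 < ∏ p ∈ P, (1 - 1 / (p : ℝ)) :=
    Finset.prod_pos fun p hp => (A7_fac (hP p hp).1).1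
  have h1 : (∏ p ∈ P, (1 - 1 / (p : ℝ)))⁻¹ ≤ C * Real.log z := by
    rw [← Finset.prod_inv_distrib]
    refine le_trans ?_ (h z hz)
    have hsub : P ⊆ (Finset.Icc 1 z).filter Nat.Prime := by
      intro p hp
      rw [Finset.mem_filter, Finset.mem_Icc]
      exact ⟨⟨(hP p hp).1.one_lt.le, (hP p hp).2⟩, (hP p hp).1⟩
    rw [← Finset.prod_sdiff hsub]
    have h2 : 1 ≤ ∏ p ∈ (Finset.Icc 1 z).filter Nat.Prime \ P, (1 - (1 : ℝ) / p)⁻¹ := by
      calc (1 : ℝ) = ∏ _p ∈ (Finset.Icc 1 z).filter Nat.Prime \ P, (1 : ℝ) :=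
            Finset.prod_const_one.symm
        _ ≤ _ := by
            refine Finset.prod_le_prod (fun _ _ => zero_le_one) fun p hp => ?_
            have := A7_fac (Finset.mem_filter.mp (Finset.mem_sdiff.mp hp).1).2
            exact (one_le_inv₀ this.1).mpr this.2
    refine le_mul_of_one_le_left (Finset.prod_nonneg fun p hp => ?_) h2
    exact (inv_pos.mpr (A7_fac (hP p hp).1).1).le
  rw [inv_le_comm₀ hPpos (by positivity)] at h1
  calc 1 / C / Real.log z = (C * Real.log z)⁻¹ := by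
        rw [mul_inv, one_div, div_eq_mul_inv]
    _ ≤ _ := h1

theorem phi_prod : ∃ c : ℝ, 0 < c ∧ ∀ (N z : ℕ), 1 ≤ N → 8 ≤ z → Real.log N ≤ z →
    c / Real.log z ≤ ((N.totient : ℝ) / N) * ∏ p ∈ PN N z, (1 - 1 / (p : ℝ)) := by
  classical
  obtain ⟨c, hc, h⟩ := prod_lower
  refine ⟨c / 2, by positivity, ?_⟩
  intro N z hN hz hNz
  have hz8 : (8 : ℝ) ≤ z := by exact_mod_cast hz
  have hl8 : 2 ≤ Real.log z := by
    have h1 : Real.log 8 ≤ Real.log z := Real.log_le_log (by norm_num) hz8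
    have h2 : Real.log 8 = 3 * Real.log 2 := by
      rw [show (8 : ℝ) = 2 ^ 3 by norm_num, Real.log_pow]
      norm_num
    have h3 := Real.log_two_gt_d9
    rw [h2] at h1
    linarith
  have hN0 : (N : ℝ) ≠ 0 := by
    have : 0 < N := hN
    positivity
  have hphi : (N.totient : ℝ) / N = ∏ p ∈ N.primeFactors, (1 - 1 / (p : ℝ)) := by
    have h1 := Nat.totient_eq_mul_prod_factors N
    have h2 : (N.totient : ℝ) = N * ∏ p ∈ N.primeFactors, (1 - (p : ℝ)⁻¹) := by
      have := congrArg (fun q : ℚ => (q : ℝ)) h1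
      push_cast at this
      exact this
    rw [h2, mul_div_cancel_left₀ _ hN0]
    exact Finset.prod_congr rfl fun p _ => by rw [one_div]
  rw [hphi, ← Finset.prod_filter_mul_prod_filter_not N.primeFactors (fun p => p ≤ z)]
  set X := N.primeFactors.filter (fun p => p ≤ z) with hX
  set W := N.primeFactors.filter (fun p => ¬ p ≤ z) with hW
  have hdisj : Disjoint X (PN N z) := by
    rw [Finset.disjoint_left]
    intro p hp hp2
    have h1 := Nat.dvd_of_mem_primeFactors (Finset.mem_filter.mp hp).1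
    unfold PN at hp2
    exact (Finset.mem_filter.mp hp2).2.2 h1
  have h1 : c / Real.log z ≤ ∏ p ∈ X ∪ PN N z, (1 - 1 / (p : ℝ)) := by
    refine h z (by omega) _ ?_
    intro r hr
    rcases Finset.mem_union.mp hr with hr | hr
    · exact ⟨Nat.prime_of_mem_primeFactors (Finset.mem_filter.mp hr).1, (Finset.mem_filter.mp hr).2⟩
    · unfold PN at hr
      have := Finset.mem_filter.mp hr
      have h2 := Finset.mem_range.mp this.1
      exact ⟨this.2.1, by omega⟩
  rw [Finset.prod_union hdisj] at h1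
  -- the large prime factors
  have hWp : ∀ p ∈ W, p.Prime ∧ z < p := by
    intro p hp
    have := Finset.mem_filter.mp hp
    exact ⟨Nat.prime_of_mem_primeFactors this.1, by omega⟩
  have hpow : z ^ W.card ≤ N := by
    calc z ^ W.card = ∏ _p ∈ W, z := by rw [Finset.prod_const]
      _ ≤ ∏ p ∈ W, p := Finset.prod_le_prod' fun p hp => (hWp p hp).2.le
      _ ≤ ∏ p ∈ N.primeFactors, p := by
          refine Finset.prod_le_prod_of_subset_of_one_le' (Finset.filter_subset _ _) ?_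
          intro p hp _
          exact (Nat.prime_of_mem_primeFactors hp).one_lt.le
      _ ≤ N := Nat.le_of_dvd hN (Nat.prod_primeFactors_dvd N)
  have hcard : (W.card : ℝ) * Real.log z ≤ z := by
    have h2 : Real.log ((z : ℝ) ^ W.card) ≤ Real.log N := by
      refine Real.log_le_log (by positivity) ?_
      exact_mod_cast hpow
    rw [Real.log_pow] at h2
    linarith
  have hsum : ∑ p ∈ W, 1 / (p : ℝ) ≤ 1 / 2 := by
    have h3 : ∑ p ∈ W, 1 / (p : ℝ) ≤ ∑ _p ∈ W, 1 / (z : ℝ) := by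
      refine Finset.sum_le_sum fun p hp => ?_
      have : (z : ℝ) ≤ p := by exact_mod_cast (hWp p hp).2.le
      exact one_div_le_one_div_of_le (by linarith) this
    rw [Finset.sum_const, nsmul_eq_mul] at h3
    have h4 : (W.card : ℝ) * (1 / z) ≤ 1 / 2 := by
      rw [mul_one_div, div_le_div_iff₀ (by linarith) (by norm_num)]
      have h5 : (W.card : ℝ) * 2 ≤ W.card * Real.log z :=
        mul_le_mul_of_nonneg_left hl8 (Nat.cast_nonneg _)
      linarith
    linarith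
  have hWprod : 1 / 2 ≤ ∏ p ∈ W, (1 - 1 / (p : ℝ)) := by
    have := (A7_one_sub W (fun p => 1 / (p : ℝ)) fun p hp => by
      have h6 := A7_fac (hWp p hp).1
      constructor
      · positivity
      · linarith).1
    linarith
  have hXN : 0 ≤ (∏ p ∈ X, (1 - 1 / (p : ℝ))) * ∏ p ∈ PN N z, (1 - 1 / (p : ℝ)) := by
    have : 0 ≤ c / Real.log z := by positivity
    linarith
  calc c / 2 / Real.log z = 1 / 2 * (c / Real.log z) := by ring
    _ ≤ (∏ p ∈ W, (1 - 1 / (p : ℝ))) *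
        ((∏ p ∈ X, (1 - 1 / (p : ℝ))) * ∏ p ∈ PN N z, (1 - 1 / (p : ℝ))) :=
        mul_le_mul hWprod h1 (by positivity) (by linarith)
    _ = _ := by ring

end Pool.Agent.Lib.RG
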