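import Pool.Agent.Lib.MP_7b7e48_nt.RG.H0
import Pool.Agent.Lib.MP_7b7e48_nt.RG.A7

/-!
# Module NUM (60 minutes): the sizes of the parameters

PROOF. For fixed `P` and `N → ∞` everything follows from `(log N)^A ≤ N^δ` for large `N` (`isLittleO_log_rpow_atTop` or
`Real.isLittleO_pow_log_id_atTop`) and the definitions: `zz = ⌊N^c⌋`, `MM = 2^⌈C1 log_2 K⌉` with `K = log N`, so
`K^C1 ≤ MM < 2 K^C1`; `JJ = ⌈K^1000⌉`. `log zz ≤ c log N`, `log zz ≥ c log N - 1 ≥ (c/2) log N`.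
`bl`: `E0.block_card`. `ph`: `A7.phi_prod` with `z = ⌈log N⌉ + 8` (the product over `PN N z` is `≤ 1`): `φ(N)/N ≥ c/log z ≥ 1/log N`.
-/

open Finset

namespace Pool.Agent.Lib.RH

open Pool.Agent.Lib.RG hiding RR sig Good

/-- the numerical facts which hold for all large `N` (`K = log N`) -/
structure Num (P : Prm) (N : ℕ) : Prop where
  K : (10 : ℝ) ^ 9 ≤ Real.log N
  Kc : 100 / P.c ≤ Real.log N
  CK : (P.C1 : ℝ) ≤ Real.log N
  z1 : (zz P N : ℝ) ≤ (N : ℝ) ^ P.c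
  z2 : (N : ℝ) ^ P.c / 2 ≤ zz P N
  z3 : (P.c / 2) * Real.log N ≤ Real.log (zz P N)
  z4 : Real.log (zz P N) ≤ P.c * Real.log N
  z5 : (Real.log N) ^ (100 * P.C1 + 10000) ≤ zz P N
  M1 : (Real.log N) ^ P.C1 ≤ MM P N
  M2 : (MM P N : ℝ) ≤ 2 * (Real.log N) ^ P.C1
  J1 : (Real.log N) ^ 1000 ≤ JJ N
  J2 : (JJ N : ℝ) ≤ 2 * (Real.log N) ^ 1000
  sm : (Real.log N) ^ (100 * P.C1 + 10000) ≤ (N : ℝ) ^ (P.kap / 1000)
  ph : (N : ℝ) ≤ Real.log N * N.totient
  bl : ∀ Y : ℕ, (Real.log N) ^ 3 ≤ Y → Y ≤ N → (Y : ℝ) / (4 * Real.log N) ≤ (block N Y).card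

theorem ev_log_pow (A : ℕ) (δ : ℝ) (hδ : 0 < δ) (C : ℝ) (hC : 0 < C) :
    ∀ᶠ N : ℕ in Filter.atTop, C * (Real.log N) ^ A ≤ (N : ℝ) ^ δ := by
  have h1 := isLittleO_log_rpow_rpow_atTop (A : ℝ) hδ
  have h2 := h1.bound (show (0 : ℝ) < 1 / C by positivity)
  have h3 := tendsto_natCast_atTop_atTop (R := ℝ) |>.eventually h2
  filter_upwards [h3, Filter.eventually_ge_atTop 1] with N h4 hN
  have hN1 : (1 : ℝ) ≤ N := by exact_mod_cast hN
  have h5 : 0 ≤ Real.log N := Real.log_nonneg hN1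
  rw [Real.rpow_natCast, Real.norm_of_nonneg (pow_nonneg h5 _),
    Real.norm_of_nonneg (Real.rpow_nonneg (by linarith) _)] at h4
  calc C * (Real.log N) ^ A ≤ C * (1 / C * (N : ℝ) ^ δ) := mul_le_mul_of_nonneg_left h4 hC.le
    _ = _ := by field_simp

theorem ev_log_ge (T : ℝ) : ∀ᶠ N : ℕ in Filter.atTop, T ≤ Real.log N :=
  (Real.tendsto_log_atTop.comp tendsto_natCast_atTop_atTop).eventually_ge_atTop T

theorem ev_totient : ∀ᶠ N : ℕ in Filter.atTop, (N : ℝ) ≤ Real.log N * N.totient := by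
  obtain ⟨c, hc, h⟩ := phi_prod
  -- `log (2 log N) ≤ c log N`
  have h1 : ∀ᶠ x : ℝ in Filter.atTop, Real.log x ≤ (c / 2) * x := by
    have := Real.isLittleO_log_id_atTop.bound (show (0 : ℝ) < c / 2 by positivity)
    filter_upwards [this, Filter.eventually_ge_atTop 1] with x h2 hx
    rw [Real.norm_of_nonneg (Real.log_nonneg hx), id, Real.norm_of_nonneg (by linarith)] at h2
    exact h2
  have h2 := ((Real.tendsto_log_atTop.comp
    (tendsto_natCast_atTop_atTop (R := ℝ))).const_mul_atTop (show (0 : ℝ) < 2 by norm_num)).eventually h1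
  filter_upwards [h2, ev_log_ge 8, Filter.eventually_ge_atTop 1] with N h3 h4 hN
  have hN1 : (1 : ℝ) ≤ N := by exact_mod_cast hN
  simp only [Function.comp_apply] at h3
  set K := Real.log N with hK
  set z : ℕ := ⌈K⌉₊ with hz
  have hz1 : K ≤ z := Nat.le_ceil K
  have hz2 : (z : ℝ) ≤ 2 * K := by
    have := Nat.ceil_lt_add_one (show 0 ≤ K by linarith)
    linarith
  have hz8 : 8 ≤ z := by
    have : (8 : ℝ) ≤ z := by linarith
    exact_mod_cast this
  have h5 := h N z hN hz8 hz1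
  have hz8r : (8 : ℝ) ≤ z := by exact_mod_cast hz8
  have h6 : Real.log z ≤ c * K := by
    have h7 : Real.log z ≤ Real.log (2 * K) := Real.log_le_log (by linarith) hz2
    linarith
  have hlz : 0 < Real.log z := Real.log_pos (by linarith)
  have h8 : 1 / K ≤ c / Real.log z := by
    rw [div_le_div_iff₀ (by linarith) hlz]
    linarith
  have h9 : ∏ p ∈ PN N z, (1 - 1 / (p : ℝ)) ≤ 1 := by
    refine Finset.prod_le_one (fun p hp => ?_) fun p hp => ?_
    · unfold PN at hp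
      have h10 := (mem_filter.mp hp).2.1
      have h11 : (2 : ℝ) ≤ p := by exact_mod_cast h10.two_le
      rw [sub_nonneg, div_le_one (by linarith)]
      linarith
    · have : (0 : ℝ) ≤ 1 / (p : ℝ) := by positivity
      linarith
  have h10 : (0 : ℝ) ≤ (N.totient : ℝ) / N := by positivity
  have h11 : 1 / K ≤ (N.totient : ℝ) / N := by
    calc 1 / K ≤ _ := h8
      _ ≤ _ := h5
      _ ≤ _ := mul_le_of_le_one_right h10 h9
  rw [div_le_div_iff₀ (by linarith) (by linarith)] at h11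
  linarith

theorem num (P : Prm) (hP : P.Ok) : ∃ N0 : ℕ, ∀ N : ℕ, N0 ≤ N → Num P N := by
  obtain ⟨N1, hN1b⟩ := block_card
  have hc := hP.c0
  have hk := hP.kap0
  have e1 := ev_log_ge ((10 : ℝ) ^ 9)
  have e2 := ev_log_ge (100 / P.c)
  have e3 := ev_log_ge (P.C1 : ℝ)
  have e4 := ev_log_pow (100 * P.C1 + 10000) P.c hc 2 (by norm_num)
  have e5 := ev_log_pow (100 * P.C1 + 10000) (P.kap / 1000) (by positivity) 1 (by norm_num)
  obtain ⟨N0, hN0⟩ := Filter.eventually_atTop.mp (e1.and (e2.and (e3.and (e4.and (e5.and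
    (ev_totient.and (Filter.eventually_ge_atTop (max 2 N1))))))))
  refine ⟨N0, fun N hN => ?_⟩
  obtain ⟨h1, h2, h3, h4, h5, h7, h88⟩ := hN0 N hN
  have h8 : 2 ≤ N := (le_max_left _ _).trans h88
  have hN1 : (1 : ℝ) ≤ N := by exact_mod_cast (by omega : 1 ≤ N)
  have hNpos : (0 : ℝ) < N := by linarith
  set K := Real.log N with hK
  have hK9 : (1 : ℝ) ≤ K := by
    refine le_trans ?_ h1
    norm_num
  have hK0 : (0 : ℝ) < K := by linarith
  have hcK : 100 ≤ P.c * K := by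
    rw [div_le_iff₀ hc] at h2
    linarith
  have hNc : (0 : ℝ) < (N : ℝ) ^ P.c := Real.rpow_pos_of_pos hNpos _
  have hpow1 : (1 : ℝ) ≤ K ^ (100 * P.C1 + 10000) := one_le_pow₀ hK9
  have hz1 : (zz P N : ℝ) ≤ (N : ℝ) ^ P.c := Nat.floor_le hNc.le
  have hz2 : (N : ℝ) ^ P.c / 2 ≤ zz P N := by
    have h9 : (N : ℝ) ^ P.c - 1 < zz P N := by
      have := Nat.lt_floor_add_one ((N : ℝ) ^ P.c)
      unfold zz
      linarith
    linarith
  have hzpos : (0 : ℝ) < zz P N := by linarith [half_pos hNc]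
  have hpk : ∀ a b : ℝ, a ≤ b → (N : ℝ) ^ a ≤ (N : ℝ) ^ b := fun a b hab =>
    Real.rpow_le_rpow_of_exponent_le hN1 hab
  refine ⟨h1, h2, h3, hz1, hz2, ?_, ?_, ?_, ?_, ?_, ?_, ?_, ?_, h7,
    hN1b N ((le_max_right _ _).trans h88)⟩
  · -- z3
    have h9 : Real.log ((N : ℝ) ^ P.c / 2) ≤ Real.log (zz P N) :=
      Real.log_le_log (by positivity) hz2
    rw [Real.log_div (by positivity) (by norm_num), Real.log_rpow hNpos] at h9
    have h10 := Real.log_two_lt_d9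
    have h11 : P.c * Real.log N = P.c * K := rfl
    nlinarith
  · -- z4
    have h9 := Real.log_le_log hzpos hz1
    rw [Real.log_rpow hNpos] at h9
    exact h9
  · -- z5
    linarith
  · -- M1
    have h9 : (P.C1 : ℝ) * Real.logb 2 K ≤ m0 P N := Nat.le_ceil _
    have h10 : K ^ P.C1 = (2 : ℝ) ^ ((P.C1 : ℝ) * Real.logb 2 K) := by
      rw [mul_comm, Real.rpow_mul (by norm_num), Real.rpow_logb (by norm_num) (by norm_num) hK0,
        Real.rpow_natCast]
    have h11 : (MM P N : ℝ) = (2 : ℝ) ^ ((m0 P N : ℕ) : ℝ) := by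
      unfold MM
      rw [Real.rpow_natCast]
      push_cast
      rfl
    rw [h10, h11]
    exact Real.rpow_le_rpow_of_exponent_le (by norm_num) h9
  · -- M2
    have h9 : (m0 P N : ℝ) < (P.C1 : ℝ) * Real.logb 2 K + 1 := by
      refine Nat.ceil_lt_add_one (mul_nonneg (Nat.cast_nonneg _) ?_)
      exact Real.logb_nonneg (by norm_num) hK9
    have h10 : K ^ P.C1 = (2 : ℝ) ^ ((P.C1 : ℝ) * Real.logb 2 K) := by
      rw [mul_comm, Real.rpow_mul (by norm_num), Real.rpow_logb (by norm_num) (by norm_num) hK0,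
        Real.rpow_natCast]
    have h11 : (MM P N : ℝ) = (2 : ℝ) ^ ((m0 P N : ℕ) : ℝ) := by
      unfold MM
      rw [Real.rpow_natCast]
      push_cast
      rfl
    have h12 : 2 * K ^ P.C1 = (2 : ℝ) ^ ((P.C1 : ℝ) * Real.logb 2 K + 1) := by
      rw [Real.rpow_add (by norm_num), Real.rpow_one, ← h10, mul_comm]
    rw [h12, h11]
    exact Real.rpow_le_rpow_of_exponent_le (by norm_num) h9.le
  · -- J1
    exact Nat.le_ceil _
  · -- J2
    have h9 : (JJ N : ℝ) < K ^ 1000 + 1 := Nat.ceil_lt_add_one (by positivity)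
    have h10 : (1 : ℝ) ≤ K ^ 1000 := one_le_pow₀ hK9
    linarith
  · -- sm
    linarith

end Pool.Agent.Lib.RH
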