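import Pool.Agent.Lib.MP_7b7e48_nt.RG.SMc1

/-!
# Module SMc2 (75 minutes): the variance

PROOF. `M2 - 2 J V M1 + (J V)² = (M2 - M1²) + (M1 - J V)²`. Let `T = ∏_{p ∈ P} (1 + |u p| + |e p|)`. All `d ∈ D` are squarefree products
of primes of `P`, so `∑_{d ∈ D} Ew d ≤ T` and, for given `d₁`, `∑_{d₂ ∈ D} Ew (d₂/(d₁,d₂)) ≤ τ(d₁) T` (`d₂ ↦ ((d₁,d₂), d₂/(d₁,d₂))` is
injective, `d₂/(d₁,d₂)` is again such a product). By `cov_pair`
`|M2 - M1²| ≤ Lam² ∑_{d₁} 3 (J/d₁ + Ew d₁) τ(d₁) T ≤ 3 Lam² T (J ∏_{p ∈ P} (1 + 2/p) + ∏_{p ∈ P} (1 + 2(|u p| + |e p|)))` (`τ(d) = 2^{ω(d)}`),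
and `(M1 - J V)² ≤ Lam² T²` by `mean_err`. With `|u p| + |e p| ≤ 3/p` outside `S4`, `= 1` on `S4` (at most 4 primes):
`T ≤ 2⁴ ∏ (1 + 3/p)`, `∏ (1 + 2(|u|+|e|)) ≤ 3⁴ ∏ (1 + 6/p)`, and `SMp.prod_upper`. Everything is `≤ C Lam² J (1 + log z)⁹`.
-/

open Finset

namespace Pool.Agent.Lib.RG

/-- sums of multiplicative functions over squarefree products of primes of `P` -/
theorem SMc2_sum_le (P D : Finset ℕ) (f : ℕ → ℝ) (hf : ∀ p ∈ P, 0 ≤ f p)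
    (hD : ∀ d ∈ D, 1 ≤ d ∧ Squarefree d ∧ ∀ p : ℕ, p.Prime → p ∣ d → p ∈ P) :
    ∑ d ∈ D, ∏ p ∈ d.primeFactors, f p ≤ ∏ p ∈ P, (1 + f p) := by
  classical
  rw [prod_one_add]
  have hinj : Set.InjOn Nat.primeFactors (D : Set ℕ) := by
    intro a ha b hb hab
    have ha' := Nat.prod_primeFactors_of_squarefree (hD a ha).2.1
    have hb' := Nat.prod_primeFactors_of_squarefree (hD b hb).2.1
    rw [← ha', ← hb', hab]
  rw [← sum_image (f := fun s : Finset ℕ => ∏ p ∈ s, f p) hinj]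
  apply sum_le_sum_of_subset_of_nonneg
  · intro s hs
    obtain ⟨d, hd, rfl⟩ := mem_image.mp hs
    rw [mem_powerset]
    intro p hp
    obtain ⟨hpp, hpd, -⟩ := Nat.mem_primeFactors.mp hp
    exact (hD d hd).2.2 p hpp hpd
  · intro s hs _
    exact prod_nonneg fun p hp => hf p (mem_powerset.mp hs hp)

/-- for fixed `d₁`, the sum of `Ew (d₂ / (d₁, d₂))` -/
theorem SMc2_sum_gcd (P D : Finset ℕ) (u e : ℕ → ℝ) (d₁ : ℕ) (hd₁ : 1 ≤ d₁)
    (hD : ∀ d ∈ D, 1 ≤ d ∧ Squarefree d ∧ ∀ p : ℕ, p.Prime → p ∣ d → p ∈ P) :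
    ∑ d₂ ∈ D, Ew u e (d₂ / d₁.gcd d₂) ≤
      (d₁.divisors.card : ℝ) * ∏ p ∈ P, (1 + (|u p| + |e p|)) := by
  classical
  have h1 : ∑ d₂ ∈ D, Ew u e (d₂ / d₁.gcd d₂) =
      ∑ g ∈ d₁.divisors, ∑ d₂ ∈ D.filter (fun d₂ => d₁.gcd d₂ = g), Ew u e (d₂ / d₁.gcd d₂) := by
    symm
    apply sum_fiberwise_of_maps_to
    intro d₂ _
    exact Nat.mem_divisors.mpr ⟨Nat.gcd_dvd_left _ _, by omega⟩
  rw [h1, ← nsmul_eq_mul]
  apply sum_le_card_nsmul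
  intro g hg
  have hg0 : 0 < g := Nat.pos_of_mem_divisors hg
  have hdv : ∀ d₂ ∈ D.filter (fun d₂ => d₁.gcd d₂ = g), g ∣ d₂ := by
    intro d₂ hd₂
    rw [← (mem_filter.mp hd₂).2]
    exact Nat.gcd_dvd_right _ _
  have hinj : Set.InjOn (fun d₂ => d₂ / g) ((D.filter (fun d₂ => d₁.gcd d₂ = g) : Finset ℕ) : Set ℕ) := by
    intro a ha b hb hab
    have ha' := Nat.div_mul_cancel (hdv a ha)
    have hb' := Nat.div_mul_cancel (hdv b hb)
    have hab' : a / g = b / g := hab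
    rw [← ha', ← hb', hab']
  have h2 : ∑ d₂ ∈ D.filter (fun d₂ => d₁.gcd d₂ = g), Ew u e (d₂ / d₁.gcd d₂) =
      ∑ f ∈ (D.filter (fun d₂ => d₁.gcd d₂ = g)).image (fun d₂ => d₂ / g), Ew u e f := by
    rw [sum_image hinj]
    refine sum_congr rfl fun d₂ hd₂ => ?_
    rw [(mem_filter.mp hd₂).2]
  rw [h2]
  unfold Ew
  apply SMc2_sum_le
  · intro p _
    exact add_nonneg (abs_nonneg _) (abs_nonneg _)
  · intro f hf
    obtain ⟨d₂, hd₂, rfl⟩ := mem_image.mp hf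
    have hdD := hD d₂ (mem_filter.mp hd₂).1
    have hgd := hdv d₂ hd₂
    have hfd : d₂ / g ∣ d₂ := Nat.div_dvd_of_dvd hgd
    refine ⟨Nat.div_pos (Nat.le_of_dvd hdD.1 hgd) hg0, hdD.2.1.squarefree_of_dvd hfd, ?_⟩
    intro p hp hpf
    exact hdD.2.2 p hp (hpf.trans hfd)

theorem SMc2_card_divisors (d : ℕ) (hd : Squarefree d) :
    (d.divisors.card : ℝ) = ∏ _p ∈ d.primeFactors, (2 : ℝ) := by
  rw [prod_const]
  have h0 : d ≠ 0 := hd.ne_zero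
  have h1 : d.divisors.card = 2 ^ d.primeFactors.card := by
    rw [Nat.card_divisors h0]
    rw [← prod_const]
    refine prod_congr rfl fun p hp => ?_
    have h2 : d.factorization p = 1 := by
      have h3 : d.factorization p ≤ 1 := hd.natFactorization_le_one p
      have h4 : 0 < d.factorization p :=
        (Nat.prime_of_mem_primeFactors hp).factorization_pos_of_dvd h0
          (Nat.dvd_of_mem_primeFactors hp)
      omega
    rw [h2]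
  rw [h1]
  push_cast
  rfl

theorem SMc2_prod_inv (d : ℕ) (hd : Squarefree d) :
    (1 : ℝ) / d = ∏ p ∈ d.primeFactors, (1 / (p : ℝ)) := by
  conv_lhs => rw [← Nat.prod_primeFactors_of_squarefree hd]
  push_cast
  rw [prod_div_distrib, prod_const_one]

/-- the product with the exceptional primes -/
theorem SMc2_prod_exc {z : ℕ} {P S4 : Finset ℕ} {u e : ℕ → ℝ} (hL : Law z P S4 u e) (k : ℕ) :
    ∏ p ∈ P, (1 + (k : ℝ) * (|u p| + |e p|)) ≤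
      (1 + (k : ℝ)) ^ 4 * ∏ p ∈ P, (1 + ((3 * k : ℕ) : ℝ) / p) := by
  classical
  have hk : (0 : ℝ) ≤ k := by positivity
  have h1 : ∀ p ∈ P, 1 + (k : ℝ) * (|u p| + |e p|) ≤
      (if p ∈ S4 then (1 + (k : ℝ)) else 1) * (1 + ((3 * k : ℕ) : ℝ) / p) := by
    intro p hp
    have hp0 : (0 : ℝ) < p := by exact_mod_cast (hL.prime p hp).1.pos
    by_cases h4 : p ∈ S4
    · obtain ⟨h0, h1⟩ := hL.four p h4
      rw [h0, h1, if_pos h4, abs_zero, abs_one, zero_add, mul_one]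
      have : (1 : ℝ) ≤ 1 + ((3 * k : ℕ) : ℝ) / p := by
        have : (0 : ℝ) ≤ ((3 * k : ℕ) : ℝ) / p := by positivity
        linarith
      exact le_mul_of_one_le_right (by linarith) this
    · obtain ⟨h0, -, -⟩ := hL.small p hp h4
      rw [if_neg h4, one_mul]
      have := mul_le_mul_of_nonneg_left h0 hk
      push_cast
      have e1 : (k : ℝ) * (3 / p) = 3 * k / p := by ring
      linarith
  refine (prod_le_prod (fun p _ => ?_) h1).trans ?_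
  · have := mul_nonneg hk (add_nonneg (abs_nonneg (u p)) (abs_nonneg (e p)))
    linarith
  rw [prod_mul_distrib]
  apply mul_le_mul_of_nonneg_right
  · rw [prod_ite, prod_const_one, mul_one, prod_const]
    apply pow_le_pow_right₀ (by linarith)
    refine le_trans ?_ hL.card
    apply card_le_card
    intro p hp
    exact (mem_filter.mp hp).2
  · exact prod_nonneg fun p _ => by positivity

theorem variance : ∃ C : ℝ, 0 < C ∧ ∀ (z : ℕ), 2 ≤ z → ∀ (P S4 : Finset ℕ) (u e : ℕ → ℝ),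
    Law z P S4 u e → ∀ (D : Finset ℕ) (w : ℕ → ℝ) (Lam : ℝ), Wts P D w Lam → ∀ (a : ℤ) (J : ℕ),
    1 ≤ J →
    M2 u e D w (Finset.Ico a (a + J)) -
      2 * (J * Vw D w) * M1 u e D w (Finset.Ico a (a + J)) + (J * Vw D w) ^ 2 ≤
      C * Lam ^ 2 * J * (1 + Real.log z) ^ 9 := by
  obtain ⟨C2, hC2, H2⟩ := prod_upper 2
  obtain ⟨C3, hC3, H3⟩ := prod_upper 3
  obtain ⟨C6, hC6, H6⟩ := prod_upper 6
  refine ⟨3 * (16 * C3) * (C2 + 81 * C6) + (16 * C3) ^ 2, by positivity, ?_⟩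
  intro z hz P S4 u e hL D w Lam hw a J hJ
  set W := Finset.Ico a (a + J) with hW
  set Lz : ℝ := 1 + Real.log z with hLz
  have hLz1 : 1 ≤ Lz := by
    have : 0 ≤ Real.log z := Real.log_natCast_nonneg z
    linarith
  have hJ1 : (1 : ℝ) ≤ J := by exact_mod_cast hJ
  set T : ℝ := ∏ p ∈ P, (1 + (|u p| + |e p|)) with hT
  have hfn : ∀ p, 0 ≤ |u p| + |e p| := fun p => add_nonneg (abs_nonneg _) (abs_nonneg _)
  have hT0 : 0 ≤ T := prod_nonneg fun p _ => by linarith [hfn p]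
  have hTle : T ≤ 16 * C3 * Lz ^ 3 := by
    have h1 := SMc2_prod_exc hL 1
    have h2 := H3 z hz P hL.prime
    norm_num at h1
    calc T ≤ 16 * ∏ p ∈ P, (1 + 3 / (p : ℝ)) := by
          rw [hT]; exact h1
      _ ≤ 16 * (C3 * Lz ^ 3) := by
          have h2' : ∏ p ∈ P, (1 + 3 / (p : ℝ)) ≤ C3 * Lz ^ 3 := by
            simpa using h2
          linarith
      _ = 16 * C3 * Lz ^ 3 := by ring
  set Q : ℝ := ∏ p ∈ P, (1 + 2 * (|u p| + |e p|)) with hQ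
  have hQle : Q ≤ 81 * C6 * Lz ^ 6 := by
    have h1 := SMc2_prod_exc hL 2
    have h2 := H6 z hz P hL.prime
    norm_num at h1
    calc Q ≤ 81 * ∏ p ∈ P, (1 + 6 / (p : ℝ)) := by
          rw [hQ]; exact h1
      _ ≤ 81 * (C6 * Lz ^ 6) := by
          have h2' : ∏ p ∈ P, (1 + 6 / (p : ℝ)) ≤ C6 * Lz ^ 6 := by
            simpa using h2
          linarith
      _ = 81 * C6 * Lz ^ 6 := by ring
  set R : ℝ := ∏ p ∈ P, (1 + 2 / (p : ℝ)) with hR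
  have hRle : R ≤ C2 * Lz ^ 2 := by
    have h2 := H2 z hz P hL.prime
    simpa using h2
  -- the sum over `d₂` for given `d₁`
  have hcov : ∀ d₁ ∈ D, ∀ d₂ ∈ D,
      |∑ k₁ ∈ W, ∑ k₂ ∈ W, jw u e d₁ d₂ k₁ k₂ - (∑ k ∈ W, pw u e d₁ k) * ∑ k ∈ W, pw u e d₂ k| ≤
        3 * ((J : ℝ) / d₁ + Ew u e d₁) * Ew u e (d₂ / d₁.gcd d₂) := fun d₁ h₁ d₂ h₂ =>
    cov_pair hL d₁ d₂ (hw.sq d₁ h₁) (hw.sq d₂ h₂) a J
  have hM1 : M1 u e D w W ^ 2 = ∑ d₁ ∈ D, ∑ d₂ ∈ D,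
      w d₁ * w d₂ * ((∑ k ∈ W, pw u e d₁ k) * ∑ k ∈ W, pw u e d₂ k) := by
    unfold M1
    rw [sq, sum_mul_sum]
    refine sum_congr rfl fun d₁ _ => sum_congr rfl fun d₂ _ => ?_
    ring
  have hdiff : M2 u e D w W - M1 u e D w W ^ 2 ≤
      3 * Lam ^ 2 * T * (J * R + Q) := by
    rw [hM1]
    unfold M2
    rw [← sum_sub_distrib]
    have h1 : ∀ d₁ ∈ D, ∑ d₂ ∈ D, w d₁ * w d₂ * ∑ k₁ ∈ W, ∑ k₂ ∈ W, jw u e d₁ d₂ k₁ k₂ -
        ∑ d₂ ∈ D, w d₁ * w d₂ * ((∑ k ∈ W, pw u e d₁ k) * ∑ k ∈ W, pw u e d₂ k) ≤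
        3 * Lam ^ 2 * T * (J * ∏ p ∈ d₁.primeFactors, (2 / (p : ℝ)) +
          ∏ p ∈ d₁.primeFactors, 2 * (|u p| + |e p|)) := by
      intro d₁ h₁
      rw [← sum_sub_distrib]
      have hb₁ := hw.bd d₁ h₁
      have hLam : 0 ≤ Lam := (abs_nonneg _).trans hb₁
      have hA : 0 ≤ 3 * ((J : ℝ) / d₁ + Ew u e d₁) := by
        have := SMc1_Ew_nonneg u e d₁
        positivity
      have h2 : ∀ d₂ ∈ D, w d₁ * w d₂ * ∑ k₁ ∈ W, ∑ k₂ ∈ W, jw u e d₁ d₂ k₁ k₂ -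
          w d₁ * w d₂ * ((∑ k ∈ W, pw u e d₁ k) * ∑ k ∈ W, pw u e d₂ k) ≤
          Lam ^ 2 * (3 * ((J : ℝ) / d₁ + Ew u e d₁)) * Ew u e (d₂ / d₁.gcd d₂) := by
        intro d₂ h₂
        rw [← mul_sub]
        refine (le_abs_self _).trans ?_
        rw [abs_mul, abs_mul]
        have hb₂ := hw.bd d₂ h₂
        calc |w d₁| * |w d₂| * |∑ k₁ ∈ W, ∑ k₂ ∈ W, jw u e d₁ d₂ k₁ k₂ -
                (∑ k ∈ W, pw u e d₁ k) * ∑ k ∈ W, pw u e d₂ k|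
            ≤ (Lam * Lam) * (3 * ((J : ℝ) / d₁ + Ew u e d₁) * Ew u e (d₂ / d₁.gcd d₂)) :=
              mul_le_mul (mul_le_mul hb₁ hb₂ (abs_nonneg _) hLam) (hcov d₁ h₁ d₂ h₂)
                (abs_nonneg _) (mul_nonneg hLam hLam)
          _ = Lam ^ 2 * (3 * ((J : ℝ) / d₁ + Ew u e d₁)) * Ew u e (d₂ / d₁.gcd d₂) := by ring
      refine (sum_le_sum h2).trans ?_
      rw [← mul_sum]
      have h3 := SMc2_sum_gcd P D u e d₁ (hw.sq d₁ h₁).1 hw.sq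
      refine (mul_le_mul_of_nonneg_left h3 (mul_nonneg (sq_nonneg _) hA)).trans (le_of_eq ?_)
      have hsq := (hw.sq d₁ h₁).2.1
      have e1 : ∏ p ∈ d₁.primeFactors, (2 / (p : ℝ)) = (d₁.divisors.card : ℝ) * (1 / d₁) := by
        rw [SMc2_card_divisors d₁ hsq, SMc2_prod_inv d₁ hsq, ← prod_mul_distrib]
        refine prod_congr rfl fun p _ => ?_
        ring
      have e2 : ∏ p ∈ d₁.primeFactors, 2 * (|u p| + |e p|) = (d₁.divisors.card : ℝ) * Ew u e d₁ := by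
        rw [SMc2_card_divisors d₁ hsq]
        unfold Ew
        rw [← prod_mul_distrib]
      rw [e1, e2, ← hT]
      ring
    refine (sum_le_sum h1).trans ?_
    rw [← mul_sum, sum_add_distrib, ← mul_sum]
    apply mul_le_mul_of_nonneg_left _ (by positivity)
    have h4 : ∑ d ∈ D, ∏ p ∈ d.primeFactors, (2 / (p : ℝ)) ≤ R := by
      rw [hR]
      exact SMc2_sum_le P D _ (fun p _ => by positivity) hw.sq
    have h5 : ∑ d ∈ D, ∏ p ∈ d.primeFactors, 2 * (|u p| + |e p|) ≤ Q := by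
      rw [hQ]
      exact SMc2_sum_le P D _ (fun p _ => by linarith [hfn p]) hw.sq
    have h6 := mul_le_mul_of_nonneg_left h4 (by positivity : (0 : ℝ) ≤ J)
    linarith
  have hmean : (M1 u e D w W - J * Vw D w) ^ 2 ≤ Lam ^ 2 * T ^ 2 := by
    have h1 := mean_err hL D w Lam hw a J
    have h2 : ∑ d ∈ D, Ew u e d ≤ T := by
      rw [hT]
      unfold Ew
      exact SMc2_sum_le P D _ (fun p _ => hfn p) hw.sq
    have h3 : 0 ≤ ∑ d ∈ D, Ew u e d := sum_nonneg fun d _ => SMc1_Ew_nonneg u e d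
    calc (M1 u e D w W - J * Vw D w) ^ 2 = |M1 u e D w W - J * Vw D w| ^ 2 := (sq_abs _).symm
      _ ≤ (Lam * ∑ d ∈ D, Ew u e d) ^ 2 := pow_le_pow_left₀ (abs_nonneg _) h1 2
      _ = Lam ^ 2 * (∑ d ∈ D, Ew u e d) ^ 2 := by ring
      _ ≤ Lam ^ 2 * T ^ 2 :=
          mul_le_mul_of_nonneg_left (pow_le_pow_left₀ h3 h2 2) (sq_nonneg _)
  have hfin : M2 u e D w W - 2 * (J * Vw D w) * M1 u e D w W + (J * Vw D w) ^ 2 =
      (M2 u e D w W - M1 u e D w W ^ 2) + (M1 u e D w W - J * Vw D w) ^ 2 := by ring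
  rw [hfin]
  have hR0 : 0 ≤ R := prod_nonneg fun p _ => by positivity
  have hQ0 : 0 ≤ Q := prod_nonneg fun p _ => by linarith [hfn p]
  have hJRQ : J * R + Q ≤ J * ((C2 + 81 * C6) * Lz ^ 6) := by
    have p1 : Lz ^ 2 ≤ Lz ^ 6 := pow_le_pow_right₀ hLz1 (by norm_num)
    have p2 : R ≤ C2 * Lz ^ 6 := hRle.trans (mul_le_mul_of_nonneg_left p1 (by linarith))
    have p3 : J * R ≤ J * (C2 * Lz ^ 6) := mul_le_mul_of_nonneg_left p2 (by linarith)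
    have p4 : Q ≤ J * (81 * C6 * Lz ^ 6) :=
      hQle.trans (le_mul_of_one_le_left (by positivity) hJ1)
    calc J * R + Q ≤ J * (C2 * Lz ^ 6) + J * (81 * C6 * Lz ^ 6) := add_le_add p3 p4
      _ = J * ((C2 + 81 * C6) * Lz ^ 6) := by ring
  have hA : 3 * Lam ^ 2 * T * (J * R + Q) ≤
      3 * Lam ^ 2 * (16 * C3 * Lz ^ 3) * (J * ((C2 + 81 * C6) * Lz ^ 6)) := by
    apply mul_le_mul _ hJRQ (by positivity) (by positivity)
    exact mul_le_mul_of_nonneg_left hTle (by positivity)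
  have hB : Lam ^ 2 * T ^ 2 ≤ Lam ^ 2 * (J * (16 * C3) ^ 2 * Lz ^ 9) := by
    apply mul_le_mul_of_nonneg_left _ (sq_nonneg _)
    calc T ^ 2 ≤ (16 * C3 * Lz ^ 3) ^ 2 := pow_le_pow_left₀ hT0 hTle 2
      _ = 1 * (16 * C3) ^ 2 * Lz ^ 6 := by ring
      _ ≤ J * (16 * C3) ^ 2 * Lz ^ 9 := by
          apply mul_le_mul _ (pow_le_pow_right₀ hLz1 (by norm_num)) (by positivity) (by positivity)
          exact mul_le_mul_of_nonneg_right hJ1 (by positivity)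
  calc (M2 u e D w W - M1 u e D w W ^ 2) + (M1 u e D w W - J * Vw D w) ^ 2
      ≤ 3 * Lam ^ 2 * (16 * C3 * Lz ^ 3) * (J * ((C2 + 81 * C6) * Lz ^ 6)) +
        Lam ^ 2 * (J * (16 * C3) ^ 2 * Lz ^ 9) := add_le_add (hdiff.trans hA) (hmean.trans hB)
    _ = (3 * (16 * C3) * (C2 + 81 * C6) + (16 * C3) ^ 2) * Lam ^ 2 * J * Lz ^ 9 := by ring

end Pool.Agent.Lib.RG
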