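import Pool.Agent.Lib.MP_7b7e48_nt.RG.PV
import Pool.Agent.Lib.MP_45349e_nt.LS.Defs

/-!
# Small multiples of every integer as sums of two rough integers with prescribed signs: definitions

Paper proof: `/team-store/RG_PROOF.md`. `lam` is the (real valued) Liouville function.
-/

open Finset
open Pool.Agent.Lib.MP_45349e_nt.LS (lam)

namespace Pool.Agent.Lib.RG

/-- all prime factors of `n` are `> z` -/
def Rough (z n : ℕ) : Prop := ∀ p : ℕ, p.Prime → p ∣ n → z < p

open Classical in
/-- the `z`-rough representatives `n ≤ B` of the class `x` modulo `N` -/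
noncomputable def RR (N z B : ℕ) (x : ZMod N) : Finset ℕ :=
  (Finset.Icc 1 B).filter fun n => (n : ZMod N) = x ∧ Rough z n

open Classical in
/-- the `k ≤ H` for which `k N = a + b` with coprime `z`-rough `a, b > 0` of signs `s, t` -/
noncomputable def KK (N H z : ℕ) (s t : ℝ) : Finset ℕ :=
  (Finset.Icc 1 H).filter fun k => ∃ a b : ℕ, 0 < a ∧ 0 < b ∧ a + b = k * N ∧ a.Coprime b ∧
    Rough z a ∧ Rough z b ∧ lam a = s ∧ lam b = t

open Classical in
/-- the units `x` for which at least half of the rough representatives have sign `e` -/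
noncomputable def Maj (N z B : ℕ) [NeZero N] (e : ℝ) : Finset (ZMod N) :=
  Finset.univ.filter fun x => IsUnit x ∧
    (RR N z B x).card ≤ 2 * ((RR N z B x).filter fun n => lam n = e).card

open Classical in
/-- the structure of the auxiliary parameters. `Q` is a set of primes in `(z, M]`, `κ` is larger than the
number of the `k` which are allowed -/
structure Setup (N H z M B κ : ℕ) (Q : Finset ℕ) : Prop where
  hN : 2 ≤ N
  hB : N ≤ B
  hM : 1 ≤ M ∧ M ≤ B
  size : 2 * M * B ≤ H * N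
  prime : ∀ l ∈ Q, l.Prime ∧ z < l ∧ l ≤ M ∧ ¬ l ∣ N
  two : ∀ n : ℕ, 1 ≤ n → n ≤ B → ∃ l ∈ Q, ¬ l ∣ n
  big : ∀ x : ZMod N, IsUnit x → ∀ m : ℕ, 1 ≤ m → m ≤ H * N → Rough z m →
    2 * (((RR N z B x).filter fun n => ¬ n.Coprime m).card + κ) < (RR N z B x).card

open Classical in
/-- the sign function on the residue classes -/
noncomputable def ff (N z B : ℕ) [NeZero N] (x : ZMod N) : ℝ :=
  if IsUnit x then (if x ∈ Maj N z B 1 then 1 else -1) else 0

/-- the real valued function `c` behaves like a real nonprincipal character modulo `N` -/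
structure RC (N : ℕ) (c : ℕ → ℝ) : Prop where
  mul : ∀ m n, c (m * n) = c m * c n
  val : ∀ n, n.Coprime N → c n = 1 ∨ c n = -1
  zero : ∀ n, ¬ n.Coprime N → c n = 0
  per : ∀ n, c (n + N) = c n
  pv : ∀ Y : ℕ, |∑ n ∈ Finset.Icc 1 Y, c n| ≤ PB N

/-- `L` is the value of the `L`-series of `c` at `1`, with an error term -/
def LV (N : ℕ) (c : ℕ → ℝ) (L : ℝ) : Prop := 0 ≤ L ∧ ∀ y : ℕ, 1 ≤ y →
  |∑ a ∈ Finset.Icc 1 y, c a / a - L| ≤ 2 * PB N / y

/-- `1 * c` -/
noncomputable def rr (c : ℕ → ℝ) (n : ℕ) : ℝ := ∑ d ∈ n.divisors, c d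

/-- summatory function of `1 * c` -/
noncomputable def SS (c : ℕ → ℝ) (y : ℕ) : ℝ := ∑ n ∈ Finset.Icc 1 y, rr c n

open Classical in
/-- the primes `≤ z` which do not divide `N` -/
noncomputable def PN (N z : ℕ) : Finset ℕ :=
  (Finset.range (z + 1)).filter fun p => p.Prime ∧ ¬ p ∣ N

open Classical in
/-- the rough `n ≤ y` which are coprime to `N` -/
noncomputable def RN (N z y : ℕ) : Finset ℕ :=
  (Finset.Icc 1 y).filter fun n => Rough z n ∧ n.Coprime N

open Classical in
/-- the rough `n ≤ y` with a prime factor `> W` -/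
noncomputable def BW (z y W : ℕ) : Finset ℕ :=
  (Finset.Icc 1 y).filter fun n => Rough z n ∧ ∃ p : ℕ, p.Prime ∧ W < p ∧ p ∣ n

open Classical in
/-- sum of `1/q` over the primes `z < q ≤ T` with `c q = 1` -/
noncomputable def sig (c : ℕ → ℝ) (z T : ℕ) : ℝ :=
  ∑ q ∈ (Finset.range (T + 1)).filter (fun q => q.Prime ∧ z < q ∧ c q = 1), 1 / (q : ℝ)

end Pool.Agent.Lib.RG
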