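import Pool.Agent.Lib.MP_7b7e48_nt.LG.PV

/-!
# The Polya-Vinogradov inequality for every modulus (weak form)

`pv_all`: for a non-principal Dirichlet character `χ` modulo `N ≥ 1`,
`‖∑_{n ≤ Y} χ n‖ ≤ τ(N) √N (1 + log N)` for every `Y`.
-/

set_option autoImplicit false

open Finset

namespace Pool.Agent.Lib.RG

open Pool.Agent.Lib.MP_7b7e48_nt.LG

/-- the Polya-Vinogradov bound -/
noncomputable def PB (N : ℕ) : ℝ := (N.divisors.card : ℝ) * Real.sqrt N * (1 + Real.log N)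

section four
variable {N : ℕ} [NeZero N] (χ : DirichletCharacter ℂ N)

/-- finite Fourier transform of a character -/
noncomputable def gch (a : ZMod N) : ℂ := ∑ x : ZMod N, χ x * ZMod.stdAddChar (a * x)

omit [NeZero N] in
theorem norm_chi_unit (u : (ZMod N)ˣ) : ‖χ (u : ZMod N)‖ = 1 := DirichletCharacter.unit_norm_eq_one χ u

theorem gch_unit (u : (ZMod N)ˣ) (a : ZMod N) : ‖gch χ (u * a)‖ = ‖gch χ a‖ := by
  have h1 : χ (u : ZMod N) * gch χ (u * a) = gch χ a := by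
    unfold gch
    rw [mul_sum]
    refine Fintype.sum_bijective (fun x => (u : ZMod N) * x) (Units.mulLeft_bijective u) _ _ ?_
    intro x
    rw [map_mul χ, show (u : ZMod N) * a * x = a * (u * x) by ring]
    ring
  have h2 := congrArg norm h1
  rw [norm_mul, norm_chi_unit, one_mul] at h2
  exact h2

theorem gch_zero (h : χ ≠ 1) : gch χ 0 = 0 := by
  unfold gch
  simp only [zero_mul, AddChar.map_zero_eq_one, mul_one]
  exact MulChar.sum_eq_zero_of_ne_one h

theorem sum_add (b : ZMod N) : ∑ a : ZMod N, ZMod.stdAddChar (a * b) = if b = 0 then (N : ℂ) else 0 := by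
  have h := AddChar.sum_mulShift b (ZMod.isPrimitive_stdAddChar N)
  rw [ZMod.card] at h
  rw [h]
  split_ifs <;> simp

theorem gch_inv (n : ZMod N) : (N : ℂ) * χ n = ∑ a : ZMod N, gch χ (-a) * ZMod.stdAddChar (a * n) := by
  classical
  unfold gch
  simp_rw [sum_mul]
  rw [sum_comm]
  have h1 : ∀ x : ZMod N, ∑ a : ZMod N, χ x * ZMod.stdAddChar (-a * x) * ZMod.stdAddChar (a * n) =
      χ x * if n - x = 0 then (N : ℂ) else 0 := by
    intro x
    rw [← sum_add, mul_sum]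
    refine sum_congr rfl fun a _ => ?_
    rw [mul_assoc, ← AddChar.map_add_eq_mul]
    congr 2
    ring
  simp_rw [h1, mul_ite, mul_zero]
  rw [Finset.sum_eq_single n]
  · rw [if_pos (sub_self n)]; ring
  · intro x _ hx
    rw [if_neg]
    intro h
    exact hx (sub_eq_zero.mp h).symm
  · intro h; exact absurd (mem_univ n) h

theorem sum_norm_gch : ∑ a : ZMod N, ‖gch χ a‖ ^ 2 = N * ∑ x : ZMod N, ‖χ x‖ ^ 2 := by
  classical
  have h1 : ∀ a : ZMod N, ((‖gch χ a‖ ^ 2 : ℝ) : ℂ) =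
      ∑ x : ZMod N, ∑ y : ZMod N, (χ x * (starRingEnd ℂ) (χ y)) * ZMod.stdAddChar (a * (x - y)) := by
    intro a
    have h2 := Complex.mul_conj' (gch χ a)
    rw [Complex.ofReal_pow, ← h2]
    unfold gch
    rw [map_sum, sum_mul_sum]
    refine sum_congr rfl fun x _ => sum_congr rfl fun y _ => ?_
    rw [map_mul (starRingEnd ℂ), ← AddChar.map_neg_eq_conj]
    have h3 : ZMod.stdAddChar (a * (x - y)) =
        ZMod.stdAddChar (a * x) * ZMod.stdAddChar (-(a * y)) := by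
      rw [← AddChar.map_add_eq_mul]
      congr 1
      ring
    rw [h3]
    ring
  have h4 : ((∑ a : ZMod N, ‖gch χ a‖ ^ 2 : ℝ) : ℂ) = ((N * ∑ x : ZMod N, ‖χ x‖ ^ 2 : ℝ) : ℂ) := by
    rw [Complex.ofReal_sum]
    simp_rw [h1]
    rw [sum_comm]
    push_cast
    rw [mul_sum]
    refine sum_congr rfl fun x _ => ?_
    rw [sum_comm]
    have h5 : ∀ y : ZMod N, ∑ a : ZMod N, (χ x * (starRingEnd ℂ) (χ y)) * ZMod.stdAddChar (a * (x - y)) =
        (χ x * (starRingEnd ℂ) (χ y)) * if x - y = 0 then (N : ℂ) else 0 := by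
      intro y
      rw [← mul_sum, sum_add]
    simp_rw [h5]
    rw [Finset.sum_eq_single x]
    · rw [if_pos (sub_self x), Complex.mul_conj']
      ring
    · intro y _ hy
      rw [if_neg, mul_zero]
      intro h
      exact hy (sub_eq_zero.mp h).symm
    · intro h; exact absurd (mem_univ x) h
  exact_mod_cast h4

theorem sum_norm_chi : ∑ x : ZMod N, ‖χ x‖ ^ 2 = (Fintype.card (ZMod N)ˣ : ℝ) := by
  classical
  have h1 : ∑ x ∈ (univ : Finset (ZMod N)ˣ).image (Units.val : (ZMod N)ˣ → ZMod N), ‖χ x‖ ^ 2 =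
      ∑ x : ZMod N, ‖χ x‖ ^ 2 := by
    refine Finset.sum_subset (subset_univ _) fun x _ hx => ?_
    have h2 : ¬ IsUnit x := by
      rintro ⟨u, rfl⟩
      exact hx (mem_image_of_mem _ (mem_univ u))
    rw [MulChar.map_nonunit χ h2]
    simp
  rw [← h1, sum_image (fun u _ v _ h => Units.ext h)]
  simp_rw [norm_chi_unit]
  simp

/-- fibres of the multiplication by `a` -/
theorem card_fiber (a b : ZMod N) :
    ((univ : Finset (ZMod N)ˣ).filter (fun u : (ZMod N)ˣ => (u : ZMod N) * a = b)).card ≤ Nat.gcd a.val N := by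
  classical
  have hN : 0 < N := Nat.pos_of_ne_zero (NeZero.ne N)
  set g := Nat.gcd a.val N with hg
  have hgpos : 0 < g := Nat.gcd_pos_of_pos_right _ hN
  have hgN : g ∣ N := Nat.gcd_dvd_right _ _
  have hga : g ∣ a.val := Nat.gcd_dvd_left _ _
  obtain ⟨M, hM⟩ := hgN
  obtain ⟨A, hA⟩ := hga
  have hMpos : 0 < M := by
    rcases Nat.eq_zero_or_pos M with h | h
    · rw [h, mul_zero] at hM; omega
    · exact h
  have hcop : Nat.Coprime A M := by
    have h1 := Nat.coprime_div_gcd_div_gcd (m := a.val) (n := N) hgpos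
    rw [← hg] at h1
    have h2 : a.val / g = A := by rw [hA, Nat.mul_div_cancel_left _ hgpos]
    have h3 : N / g = M := by
      conv_lhs => rw [hM]
      exact Nat.mul_div_cancel_left _ hgpos
    rwa [h2, h3] at h1
  have hval : ∀ u : (ZMod N)ˣ, (u : ZMod N).val < N := fun u => ZMod.val_lt _
  rw [← card_range g]
  refine Finset.card_le_card_of_injOn (fun u : (ZMod N)ˣ => (u : ZMod N).val / M) ?_ ?_
  · intro u _
    rw [mem_coe, mem_range]
    have h1 := hval u
    rw [Nat.div_lt_iff_lt_mul hMpos, ← hM]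
    exact h1
  · intro u hu v hv huv
    rw [mem_coe, mem_filter] at hu hv
    have h1 : ((u : ZMod N) - v) * a = 0 := by rw [sub_mul, hu.2, hv.2, sub_self]
    have h2 : ((((u : ZMod N).val : ℤ) - ((v : ZMod N).val : ℤ)) * (a.val : ℤ) : ℤ) ∣ 0 := dvd_zero _
    have h3 : (N : ℤ) ∣ (((u : ZMod N).val : ℤ) - ((v : ZMod N).val : ℤ)) * (a.val : ℤ) := by
      rw [← ZMod.intCast_zmod_eq_zero_iff_dvd]
      push_cast
      rw [ZMod.natCast_zmod_val, ZMod.natCast_zmod_val, ZMod.natCast_zmod_val]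
      exact h1
    have h4 : (M : ℤ) ∣ (((u : ZMod N).val : ℤ) - ((v : ZMod N).val : ℤ)) * (A : ℤ) := by
      have h5 : ((g : ℤ) * M) ∣ (g : ℤ) * ((((u : ZMod N).val : ℤ) - ((v : ZMod N).val : ℤ)) * (A : ℤ)) := by
        have e1 : ((g : ℤ) * M) = N := by exact_mod_cast hM.symm
        have e2 : (g : ℤ) * ((((u : ZMod N).val : ℤ) - ((v : ZMod N).val : ℤ)) * (A : ℤ)) =
            (((u : ZMod N).val : ℤ) - ((v : ZMod N).val : ℤ)) * (a.val : ℤ) := by
          rw [hA]; push_cast; ring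
        rw [e1, e2]
        exact h3
      exact (mul_dvd_mul_iff_left (by exact_mod_cast hgpos.ne')).mp h5
    have h6 : (M : ℤ) ∣ (((u : ZMod N).val : ℤ) - ((v : ZMod N).val : ℤ)) := by
      refine IsCoprime.dvd_of_dvd_mul_right ?_ h4
      exact (Nat.isCoprime_iff_coprime.mpr hcop).symm
    have h7 : (u : ZMod N).val % M = (v : ZMod N).val % M := by
      have h8 : ((v : ZMod N).val : ℤ) ≡ ((u : ZMod N).val : ℤ) [ZMOD M] := (Int.modEq_iff_dvd.mpr h6)
      exact ((Int.natCast_modEq_iff.mp h8)).symm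
    have h9 : (u : ZMod N).val = (v : ZMod N).val := by
      rw [← Nat.div_add_mod (u : ZMod N).val M, ← Nat.div_add_mod (v : ZMod N).val M, h7]
      have : (u : ZMod N).val / M = (v : ZMod N).val / M := huv
      rw [this]
    exact Units.ext (ZMod.val_injective N h9)

theorem norm_gch_le (a : ZMod N) : ‖gch χ a‖ ^ 2 ≤ N * Nat.gcd a.val N := by
  classical
  have hc : (0 : ℝ) < (Fintype.card (ZMod N)ˣ : ℝ) := by
    exact_mod_cast Fintype.card_pos
  have h1 : (Fintype.card (ZMod N)ˣ : ℝ) * ‖gch χ a‖ ^ 2 = ∑ u : (ZMod N)ˣ, ‖gch χ (u * a)‖ ^ 2 := by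
    simp_rw [gch_unit]
    rw [sum_const, nsmul_eq_mul, Finset.card_univ]
  have h2 : ∑ u : (ZMod N)ˣ, ‖gch χ (u * a)‖ ^ 2 ≤
      (Nat.gcd a.val N : ℝ) * ∑ b : ZMod N, ‖gch χ b‖ ^ 2 := by
    rw [← Finset.sum_fiberwise (s := (univ : Finset (ZMod N)ˣ)) (g := fun u : (ZMod N)ˣ => (u : ZMod N) * a),
      mul_sum]
    refine sum_le_sum fun b _ => ?_
    have h3 : ∑ u ∈ (univ : Finset (ZMod N)ˣ).filter (fun u : (ZMod N)ˣ => (u : ZMod N) * a = b),
          ‖gch χ ((u : ZMod N) * a)‖ ^ 2 =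
        ∑ u ∈ (univ : Finset (ZMod N)ˣ).filter (fun u : (ZMod N)ˣ => (u : ZMod N) * a = b),
          ‖gch χ b‖ ^ 2 := by
      refine sum_congr rfl fun u hu => ?_
      rw [(mem_filter.mp hu).2]
    rw [h3, sum_const, nsmul_eq_mul]
    refine mul_le_mul_of_nonneg_right ?_ (by positivity)
    exact_mod_cast card_fiber a b
  rw [sum_norm_gch, sum_norm_chi] at h2
  rw [← h1] at h2
  have h4 : (Fintype.card (ZMod N)ˣ : ℝ) * ‖gch χ a‖ ^ 2 ≤
      (Fintype.card (ZMod N)ˣ : ℝ) * (N * Nat.gcd a.val N) := by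
    refine h2.trans (le_of_eq ?_)
    ring
  exact le_of_mul_le_mul_left h4 hc

end four

/-- the arithmetic sum of Polya-Vinogradov -/
theorem sum_gcd_le (N : ℕ) (hN : 1 ≤ N) :
    ∑ k ∈ Icc 1 (N - 1), Real.sqrt (Nat.gcd k N) * ((k : ℕ) : ℝ)⁻¹ ≤
      (N.divisors.card : ℝ) * (1 + Real.log N) := by
  classical
  have hN0 : N ≠ 0 := by omega
  have hharm : ∑ m ∈ Icc 1 (N - 1), ((m : ℕ) : ℝ)⁻¹ ≤ 1 + Real.log N := by
    rcases Nat.lt_or_ge N 2 with h | h
    · have : N = 1 := by omega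
      subst this
      simp
    · have h8 := harmonic_le_one_add_log (N - 1)
      simp_rw [harmonic_eq_sum_Icc, Rat.cast_sum, Rat.cast_inv, Rat.cast_natCast] at h8
      have h9 : Real.log ((N - 1 : ℕ) : ℝ) ≤ Real.log N := by
        apply Real.log_le_log
        · have : 0 < N - 1 := by omega
          exact_mod_cast this
        · exact_mod_cast Nat.sub_le N 1
      linarith
  have h1 : ∀ k ∈ Icc 1 (N - 1), Real.sqrt (Nat.gcd k N) * ((k : ℕ) : ℝ)⁻¹ ≤
      ∑ d ∈ N.divisors, if d ∣ k then Real.sqrt d * ((k : ℕ) : ℝ)⁻¹ else 0 := by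
    intro k hk
    have h2 : Nat.gcd k N ∈ N.divisors := Nat.mem_divisors.mpr ⟨Nat.gcd_dvd_right _ _, hN0⟩
    have h3 := Finset.single_le_sum (f := fun d : ℕ => if d ∣ k then Real.sqrt d * ((k : ℕ) : ℝ)⁻¹ else 0)
      (s := N.divisors) (fun d _ => by
        show (0 : ℝ) ≤ if d ∣ k then Real.sqrt d * ((k : ℕ) : ℝ)⁻¹ else 0
        split_ifs
        · positivity
        · exact le_refl 0) h2
    simp only [if_pos (Nat.gcd_dvd_left k N)] at h3
    exact h3
  refine (sum_le_sum h1).trans ?_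
  rw [sum_comm]
  have h4 : ∀ d ∈ N.divisors, ∑ k ∈ Icc 1 (N - 1), (if d ∣ k then Real.sqrt d * ((k : ℕ) : ℝ)⁻¹ else 0) ≤
      1 + Real.log N := by
    intro d hd
    have hd1 : 0 < d := Nat.pos_of_mem_divisors hd
    have hdr : (1 : ℝ) ≤ d := by exact_mod_cast hd1
    rw [← sum_filter]
    have hinj : Set.InjOn (fun k => k / d) (((Icc 1 (N - 1)).filter (fun k => d ∣ k) : Finset ℕ) : Set ℕ) := by
      intro k hk k' hk' h
      rw [mem_coe, mem_filter] at hk hk'
      have h' : k / d = k' / d := h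
      rw [← Nat.div_mul_cancel hk.2, ← Nat.div_mul_cancel hk'.2, h']
    have h5 : ∑ k ∈ (Icc 1 (N - 1)).filter (fun k => d ∣ k), Real.sqrt d * ((k : ℕ) : ℝ)⁻¹ ≤
        ∑ k ∈ (Icc 1 (N - 1)).filter (fun k => d ∣ k), (((k / d : ℕ) : ℕ) : ℝ)⁻¹ := by
      refine sum_le_sum fun k hk => ?_
      obtain ⟨hk1, m, rfl⟩ := mem_filter.mp hk
      have hm : 0 < m := by
        rcases Nat.eq_zero_or_pos m with h | h
        · subst h
          have := (mem_Icc.mp hk1).1
          omega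
        · exact h
      rw [Nat.mul_div_cancel_left _ hd1]
      have hmr : (0 : ℝ) < m := by exact_mod_cast hm
      push_cast
      rw [mul_inv, ← mul_assoc]
      have h6 : Real.sqrt d * (d : ℝ)⁻¹ ≤ 1 := by
        rw [← div_eq_mul_inv, div_le_one (by linarith)]
        rw [Real.sqrt_le_left (by linarith)]
        nlinarith
      calc Real.sqrt d * (d : ℝ)⁻¹ * (m : ℝ)⁻¹ ≤ 1 * (m : ℝ)⁻¹ := by gcongr
        _ = _ := one_mul _
    refine h5.trans ?_
    rw [← sum_image (f := fun m : ℕ => ((m : ℕ) : ℝ)⁻¹) hinj]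
    refine (sum_le_sum_of_subset_of_nonneg ?_ fun _ _ _ => by positivity).trans hharm
    intro m hm
    obtain ⟨k, hk, rfl⟩ := mem_image.mp hm
    obtain ⟨hk1, hk2⟩ := mem_filter.mp hk
    obtain ⟨h7, h8⟩ := mem_Icc.mp hk1
    refine mem_Icc.mpr ⟨Nat.div_pos (Nat.le_of_dvd (by omega) hk2) hd1, ?_⟩
    exact (Nat.div_le_self k d).trans h8
  refine (sum_le_sum h4).trans ?_
  rw [sum_const, nsmul_eq_mul]

/-- **Polya-Vinogradov** for all moduli (weak form). -/
theorem pv_all (N : ℕ) [hN : NeZero N] (χ : DirichletCharacter ℂ N) (h : χ ≠ 1) (Y : ℕ) :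
    ‖∑ n ∈ Icc 1 Y, χ (n : ZMod N)‖ ≤ (N.divisors.card : ℝ) * Real.sqrt N * (1 + Real.log N) := by
  have hNpos : 0 < N := Nat.pos_of_ne_zero hN.out
  have hNr : (0 : ℝ) < N := by exact_mod_cast hNpos
  have h1 : (N : ℂ) * ∑ n ∈ Icc 1 Y, χ (n : ZMod N) =
      ∑ a : ZMod N, gch χ (-a) * ∑ n ∈ Icc 1 Y, (ZMod.stdAddChar a) ^ n := by
    rw [mul_sum]
    have h2 : ∀ n ∈ Icc 1 Y, (N : ℂ) * χ (n : ZMod N) =
        ∑ a : ZMod N, gch χ (-a) * (ZMod.stdAddChar a) ^ n := by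
      intro n _
      rw [gch_inv]
      refine sum_congr rfl fun a _ => ?_
      rw [← AddChar.map_nsmul_eq_pow, nsmul_eq_mul, mul_comm a]
    rw [sum_congr rfl h2, sum_comm]
    refine sum_congr rfl fun x _ => ?_
    rw [mul_sum]
  have h5 : ∀ a ∈ (univ : Finset (ZMod N)).erase 0,
      ‖gch χ (-a) * ∑ n ∈ Icc 1 Y, (ZMod.stdAddChar a) ^ n‖ ≤
      Real.sqrt N * (Real.sqrt (Nat.gcd a.val N) *
        ((N : ℝ) / 2 * (((a.val : ℕ) : ℝ)⁻¹ + (((N - a.val : ℕ) : ℕ) : ℝ)⁻¹))) := by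
    intro a ha
    have ha0 : a ≠ 0 := (mem_erase.mp ha).1
    have h6 : ZMod.stdAddChar a ≠ 1 := by
      intro h7
      apply ha0
      apply ZMod.injective_stdAddChar
      rw [h7, AddChar.map_zero_eq_one]
    have h7 : ‖gch χ (-a)‖ ≤ Real.sqrt N * Real.sqrt (Nat.gcd a.val N) := by
      have h8 : ‖gch χ (-a)‖ = ‖gch χ a‖ := by
        have := gch_unit χ (-1) a
        rwa [Units.val_neg, Units.val_one, neg_one_mul] at this
      rw [h8, ← Real.sqrt_mul hNr.le]
      exact Real.le_sqrt_of_sq_le (norm_gch_le χ a)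
    rw [norm_mul, ← mul_assoc]
    refine mul_le_mul h7 ?_ (norm_nonneg _) (by positivity)
    exact (pv_geom _ (pv_norm_char N a) h6 Y).trans (pv_dist N a ha0)
  have h9 : ‖(N : ℂ) * ∑ n ∈ Icc 1 Y, χ (n : ZMod N)‖ ≤
      Real.sqrt N * (N * ((N.divisors.card : ℝ) * (1 + Real.log N))) := by
    rw [h1, ← Finset.add_sum_erase univ _ (mem_univ (0 : ZMod N)), neg_zero, gch_zero χ h, zero_mul,
      zero_add]
    refine (norm_sum_le _ _).trans ?_
    refine (sum_le_sum h5).trans ?_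
    rw [← mul_sum]
    refine mul_le_mul_of_nonneg_left ?_ (Real.sqrt_nonneg _)
    have h10 : ∀ f : ℕ → ℝ, ∑ x ∈ (univ : Finset (ZMod N)).erase 0, f x.val =
        ∑ k ∈ Icc 1 (N - 1), f k := by
      intro f
      refine Finset.sum_nbij' (fun x => x.val) (fun k => (k : ZMod N)) ?_ ?_ ?_ ?_ ?_
      · intro x hx
        have hx0 : x ≠ 0 := (mem_erase.mp hx).1
        have h2 : x.val ≠ 0 := fun h => hx0 ((ZMod.val_eq_zero x).mp h)
        have h3 := ZMod.val_lt x
        exact mem_Icc.mpr ⟨by omega, by omega⟩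
      · intro k hk
        obtain ⟨h2, h3⟩ := mem_Icc.mp hk
        refine mem_erase.mpr ⟨?_, mem_univ _⟩
        intro h4
        rw [ZMod.natCast_eq_zero_iff] at h4
        have := Nat.le_of_dvd (by omega) h4
        omega
      · intro x _
        exact ZMod.natCast_zmod_val x
      · intro k hk
        obtain ⟨h2, h3⟩ := mem_Icc.mp hk
        exact ZMod.val_cast_of_lt (by omega)
      · intro x _
        rfl
    rw [h10 (fun k => Real.sqrt (Nat.gcd k N) *
        ((N : ℝ) / 2 * (((k : ℕ) : ℝ)⁻¹ + (((N - k : ℕ) : ℕ) : ℝ)⁻¹)))]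
    have h11 : ∑ k ∈ Icc 1 (N - 1), Real.sqrt (Nat.gcd k N) * (((N - k : ℕ) : ℕ) : ℝ)⁻¹ =
        ∑ k ∈ Icc 1 (N - 1), Real.sqrt (Nat.gcd k N) * ((k : ℕ) : ℝ)⁻¹ := by
      refine Finset.sum_nbij' (fun k => N - k) (fun k => N - k) ?_ ?_ ?_ ?_ ?_
      · intro k hk
        obtain ⟨h2, h3⟩ := mem_Icc.mp hk
        exact mem_Icc.mpr ⟨by omega, by omega⟩
      · intro k hk
        obtain ⟨h2, h3⟩ := mem_Icc.mp hk
        exact mem_Icc.mpr ⟨by omega, by omega⟩
      · intro k hk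
        obtain ⟨h2, h3⟩ := mem_Icc.mp hk
        omega
      · intro k hk
        obtain ⟨h2, h3⟩ := mem_Icc.mp hk
        omega
      · intro k hk
        obtain ⟨h2, h3⟩ := mem_Icc.mp hk
        have h4 : Nat.gcd (N - k) N = Nat.gcd k N := by
          rw [Nat.gcd_comm (N - k) N, Nat.gcd_comm k N]
          exact Nat.gcd_self_sub_right (by omega)
        rw [h4]
    have h12 : ∑ k ∈ Icc 1 (N - 1), Real.sqrt (Nat.gcd k N) *
        ((N : ℝ) / 2 * (((k : ℕ) : ℝ)⁻¹ + (((N - k : ℕ) : ℕ) : ℝ)⁻¹)) =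
        N * ∑ k ∈ Icc 1 (N - 1), Real.sqrt (Nat.gcd k N) * ((k : ℕ) : ℝ)⁻¹ := by
      have h13 : ∀ k ∈ Icc 1 (N - 1), Real.sqrt (Nat.gcd k N) *
          ((N : ℝ) / 2 * (((k : ℕ) : ℝ)⁻¹ + (((N - k : ℕ) : ℕ) : ℝ)⁻¹)) =
          (N : ℝ) / 2 * (Real.sqrt (Nat.gcd k N) * ((k : ℕ) : ℝ)⁻¹) +
          (N : ℝ) / 2 * (Real.sqrt (Nat.gcd k N) * (((N - k : ℕ) : ℕ) : ℝ)⁻¹) := by
        intro k _
        ring
      rw [sum_congr rfl h13, sum_add_distrib, ← mul_sum, ← mul_sum, h11]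
      ring
    rw [h12]
    exact mul_le_mul_of_nonneg_left (sum_gcd_le N hNpos) hNr.le
  rw [norm_mul, Complex.norm_natCast] at h9
  have h14 : (N : ℝ) * ‖∑ n ∈ Icc 1 Y, χ (n : ZMod N)‖ ≤
      N * ((N.divisors.card : ℝ) * Real.sqrt N * (1 + Real.log N)) := by
    refine h9.trans (le_of_eq ?_)
    ring
  exact le_of_mul_le_mul_left h14 hNr

theorem PVall (N : ℕ) [NeZero N] (_h2 : 2 ≤ N) (chi : DirichletCharacter ℂ N) (h : chi ≠ 1) (Y : ℕ) :
    ‖∑ n ∈ Icc 1 Y, chi (n : ZMod N)‖ ≤ PB N := pv_all N chi h Y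

/-- the divisor bound -/
theorem divisor_bound (e : ℝ) (he : 0 < e) : ∃ C : ℝ, 1 ≤ C ∧ ∀ N : ℕ, 1 ≤ N →
    (N.divisors.card : ℝ) ≤ C * (N : ℝ) ^ e := by
  classical
  set K : ℝ := max 1 (1 / (e * Real.log 2)) with hK
  have hK1 : 1 ≤ K := le_max_left _ _
  have hl2 : 0 < Real.log 2 := Real.log_pos (by norm_num)
  have hK2 : 1 ≤ K * (e * Real.log 2) := by
    have h1 : 1 / (e * Real.log 2) ≤ K := le_max_right _ _
    rw [div_le_iff₀ (by positivity)] at h1
    exact h1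
  set P0 : ℕ := ⌈(2 : ℝ) ^ (1 / e)⌉₊ with hP0
  refine ⟨K ^ P0, one_le_pow₀ hK1, ?_⟩
  intro N hN
  have hN0 : N ≠ 0 := by omega
  rw [Nat.card_divisors hN0]
  push_cast
  have h1 : (N : ℝ) ^ e = ∏ p ∈ N.primeFactors, (((p : ℝ) ^ (N.factorization p)) ^ e) := by
    rw [Real.finsetProd_rpow _ _ (fun p _ => by positivity)]
    congr 1
    have h2 : N = ∏ p ∈ N.primeFactors, p ^ (N.factorization p) := by
      conv_lhs => rw [← Nat.prod_factorization_pow_eq_self hN0]
      rfl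
    conv_lhs => rw [h2]
    push_cast
    rfl
  have hterm : ∀ p ∈ N.primeFactors, ((N.factorization p : ℝ) + 1) ≤
      (if p < P0 then K else 1) * (((p : ℝ) ^ (N.factorization p)) ^ e) := by
    intro p hp
    have hpp := Nat.prime_of_mem_primeFactors hp
    have hp2 : (2 : ℝ) ≤ p := by exact_mod_cast hpp.two_le
    set a := N.factorization p with ha
    have h3 : (((p : ℝ) ^ a) ^ e) = Real.exp (a * (e * Real.log p)) := by
      rw [← Real.rpow_natCast, ← Real.rpow_mul (by linarith), Real.rpow_def_of_pos (by linarith)]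
      congr 1
      ring
    have h4 := Real.add_one_le_exp (a * (e * Real.log p))
    have ha0 : (0 : ℝ) ≤ a := Nat.cast_nonneg a
    by_cases h : p < P0
    · rw [if_pos h, h3]
      have h5 : Real.log 2 ≤ Real.log p := Real.log_le_log (by norm_num) hp2
      have h6 : 1 ≤ K * (e * Real.log p) := hK2.trans (by gcongr)
      have h7 : (a : ℝ) + 1 ≤ K * (a * (e * Real.log p) + 1) := by
        nlinarith [mul_le_mul_of_nonneg_left h6 ha0]
      exact h7.trans (mul_le_mul_of_nonneg_left h4 (by linarith))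
    · rw [if_neg h, one_mul, h3]
      have h5 : (2 : ℝ) ^ (1 / e) ≤ p := by
        refine (Nat.le_ceil _).trans ?_
        exact_mod_cast not_lt.mp h
      have h6 : Real.log 2 ≤ e * Real.log p := by
        have h7 := Real.log_le_log (by positivity) h5
        rw [Real.log_rpow (by norm_num)] at h7
        have h8 := mul_le_mul_of_nonneg_left h7 he.le
        have h9 : e * (1 / e * Real.log 2) = Real.log 2 := by
          field_simp
        linarith
      have h10 : (a : ℝ) + 1 ≤ Real.exp (a * Real.log 2) := by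
        rw [mul_comm, ← Real.rpow_def_of_pos (by norm_num), Real.rpow_natCast]
        have h11 : a < 2 ^ a := Nat.lt_two_pow_self
        exact_mod_cast h11
      exact h10.trans (Real.exp_le_exp.mpr (by gcongr))
  calc ∏ p ∈ N.primeFactors, ((N.factorization p : ℝ) + 1)
      ≤ ∏ p ∈ N.primeFactors, ((if p < P0 then K else 1) * (((p : ℝ) ^ (N.factorization p)) ^ e)) :=
        Finset.prod_le_prod (fun p _ => by positivity) hterm
    _ = (∏ p ∈ N.primeFactors, (if p < P0 then K else 1)) * (N : ℝ) ^ e := by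
        rw [Finset.prod_mul_distrib, ← h1]
    _ ≤ K ^ P0 * (N : ℝ) ^ e := by
        refine mul_le_mul_of_nonneg_right ?_ (by positivity)
        rw [← Finset.prod_filter, Finset.prod_const]
        refine pow_le_pow_right₀ hK1 ?_
        calc (N.primeFactors.filter (fun p => p < P0)).card ≤ (range P0).card := by
              refine Finset.card_le_card fun p hp => ?_
              exact mem_range.mpr (mem_filter.mp hp).2
          _ = P0 := card_range P0

theorem PB_le (e : ℝ) (he : 0 < e) : ∃ C : ℝ, 0 < C ∧ ∀ N : ℕ, 2 ≤ N →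
    PB N ≤ C * (N : ℝ) ^ (1 / 2 + e) ∧ (N.divisors.card : ℝ) ≤ C * (N : ℝ) ^ e := by
  obtain ⟨C1, hC1, h1⟩ := divisor_bound (e / 2) (by linarith)
  refine ⟨C1 * (1 + 2 / e), by positivity, ?_⟩
  intro N hN
  have hNr : (1 : ℝ) ≤ N := by exact_mod_cast (by omega : 1 ≤ N)
  have hNpos : (0 : ℝ) < N := by linarith
  have h2 := h1 N (by omega)
  have h3 : 1 + Real.log N ≤ (1 + 2 / e) * (N : ℝ) ^ (e / 2) := by
    have h4 := Real.log_le_rpow_div (x := (N : ℝ)) hNpos.le (show 0 < e / 2 by linarith)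
    have h5 : (1 : ℝ) ≤ (N : ℝ) ^ (e / 2) := Real.one_le_rpow hNr (by linarith)
    have h6 : (N : ℝ) ^ (e / 2) / (e / 2) = 2 / e * (N : ℝ) ^ (e / 2) := by
      field_simp
    rw [h6] at h4
    linarith
  have hlog : 0 ≤ Real.log N := Real.log_nonneg hNr
  constructor
  · unfold PB
    have h7 : (N : ℝ) ^ (1 / 2 + e) = (N : ℝ) ^ (e / 2) * Real.sqrt N * (N : ℝ) ^ (e / 2) := by
      rw [Real.sqrt_eq_rpow, ← Real.rpow_add hNpos, ← Real.rpow_add hNpos]
      congr 1
      ring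
    rw [h7]
    calc (N.divisors.card : ℝ) * Real.sqrt N * (1 + Real.log N)
        ≤ (C1 * (N : ℝ) ^ (e / 2)) * Real.sqrt N * ((1 + 2 / e) * (N : ℝ) ^ (e / 2)) := by
          gcongr
      _ = _ := by ring
  · refine h2.trans ?_
    have h8 : (N : ℝ) ^ (e / 2) ≤ (N : ℝ) ^ e := Real.rpow_le_rpow_of_exponent_le hNr (by linarith)
    have h9 : (1 : ℝ) ≤ 1 + 2 / e := by
      have : 0 < 2 / e := by positivity
      linarith
    calc C1 * (N : ℝ) ^ (e / 2) ≤ (C1 * 1) * (N : ℝ) ^ e := by rw [mul_one]; gcongr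
      _ ≤ C1 * (1 + 2 / e) * (N : ℝ) ^ e := by gcongr

end Pool.Agent.Lib.RG
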