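import Pool.Agent.Lib.MP_7b7e48_nt.RG.Defs
import Pool.Agent.Lib.SW.Siegel
import Pool.Agent.Lib.SW.RealChar

/-!
# Module A2 (60 minutes): real characters, value at 1, Siegel

PROOF. Copy of `Lib/MP_7b7e48_nt/LG/QCH.lean` and `Lib/MP_7b7e48_nt/LG/F1.lean` with `PVall` (all moduli) instead of `PV`:
`c n = Re χ n` is `±1` for `n` coprime to `N` (`χ n ^ 2 = 1`), `0` otherwise, multiplicative since `χ n` is real. Abel
summation with `PVall`: `|∑_{y < a ≤ z} c a / a| ≤ 2 PB N / y`, and `∑_{a ≤ z} c a / a → L(χ, 1)` by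
`SW.LFunction_sub_sum_le`. The imaginary part of `L(χ, 1)` is `0` (`SW.LFunction_im`), so
`|L| = ‖L(χ, 1)‖ ≥ κ N^(-δ)` by `SW.siegel δ` (it is stated for all moduli); `0 < L` is `SW.LFunction_pos`.
-/

open Finset

namespace Pool.Agent.Lib.RG

private theorem a2_Ioc (c : ℕ → ℝ) {y M : ℕ} (h : y ≤ M) :
    ∑ a ∈ Finset.Ioc y M, c a = ∑ a ∈ Finset.Icc 1 M, c a - ∑ a ∈ Finset.Icc 1 y, c a := by
  have i1 : Finset.Icc 1 M = Finset.Ioc 0 M := by
    ext n; simp only [Finset.mem_Icc, Finset.mem_Ioc]; omega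
  have i2 : Finset.Icc 1 y = Finset.Ioc 0 y := by
    ext n; simp only [Finset.mem_Icc, Finset.mem_Ioc]; omega
  rw [i1, i2, ← Finset.sum_Ioc_consecutive c (Nat.zero_le y) h]
  ring

private theorem a2_abel (c : ℕ → ℝ) (B : ℝ)
    (hB : ∀ Y : ℕ, |∑ n ∈ Finset.Icc 1 Y, c n| ≤ B) (y : ℕ) (hy : 1 ≤ y) (M : ℕ) (hM : y ≤ M) :
    |∑ a ∈ Finset.Ioc y M, c a / a - (∑ a ∈ Finset.Ioc y M, c a) / M| ≤
      2 * B * (1 / y - 1 / M) := by
  induction M, hM using Nat.le_induction with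
  | base => simp
  | succ M hM ih =>
    rw [Finset.sum_Ioc_succ_top hM, Finset.sum_Ioc_succ_top hM]
    have hM1 : (1 : ℝ) ≤ M := by exact_mod_cast hy.trans hM
    have hM0 : (0 : ℝ) < M := by linarith
    have hT : |∑ a ∈ Finset.Ioc y M, c a| ≤ 2 * B := by
      rw [a2_Ioc c hM]
      refine (abs_sub _ _).trans ?_
      linarith [hB M, hB y]
    have hd : 0 ≤ 1 / (M : ℝ) - 1 / ((M : ℝ) + 1) := by
      rw [sub_nonneg]
      exact one_div_le_one_div_of_le hM0 (by linarith)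
    have e : ∑ a ∈ Finset.Ioc y M, c a / a + c (M + 1) / ((M + 1 : ℕ) : ℝ) -
        (∑ a ∈ Finset.Ioc y M, c a + c (M + 1)) / ((M + 1 : ℕ) : ℝ) =
        (∑ a ∈ Finset.Ioc y M, c a / a - (∑ a ∈ Finset.Ioc y M, c a) / M) +
          (∑ a ∈ Finset.Ioc y M, c a) * (1 / (M : ℝ) - 1 / ((M : ℝ) + 1)) := by
      push_cast
      field_simp
      ring
    rw [e]
    refine (abs_add_le _ _).trans ?_
    rw [abs_mul, abs_of_nonneg hd]
    have h2 := mul_le_mul_of_nonneg_right hT hd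
    push_cast
    nlinarith [ih, h2]

private theorem a2_tail (c : ℕ → ℝ) (B : ℝ)
    (hB : ∀ Y : ℕ, |∑ n ∈ Finset.Icc 1 Y, c n| ≤ B) (y : ℕ) (hy : 1 ≤ y) (M : ℕ) (hM : y ≤ M) :
    |∑ a ∈ Finset.Icc 1 M, c a / a - ∑ a ∈ Finset.Icc 1 y, c a / a| ≤ 2 * B / y := by
  have h := a2_abel c B hB y hy M hM
  have hM1 : (1 : ℝ) ≤ M := by exact_mod_cast hy.trans hM
  have hM0 : (0 : ℝ) < M := by linarith
  have hT : |∑ a ∈ Finset.Ioc y M, c a| ≤ 2 * B := by
    rw [a2_Ioc c hM]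
    refine (abs_sub _ _).trans ?_
    linarith [hB M, hB y]
  have h3 : |(∑ a ∈ Finset.Ioc y M, c a) / M| ≤ 2 * B / M := by
    rw [abs_div, abs_of_pos hM0]
    gcongr
  rw [← a2_Ioc (fun a : ℕ => c a / a) hM]
  have e : ∑ a ∈ Finset.Ioc y M, c a / a =
      (∑ a ∈ Finset.Ioc y M, c a / a - (∑ a ∈ Finset.Ioc y M, c a) / M) +
        (∑ a ∈ Finset.Ioc y M, c a) / M := by ring
  rw [e]
  refine (abs_add_le _ _).trans ?_
  calc _ ≤ 2 * B * (1 / y - 1 / M) + 2 * B / M := add_le_add h h3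
    _ = 2 * B / y := by ring

private theorem a2_re (N : ℕ) [NeZero N] (χ : DirichletCharacter ℂ N) (h1 : χ ^ 2 = 1)
    (n : ℕ) : χ (n : ZMod N) = (((χ (n : ZMod N)).re : ℝ) : ℂ) := by
  apply Complex.ext
  · simp
  · simpa using SW.rc_real h1 (n : ZMod N)

theorem RC_char (N : ℕ) [NeZero N] (h2 : 2 ≤ N) (χ : DirichletCharacter ℂ N) (hχ : χ ^ 2 = 1)
    (h1 : χ ≠ 1) : RC N (fun n => (χ (n : ZMod N)).re) := by
  refine ⟨?_, ?_, ?_, ?_, ?_⟩
  · intro m n
    show (χ ((m * n : ℕ) : ZMod N)).re = (χ (m : ZMod N)).re * (χ (n : ZMod N)).re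
    rw [Nat.cast_mul, map_mul, a2_re N χ hχ m, a2_re N χ hχ n, ← Complex.ofReal_mul,
      Complex.ofReal_re, Complex.ofReal_re, Complex.ofReal_re]
  · intro n hn
    show (χ (n : ZMod N)).re = 1 ∨ (χ (n : ZMod N)).re = -1
    have hu : IsUnit ((n : ℕ) : ZMod N) := (ZMod.isUnit_iff_coprime n N).2 hn
    have h3 : (χ (n : ZMod N)) ^ 2 = 1 := by
      rw [← MulChar.pow_apply' χ two_ne_zero, hχ, MulChar.one_apply hu]
    rcases mul_eq_zero.1 (show (χ (n : ZMod N) - 1) * (χ (n : ZMod N) + 1) = 0 by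
      linear_combination h3) with h5 | h5
    · left
      rw [sub_eq_zero.1 h5]
      simp
    · right
      rw [eq_neg_of_add_eq_zero_left h5]
      simp
  · intro n hn
    show (χ (n : ZMod N)).re = 0
    have hu : ¬ IsUnit ((n : ℕ) : ZMod N) := fun h => hn ((ZMod.isUnit_iff_coprime n N).1 h)
    rw [MulChar.map_nonunit χ hu]
    simp
  · intro n
    show (χ ((n + N : ℕ) : ZMod N)).re = (χ (n : ZMod N)).re
    rw [Nat.cast_add, ZMod.natCast_self, add_zero]
  · intro Y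
    have h4 := PVall N h2 χ h1 Y
    have h5 : ∑ n ∈ Finset.Icc 1 Y, (χ (n : ZMod N)).re = (∑ n ∈ Finset.Icc 1 Y, χ (n : ZMod N)).re := by
      rw [Complex.re_sum]
    show |∑ n ∈ Finset.Icc 1 Y, (χ (n : ZMod N)).re| ≤ PB N
    rw [h5]
    exact (Complex.abs_re_le_norm _).trans h4

theorem LV_char (δ : ℝ) (hδ : 0 < δ) : ∃ κ : ℝ, 0 < κ ∧ ∀ (N : ℕ) [NeZero N], 2 ≤ N →
    ∀ χ : DirichletCharacter ℂ N, χ ^ 2 = 1 → χ ≠ 1 →
    ∃ L : ℝ, LV N (fun n => (χ (n : ZMod N)).re) L ∧ κ * (N : ℝ) ^ (-δ) ≤ L := by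
  obtain ⟨κ, hκ, hS⟩ := SW.siegel δ hδ
  refine ⟨κ, hκ, ?_⟩
  intro N _ h3 χ h2 h1
  have hpos : 0 < (DirichletCharacter.LFunction χ 1).re := by
    have := SW.LFunction_pos h1 h2 1 le_rfl
    simpa using this
  have him : (DirichletCharacter.LFunction χ 1).im = 0 := by
    have := SW.LFunction_im h1 h2 1 one_pos
    simpa using this
  refine ⟨(DirichletCharacter.LFunction χ 1).re, ⟨hpos.le, ?_⟩, ?_⟩
  · intro y hy
    have hQ := RC_char N h3 χ h2 h1
    have hy0 : (0 : ℝ) < y := by exact_mod_cast hy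
    -- the partial sums converge to `L`
    have hlim : ∀ M : ℕ, 1 ≤ M →
        |∑ a ∈ Finset.Icc 1 M, (χ (a : ZMod N)).re / a - (DirichletCharacter.LFunction χ 1).re| ≤
          N * 2 / M := by
      intro M hM
      have h := SW.LFunction_sub_sum_le h1 (1 : ℂ) (by norm_num) M hM
      have e1 : ∑ n ∈ Finset.Icc 1 M, SW.ch χ n * (n : ℂ) ^ (-(1 : ℂ)) =
          ((∑ a ∈ Finset.Icc 1 M, (χ (a : ZMod N)).re / a : ℝ) : ℂ) := by
        push_cast
        refine Finset.sum_congr rfl fun n hn => ?_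
        rw [Complex.cpow_neg_one, SW.ch, a2_re N χ h2 n, Complex.ofReal_re, div_eq_mul_inv]
      rw [e1] at h
      have h4 := (Complex.abs_re_le_norm _).trans h
      rw [Complex.sub_re, Complex.ofReal_re, abs_sub_comm] at h4
      refine h4.trans (le_of_eq ?_)
      have hM0 : (M : ℝ) ≠ 0 := by
        have : 0 < M := hM
        positivity
      rw [norm_one, Complex.one_re, Real.rpow_neg (Nat.cast_nonneg M), Real.rpow_one]
      ring
    have key : ∀ M : ℕ, y ≤ M →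
        |∑ a ∈ Finset.Icc 1 y, (χ (a : ZMod N)).re / a - (DirichletCharacter.LFunction χ 1).re| ≤
          2 * PB N / y + N * 2 / M := by
      intro M hM
      have ht := a2_tail (fun n => (χ (n : ZMod N)).re) (PB N)
        hQ.pv y hy M hM
      have hl := hlim M (hy.trans hM)
      have e : ∑ a ∈ Finset.Icc 1 y, (χ (a : ZMod N)).re / a -
          (DirichletCharacter.LFunction χ 1).re =
          -(∑ a ∈ Finset.Icc 1 M, (χ (a : ZMod N)).re / a -
            ∑ a ∈ Finset.Icc 1 y, (χ (a : ZMod N)).re / a) +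
          (∑ a ∈ Finset.Icc 1 M, (χ (a : ZMod N)).re / a -
            (DirichletCharacter.LFunction χ 1).re) := by ring
      rw [e]
      refine (abs_add_le _ _).trans ?_
      rw [abs_neg]
      exact add_le_add ht hl
    refine le_of_forall_pos_le_add fun ε hε => ?_
    obtain ⟨M, hM⟩ := exists_nat_gt ((N : ℝ) * 2 / ε)
    have hMy : y ≤ max y M := le_max_left _ _
    refine (key (max y M) hMy).trans ?_
    have hM' : (N : ℝ) * 2 / ε < ((max y M : ℕ) : ℝ) :=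
      hM.trans_le (by exact_mod_cast le_max_right y M)
    have hm0 : (0 : ℝ) < ((max y M : ℕ) : ℝ) := lt_of_le_of_lt (by positivity) hM'
    have : (N : ℝ) * 2 / ((max y M : ℕ) : ℝ) ≤ ε := by
      rw [div_le_iff₀ hm0]
      rw [div_lt_iff₀ hε] at hM'
      linarith
    linarith
  · have h := hS N χ h1 h2
    have e : ‖DirichletCharacter.LFunction χ 1‖ = (DirichletCharacter.LFunction χ 1).re := by
      have e1 : DirichletCharacter.LFunction χ 1 =
          (((DirichletCharacter.LFunction χ 1).re : ℝ) : ℂ) := by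
        apply Complex.ext
        · simp
        · simp [him]
      rw [e1, Complex.norm_real, Real.norm_of_nonneg hpos.le, Complex.ofReal_re]
    rw [e] at h
    exact h

end Pool.Agent.Lib.RG
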