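import Pool.Agent.Lib.MP_7b7e48_nt.RG.RAP1

/-!
# Module RAP2 (90 minutes): `1 * c` in arithmetic progressions

PROOF. Let `A = ⌈√y N^(1/4)⌉ ≥ 1`. For every `A ≥ 1`:
`∑_{n ≤ y, n = b (m)} rr c n = ∑_{e ≤ A} c e #{f ≤ y/e : e f = b (m)} + ∑_{f ≤ y/A} ∑_{A < e ≤ y/f, e f = b (m)} c e`.
Second sum: for fixed `f` the condition `e f = b (m)` is empty or means that `e` is in one class modulo `m' = m/(f,m)` (`m'` is
coprime to `N`), so the inner sum is at most `2 · 2 PB N` in absolute value (`pv_prog`); there are `≤ y/A ≤ √y N^(-1/4)` values `f`.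
First sum: let `g = (e, m)`, `e = g e'`; `(e', m/g) = 1` (`m` is squarefree). If `g ∤ b` there is no `f`; otherwise
`#{f ≤ y/e : e f = b (m)} = y/(e (m/g)) + θ = y/(e' m) + θ`, `|θ| ≤ 1`. The errors `θ` add up to `≤ A`. The main term is
`(y/m) ∑_{g ∣ (m,b)} c g ∑_{e' ≤ A/g, (e', m/g) = 1} c e'/e'`, and by `cop_sum` (`⌊A/g⌋ ≥ A/(2g)` if `g ≤ A`; if `g > A` the sum is empty
and `L ∏ ≤ 3 PB N τ(m) g/A` trivially) this is
`(y/m) L ∑_{g ∣ (m,b)} c g ∏_{p ∣ m/g} (1 - c p/p) = L y ∏_{p ∣ m} ((1 - c p/p)/p + 1_{p ∣ b} c p/p)` with an error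
`≤ (y/m) ∑_{g ∣ m} 8 τ(m) PB N g/A ≤ 8 τ(m)² PB N y/A`. All errors together are `≤ C √y N^(1/4) + C τ(m)² √y N^(-1/4) PB N`,
with `√y ≤ N^(21/40) = N^(0.525)`, `PB N ≤ C N^(0.505)`, `τ(m) ≤ C N^(0.001)`: `≤ C N^(0.785) ≤ N^(4/5)/2`.
-/

open Finset

namespace Pool.Agent.Lib.RG

/-- The number of integers of a residue class. -/
private theorem RAP2_class (M r Y : ℕ) (hM : 1 ≤ M) :
    |(((Finset.Icc 1 Y).filter (fun f => f ≡ r [MOD M])).card : ℝ) - (Y : ℝ) / M| ≤ 1 := by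
  have h0 : Finset.Icc 1 Y = Finset.Ioc 0 Y := by
    ext f
    rw [Finset.mem_Icc, Finset.mem_Ioc]
    omega
  have h1 := Nat.Ioc_filter_modEq_card 0 Y (show 0 < M by omega) r
  rw [← h0] at h1
  set K : ℕ := ((Finset.Icc 1 Y).filter (fun f => f ≡ r [MOD M])).card with hK
  have hM0 : (0 : ℚ) < M := by exact_mod_cast hM
  have e1 : ((Y : ℚ) - r) / M - (((0 : ℕ) : ℚ) - r) / M = Y / M := by
    push_cast
    ring
  have a1 := Int.floor_le (((Y : ℚ) - r) / M)
  have a2 := Int.lt_floor_add_one (((Y : ℚ) - r) / M)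
  have a3 := Int.floor_le ((((0 : ℕ) : ℚ) - r) / M)
  have a4 := Int.lt_floor_add_one ((((0 : ℕ) : ℚ) - r) / M)
  have hYM : (0 : ℚ) ≤ Y / M := by positivity
  have h2 : |(K : ℚ) - Y / M| ≤ 1 := by
    have h3 : (K : ℚ) = ((max (⌊((Y : ℚ) - r) / M⌋ - ⌊(((0 : ℕ) : ℚ) - r) / M⌋) 0 : ℤ) : ℚ) := by
      rw [← h1]
      push_cast
      rfl
    rw [h3, abs_le]
    rcases max_cases (⌊((Y : ℚ) - r) / M⌋ - ⌊(((0 : ℕ) : ℚ) - r) / M⌋) 0 with ⟨h4, h5⟩ | ⟨h4, h5⟩
    · rw [h4]
      push_cast at *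
      constructor <;> linarith
    · rw [h4]
      have h6 : ((⌊((Y : ℚ) - r) / M⌋ - ⌊(((0 : ℕ) : ℚ) - r) / M⌋ : ℤ) : ℚ) ≤ -1 := by
        have : ⌊((Y : ℚ) - r) / M⌋ - ⌊(((0 : ℕ) : ℚ) - r) / M⌋ ≤ -1 := by omega
        exact_mod_cast this
      push_cast at *
      constructor <;> linarith
  have h3 : ((|(K : ℚ) - Y / M| : ℚ) : ℝ) ≤ 1 := by exact_mod_cast h2
  push_cast at h3
  exact h3

private theorem RAP2_inv {e m : ℕ} (h : e.Coprime m) (hm : 1 ≤ m) : ∃ e' : ℕ, e * e' ≡ 1 [MOD m] := by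
  rcases Nat.eq_or_lt_of_le hm with h1 | h1
  · exact ⟨0, by rw [← h1]; exact Nat.modEq_one⟩
  · obtain ⟨m', _, h2⟩ := Nat.exists_mul_mod_eq_one_of_coprime h h1
    refine ⟨m', ?_⟩
    unfold Nat.ModEq
    rw [h2, Nat.mod_eq_of_lt h1]

/-- Solution of a linear congruence. -/
private theorem RAP2_solve (e m b : ℕ) (he : 1 ≤ e) (hm : 1 ≤ m) (hg : Nat.gcd e m ∣ b) :
    ∃ r : ℕ, ∀ f : ℕ, (e * f ≡ b [MOD m] ↔ f ≡ r [MOD m / Nat.gcd e m]) := by
  set g : ℕ := Nat.gcd e m with hgdef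
  have hg0 : 0 < g := Nat.gcd_pos_of_pos_left _ he
  obtain ⟨b', hb'⟩ := hg
  have he' : g * (e / g) = e := Nat.mul_div_cancel' (Nat.gcd_dvd_left e m)
  have hm' : g * (m / g) = m := Nat.mul_div_cancel' (Nat.gcd_dvd_right e m)
  have hcop : (e / g).Coprime (m / g) := Nat.coprime_div_gcd_div_gcd hg0
  have hm1 : 1 ≤ m / g := Nat.div_pos (Nat.le_of_dvd hm (Nat.gcd_dvd_right e m)) hg0
  obtain ⟨e'', h1⟩ := RAP2_inv hcop hm1
  refine ⟨e'' * b', fun f => ?_⟩
  have h2' := Nat.ModEq.mul_left_cancel_iff' (a := e / g * f) (b := b') (m := m / g) hg0.ne'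
  rw [← mul_assoc, he', hm', ← hb'] at h2'
  rw [h2']
  constructor
  · intro h3
    have h4 : e'' * (e / g * f) ≡ e'' * b' [MOD m / g] := h3.mul_left e''
    have h5 : e'' * (e / g * f) = e / g * e'' * f := by ring
    rw [h5] at h4
    have h6 : e / g * e'' * f ≡ 1 * f [MOD m / g] := h1.mul_right f
    rw [one_mul] at h6
    exact h6.symm.trans h4
  · intro h3
    have h4 : e / g * f ≡ e / g * (e'' * b') [MOD m / g] := h3.mul_left (e / g)
    have h5 : e / g * (e'' * b') = e / g * e'' * b' := by ring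
    rw [h5] at h4
    have h6 : e / g * e'' * b' ≡ 1 * b' [MOD m / g] := h1.mul_right b'
    rw [one_mul] at h6
    exact h4.trans h6

private theorem RAP2_none {e m b f : ℕ} (hg : ¬ Nat.gcd e m ∣ b) : ¬ e * f ≡ b [MOD m] := by
  intro h
  exact hg ((h.dvd_iff (Nat.gcd_dvd_right e m)).1 ((Nat.gcd_dvd_left e m).mul_right f))

/-- The number of the cofactors. -/
private theorem RAP2_cnt (e m b y : ℕ) (he : 1 ≤ e) (hm : 1 ≤ m) :
    |(((Finset.Icc 1 (y / e)).filter (fun f => e * f ≡ b [MOD m])).card : ℝ) -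
      (if Nat.gcd e m ∣ b then (y : ℝ) / m * ((Nat.gcd e m : ℝ) / e) else 0)| ≤ 2 := by
  by_cases hg : Nat.gcd e m ∣ b
  · rw [if_pos hg]
    obtain ⟨r, hr⟩ := RAP2_solve e m b he hm hg
    have h1 : (Finset.Icc 1 (y / e)).filter (fun f => e * f ≡ b [MOD m]) =
        (Finset.Icc 1 (y / e)).filter (fun f => f ≡ r [MOD m / Nat.gcd e m]) :=
      Finset.filter_congr fun f _ => hr f
    rw [h1]
    have hg0 : 0 < Nat.gcd e m := Nat.gcd_pos_of_pos_left _ he
    have hgm : Nat.gcd e m ∣ m := Nat.gcd_dvd_right e m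
    have hM : 1 ≤ m / Nat.gcd e m := Nat.div_pos (Nat.le_of_dvd hm hgm) hg0
    have h2 := RAP2_class (m / Nat.gcd e m) r (y / e) hM
    have hM' : (1 : ℝ) ≤ ((m / Nat.gcd e m : ℕ) : ℝ) := by exact_mod_cast hM
    have he0 : (0 : ℝ) < e := by exact_mod_cast he
    have hm0 : (0 : ℝ) < m := by exact_mod_cast hm
    have hg0' : (0 : ℝ) < (Nat.gcd e m : ℝ) := by exact_mod_cast hg0
    have h3 : (y : ℝ) / m * ((Nat.gcd e m : ℝ) / e) =
        (y : ℝ) / e / ((m / Nat.gcd e m : ℕ) : ℝ) := by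
      rw [Nat.cast_div hgm hg0'.ne']
      field_simp
    have h4 : |((y / e : ℕ) : ℝ) - (y : ℝ) / e| ≤ 1 := by
      have h5 : ((y / e : ℕ) : ℝ) ≤ (y : ℝ) / e := Nat.cast_div_le
      have h6 : (y : ℝ) / e < ((y / e : ℕ) : ℝ) + 1 := by
        rw [div_lt_iff₀ he0]
        have h7 : y < (y / e + 1) * e := by
          have := Nat.lt_div_mul_add (a := y) (b := e) (by omega)
          calc y < y / e * e + e := this
            _ = (y / e + 1) * e := by ring
        exact_mod_cast h7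
      rw [abs_le]
      constructor <;> linarith
    have h5 : |((y / e : ℕ) : ℝ) / ((m / Nat.gcd e m : ℕ) : ℝ) -
        (y : ℝ) / e / ((m / Nat.gcd e m : ℕ) : ℝ)| ≤ 1 := by
      rw [← sub_div, abs_div, abs_of_pos (show (0 : ℝ) < ((m / Nat.gcd e m : ℕ) : ℝ) by linarith)]
      rw [div_le_one (by linarith)]
      linarith
    rw [h3]
    have h6 := abs_sub_le
      (((Finset.Icc 1 (y / e)).filter (fun f => f ≡ r [MOD m / Nat.gcd e m])).card : ℝ)
      (((y / e : ℕ) : ℝ) / ((m / Nat.gcd e m : ℕ) : ℝ))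
      ((y : ℝ) / e / ((m / Nat.gcd e m : ℕ) : ℝ))
    linarith
  · rw [if_neg hg]
    have h1 : (Finset.Icc 1 (y / e)).filter (fun f => e * f ≡ b [MOD m]) = ∅ := by
      rw [Finset.filter_eq_empty_iff]
      intro f _
      exact RAP2_none hg
    rw [h1, Finset.card_empty]
    norm_num

/-- The inner sums over the larger factor. -/
private theorem RAP2_block {N : ℕ} {c : ℕ → ℝ} (hc : RC N c) (hN : 1 ≤ N) (m : ℕ) (hm : m.Coprime N)
    (hm1 : 1 ≤ m) (f b A B : ℕ) :
    |∑ e ∈ (Finset.Ioc A B).filter (fun e => e * f ≡ b [MOD m]), c e| ≤ 2 * PB N := by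
  classical
  have hP := RAP1_PB_one hc
  set S : Finset ℕ := (Finset.Ioc A B).filter (fun e => e * f ≡ b [MOD m]) with hS
  rcases S.eq_empty_or_nonempty with hE | hne
  · rw [hE, Finset.sum_empty, abs_zero]
    linarith
  · set e0 : ℕ := S.min' hne with he0
    have he0S : e0 ∈ S := S.min'_mem hne
    set m' : ℕ := m / Nat.gcd m f with hm'
    have hg0 : 0 < Nat.gcd m f := Nat.gcd_pos_of_pos_left _ hm1
    have hm'0 : 0 < m' := Nat.div_pos (Nat.le_of_dvd hm1 (Nat.gcd_dvd_left m f)) hg0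
    have hm'c : m'.Coprime N :=
      Nat.Coprime.coprime_dvd_left (Nat.div_dvd_of_dvd (Nat.gcd_dvd_left m f)) hm
    obtain ⟨hA1, hA2⟩ := Finset.mem_filter.1 he0S
    rw [Finset.mem_Ioc] at hA1
    have hdvd : m ∣ m' * f := by
      obtain ⟨f', hf'⟩ := Nat.gcd_dvd_right m f
      have h1 : m' * Nat.gcd m f = m := Nat.div_mul_cancel (Nat.gcd_dvd_left m f)
      refine ⟨f', ?_⟩
      calc m' * f = m' * (Nat.gcd m f * f') := by rw [← hf']
        _ = m' * Nat.gcd m f * f' := by ring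
        _ = m * f' := by rw [h1]
    have hSimg : S = (Finset.range ((B - e0) / m' + 1)).image (fun j => e0 + j * m') := by
      ext e
      rw [Finset.mem_image]
      constructor
      · intro he
        have hle : e0 ≤ e := S.min'_le e he
        obtain ⟨h1, h2⟩ := Finset.mem_filter.1 he
        rw [Finset.mem_Ioc] at h1
        have h3 : e0 ≡ e [MOD m'] :=
          Nat.ModEq.cancel_right_div_gcd (show 0 < m from hm1) (hA2.trans h2.symm)
        have h4 : m' ∣ e - e0 := (Nat.modEq_iff_dvd' hle).1 h3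
        refine ⟨(e - e0) / m', ?_, ?_⟩
        · rw [Finset.mem_range, Nat.lt_succ_iff]
          exact Nat.div_le_div_right (by omega)
        · rw [Nat.div_mul_cancel h4]
          omega
      · rintro ⟨j, hj, rfl⟩
        rw [Finset.mem_range, Nat.lt_succ_iff, Nat.le_div_iff_mul_le hm'0] at hj
        rw [hS, Finset.mem_filter, Finset.mem_Ioc]
        refine ⟨⟨by omega, by omega⟩, ?_⟩
        have h1 : (e0 + j * m') * f = e0 * f + j * (m' * f) := by ring
        have h2 : j * (m' * f) ≡ 0 [MOD m] := (Nat.modEq_zero_iff_dvd).2 (hdvd.mul_left j)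
        rw [h1]
        have h3 := hA2.add h2
        rw [add_zero] at h3
        exact h3
    rw [hSimg, Finset.sum_image]
    · exact pv_prog N hN c hc m' hm'c e0 _
    · intro i _ j _ hij
      simp only at hij
      exact Nat.eq_of_mul_eq_mul_right hm'0 (by omega)

/-- The hyperbola identity in a progression. -/
private theorem RAP2_double (c : ℕ → ℝ) (m b y Z : ℕ) (hZ : y ≤ Z) :
    ∑ n ∈ (Finset.Icc 1 y).filter (fun n => n % m = b % m), rr c n =
      ∑ e ∈ Finset.Icc 1 Z,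
        c e * (((Finset.Icc 1 (y / e)).filter (fun f => e * f ≡ b [MOD m])).card : ℝ) := by
  classical
  have h1 : ∀ n ∈ (Finset.Icc 1 y).filter (fun n => n % m = b % m), rr c n =
      ∑ e ∈ Finset.Icc 1 Z, if e ∣ n then c e else 0 := by
    intro n hn
    have hn1 := Finset.mem_Icc.1 (Finset.mem_filter.1 hn).1
    unfold rr
    rw [← Finset.sum_filter]
    refine Finset.sum_congr ?_ fun _ _ => rfl
    ext a
    rw [Nat.mem_divisors, Finset.mem_filter, Finset.mem_Icc]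
    constructor
    · rintro ⟨h, _⟩
      have h2 := Nat.le_of_dvd (by omega) h
      have h4 : 0 < a := Nat.pos_of_dvd_of_pos h (by omega)
      exact ⟨⟨h4, by omega⟩, h⟩
    · rintro ⟨_, h⟩
      exact ⟨h, by omega⟩
  rw [Finset.sum_congr rfl h1, Finset.sum_comm]
  refine Finset.sum_congr rfl fun e he => ?_
  have he1 : 0 < e := (Finset.mem_Icc.1 he).1
  rw [← Finset.sum_filter, Finset.sum_const, nsmul_eq_mul, mul_comm]
  congr 2
  refine Finset.card_nbij' (fun n => n / e) (fun f => e * f) ?_ ?_ ?_ ?_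
  · intro n hn
    simp only [Finset.coe_filter, Finset.mem_filter, Finset.mem_Icc, Set.mem_setOf_eq] at hn ⊢
    obtain ⟨⟨⟨h2, h3⟩, h4⟩, h5⟩ := hn
    refine ⟨⟨Nat.div_pos (Nat.le_of_dvd h2 h5) he1, Nat.div_le_div_right h3⟩, ?_⟩
    rw [Nat.mul_div_cancel' h5]
    exact h4
  · intro f hf
    simp only [Finset.coe_filter, Finset.mem_filter, Finset.mem_Icc, Set.mem_setOf_eq] at hf ⊢
    obtain ⟨⟨h2, h3⟩, h4⟩ := hf
    refine ⟨⟨⟨Nat.mul_pos he1 h2, ?_⟩, h4⟩, dvd_mul_right e f⟩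
    calc e * f ≤ e * (y / e) := Nat.mul_le_mul_left _ h3
      _ ≤ y := Nat.mul_div_le y e
  · intro n hn
    simp only [Finset.coe_filter, Finset.mem_filter, Finset.mem_Icc, Set.mem_setOf_eq] at hn
    exact Nat.mul_div_cancel' hn.2
  · intro f _
    exact Nat.mul_div_cancel_left f he1

/-- The contribution of the larger factors. -/
private theorem RAP2_large {N : ℕ} {c : ℕ → ℝ} (hc : RC N c) (hN : 1 ≤ N) (m : ℕ) (hm : m.Coprime N)
    (hm1 : 1 ≤ m) (b y A Z : ℕ) (hA : 1 ≤ A) (hZ : y ≤ Z) :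
    |∑ e ∈ Finset.Ioc A Z,
      c e * (((Finset.Icc 1 (y / e)).filter (fun f => e * f ≡ b [MOD m])).card : ℝ)| ≤
      (y : ℝ) / A * (2 * PB N) := by
  classical
  have hP := RAP1_PB_one hc
  have h1 : ∀ e ∈ Finset.Ioc A Z,
      c e * (((Finset.Icc 1 (y / e)).filter (fun f => e * f ≡ b [MOD m])).card : ℝ) =
      ∑ f ∈ Finset.Icc 1 y, if e * f ≤ y ∧ e * f ≡ b [MOD m] then c e else 0 := by
    intro e he
    have he1 : 0 < e := by
      have := (Finset.mem_Ioc.1 he).1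
      omega
    rw [← Finset.sum_filter, Finset.sum_const, nsmul_eq_mul, mul_comm]
    congr 3
    ext f
    rw [Finset.mem_filter, Finset.mem_filter, Finset.mem_Icc, Finset.mem_Icc,
      Nat.le_div_iff_mul_le he1, mul_comm f e]
    constructor
    · rintro ⟨⟨h2, h3⟩, h4⟩
      exact ⟨⟨h2, (Nat.le_mul_of_pos_left f he1).trans h3⟩, h3, h4⟩
    · rintro ⟨⟨h2, _⟩, h3, h4⟩
      exact ⟨⟨h2, h3⟩, h4⟩
  rw [Finset.sum_congr rfl h1, Finset.sum_comm]
  have h2 : ∀ f ∈ Finset.Icc 1 y,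
      |∑ e ∈ Finset.Ioc A Z, if e * f ≤ y ∧ e * f ≡ b [MOD m] then c e else 0| ≤
        if A * f ≤ y then 2 * PB N else 0 := by
    intro f hf
    have hf1 : 0 < f := (Finset.mem_Icc.1 hf).1
    have e1 : (∑ e ∈ Finset.Ioc A Z, if e * f ≤ y ∧ e * f ≡ b [MOD m] then c e else 0) =
        ∑ e ∈ (Finset.Ioc A (y / f)).filter (fun e => e * f ≡ b [MOD m]), c e := by
      rw [← Finset.sum_filter]
      refine Finset.sum_congr ?_ fun _ _ => rfl
      ext e
      rw [Finset.mem_filter, Finset.mem_filter, Finset.mem_Ioc, Finset.mem_Ioc,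
        Nat.le_div_iff_mul_le hf1]
      constructor
      · rintro ⟨⟨h3, _⟩, h4, h5⟩
        exact ⟨⟨h3, h4⟩, h5⟩
      · rintro ⟨⟨h3, h4⟩, h5⟩
        exact ⟨⟨h3, ((Nat.le_mul_of_pos_right e hf1).trans h4).trans hZ⟩, h4, h5⟩
    rw [e1]
    split_ifs with h3
    · exact RAP2_block hc hN m hm hm1 f b A (y / f)
    · have h4 : Finset.Ioc A (y / f) = ∅ := by
        rw [Finset.Ioc_eq_empty_iff]
        intro h5
        apply h3
        have h6 : A ≤ y / f := h5.le
        rwa [Nat.le_div_iff_mul_le hf1] at h6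
      rw [h4, Finset.filter_empty, Finset.sum_empty, abs_zero]
  refine (Finset.abs_sum_le_sum_abs _ _).trans ((Finset.sum_le_sum h2).trans ?_)
  rw [← Finset.sum_filter, Finset.sum_const, nsmul_eq_mul]
  have h3 : (((Finset.Icc 1 y).filter (fun f => A * f ≤ y)).card : ℝ) ≤ (y : ℝ) / A := by
    have h4 : (Finset.Icc 1 y).filter (fun f => A * f ≤ y) ⊆ Finset.Icc 1 (y / A) := by
      intro f hf
      rw [Finset.mem_filter, Finset.mem_Icc] at hf
      rw [Finset.mem_Icc, Nat.le_div_iff_mul_le (by omega), mul_comm]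
      exact ⟨hf.1.1, hf.2⟩
    have h5 := Finset.card_le_card h4
    rw [Nat.card_Icc, Nat.add_sub_cancel] at h5
    calc (((Finset.Icc 1 y).filter (fun f => A * f ≤ y)).card : ℝ) ≤ ((y / A : ℕ) : ℝ) := by
          exact_mod_cast h5
      _ ≤ (y : ℝ) / A := Nat.cast_div_le
  exact mul_le_mul_of_nonneg_right h3 (by linarith)

/-- The main term, grouped by the greatest common divisor. -/
private theorem RAP2_group {N : ℕ} {c : ℕ → ℝ} (hc : RC N c) (m : ℕ) (hm1 : 1 ≤ m) (b A : ℕ) (u : ℝ) :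
    ∑ e ∈ Finset.Icc 1 A, c e * (if Nat.gcd e m ∣ b then u * ((Nat.gcd e m : ℝ) / e) else 0) =
      u * ∑ g ∈ m.divisors, (if g ∣ b then c g *
        ∑ e ∈ (Finset.Icc 1 (A / g)).filter (fun e => e.Coprime (m / g)), c e / e else 0) := by
  classical
  rw [← Finset.sum_fiberwise_of_maps_to (s := Finset.Icc 1 A) (t := m.divisors)
    (g := fun e => Nat.gcd e m)
    (fun e _ => Nat.mem_divisors.2 ⟨Nat.gcd_dvd_right e m, by omega⟩), Finset.mul_sum]
  refine Finset.sum_congr rfl fun g hg => ?_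
  have hgm : g ∣ m := Nat.dvd_of_mem_divisors hg
  have hg0 : 0 < g := Nat.pos_of_mem_divisors hg
  have hg0' : (g : ℝ) ≠ 0 := by exact_mod_cast hg0.ne'
  by_cases hgb : g ∣ b
  · rw [if_pos hgb, Finset.mul_sum, Finset.mul_sum]
    refine Finset.sum_nbij' (fun e => e / g) (fun e => g * e) ?_ ?_ ?_ ?_ ?_
    · intro e he
      rw [Finset.mem_filter, Finset.mem_Icc] at he
      obtain ⟨⟨h1, h2⟩, h3⟩ := he
      have hge : g ∣ e := h3 ▸ Nat.gcd_dvd_left e m
      rw [Finset.mem_filter, Finset.mem_Icc]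
      refine ⟨⟨Nat.div_pos (Nat.le_of_dvd h1 hge) hg0, Nat.div_le_div_right h2⟩, ?_⟩
      have h4 : (e / g).Coprime (m / g) := by
        have h5 := Nat.coprime_div_gcd_div_gcd (m := e) (n := m) (by rw [h3]; exact hg0)
        rwa [h3] at h5
      exact h4
    · intro e he
      rw [Finset.mem_filter, Finset.mem_Icc] at he
      obtain ⟨⟨h1, h2⟩, h3⟩ := he
      rw [Finset.mem_filter, Finset.mem_Icc]
      refine ⟨⟨Nat.mul_pos hg0 h1, ?_⟩, ?_⟩
      · calc g * e ≤ g * (A / g) := Nat.mul_le_mul_left _ h2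
          _ ≤ A := Nat.mul_div_le A g
      · calc Nat.gcd (g * e) m = Nat.gcd (g * e) (g * (m / g)) := by
              rw [Nat.mul_div_cancel' hgm]
          _ = g * Nat.gcd e (m / g) := Nat.gcd_mul_left _ _ _
          _ = g := by rw [show Nat.gcd e (m / g) = 1 from h3, mul_one]
    · intro e he
      rw [Finset.mem_filter] at he
      exact Nat.mul_div_cancel' (he.2 ▸ Nat.gcd_dvd_left e m)
    · intro e _
      exact Nat.mul_div_cancel_left e hg0
    · intro e he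
      rw [Finset.mem_filter] at he
      obtain ⟨e', he'⟩ : g ∣ e := he.2 ▸ Nat.gcd_dvd_left e m
      rw [he.2, if_pos hgb, he', Nat.mul_div_cancel_left e' hg0, hc.mul, Nat.cast_mul]
      rcases Nat.eq_zero_or_pos e' with h0 | h0
      · rw [h0]
        simp
      · have h0' : (e' : ℝ) ≠ 0 := by exact_mod_cast h0.ne'
        field_simp
  · rw [if_neg hgb, mul_zero]
    refine Finset.sum_eq_zero fun e he => ?_
    rw [Finset.mem_filter] at he
    rw [he.2, if_neg hgb, mul_zero]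

private theorem RAP2_prod_le {N : ℕ} {c : ℕ → ℝ} (hc : RC N c) (k : ℕ) (hk : Squarefree k) :
    |∏ p ∈ k.primeFactors, (1 - c p / p)| ≤ k.divisors.card := by
  rw [Finset.abs_prod]
  have h1 : ∀ p ∈ k.primeFactors, |1 - c p / p| ≤ 2 := by
    intro p hp
    have hp1 : (1 : ℝ) ≤ p := by
      exact_mod_cast (Nat.prime_of_mem_primeFactors hp).one_lt.le
    have h2 : |c p / p| ≤ 1 := by
      rw [abs_div, abs_of_pos (show (0 : ℝ) < p by linarith), div_le_one (by linarith)]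
      linarith [RAP1_abs hc p]
    have h3 := abs_le.1 h2
    rw [abs_le]
    constructor <;> linarith [h3.1, h3.2]
  refine (Finset.prod_le_prod (fun _ _ => abs_nonneg _) h1).trans ?_
  rw [Finset.prod_const]
  have h2 : k.divisors.card = 2 ^ k.primeFactors.card := by
    rw [Nat.card_divisors hk.ne_zero]
    rw [← Finset.prod_const]
    refine Finset.prod_congr rfl fun p hp => ?_
    rw [(Nat.squarefree_iff_factorization_le_one hk.ne_zero).1 hk p |>.antisymm
      ((Nat.prime_of_mem_primeFactors hp).factorization_pos_of_dvd hk.ne_zero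
        (Nat.dvd_of_mem_primeFactors hp))]
  rw [h2]
  push_cast
  exact le_rfl

/-- The inner sum. -/
private theorem RAP2_inner {N : ℕ} {c : ℕ → ℝ} {L : ℝ} (hc : RC N c) (hL : LV N c L) (hN : 2 ≤ N)
    (m g A : ℕ) (hm : Squarefree m) (hg : g ∣ m) (hA : 1 ≤ A) :
    |∑ e ∈ (Finset.Icc 1 (A / g)).filter (fun e => e.Coprime (m / g)), c e / e -
      L * ∏ p ∈ (m / g).primeFactors, (1 - c p / p)| ≤ 8 * m.divisors.card * PB N * g / A := by
  have hP := RAP1_PB_one hc
  have hm0 : 0 < m := Nat.pos_of_ne_zero hm.ne_zero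
  have hg0 : 0 < g := Nat.pos_of_dvd_of_pos hg hm0
  have hA0 : (0 : ℝ) < A := by exact_mod_cast hA
  have hg1 : (0 : ℝ) < g := by exact_mod_cast hg0
  have hmg : m / g ∣ m := Nat.div_dvd_of_dvd hg
  have hsq : Squarefree (m / g) := hm.squarefree_of_dvd hmg
  have hτ : ((m / g).divisors.card : ℝ) ≤ m.divisors.card := by
    exact_mod_cast Finset.card_le_card (Nat.divisors_subset_of_dvd hm.ne_zero hmg)
  have hτ0 : (0 : ℝ) ≤ (m / g).divisors.card := Nat.cast_nonneg _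
  rcases le_or_gt g A with h1 | h1
  · have h2 : 1 ≤ A / g := Nat.div_pos h1 hg0
    have h3 := cop_sum N hN c L hc hL (m / g) hsq (A / g) h2
    refine h3.trans ?_
    have h4 : (A : ℝ) ≤ 2 * (A / g : ℕ) * g := by
      have h11 : A < A / g * g + g := Nat.lt_div_mul_add hg0
      have h12 : g ≤ A / g * g := Nat.le_mul_of_pos_left g h2
      have h13 : A ≤ 2 * (A / g) * g := by
        calc A ≤ A / g * g + A / g * g := by omega
          _ = 2 * (A / g) * g := by ring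
      exact_mod_cast h13
    have h5 : (0 : ℝ) < (A / g : ℕ) := by exact_mod_cast h2
    rw [div_le_div_iff₀ h5 hA0]
    have h6 : 4 * ((m / g).divisors.card : ℝ) * PB N ≤ 4 * m.divisors.card * PB N := by
      have : (0 : ℝ) ≤ PB N := by linarith
      nlinarith
    calc 4 * ((m / g).divisors.card : ℝ) * PB N * A ≤ 4 * m.divisors.card * PB N * A :=
          mul_le_mul_of_nonneg_right h6 hA0.le
      _ ≤ 4 * m.divisors.card * PB N * (2 * (A / g : ℕ) * g) := by
          apply mul_le_mul_of_nonneg_left h4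
          positivity
      _ = 8 * m.divisors.card * PB N * g * (A / g : ℕ) := by ring
  · have h2 : A / g = 0 := Nat.div_eq_of_lt h1
    rw [h2, Finset.Icc_eq_empty (by norm_num), Finset.filter_empty, Finset.sum_empty, zero_sub,
      abs_neg, abs_mul, abs_of_nonneg hL.1]
    have h3 := RAP2_prod_le hc (m / g) hsq
    have h4 := RAP1_L_le hc hL
    have h5 : (1 : ℝ) ≤ g / A := by
      rw [le_div_iff₀ hA0, one_mul]
      exact_mod_cast h1.le
    calc L * |∏ p ∈ (m / g).primeFactors, (1 - c p / p)|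
        ≤ (3 * PB N) * m.divisors.card :=
          mul_le_mul h4 (h3.trans hτ) (abs_nonneg _) (by linarith)
      _ = (3 * m.divisors.card * PB N) * 1 := by ring
      _ ≤ (8 * m.divisors.card * PB N) * (g / A) := by
          apply mul_le_mul _ h5 zero_le_one (by positivity)
          have : (0 : ℝ) ≤ m.divisors.card * PB N := by positivity
          nlinarith
      _ = 8 * m.divisors.card * PB N * g / A := by ring

/-- `[n ∣ b] c n / n` as an arithmetic function. -/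
private noncomputable def RAP2_V (c : ℕ → ℝ) (b : ℕ) : ArithmeticFunction ℝ :=
  ⟨fun n => if n ∣ b then c n / n else 0, by simp⟩

private noncomputable def RAP2_U (c : ℕ → ℝ) : ArithmeticFunction ℝ :=
  ⟨fun n => (∏ p ∈ n.primeFactors, (1 - c p / p)) / n, by simp⟩

private theorem RAP2_V_mult {N : ℕ} {c : ℕ → ℝ} (hc : RC N c) (b : ℕ) :
    (RAP2_V c b).IsMultiplicative := by
  rw [ArithmeticFunction.IsMultiplicative.iff_ne_zero]
  constructor
  · change (if 1 ∣ b then c 1 / ((1 : ℕ) : ℝ) else 0) = 1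
    rw [if_pos (one_dvd b), RAP1_one hc]
    norm_num
  · intro m n _ _ hmn
    change (if m * n ∣ b then c (m * n) / ((m * n : ℕ) : ℝ) else 0) =
      (if m ∣ b then c m / m else 0) * (if n ∣ b then c n / n else 0)
    by_cases h1 : m ∣ b <;> by_cases h2 : n ∣ b
    · rw [if_pos h1, if_pos h2, if_pos (hmn.mul_dvd_of_dvd_of_dvd h1 h2), hc.mul, Nat.cast_mul,
        div_mul_div_comm]
    · rw [if_neg h2, mul_zero, if_neg]
      exact fun h => h2 ((dvd_mul_left n m).trans h)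
    · rw [if_neg h1, zero_mul, if_neg]
      exact fun h => h1 ((dvd_mul_right m n).trans h)
    · rw [if_neg h1, zero_mul, if_neg]
      exact fun h => h1 ((dvd_mul_right m n).trans h)

private theorem RAP2_U_mult (c : ℕ → ℝ) : (RAP2_U c).IsMultiplicative := by
  rw [ArithmeticFunction.IsMultiplicative.iff_ne_zero]
  constructor
  · change (∏ p ∈ (1 : ℕ).primeFactors, (1 - c p / p)) / ((1 : ℕ) : ℝ) = 1
    simp
  · intro m n _ _ hmn
    change (∏ p ∈ (m * n).primeFactors, (1 - c p / p)) / ((m * n : ℕ) : ℝ) =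
      (∏ p ∈ m.primeFactors, (1 - c p / p)) / m * ((∏ p ∈ n.primeFactors, (1 - c p / p)) / n)
    rw [Nat.Coprime.primeFactors_mul hmn, Finset.prod_union hmn.disjoint_primeFactors,
      Nat.cast_mul, div_mul_div_comm]

/-- The product identity. -/
private theorem RAP2_identity {N : ℕ} {c : ℕ → ℝ} (hc : RC N c) (m b : ℕ) (hm : Squarefree m) :
    ∏ p ∈ m.primeFactors, ((1 - c p / p) / p + if p ∣ b then c p / p else 0) =
      1 / m * ∑ g ∈ m.divisors,
        (if g ∣ b then c g * ∏ p ∈ (m / g).primeFactors, (1 - c p / p) else 0) := by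
  have h1 := ArithmeticFunction.IsMultiplicative.prodPrimeFactors_add_of_squarefree
    (RAP2_V_mult hc b) (RAP2_U_mult c) hm
  rw [ArithmeticFunction.prodPrimeFactors_apply hm.ne_zero, ArithmeticFunction.mul_apply,
    Nat.sum_divisorsAntidiagonal (fun x y => (RAP2_V c b) x * (RAP2_U c) y)] at h1
  have h2 : ∏ p ∈ m.primeFactors, ((1 - c p / p) / p + if p ∣ b then c p / p else 0) =
      ∏ p ∈ m.primeFactors, (RAP2_V c b + RAP2_U c) p := by
    refine Finset.prod_congr rfl fun p hp => ?_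
    change _ = (if p ∣ b then c p / p else 0) + (∏ q ∈ p.primeFactors, (1 - c q / q)) / p
    rw [Nat.Prime.primeFactors (Nat.prime_of_mem_primeFactors hp), Finset.prod_singleton, add_comm]
  rw [h2, h1, Finset.mul_sum]
  refine Finset.sum_congr rfl fun g hg => ?_
  have hgm : g ∣ m := Nat.dvd_of_mem_divisors hg
  have hg0 : (g : ℝ) ≠ 0 := by exact_mod_cast (Nat.pos_of_mem_divisors hg).ne'
  have hm0 : (m : ℝ) ≠ 0 := by exact_mod_cast hm.ne_zero
  change (if g ∣ b then c g / g else 0) *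
    ((∏ p ∈ (m / g).primeFactors, (1 - c p / p)) / ((m / g : ℕ) : ℝ)) = _
  rw [Nat.cast_div hgm hg0]
  split_ifs with h3
  · field_simp
  · simp

/-- The law with an explicit error. -/
private theorem RAP2_explicit {N : ℕ} (hN : 2 ≤ N) {c : ℕ → ℝ} {L : ℝ} (hc : RC N c) (hL : LV N c L)
    (m : ℕ) (hm : Squarefree m) (hmN : m.Coprime N) (b y A : ℕ) (hA : 1 ≤ A) :
    |∑ n ∈ (Finset.Icc 1 y).filter (fun n => n % m = b % m), rr c n -
      L * y * ∏ p ∈ m.primeFactors, ((1 - c p / p) / p + if p ∣ b then c p / p else 0)| ≤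
      2 * A + 10 * (m.divisors.card : ℝ) ^ 2 * PB N * (y / A) := by
  classical
  have hP := RAP1_PB_one hc
  have hm1 : 1 ≤ m := Nat.one_le_iff_ne_zero.2 hm.ne_zero
  have hm0 : (0 : ℝ) < m := by exact_mod_cast hm1
  have hA0 : (0 : ℝ) < A := by exact_mod_cast hA
  set τ : ℝ := (m.divisors.card : ℝ) with hτ
  have hτ1 : 1 ≤ τ := by
    have : 0 < m.divisors.card := Finset.card_pos.2 ⟨1, Nat.one_mem_divisors.2 hm.ne_zero⟩
    rw [hτ]
    exact_mod_cast this
  set cnt : ℕ → ℝ := fun e =>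
    (((Finset.Icc 1 (y / e)).filter (fun f => e * f ≡ b [MOD m])).card : ℝ) with hcnt
  have h1 := RAP2_double c m b y (max A y) (le_max_right _ _)
  have hsplit : Finset.Icc 1 (max A y) = Finset.Icc 1 A ∪ Finset.Ioc A (max A y) := by
    ext a
    rw [Finset.mem_union, Finset.mem_Icc, Finset.mem_Icc, Finset.mem_Ioc]
    have := le_max_left A y
    omega
  have hdis : Disjoint (Finset.Icc 1 A) (Finset.Ioc A (max A y)) := by
    rw [Finset.disjoint_left]
    intro a h1 h2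
    rw [Finset.mem_Icc] at h1
    rw [Finset.mem_Ioc] at h2
    omega
  rw [hsplit, Finset.sum_union hdis] at h1
  -- the small factors
  have h2 : |∑ e ∈ Finset.Icc 1 A, c e * cnt e - ∑ e ∈ Finset.Icc 1 A, c e *
      (if Nat.gcd e m ∣ b then (y : ℝ) / m * ((Nat.gcd e m : ℝ) / e) else 0)| ≤ 2 * A := by
    rw [← Finset.sum_sub_distrib]
    refine (Finset.abs_sum_le_sum_abs _ _).trans ?_
    have h3 : ∀ e ∈ Finset.Icc 1 A, |c e * cnt e - c e *
        (if Nat.gcd e m ∣ b then (y : ℝ) / m * ((Nat.gcd e m : ℝ) / e) else 0)| ≤ 2 := by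
      intro e he
      rw [← mul_sub, abs_mul]
      calc |c e| * |cnt e - (if Nat.gcd e m ∣ b then (y : ℝ) / m * ((Nat.gcd e m : ℝ) / e) else 0)|
          ≤ 1 * 2 := mul_le_mul (RAP1_abs hc e) (RAP2_cnt e m b y (Finset.mem_Icc.1 he).1 hm1)
            (abs_nonneg _) zero_le_one
        _ = 2 := one_mul _
    refine (Finset.sum_le_card_nsmul _ _ _ h3).trans (le_of_eq ?_)
    rw [Nat.card_Icc, nsmul_eq_mul, Nat.add_sub_cancel]
    ring
  rw [RAP2_group hc m hm1 b A] at h2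
  -- the inner sums
  have h3 : |(y : ℝ) / m * ∑ g ∈ m.divisors, (if g ∣ b then c g *
        ∑ e ∈ (Finset.Icc 1 (A / g)).filter (fun e => e.Coprime (m / g)), c e / e else 0) -
      L * y * ∏ p ∈ m.primeFactors, ((1 - c p / p) / p + if p ∣ b then c p / p else 0)| ≤
      8 * τ ^ 2 * PB N * (y / A) := by
    rw [RAP2_identity hc m b hm]
    have e1 : (y : ℝ) / m * ∑ g ∈ m.divisors, (if g ∣ b then c g *
        ∑ e ∈ (Finset.Icc 1 (A / g)).filter (fun e => e.Coprime (m / g)), c e / e else 0) -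
        L * y * (1 / m * ∑ g ∈ m.divisors,
          (if g ∣ b then c g * ∏ p ∈ (m / g).primeFactors, (1 - c p / p) else 0)) =
        (y : ℝ) / m * ∑ g ∈ m.divisors, (if g ∣ b then c g *
          (∑ e ∈ (Finset.Icc 1 (A / g)).filter (fun e => e.Coprime (m / g)), c e / e -
            L * ∏ p ∈ (m / g).primeFactors, (1 - c p / p)) else 0) := by
      have e2 : L * y * (1 / m * ∑ g ∈ m.divisors,
          (if g ∣ b then c g * ∏ p ∈ (m / g).primeFactors, (1 - c p / p) else 0)) =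
          (y : ℝ) / m * ∑ g ∈ m.divisors,
          (if g ∣ b then c g * (L * ∏ p ∈ (m / g).primeFactors, (1 - c p / p)) else 0) := by
        rw [← mul_assoc, Finset.mul_sum, Finset.mul_sum]
        refine Finset.sum_congr rfl fun g _ => ?_
        split_ifs
        · ring
        · ring
      rw [e2, ← mul_sub, ← Finset.sum_sub_distrib]
      congr 1
      refine Finset.sum_congr rfl fun g _ => ?_
      split_ifs
      · ring
      · ring
    rw [e1, abs_mul, abs_of_nonneg (show (0 : ℝ) ≤ (y : ℝ) / m by positivity)]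
    have h4 : ∀ g ∈ m.divisors, |if g ∣ b then c g *
        (∑ e ∈ (Finset.Icc 1 (A / g)).filter (fun e => e.Coprime (m / g)), c e / e -
          L * ∏ p ∈ (m / g).primeFactors, (1 - c p / p)) else 0| ≤ 8 * τ * PB N * m / A := by
      intro g hg
      have hgm : g ∣ m := Nat.dvd_of_mem_divisors hg
      have hgle : (g : ℝ) ≤ m := by exact_mod_cast Nat.le_of_dvd hm1 hgm
      split_ifs with h5
      · rw [abs_mul]
        have h6 := RAP2_inner hc hL hN m g A hm hgm hA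
        calc |c g| * |∑ e ∈ (Finset.Icc 1 (A / g)).filter (fun e => e.Coprime (m / g)), c e / e -
              L * ∏ p ∈ (m / g).primeFactors, (1 - c p / p)|
            ≤ 1 * (8 * τ * PB N * g / A) :=
              mul_le_mul (RAP1_abs hc g) h6 (abs_nonneg _) zero_le_one
          _ = 8 * τ * PB N * g / A := one_mul _
          _ ≤ 8 * τ * PB N * m / A := by
              apply div_le_div_of_nonneg_right _ hA0.le
              apply mul_le_mul_of_nonneg_left hgle
              positivity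
      · rw [abs_zero]
        positivity
    calc (y : ℝ) / m * |∑ g ∈ m.divisors, (if g ∣ b then c g *
          (∑ e ∈ (Finset.Icc 1 (A / g)).filter (fun e => e.Coprime (m / g)), c e / e -
            L * ∏ p ∈ (m / g).primeFactors, (1 - c p / p)) else 0)|
        ≤ (y : ℝ) / m * (τ * (8 * τ * PB N * m / A)) := by
          apply mul_le_mul_of_nonneg_left _ (by positivity)
          refine (Finset.abs_sum_le_sum_abs _ _).trans ?_
          refine (Finset.sum_le_card_nsmul _ _ _ h4).trans (le_of_eq ?_)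
          rw [nsmul_eq_mul]
      _ = 8 * τ ^ 2 * PB N * (y / A) := by
          field_simp
  -- the large factors
  have h4 := RAP2_large hc (by omega : 1 ≤ N) m hmN hm1 b y A (max A y) hA (le_max_right _ _)
  rw [h1]
  set T1 : ℝ := ∑ e ∈ Finset.Icc 1 A, c e * cnt e with hT1
  set T2 : ℝ := ∑ e ∈ Finset.Ioc A (max A y), c e * cnt e with hT2
  set MM : ℝ := (y : ℝ) / m * ∑ g ∈ m.divisors, (if g ∣ b then c g *
        ∑ e ∈ (Finset.Icc 1 (A / g)).filter (fun e => e.Coprime (m / g)), c e / e else 0) with hMM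
  set RR' : ℝ := L * y * ∏ p ∈ m.primeFactors,
    ((1 - c p / p) / p + if p ∣ b then c p / p else 0) with hRR
  have h5 : T1 + T2 - RR' = (T1 - MM) + (MM - RR') + T2 := by ring
  have hyA : 0 ≤ (y : ℝ) / A := by positivity
  have h6 : (y : ℝ) / A * (2 * PB N) ≤ 2 * τ ^ 2 * PB N * (y / A) := by
    have h7 : 1 ≤ τ ^ 2 := one_le_pow₀ hτ1
    have h8 : 0 ≤ PB N * ((y : ℝ) / A) := by positivity
    nlinarith
  calc |T1 + T2 - RR'| = |(T1 - MM) + (MM - RR') + T2| := by rw [h5]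
    _ ≤ |T1 - MM| + |MM - RR'| + |T2| :=
        (abs_add_le _ _).trans (add_le_add (abs_add_le _ _) le_rfl)
    _ ≤ 2 * A + 8 * τ ^ 2 * PB N * (y / A) + 2 * τ ^ 2 * PB N * (y / A) := by
        have := h4.trans h6
        linarith
    _ = 2 * A + 10 * τ ^ 2 * PB N * (y / A) := by ring

open Classical in
theorem rap_law : ∃ N0 : ℕ, ∀ N : ℕ, N0 ≤ N → ∀ (c : ℕ → ℝ) (L : ℝ), RC N c → LV N c L →
    ∀ m : ℕ, Squarefree m → m.Coprime N → (m : ℝ) ≤ (N : ℝ) ^ ((1 : ℝ) / 50) → ∀ b y : ℕ,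
    (y : ℝ) ≤ (N : ℝ) ^ ((21 : ℝ) / 20) →
    |∑ n ∈ (Finset.Icc 1 y).filter (fun n => n % m = b % m), rr c n -
      L * y * ∏ p ∈ m.primeFactors, ((1 - c p / p) / p + if p ∣ b then c p / p else 0)| ≤
      (N : ℝ) ^ ((4 : ℝ) / 5) / 2 := by
  obtain ⟨C1, hC1, hPB⟩ := PB_le (1 / 200) (by norm_num)
  obtain ⟨C2, hC2, hdiv⟩ := divisor_bound (1 / 20) (by norm_num)
  set K : ℝ := 4 + 10 * C2 ^ 2 * C1 with hK
  have hK0 : 0 < K := by positivity
  have hlim : Filter.Tendsto (fun N : ℕ => (N : ℝ) ^ ((18 : ℝ) / 1000)) Filter.atTop Filter.atTop :=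
    (tendsto_rpow_atTop (by norm_num)).comp tendsto_natCast_atTop_atTop
  obtain ⟨N1, hN1⟩ := Filter.eventually_atTop.1 (hlim.eventually_ge_atTop (2 * K))
  refine ⟨max 2 N1, fun N hN c L hc hL m hm hmN hmle b y hy => ?_⟩
  have hN2 : 2 ≤ N := (le_max_left _ _).trans hN
  have hN1' : (1 : ℝ) ≤ N := by exact_mod_cast (by omega : 1 ≤ N)
  have hN0 : (0 : ℝ) < N := by linarith
  have hP := RAP1_PB_one hc
  have hm1 : 1 ≤ m := Nat.one_le_iff_ne_zero.2 hm.ne_zero
  rcases Nat.eq_zero_or_pos y with hy0 | hy0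
  · rw [hy0, Finset.Icc_eq_empty (by norm_num), Finset.filter_empty, Finset.sum_empty]
    simp only [Nat.cast_zero, mul_zero, zero_mul, sub_zero, abs_zero]
    positivity
  have hy1 : (1 : ℝ) ≤ y := by exact_mod_cast hy0
  set s : ℝ := Real.sqrt y with hs
  have hs1 : 1 ≤ s := Real.one_le_sqrt.2 hy1
  have hss : s * s = y := Real.mul_self_sqrt (by linarith)
  set q : ℝ := (N : ℝ) ^ ((1 : ℝ) / 4) with hq
  have hq1 : 1 ≤ q := Real.one_le_rpow hN1' (by norm_num)
  set A : ℕ := ⌈s * q⌉₊ with hA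
  have hsq0 : 0 < s * q := by positivity
  have hsq1 : 1 ≤ s * q := by nlinarith
  have hA1 : 1 ≤ A := Nat.one_le_iff_ne_zero.2 (Nat.ceil_pos.2 hsq0).ne'
  have hAl : s * q ≤ A := Nat.le_ceil _
  have hAu : (A : ℝ) ≤ 2 * (s * q) := by
    have h1 : (A : ℝ) < s * q + 1 := Nat.ceil_lt_add_one hsq0.le
    linarith
  have hA0 : (0 : ℝ) < A := by exact_mod_cast hA1
  refine (RAP2_explicit hN2 hc hL m hm hmN b y A hA1).trans ?_
  -- sizes
  have hs2 : s ≤ (N : ℝ) ^ ((21 : ℝ) / 40) := by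
    rw [hs]
    calc Real.sqrt y ≤ Real.sqrt ((N : ℝ) ^ ((21 : ℝ) / 20)) := Real.sqrt_le_sqrt hy
      _ = (N : ℝ) ^ ((21 : ℝ) / 40) := by
          rw [Real.sqrt_eq_rpow, ← Real.rpow_mul hN0.le]
          norm_num
  have hyA : (y : ℝ) / A ≤ (N : ℝ) ^ ((11 : ℝ) / 40) := by
    rw [div_le_iff₀ hA0]
    have h1 : (N : ℝ) ^ ((11 : ℝ) / 40) * q = (N : ℝ) ^ ((21 : ℝ) / 40) := by
      rw [hq, ← Real.rpow_add hN0]
      norm_num
    calc (y : ℝ) = s * s := hss.symm
      _ ≤ (N : ℝ) ^ ((21 : ℝ) / 40) * s := mul_le_mul_of_nonneg_right hs2 (by linarith)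
      _ = (N : ℝ) ^ ((11 : ℝ) / 40) * (s * q) := by rw [← h1]; ring
      _ ≤ (N : ℝ) ^ ((11 : ℝ) / 40) * A := mul_le_mul_of_nonneg_left hAl (by positivity)
  have hτ : (m.divisors.card : ℝ) ≤ C2 * (N : ℝ) ^ ((1 : ℝ) / 1000) := by
    refine (hdiv m hm1).trans ?_
    apply mul_le_mul_of_nonneg_left _ (by linarith)
    calc (m : ℝ) ^ ((1 : ℝ) / 20) ≤ ((N : ℝ) ^ ((1 : ℝ) / 50)) ^ ((1 : ℝ) / 20) :=
          Real.rpow_le_rpow (Nat.cast_nonneg _) hmle (by norm_num)
      _ = (N : ℝ) ^ ((1 : ℝ) / 1000) := by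
          rw [← Real.rpow_mul hN0.le]
          norm_num
  have hPB' : PB N ≤ C1 * (N : ℝ) ^ ((101 : ℝ) / 200) := by
    have h1 := (hPB N hN2).1
    have h2 : ((1 : ℝ) / 2 + 1 / 200) = 101 / 200 := by norm_num
    rw [h2] at h1
    exact h1
  have hτ2 : (m.divisors.card : ℝ) ^ 2 ≤ C2 ^ 2 * (N : ℝ) ^ ((1 : ℝ) / 500) := by
    calc (m.divisors.card : ℝ) ^ 2 ≤ (C2 * (N : ℝ) ^ ((1 : ℝ) / 1000)) ^ 2 :=
          pow_le_pow_left₀ (Nat.cast_nonneg _) hτ 2
      _ = C2 ^ 2 * (N : ℝ) ^ ((1 : ℝ) / 500) := by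
          rw [mul_pow, ← Real.rpow_natCast ((N : ℝ) ^ ((1 : ℝ) / 1000)), ← Real.rpow_mul hN0.le]
          norm_num
  have hfirst : 2 * (A : ℝ) ≤ 4 * (N : ℝ) ^ ((782 : ℝ) / 1000) := by
    have h1 : s * q ≤ (N : ℝ) ^ ((21 : ℝ) / 40) * (N : ℝ) ^ ((1 : ℝ) / 4) :=
      mul_le_mul_of_nonneg_right hs2 (by positivity)
    rw [← Real.rpow_add hN0] at h1
    have h2 : (N : ℝ) ^ ((21 : ℝ) / 40 + (1 : ℝ) / 4) ≤ (N : ℝ) ^ ((782 : ℝ) / 1000) :=
      Real.rpow_le_rpow_of_exponent_le hN1' (by norm_num)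
    linarith
  have hsecond : 10 * (m.divisors.card : ℝ) ^ 2 * PB N * (y / A) ≤
      10 * C2 ^ 2 * C1 * (N : ℝ) ^ ((782 : ℝ) / 1000) := by
    calc 10 * (m.divisors.card : ℝ) ^ 2 * PB N * (y / A)
        ≤ 10 * (C2 ^ 2 * (N : ℝ) ^ ((1 : ℝ) / 500)) * (C1 * (N : ℝ) ^ ((101 : ℝ) / 200)) *
          (N : ℝ) ^ ((11 : ℝ) / 40) := by
          have hPB0 : 0 ≤ PB N := by linarith
          gcongr
      _ = 10 * C2 ^ 2 * C1 * ((N : ℝ) ^ ((1 : ℝ) / 500) * (N : ℝ) ^ ((101 : ℝ) / 200) *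
          (N : ℝ) ^ ((11 : ℝ) / 40)) := by ring
      _ = 10 * C2 ^ 2 * C1 * (N : ℝ) ^ ((782 : ℝ) / 1000) := by
          rw [← Real.rpow_add hN0, ← Real.rpow_add hN0]
          norm_num
  have hlast : K * (N : ℝ) ^ ((782 : ℝ) / 1000) ≤ (N : ℝ) ^ ((4 : ℝ) / 5) / 2 := by
    have h1 := hN1 N ((le_max_right _ _).trans hN)
    have h2 : (N : ℝ) ^ ((4 : ℝ) / 5) = (N : ℝ) ^ ((18 : ℝ) / 1000) * (N : ℝ) ^ ((782 : ℝ) / 1000) := by
      rw [← Real.rpow_add hN0]
      norm_num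
    rw [h2]
    have h3 : (0 : ℝ) ≤ (N : ℝ) ^ ((782 : ℝ) / 1000) := by positivity
    nlinarith
  calc 2 * (A : ℝ) + 10 * (m.divisors.card : ℝ) ^ 2 * PB N * (y / A)
      ≤ 4 * (N : ℝ) ^ ((782 : ℝ) / 1000) + 10 * C2 ^ 2 * C1 * (N : ℝ) ^ ((782 : ℝ) / 1000) :=
        add_le_add hfirst hsecond
    _ = K * (N : ℝ) ^ ((782 : ℝ) / 1000) := by rw [hK]; ring
    _ ≤ _ := hlast

end Pool.Agent.Lib.RG
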