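import Pool.Agent.Lib.MP_7b7e48_nt.RG.PV

/-!
# Fourier analysis on the unit group of `ZMod N` for every modulus `N`

`chOrth`, `chPars`, `chInv`, `chParsF`, `chMul`, `chMulSq`, `chDual`, `fewChars`.
-/

set_option autoImplicit false

open Finset

namespace Pool.Agent.Lib.RG

variable {N : ℕ} [NeZero N]

omit [NeZero N] in
theorem chNorm (χ : DirichletCharacter ℂ N) {x : ZMod N} (hx : IsUnit x) : ‖χ x‖ = 1 := by
  obtain ⟨u, rfl⟩ := hx
  exact DirichletCharacter.unit_norm_eq_one χ u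

omit [NeZero N] in
theorem chStar (χ : DirichletCharacter ℂ N) (x : ZMod N) :
    (starRingEnd ℂ) (χ x) = χ⁻¹ x := MulChar.star_apply' χ x

theorem phi_pos : (0 : ℝ) < (N.totient : ℝ) := by
  exact_mod_cast Nat.totient_pos.mpr (Nat.pos_of_ne_zero (NeZero.ne N))

theorem phi_ne : ((N.totient : ℕ) : ℂ) ≠ 0 := by
  exact_mod_cast (Nat.totient_pos.mpr (Nat.pos_of_ne_zero (NeZero.ne N))).ne'

theorem chOrth (χ ψ : DirichletCharacter ℂ N) :
    ∑ x : ZMod N, χ x * (starRingEnd ℂ) (ψ x) = if χ = ψ then (N.totient : ℂ) else 0 := by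
  have h1 : ∀ x : ZMod N, χ x * (starRingEnd ℂ) (ψ x) = (χ * ψ⁻¹) x := by
    intro x
    rw [chStar, MulChar.mul_apply]
  simp_rw [h1]
  split_ifs with h
  · subst h
    rw [mul_inv_cancel, MulChar.sum_one_eq_card_units, ZMod.card_units_eq_totient]
  · exact MulChar.sum_eq_zero_of_ne_one (fun h2 => h (mul_inv_eq_one.mp h2))

omit [NeZero N] in
theorem chNormsq (z : ℂ) : ((‖z‖ ^ 2 : ℝ) : ℂ) = z * (starRingEnd ℂ) z := by
  rw [Complex.mul_conj']
  push_cast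
  rfl

omit [NeZero N] in
theorem chExpand {ι : Type*} (s : Finset ι) (c : ι → ℂ) (f : ι → ℂ) :
    ((‖∑ i ∈ s, c i * f i‖ ^ 2 : ℝ) : ℂ) =
      ∑ i ∈ s, ∑ j ∈ s, (c i * (starRingEnd ℂ) (c j)) * (f i * (starRingEnd ℂ) (f j)) := by
  rw [chNormsq, map_sum, Finset.sum_mul_sum]
  refine sum_congr rfl fun i _ => sum_congr rfl fun j _ => ?_
  rw [map_mul]
  ring

/-- Parseval for the characters modulo `N`. -/
theorem chPars (G : Finset (DirichletCharacter ℂ N)) (c : DirichletCharacter ℂ N → ℂ) :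
    ∑ x : ZMod N, ‖∑ χ ∈ G, c χ * χ x‖ ^ 2 = (N.totient : ℝ) * ∑ χ ∈ G, ‖c χ‖ ^ 2 := by
  have h1 : ((∑ x : ZMod N, ‖∑ χ ∈ G, c χ * χ x‖ ^ 2 : ℝ) : ℂ) =
      (((N.totient : ℝ) * ∑ χ ∈ G, ‖c χ‖ ^ 2 : ℝ) : ℂ) := by
    rw [Complex.ofReal_sum]
    have h2 : ∀ x : ZMod N, ((‖∑ χ ∈ G, c χ * χ x‖ ^ 2 : ℝ) : ℂ) =
        ∑ χ ∈ G, ∑ ψ ∈ G, (c χ * (starRingEnd ℂ) (c ψ)) * (χ x * (starRingEnd ℂ) (ψ x)) :=
      fun x => chExpand G c (fun χ => χ x)
    simp_rw [h2]
    rw [sum_comm]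
    have h3 : ∀ χ ∈ G, ∑ x : ZMod N, ∑ ψ ∈ G,
        (c χ * (starRingEnd ℂ) (c ψ)) * (χ x * (starRingEnd ℂ) (ψ x)) =
        (N.totient : ℂ) * ((‖c χ‖ ^ 2 : ℝ) : ℂ) := by
      intro χ hχ
      rw [sum_comm]
      simp_rw [← mul_sum, chOrth]
      rw [Finset.sum_eq_single χ]
      · rw [if_pos rfl, chNormsq]
        ring
      · intro ψ _ hne
        rw [if_neg (fun h => hne h.symm), mul_zero]
      · intro h
        exact absurd hχ h
    rw [sum_congr rfl h3, ← mul_sum]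
    push_cast
    rfl
  exact_mod_cast h1

/-- The coefficient of `χ` in the expansion of `F`. -/
noncomputable def bch (F : ZMod N → ℂ) (χ : DirichletCharacter ℂ N) : ℂ :=
  ((N.totient : ℕ) : ℂ)⁻¹ * ∑ y : ZMod N, F y * (starRingEnd ℂ) (χ y)

theorem chInv (F : ZMod N → ℂ) (h0 : ∀ x, ¬ IsUnit x → F x = 0) (x : ZMod N) :
    F x = ∑ χ : DirichletCharacter ℂ N, bch F χ * χ x := by
  by_cases hx : IsUnit x
  · unfold bch
    simp_rw [mul_sum, sum_mul]
    rw [sum_comm]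
    have h1 : ∀ y : ZMod N, ∑ χ : DirichletCharacter ℂ N,
        ((N.totient : ℕ) : ℂ)⁻¹ * (F y * (starRingEnd ℂ) (χ y)) * χ x = if y = x then F y else 0 := by
      intro y
      by_cases hy : IsUnit y
      · have h2 := DirichletCharacter.sum_char_inv_mul_char_eq ℂ hy x
        have h3 : ∀ χ : DirichletCharacter ℂ N,
            ((N.totient : ℕ) : ℂ)⁻¹ * (F y * (starRingEnd ℂ) (χ y)) * χ x =
            (((N.totient : ℕ) : ℂ)⁻¹ * F y) * (χ y⁻¹ * χ x) := by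
          intro χ
          have h4 : (starRingEnd ℂ) (χ y) = χ y⁻¹ := by
            rw [chStar]
            obtain ⟨u, rfl⟩ := hy
            rw [ZMod.inv_coe_unit, MulChar.inv_apply_eq_inv', map_units_inv]
          rw [h4]
          ring
        simp_rw [h3]
        rw [← mul_sum, h2]
        have h5 : ((N.totient : ℕ) : ℂ) ≠ 0 := phi_ne
        split_ifs with h4
        · field_simp
        · rw [mul_zero]
      · rw [if_neg (fun h : y = x => hy (by rw [h]; exact hx)), h0 y hy]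
        apply Finset.sum_eq_zero
        intro χ _
        ring
    simp_rw [h1]
    rw [Finset.sum_ite_eq' univ x, if_pos (mem_univ _)]
  · rw [h0 x hx]
    symm
    apply Finset.sum_eq_zero
    intro χ _
    rw [MulChar.map_nonunit χ hx, mul_zero]

/-- Parseval for `F`. -/
theorem chParsF (F : ZMod N → ℂ) (h0 : ∀ x, ¬ IsUnit x → F x = 0) :
    ∑ x : ZMod N, ‖F x‖ ^ 2 = (N.totient : ℝ) * ∑ χ : DirichletCharacter ℂ N, ‖bch F χ‖ ^ 2 := by
  rw [← chPars univ (bch F)]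
  refine sum_congr rfl fun x _ => ?_
  rw [← chInv F h0 x]

/-- an exact multiplier -/
theorem chMul (F : ZMod N → ℂ) (u : (ZMod N)ˣ) (s : ℂ)
    (h : ∀ x, F (u * x) = s * F x) (χ : DirichletCharacter ℂ N) (hb : bch F χ ≠ 0) :
    χ (u : ZMod N) = s := by
  have h1 : ∑ y : ZMod N, F y * (starRingEnd ℂ) (χ y) =
      ∑ y : ZMod N, F (u * y) * (starRingEnd ℂ) (χ (u * y)) := by
    symm
    exact Fintype.sum_bijective (fun x => (u : ZMod N) * x) (Units.mulLeft_bijective u) _ _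
      (fun x => rfl)
  have h2 : ∑ y : ZMod N, F (u * y) * (starRingEnd ℂ) (χ (u * y)) =
      (s * (starRingEnd ℂ) (χ u)) * ∑ y : ZMod N, F y * (starRingEnd ℂ) (χ y) := by
    rw [mul_sum]
    refine sum_congr rfl fun y _ => ?_
    rw [h, map_mul χ, map_mul (starRingEnd ℂ)]
    ring
  have h3 : ∑ y : ZMod N, F y * (starRingEnd ℂ) (χ y) ≠ 0 := by
    intro h4
    apply hb
    unfold bch
    rw [h4, mul_zero]
  have h5 : s * (starRingEnd ℂ) (χ u) = 1 := by
    have h6 : (s * (starRingEnd ℂ) (χ u)) * (∑ y : ZMod N, F y * (starRingEnd ℂ) (χ y)) =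
        1 * ∑ y : ZMod N, F y * (starRingEnd ℂ) (χ y) := by
      rw [← h2, ← h1, one_mul]
    exact mul_right_cancel₀ h3 h6
  have h7 : χ (u : ZMod N) * (starRingEnd ℂ) (χ u) = 1 := by
    rw [Complex.mul_conj', DirichletCharacter.unit_norm_eq_one χ u]
    norm_num
  have h8 : (starRingEnd ℂ) (χ u) ≠ 0 := by
    intro h9
    rw [h9, mul_zero] at h7
    exact one_ne_zero h7.symm
  exact mul_right_cancel₀ h8 (h7.trans h5.symm)

/-- Multiplier in the Fourier side. -/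
theorem chMulSq (F : ZMod N → ℂ) (h0 : ∀ x, ¬ IsUnit x → F x = 0) (s : ℂ) (a : ZMod N) :
    ∑ x : ZMod N, ‖F (a * x) - s * F x‖ ^ 2 =
      (N.totient : ℝ) * ∑ χ : DirichletCharacter ℂ N, ‖bch F χ‖ ^ 2 * ‖χ a - s‖ ^ 2 := by
  have h1 : ∀ x : ZMod N, F (a * x) - s * F x =
      ∑ χ : DirichletCharacter ℂ N, (bch F χ * (χ a - s)) * χ x := by
    intro x
    rw [chInv F h0 (a * x), chInv F h0 x, mul_sum, ← sum_sub_distrib]
    refine sum_congr rfl fun χ _ => ?_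
    rw [map_mul]
    ring
  simp_rw [h1]
  rw [chPars univ (fun χ => bch F χ * (χ a - s))]
  congr 1
  refine sum_congr rfl fun χ _ => ?_
  rw [norm_mul, mul_pow]

/-- dual form: characters on a set of distinct units -/
theorem chDual (U : Finset (ZMod N)) (hU : ∀ x ∈ U, IsUnit x) :
    ∑ χ : DirichletCharacter ℂ N, ‖∑ x ∈ U, χ x‖ ^ 2 = (N.totient : ℝ) * U.card := by
  classical
  have h1 : ((∑ χ : DirichletCharacter ℂ N, ‖∑ x ∈ U, χ x‖ ^ 2 : ℝ) : ℂ) =
      (((N.totient : ℝ) * U.card : ℝ) : ℂ) := by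
    rw [Complex.ofReal_sum]
    have h2 : ∀ χ : DirichletCharacter ℂ N, ((‖∑ x ∈ U, χ x‖ ^ 2 : ℝ) : ℂ) =
        ∑ x ∈ U, ∑ y ∈ U, χ y⁻¹ * χ x := by
      intro χ
      rw [chNormsq, map_sum, Finset.sum_mul_sum]
      refine sum_congr rfl fun x _ => sum_congr rfl fun y hy => ?_
      rw [chStar]
      obtain ⟨u, rfl⟩ := hU y hy
      rw [ZMod.inv_coe_unit, MulChar.inv_apply_eq_inv', map_units_inv, mul_comm]
    simp_rw [h2]
    rw [sum_comm]
    have h3 : ∀ x ∈ U, ∑ χ : DirichletCharacter ℂ N, ∑ y ∈ U, χ y⁻¹ * χ x = (N.totient : ℂ) := by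
      intro x hx
      rw [sum_comm]
      have h4 : ∀ y ∈ U, ∑ χ : DirichletCharacter ℂ N, χ y⁻¹ * χ x =
          if y = x then (N.totient : ℂ) else 0 := fun y hy =>
        DirichletCharacter.sum_char_inv_mul_char_eq ℂ (hU y hy) x
      rw [sum_congr rfl h4, Finset.sum_ite_eq' U x, if_pos hx]
    rw [sum_congr rfl h3, sum_const, nsmul_eq_mul]
    push_cast
    ring
  exact_mod_cast h1

open Classical in
/-- few characters are constant `s = ± 1` on a set of primes -/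
theorem fewChars (T : Finset ℕ) (u : ℕ) (s : ℂ) (hs : ‖s‖ = 1)
    (hT : ∀ p ∈ T, p.Prime ∧ ¬ p ∣ N) (hlt : ∀ A ∈ T.powersetCard u, ∏ p ∈ A, p < N)
    (X : Finset (DirichletCharacter ℂ N)) (hX : ∀ χ ∈ X, ∀ p ∈ T, χ (p : ZMod N) = s) :
    (X.card : ℝ) * (T.card.choose u : ℝ) ≤ (N.totient : ℝ) := by
  set 𝒜 := T.powersetCard u with h𝒜
  set φ : Finset ℕ → ZMod N := fun A => ((∏ p ∈ A, p : ℕ) : ZMod N) with hφ
  have hcard : 𝒜.card = T.card.choose u := Finset.card_powersetCard u T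
  have hmem : ∀ A ∈ 𝒜, A ⊆ T ∧ A.card = u := fun A hA => Finset.mem_powersetCard.1 hA
  have hinj : Set.InjOn φ 𝒜 := by
    intro A hA B hB hAB
    have hA' := Finset.mem_coe.1 hA
    have hB' := Finset.mem_coe.1 hB
    have h1 : (∏ p ∈ A, p) = ∏ p ∈ B, p := by
      have h2 : ((∏ p ∈ A, p : ℕ) : ZMod N) = ((∏ p ∈ B, p : ℕ) : ZMod N) := hAB
      rw [ZMod.natCast_eq_natCast_iff'] at h2
      rwa [Nat.mod_eq_of_lt (hlt A hA'), Nat.mod_eq_of_lt (hlt B hB')] at h2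
    have hA1 := Nat.primeFactors_prod (fun p hp => (hT p ((hmem A hA').1 hp)).1)
    have hB1 := Nat.primeFactors_prod (fun p hp => (hT p ((hmem B hB').1 hp)).1)
    rw [← hA1, h1, hB1]
  have hunit : ∀ x ∈ 𝒜.image φ, IsUnit x := by
    intro x hx
    obtain ⟨A, hA, rfl⟩ := mem_image.mp hx
    rw [hφ]
    rw [ZMod.isUnit_iff_coprime]
    refine Nat.Coprime.prod_left fun p hp => ?_
    have h1 := hT p ((hmem A hA).1 hp)
    exact (Nat.Prime.coprime_iff_not_dvd h1.1).mpr h1.2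
  have hD := chDual (𝒜.image φ) hunit
  rw [Finset.card_image_of_injOn hinj, hcard] at hD
  have hval : ∀ χ ∈ X, ‖∑ x ∈ 𝒜.image φ, χ x‖ ^ 2 = (T.card.choose u : ℝ) ^ 2 := by
    intro χ hχ
    rw [Finset.sum_image hinj]
    have h1 : ∀ A ∈ 𝒜, χ (φ A) = s ^ u := by
      intro A hA
      obtain ⟨hA1, hA2⟩ := hmem A hA
      rw [hφ]
      simp only [Nat.cast_prod, map_prod]
      rw [Finset.prod_congr rfl fun p hp => hX χ hχ p (hA1 hp), Finset.prod_const, hA2]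
    rw [sum_congr rfl h1, sum_const, hcard, nsmul_eq_mul, norm_mul, norm_pow, hs, one_pow, mul_one,
      Complex.norm_natCast]
  have h2 : (X.card : ℝ) * (T.card.choose u : ℝ) ^ 2 ≤ (N.totient : ℝ) * (T.card.choose u : ℝ) := by
    rw [← hD]
    calc (X.card : ℝ) * (T.card.choose u : ℝ) ^ 2 = ∑ χ ∈ X, ‖∑ x ∈ 𝒜.image φ, χ x‖ ^ 2 := by
          rw [sum_congr rfl hval, sum_const, nsmul_eq_mul]
      _ ≤ _ := Finset.sum_le_sum_of_subset_of_nonneg (Finset.subset_univ _) fun _ _ _ => by positivity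
  rcases Nat.eq_zero_or_pos (T.card.choose u) with h | h
  · rw [h, Nat.cast_zero, mul_zero]
    positivity
  · have h3 : (0 : ℝ) < (T.card.choose u : ℝ) := by exact_mod_cast h
    have h4 : ((X.card : ℝ) * (T.card.choose u : ℝ)) * (T.card.choose u : ℝ) ≤
        (N.totient : ℝ) * (T.card.choose u : ℝ) := by
      refine le_trans (le_of_eq ?_) h2
      ring
    exact le_of_mul_le_mul_right h4 h3

end Pool.Agent.Lib.RG
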