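import Pool.Agent.Lib.MP_7b7e48_nt.RG.A6
import Pool.Agent.Lib.MP_7b7e48_nt.LG.PC

/-!
# Module E0: blocks of primes, the set of the characters which are close to `θ`

`block N Y` = primes in `(Y, 2Y]` not dividing `N`; `PZ N M` = primes in `(M, 4M²]` not dividing `N`;
`XX N M θ` = characters with `∑_{l ∈ block N M} |χ l - θ|² ≤ |block N M| / log N`; `HH N κ = N^(1/2 - 2κ)`.
All later modules use `Y = 2^i`, `M = 2^j`.

PROOF of `block_card`: `LG`-library prime counting (`π(2Y) - π(Y) ≥ Y / (2 log Y)` for `Y ≥ Y₀`), minus the primes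
of the block which divide `N`: at most `log N / log Y ≤ log N` of them, and `Y / (4 log N) ≥ log N` as `Y ≥ (log N)^3`.
-/

open Finset

namespace Pool.Agent.Lib.RG

open Classical in
/-- the primes in `(Y, 2Y]` which do not divide `N` -/
noncomputable def block (N Y : ℕ) : Finset ℕ :=
  (Finset.Ioc Y (2 * Y)).filter fun l => l.Prime ∧ ¬ l ∣ N

open Classical in
/-- the primes in `(M, 4 M ^ 2]` which do not divide `N` -/
noncomputable def PZ (N M : ℕ) : Finset ℕ :=
  (Finset.Ioc M (4 * M ^ 2)).filter fun l => l.Prime ∧ ¬ l ∣ N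

open Classical in
/-- characters which are close to `θ` on `block N M` -/
noncomputable def XX (N M : ℕ) [NeZero N] (θ : ℝ) : Finset (DirichletCharacter ℂ N) :=
  Finset.univ.filter fun χ => ∑ l ∈ block N M, ‖χ (l : ZMod N) - (θ : ℂ)‖ ^ 2 ≤
    (block N M).card / Real.log N

/-- the end `N ^ (1/2 - 2κ)` of the range in which the characters are controlled -/
noncomputable def HH (N : ℕ) (κ : ℝ) : ℝ := (N : ℝ) ^ (1 / 2 - 2 * κ)

theorem mem_block {N Y l : ℕ} : l ∈ block N Y ↔ Y < l ∧ l ≤ 2 * Y ∧ l.Prime ∧ ¬ l ∣ N := by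
  unfold block
  rw [mem_filter, mem_Ioc]
  tauto

theorem mem_PZ {N M l : ℕ} : l ∈ PZ N M ↔ M < l ∧ l ≤ 4 * M ^ 2 ∧ l.Prime ∧ ¬ l ∣ N := by
  unfold PZ
  rw [mem_filter, mem_Ioc]
  tauto

theorem block_card_le (N Y : ℕ) : (block N Y).card ≤ Y := by
  classical
  unfold block
  refine (card_filter_le _ _).trans ?_
  rw [Nat.card_Ioc]
  omega

theorem omega_le_log (N : ℕ) (hN : 1 ≤ N) : (N.primeFactors.card : ℝ) ≤ 2 * Real.log N := by
  have h1 := two_pow_omega_le N hN
  have h2 : (N.divisors.card : ℝ) ≤ N := by exact_mod_cast Nat.card_divisors_le_self N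
  have h3 := Real.log_le_log (by positivity) (h1.trans h2)
  rw [Real.log_pow] at h3
  have h4 := Real.log_two_gt_d9
  have h5 : (0 : ℝ) ≤ (N.primeFactors.card : ℝ) := Nat.cast_nonneg _
  nlinarith

theorem block_card : ∃ N0 : ℕ, ∀ N : ℕ, N0 ≤ N → ∀ Y : ℕ, (Real.log N) ^ 3 ≤ Y → Y ≤ N →
    (Y : ℝ) / (4 * Real.log N) ≤ (block N Y).card := by
  classical
  obtain ⟨L0, hL0⟩ := Pool.Agent.Lib.MP_7b7e48_nt.LG.PCa
  have hlog : Filter.Tendsto (fun N : ℕ => Real.log N) Filter.atTop Filter.atTop :=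
    Real.tendsto_log_atTop.comp tendsto_natCast_atTop_atTop
  obtain ⟨N0, hN0⟩ := Filter.eventually_atTop.mp
    (hlog.eventually (Filter.eventually_ge_atTop (max 8 (L0 : ℝ))))
  refine ⟨max N0 1, ?_⟩
  intro N hN Y hY hYN
  have hK := hN0 N ((le_max_left _ _).trans hN)
  have hN1 : 1 ≤ N := (le_max_right _ _).trans hN
  set K := Real.log N with hKdef
  have hK8 : 8 ≤ K := (le_max_left _ _).trans hK
  have hKL : (L0 : ℝ) ≤ K := (le_max_right _ _).trans hK
  have hK3 : K ≤ K ^ 3 := by nlinarith [mul_nonneg (show (0 : ℝ) ≤ K by linarith) (show (0 : ℝ) ≤ K ^ 2 - 1 by nlinarith)]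
  have hYr : K ≤ Y := hK3.trans hY
  have hL0Y : L0 ≤ Y := by exact_mod_cast hKL.trans hYr
  have h1 := (hL0 Y hL0Y).1
  have hYpos : (0 : ℝ) < Y := by linarith
  have hlY : 0 < Real.log Y := Real.log_pos (by linarith)
  have hlYK : Real.log Y ≤ K := by
    rw [hKdef]
    exact Real.log_le_log hYpos (by exact_mod_cast hYN)
  have h2 : (Y : ℝ) / (2 * K) ≤ (Y : ℝ) / (2 * Real.log Y) := by
    apply div_le_div_of_nonneg_left hYpos.le (by positivity)
    linarith
  -- the primes dividing `N`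
  have h3 : (Pool.Agent.Lib.MP_7b7e48_nt.LG.Bl Y).card ≤ (block N Y).card + N.primeFactors.card := by
    rw [← Finset.card_filter_add_card_filter_not (s := Pool.Agent.Lib.MP_7b7e48_nt.LG.Bl Y)
      (fun l => ¬ l ∣ N)]
    refine Nat.add_le_add (Finset.card_le_card ?_) (Finset.card_le_card ?_)
    · intro l hl
      rw [mem_filter] at hl
      unfold Pool.Agent.Lib.MP_7b7e48_nt.LG.Bl at hl
      rw [mem_filter, mem_Ioc] at hl
      rw [mem_block]
      exact ⟨hl.1.1.1, hl.1.1.2, hl.1.2, hl.2⟩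
    · intro l hl
      rw [mem_filter, not_not] at hl
      unfold Pool.Agent.Lib.MP_7b7e48_nt.LG.Bl at hl
      rw [mem_filter] at hl
      exact Nat.mem_primeFactors.mpr ⟨hl.1.2, hl.2, by omega⟩
  have h4 : ((Pool.Agent.Lib.MP_7b7e48_nt.LG.Bl Y).card : ℝ) ≤
      ((block N Y).card : ℝ) + N.primeFactors.card := by exact_mod_cast h3
  have h5 := omega_le_log N hN1
  have h6 : 2 * K ≤ (Y : ℝ) / (4 * K) := by
    rw [le_div_iff₀ (by linarith)]
    nlinarith [mul_nonneg (show (0 : ℝ) ≤ K ^ 2 by positivity) (show (0 : ℝ) ≤ K - 8 by linarith)]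
  have h7 : (Y : ℝ) / (2 * K) = (Y : ℝ) / (4 * K) + (Y : ℝ) / (4 * K) := by
    field_simp
    ring
  linarith

end Pool.Agent.Lib.RG
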