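import Pool.Agent.Lib.MP_7b7e48_nt.RG.Defs

/-!
# Second moment of the number of rough integers in a residue class: definitions

Section 2 of `/team-store/RG3_PROOF.md`.
-/

open Finset

namespace Pool.Agent.Lib.RG

open Classical in
/-- the density of `d ∣ k N + ε v n` in the measure with local densities `u p + e p 1_{p ∣ a}` -/
noncomputable def pw (u e : ℕ → ℝ) (d : ℕ) (k : ℤ) : ℝ :=
  ∏ p ∈ d.primeFactors, (u p + if (p : ℤ) ∣ k then e p else 0)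

/-- the size of the coefficients -/
noncomputable def Ew (u e : ℕ → ℝ) (d : ℕ) : ℝ := ∏ p ∈ d.primeFactors, (|u p| + |e p|)

open Classical in
/-- the joint density of `d₁ ∣ k₁ N + ε v n`, `d₂ ∣ k₂ N + ε v n` -/
noncomputable def jw (u e : ℕ → ℝ) (d₁ d₂ : ℕ) (k₁ k₂ : ℤ) : ℝ :=
  pw u e d₁ k₁ * pw u e (d₂ / d₁.gcd d₂) k₂ * (if ((d₁.gcd d₂ : ℕ) : ℤ) ∣ k₂ - k₁ then 1 else 0)

/-- the local densities: `P` is a set of primes `≤ z`, `S4` are the exceptional primes (which divide `v`) -/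
structure Law (z : ℕ) (P S4 : Finset ℕ) (u e : ℕ → ℝ) : Prop where
  prime : ∀ p ∈ P, p.Prime ∧ p ≤ z
  card : S4.card ≤ 4
  four : ∀ p ∈ S4, u p = 0 ∧ e p = 1
  small : ∀ p ∈ P, p ∉ S4 → |u p| + |e p| ≤ 3 / p ∧ 0 ≤ u p ∧ 0 ≤ u p + e p
  mean : ∀ p ∈ P, u p + e p / p = 1 / p

/-- the sieve weights: `D` consists of squarefree products of primes of `P` -/
structure Wts (P D : Finset ℕ) (w : ℕ → ℝ) (Lam : ℝ) : Prop where
  sq : ∀ d ∈ D, 1 ≤ d ∧ Squarefree d ∧ ∀ p : ℕ, p.Prime → p ∣ d → p ∈ P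
  bd : ∀ d ∈ D, |w d| ≤ Lam

/-- `V = ∑ w d / d` -/
noncomputable def Vw (D : Finset ℕ) (w : ℕ → ℝ) : ℝ := ∑ d ∈ D, w d / d

/-- the mean -/
noncomputable def M1 (u e : ℕ → ℝ) (D : Finset ℕ) (w : ℕ → ℝ) (W : Finset ℤ) : ℝ :=
  ∑ d ∈ D, w d * ∑ k ∈ W, pw u e d k

/-- the second moment -/
noncomputable def M2 (u e : ℕ → ℝ) (D : Finset ℕ) (w : ℕ → ℝ) (W : Finset ℤ) : ℝ :=
  ∑ d₁ ∈ D, ∑ d₂ ∈ D, w d₁ * w d₂ * ∑ k₁ ∈ W, ∑ k₂ ∈ W, jw u e d₁ d₂ k₁ k₂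

open Classical in
/-- `A(n) = ∑_{k ∈ W} ∑_{d ∣ k N + ε v n} w d` -/
noncomputable def Aw (D : Finset ℕ) (w : ℕ → ℝ) (W : Finset ℤ) (N v : ℕ) (ep : ℤ) (n : ℕ) : ℝ :=
  ∑ k ∈ W, ∑ d ∈ D, if (d : ℤ) ∣ k * N + ep * v * n then w d else 0

open Classical in
/-- the law of the weights `om` on the finite set `I`: density `X`, error `Err`, for moduli `m ≤ Y` which are products of
primes of `P` outside `S4` -/
def HasLaw (P S4 : Finset ℕ) (u e : ℕ → ℝ) (I : Finset ℕ) (om : ℕ → ℝ) (X Err : ℝ) (Y : ℕ) : Prop :=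
  ∀ m : ℕ, Squarefree m → (∀ p : ℕ, p.Prime → p ∣ m → p ∈ P ∧ p ∉ S4) → m ≤ Y → ∀ b : ℕ,
    |∑ n ∈ I.filter (fun n => n % m = b % m), om n -
      X * ∏ p ∈ m.primeFactors, (u p + if p ∣ b then e p else 0)| ≤ Err

/-- the class `x` contains at least `J / (log N)^2` rough integers `≤ J N` -/
def Good (N z J : ℕ) (x : ZMod N) : Prop := (J : ℝ) ≤ (Real.log N) ^ 2 * ((RR N z (J * N) x).card : ℝ)

end Pool.Agent.Lib.RG
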