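import Pool.Agent.Lib.MP_45349e_nt.LS.LamB
import Pool.Agent.Lib.MP_7b7e48_nt.RG.Defs
import Pool.Agent.Lib.MP_7b7e48_nt.RG.CHA
import Pool.Agent.Lib.MP_7b7e48_nt.RG.E0
import Pool.Agent.Lib.MP_7b7e48_nt.RG.SMdef

/-!
# A bounded number of prime factors with prescribed parities: definitions

Paper proof: `/team-store/RG3_PROOF.md`. `K` is always `log N`. `lam` is the Liouville function (real valued).
`Rough z n`, `RN N z y`, `PN N z`, `RC N c`, `LV N c L`, `rr c`, `SS c` and `PB N` are defined in `RG/Defs.lean`, `RG/PV.lean`;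
`block N Y`, `PZ N M`, `HH N κ` in `RG/E0.lean`.
-/

set_option autoImplicit false

open Finset
open Pool.Agent.Lib.MP_45349e_nt.LS (lam)

namespace Pool.Agent.Lib.RH

open Pool.Agent.Lib.RG hiding RR sig Good

/-- the parameters: `kap` (small, the distance of the ranges from `1/2` and `1`), `c` (rough numbers
have no prime factor `≤ N ^ c`), `C1` (the small primes are `≈ (log N) ^ C1`) -/
structure Prm where
  kap : ℝ
  c : ℝ
  C1 : ℕ

/-- admissible parameters -/
structure Prm.Ok (P : Prm) : Prop where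
  kap0 : 0 < P.kap
  kap1 : P.kap ≤ 1 / 1000
  c0 : 0 < P.c
  c1 : P.c ≤ P.kap / 10000
  C1 : 10 ≤ P.C1

variable (P : Prm) (N : ℕ)

/-- the sifting limit -/
noncomputable def zz : ℕ := ⌊(N : ℝ) ^ P.c⌋₊

/-- `M = 2 ^ m0`, `K ^ C1 ≤ M < 2 K ^ C1` -/
noncomputable def m0 : ℕ := ⌈(P.C1 : ℝ) * Real.logb 2 (Real.log N)⌉₊

/-- the size of the small primes -/
noncomputable def MM : ℕ := 2 ^ m0 P N

/-- the length of the windows -/
noncomputable def JJ : ℕ := ⌈(Real.log N) ^ 1000⌉₊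

/-- `2 ^ i` belongs to the range `[M, N ^ (1/2 - 2 kap)]` -/
def InR (i : ℕ) : Prop := m0 P N ≤ i ∧ ((2 : ℝ) ^ i) ≤ HH N P.kap

/-- rough numbers `> 1` coprime to `N` -/
def Rgh (a : ℕ) : Prop := 1 < a ∧ a.Coprime N ∧ Rough (zz P N) a

/-- the number of prime factors `≤ zz`, with multiplicity -/
noncomputable def smc (a : ℕ) : ℕ := (a.primeFactorsList.filter fun p => p ≤ zz P N).length

/-- numbers `> 1` coprime to `N`, all prime factors `> M`, at most `r` of them `≤ zz` -/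
def WW (r a : ℕ) : Prop := 1 < a ∧ a.Coprime N ∧ Rough (MM P N) a ∧ smc P N a ≤ r

open Classical in
/-- the rough members `1 < a < J N` of a residue class -/
noncomputable def RR (x : ZMod N) : Finset ℕ :=
  (Finset.range (JJ N * N)).filter fun a => (a : ZMod N) = x ∧ Rgh P N a

/-- a class is good if it contains many rough numbers `≤ J N` -/
def Good (x : ZMod N) : Prop := RG.Good N (zz P N) (JJ N) x

open Classical in
/-- the units which are not good -/
noncomputable def NG [NeZero N] : Finset (ZMod N) :=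
  Finset.univ.filter fun x => IsUnit x ∧ ¬ Good P N x

/-- the bound for `k` -/
noncomputable def KB : ℕ := 100 * (MM P N) ^ 8 * JJ N

/-- the pattern `(s, t)` does not occur -/
def Missing (s t : ℝ) : Prop := ∀ a b k : ℕ, WW P N 4 a → WW P N 4 b → a.Coprime b →
  a + b = k * N → k ≤ KB P N → ¬ (lam a = s ∧ lam b = t)

/-- `χ` is close to `θ` at most primes of all dyadic blocks -/
def Blk (r : ℕ) (θ : ℝ) (χ : DirichletCharacter ℂ N) : Prop := ∀ i : ℕ, InR P N i →
  ∑ l ∈ block N (2 ^ i), ‖χ (l : ZMod N) - (θ : ℂ)‖ ^ 2 ≤ (2 : ℝ) ^ i / (Real.log N) ^ r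

/-- `1`, `l` or `l * l'` with `l, l'` in `PZ N M` -/
def W2 (w : ℕ) : Prop := w = 1 ∨ w ∈ PZ N (MM P N) ∨
  ∃ l ∈ PZ N (MM P N), ∃ l' ∈ PZ N (MM P N), w = l * l'

open Classical in
/-- the primes `q`, `zz < q ≤ N ^ (1 - kap)`, with `χ q = 1` -/
noncomputable def QQ {N : ℕ} (χ : DirichletCharacter ℂ N) : Finset ℕ :=
  (Finset.range (N + 1)).filter fun q => q.Prime ∧ zz P N < q ∧ (q : ℝ) ≤ (N : ℝ) ^ (1 - P.kap) ∧
    χ (q : ZMod N) = 1

/-- the sum of their reciprocals -/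
noncomputable def sig {N : ℕ} (χ : DirichletCharacter ℂ N) : ℝ := ∑ q ∈ QQ P χ, 1 / (q : ℝ)

/-- `lam a ≠ χ a` -/
def DA {N : ℕ} (χ : DirichletCharacter ℂ N) (a : ℕ) : Prop := (lam a : ℂ) ≠ χ (a : ZMod N)

/-- `a` has a prime factor `q > zz` with `χ q = 1` -/
def HQ {N : ℕ} (χ : DirichletCharacter ℂ N) (a : ℕ) : Prop :=
  ∃ q : ℕ, q.Prime ∧ zz P N < q ∧ q ∣ a ∧ χ (q : ZMod N) = 1

open Classical in
/-- products `< y` of three primes `> zz` with `χ = -1` -/
noncomputable def T3 {N : ℕ} (χ : DirichletCharacter ℂ N) (y : ℕ) : Finset ℕ :=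
  (Finset.range y).filter fun n => ∃ l1 l2 l3 : ℕ, (l1.Prime ∧ zz P N < l1 ∧ χ (l1 : ZMod N) = -1) ∧
    (l2.Prime ∧ zz P N < l2 ∧ χ (l2 : ZMod N) = -1) ∧
    (l3.Prime ∧ zz P N < l3 ∧ χ (l3 : ZMod N) = -1) ∧ n = l1 * l2 * l3

open Classical in
/-- the properties of the sign function of the classes -/
structure FS [NeZero N] (s t : ℝ) (f : ZMod N → ℝ) : Prop where
  f0 : ∀ x : ZMod N, ¬ IsUnit x → f x = 0
  f1 : ∀ x : ZMod N, IsUnit x → f x = 1 ∨ f x = -1
  f2 : ∀ x : ZMod N, IsUnit x → Good P N x →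
    (RR P N x).card ≤ 2 * ((RR P N x).filter fun a => lam a = f x).card
  f3 : ((Finset.univ : Finset (ZMod N)).filter fun x => IsUnit x ∧ f (-x) ≠ -(s * t) * f x).card ≤
    10 * (NG P N).card
  f4 : ∀ l ∈ PZ N (MM P N), ((Finset.univ : Finset (ZMod N)).filter fun x => IsUnit x ∧
    f ((l : ZMod N) * x) ≠ -f x).card ≤ 10 * (NG P N).card

open Classical in
/-- everything which follows from a missing pattern in the first part -/
structure Env [NeZero N] (s t : ℝ) (χ : DirichletCharacter ℂ N) : Prop where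
  miss : Missing P N s t
  hs : s = 1 ∨ s = -1
  ht : t = 1 ∨ t = -1
  sq : χ ^ 2 = 1
  ne : χ ≠ 1
  neg : χ (-1) = ((-(s * t) : ℝ) : ℂ)
  small : ∀ l ∈ PZ N (MM P N), χ (l : ZMod N) = -1
  blk : Blk P N 12 (-1) χ
  typ : (((Finset.univ : Finset (ZMod N)).filter fun x => IsUnit x ∧ ∃ a ∈ RR P N x, DA χ a).card : ℝ)
    ≤ (N : ℝ) / (Real.log N) ^ 5

open Classical in
/-- very good classes -/
def VG (x : ZMod N) : Prop := Good P N x ∧ Good P N (-x) ∧
  4 * ((block N (MM P N)).filter fun l : ℕ => ¬ Good P N ((l : ZMod N) * x) ∨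
    ¬ Good P N (-((l : ZMod N) * x))).card ≤ (block N (MM P N)).card

open Classical in
/-- the very good classes all of whose rough members have `lam ≠ χ` -/
noncomputable def ZZ {N : ℕ} [NeZero N] (χ : DirichletCharacter ℂ N) : Finset (ZMod N) :=
  Finset.univ.filter fun x => IsUnit x ∧ VG P N x ∧ ∀ a ∈ RR P N x, DA χ a

end Pool.Agent.Lib.RH
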