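import Pool.Agent.Lib.MP_7b7e48_nt.RG.SMdef
import Pool.Agent.Lib.MP_7b7e48_nt.GT.FL1

/-!
# Module SMi (30 minutes): intervals on which `⌊v n / N⌋` is constant; uniform weights

PROOF of `floor_int`: `n ↦ v n / N` is monotone, so the set is an interval `Ioc a b` (possibly empty).
PROOF of `floor_card`: the values of `v n / N` on `Ioc lo hi` are at most `v hi / N`, and at least 0.
PROOF of `unif_law`: `#{a < n ≤ b : n = r (m)} = (b - a)/m + θ`, `|θ| ≤ 1`; `∏_{p ∣ m} (1/p) = 1/m` for squarefree `m`.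
-/

open Finset

namespace Pool.Agent.Lib.RG

theorem floor_int (N v lo hi k0 : ℕ) (_hN : 1 ≤ N) (hlo : lo ≤ hi) : ∃ a b : ℕ, a ≤ b ∧ lo ≤ a ∧ b ≤ hi ∧
    (Finset.Ioc lo hi).filter (fun n => v * n / N = k0) = Finset.Ioc a b := by
  classical
  set S := (Finset.Ioc lo hi).filter (fun n => v * n / N = k0) with hS
  have hmono : ∀ x y : ℕ, x ≤ y → v * x / N ≤ v * y / N := fun x y h =>
    Nat.div_le_div_right (Nat.mul_le_mul_left v h)
  rcases S.eq_empty_or_nonempty with h | h
  · exact ⟨lo, lo, le_refl _, le_refl _, hlo, by rw [h]; simp⟩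
  · have hmin := S.min'_mem h
    have hmax := S.max'_mem h
    set p := S.min' h with hp
    set q := S.max' h with hq
    have hp' := mem_filter.mp (hS ▸ hmin)
    have hq' := mem_filter.mp (hS ▸ hmax)
    have hp1 := mem_Ioc.mp hp'.1
    have hq1 := mem_Ioc.mp hq'.1
    have hpq : p ≤ q := S.min'_le q hmax
    refine ⟨p - 1, q, by omega, by omega, hq1.2, ?_⟩
    ext n
    rw [mem_Ioc]
    constructor
    · intro hn
      have h1 := S.min'_le n hn
      have h2 := S.le_max' n hn
      rw [← hp] at h1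
      rw [← hq] at h2
      omega
    · rintro ⟨h1, h2⟩
      have h3 : p ≤ n := by omega
      rw [hS, mem_filter, mem_Ioc]
      refine ⟨⟨by omega, by omega⟩, ?_⟩
      have h4 := hmono p n h3
      have h5 := hmono n q h2
      have h6 := hp'.2
      have h7 := hq'.2
      omega

theorem floor_card (N v lo hi : ℕ) (_hN : 1 ≤ N) :
    ((Finset.Ioc lo hi).image fun n => v * n / N).card ≤ v * hi / N + 1 := by
  classical
  have h1 : (Finset.Ioc lo hi).image (fun n => v * n / N) ⊆ range (v * hi / N + 1) := by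
    intro k hk
    obtain ⟨n, hn, rfl⟩ := mem_image.mp hk
    have h2 := (mem_Ioc.mp hn).2
    have h3 : v * n / N ≤ v * hi / N := Nat.div_le_div_right (Nat.mul_le_mul_left v h2)
    exact mem_range.mpr (by omega)
  calc _ ≤ (range (v * hi / N + 1)).card := card_le_card h1
    _ = _ := card_range _

theorem prod_inv_sqf (m : ℕ) (hm : Squarefree m) :
    ∏ p ∈ m.primeFactors, (1 / (p : ℝ)) = 1 / (m : ℝ) := by
  rw [Finset.prod_div_distrib, prod_const_one]
  congr 1
  have h := Nat.prod_primeFactors_of_squarefree hm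
  conv_rhs => rw [← h]
  push_cast
  rfl

theorem unif_law (P S4 : Finset ℕ) (a b : ℕ) (hab : a ≤ b) (Y : ℕ) :
    HasLaw P S4 (fun p => if p ∈ S4 then 0 else 1 / (p : ℝ)) (fun p => if p ∈ S4 then 1 else 0)
      (Finset.Ioc a b) (fun _ => 1) ((b : ℝ) - a) 1 Y := by
  classical
  intro m hm hp _ c
  have hm0 : 0 < m := Nat.pos_of_ne_zero hm.ne_zero
  have h1 : ∏ p ∈ m.primeFactors, ((if p ∈ S4 then (0 : ℝ) else 1 / (p : ℝ)) +
      if p ∣ c then (if p ∈ S4 then (1 : ℝ) else 0) else 0) = 1 / (m : ℝ) := by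
    rw [← prod_inv_sqf m hm]
    refine prod_congr rfl fun p hpm => ?_
    have h2 := (hp p (Nat.prime_of_mem_primeFactors hpm) (Nat.dvd_of_mem_primeFactors hpm)).2
    rw [if_neg h2, if_neg h2]
    split_ifs <;> ring
  have h3 := Pool.Agent.Lib.GT.abs_card_class m hm0 (c % m) (Nat.mod_lt _ hm0) (a + 1) (b - a)
  have h4 : Finset.Ioc a b = Ico (a + 1) (a + 1 + (b - a)) := by
    ext n
    rw [mem_Ioc, mem_Ico]
    omega
  rw [h1, sum_const, nsmul_eq_mul, mul_one, h4, ← div_eq_mul_one_div]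
  rw [Nat.cast_sub hab] at h3
  convert h3 using 6

end Pool.Agent.Lib.RG
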