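import Pool.Agent.Lib.MP_7b7e48_nt.RG.A3

/-!
# Module RAP1 (60 minutes): character sums in progressions, sums over integers coprime to `k`

PROOF of `pv_prog`. Choose `b'` with `m b' = b` modulo `N` (`m` is coprime to `N`). Then `b + j m = m (b' + j)` modulo `N`, so
`c (b + j m) = c m c (b' + j)` (`RC.per`, `RC.mul`), `|c m| ≤ 1`, and `∑_{j < Y} c (b' + j)` is the difference of two initial sums
(`b' ≥ 1` without loss), each `≤ PB N`.
PROOF of `cop_sum`. `∑_{e ≤ A, (e,k) = 1} c e/e = ∑_{t ∣ k} μ(t) (c t/t) ∑_{e ≤ A/t} c e/e`. For `t ≤ A` the inner sum is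
`L + θ 2 PB N/⌊A/t⌋` and `⌊A/t⌋ ≥ A/(2t)`, error `4 PB N/A` after the factor `1/t`. For `t > A` it is empty, error
`L/t ≤ L/A ≤ 3 PB N/A` (`LV` with `y = 1` gives `L ≤ 1 + 2 PB N ≤ 3 PB N`). Main term `L ∑_{t ∣ k} μ(t) c t/t = L ∏_{p ∣ k} (1 - c p/p)`.
-/

open Finset

namespace Pool.Agent.Lib.RG

theorem RAP1_one {N : ℕ} {c : ℕ → ℝ} (hc : RC N c) : c 1 = 1 := by
  have h1 := hc.mul 1 1
  rw [mul_one] at h1
  rcases hc.val 1 (Nat.coprime_one_left N) with h | h
  · exact h
  · rw [h] at h1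
    norm_num at h1

theorem RAP1_abs {N : ℕ} {c : ℕ → ℝ} (hc : RC N c) (n : ℕ) : |c n| ≤ 1 := by
  by_cases h : n.Coprime N
  · rcases hc.val n h with h1 | h1
    · rw [h1, abs_one]
    · rw [h1, abs_neg, abs_one]
  · rw [hc.zero n h, abs_zero]
    exact zero_le_one

theorem RAP1_PB_one {N : ℕ} {c : ℕ → ℝ} (hc : RC N c) : 1 ≤ PB N := by
  have h3 := hc.pv 1
  rw [Finset.Icc_self, Finset.sum_singleton, RAP1_one hc, abs_one] at h3
  exact h3

theorem RAP1_L_le {N : ℕ} {c : ℕ → ℝ} {L : ℝ} (hc : RC N c) (hL : LV N c L) : L ≤ 3 * PB N := by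
  have h1 := hL.2 1 le_rfl
  rw [Finset.Icc_self, Finset.sum_singleton, RAP1_one hc] at h1
  have h2 := RAP1_PB_one hc
  have h3 := (abs_le.1 h1).1
  push_cast at h3
  rw [div_one, div_one] at h3
  linarith

private theorem RAP1_per {N : ℕ} {c : ℕ → ℝ} (hc : RC N c) (n k : ℕ) : c (n + k * N) = c n := by
  induction k with
  | zero => rw [zero_mul, add_zero]
  | succ k ih =>
    rw [Nat.succ_mul, ← add_assoc, hc.per, ih]

theorem RAP1_congr {N : ℕ} {c : ℕ → ℝ} (hc : RC N c) {a b : ℕ} (h : a ≡ b [MOD N]) : c a = c b := by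
  have h1 : ∀ n : ℕ, c n = c (n % N) := by
    intro n
    conv_lhs => rw [← Nat.mod_add_div n N, mul_comm]
    exact RAP1_per hc _ _
  rw [h1 a, h1 b, h]

theorem pv_prog (N : ℕ) (hN : 1 ≤ N) (c : ℕ → ℝ) (hc : RC N c) (m : ℕ) (hm : m.Coprime N)
    (b Y : ℕ) : |∑ j ∈ Finset.range Y, c (b + j * m)| ≤ 2 * PB N := by
  have hP := RAP1_PB_one hc
  obtain ⟨m', hm'⟩ : ∃ m' : ℕ, m * m' ≡ 1 [MOD N] := by
    rcases Nat.eq_or_lt_of_le hN with h1 | h1
    · exact ⟨0, by rw [← h1]; exact Nat.modEq_one⟩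
    · obtain ⟨m', _, h2⟩ := Nat.exists_mul_mod_eq_one_of_coprime hm h1
      refine ⟨m', ?_⟩
      unfold Nat.ModEq
      rw [h2, Nat.mod_eq_of_lt h1]
  set b' : ℕ := m' * b + N with hb'
  have hb1 : 1 ≤ b' := by omega
  have h1 : ∀ j : ℕ, c (b + j * m) = c m * c (b' + j) := by
    intro j
    rw [← hc.mul]
    apply RAP1_congr hc
    have h2 : m * (b' + j) = m * m' * b + (j * m + m * N) := by
      rw [hb']
      ring
    rw [h2]
    have h3 : m * m' * b ≡ 1 * b [MOD N] := hm'.mul_right b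
    rw [one_mul] at h3
    have h4 : j * m + m * N ≡ j * m [MOD N] := by
      unfold Nat.ModEq
      rw [Nat.add_mul_mod_self_right]
    exact (h3.add h4).symm
  rw [Finset.sum_congr rfl fun j _ => h1 j, ← Finset.mul_sum, abs_mul]
  have h2 : ∑ j ∈ Finset.range Y, c (b' + j) =
      ∑ i ∈ Finset.Icc 1 (b' + Y - 1), c i - ∑ i ∈ Finset.Icc 1 (b' - 1), c i := by
    have e1 : ∀ n : ℕ, 1 ≤ n → Finset.Icc 1 (n - 1) = Finset.Ico 1 n := by
      intro n hn
      ext i
      rw [Finset.mem_Icc, Finset.mem_Ico]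
      omega
    rw [e1 (b' + Y) (by omega), e1 b' hb1, ← Finset.sum_Ico_consecutive c hb1
      (show b' ≤ b' + Y by omega), Finset.sum_Ico_eq_sum_range c b' (b' + Y),
      Nat.add_sub_cancel_left, add_sub_cancel_left]
  have h3 : |∑ j ∈ Finset.range Y, c (b' + j)| ≤ 2 * PB N := by
    rw [h2]
    refine (abs_sub _ _).trans ?_
    linarith [hc.pv (b' + Y - 1), hc.pv (b' - 1)]
  calc |c m| * |∑ j ∈ Finset.range Y, c (b' + j)| ≤ 1 * (2 * PB N) :=
        mul_le_mul (RAP1_abs hc m) h3 (abs_nonneg _) zero_le_one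
    _ = 2 * PB N := one_mul _

/-- `c t / t` as an arithmetic function. -/
private noncomputable def RAP1_f (c : ℕ → ℝ) : ArithmeticFunction ℝ :=
  ⟨fun n => c n / n, by simp⟩

private theorem RAP1_f_mult {N : ℕ} {c : ℕ → ℝ} (hc : RC N c) : (RAP1_f c).IsMultiplicative := by
  rw [ArithmeticFunction.IsMultiplicative.iff_ne_zero]
  constructor
  · change c 1 / ((1 : ℕ) : ℝ) = 1
    rw [RAP1_one hc]
    norm_num
  · intro m n _ _ _
    change c (m * n) / ((m * n : ℕ) : ℝ) = c m / m * (c n / n)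
    rw [hc.mul, Nat.cast_mul, div_mul_div_comm]

/-- Detection of coprimality. -/
private theorem RAP1_detect (n k : ℕ) (hk : k ≠ 0) (w : ℝ) :
    (if n.Coprime k then w else 0) =
      ∑ t ∈ k.divisors, if t ∣ n then ((ArithmeticFunction.moebius t : ℤ) : ℝ) * w else 0 := by
  have hg : Nat.gcd n k ≠ 0 := Nat.gcd_ne_zero_right hk
  have h2 : ∑ d ∈ (Nat.gcd n k).divisors, (ArithmeticFunction.moebius d : ℤ) =
      if Nat.gcd n k = 1 then 1 else 0 := by
    have h := ArithmeticFunction.coe_mul_zeta_apply (f := ArithmeticFunction.moebius)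
      (x := Nat.gcd n k)
    rw [ArithmeticFunction.moebius_mul_coe_zeta] at h
    rw [← h, ArithmeticFunction.one_apply]
  have h3 : (Nat.gcd n k).divisors = k.divisors.filter (fun d => d ∣ n) := by
    ext d
    rw [Nat.mem_divisors, Finset.mem_filter, Nat.mem_divisors, Nat.dvd_gcd_iff]
    constructor
    · rintro ⟨⟨h4, h5⟩, _⟩
      exact ⟨⟨h5, hk⟩, h4⟩
    · rintro ⟨⟨h5, _⟩, h4⟩
      exact ⟨⟨h4, h5⟩, hg⟩
  rw [h3] at h2
  rw [← Finset.sum_filter, ← Finset.sum_mul]
  have h4 : (∑ e ∈ k.divisors.filter (fun d => d ∣ n),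
      ((ArithmeticFunction.moebius e : ℤ) : ℝ)) = if Nat.gcd n k = 1 then 1 else 0 := by
    have h5 : ((∑ e ∈ k.divisors.filter (fun d => d ∣ n),
        (ArithmeticFunction.moebius e : ℤ) : ℤ) : ℝ) =
        ((if Nat.gcd n k = 1 then 1 else 0 : ℤ) : ℝ) := by rw [h2]
    push_cast at h5
    exact h5
  rw [h4]
  by_cases h : n.Coprime k
  · rw [if_pos h, if_pos (show Nat.gcd n k = 1 from h), one_mul]
  · rw [if_neg h, if_neg (show ¬ Nat.gcd n k = 1 from h), zero_mul]

theorem cop_sum (N : ℕ) (hN : 2 ≤ N) (c : ℕ → ℝ) (L : ℝ) (hc : RC N c) (hL : LV N c L) (k : ℕ)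
    (hk : Squarefree k) (A : ℕ) (hA : 1 ≤ A) :
    |∑ e ∈ (Finset.Icc 1 A).filter (fun e => e.Coprime k), c e / e -
      L * ∏ p ∈ k.primeFactors, (1 - c p / p)| ≤ 4 * k.divisors.card * PB N / A := by
  have hP := RAP1_PB_one hc
  have hA0 : (0 : ℝ) < A := by exact_mod_cast hA
  -- the product
  have h1 : ∏ p ∈ k.primeFactors, (1 - c p / p) =
      ∑ t ∈ k.divisors, ((ArithmeticFunction.moebius t : ℤ) : ℝ) * (c t / t) := by
    have h2 := ArithmeticFunction.IsMultiplicative.prodPrimeFactors_one_sub_of_squarefree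
      (RAP1_f c) (RAP1_f_mult hc) hk
    exact h2
  -- the sum
  have h2 : ∑ e ∈ (Finset.Icc 1 A).filter (fun e => e.Coprime k), c e / e =
      ∑ t ∈ k.divisors, ((ArithmeticFunction.moebius t : ℤ) : ℝ) * (c t / t) *
        ∑ e ∈ Finset.Icc 1 (A / t), c e / e := by
    rw [Finset.sum_filter, Finset.sum_congr rfl fun e _ => RAP1_detect e k hk.ne_zero (c e / e),
      Finset.sum_comm]
    refine Finset.sum_congr rfl fun t ht => ?_
    have htpos : 0 < t := Nat.pos_of_mem_divisors ht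
    rw [← Finset.sum_filter, Finset.mul_sum]
    refine Finset.sum_nbij' (fun n => n / t) (fun m => t * m) ?_ ?_ ?_ ?_ ?_
    · intro n hn
      rw [Finset.mem_filter, Finset.mem_Icc] at hn
      obtain ⟨⟨h3, h4⟩, h5⟩ := hn
      rw [Finset.mem_Icc]
      exact ⟨Nat.div_pos (Nat.le_of_dvd h3 h5) htpos, Nat.div_le_div_right h4⟩
    · intro m hm
      rw [Finset.mem_Icc] at hm
      rw [Finset.mem_filter, Finset.mem_Icc]
      refine ⟨⟨Nat.mul_pos htpos hm.1, ?_⟩, dvd_mul_right t m⟩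
      calc t * m ≤ t * (A / t) := Nat.mul_le_mul_left _ hm.2
        _ ≤ A := Nat.mul_div_le A t
    · intro n hn
      rw [Finset.mem_filter] at hn
      exact Nat.mul_div_cancel' hn.2
    · intro m _
      exact Nat.mul_div_cancel_left m htpos
    · intro n hn
      rw [Finset.mem_filter] at hn
      obtain ⟨m, rfl⟩ := hn.2
      rw [Nat.mul_div_cancel_left m htpos, hc.mul, Nat.cast_mul, mul_assoc, div_mul_div_comm]
  rw [h1, h2, Finset.mul_sum, ← Finset.sum_sub_distrib]
  refine (Finset.abs_sum_le_sum_abs _ _).trans ?_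
  have h3 : ∀ t ∈ k.divisors, |((ArithmeticFunction.moebius t : ℤ) : ℝ) * (c t / t) *
      ∑ e ∈ Finset.Icc 1 (A / t), c e / e -
        L * (((ArithmeticFunction.moebius t : ℤ) : ℝ) * (c t / t))| ≤ 4 * PB N / A := by
    intro t ht
    have htpos : 0 < t := Nat.pos_of_mem_divisors ht
    have ht0 : (0 : ℝ) < t := by exact_mod_cast htpos
    have h4 : ((ArithmeticFunction.moebius t : ℤ) : ℝ) * (c t / t) *
        ∑ e ∈ Finset.Icc 1 (A / t), c e / e -
          L * (((ArithmeticFunction.moebius t : ℤ) : ℝ) * (c t / t)) =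
        ((ArithmeticFunction.moebius t : ℤ) : ℝ) * c t *
          ((∑ e ∈ Finset.Icc 1 (A / t), c e / e - L) / t) := by
      field_simp
    have h5 : |((ArithmeticFunction.moebius t : ℤ) : ℝ)| ≤ 1 := by
      have := ArithmeticFunction.abs_moebius_le_one (n := t)
      exact_mod_cast this
    have h6 : |(∑ e ∈ Finset.Icc 1 (A / t), c e / e - L) / t| ≤ 4 * PB N / A := by
      rw [abs_div, abs_of_pos ht0]
      rcases le_or_gt t A with h7 | h7
      · -- `t ≤ A`
        have h8 : 1 ≤ A / t := Nat.div_pos h7 htpos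
        have h9 := hL.2 (A / t) h8
        have h10 : (A : ℝ) ≤ 2 * (A / t : ℕ) * t := by
          have h11 : A < A / t * t + t := Nat.lt_div_mul_add htpos
          have h12 : t ≤ A / t * t := Nat.le_mul_of_pos_left t h8
          have h13 : A ≤ 2 * (A / t) * t := by
            calc A ≤ A / t * t + A / t * t := by omega
              _ = 2 * (A / t) * t := by ring
          exact_mod_cast h13
        have h14 : (0 : ℝ) < (A / t : ℕ) := by exact_mod_cast h8
        refine (div_le_div_of_nonneg_right h9 ht0.le).trans ?_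
        rw [div_div, div_le_div_iff₀ (mul_pos h14 ht0) hA0]
        nlinarith
      · -- `t > A`
        have h8 : A / t = 0 := Nat.div_eq_of_lt h7
        rw [h8, Finset.Icc_eq_empty (by norm_num), Finset.sum_empty, zero_sub, abs_neg,
          abs_of_nonneg hL.1, div_le_div_iff₀ ht0 hA0]
        have h9 := RAP1_L_le hc hL
        have h10 : (A : ℝ) ≤ t := by exact_mod_cast h7.le
        have h11 : L * A ≤ 3 * PB N * A := mul_le_mul_of_nonneg_right h9 hA0.le
        nlinarith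
    rw [h4, abs_mul, abs_mul]
    calc |((ArithmeticFunction.moebius t : ℤ) : ℝ)| * |c t| *
          |(∑ e ∈ Finset.Icc 1 (A / t), c e / e - L) / t|
        ≤ 1 * 1 * (4 * PB N / A) := by
          apply mul_le_mul (mul_le_mul h5 (RAP1_abs hc t) (abs_nonneg _) zero_le_one) h6
            (abs_nonneg _)
          norm_num
      _ = 4 * PB N / A := by ring
  refine (Finset.sum_le_card_nsmul _ _ _ h3).trans (le_of_eq ?_)
  rw [nsmul_eq_mul]
  ring

end Pool.Agent.Lib.RG
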