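import Pool.Agent.Lib.MP_7b7e48_nt.RG.E0
import Pool.Agent.Lib.MP_7b7e48_nt.RG.A7

/-!
# Module E2: near orthogonality on rough numbers, numerically

PROOF. `A6.meanval` with constant `K₀`, `A7.phi_prod` (constant `c`): the main term is `≥ (c/2) y / log z`. With
`c₀ = κ / (100 K₀)` the error is `≤ N^(κ/100) (2 τ(N) + N^(κ/10) PB N) ≤ C N^(1/2 + κ/4)` (`PB_le (κ/20)`), which is
`≤ (c/4) N^(1/2+κ/2) / log N ≤ (c/4) y / log z` for large `N`. So `c₃ = c/4` (independent of `κ`).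
-/

open Finset

namespace Pool.Agent.Lib.RG

private theorem E2_large (κ A : ℝ) (hκ : 0 < κ) : ∃ N0 : ℕ, ∀ N : ℕ, N0 ≤ N →
    2 ≤ N ∧ 8 ≤ Real.log N ∧ A ≤ (N : ℝ) ^ (κ / 5) := by
  have h1 : Filter.Tendsto (fun N : ℕ => Real.log (N : ℝ)) Filter.atTop Filter.atTop :=
    Real.tendsto_log_atTop.comp tendsto_natCast_atTop_atTop
  have h2 : Filter.Tendsto (fun N : ℕ => (N : ℝ) ^ (κ / 5)) Filter.atTop Filter.atTop :=
    (tendsto_rpow_atTop (by positivity)).comp tendsto_natCast_atTop_atTop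
  have h := ((Filter.eventually_ge_atTop 2).and ((h1.eventually_ge_atTop 8).and (h2.eventually_ge_atTop A)))
  obtain ⟨N0, hN0⟩ := Filter.eventually_atTop.1 h
  exact ⟨N0, fun N hN => hN0 N hN⟩

theorem no3 : ∃ c3 : ℝ, 0 < c3 ∧ ∀ κ : ℝ, 0 < κ → ∃ c0 : ℝ, 0 < c0 ∧ ∃ N0 : ℕ,
    ∀ (N : ℕ) [NeZero N], N0 ≤ N → ∀ z : ℕ, Real.log N ≤ z → (z : ℝ) ≤ (N : ℝ) ^ c0 →
    ∀ y : ℕ, (N : ℝ) ^ (1 / 2 + κ / 2) ≤ y → ∀ X : Finset (DirichletCharacter ℂ N),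
    (X.card : ℝ) ≤ (N : ℝ) ^ (κ / 10) → ∀ c : DirichletCharacter ℂ N → ℂ,
    c3 * (y / Real.log z) * ∑ χ ∈ X, ‖c χ‖ ^ 2 ≤
      ∑ n ∈ RN N z y, ‖∑ χ ∈ X, c χ * χ (n : ZMod N)‖ ^ 2 := by
  obtain ⟨K, hK, hm⟩ := meanval
  obtain ⟨c, hc, hp⟩ := phi_prod
  refine ⟨c / 4, by positivity, fun κ hκ => ?_⟩
  obtain ⟨C, hC, hPB⟩ := PB_le (κ / 20) (by positivity)
  have hK0 : (0 : ℝ) < K := by exact_mod_cast hK
  set c0 : ℝ := κ / (100 * K) with hc0d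
  have hc0 : 0 < c0 := by positivity
  obtain ⟨N0, hN0⟩ := E2_large κ (12 * C * c0 / c * (10 / κ)) hκ
  refine ⟨c0, hc0, N0, ?_⟩
  intro N _ hN z hz1 hz2 y hy X hX b
  obtain ⟨hN2, hN8, hNA⟩ := hN0 N hN
  obtain ⟨hP1, hP2⟩ := hPB N hN2
  have hz8' : (8 : ℝ) ≤ z := hN8.trans hz1
  have hz8 : 8 ≤ z := by exact_mod_cast hz8'
  have hx1 : (1 : ℝ) ≤ N := by
    have : 1 ≤ N := by omega
    exact_mod_cast this
  have hx0 : (0 : ℝ) < N := by linarith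
  have hz0 : (0 : ℝ) < z := by linarith
  have hS0 : 0 ≤ ∑ χ ∈ X, ‖b χ‖ ^ 2 := sum_nonneg fun _ _ => by positivity
  have hy0 : (0 : ℝ) ≤ y := Nat.cast_nonneg y
  have hmain := hm N z y hN2 (by omega) X b
  refine le_trans ?_ hmain
  rw [mul_comm]
  refine mul_le_mul_of_nonneg_left ?_ hS0
  have hlz : 0 < Real.log z := Real.log_pos (by linarith)
  have h0 := hp N z (by omega) hz8 hz1
  have hmt : c / 2 * (y / Real.log z) ≤
      (1 / 2) * ((N.totient : ℝ) / N) * y * ∏ p ∈ PN N z, (1 - 1 / (p : ℝ)) := by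
    have h := mul_le_mul_of_nonneg_right h0 (show (0 : ℝ) ≤ y / 2 by positivity)
    calc c / 2 * (y / Real.log z) = c / Real.log z * (y / 2) := by ring
      _ ≤ ((N.totient : ℝ) / N) * (∏ p ∈ PN N z, (1 - 1 / (p : ℝ))) * (y / 2) := h
      _ = _ := by ring
  have h1 : (z : ℝ) ^ K ≤ (N : ℝ) ^ (κ / 100) := by
    calc (z : ℝ) ^ K ≤ ((N : ℝ) ^ c0) ^ K := pow_le_pow_left₀ hz0.le hz2 K
      _ = (N : ℝ) ^ (κ / 100) := by
          rw [← Real.rpow_natCast, ← Real.rpow_mul hx0.le]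
          congr 1
          rw [hc0d]
          field_simp
  have h2 : 2 * (N.divisors.card : ℝ) + X.card * PB N ≤ 3 * C * (N : ℝ) ^ (1 / 2 + 3 * κ / 20) := by
    have e1 : (N.divisors.card : ℝ) ≤ C * (N : ℝ) ^ (1 / 2 + 3 * κ / 20) :=
      hP2.trans (mul_le_mul_of_nonneg_left (Real.rpow_le_rpow_of_exponent_le hx1 (by linarith)) hC.le)
    have hPB0 : 0 ≤ PB N := by
      unfold PB
      have hlog : 0 ≤ Real.log N := Real.log_nonneg hx1
      positivity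
    have e2 : (X.card : ℝ) * PB N ≤ C * (N : ℝ) ^ (1 / 2 + 3 * κ / 20) := by
      calc (X.card : ℝ) * PB N ≤ (N : ℝ) ^ (κ / 10) * (C * (N : ℝ) ^ (1 / 2 + κ / 20)) :=
            mul_le_mul hX hP1 hPB0 (by positivity)
        _ = C * ((N : ℝ) ^ (κ / 10) * (N : ℝ) ^ (1 / 2 + κ / 20)) := by ring
        _ = C * (N : ℝ) ^ (1 / 2 + 3 * κ / 20) := by
            rw [← Real.rpow_add hx0]
            congr 2
            ring
    linarith
  have h3 : (z : ℝ) ^ K * (2 * (N.divisors.card : ℝ) + X.card * PB N) ≤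
      3 * C * (N : ℝ) ^ (1 / 2 + 4 * κ / 25) := by
    calc (z : ℝ) ^ K * (2 * (N.divisors.card : ℝ) + X.card * PB N) ≤
          (N : ℝ) ^ (κ / 100) * (3 * C * (N : ℝ) ^ (1 / 2 + 3 * κ / 20)) := by
          refine mul_le_mul h1 h2 ?_ (by positivity)
          have hlog : 0 ≤ Real.log N := Real.log_nonneg hx1
          unfold PB
          positivity
      _ = 3 * C * ((N : ℝ) ^ (κ / 100) * (N : ℝ) ^ (1 / 2 + 3 * κ / 20)) := by ring
      _ = 3 * C * (N : ℝ) ^ (1 / 2 + 4 * κ / 25) := by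
          rw [← Real.rpow_add hx0]
          congr 2
          ring
  have h4 : Real.log z ≤ c0 * Real.log N := by
    rw [← Real.log_rpow hx0]
    exact Real.log_le_log hz0 hz2
  have h5 : 3 * C * (N : ℝ) ^ (1 / 2 + 4 * κ / 25) ≤ c / 4 * (y / Real.log z) := by
    rw [← mul_div_assoc, le_div_iff₀ hlz]
    have e1 : Real.log N ≤ (N : ℝ) ^ (κ / 10) / (κ / 10) :=
      Real.log_le_rpow_div hx0.le (by positivity)
    have e2 : 3 * C * c0 * (10 / κ) ≤ c / 4 * (N : ℝ) ^ (κ / 5) := by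
      have h := mul_le_mul_of_nonneg_left hNA (show (0 : ℝ) ≤ c / 4 by positivity)
      refine le_trans (le_of_eq ?_) h
      field_simp
      ring
    calc 3 * C * (N : ℝ) ^ (1 / 2 + 4 * κ / 25) * Real.log z
        ≤ 3 * C * (N : ℝ) ^ (1 / 2 + 4 * κ / 25) * (c0 * ((N : ℝ) ^ (κ / 10) / (κ / 10))) := by
          refine mul_le_mul_of_nonneg_left (h4.trans ?_) (by positivity)
          exact mul_le_mul_of_nonneg_left e1 hc0.le
      _ = (3 * C * c0 * (10 / κ)) * ((N : ℝ) ^ (1 / 2 + 4 * κ / 25) * (N : ℝ) ^ (κ / 10)) := by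
          field_simp
      _ ≤ (c / 4 * (N : ℝ) ^ (κ / 5)) * ((N : ℝ) ^ (1 / 2 + 4 * κ / 25) * (N : ℝ) ^ (κ / 10)) :=
          mul_le_mul_of_nonneg_right e2 (by positivity)
      _ = c / 4 * ((N : ℝ) ^ (κ / 5) * ((N : ℝ) ^ (1 / 2 + 4 * κ / 25) * (N : ℝ) ^ (κ / 10))) := by ring
      _ = c / 4 * (N : ℝ) ^ (κ / 5 + (1 / 2 + 4 * κ / 25 + κ / 10)) := by
          rw [← Real.rpow_add hx0, ← Real.rpow_add hx0]
      _ ≤ c / 4 * (N : ℝ) ^ (1 / 2 + κ / 2) := by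
          refine mul_le_mul_of_nonneg_left ?_ (by positivity)
          exact Real.rpow_le_rpow_of_exponent_le hx1 (by linarith)
      _ ≤ c / 4 * y := mul_le_mul_of_nonneg_left hy (by positivity)
  calc c / 4 * (y / Real.log z) = c / 2 * (y / Real.log z) - c / 4 * (y / Real.log z) := by ring
    _ ≤ (1 / 2) * ((N.totient : ℝ) / N) * y * ∏ p ∈ PN N z, (1 - 1 / (p : ℝ)) -
        3 * C * (N : ℝ) ^ (1 / 2 + 4 * κ / 25) := sub_le_sub hmt h5
    _ ≤ _ := sub_le_sub_left h3 _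

end Pool.Agent.Lib.RG
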