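import Pool.Agent.Lib.MP_7b7e48_nt.RG.E1b
import Pool.Agent.Lib.MP_7b7e48_nt.RG.E2

/-!
# Module E3: hypotheses of the spectral lemma; first part; multiplicities

`usl_first`: `chMulSq` for `l ∈ block N M ⊆ PZ N M`, summed over `l`; a character outside `XX` has
`∑_l ‖χ l - θ‖² > |block| / log N`.
`mult_one`, `mult_two`: a number `n' < N` has at most `2 log N` prime factors, so it is `l n` (`l1 l2 n`) for at most `2 log N`
(`(2 log N)^2`) pairs (triples); the `n'` are distinct classes.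
-/

open Finset

namespace Pool.Agent.Lib.RG

/-- the hypotheses of the spectral lemma (section 4 of `RG3_PROOF.md`) -/
structure USLH (N M z : ℕ) [NeZero N] (κ ε θ : ℝ) (h : ZMod N → ℝ) (ρ : ℕ → ℝ)
    (L : ℕ → Finset ℕ) : Prop where
  zero : ∀ x : ZMod N, ¬ IsUnit x → h x = 0
  sub : ∀ Y, L Y ⊆ block N Y
  big : ∀ i : ℕ, M ≤ 2 ^ i → (2 : ℝ) ^ i ≤ HH N κ → (2 : ℝ) ^ i / (Real.log N) ^ 2 ≤ (L (2 ^ i)).card
  inv : ∀ l ∈ PZ N M, ∑ x : ZMod N, (h ((l : ZMod N) * x) - θ * h x) ^ 2 ≤ ε * ∑ x : ZMod N, h x ^ 2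
  one : ∀ i : ℕ, 2 * M ^ 2 < 2 ^ i → (2 : ℝ) ^ i ≤ HH N κ →
    ∑ l ∈ L (2 ^ i), ∑ n ∈ RN N z (N / (2 * 2 ^ i)), (h ((l * n : ℕ) : ZMod N) - ρ n) ^ 2 ≤
      ε * ∑ x : ZMod N, h x ^ 2
  two : ∀ i : ℕ, 2 * M ^ 2 < 2 ^ i → (2 : ℝ) ^ i ≤ HH N κ →
    ∑ l1 ∈ block N M, ∑ l2 ∈ L (2 ^ i / (2 * M)), ∑ n ∈ RN N z (N / (2 * 2 ^ i)),
      (h ((l1 * l2 * n : ℕ) : ZMod N) - θ * ρ n) ^ 2 ≤ ε * ∑ x : ZMod N, h x ^ 2

/-- `L²` mass in real form -/
theorem sum_norm_cast {N : ℕ} [NeZero N] (h : ZMod N → ℝ) :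
    ∑ x : ZMod N, ‖((h x : ℝ) : ℂ)‖ ^ 2 = ∑ x : ZMod N, h x ^ 2 := by
  refine sum_congr rfl fun x _ => ?_
  rw [Complex.norm_real, Real.norm_eq_abs, sq_abs]

theorem mulSq_real {N : ℕ} [NeZero N] (h : ZMod N → ℝ) (h0 : ∀ x : ZMod N, ¬ IsUnit x → h x = 0)
    (θ : ℝ) (a : ZMod N) :
    (N.totient : ℝ) * ∑ χ : DirichletCharacter ℂ N, ‖bch (fun x => (h x : ℂ)) χ‖ ^ 2 *
      ‖χ a - (θ : ℂ)‖ ^ 2 = ∑ x : ZMod N, (h (a * x) - θ * h x) ^ 2 := by
  have h1 := chMulSq (fun x => ((h x : ℝ) : ℂ)) (fun x hx => by rw [h0 x hx]; simp) (θ : ℂ) a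
  rw [← h1]
  refine sum_congr rfl fun x _ => ?_
  have h2 : ((h (a * x) : ℝ) : ℂ) - (θ : ℂ) * ((h x : ℝ) : ℂ) = ((h (a * x) - θ * h x : ℝ) : ℂ) := by
    push_cast; ring
  rw [h2, Complex.norm_real, Real.norm_eq_abs, sq_abs]

theorem block_sub_PZ {N M : ℕ} (hM : 1 ≤ M) : block N M ⊆ PZ N M := by
  intro l hl
  rw [mem_block] at hl
  rw [mem_PZ]
  refine ⟨hl.1, ?_, hl.2.2⟩
  have : M ≤ M ^ 2 := by nlinarith
  omega

open Classical in
theorem usl_first (N : ℕ) [NeZero N] (h3 : 3 ≤ N) (M : ℕ) (hM : 1 ≤ M) (θ ε : ℝ) (h : ZMod N → ℝ)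
    (h0 : ∀ x : ZMod N, ¬ IsUnit x → h x = 0) (hb : 0 < (block N M).card)
    (hinv : ∀ l ∈ PZ N M, ∑ x : ZMod N, (h ((l : ZMod N) * x) - θ * h x) ^ 2 ≤
      ε * ∑ x : ZMod N, h x ^ 2) :
    (N.totient : ℝ) * ∑ χ ∈ Finset.univ \ XX N M θ, ‖bch (fun x => (h x : ℂ)) χ‖ ^ 2 ≤
      Real.log N * (ε * ∑ x : ZMod N, h x ^ 2) := by
  set b : DirichletCharacter ℂ N → ℝ := fun χ => ‖bch (fun x => (h x : ℂ)) χ‖ ^ 2 with hbdef
  set q : ℝ := ((block N M).card : ℝ) with hq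
  have hq0 : 0 < q := by rw [hq]; exact_mod_cast hb
  have hK : 0 < Real.log N := Real.log_pos (by exact_mod_cast (by omega : 1 < N))
  have hφ : (0 : ℝ) < N.totient := phi_pos
  -- sum over the block
  have h1 : (N.totient : ℝ) * ∑ χ : DirichletCharacter ℂ N, b χ *
      ∑ l ∈ block N M, ‖χ (l : ZMod N) - (θ : ℂ)‖ ^ 2 ≤ q * (ε * ∑ x : ZMod N, h x ^ 2) := by
    have h2 : (N.totient : ℝ) * ∑ χ : DirichletCharacter ℂ N, b χ *
        ∑ l ∈ block N M, ‖χ (l : ZMod N) - (θ : ℂ)‖ ^ 2 =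
        ∑ l ∈ block N M, ∑ x : ZMod N, (h ((l : ZMod N) * x) - θ * h x) ^ 2 := by
      have h4 : ∀ l ∈ block N M, ∑ x : ZMod N, (h ((l : ZMod N) * x) - θ * h x) ^ 2 =
          (N.totient : ℝ) * ∑ χ : DirichletCharacter ℂ N, b χ * ‖χ (l : ZMod N) - (θ : ℂ)‖ ^ 2 :=
        fun l _ => (mulSq_real h h0 θ (l : ZMod N)).symm
      rw [sum_congr rfl h4, ← mul_sum, sum_comm]
      congr 1
      refine sum_congr rfl fun χ _ => ?_
      rw [mul_sum]
    rw [h2]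
    refine (sum_le_sum fun l hl => hinv l (block_sub_PZ hM hl)).trans ?_
    rw [sum_const, nsmul_eq_mul]
  have h5 : (q / Real.log N) * ((N.totient : ℝ) * ∑ χ ∈ Finset.univ \ XX N M θ, b χ) ≤
      (N.totient : ℝ) * ∑ χ : DirichletCharacter ℂ N, b χ *
      ∑ l ∈ block N M, ‖χ (l : ZMod N) - (θ : ℂ)‖ ^ 2 := by
    have h6 : ∑ χ ∈ Finset.univ \ XX N M θ, b χ * (q / Real.log N) ≤
        ∑ χ : DirichletCharacter ℂ N, b χ * ∑ l ∈ block N M, ‖χ (l : ZMod N) - (θ : ℂ)‖ ^ 2 := by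
      refine (sum_le_sum (g := fun χ => b χ * ∑ l ∈ block N M, ‖χ (l : ZMod N) - (θ : ℂ)‖ ^ 2)
        fun χ hχ => ?_).trans (sum_le_sum_of_subset_of_nonneg (subset_univ _) fun χ _ _ => by positivity)
      have h7 : χ ∉ XX N M θ := (mem_sdiff.mp hχ).2
      unfold XX at h7
      rw [mem_filter] at h7
      push Not at h7
      exact mul_le_mul_of_nonneg_left (h7 (mem_univ _)).le (by positivity)
    rw [← sum_mul] at h6
    calc (q / Real.log N) * ((N.totient : ℝ) * ∑ χ ∈ Finset.univ \ XX N M θ, b χ)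
        = (N.totient : ℝ) * ((∑ χ ∈ Finset.univ \ XX N M θ, b χ) * (q / Real.log N)) := by ring
      _ ≤ _ := mul_le_mul_of_nonneg_left h6 hφ.le
  have h8 := h5.trans h1
  have h9 : (q / Real.log N) * ((N.totient : ℝ) * ∑ χ ∈ Finset.univ \ XX N M θ, b χ) ≤
      (q / Real.log N) * (Real.log N * (ε * ∑ x : ZMod N, h x ^ 2)) := by
    refine h8.trans (le_of_eq ?_)
    field_simp
  exact le_of_mul_le_mul_left h9 (by positivity)

/-- a number `≤ N` has at most `2 log N` prime factors in a set of primes -/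
theorem card_dvd_le (N : ℕ) (L : Finset ℕ) (hL : ∀ l ∈ L, l.Prime) (m : ℕ) (hm : 1 ≤ m)
    (hmN : m ≤ N) : ((L.filter fun l => l ∣ m).card : ℝ) ≤ 2 * Real.log N := by
  have h1 : (L.filter fun l => l ∣ m) ⊆ m.primeFactors := by
    intro l hl
    rw [mem_filter] at hl
    exact Nat.mem_primeFactors.mpr ⟨hL l hl.1, hl.2, by omega⟩
  have h2 : ((L.filter fun l => l ∣ m).card : ℝ) ≤ m.primeFactors.card := by
    exact_mod_cast Finset.card_le_card h1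
  have h4 := omega_le_log m hm
  have h5 : Real.log m ≤ Real.log N := Real.log_le_log (by exact_mod_cast hm) (by exact_mod_cast hmN)
  linarith

/-- classes of numbers `1 ≤ m ≤ N` -/
theorem sum_class_le (N : ℕ) [NeZero N] (W : ZMod N → ℝ) :
    ∑ m ∈ Icc 1 N, W ((m : ℕ) : ZMod N) = ∑ x : ZMod N, W x := by
  have hN : 0 < N := Nat.pos_of_ne_zero (NeZero.ne N)
  symm
  refine Finset.sum_bij' (fun x _ => if x = 0 then N else x.val) (fun m _ => (m : ZMod N)) ?_ ?_ ?_ ?_ ?_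
  · intro x _
    rw [mem_Icc]
    split_ifs with h
    · omega
    · have h1 : x.val ≠ 0 := fun h2 => h ((ZMod.val_eq_zero x).mp h2)
      have h2 := ZMod.val_lt x
      omega
  · intro m _
    exact mem_univ _
  · intro x _
    by_cases h : x = 0
    · simp [h]
    · simp only [if_neg h]
      exact ZMod.natCast_zmod_val x
  · intro m hm
    obtain ⟨h1, h2⟩ := mem_Icc.mp hm
    by_cases h : (m : ZMod N) = 0
    · rw [ZMod.natCast_eq_zero_iff] at h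
      have h4 := Nat.le_of_dvd (by omega) h
      have h5 : m = N := le_antisymm h2 h4
      subst h5
      simp
    · simp only [if_neg h]
      rw [ZMod.val_natCast]
      refine Nat.mod_eq_of_lt (lt_of_le_of_ne h2 ?_)
      intro h6
      apply h
      rw [h6, ZMod.natCast_self]
  · intro x _
    by_cases h : x = 0
    · simp [h]
    · simp only [if_neg h]
      rw [ZMod.natCast_zmod_val x]

theorem RN_sub (N z y : ℕ) : RN N z y ⊆ Icc 1 y := by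
  classical
  unfold RN
  exact filter_subset _ _

/-- multiplicity, general form -/
theorem mult_gen (N : ℕ) [NeZero N] (y B : ℕ) (L : Finset ℕ) (hL : ∀ l ∈ L, l.Prime ∧ l ≤ B)
    (hy : B * y ≤ N) (S : Finset ℕ) (hS : S ⊆ Icc 1 y) (W : ℕ → ℝ) (hW : ∀ x, 0 ≤ W x) :
    ∑ l ∈ L, ∑ n ∈ S, W (l * n) ≤ 2 * Real.log N * ∑ m ∈ Icc 1 N, W m := by
  classical
  have h1 : ∀ l ∈ L, ∑ n ∈ S, W (l * n) ≤ ∑ m ∈ Icc 1 N, if l ∣ m then W m else 0 := by
    intro l hl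
    obtain ⟨hlp, hlB⟩ := hL l hl
    rw [← sum_filter]
    have hinj : Set.InjOn (fun n => l * n) (S : Set ℕ) := fun a _ b _ h =>
      Nat.eq_of_mul_eq_mul_left hlp.pos h
    rw [← sum_image (f := W) hinj]
    refine sum_le_sum_of_subset_of_nonneg ?_ fun _ _ _ => hW _
    intro m hm
    obtain ⟨n, hn, rfl⟩ := mem_image.mp hm
    obtain ⟨h4, h5⟩ := mem_Icc.mp (hS hn)
    rw [mem_filter, mem_Icc]
    refine ⟨⟨Nat.mul_pos hlp.pos h4, ?_⟩, dvd_mul_right l n⟩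
    exact (Nat.mul_le_mul hlB h5).trans hy
  refine (sum_le_sum h1).trans ?_
  rw [sum_comm, mul_sum]
  refine sum_le_sum fun m hm => ?_
  obtain ⟨h4, h5⟩ := mem_Icc.mp hm
  rw [← sum_filter, sum_const, nsmul_eq_mul]
  exact mul_le_mul_of_nonneg_right (card_dvd_le N L (fun l hl => (hL l hl).1) m h4 h5) (hW m)

theorem mult_one (N : ℕ) [NeZero N] (_h3 : 3 ≤ N) (z Y y : ℕ) (hy : 2 * Y * y ≤ N) (L : Finset ℕ)
    (hL : L ⊆ block N Y) (W : ZMod N → ℝ) (hW : ∀ x, 0 ≤ W x) :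
    ∑ l ∈ L, ∑ n ∈ RN N z y, W ((l * n : ℕ) : ZMod N) ≤ 2 * Real.log N * ∑ x : ZMod N, W x := by
  have h := mult_gen N y (2 * Y) L (fun l hl => by
    have := mem_block.mp (hL hl)
    exact ⟨this.2.2.1, this.2.1⟩) hy (RN N z y) (RN_sub N z y)
    (fun m => W ((m : ℕ) : ZMod N)) (fun m => hW _)
  rw [sum_class_le N W] at h
  exact h

theorem mult_two (N : ℕ) [NeZero N] (_h3 : 3 ≤ N) (z Y Y' y : ℕ) (hy : 2 * Y * (2 * Y') * y ≤ N)
    (L L' : Finset ℕ) (hL : L ⊆ block N Y) (hL' : L' ⊆ block N Y') (W : ZMod N → ℝ)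
    (hW : ∀ x, 0 ≤ W x) :
    ∑ l ∈ L, ∑ l' ∈ L', ∑ n ∈ RN N z y, W ((l * l' * n : ℕ) : ZMod N) ≤
      (2 * Real.log N) ^ 2 * ∑ x : ZMod N, W x := by
  classical
  -- first `l'`, `n ↦ l' n ≤ 2 Y' y`, then `l`
  rcases Nat.eq_zero_or_pos (RN N z y).card with hc | hc
  · rw [card_eq_zero] at hc
    rw [hc]
    simp only [sum_empty, sum_const_zero]
    have : 0 ≤ ∑ x : ZMod N, W x := sum_nonneg fun _ _ => hW _
    positivity
  have hlog : 0 ≤ Real.log N := Real.log_natCast_nonneg N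
  set y' : ℕ := 2 * Y' * y with hy'
  have hy2 : 2 * Y * y' ≤ N := by rw [hy']; nlinarith [hy]
  have hmul : ∀ m : ℕ, 1 ≤ m → m ≤ y' → ∀ l ∈ L, m ≤ N := by
    intro m _ hm l hl
    have h1 := (mem_block.mp (hL hl))
    have h2 : 1 ≤ 2 * Y := by
      have := h1.2.2.1.one_lt
      omega
    calc m ≤ y' := hm
      _ ≤ 2 * Y * y' := Nat.le_mul_of_pos_left _ h2
      _ ≤ N := hy2
  have key : ∀ l ∈ L, ∑ l' ∈ L', ∑ n ∈ RN N z y, W ((l * l' * n : ℕ) : ZMod N) ≤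
      2 * Real.log N * ∑ m ∈ Icc 1 y', W ((l * m : ℕ) : ZMod N) := by
    intro l hl
    have h1 : ∀ l' ∈ L', ∑ n ∈ RN N z y, W ((l * l' * n : ℕ) : ZMod N) ≤
        ∑ m ∈ Icc 1 y', if l' ∣ m then W ((l * m : ℕ) : ZMod N) else 0 := by
      intro l' hl'
      have hb := mem_block.mp (hL' hl')
      rw [← sum_filter]
      have hinj : Set.InjOn (fun n => l' * n) (RN N z y : Set ℕ) := fun a _ b _ h =>
        Nat.eq_of_mul_eq_mul_left hb.2.2.1.pos h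
      have h2 : ∑ n ∈ RN N z y, W ((l * l' * n : ℕ) : ZMod N) =
          ∑ m ∈ (RN N z y).image (fun n => l' * n), W ((l * m : ℕ) : ZMod N) := by
        rw [sum_image hinj]
        refine sum_congr rfl fun n _ => ?_
        rw [mul_assoc]
      rw [h2]
      refine sum_le_sum_of_subset_of_nonneg ?_ fun _ _ _ => hW _
      intro m hm
      obtain ⟨n, hn, rfl⟩ := mem_image.mp hm
      obtain ⟨h4, h5⟩ := mem_Icc.mp (mem_filter.mp hn).1
      rw [mem_filter, mem_Icc]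
      exact ⟨⟨Nat.mul_pos hb.2.2.1.pos h4, Nat.mul_le_mul hb.2.1 h5⟩, dvd_mul_right l' n⟩
    refine (sum_le_sum h1).trans ?_
    rw [sum_comm, mul_sum]
    refine sum_le_sum fun m hm => ?_
    obtain ⟨h4, h5⟩ := mem_Icc.mp hm
    rw [← sum_filter, sum_const, nsmul_eq_mul]
    exact mul_le_mul_of_nonneg_right (card_dvd_le N L' (fun l hl => (mem_block.mp (hL' hl)).2.2.1) m
      h4 (hmul m h4 h5 l hl)) (hW _)
  refine (sum_le_sum key).trans ?_
  rw [← mul_sum]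
  have h6 := mult_gen N y' (2 * Y) L (fun l hl => by
    have := mem_block.mp (hL hl)
    exact ⟨this.2.2.1, this.2.1⟩) hy2 (Icc 1 y') (subset_refl _)
    (fun m => W ((m : ℕ) : ZMod N)) (fun m => hW _)
  rw [sum_class_le N W] at h6
  calc 2 * Real.log N * ∑ l ∈ L, ∑ m ∈ Icc 1 y', W ((l * m : ℕ) : ZMod N)
      ≤ 2 * Real.log N * (2 * Real.log N * ∑ x : ZMod N, W x) := by
        exact mul_le_mul_of_nonneg_left h6 (by positivity)
    _ = _ := by ring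

end Pool.Agent.Lib.RG
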