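import Pool.Agent.Lib.MP_7b7e48_nt.RG.A7
import Pool.Agent.Lib.Sieve.Smooth

/-!
# Module B3 (45 minutes): the sum of `1/m` over rough `m`

PROOF. If `x < z` only `m = 1` counts (`m > 1` rough has a prime factor `> z`): the sum is `≤ 1`. In general every rough
`m ≤ x` is a product of primes in `(z, x]`, so the sum is `≤ ∏_{z < p ≤ x} (1 - 1/p)⁻¹` (`x ≥ z`)
`= ∏_{p ≤ x} (1 - 1/p)⁻¹ · ∏_{p ≤ z} (1 - 1/p)`. The first factor is `≤ C log x` (`A7.prod_lower`), the second is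
`≤ C / log z` (`(∏_{p ≤ z} (1 - 1/p))⁻¹ ≥ ∑_{n ≤ z} 1/n ≥ log z`). So the sum is `≤ C log x / log z`.
-/

open Finset

namespace Pool.Agent.Lib.RG

private theorem b3_fac {p : ℕ} (hp : p.Prime) : 0 < 1 - 1 / (p : ℝ) := by
  have h : (1 : ℝ) < p := by exact_mod_cast hp.one_lt
  rw [sub_pos, div_lt_one (by linarith)]
  exact h

open Classical in
theorem sum_rough : ∃ C : ℝ, 0 < C ∧ ∀ z x : ℕ, 2 ≤ z → 1 ≤ x →
    ∑ m ∈ (Finset.Icc 1 x).filter (Rough z), 1 / (m : ℝ) ≤ C * (1 + Real.log x / Real.log z) := by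
  obtain ⟨c, hc, hprod⟩ := prod_lower
  refine ⟨max 1 (1 / c), lt_of_lt_of_le one_pos (le_max_left _ _), ?_⟩
  intro z x hz hx
  have hz' : (2 : ℝ) ≤ z := by exact_mod_cast hz
  have hlz : 0 < Real.log z := Real.log_pos (by linarith)
  have hx1 : (1 : ℝ) ≤ x := by exact_mod_cast hx
  have hlx : 0 ≤ Real.log x := Real.log_nonneg hx1
  set T : Finset ℕ := (Finset.Ioc z x).filter Nat.Prime with hT
  have hTp : ∀ p ∈ T, p.Prime := fun p hp => (Finset.mem_filter.1 hp).2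
  have h1 := Sieve.sum_primeFactors_subset_le (fun n : ℕ => (1 : ℝ) / n) (fun n => by positivity)
    (by simp) (fun m n => by push_cast; rw [one_div_mul_one_div]) x T hTp
    (fun p hp => by
      have h1 : (1 : ℝ) < p := by exact_mod_cast (hTp p hp).one_lt
      show (1 : ℝ) / p < 1
      rw [div_lt_one (by linarith)]
      exact h1)
  have h2 : ∑ m ∈ (Finset.Icc 1 x).filter (Rough z), 1 / (m : ℝ) ≤
      ∑ m ∈ Finset.Icc 1 x with m.primeFactors ⊆ T, (1 : ℝ) / m := by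
    refine Finset.sum_le_sum_of_subset_of_nonneg ?_ fun m _ _ => by positivity
    intro m hm
    rw [Finset.mem_filter, Finset.mem_Icc] at hm
    rw [Finset.mem_filter, Finset.mem_Icc]
    refine ⟨hm.1, fun p hp => ?_⟩
    have hpp := Nat.prime_of_mem_primeFactors hp
    have hpm := Nat.dvd_of_mem_primeFactors hp
    have hpx : p ≤ x := (Nat.le_of_dvd (by omega) hpm).trans hm.1.2
    exact Finset.mem_filter.2 ⟨Finset.mem_Ioc.2 ⟨hm.2 p hpp hpm, hpx⟩, hpp⟩
  refine h2.trans (h1.trans ?_)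
  have hC1 : (1 : ℝ) ≤ max 1 (1 / c) := le_max_left _ _
  have hC2 : 1 / c ≤ max 1 (1 / c) := le_max_right _ _
  rcases lt_or_ge x z with h | h
  · have hT0 : T = ∅ := by
      rw [hT, Finset.Ioc_eq_empty (by omega), Finset.filter_empty]
    rw [hT0, Finset.prod_empty]
    have h3 : 0 ≤ Real.log x / Real.log z := div_nonneg hlx hlz.le
    nlinarith
  · set Px : Finset ℕ := (Finset.Icc 1 x).filter Nat.Prime with hPx
    set Pz : Finset ℕ := (Finset.Icc 1 z).filter Nat.Prime with hPz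
    have hun : Px = Pz ∪ T := by
      ext p
      rw [hPx, hPz, hT, Finset.mem_union, Finset.mem_filter, Finset.mem_filter, Finset.mem_filter,
        Finset.mem_Icc, Finset.mem_Icc, Finset.mem_Ioc]
      constructor
      · rintro ⟨⟨h3, h4⟩, h5⟩
        by_cases h6 : p ≤ z
        · exact Or.inl ⟨⟨h3, h6⟩, h5⟩
        · exact Or.inr ⟨⟨by omega, h4⟩, h5⟩
      · rintro (⟨⟨h3, h4⟩, h5⟩ | ⟨⟨h3, h4⟩, h5⟩)
        · exact ⟨⟨h3, by omega⟩, h5⟩
        · exact ⟨⟨h5.one_lt.le, h4⟩, h5⟩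
    have hdis : Disjoint Pz T := by
      rw [Finset.disjoint_left]
      intro p h3 h4
      rw [hPz, Finset.mem_filter, Finset.mem_Icc] at h3
      rw [hT, Finset.mem_filter, Finset.mem_Ioc] at h4
      omega
    have h3 : c / Real.log x ≤ ∏ p ∈ Px, (1 - 1 / (p : ℝ)) := by
      refine hprod x (by omega) Px fun p hp => ?_
      rw [hPx, Finset.mem_filter, Finset.mem_Icc] at hp
      exact ⟨hp.2, hp.1.2⟩
    have h4 := Sieve.log_le_prod z
    have hposT : 0 < ∏ p ∈ T, (1 - 1 / (p : ℝ)) := Finset.prod_pos fun p hp => b3_fac (hTp p hp)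
    have hposz : 0 < ∏ p ∈ Pz, (1 - 1 / (p : ℝ)) := Finset.prod_pos fun p hp =>
      b3_fac (Finset.mem_filter.1 hp).2
    rw [hun, Finset.prod_union hdis] at h3
    rw [Finset.prod_inv_distrib] at h4 ⊢
    have hlx' : 0 < Real.log x := Real.log_pos (by
      have : (z : ℝ) ≤ x := by exact_mod_cast h
      linarith)
    have h5 : Real.log z ≤ (∏ p ∈ Pz, (1 - 1 / (p : ℝ)))⁻¹ :=
      (Real.log_le_log (by linarith) (by linarith)).trans h4
    have h6 : Real.log z * ∏ p ∈ Pz, (1 - 1 / (p : ℝ)) ≤ 1 := by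
      have h7 := mul_le_mul_of_nonneg_right h5 hposz.le
      rwa [inv_mul_cancel₀ hposz.ne'] at h7
    -- `c log z ≤ log x * ∏_T`
    have h7 : c * Real.log z ≤ Real.log x * ∏ p ∈ T, (1 - 1 / (p : ℝ)) := by
      rw [div_le_iff₀ hlx'] at h3
      calc c * Real.log z ≤ ((∏ p ∈ Pz, (1 - 1 / (p : ℝ))) * (∏ p ∈ T, (1 - 1 / (p : ℝ))) *
              Real.log x) * Real.log z := mul_le_mul_of_nonneg_right h3 hlz.le
        _ = (Real.log z * ∏ p ∈ Pz, (1 - 1 / (p : ℝ))) *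
              (Real.log x * ∏ p ∈ T, (1 - 1 / (p : ℝ))) := by ring
        _ ≤ 1 * (Real.log x * ∏ p ∈ T, (1 - 1 / (p : ℝ))) :=
            mul_le_mul_of_nonneg_right h6 (mul_nonneg hlx'.le hposT.le)
        _ = Real.log x * ∏ p ∈ T, (1 - 1 / (p : ℝ)) := one_mul _
    have h8 : (∏ p ∈ T, (1 - 1 / (p : ℝ)))⁻¹ ≤ 1 / c * (Real.log x / Real.log z) := by
      rw [inv_le_iff_one_le_mul₀ hposT]
      have e : 1 / c * (Real.log x / Real.log z) * ∏ p ∈ T, (1 - 1 / (p : ℝ)) =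
          (Real.log x * ∏ p ∈ T, (1 - 1 / (p : ℝ))) / (c * Real.log z) := by
        field_simp
      rw [e, one_le_div (mul_pos hc hlz)]
      exact h7
    refine h8.trans ?_
    have h9 : 0 ≤ Real.log x / Real.log z := div_nonneg hlx hlz.le
    calc 1 / c * (Real.log x / Real.log z) ≤ max 1 (1 / c) * (Real.log x / Real.log z) :=
          mul_le_mul_of_nonneg_right hC2 h9
      _ ≤ max 1 (1 / c) * (1 + Real.log x / Real.log z) := by
          refine mul_le_mul_of_nonneg_left ?_ (by linarith)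
          linarith

end Pool.Agent.Lib.RG
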