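import Pool.Agent.Lib.MP_7b7e48_nt.RG.B3
import Pool.Agent.Lib.MP_5d7b92_nt.Count

/-!
# Module B4 (45 minutes): rough integers with a large prime factor

PROOF. Such an `n` is `p m` with a prime `p > W`, `m ≤ y/W` rough. For given `m` the number of the primes `p ≤ y/m` is
`≤ C (y/m) / log (y/m) ≤ C (y/m) / log W` (Chebyshev, in the library; `y/m ≥ W ≥ 2`: if `p > W` exists then
`y/m ≥ p > W`). Sum over `m` with `B3.sum_rough` (`x = y / W`, `log x ≤ log y - log W`).
-/

open Finset

namespace Pool.Agent.Lib.RG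

theorem BW_card : ∃ C : ℝ, 0 < C ∧ ∀ z y W : ℕ, 2 ≤ z → 2 ≤ W → W ≤ y →
    ((BW z y W).card : ℝ) ≤
      C * (y / Real.log W) * (1 + (Real.log y - Real.log W) / Real.log z) := by
  classical
  obtain ⟨C, hC, h⟩ := sum_rough
  refine ⟨5 * C, by positivity, ?_⟩
  intro z y W hz hW hWy
  have hW0 : 0 < W := by omega
  have hy0 : 0 < y := by omega
  have hlz : 0 < Real.log z := Real.log_pos (by exact_mod_cast hz)
  have hlW : 0 < Real.log W := Real.log_pos (by exact_mod_cast hW)
  have hx1 : 1 ≤ y / W := Nat.div_pos hWy hW0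
  set S := (Finset.Icc 1 (y / W)).filter (Rough z) with hS
  set T : ℕ → Finset ℕ := fun m => (Finset.range (y / m + 1)).filter Nat.Prime with hT
  have hsub : BW z y W ⊆ (S.sigma T).image (fun x => x.1 * x.2) := by
    intro n hn
    unfold BW at hn
    obtain ⟨hn1, hn2, p, hp, hWp, hpn⟩ := Finset.mem_filter.mp hn
    obtain ⟨ha, hb⟩ := Finset.mem_Icc.mp hn1
    obtain ⟨m, rfl⟩ := hpn
    have hm0 : 0 < m := by
      rcases Nat.eq_zero_or_pos m with h0 | h0
      · subst h0
        rw [mul_zero] at ha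
        omega
      · exact h0
    refine Finset.mem_image.mpr ⟨⟨m, p⟩, ?_, mul_comm _ _⟩
    rw [Finset.mem_sigma]
    constructor
    · rw [hS, Finset.mem_filter, Finset.mem_Icc]
      refine ⟨⟨hm0, ?_⟩, fun q hq hqm => hn2 q hq (hqm.mul_left p)⟩
      rw [Nat.le_div_iff_mul_le hW0]
      calc m * W ≤ m * p := Nat.mul_le_mul_left m hWp.le
        _ = p * m := mul_comm _ _
        _ ≤ y := hb
    · rw [hT, Finset.mem_filter, Finset.mem_range]
      refine ⟨?_, hp⟩
      have : p ≤ y / m := (Nat.le_div_iff_mul_le hm0).mpr hb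
      exact Nat.lt_succ_of_le this
  have hcard : (BW z y W).card ≤ ∑ m ∈ S, (T m).card :=
    (Finset.card_le_card hsub).trans (Finset.card_image_le.trans (Finset.card_sigma _ _).le)
  have hTm : ∀ m ∈ S, ((T m).card : ℝ) ≤ 5 * (y / Real.log W) * (1 / (m : ℝ)) := by
    intro m hm
    obtain ⟨hm1, -⟩ := Finset.mem_filter.mp hm
    obtain ⟨ha, hb⟩ := Finset.mem_Icc.mp hm1
    have hWm : W ≤ y / m := by
      rw [Nat.le_div_iff_mul_le ha]
      have := (Nat.le_div_iff_mul_le hW0).mp hb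
      rwa [mul_comm]
    have hc : (T m).card = Nat.primeCounting (y / m) := by
      rw [Nat.primeCounting, Nat.primeCounting', Nat.count_eq_card_filter_range]
    have h1 := Pool.Agent.Lib.MP_5d7b92_nt.primeCounting_le (y / m) (by omega)
    rw [← hc] at h1
    have hmR : (0 : ℝ) < m := by exact_mod_cast ha
    have h2 : ((y / m : ℕ) : ℝ) ≤ y / m := Nat.cast_div_le
    have h3 : Real.log W ≤ Real.log ((y / m : ℕ) : ℝ) :=
      Real.log_le_log (by exact_mod_cast hW0) (by exact_mod_cast hWm)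
    calc ((T m).card : ℝ) ≤ 5 * ((y / m : ℕ) : ℝ) / Real.log ((y / m : ℕ) : ℝ) := h1
      _ ≤ 5 * (y / m) / Real.log W := by
          gcongr
      _ = 5 * (y / Real.log W) * (1 / (m : ℝ)) := by ring
  have hsum := h z (y / W) hz hx1
  have hlogx : Real.log ((y / W : ℕ) : ℝ) ≤ Real.log y - Real.log W := by
    rw [← Real.log_div (by positivity) (by positivity)]
    exact Real.log_le_log (by exact_mod_cast hx1) Nat.cast_div_le
  calc ((BW z y W).card : ℝ) ≤ ((∑ m ∈ S, (T m).card : ℕ) : ℝ) := by exact_mod_cast hcard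
    _ = ∑ m ∈ S, ((T m).card : ℝ) := by push_cast; rfl
    _ ≤ ∑ m ∈ S, 5 * (y / Real.log W) * (1 / (m : ℝ)) := Finset.sum_le_sum hTm
    _ = 5 * (y / Real.log W) * ∑ m ∈ S, 1 / (m : ℝ) := by rw [Finset.mul_sum]
    _ ≤ 5 * (y / Real.log W) * (C * (1 + Real.log ((y / W : ℕ) : ℝ) / Real.log z)) := by
        gcongr
    _ ≤ 5 * (y / Real.log W) * (C * (1 + (Real.log y - Real.log W) / Real.log z)) := by
        gcongr
    _ = 5 * C * (y / Real.log W) * (1 + (Real.log y - Real.log W) / Real.log z) := by ring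

end Pool.Agent.Lib.RG
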