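import Pool.Agent.Lib.MP_7b7e48_nt.RG.A3

/-!
# Module A4a (75 minutes): upper bound of Chebyshev type

PROOF. `rr c` is multiplicative (on coprime arguments) and `≥ 0` (`rr_nonneg`); `rr c (p^k) = ∑_{j ≤ k} c(p)^j` is `≤ k + 1`
always; `rr c p = 1 + c p` is `1` if `p ∣ N`, `0` if `c p = -1`, `2` if `c p = 1`. For `1 ≤ n`:
`log n = ∑_{p ∣ n} v_p(n) log p` (`Nat.factorization`), so
`∑_{n ≤ y} rr c n log n = ∑_{p ≤ y} ∑_{k ≥ 1, p^k ≤ y} k log p ∑_{n ≤ y, p^k ∥ n} rr c n`, and with `n = p^k m`, `p ∤ m`: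
`rr c n = rr c (p^k) rr c m`, so the inner sum is `≤ rr c (p^k) SS c (y / p^k)`. Terms `k = 1`: for `p ≤ z` use
`rr c p ≤ 2`; for `p > z` there are the three cases above. Terms `k ≥ 2`: `k rr c (p^k) ≤ k (k+1)`.
(`SS c 0 = 0`, so the range of `k` may be enlarged to `Icc 2 y`.)
-/

open Finset

namespace Pool.Agent.Lib.RG

/-- `N` is positive. -/
private theorem A4a_pos {N : ℕ} {c : ℕ → ℝ} (hc : RC N c) : 1 ≤ N := by
  rcases Nat.eq_zero_or_pos N with h0 | h0
  · exfalso
    subst h0
    have h1 := hc.pv 1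
    have h2 : PB 0 = 0 := by
      unfold PB
      simp
    rw [h2, Finset.Icc_self, Finset.sum_singleton] at h1
    rcases hc.val 1 (Nat.coprime_one_left 0) with h | h
    · rw [h] at h1
      norm_num at h1
    · rw [h] at h1
      norm_num at h1
  · exact h0

private theorem A4a_one {N : ℕ} {c : ℕ → ℝ} (hc : RC N c) : c 1 = 1 := by
  have h2 := hc.mul 1 1
  rw [one_mul] at h2
  rcases hc.val 1 (Nat.coprime_one_left N) with h | h
  · exact h
  · rw [h] at h2
    norm_num at h2

private theorem A4a_pow {N : ℕ} {c : ℕ → ℝ} (hc : RC N c) (p k : ℕ) : c (p ^ k) = (c p) ^ k := by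
  induction k with
  | zero => rw [pow_zero, pow_zero, A4a_one hc]
  | succ k ih => rw [pow_succ, pow_succ, hc.mul, ih]

private theorem A4a_abs {N : ℕ} {c : ℕ → ℝ} (hc : RC N c) (n : ℕ) : |c n| ≤ 1 := by
  by_cases h : n.Coprime N
  · rcases hc.val n h with h1 | h1 <;> rw [h1] <;> norm_num
  · rw [hc.zero n h, abs_zero]
    exact zero_le_one

/-- `c` as an arithmetic function. -/
private noncomputable def A4a_g (c : ℕ → ℝ) : ArithmeticFunction ℝ :=
  ⟨fun n => if n = 0 then 0 else c n, if_pos rfl⟩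

private theorem A4a_rr (c : ℕ → ℝ) (n : ℕ) :
    (A4a_g c * (ArithmeticFunction.zeta : ArithmeticFunction ℝ)) n = rr c n := by
  rw [ArithmeticFunction.coe_mul_zeta_apply]
  unfold rr
  refine Finset.sum_congr rfl fun d hd => ?_
  change (if d = 0 then (0 : ℝ) else c d) = c d
  rw [if_neg (Nat.pos_of_mem_divisors hd).ne']

private theorem A4a_mul {N : ℕ} {c : ℕ → ℝ} (hc : RC N c) {m n : ℕ} (h : m.Coprime n) :
    rr c (m * n) = rr c m * rr c n := by
  have hg : (A4a_g c).IsMultiplicative := by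
    rw [ArithmeticFunction.IsMultiplicative.iff_ne_zero]
    constructor
    · change (if (1 : ℕ) = 0 then (0 : ℝ) else c 1) = 1
      rw [if_neg one_ne_zero, A4a_one hc]
    · intro m n hm hn _
      change (if m * n = 0 then (0 : ℝ) else c (m * n)) =
        (if m = 0 then (0 : ℝ) else c m) * (if n = 0 then (0 : ℝ) else c n)
      rw [if_neg (mul_ne_zero hm hn), if_neg hm, if_neg hn, hc.mul]
  have hz : ((ArithmeticFunction.zeta : ArithmeticFunction ℝ)).IsMultiplicative :=
    ArithmeticFunction.isMultiplicative_zeta.natCast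
  have := (hg.mul hz).map_mul_of_coprime h
  rwa [A4a_rr, A4a_rr, A4a_rr] at this

private theorem A4a_prime_pow {N : ℕ} {c : ℕ → ℝ} (hc : RC N c) {p : ℕ} (hp : p.Prime) (k : ℕ) :
    rr c (p ^ k) = ∑ j ∈ Finset.range (k + 1), (c p) ^ j := by
  unfold rr
  rw [Nat.sum_divisors_prime_pow hp]
  exact Finset.sum_congr rfl fun j _ => A4a_pow hc p j

private theorem A4a_pp_le {N : ℕ} {c : ℕ → ℝ} (hc : RC N c) {p : ℕ} (hp : p.Prime) (k : ℕ) :
    rr c (p ^ k) ≤ k + 1 := by
  rw [A4a_prime_pow hc hp]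
  calc ∑ j ∈ Finset.range (k + 1), (c p) ^ j ≤ ∑ _j ∈ Finset.range (k + 1), (1 : ℝ) := by
        refine Finset.sum_le_sum fun j _ => ?_
        calc (c p) ^ j ≤ |(c p) ^ j| := le_abs_self _
          _ = |c p| ^ j := abs_pow _ _
          _ ≤ 1 := pow_le_one₀ (abs_nonneg _) (A4a_abs hc p)
    _ = k + 1 := by rw [Finset.sum_const, Finset.card_range, nsmul_eq_mul, mul_one]; push_cast; rfl

private theorem A4a_p {N : ℕ} {c : ℕ → ℝ} (hc : RC N c) {p : ℕ} (hp : p.Prime) :
    rr c p = 1 + c p := by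
  have := A4a_prime_pow hc hp 1
  rw [pow_one] at this
  rw [this]
  norm_num [Finset.sum_range_succ]

private theorem A4a_SS {N : ℕ} {c : ℕ → ℝ} (hc : RC N c) (y : ℕ) : 0 ≤ SS c y :=
  Finset.sum_nonneg fun n _ => rr_nonneg N c hc n

/-- The numbers exactly divisible by `p ^ k`. -/
private theorem A4a_slice {N : ℕ} {c : ℕ → ℝ} (hc : RC N c) {p : ℕ} (hp : p.Prime) (y k : ℕ) :
    ∑ n ∈ (Finset.Icc 1 y).filter (fun n => n.factorization p = k), rr c n ≤
      rr c (p ^ k) * SS c (y / p ^ k) := by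
  have hpk : 0 < p ^ k := pow_pos hp.pos k
  have hmain : ∀ n ∈ (Finset.Icc 1 y).filter (fun n => n.factorization p = k),
      rr c n = rr c (p ^ k) * rr c (n / p ^ k) := by
    intro n hn
    obtain ⟨hn1, hn2⟩ := Finset.mem_filter.mp hn
    have hn0 : n ≠ 0 := by
      have := (Finset.mem_Icc.mp hn1).1
      omega
    have h1 : p ^ k * (n / p ^ k) = n := by
      rw [← hn2]
      exact Nat.ordProj_mul_ordCompl_eq_self n p
    have h2 : (p ^ k).Coprime (n / p ^ k) := by
      have := Nat.coprime_ordCompl hp hn0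
      rw [hn2] at this
      exact Nat.Coprime.pow_left k this
    calc rr c n = rr c (p ^ k * (n / p ^ k)) := by rw [h1]
      _ = _ := A4a_mul hc h2
  rw [Finset.sum_congr rfl hmain, ← Finset.mul_sum]
  refine mul_le_mul_of_nonneg_left ?_ (rr_nonneg N c hc _)
  unfold SS
  rw [← Finset.sum_image (f := fun m => rr c m) (g := fun n => n / p ^ k)
    (s := (Finset.Icc 1 y).filter (fun n => n.factorization p = k))]
  · refine Finset.sum_le_sum_of_subset_of_nonneg ?_ fun m _ _ => rr_nonneg N c hc m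
    intro m hm
    obtain ⟨n, hn, rfl⟩ := Finset.mem_image.mp hm
    obtain ⟨hn1, hn2⟩ := Finset.mem_filter.mp hn
    obtain ⟨ha, hb⟩ := Finset.mem_Icc.mp hn1
    have h3 : p ^ k ∣ n := by
      rw [← hn2]
      exact Nat.ordProj_dvd n p
    rw [Finset.mem_Icc]
    exact ⟨Nat.div_pos (Nat.le_of_dvd ha h3) hpk, Nat.div_le_div_right hb⟩
  · intro n hn m hm h
    have hn2 : p ^ k ∣ n := by
      rw [← (Finset.mem_filter.mp hn).2]
      exact Nat.ordProj_dvd n p
    have hm2 : p ^ k ∣ m := by
      rw [← (Finset.mem_filter.mp hm).2]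
      exact Nat.ordProj_dvd m p
    have h' : n / p ^ k = m / p ^ k := h
    rw [← Nat.div_mul_cancel hn2, ← Nat.div_mul_cancel hm2, h']

/-- The sum over `n` for one prime. -/
private theorem A4a_T {N : ℕ} {c : ℕ → ℝ} (hc : RC N c) {p : ℕ} (hp : p.Prime) (y : ℕ) :
    ∑ n ∈ Finset.Icc 1 y, (n.factorization p : ℝ) * rr c n ≤
      rr c p * SS c (y / p) + ∑ k ∈ Finset.Icc 2 y, (k : ℝ) * (k + 1) * SS c (y / p ^ k) := by
  have h1 : ∑ n ∈ Finset.Icc 1 y, (n.factorization p : ℝ) * rr c n =
      ∑ k ∈ Finset.range (y + 1), ∑ n ∈ (Finset.Icc 1 y).filter (fun n => n.factorization p = k),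
        (k : ℝ) * rr c n := by
    rw [← Finset.sum_fiberwise_of_maps_to (s := Finset.Icc 1 y) (t := Finset.range (y + 1))
      (g := fun n => n.factorization p)]
    · refine Finset.sum_congr rfl fun k _ => Finset.sum_congr rfl fun n hn => ?_
      rw [(Finset.mem_filter.mp hn).2]
    · intro n hn
      obtain ⟨ha, hb⟩ := Finset.mem_Icc.mp hn
      rw [Finset.mem_range]
      have := Nat.factorization_lt p (n := n) (by omega)
      omega
  have h2 : ∀ k ∈ Finset.range (y + 1),
      ∑ n ∈ (Finset.Icc 1 y).filter (fun n => n.factorization p = k), (k : ℝ) * rr c n ≤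
        (k : ℝ) * (rr c (p ^ k) * SS c (y / p ^ k)) := by
    intro k _
    rw [← Finset.mul_sum]
    exact mul_le_mul_of_nonneg_left (A4a_slice hc hp y k) (Nat.cast_nonneg k)
  rw [h1]
  refine (Finset.sum_le_sum h2).trans ?_
  rcases Nat.eq_zero_or_pos y with hy | hy
  · subst hy
    rw [zero_add, Finset.sum_range_one, Nat.cast_zero, zero_mul]
    have := mul_nonneg (rr_nonneg N c hc p) (A4a_SS hc (0 / p))
    have h4 : (Finset.Icc 2 0 : Finset ℕ) = ∅ := by decide
    rw [h4, Finset.sum_empty, add_zero]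
    exact this
  · have h3 : Finset.range (y + 1) = insert 0 (insert 1 (Finset.Icc 2 y)) := by
      ext k
      simp only [Finset.mem_range, Finset.mem_insert, Finset.mem_Icc]
      omega
    rw [h3, Finset.sum_insert (by simp), Finset.sum_insert (by simp), Nat.cast_zero, zero_mul,
      zero_add, Nat.cast_one, one_mul, pow_one]
    refine add_le_add le_rfl (Finset.sum_le_sum fun k _ => ?_)
    rw [mul_assoc]
    refine mul_le_mul_of_nonneg_left ?_ (Nat.cast_nonneg k)
    exact mul_le_mul_of_nonneg_right (A4a_pp_le hc hp k) (A4a_SS hc _)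

open Classical in
theorem cheb_upper (N : ℕ) (c : ℕ → ℝ) (hc : RC N c) (z y : ℕ) :
    ∑ n ∈ Finset.Icc 1 y, rr c n * Real.log n ≤
      2 * (∑ p ∈ (Finset.range (z + 1)).filter Nat.Prime, Real.log p * SS c (y / p)) +
      (∑ p ∈ N.primeFactors.filter (fun p => z < p), Real.log p * SS c (y / p)) +
      2 * (∑ p ∈ (Finset.range (y + 1)).filter (fun p => p.Prime ∧ z < p ∧ c p = 1),
        Real.log p * SS c (y / p)) +
      ∑ p ∈ (Finset.range (y + 1)).filter Nat.Prime, ∑ k ∈ Finset.Icc 2 y,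
        (k : ℝ) * (k + 1) * Real.log p * SS c (y / p ^ k) := by
  classical
  have hN := A4a_pos hc
  set Q := (Finset.range (y + 1)).filter Nat.Prime with hQ
  -- the logarithm as a sum over the primes
  have hlog : ∀ n ∈ Finset.Icc 1 y, Real.log n =
      ∑ p ∈ Q, (n.factorization p : ℝ) * Real.log p := by
    intro n hn
    obtain ⟨ha, hb⟩ := Finset.mem_Icc.mp hn
    have hn0 : n ≠ 0 := by omega
    have h1 : (n : ℝ) = ∏ p ∈ n.primeFactors, (p : ℝ) ^ n.factorization p := by
      have := Nat.prod_factorization_pow_eq_self hn0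
      rw [Finsupp.prod, Nat.support_factorization] at this
      calc (n : ℝ) = ((∏ p ∈ n.primeFactors, p ^ n.factorization p : ℕ) : ℝ) := by rw [this]
        _ = _ := by push_cast; rfl
    have h2 : Real.log n = ∑ p ∈ n.primeFactors, (n.factorization p : ℝ) * Real.log p := by
      rw [h1, Real.log_prod]
      · exact Finset.sum_congr rfl fun p _ => Real.log_pow _ _
      · intro p hp
        have := (Nat.prime_of_mem_primeFactors hp).pos
        positivity
    rw [h2]
    refine Finset.sum_subset ?_ ?_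
    · intro p hp
      rw [hQ, Finset.mem_filter, Finset.mem_range]
      have := Nat.le_of_mem_primeFactors hp
      exact ⟨by omega, Nat.prime_of_mem_primeFactors hp⟩
    · intro p _ hp2
      rw [Finsupp.notMem_support_iff.mp (by rwa [Nat.support_factorization]), Nat.cast_zero,
        zero_mul]
  have hlogp : ∀ p ∈ Q, 0 ≤ Real.log (p : ℝ) := fun p hp =>
    Real.log_natCast_nonneg p
  have h1 : ∑ n ∈ Finset.Icc 1 y, rr c n * Real.log n =
      ∑ p ∈ Q, Real.log p * ∑ n ∈ Finset.Icc 1 y, (n.factorization p : ℝ) * rr c n := by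
    have : ∀ n ∈ Finset.Icc 1 y, rr c n * Real.log n =
        ∑ p ∈ Q, Real.log p * ((n.factorization p : ℝ) * rr c n) := by
      intro n hn
      rw [hlog n hn, Finset.mul_sum]
      exact Finset.sum_congr rfl fun p _ => by ring
    rw [Finset.sum_congr rfl this, Finset.sum_comm]
    exact Finset.sum_congr rfl fun p _ => by rw [Finset.mul_sum]
  have h2 : ∑ n ∈ Finset.Icc 1 y, rr c n * Real.log n ≤
      ∑ p ∈ Q, Real.log p * (rr c p * SS c (y / p)) +
      ∑ p ∈ Q, ∑ k ∈ Finset.Icc 2 y, (k : ℝ) * (k + 1) * Real.log p * SS c (y / p ^ k) := by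
    rw [h1, ← Finset.sum_add_distrib]
    refine Finset.sum_le_sum fun p hp => ?_
    have hpp : p.Prime := (Finset.mem_filter.mp hp).2
    refine (mul_le_mul_of_nonneg_left (A4a_T hc hpp y) (hlogp p hp)).trans (le_of_eq ?_)
    rw [mul_add, Finset.mul_sum]
    congr 1
    exact Finset.sum_congr rfl fun k _ => by ring
  refine h2.trans (add_le_add ?_ le_rfl)
  -- the first powers
  have h3 : ∀ p ∈ Q, Real.log p * (rr c p * SS c (y / p)) ≤
      (if p ≤ z then 2 * (Real.log p * SS c (y / p)) else 0) +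
      (if z < p ∧ p ∣ N then Real.log p * SS c (y / p) else 0) +
      (if z < p ∧ c p = 1 then 2 * (Real.log p * SS c (y / p)) else 0) := by
    intro p hp
    have hpp : p.Prime := (Finset.mem_filter.mp hp).2
    have hpy : p ≤ y := by
      have := Finset.mem_range.mp (Finset.mem_filter.mp hp).1
      omega
    have hS := A4a_SS hc (y / p)
    have hl := hlogp p hp
    have hls := mul_nonneg hl hS
    by_cases hz : p ≤ z
    · rw [if_pos hz, if_neg (fun h => by omega), if_neg (fun h => by omega), add_zero, add_zero]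
      have h4 : rr c p ≤ 2 := by
        rw [A4a_p hc hpp]
        have := (abs_le.mp (A4a_abs hc p)).2
        linarith
      calc Real.log p * (rr c p * SS c (y / p)) = rr c p * (Real.log p * SS c (y / p)) := by ring
        _ ≤ 2 * (Real.log p * SS c (y / p)) := mul_le_mul_of_nonneg_right h4 hls
    · rw [if_neg hz, zero_add]
      by_cases hd : p ∣ N
      · rw [if_pos ⟨by omega, hd⟩]
        have h4 : c p = 0 := hc.zero p (fun h => by
          have := Nat.Coprime.eq_one_of_dvd h hd
          exact hpp.one_lt.ne' this)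
        rw [A4a_p hc hpp, h4, if_neg (fun h => by
          have := h.2
          norm_num at this), add_zero, add_zero, one_mul]
      · rw [if_neg (fun h => hd h.2), zero_add]
        rcases hc.val p ((Nat.Prime.coprime_iff_not_dvd hpp).mpr hd) with h | h
        · rw [if_pos ⟨by omega, h⟩, A4a_p hc hpp, h]
          exact le_of_eq (by ring)
        · rw [A4a_p hc hpp, h, add_neg_cancel, zero_mul, mul_zero, if_neg]
          intro h5
          have := h5.2
          norm_num at this
  refine (Finset.sum_le_sum h3).trans ?_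
  rw [Finset.sum_add_distrib, Finset.sum_add_distrib]
  refine add_le_add (add_le_add ?_ ?_) ?_
  · rw [← Finset.sum_filter, ← Finset.mul_sum]
    refine mul_le_mul_of_nonneg_left ?_ (by norm_num)
    refine Finset.sum_le_sum_of_subset_of_nonneg ?_ fun p _ _ =>
      mul_nonneg (Real.log_natCast_nonneg p) (A4a_SS hc _)
    intro p hp
    obtain ⟨ha, hb⟩ := Finset.mem_filter.mp hp
    rw [Finset.mem_filter, Finset.mem_range]
    exact ⟨by omega, (Finset.mem_filter.mp ha).2⟩
  · rw [← Finset.sum_filter]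
    refine Finset.sum_le_sum_of_subset_of_nonneg ?_ fun p _ _ =>
      mul_nonneg (Real.log_natCast_nonneg p) (A4a_SS hc _)
    intro p hp
    obtain ⟨ha, hb⟩ := Finset.mem_filter.mp hp
    rw [Finset.mem_filter, Nat.mem_primeFactors]
    exact ⟨⟨(Finset.mem_filter.mp ha).2, hb.2, by omega⟩, hb.1⟩
  · rw [← Finset.sum_filter, ← Finset.mul_sum]
    refine mul_le_mul_of_nonneg_left ?_ (by norm_num)
    refine Finset.sum_le_sum_of_subset_of_nonneg ?_ fun p _ _ =>
      mul_nonneg (Real.log_natCast_nonneg p) (A4a_SS hc _)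
    intro p hp
    obtain ⟨ha, hb⟩ := Finset.mem_filter.mp hp
    obtain ⟨h6, h7⟩ := Finset.mem_filter.mp ha
    rw [Finset.mem_filter]
    exact ⟨h6, h7, hb.1, hb.2⟩

end Pool.Agent.Lib.RG
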