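import Pool.Agent.Lib.MP_7b7e48_nt.RG.A2
import Pool.Agent.Lib.MP_7b7e48_nt.RG.A4a
import Pool.Agent.Lib.Sieve.Mertens

/-!
# Module A4b (90 minutes): many primes with `c q = 1` in `(z, T]`, in the sense of `∑ 1/q`

PROOF. Let `y = ⌊N^(9/10)⌋ ≤ T` and `σ = sig c z T` (all terms are `≥ 0`, so `sig c z y ≤ σ`). With
`SS c w = w L + O(√w N^(13/50))` (`SS_asymp` at `w = y / p^k`, `w ≤ y/p^k` as a real number, `L ≥ 0`) for the first, second and
fourth sum and the trivial `SS c w ≤ w (1 + log w) ≤ 2 w log N` (`rr c n ≤ d(n)`) for the third, `cheb_upper` gives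
 `T₀ := ∑_{n ≤ y} rr c n log n ≤ L y (2 ∑_{p ≤ z} log p/p + ∑_{p ∣ N, p > z} log p/p + ∑_p ∑_{k ≥ 2} k (k+1) log p/p^k)
   + 4 (log N)² y σ + C N^(13/50) √y (2 ∑_{p ≤ z} log p/√p + ∑_{p ∣ N} log p/√p + ∑_{p^k ≤ y, k ≥ 2} k (k+1) log p / p^(k/2))`.
`∑_{p ≤ z} log p/p ≤ log z + C` (Mertens, in the library, e.g. `Lib/Sieve/Mertens`), `∑_{p ∣ N, p > z} log p/p ≤ log N / z ≤ 1`,
the next sum is a constant. The error is `≤ C' N^(13/50) √y (2 z log z + (log N)^4) ≤ N^(0.8)` as `z ≤ N^(1/20)`, `√y ≤ N^(9/20)`.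
On the other hand `T₀ ≥ (1/2) log y (SS c y - SS c ⌊√y⌋) ≥ (0.449 log N) (0.99 L y)` for large `N`, as
`L y ≥ N^(0.88) / 2` is much larger than the errors `√y N^(0.26) ≤ N^(0.71)`, and `SS c ⌊√y⌋ ≤ √y L + N^(0.5)`, `L √y` is small
against `L y`. So `0.444 log N · L y ≤ L y (0.1 log N + C'') + 4 (log N)² y σ + N^(0.8)`, and `N^(0.8) ≤ L y`, which gives
`0.3 L log N ≤ 4 (log N)² σ`.
-/

open Finset

namespace Pool.Agent.Lib.RG

private theorem A4b_filter (z : ℕ) :
    (Finset.range (z + 1)).filter Nat.Prime = (Finset.Icc 1 z).filter Nat.Prime := by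
  ext p
  simp only [Finset.mem_filter, Finset.mem_range, Finset.mem_Icc]
  constructor
  · rintro ⟨h1, h2⟩; exact ⟨⟨h2.one_lt.le, by omega⟩, h2⟩
  · rintro ⟨⟨_, h1⟩, h2⟩; exact ⟨by omega, h2⟩

private theorem A4b_mert (z : ℕ) (hz : 1 ≤ z) :
    ∑ p ∈ (Finset.range (z + 1)).filter Nat.Prime, Real.log p / p ≤ Real.log z + Real.log 4 := by
  rw [A4b_filter]
  exact Pool.Agent.Lib.Sieve.sum_log_div_le z hz

private theorem A4b_log_le_sqrt (x : ℝ) (hx : 0 ≤ x) : Real.log x ≤ 2 * Real.sqrt x := by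
  have h := Real.log_le_rpow_div hx (show (0 : ℝ) < 1 / 2 by norm_num)
  rw [← Real.sqrt_eq_rpow] at h
  linarith

private theorem A4b_sqrt_sum (z : ℕ) :
    ∑ p ∈ (Finset.range (z + 1)).filter Nat.Prime, Real.log p / Real.sqrt p ≤ 2 * z := by
  rw [A4b_filter]
  have h1 : ∑ p ∈ (Finset.Icc 1 z).filter Nat.Prime, Real.log p / Real.sqrt p ≤
      ∑ p ∈ (Finset.Icc 1 z).filter Nat.Prime, (2 : ℝ) := by
    refine Finset.sum_le_sum fun p hp => ?_
    have hp0 : (0 : ℝ) < p := by exact_mod_cast (Finset.mem_filter.mp hp).2.pos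
    rw [div_le_iff₀ (Real.sqrt_pos.mpr hp0)]
    exact A4b_log_le_sqrt p hp0.le
  refine h1.trans ?_
  rw [Finset.sum_const, nsmul_eq_mul]
  have h2 : ((Finset.Icc 1 z).filter Nat.Prime).card ≤ z := by
    refine (Finset.card_filter_le _ _).trans ?_
    simp
  have h3 : (((Finset.Icc 1 z).filter Nat.Prime).card : ℝ) ≤ z := by exact_mod_cast h2
  linarith

private theorem A4b_logN (N : ℕ) (hN : 1 ≤ N) :
    ∑ p ∈ N.primeFactors, Real.log p ≤ Real.log N := by
  have h1 : ∑ p ∈ N.primeFactors, Real.log p = Real.log (∏ p ∈ N.primeFactors, (p : ℝ)) := by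
    rw [Real.log_prod]
    intro p hp
    have := (Nat.prime_of_mem_primeFactors hp).pos
    positivity
  rw [h1]
  have h2 : ∏ p ∈ N.primeFactors, p ≤ N := Nat.le_of_dvd (by omega) (Nat.prod_primeFactors_dvd N)
  have h3 : (∏ p ∈ N.primeFactors, (p : ℝ)) ≤ N := by
    have h4 : ((∏ p ∈ N.primeFactors, p : ℕ) : ℝ) ≤ (N : ℝ) := Nat.cast_le.mpr h2
    rwa [Nat.cast_prod] at h4
  refine Real.log_le_log ?_ h3
  exact Finset.prod_pos fun p hp => by
    have := (Nat.prime_of_mem_primeFactors hp).pos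
    positivity

/-- the geometric sums -/
private theorem A4b_geo : ∃ C : ℝ, 0 < C ∧ ∀ (y : ℕ) (x : ℝ), 0 ≤ x → x ^ 2 ≤ 1 / 2 →
    ∑ k ∈ Finset.Icc 2 y, (k : ℝ) * (k + 1) * x ^ k ≤ C * x ^ 2 := by
  set r : ℝ := Real.sqrt (1 / 2) with hr
  have hr0 : 0 < r := Real.sqrt_pos.mpr (by norm_num)
  have hr2 : r ^ 2 = 1 / 2 := Real.sq_sqrt (by norm_num)
  have hr1 : ‖r‖ < 1 := by
    rw [Real.norm_of_nonneg hr0.le]
    nlinarith
  have hs2 : Summable fun n : ℕ => (n : ℝ) ^ 2 * r ^ n := summable_pow_mul_geometric_of_norm_lt_one 2 hr1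
  have hs1 : Summable fun n : ℕ => (n : ℝ) ^ 1 * r ^ n := summable_pow_mul_geometric_of_norm_lt_one 1 hr1
  have hs : Summable fun n : ℕ => (n : ℝ) * (n + 1) * r ^ n := by
    refine (hs2.add hs1).congr fun n => ?_
    ring
  have hnn : ∀ n : ℕ, 0 ≤ (n : ℝ) * (n + 1) * r ^ n := fun n => by positivity
  refine ⟨2 * (∑' n : ℕ, (n : ℝ) * (n + 1) * r ^ n) + 1, ?_, ?_⟩
  · have : 0 ≤ ∑' n : ℕ, (n : ℝ) * (n + 1) * r ^ n := tsum_nonneg hnn
    linarith
  · intro y x hx hx2
    have hxr : x ≤ r := by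
      rw [hr]
      exact Real.le_sqrt_of_sq_le hx2
    have h1 : ∑ k ∈ Finset.Icc 2 y, (k : ℝ) * (k + 1) * x ^ k ≤
        ∑ k ∈ Finset.Icc 2 y, (2 * x ^ 2) * ((k : ℝ) * (k + 1) * r ^ k) := by
      refine Finset.sum_le_sum fun k hk => ?_
      obtain ⟨j, rfl⟩ := Nat.exists_eq_add_of_le (Finset.mem_Icc.mp hk).1
      have h2 : x ^ j ≤ r ^ j := pow_le_pow_left₀ hx hxr j
      have h3 : x ^ (2 + j) = x ^ 2 * x ^ j := by ring
      have h4 : r ^ (2 + j) = 1 / 2 * r ^ j := by rw [pow_add, hr2]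
      rw [h3, h4]
      have h5 : (2 * x ^ 2) * (((2 + j : ℕ) : ℝ) * (((2 + j : ℕ) : ℝ) + 1) * (1 / 2 * r ^ j)) =
          ((2 + j : ℕ) : ℝ) * (((2 + j : ℕ) : ℝ) + 1) * (x ^ 2 * r ^ j) := by ring
      rw [h5]
      gcongr
    refine h1.trans ?_
    rw [← Finset.mul_sum]
    have h6 : ∑ k ∈ Finset.Icc 2 y, (k : ℝ) * (k + 1) * r ^ k ≤ ∑' n : ℕ, (n : ℝ) * (n + 1) * r ^ n :=
      hs.sum_le_tsum _ fun n _ => hnn n
    have hx2' : 0 ≤ x ^ 2 := by positivity
    nlinarith [mul_le_mul_of_nonneg_left h6 hx2']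

/-- `∑ log p / p ^ 2` is bounded -/
private theorem A4b_sq : ∃ C : ℝ, 0 < C ∧ ∀ y : ℕ,
    ∑ p ∈ (Finset.range (y + 1)).filter Nat.Prime, Real.log p / (p : ℝ) ^ 2 ≤ C := by
  have hs : Summable fun n : ℕ => 1 / (n : ℝ) ^ ((3 : ℝ) / 2) :=
    Real.summable_one_div_nat_rpow.mpr (by norm_num)
  have hnn : ∀ n : ℕ, 0 ≤ 1 / (n : ℝ) ^ ((3 : ℝ) / 2) := fun n => by positivity
  refine ⟨2 * (∑' n : ℕ, 1 / (n : ℝ) ^ ((3 : ℝ) / 2)) + 1, ?_, ?_⟩
  · have : 0 ≤ ∑' n : ℕ, 1 / (n : ℝ) ^ ((3 : ℝ) / 2) := tsum_nonneg hnn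
    linarith
  · intro y
    have h1 : ∑ p ∈ (Finset.range (y + 1)).filter Nat.Prime, Real.log p / (p : ℝ) ^ 2 ≤
        ∑ p ∈ (Finset.range (y + 1)).filter Nat.Prime, 2 * (1 / (p : ℝ) ^ ((3 : ℝ) / 2)) := by
      refine Finset.sum_le_sum fun p hp => ?_
      have hp0 : (0 : ℝ) < p := by exact_mod_cast (Finset.mem_filter.mp hp).2.pos
      have h2 := A4b_log_le_sqrt p hp0.le
      have h3 : (p : ℝ) ^ 2 = (p : ℝ) ^ ((3 : ℝ) / 2) * Real.sqrt p := by
        rw [Real.sqrt_eq_rpow, ← Real.rpow_add hp0, ← Real.rpow_natCast]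
        norm_num
      have h4 : 0 < (p : ℝ) ^ ((3 : ℝ) / 2) := by positivity
      have h5 : 0 < Real.sqrt p := Real.sqrt_pos.mpr hp0
      rw [h3, div_le_iff₀ (by positivity)]
      have h6 : 2 * (1 / (p : ℝ) ^ ((3 : ℝ) / 2)) * ((p : ℝ) ^ ((3 : ℝ) / 2) * Real.sqrt p) =
          2 * Real.sqrt p := by field_simp
      rw [h6]
      exact h2
    refine h1.trans ?_
    rw [← Finset.mul_sum]
    have h6 : ∑ k ∈ (Finset.range (y + 1)).filter Nat.Prime, 1 / (k : ℝ) ^ ((3 : ℝ) / 2) ≤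
        ∑' n : ℕ, 1 / (n : ℝ) ^ ((3 : ℝ) / 2) :=
      hs.sum_le_tsum _ fun n _ => hnn n
    linarith

private theorem A4b_abs {N : ℕ} {c : ℕ → ℝ} (hc : RC N c) (n : ℕ) : |c n| ≤ 1 := by
  by_cases h : n.Coprime N
  · rcases hc.val n h with h1 | h1
    · rw [h1, abs_one]
    · rw [h1, abs_neg, abs_one]
  · rw [hc.zero n h, abs_zero]
    exact zero_le_one

private theorem A4b_harm (n : ℕ) : ∑ a ∈ Finset.Icc 1 n, (1 : ℝ) / a ≤ 1 + Real.log n := by
  have h := harmonic_le_one_add_log n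
  rw [harmonic_eq_sum_Icc] at h
  push_cast at h
  refine le_trans (le_of_eq ?_) h
  exact Finset.sum_congr rfl fun a _ => one_div _

private theorem A4b_swap (c : ℕ → ℝ) (y : ℕ) :
    ∑ m ∈ Finset.Icc 1 y, rr c m = ∑ a ∈ Finset.Icc 1 y, c a * ((y / a : ℕ) : ℝ) := by
  classical
  have h1 : ∀ m ∈ Finset.Icc 1 y, rr c m =
      ∑ a ∈ Finset.Icc 1 y, if a ∣ m then c a else 0 := by
    intro m hm
    rw [Finset.mem_Icc] at hm
    unfold rr
    rw [← Finset.sum_filter]
    refine Finset.sum_congr ?_ fun _ _ => rfl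
    ext a
    rw [Nat.mem_divisors, Finset.mem_filter, Finset.mem_Icc]
    constructor
    · rintro ⟨h, _⟩
      have h2 := Nat.le_of_dvd (by omega) h
      have h4 : 0 < a := Nat.pos_of_dvd_of_pos h (by omega)
      exact ⟨⟨h4, by omega⟩, h⟩
    · rintro ⟨_, h⟩
      exact ⟨h, by omega⟩
  rw [Finset.sum_congr rfl h1, Finset.sum_comm]
  refine Finset.sum_congr rfl fun a _ => ?_
  rw [← Finset.sum_filter, Finset.sum_const, nsmul_eq_mul, mul_comm]
  congr 2
  have h2 := Nat.Ioc_filter_dvd_card_eq_div y a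
  exact h2

/-- the trivial bound -/
private theorem A4b_triv {N : ℕ} {c : ℕ → ℝ} (hc : RC N c) (y : ℕ) (hy1 : 1 ≤ y) :
    SS c y ≤ y * (1 + Real.log y) := by
  have hy0 : (0 : ℝ) < y := by exact_mod_cast hy1
  unfold SS
  rw [A4b_swap]
  have h2 : ∀ a ∈ Finset.Icc 1 y, c a * ((y / a : ℕ) : ℝ) ≤ y * (1 / (a : ℝ)) := by
    intro a ha
    have h4 : ((y / a : ℕ) : ℝ) ≤ (y : ℝ) / a := Nat.cast_div_le
    calc c a * ((y / a : ℕ) : ℝ) ≤ 1 * ((y / a : ℕ) : ℝ) :=
          mul_le_mul_of_nonneg_right ((le_abs_self _).trans (A4b_abs hc a)) (Nat.cast_nonneg _)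
      _ ≤ y * (1 / (a : ℝ)) := by
          rw [one_mul]
          refine h4.trans (le_of_eq ?_)
          ring
  refine (Finset.sum_le_sum h2).trans ?_
  rw [← Finset.mul_sum]
  exact mul_le_mul_of_nonneg_left (A4b_harm y) hy0.le

private theorem A4b_sig_mono (c : ℕ → ℝ) (z y T : ℕ) (h : y ≤ T) : sig c z y ≤ sig c z T := by
  unfold sig
  refine Finset.sum_le_sum_of_subset_of_nonneg ?_ fun q _ _ => by positivity
  intro q hq
  rw [Finset.mem_filter, Finset.mem_range] at hq ⊢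
  exact ⟨by omega, hq.2⟩

/-- the upper bound for `T` in terms of `L` -/
private theorem A4b_upper : ∃ C3 C5 : ℝ, 0 < C3 ∧ 0 < C5 ∧ ∀ (N : ℕ), 1 ≤ N → ∀ (c : ℕ → ℝ) (L C E : ℝ),
    RC N c → 0 ≤ L → 0 ≤ C → 0 ≤ E → (∀ w : ℕ, SS c w ≤ w * L + C * Real.sqrt w * E) →
    ∀ z y : ℕ, 1 ≤ z → 1 ≤ y → y ≤ N → 1 ≤ Real.log N → Real.log N ≤ z →
    ∑ n ∈ Finset.Icc 1 y, rr c n * Real.log n ≤
      L * y * (2 * (Real.log z + Real.log 4) + 1 + C3 * C5) +
      C * E * Real.sqrt y * (4 * z + Real.log N + C3 * (Real.log y + Real.log 4)) +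
      4 * Real.log N ^ 2 * y * sig c z y := by
  obtain ⟨C3, hC3, hgeo⟩ := A4b_geo
  obtain ⟨C5, hC5, hsq⟩ := A4b_sq
  refine ⟨C3, C5, hC3, hC5, ?_⟩
  intro N hN c L C E hc hL hC hE hSS z y hz hy hyN hlogN1 hNz
  refine (cheb_upper N c hc z y).trans ?_
  have hy0 : (0 : ℝ) ≤ y := Nat.cast_nonneg y
  have hz0 : (0 : ℝ) < z := by exact_mod_cast hz
  -- the general bound
  have hgen : ∀ m : ℕ, 1 ≤ m → SS c (y / m) ≤ L * y * (1 / m) + C * E * Real.sqrt y * (1 / Real.sqrt m) := by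
    intro m hm
    have hm0 : (0 : ℝ) < m := by exact_mod_cast hm
    have h1 : ((y / m : ℕ) : ℝ) ≤ y / m := Nat.cast_div_le
    have h2 : Real.sqrt ((y / m : ℕ) : ℝ) ≤ Real.sqrt y / Real.sqrt m := by
      rw [← Real.sqrt_div hy0]
      exact Real.sqrt_le_sqrt h1
    calc SS c (y / m) ≤ ((y / m : ℕ) : ℝ) * L + C * Real.sqrt ((y / m : ℕ) : ℝ) * E := hSS _
      _ ≤ (y / m) * L + C * (Real.sqrt y / Real.sqrt m) * E := by gcongr
      _ = _ := by ring
  -- first sum
  have hS1 : ∑ p ∈ (Finset.range (z + 1)).filter Nat.Prime, Real.log p * SS c (y / p) ≤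
      L * y * (Real.log z + Real.log 4) + C * E * Real.sqrt y * (2 * z) := by
    calc ∑ p ∈ (Finset.range (z + 1)).filter Nat.Prime, Real.log p * SS c (y / p)
        ≤ ∑ p ∈ (Finset.range (z + 1)).filter Nat.Prime,
          (L * y * (Real.log p / p) + C * E * Real.sqrt y * (Real.log p / Real.sqrt p)) := by
          refine Finset.sum_le_sum fun p hp => ?_
          have hp1 := (Finset.mem_filter.mp hp).2.one_lt
          have hp0 : (1 : ℝ) ≤ p := by exact_mod_cast hp1.le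
          have h := mul_le_mul_of_nonneg_left (hgen p hp1.le) (Real.log_nonneg hp0)
          refine h.trans (le_of_eq ?_)
          ring
      _ = L * y * (∑ p ∈ (Finset.range (z + 1)).filter Nat.Prime, Real.log p / p) +
          C * E * Real.sqrt y * ∑ p ∈ (Finset.range (z + 1)).filter Nat.Prime, Real.log p / Real.sqrt p := by
          rw [Finset.sum_add_distrib, Finset.mul_sum, Finset.mul_sum]
      _ ≤ _ := by
          have h1 := A4b_mert z hz
          have h2 := A4b_sqrt_sum z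
          gcongr
  -- second sum
  have hS2 : ∑ p ∈ N.primeFactors.filter (fun p => z < p), Real.log p * SS c (y / p) ≤
      L * y * 1 + C * E * Real.sqrt y * Real.log N := by
    have hlogs : ∑ p ∈ N.primeFactors.filter (fun p => z < p), Real.log p ≤ Real.log N := by
      refine le_trans ?_ (A4b_logN N hN)
      refine Finset.sum_le_sum_of_subset_of_nonneg (Finset.filter_subset _ _) fun p hp _ => ?_
      have := (Nat.prime_of_mem_primeFactors hp).one_lt
      exact Real.log_nonneg (by exact_mod_cast this.le)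
    calc ∑ p ∈ N.primeFactors.filter (fun p => z < p), Real.log p * SS c (y / p)
        ≤ ∑ p ∈ N.primeFactors.filter (fun p => z < p),
          (L * y * (1 / z) + C * E * Real.sqrt y) * Real.log p := by
          refine Finset.sum_le_sum fun p hp => ?_
          obtain ⟨hp', hzp⟩ := Finset.mem_filter.mp hp
          have hp1 := (Nat.prime_of_mem_primeFactors hp').one_lt
          have hp0 : (1 : ℝ) ≤ p := by exact_mod_cast hp1.le
          have hlog := Real.log_nonneg hp0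
          have h := mul_le_mul_of_nonneg_left (hgen p hp1.le) hlog
          refine h.trans ?_
          rw [mul_comm (Real.log p)]
          have h1 : (1 : ℝ) / p ≤ 1 / z := by
            have : (z : ℝ) ≤ p := by exact_mod_cast hzp.le
            exact one_div_le_one_div_of_le hz0 this
          have h2 : 1 / Real.sqrt p ≤ 1 := by
            rw [div_le_one (Real.sqrt_pos.mpr (by linarith))]
            exact Real.one_le_sqrt.mpr hp0
          have h3 : C * E * Real.sqrt y * (1 / Real.sqrt p) ≤ C * E * Real.sqrt y := by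
            have : 0 ≤ C * E * Real.sqrt y := by positivity
            nlinarith
          gcongr
      _ = (L * y * (1 / z) + C * E * Real.sqrt y) *
          ∑ p ∈ N.primeFactors.filter (fun p => z < p), Real.log p := by
          rw [Finset.mul_sum]
      _ ≤ (L * y * (1 / z) + C * E * Real.sqrt y) * Real.log N := by gcongr
      _ = L * y * (Real.log N / z) + C * E * Real.sqrt y * Real.log N := by ring
      _ ≤ L * y * 1 + C * E * Real.sqrt y * Real.log N := by
          have h1 : Real.log N / z ≤ 1 := by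
            rw [div_le_one hz0]; exact hNz
          gcongr
  -- sum over the primes with `c p = 1`
  have hS4 : ∑ p ∈ (Finset.range (y + 1)).filter (fun p => p.Prime ∧ z < p ∧ c p = 1),
      Real.log p * SS c (y / p) ≤ 2 * Real.log N ^ 2 * y * sig c z y := by
    unfold sig
    rw [Finset.mul_sum]
    refine Finset.sum_le_sum fun p hp => ?_
    obtain ⟨hpy, hpp, _, _⟩ := Finset.mem_filter.mp hp
    have hpy' : p ≤ y := by
      have := Finset.mem_range.mp hpy
      omega
    have hp1 : 1 ≤ p := hpp.one_lt.le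
    have hp0 : (0 : ℝ) < p := by exact_mod_cast hp1
    have hw1 : 1 ≤ y / p := (Nat.one_le_div_iff (by omega)).mpr hpy'
    have hw0 : (1 : ℝ) ≤ ((y / p : ℕ) : ℝ) := by exact_mod_cast hw1
    have hwN : ((y / p : ℕ) : ℝ) ≤ N := by
      have : y / p ≤ N := (Nat.div_le_self y p).trans hyN
      exact_mod_cast this
    have h1 := A4b_triv hc (y / p) hw1
    have h2 : 1 + Real.log ((y / p : ℕ) : ℝ) ≤ 2 * Real.log N := by
      have := Real.log_le_log (by linarith) hwN
      linarith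
    have h3 : Real.log p ≤ Real.log N := by
      refine Real.log_le_log hp0 ?_
      exact_mod_cast hpy'.trans hyN
    have h4 : ((y / p : ℕ) : ℝ) ≤ y / p := Nat.cast_div_le
    have hlogp : 0 ≤ Real.log p := Real.log_nonneg (by exact_mod_cast hp1)
    have hw : 0 ≤ 1 + Real.log ((y / p : ℕ) : ℝ) := by
      have := Real.log_nonneg hw0
      linarith
    calc Real.log p * SS c (y / p)
        ≤ Real.log N * (((y / p : ℕ) : ℝ) * (1 + Real.log ((y / p : ℕ) : ℝ))) := by
          refine (mul_le_mul_of_nonneg_left h1 hlogp).trans ?_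
          exact mul_le_mul_of_nonneg_right h3 (mul_nonneg (Nat.cast_nonneg _) hw)
      _ ≤ Real.log N * ((y / p) * (2 * Real.log N)) := by
          refine mul_le_mul_of_nonneg_left ?_ (by linarith)
          exact mul_le_mul h4 h2 hw (by positivity)
      _ = 2 * Real.log N ^ 2 * y * (1 / p) := by ring
  -- third sum
  have hS3 : ∑ p ∈ (Finset.range (y + 1)).filter Nat.Prime, ∑ k ∈ Finset.Icc 2 y,
        (k : ℝ) * (k + 1) * Real.log p * SS c (y / p ^ k) ≤
      L * y * (C3 * C5) + C * E * Real.sqrt y * (C3 * (Real.log y + Real.log 4)) := by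
    calc ∑ p ∈ (Finset.range (y + 1)).filter Nat.Prime, ∑ k ∈ Finset.Icc 2 y,
        (k : ℝ) * (k + 1) * Real.log p * SS c (y / p ^ k)
        ≤ ∑ p ∈ (Finset.range (y + 1)).filter Nat.Prime,
          (L * y * C3 * (Real.log p / (p : ℝ) ^ 2) + C * E * Real.sqrt y * C3 * (Real.log p / p)) := by
          refine Finset.sum_le_sum fun p hp => ?_
          have hp1 := (Finset.mem_filter.mp hp).2.two_le
          have hp2 : (2 : ℝ) ≤ p := by exact_mod_cast hp1
          have hp0 : (0 : ℝ) < p := by linarith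
          have hlog := Real.log_nonneg (by linarith : (1 : ℝ) ≤ p)
          have hsp : Real.sqrt p ^ 2 = p := Real.sq_sqrt hp0.le
          have hsp0 : 0 < Real.sqrt p := Real.sqrt_pos.mpr hp0
          have g1 := hgeo y (1 / (p : ℝ)) (by positivity) (by
            rw [div_pow, one_pow, div_le_div_iff₀ (by positivity) (by norm_num)]
            nlinarith)
          have g2 := hgeo y (1 / Real.sqrt p) (by positivity) (by
            rw [div_pow, one_pow, hsp, div_le_div_iff₀ (by positivity) (by norm_num)]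
            linarith)
          rw [div_pow, one_pow, hsp] at g2
          rw [div_pow, one_pow] at g1
          calc ∑ k ∈ Finset.Icc 2 y, (k : ℝ) * (k + 1) * Real.log p * SS c (y / p ^ k)
              ≤ ∑ k ∈ Finset.Icc 2 y, (L * y * Real.log p * ((k : ℝ) * (k + 1) * (1 / (p : ℝ)) ^ k) +
                C * E * Real.sqrt y * Real.log p * ((k : ℝ) * (k + 1) * (1 / Real.sqrt p) ^ k)) := by
                refine Finset.sum_le_sum fun k _ => ?_
                have hpk : 1 ≤ p ^ k := Nat.one_le_pow _ _ (by omega)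
                have h0 : 0 ≤ (k : ℝ) * (k + 1) * Real.log p := by positivity
                have h := mul_le_mul_of_nonneg_left (hgen (p ^ k) hpk) h0
                refine h.trans (le_of_eq ?_)
                have h1 : Real.sqrt (((p ^ k : ℕ) : ℝ)) = Real.sqrt p ^ k := by
                  push_cast
                  rw [Real.sqrt_eq_iff_mul_self_eq (by positivity) (by positivity), ← mul_pow,
                    Real.mul_self_sqrt hp0.le]
                rw [h1]
                push_cast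
                rw [one_div_pow, one_div_pow]
                ring
            _ = L * y * Real.log p * (∑ k ∈ Finset.Icc 2 y, (k : ℝ) * (k + 1) * (1 / (p : ℝ)) ^ k) +
                C * E * Real.sqrt y * Real.log p *
                  ∑ k ∈ Finset.Icc 2 y, (k : ℝ) * (k + 1) * (1 / Real.sqrt p) ^ k := by
                rw [Finset.sum_add_distrib, Finset.mul_sum, Finset.mul_sum]
            _ ≤ L * y * Real.log p * (C3 * (1 / (p : ℝ) ^ 2)) +
                C * E * Real.sqrt y * Real.log p * (C3 * (1 / p)) := by gcongr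
            _ = _ := by ring
      _ = L * y * C3 * (∑ p ∈ (Finset.range (y + 1)).filter Nat.Prime, Real.log p / (p : ℝ) ^ 2) +
          C * E * Real.sqrt y * C3 *
            ∑ p ∈ (Finset.range (y + 1)).filter Nat.Prime, Real.log p / p := by
          rw [Finset.sum_add_distrib, Finset.mul_sum, Finset.mul_sum]
      _ ≤ L * y * C3 * C5 + C * E * Real.sqrt y * C3 * (Real.log y + Real.log 4) := by
          have h1 := hsq y
          have h2 := A4b_mert y hy
          gcongr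
      _ = _ := by ring
  calc _ ≤ 2 * (L * y * (Real.log z + Real.log 4) + C * E * Real.sqrt y * (2 * z)) +
        (L * y * 1 + C * E * Real.sqrt y * Real.log N) +
        2 * (2 * Real.log N ^ 2 * y * sig c z y) +
        (L * y * (C3 * C5) + C * E * Real.sqrt y * (C3 * (Real.log y + Real.log 4))) := by
        refine add_le_add (add_le_add (add_le_add ?_ hS2) ?_) hS3
        · linarith
        · linarith
    _ = _ := by ring

/-- the lower bound -/
private theorem A4b_lower (N : ℕ) (c : ℕ → ℝ) (L C E : ℝ) (hc : RC N c) (hL : 0 ≤ L) (hC : 0 ≤ C)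
    (hE : 0 ≤ E) (hSS : ∀ w : ℕ, |SS c w - w * L| ≤ C * Real.sqrt w * E) (y : ℕ) (hy : 1 ≤ y) :
    1 / 2 * Real.log y * (y * L - 2 * (C * Real.sqrt y * E) - Real.sqrt y * L) ≤
      ∑ n ∈ Finset.Icc 1 y, rr c n * Real.log n := by
  have hy1 : (1 : ℝ) ≤ y := by exact_mod_cast hy
  have hlog : 0 ≤ Real.log y := Real.log_nonneg hy1
  set s : ℕ := Nat.sqrt y with hs
  have hsy : s ≤ y := Nat.sqrt_le_self y
  have hsr : (s : ℝ) ≤ Real.sqrt y := by
    refine Real.le_sqrt_of_sq_le ?_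
    exact_mod_cast Nat.sqrt_le' y
  have hsplit : SS c y - SS c s = ∑ n ∈ Finset.Ioc s y, rr c n := by
    unfold SS
    have h : Finset.Icc 1 y = Finset.Icc 1 s ∪ Finset.Ioc s y := by
      ext n
      simp only [Finset.mem_union, Finset.mem_Icc, Finset.mem_Ioc]
      omega
    rw [h, Finset.sum_union]
    · ring
    · rw [Finset.disjoint_left]
      intro n h1 h2
      rw [Finset.mem_Icc] at h1
      rw [Finset.mem_Ioc] at h2
      omega
  have h1 : 1 / 2 * Real.log y * (SS c y - SS c s) ≤ ∑ n ∈ Finset.Icc 1 y, rr c n * Real.log n := by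
    rw [hsplit, Finset.mul_sum]
    calc ∑ n ∈ Finset.Ioc s y, 1 / 2 * Real.log y * rr c n
        ≤ ∑ n ∈ Finset.Ioc s y, rr c n * Real.log n := by
          refine Finset.sum_le_sum fun n hn => ?_
          have hn1 := (Finset.mem_Ioc.mp hn).1
          have hr := rr_nonneg N c hc n
          have hn2 : y < n ^ 2 := by
            have := Nat.sqrt_lt'.mp hn1
            exact this
          have hn3 : Real.log y ≤ 2 * Real.log n := by
            have h4 : Real.log y ≤ Real.log ((n : ℝ) ^ 2) :=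
              Real.log_le_log (by linarith) (by exact_mod_cast hn2.le)
            rw [Real.log_pow] at h4
            exact_mod_cast h4
          nlinarith
      _ ≤ ∑ n ∈ Finset.Icc 1 y, rr c n * Real.log n := by
          refine Finset.sum_le_sum_of_subset_of_nonneg ?_ fun n hn _ => ?_
          · intro n hn
            rw [Finset.mem_Ioc] at hn
            rw [Finset.mem_Icc]
            omega
          · have := (Finset.mem_Icc.mp hn).1
            exact mul_nonneg (rr_nonneg N c hc n) (Real.log_nonneg (by exact_mod_cast this))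
  refine le_trans ?_ h1
  have h2 := (abs_le.mp (hSS y)).1
  have h3 := (abs_le.mp (hSS s)).2
  have h4 : Real.sqrt s ≤ Real.sqrt y := Real.sqrt_le_sqrt (by exact_mod_cast hsy)
  have h5 : C * Real.sqrt s * E ≤ C * Real.sqrt y * E := by gcongr
  have h6 : (s : ℝ) * L ≤ Real.sqrt y * L := by gcongr
  refine mul_le_mul_of_nonneg_left ?_ (by positivity)
  linarith

theorem sig_lower : ∃ C : ℝ, 0 < C ∧ ∃ N0 : ℕ, ∀ N : ℕ, N0 ≤ N → ∀ (c : ℕ → ℝ) (L : ℝ),
    RC N c → LV N c L → (N : ℝ) ^ (-(1 / 50) : ℝ) ≤ L → ∀ z T : ℕ, Real.log N ≤ z →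
    (z : ℝ) ≤ (N : ℝ) ^ ((1 : ℝ) / 20) → (N : ℝ) ^ ((9 : ℝ) / 10) ≤ T →
    L / (C * Real.log N) ≤ sig c z T := by
  obtain ⟨C, hC, hSS⟩ := SS_asymp
  obtain ⟨C3, C5, hC3, hC5, hup⟩ := A4b_upper
  set C6 : ℝ := 4 + 20 + C3 * (20 + Real.log 4) with hC6
  have hlog4 : 0 < Real.log 4 := Real.log_pos (by norm_num)
  -- asymptotic conditions
  have hcast : Filter.Tendsto (fun N : ℕ => (N : ℝ)) Filter.atTop Filter.atTop := tendsto_natCast_atTop_atTop
  have e1 : ∀ᶠ N : ℕ in Filter.atTop, (144 : ℝ) ≤ (N : ℝ) ^ ((9 : ℝ) / 10) :=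
    ((tendsto_rpow_atTop (by norm_num)).comp hcast).eventually_ge_atTop 144
  have e2 : ∀ᶠ N : ℕ in Filter.atTop, (2 * C) * 12 ≤ (N : ℝ) ^ ((17 : ℝ) / 100) :=
    ((tendsto_rpow_atTop (by norm_num)).comp hcast).eventually_ge_atTop _
  have e3 : ∀ᶠ N : ℕ in Filter.atTop, 2 * C * C6 ≤ (N : ℝ) ^ ((12 : ℝ) / 100) :=
    ((tendsto_rpow_atTop (by norm_num)).comp hcast).eventually_ge_atTop _
  have e4 : ∀ᶠ N : ℕ in Filter.atTop,
      20 * (2 * Real.log 4 + 1 + C3 * C5 + 1 + Real.log 2) ≤ Real.log N :=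
    (Real.tendsto_log_atTop.comp hcast).eventually_ge_atTop _
  have e5 : ∀ᶠ N : ℕ in Filter.atTop, 2 ≤ N := Filter.eventually_ge_atTop 2
  obtain ⟨N0, hN0⟩ := Filter.eventually_atTop.mp (e1.and (e2.and (e3.and (e4.and e5))))
  refine ⟨40, by norm_num, N0, ?_⟩
  intro N hN c L hRC hLc hLκ z T hz1 hz2 hT
  obtain ⟨f1, f2, f3, f4, f5⟩ := hN0 N hN
  have hN1 : (1 : ℝ) ≤ N := by exact_mod_cast (by omega : 1 ≤ N)
  have hNpos : (0 : ℝ) < N := by linarith
  have hL0 : 0 < L := lt_of_lt_of_le (by positivity) hLκ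
  set E : ℝ := (N : ℝ) ^ ((13 : ℝ) / 50) with hE
  have hE0 : 0 < E := by positivity
  have hS := hSS N f5 c L hRC hLc
  -- y
  set Y : ℝ := (N : ℝ) ^ ((9 : ℝ) / 10) with hY
  set y : ℕ := ⌊Y⌋₊ with hy
  have hY0 : 0 < Y := by positivity
  have hyY : (y : ℝ) ≤ Y := Nat.floor_le hY0.le
  have hYy : Y / 2 ≤ y := by
    have := Nat.lt_floor_add_one Y
    have h1 : Y < (y : ℝ) + 1 := this
    linarith
  have hYN : Y ≤ N := by
    rw [hY]
    calc (N : ℝ) ^ ((9 : ℝ) / 10) ≤ (N : ℝ) ^ (1 : ℝ) :=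
          Real.rpow_le_rpow_of_exponent_le hN1 (by norm_num)
      _ = N := Real.rpow_one _
  have hy72 : (72 : ℝ) ≤ y := by linarith
  have hy1 : 1 ≤ y := by
    have : (1 : ℝ) ≤ y := by linarith
    exact_mod_cast this
  have hyN : y ≤ N := by
    have : (y : ℝ) ≤ N := hyY.trans hYN
    exact_mod_cast this
  have hyT : y ≤ T := by
    have : (y : ℝ) ≤ T := hyY.trans hT
    exact_mod_cast this
  -- logs
  have hlog2 : 0 < Real.log 2 := Real.log_pos (by norm_num)
  have hprod : 0 < C3 * C5 := by positivity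
  have hlogN : 20 ≤ Real.log N := by linarith
  have hz0 : (1 : ℝ) ≤ z := by linarith
  have hzz : 1 ≤ z := by exact_mod_cast hz0
  have hlogz : Real.log z ≤ 1 / 20 * Real.log N := by
    have h := Real.log_le_log (by linarith) hz2
    rwa [Real.log_rpow hNpos] at h
  have hlogy1 : Real.log y ≤ Real.log N := Real.log_le_log (by linarith) (by exact_mod_cast hyN)
  have hlogy2 : 9 / 10 * Real.log N - Real.log 2 ≤ Real.log y := by
    have h := Real.log_le_log (by positivity : (0 : ℝ) < Y / 2) hYy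
    rw [Real.log_div hY0.ne' (by norm_num), hY, Real.log_rpow hNpos] at h
    linarith
  have hU := hup N (by omega) c L C E hRC hL0.le hC.le hE0.le
    (fun w => by linarith [(abs_le.mp (hS w)).2]) z y hzz hy1 hyN (by linarith) hz1
  have hD := A4b_lower N c L C E hRC hL0.le hC.le hE0.le hS y hy1
  have hmain := hD.trans hU
  -- s = √y
  set s : ℝ := Real.sqrt y with hs
  have hs2 : s ^ 2 = y := Real.sq_sqrt (by linarith)
  have hs0 : 0 < s := Real.sqrt_pos.mpr (by linarith)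
  have hs6 : 6 ≤ s := by
    refine Real.le_sqrt_of_sq_le ?_
    linarith
  have hsN : (N : ℝ) ^ ((45 : ℝ) / 100) / 2 ≤ s := by
    refine Real.le_sqrt_of_sq_le ?_
    have h1 : ((N : ℝ) ^ ((45 : ℝ) / 100) / 2) ^ 2 = Y / 4 := by
      rw [div_pow, ← Real.rpow_natCast, ← Real.rpow_mul hNpos.le, hY]
      norm_num
    rw [h1]
    linarith
  -- the quotient
  have hLs : 1 / 2 * (N : ℝ) ^ ((43 : ℝ) / 100) ≤ L * s := by
    have h1 : (N : ℝ) ^ ((43 : ℝ) / 100) = (N : ℝ) ^ (-(1 / 50) : ℝ) * (N : ℝ) ^ ((45 : ℝ) / 100) := by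
      rw [← Real.rpow_add hNpos]
      norm_num
    calc 1 / 2 * (N : ℝ) ^ ((43 : ℝ) / 100)
        = ((N : ℝ) ^ (-(1 / 50) : ℝ)) * ((N : ℝ) ^ ((45 : ℝ) / 100) / 2) := by rw [h1]; ring
      _ ≤ L * s := by gcongr
  have hη : C * E * 12 ≤ L * s := by
    have h1 : (N : ℝ) ^ ((43 : ℝ) / 100) = E * (N : ℝ) ^ ((17 : ℝ) / 100) := by
      rw [hE, ← Real.rpow_add hNpos]
      norm_num
    calc C * E * 12 = 1 / 2 * (E * (2 * C * 12)) := by ring
      _ ≤ 1 / 2 * (E * (N : ℝ) ^ ((17 : ℝ) / 100)) := by gcongr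
      _ = 1 / 2 * (N : ℝ) ^ ((43 : ℝ) / 100) := by rw [h1]
      _ ≤ L * s := hLs
  have hB : 4 * (z : ℝ) + Real.log N + C3 * (Real.log y + Real.log 4) ≤
      C6 * (N : ℝ) ^ ((1 : ℝ) / 20) := by
    have h1 : Real.log N ≤ 20 * (N : ℝ) ^ ((1 : ℝ) / 20) := by
      have h := Real.log_le_rpow_div hNpos.le (show (0 : ℝ) < 1 / 20 by norm_num)
      linarith
    have h2 : (1 : ℝ) ≤ (N : ℝ) ^ ((1 : ℝ) / 20) := Real.one_le_rpow hN1 (by norm_num)
    have h3 : Real.log y + Real.log 4 ≤ (20 + Real.log 4) * (N : ℝ) ^ ((1 : ℝ) / 20) := by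
      have h5 := mul_le_mul_of_nonneg_left h2 hlog4.le
      linarith
    have h4 := mul_le_mul_of_nonneg_left h3 hC3.le
    rw [hC6]
    linarith
  have hCB : C * E * (4 * (z : ℝ) + Real.log N + C3 * (Real.log y + Real.log 4)) ≤ L * s := by
    have h1 : (N : ℝ) ^ ((43 : ℝ) / 100) =
        E * (N : ℝ) ^ ((1 : ℝ) / 20) * (N : ℝ) ^ ((12 : ℝ) / 100) := by
      rw [hE, ← Real.rpow_add hNpos, ← Real.rpow_add hNpos]
      norm_num
    calc C * E * (4 * (z : ℝ) + Real.log N + C3 * (Real.log y + Real.log 4))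
        ≤ C * E * (C6 * (N : ℝ) ^ ((1 : ℝ) / 20)) := by gcongr
      _ = 1 / 2 * (E * (N : ℝ) ^ ((1 : ℝ) / 20) * (2 * C * C6)) := by ring
      _ ≤ 1 / 2 * (E * (N : ℝ) ^ ((1 : ℝ) / 20) * (N : ℝ) ^ ((12 : ℝ) / 100)) := by gcongr
      _ = 1 / 2 * (N : ℝ) ^ ((43 : ℝ) / 100) := by rw [h1]
      _ ≤ L * s := hLs
  -- divide by `s^2`
  have hlogy0 : 0 ≤ Real.log y := Real.log_nonneg (by linarith)
  have hlow : 1 / 2 * Real.log y * (2 / 3 * (L * s ^ 2)) ≤
      1 / 2 * Real.log y * (y * L - 2 * (C * s * E) - s * L) := by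
    refine mul_le_mul_of_nonneg_left ?_ (by positivity)
    rw [← hs2]
    have h1 : 12 * (C * s * E) ≤ L * s ^ 2 := by
      calc 12 * (C * s * E) = C * E * 12 * s := by ring
        _ ≤ L * s * s := mul_le_mul_of_nonneg_right hη hs0.le
        _ = L * s ^ 2 := by ring
    have h2 : 6 * (s * L) ≤ L * s ^ 2 := by
      calc 6 * (s * L) = L * s * 6 := by ring
        _ ≤ L * s * s := mul_le_mul_of_nonneg_left hs6 (by positivity)
        _ = L * s ^ 2 := by ring
    linarith
  have hupp : L * y * (2 * (Real.log z + Real.log 4) + 1 + C3 * C5) +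
      C * E * s * (4 * z + Real.log N + C3 * (Real.log y + Real.log 4)) ≤
      (L * s ^ 2) * (1 / 10 * Real.log N + 2 * Real.log 4 + 1 + C3 * C5 + 1) := by
    have h1 : C * E * s * (4 * z + Real.log N + C3 * (Real.log y + Real.log 4)) ≤ L * s ^ 2 := by
      calc C * E * s * (4 * z + Real.log N + C3 * (Real.log y + Real.log 4))
          = C * E * (4 * (z : ℝ) + Real.log N + C3 * (Real.log y + Real.log 4)) * s := by ring
        _ ≤ L * s * s := mul_le_mul_of_nonneg_right hCB hs0.le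
        _ = L * s ^ 2 := by ring
    have h2 : L * y * (2 * (Real.log z + Real.log 4) + 1 + C3 * C5) ≤
        L * s ^ 2 * (1 / 10 * Real.log N + 2 * Real.log 4 + 1 + C3 * C5) := by
      rw [hs2]
      refine mul_le_mul_of_nonneg_left ?_ (by positivity)
      linarith
    refine (add_le_add h2 h1).trans (le_of_eq ?_)
    ring
  have hσ := A4b_sig_mono c z y T hyT
  have hsig : 4 * Real.log N ^ 2 * y * sig c z y ≤ s ^ 2 * (4 * Real.log N ^ 2 * sig c z T) := by
    rw [hs2]
    calc 4 * Real.log N ^ 2 * y * sig c z y ≤ 4 * Real.log N ^ 2 * y * sig c z T :=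
          mul_le_mul_of_nonneg_left hσ (by positivity)
      _ = y * (4 * Real.log N ^ 2 * sig c z T) := by ring
  have hfin : s ^ 2 * (1 / 3 * Real.log y * L) ≤
      s ^ 2 * (L * (1 / 10 * Real.log N + 2 * Real.log 4 + 1 + C3 * C5 + 1) +
        4 * Real.log N ^ 2 * sig c z T) := by
    have h1 := hlow.trans (hmain.trans (add_le_add hupp hsig))
    refine le_trans (le_of_eq ?_) (h1.trans (le_of_eq ?_))
    · ring
    · ring
  have hfin2 : 1 / 3 * Real.log y * L ≤
      L * (1 / 10 * Real.log N + 2 * Real.log 4 + 1 + C3 * C5 + 1) +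
        4 * Real.log N ^ 2 * sig c z T := le_of_mul_le_mul_left hfin (by positivity)
  have hfin3 : L * (1 / 10 * Real.log N) ≤ 4 * Real.log N ^ 2 * sig c z T := by
    have h1 : L * (1 / 10 * Real.log N) ≤
        L * (1 / 3 * Real.log y - (1 / 10 * Real.log N + 2 * Real.log 4 + 1 + C3 * C5 + 1)) :=
      mul_le_mul_of_nonneg_left (by linarith) hL0.le
    linarith
  have hlp : 0 < Real.log N := by linarith
  rw [div_le_iff₀ (by positivity)]
  have h5 : Real.log N * L ≤ Real.log N * (sig c z T * (40 * Real.log N)) := by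
    linarith
  exact le_of_mul_le_mul_left h5 hlp

end Pool.Agent.Lib.RG
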