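import Pool.Agent.Lib.MP_7b7e48_nt.RG.Defs

/-!
# Module A5 (60 minutes): few characters are `-1` on `Q`

PROOF. Let `U` be the set of the products of `u` different elements of `Q` (`Q.powersetCard u`, the map
`T ↦ ∏ T` is injective on sets of primes). All elements are `≤ M^u < N`, so they are different modulo `N`, and
coprime to `N`. `∑_χ ‖∑_{n ∈ U} χ n‖² = φ(N) #{(n, n') ∈ U² : n = n' in Z/N} = φ(N) |U|` (orthogonality,
`DirichletCharacter.sum_char_inv_mul_char_eq`), and every `χ ∈ X` contributes `|(-1)^u |U||² = |U|²`.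
So `|X| |U|² ≤ φ(N) |U|`, `|U| = (|Q| choose u)` (`≥ 1` or else the claim is trivial).
-/

open Finset

namespace Pool.Agent.Lib.RG

theorem few (N : ℕ) [NeZero N] (Q : Finset ℕ) (M u : ℕ)
    (hQ : ∀ l ∈ Q, l.Prime ∧ l ≤ M ∧ ¬ l ∣ N) (hM : M ^ u < N)
    (X : Finset (DirichletCharacter ℂ N)) (hX : ∀ χ ∈ X, ∀ l ∈ Q, χ (l : ZMod N) = -1) :
    X.card * Q.card.choose u ≤ N.totient := by
  classical
  set P := Q.powersetCard u with hP
  have hPc : P.card = Q.card.choose u := card_powersetCard u Q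
  have hmem : ∀ T ∈ P, T ⊆ Q ∧ T.card = u := fun T hT => mem_powersetCard.1 hT
  have hunit : ∀ T ∈ P, IsUnit (((∏ l ∈ T, l : ℕ) : ZMod N)) := by
    intro T hT
    rw [ZMod.isUnit_iff_coprime]
    refine Nat.Coprime.prod_left fun l hl => ?_
    obtain ⟨h1, -, h3⟩ := hQ l ((hmem T hT).1 hl)
    exact (Nat.Prime.coprime_iff_not_dvd h1).2 h3
  have hlt : ∀ T ∈ P, ∏ l ∈ T, l < N := by
    intro T hT
    refine lt_of_le_of_lt ?_ hM
    rw [← (hmem T hT).2]
    exact prod_le_pow_card _ _ _ fun l hl => (hQ l ((hmem T hT).1 hl)).2.1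
  have hinj : ∀ T ∈ P, ∀ T' ∈ P, (((∏ l ∈ T, l : ℕ) : ZMod N)) = ((∏ l ∈ T', l : ℕ) : ZMod N) →
      T = T' := by
    intro T hT T' hT' h
    rw [ZMod.natCast_eq_natCast_iff', Nat.mod_eq_of_lt (hlt T hT),
      Nat.mod_eq_of_lt (hlt T' hT')] at h
    rw [← Nat.primeFactors_prod (fun l hl => (hQ l ((hmem T hT).1 hl)).1),
      ← Nat.primeFactors_prod (fun l hl => (hQ l ((hmem T' hT').1 hl)).1), h]
  have hconj : ∀ (χ : DirichletCharacter ℂ N) (a : ZMod N), IsUnit a →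
      (starRingEnd ℂ) (χ a) = χ a⁻¹ := by
    intro χ a ha
    obtain ⟨v, rfl⟩ := ha
    have h1 : ‖χ (v : ZMod N)‖ = 1 := DirichletCharacter.unit_norm_eq_one χ v
    rw [← Complex.inv_eq_conj h1, ZMod.inv_coe_unit, ← MulChar.inv_apply_eq_inv', MulChar.inv_apply,
      Ring.inverse_unit]
  -- the mean square
  have key : ∑ χ : DirichletCharacter ℂ N,
      (‖∑ T ∈ P, χ (((∏ l ∈ T, l : ℕ) : ZMod N))‖ ^ 2 : ℝ) = N.totient * P.card := by
    have h1 : (((∑ χ : DirichletCharacter ℂ N,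
        (‖∑ T ∈ P, χ (((∏ l ∈ T, l : ℕ) : ZMod N))‖ ^ 2 : ℝ)) : ℝ) : ℂ) =
        ((N.totient * P.card : ℝ) : ℂ) := by
      push_cast
      have h2 : ∀ χ : DirichletCharacter ℂ N,
          ((‖∑ T ∈ P, χ (((∏ l ∈ T, l : ℕ) : ZMod N))‖ : ℂ) ^ 2) =
          ∑ T ∈ P, ∑ T' ∈ P, χ ((((∏ l ∈ T, l : ℕ) : ZMod N))⁻¹) *
            χ (((∏ l ∈ T', l : ℕ) : ZMod N)) := by
        intro χ
        rw [← Complex.conj_mul', map_sum, sum_mul_sum]
        refine sum_congr rfl fun T hT => sum_congr rfl fun T' _ => ?_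
        rw [hconj χ _ (hunit T hT)]
      have h3 : ∑ χ : DirichletCharacter ℂ N,
          ((‖∑ T ∈ P, χ (((∏ l ∈ T, l : ℕ) : ZMod N))‖ : ℂ) ^ 2) =
          ∑ T ∈ P, ∑ T' ∈ P, ∑ χ : DirichletCharacter ℂ N,
            χ ((((∏ l ∈ T, l : ℕ) : ZMod N))⁻¹) * χ (((∏ l ∈ T', l : ℕ) : ZMod N)) := by
        rw [sum_congr rfl fun χ _ => h2 χ, sum_comm]
        refine sum_congr rfl fun T _ => ?_
        rw [sum_comm]
      have h4 : ∀ T ∈ P, ∑ T' ∈ P, ∑ χ : DirichletCharacter ℂ N,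
            χ ((((∏ l ∈ T, l : ℕ) : ZMod N))⁻¹) * χ (((∏ l ∈ T', l : ℕ) : ZMod N)) =
            (N.totient : ℂ) := by
        intro T hT
        rw [sum_eq_single T]
        · rw [DirichletCharacter.sum_char_inv_mul_char_eq ℂ (hunit T hT), if_pos rfl]
        · intro T' hT' hne
          rw [DirichletCharacter.sum_char_inv_mul_char_eq ℂ (hunit T hT), if_neg]
          intro h
          exact hne (hinj T hT T' hT' h).symm
        · intro h
          exact absurd hT h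
      have h5 := h3
      push_cast at h5
      rw [h5]
      have h6 := sum_congr rfl h4
      push_cast at h6
      rw [h6, sum_const, nsmul_eq_mul, mul_comm]
    exact_mod_cast h1
  have hval : ∀ χ ∈ X, (‖∑ T ∈ P, χ (((∏ l ∈ T, l : ℕ) : ZMod N))‖ ^ 2 : ℝ) = (P.card : ℝ) ^ 2 := by
    intro χ hχ
    have h1 : ∀ T ∈ P, χ (((∏ l ∈ T, l : ℕ) : ZMod N)) = (-1) ^ u := by
      intro T hT
      rw [Nat.cast_prod, map_prod, prod_congr rfl fun l hl => hX χ hχ l ((hmem T hT).1 hl),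
        prod_const, (hmem T hT).2]
    rw [sum_congr rfl h1, sum_const, nsmul_eq_mul, norm_mul, norm_pow, norm_neg, norm_one, one_pow,
      mul_one, Complex.norm_natCast]
  have hle : (X.card : ℝ) * (P.card : ℝ) ^ 2 ≤ N.totient * P.card := by
    rw [← key]
    calc (X.card : ℝ) * (P.card : ℝ) ^ 2 = ∑ _χ ∈ X, (P.card : ℝ) ^ 2 := by
          rw [sum_const, nsmul_eq_mul]
      _ = ∑ χ ∈ X, (‖∑ T ∈ P, χ (((∏ l ∈ T, l : ℕ) : ZMod N))‖ ^ 2 : ℝ) :=
          (sum_congr rfl hval).symm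
      _ ≤ _ := sum_le_sum_of_subset_of_nonneg (subset_univ _) fun _ _ _ => by positivity
  rw [← hPc]
  rcases Nat.eq_zero_or_pos P.card with h0 | h0
  · rw [h0, mul_zero]
    exact Nat.zero_le _
  · have h1 : (0 : ℝ) < P.card := by exact_mod_cast h0
    have h2 : (X.card : ℝ) * P.card ≤ N.totient := by
      have h3 : (X.card : ℝ) * P.card * P.card ≤ N.totient * P.card := by nlinarith
      exact le_of_mul_le_mul_right h3 h1
    exact_mod_cast h2

end Pool.Agent.Lib.RG
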