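import Pool.Agent.Lib.MP_7b7e48_nt.RG.CHA

/-!
# Near orthogonality of few characters on short intervals with sieve weights, every modulus

`coprime_count`, `nearOrth2`, `nearOrth`.
-/

set_option autoImplicit false

open Finset

namespace Pool.Agent.Lib.RG

/-- counting integers free of a finite set of primes -/
theorem cop_le (P : Finset ℕ) (hP : ∀ p ∈ P, p.Prime) : ∀ w : ℝ, 0 ≤ w →
    |(((Icc 1 ⌊w⌋₊).filter (fun m => ∀ p ∈ P, ¬ p ∣ m)).card : ℝ) - w * ∏ p ∈ P, (1 - 1 / (p : ℝ))| ≤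
      2 ^ P.card := by
  classical
  induction P using Finset.induction_on with
  | empty =>
    intro w hw
    simp only [notMem_empty, IsEmpty.forall_iff, implies_true, filter_true, Nat.card_Icc,
      Nat.add_sub_cancel, prod_empty, mul_one, card_empty, pow_zero]
    rw [abs_le]
    have h1 := Nat.floor_le hw
    have h2 := Nat.lt_floor_add_one w
    constructor <;> linarith
  | insert p P hp ih =>
    intro w hw
    have hpp := hP p (mem_insert_self p P)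
    have hP' : ∀ q ∈ P, q.Prime := fun q hq => hP q (mem_insert_of_mem hq)
    have ih := ih hP'
    have hpr : (0 : ℝ) < p := by exact_mod_cast hpp.pos
    have h1 := ih w hw
    have h2 := ih (w / p) (by positivity)
    have hsplit : ((Icc 1 ⌊w⌋₊).filter (fun m => ∀ q ∈ P, ¬ q ∣ m)).card =
        ((Icc 1 ⌊w⌋₊).filter (fun m => ∀ q ∈ insert p P, ¬ q ∣ m)).card +
        ((Icc 1 ⌊w / p⌋₊).filter (fun m => ∀ q ∈ P, ¬ q ∣ m)).card := by
      rw [← Finset.card_filter_add_card_filter_not (s := (Icc 1 ⌊w⌋₊).filter (fun m => ∀ q ∈ P, ¬ q ∣ m))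
        (fun m => ¬ p ∣ m)]
      congr 1
      · congr 1
        ext m
        simp only [mem_filter, mem_insert, forall_eq_or_imp]
        tauto
      · symm
        refine Finset.card_bij (fun m _ => p * m) ?_ ?_ ?_
        · intro m hm
          rw [mem_filter] at hm
          obtain ⟨hm1, hm2⟩ := hm
          obtain ⟨h3, h4⟩ := mem_Icc.mp hm1
          rw [Nat.floor_div_natCast] at h4
          rw [mem_filter, mem_filter, mem_Icc]
          refine ⟨⟨⟨Nat.mul_pos hpp.pos h3, ?_⟩, ?_⟩, ?_⟩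
          · rw [Nat.le_div_iff_mul_le hpp.pos] at h4
            rw [mul_comm]; exact h4
          · intro q hq hqm
            rcases (hP' q hq).dvd_mul.mp hqm with h5 | h5
            · have := (Nat.prime_dvd_prime_iff_eq (hP' q hq) hpp).mp h5
              rw [this] at hq
              exact hp hq
            · exact hm2 q hq h5
          · rw [not_not]; exact dvd_mul_right p m
        · intro m _ m' _ h
          exact Nat.eq_of_mul_eq_mul_left hpp.pos h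
        · intro n hn
          rw [mem_filter, mem_filter, mem_Icc, not_not] at hn
          obtain ⟨⟨⟨h3, h4⟩, h5⟩, m, rfl⟩ := hn
          refine ⟨m, ?_, rfl⟩
          rw [mem_filter, mem_Icc, Nat.floor_div_natCast]
          refine ⟨⟨?_, ?_⟩, ?_⟩
          · rcases Nat.eq_zero_or_pos m with h6 | h6
            · rw [h6, mul_zero] at h3; omega
            · exact h6
          · rw [Nat.le_div_iff_mul_le hpp.pos, mul_comm]; exact h4
          · intro q hq hqm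
            exact h5 q hq (dvd_mul_of_dvd_right hqm p)
    rw [card_insert_of_notMem hp, prod_insert hp, pow_succ]
    have h6 : (((Icc 1 ⌊w⌋₊).filter (fun m => ∀ q ∈ insert p P, ¬ q ∣ m)).card : ℝ) =
        (((Icc 1 ⌊w⌋₊).filter (fun m => ∀ q ∈ P, ¬ q ∣ m)).card : ℝ) -
        (((Icc 1 ⌊w / p⌋₊).filter (fun m => ∀ q ∈ P, ¬ q ∣ m)).card : ℝ) := by
      rw [hsplit]; push_cast; ring
    rw [h6]
    have h7 : w * ((1 - 1 / (p : ℝ)) * ∏ q ∈ P, (1 - 1 / (q : ℝ))) =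
        w * ∏ q ∈ P, (1 - 1 / (q : ℝ)) - w / p * ∏ q ∈ P, (1 - 1 / (q : ℝ)) := by ring
    rw [h7, abs_le]
    rw [abs_le] at h1 h2
    constructor <;> linarith [h1.1, h1.2, h2.1, h2.2]

theorem two_pow_omega_le (N : ℕ) (hN : 1 ≤ N) : (2 : ℝ) ^ N.primeFactors.card ≤ (N.divisors.card : ℝ) := by
  rw [Nat.card_divisors (by omega)]
  push_cast
  rw [← Finset.prod_const]
  refine Finset.prod_le_prod (fun _ _ => by norm_num) fun p hp => ?_
  have h1 : 1 ≤ N.factorization p :=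
    (Nat.prime_of_mem_primeFactors hp).factorization_pos_of_dvd (by omega) (Nat.dvd_of_mem_primeFactors hp)
  have h2 : (1 : ℝ) ≤ (N.factorization p : ℝ) := by exact_mod_cast h1
  linarith

/-- integers up to `w` coprime to `N` -/
theorem coprime_count (N : ℕ) (hN : 1 ≤ N) (w : ℝ) (hw : 0 ≤ w) :
    |(((Icc 1 ⌊w⌋₊).filter (fun m => Nat.Coprime m N)).card : ℝ) - w * ((N.totient : ℝ) / N)| ≤
      (N.divisors.card : ℝ) := by
  have h1 := cop_le N.primeFactors (fun p hp => Nat.prime_of_mem_primeFactors hp) w hw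
  have h2 : (Icc 1 ⌊w⌋₊).filter (fun m => Nat.Coprime m N) =
      (Icc 1 ⌊w⌋₊).filter (fun m => ∀ p ∈ N.primeFactors, ¬ p ∣ m) := by
    refine Finset.filter_congr fun m _ => ?_
    constructor
    · intro h p hp hpm
      have h3 := Nat.prime_of_mem_primeFactors hp
      have h4 := Nat.dvd_gcd hpm (Nat.dvd_of_mem_primeFactors hp)
      rw [h] at h4
      exact h3.one_lt.ne' (Nat.dvd_one.mp h4)
    · intro h
      refine Nat.Coprime.symm (Nat.coprime_of_dvd fun p hp hpN hpm => ?_)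
      exact h p (Nat.mem_primeFactors.mpr ⟨hp, hpN, by omega⟩) hpm
  have h3 : ∏ p ∈ N.primeFactors, (1 - 1 / (p : ℝ)) = (N.totient : ℝ) / N := by
    have h4 := Nat.totient_eq_mul_prod_factors N
    have h5 : ((N.totient : ℚ) : ℝ) = ((N * ∏ p ∈ N.primeFactors, (1 - (p : ℚ)⁻¹) : ℚ) : ℝ) := by
      rw [h4]
    push_cast at h5
    have hN0 : (N : ℝ) ≠ 0 := by positivity
    rw [h5, mul_comm, mul_div_assoc, div_self hN0, mul_one]
    refine Finset.prod_congr rfl fun p _ => ?_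
    rw [one_div]
  rw [h2, ← h3]
  exact h1.trans (two_pow_omega_le N hN)

variable {N : ℕ} [NeZero N]

/-- near orthogonality, two sided, every modulus -/
theorem nearOrth2 (h2 : 2 ≤ N) (G : Finset (DirichletCharacter ℂ N))
    (c : DirichletCharacter ℂ N → ℂ) (w : ℝ) (hw : 0 ≤ w) :
    |∑ n ∈ Icc 1 ⌊w⌋₊, ‖∑ χ ∈ G, c χ * χ (n : ZMod N)‖ ^ 2 -
      w * ((N.totient : ℝ) / N) * ∑ χ ∈ G, ‖c χ‖ ^ 2| ≤
      ((N.divisors.card : ℝ) + G.card * PB N) * ∑ χ ∈ G, ‖c χ‖ ^ 2 := by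
  classical
  set X : ℕ := ⌊w⌋₊ with hX
  set M : ℝ := PB N with hM
  have hM0 : 0 ≤ M := by
    have h1 : 0 ≤ Real.log N := Real.log_natCast_nonneg N
    rw [hM]; unfold PB
    positivity
  set A : ℝ := (((Icc 1 X).filter (fun m => Nat.Coprime m N)).card : ℝ) with hA
  have hcc := coprime_count N (by omega) w hw
  rw [← hX, ← hA] at hcc
  -- the sum as a double sum
  have h1 : ((∑ n ∈ Icc 1 X, ‖∑ χ ∈ G, c χ * χ (n : ZMod N)‖ ^ 2 : ℝ) : ℂ) =
      ∑ χ ∈ G, ∑ ψ ∈ G, (c χ * (starRingEnd ℂ) (c ψ)) * ∑ n ∈ Icc 1 X,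
        (χ (n : ZMod N) * (starRingEnd ℂ) (ψ (n : ZMod N))) := by
    rw [Complex.ofReal_sum]
    have h2 : ∀ n ∈ Icc 1 X, ((‖∑ χ ∈ G, c χ * χ (n : ZMod N)‖ ^ 2 : ℝ) : ℂ) =
        ∑ χ ∈ G, ∑ ψ ∈ G, (c χ * (starRingEnd ℂ) (c ψ)) *
          (χ (n : ZMod N) * (starRingEnd ℂ) (ψ (n : ZMod N))) :=
      fun n _ => chExpand G c (fun χ => χ (n : ZMod N))
    rw [sum_congr rfl h2, sum_comm]
    refine sum_congr rfl fun χ _ => ?_
    rw [sum_comm]
    refine sum_congr rfl fun ψ _ => ?_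
    rw [mul_sum]
  have hdiag : ∀ χ : DirichletCharacter ℂ N, ∑ n ∈ Icc 1 X,
      (χ (n : ZMod N) * (starRingEnd ℂ) (χ (n : ZMod N))) = (A : ℂ) := by
    intro χ
    have h2 : ∀ n ∈ Icc 1 X, χ (n : ZMod N) * (starRingEnd ℂ) (χ (n : ZMod N)) =
        if Nat.Coprime n N then 1 else 0 := by
      intro n _
      rw [← chNormsq]
      split_ifs with h
      · rw [chNorm χ ((ZMod.isUnit_iff_coprime n N).mpr h)]
        norm_num
      · rw [MulChar.map_nonunit χ (fun h3 => h ((ZMod.isUnit_iff_coprime n N).mp h3))]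
        norm_num
    rw [sum_congr rfl h2, ← sum_filter, sum_const, hA]
    simp
  have hoff : ∀ χ ψ : DirichletCharacter ℂ N, χ ≠ ψ → ‖∑ n ∈ Icc 1 X,
      (χ (n : ZMod N) * (starRingEnd ℂ) (ψ (n : ZMod N)))‖ ≤ M := by
    intro χ ψ hne
    have h3 : ∀ n ∈ Icc 1 X, χ (n : ZMod N) * (starRingEnd ℂ) (ψ (n : ZMod N)) =
        (χ * ψ⁻¹) (n : ZMod N) := by
      intro n _
      rw [chStar, MulChar.mul_apply]
    rw [sum_congr rfl h3]
    exact PVall N h2 _ (fun h => hne (mul_inv_eq_one.mp h)) X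
  have h4 : ‖((∑ n ∈ Icc 1 X, ‖∑ χ ∈ G, c χ * χ (n : ZMod N)‖ ^ 2 : ℝ) : ℂ) -
      ((A * ∑ χ ∈ G, ‖c χ‖ ^ 2 : ℝ) : ℂ)‖ ≤ G.card * M * ∑ χ ∈ G, ‖c χ‖ ^ 2 := by
    have h5 : ((A * ∑ χ ∈ G, ‖c χ‖ ^ 2 : ℝ) : ℂ) = ∑ χ ∈ G, ∑ ψ ∈ G,
        if χ = ψ then (c χ * (starRingEnd ℂ) (c ψ)) * (A : ℂ) else 0 := by
      push_cast
      rw [mul_sum]
      refine sum_congr rfl fun χ hχ => ?_
      rw [Finset.sum_ite_eq G χ, if_pos hχ]
      have := chNormsq (c χ)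
      push_cast at this
      rw [this]
      ring
    rw [h1, h5, ← sum_sub_distrib]
    refine (norm_sum_le _ _).trans ?_
    have h6 : ∀ χ ∈ G, ‖(∑ ψ ∈ G, (c χ * (starRingEnd ℂ) (c ψ)) * ∑ n ∈ Icc 1 X,
        (χ (n : ZMod N) * (starRingEnd ℂ) (ψ (n : ZMod N)))) -
        ∑ ψ ∈ G, (if χ = ψ then (c χ * (starRingEnd ℂ) (c ψ)) * (A : ℂ) else 0)‖ ≤
        ∑ ψ ∈ G, ‖c χ‖ * ‖c ψ‖ * M := by
      intro χ _
      rw [← sum_sub_distrib]
      refine (norm_sum_le _ _).trans (sum_le_sum fun ψ _ => ?_)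
      by_cases h7 : χ = ψ
      · subst h7
        rw [if_pos rfl, hdiag, sub_self, norm_zero]
        positivity
      · rw [if_neg h7, sub_zero, norm_mul, norm_mul, RCLike.norm_conj]
        gcongr
        exact hoff χ ψ h7
    refine (sum_le_sum h6).trans ?_
    have h7 : ∑ χ ∈ G, ∑ ψ ∈ G, ‖c χ‖ * ‖c ψ‖ * M = M * (∑ χ ∈ G, ‖c χ‖) ^ 2 := by
      rw [sq, Finset.sum_mul_sum, mul_sum]
      refine sum_congr rfl fun χ _ => ?_
      rw [mul_sum]
      refine sum_congr rfl fun ψ _ => ?_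
      ring
    rw [h7]
    have h8 : (∑ χ ∈ G, ‖c χ‖) ^ 2 ≤ G.card * ∑ χ ∈ G, ‖c χ‖ ^ 2 := sq_sum_le_card_mul_sum_sq
    calc M * (∑ χ ∈ G, ‖c χ‖) ^ 2 ≤ M * (G.card * ∑ χ ∈ G, ‖c χ‖ ^ 2) := by gcongr
      _ = _ := by ring
  rw [← Complex.ofReal_sub, Complex.norm_real, Real.norm_eq_abs] at h4
  have hS : 0 ≤ ∑ χ ∈ G, ‖c χ‖ ^ 2 := sum_nonneg fun _ _ => by positivity
  have h9 : |A * ∑ χ ∈ G, ‖c χ‖ ^ 2 - w * ((N.totient : ℝ) / N) * ∑ χ ∈ G, ‖c χ‖ ^ 2| ≤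
      (N.divisors.card : ℝ) * ∑ χ ∈ G, ‖c χ‖ ^ 2 := by
    rw [← sub_mul, abs_mul, abs_of_nonneg hS]
    exact mul_le_mul_of_nonneg_right hcc hS
  have h10 := abs_sub_le (∑ n ∈ Icc 1 X, ‖∑ χ ∈ G, c χ * χ (n : ZMod N)‖ ^ 2)
    (A * ∑ χ ∈ G, ‖c χ‖ ^ 2) (w * ((N.totient : ℝ) / N) * ∑ χ ∈ G, ‖c χ‖ ^ 2)
  calc _ ≤ _ := h10
    _ ≤ G.card * M * ∑ χ ∈ G, ‖c χ‖ ^ 2 + (N.divisors.card : ℝ) * ∑ χ ∈ G, ‖c χ‖ ^ 2 :=
        add_le_add h4 h9
    _ = _ := by ring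

/-- **near orthogonality with sieve weights** (two sided) -/
theorem nearOrthS (h2 : 2 ≤ N) (D : Finset ℕ) (lam : ℕ → ℝ)
    (hD : ∀ d ∈ D, 1 ≤ d ∧ Nat.Coprime d N) (G : Finset (DirichletCharacter ℂ N))
    (c : DirichletCharacter ℂ N → ℂ) (y : ℕ) :
    |∑ n ∈ Icc 1 y, (∑ d ∈ D with d ∣ n, lam d) * ‖∑ χ ∈ G, c χ * χ (n : ZMod N)‖ ^ 2 -
      (y * ((N.totient : ℝ) / N) * ∑ d ∈ D, lam d / d) * ∑ χ ∈ G, ‖c χ‖ ^ 2| ≤
      (∑ d ∈ D, |lam d|) * (((N.divisors.card : ℝ) + G.card * PB N) * ∑ χ ∈ G, ‖c χ‖ ^ 2) := by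
  classical
  set S : ℝ := ∑ χ ∈ G, ‖c χ‖ ^ 2 with hS
  have h1 : ∑ n ∈ Icc 1 y, (∑ d ∈ D with d ∣ n, lam d) * ‖∑ χ ∈ G, c χ * χ (n : ZMod N)‖ ^ 2 =
      ∑ d ∈ D, lam d * ∑ n ∈ (Icc 1 y).filter (fun n => d ∣ n),
        ‖∑ χ ∈ G, c χ * χ (n : ZMod N)‖ ^ 2 := by
    simp_rw [sum_filter, sum_mul, mul_sum]
    rw [sum_comm]
    refine sum_congr rfl fun d _ => sum_congr rfl fun n _ => ?_
    split_ifs <;> ring
  have h3 : ∀ d ∈ D, |∑ n ∈ (Icc 1 y).filter (fun n => d ∣ n),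
        ‖∑ χ ∈ G, c χ * χ (n : ZMod N)‖ ^ 2 - (y / d : ℝ) * ((N.totient : ℝ) / N) * S| ≤
      ((N.divisors.card : ℝ) + G.card * PB N) * S := by
    intro d hd
    obtain ⟨hd1, hdN⟩ := hD d hd
    have hu : IsUnit (d : ZMod N) := (ZMod.isUnit_iff_coprime d N).mpr hdN
    have h4 : ∑ n ∈ (Icc 1 y).filter (fun n => d ∣ n), ‖∑ χ ∈ G, c χ * χ (n : ZMod N)‖ ^ 2 =
        ∑ m ∈ Icc 1 ⌊(y / d : ℝ)⌋₊, ‖∑ χ ∈ G, (c χ * χ (d : ZMod N)) * χ (m : ZMod N)‖ ^ 2 := by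
      symm
      refine Finset.sum_bij (fun m _ => d * m) ?_ ?_ ?_ ?_
      · intro m hm
        rw [Nat.floor_div_eq_div, mem_Icc] at hm
        rw [mem_filter, mem_Icc]
        refine ⟨⟨Nat.mul_pos hd1 hm.1, ?_⟩, dvd_mul_right d m⟩
        have := (Nat.le_div_iff_mul_le hd1).mp hm.2
        rw [mul_comm]; exact this
      · intro m _ m' _ h
        exact Nat.eq_of_mul_eq_mul_left hd1 h
      · intro n hn
        rw [mem_filter, mem_Icc] at hn
        obtain ⟨⟨h5, h6⟩, m, rfl⟩ := hn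
        refine ⟨m, ?_, rfl⟩
        rw [Nat.floor_div_eq_div, mem_Icc]
        refine ⟨?_, ?_⟩
        · rcases Nat.eq_zero_or_pos m with h7 | h7
          · rw [h7, mul_zero] at h5; omega
          · exact h7
        · rw [Nat.le_div_iff_mul_le hd1, mul_comm]; exact h6
      · intro m _
        congr 2
        refine sum_congr rfl fun χ _ => ?_
        push_cast
        rw [map_mul]
        ring
    have h5 := nearOrth2 h2 G (fun χ => c χ * χ (d : ZMod N)) (y / d : ℝ) (by positivity)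
    have h6 : ∑ χ ∈ G, ‖c χ * χ (d : ZMod N)‖ ^ 2 = S := by
      rw [hS]
      refine sum_congr rfl fun χ _ => ?_
      rw [norm_mul, chNorm χ hu, mul_one]
    rw [h6] at h5
    rw [h4]
    exact h5
  have h7 : (y * ((N.totient : ℝ) / N) * ∑ d ∈ D, lam d / d) * S =
      ∑ d ∈ D, lam d * ((y / d : ℝ) * ((N.totient : ℝ) / N) * S) := by
    clear_value S
    rw [mul_sum, sum_mul]
    refine sum_congr rfl fun d _ => ?_
    ring
  rw [h1, h7, ← sum_sub_distrib, sum_mul]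
  refine (abs_sum_le_sum_abs _ _).trans (sum_le_sum fun d hd => ?_)
  rw [← mul_sub, abs_mul]
  exact mul_le_mul_of_nonneg_left (h3 d hd) (abs_nonneg _)

end Pool.Agent.Lib.RG
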