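import Pool.Agent.Lib.MP_f75418_nt.AP.FLG

/-!
# Lower bound sieve weights of dimension one (Brun-Hooley)

For every `z ≥ 2` and every finite set `P` of primes `≤ z` there are real weights `lam d`, supported on
squarefree `d ≤ z ^ K` composed of primes of `P`, with `∑ |lam d| ≤ z ^ K`,
`∑_{d ∣ n} lam d ≤ 1_{(n, P) = 1}` for every `n` and `∑ lam d / d ≥ (1/2) ∏_{r ∈ P} (1 - 1/r)`.
-/

open Finset

namespace Pool.Agent.Lib.RG

open Pool.Agent.Lib.GT Pool.Agent.Lib.MP_f75418_nt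

variable {z b : ℕ} {P : Finset ℕ}

/-- the families of the Brun-Hooley product -/
noncomputable def fa (z b : ℕ) (P : Finset ℕ) : Finset (Fin (NJ z) → Finset ℕ) :=
  Fintype.piFinset (fun j : Fin (NJ z) => fam z b P j)

/-- the product attached to a family -/
def ee {z : ℕ} (E : Fin (NJ z) → Finset ℕ) : ℕ := ∏ r ∈ un E, r

/-- pointwise expansion -/
theorem expand_pt (hP : ∀ r ∈ P, r.Prime ∧ r ≤ z) (c : Fin (NJ z) → Finset ℕ → ℝ) (n : ℕ) :
    ∏ j : Fin (NJ z), ∑ d ∈ fam z b P j, (c j d * if ∀ r ∈ d, n % r ∈ Om r then 1 else 0) =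
      ∑ E ∈ fa z b P, (∏ j, c j (E j)) * if ee E ∣ n then 1 else 0 := by
  classical
  rw [Finset.prod_univ_sum]
  refine Finset.sum_congr rfl fun E hE => ?_
  rw [Finset.prod_mul_distrib]
  congr 1
  have h3 : (ee E ∣ n) ↔ ∀ j : Fin (NJ z), ∀ r ∈ E j, n % r ∈ Om r := by
    constructor
    · intro h j r hr
      rw [mem_Om]
      exact dvd_trans (Finset.dvd_prod_of_mem _ (mem_biUnion.mpr ⟨j, mem_univ _, hr⟩)) h
    · intro h
      refine Finset.prod_primes_dvd n (fun r hr => (hP r (un_sub E hE hr)).1.prime) fun r hr => ?_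
      obtain ⟨j, -, hj⟩ := mem_biUnion.mp hr
      exact (mem_Om n r).mp (h j r hj)
  by_cases h : ee E ∣ n
  · rw [if_pos h]
    refine Finset.prod_eq_one fun j _ => ?_
    rw [if_pos (h3.mp h j)]
  · rw [if_neg h]
    rw [h3] at h
    push Not at h
    obtain ⟨j, r, hr, hr2⟩ := h
    refine Finset.prod_eq_zero (mem_univ j) ?_
    rw [if_neg]
    intro h4
    exact hr2 (h4 r hr)

/-- expansion of the main term -/
theorem expand_main (c : Fin (NJ z) → Finset ℕ → ℝ) :
    ∏ j : Fin (NJ z), ∑ d ∈ fam z b P j, (c j d * ∏ r ∈ d, ((Om r).card : ℝ) / r) =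
      ∑ E ∈ fa z b P, (∏ j, c j (E j)) * (1 / (ee E : ℝ)) := by
  classical
  rw [Finset.prod_univ_sum]
  refine Finset.sum_congr rfl fun E hE => ?_
  rw [Finset.prod_mul_distrib, ← prod_un E hE (fun r => ((Om r).card : ℝ) / r), prod_Om]
  rfl

/-- coefficient of one family in the `l`-th error term -/
noncomputable def cl (b : ℕ) {z : ℕ} (l : Fin (NJ z)) (j : Fin (NJ z)) (d : Finset ℕ) : ℝ :=
  if j = l then ct b j d else cm b j d

theorem abs_cl_le (l j : Fin (NJ z)) (d : Finset ℕ) : |cl b l j d| ≤ 1 := by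
  unfold cl
  split_ifs
  · exact abs_ct_le b j d
  · exact abs_cm_le b j d

/-- the weight of a family -/
noncomputable def ww (b : ℕ) {z : ℕ} (E : Fin (NJ z) → Finset ℕ) : ℝ :=
  ∏ j : Fin (NJ z), cm b j (E j) - ∑ l : Fin (NJ z), ∏ j : Fin (NJ z), cl b l j (E j)

theorem abs_ww_le (E : Fin (NJ z) → Finset ℕ) : |ww b E| ≤ 1 + NJ z := by
  unfold ww
  refine (abs_sub _ _).trans (add_le_add ?_ ?_)
  · rw [Finset.abs_prod]
    exact Finset.prod_le_one (fun _ _ => abs_nonneg _) (fun j _ => abs_cm_le b j _)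
  · refine (Finset.abs_sum_le_sum_abs _ _).trans ?_
    calc ∑ l : Fin (NJ z), |∏ j, cl b l j (E j)| ≤ ∑ l : Fin (NJ z), (1 : ℝ) := by
          refine Finset.sum_le_sum fun l _ => ?_
          rw [Finset.abs_prod]
          exact Finset.prod_le_one (fun _ _ => abs_nonneg _) (fun j _ => abs_cl_le l j _)
      _ = NJ z := by simp

theorem prod_cl_eq (l : Fin (NJ z)) (f g : Fin (NJ z) → ℝ) :
    ∏ j, (if j = l then f j else g j) = f l * ∏ j ∈ Finset.univ.erase l, g j := by
  classical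
  rw [← Finset.mul_prod_erase Finset.univ _ (Finset.mem_univ l), if_pos rfl]
  congr 1
  refine Finset.prod_congr rfl fun j hj => ?_
  rw [if_neg (Finset.ne_of_mem_erase hj)]

/-- the lower bound function is at most the indicator -/
theorem sum_ww_le (hP : ∀ r ∈ P, r.Prime ∧ r ≤ z) (n : ℕ) :
    ∑ E ∈ fa z b P, ww b E * (if ee E ∣ n then 1 else 0) ≤
      if (∀ r ∈ P, ¬ r ∣ n) then (1 : ℝ) else 0 := by
  classical
  have hU : ∏ j : Fin (NJ z), Uf z b P Om j n =
      ∑ E ∈ fa z b P, (∏ j : Fin (NJ z), cm b j (E j)) * if ee E ∣ n then 1 else 0 :=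
    expand_pt hP (fun j d => cm b j d) n
  have hE : ∀ l : Fin (NJ z), Ef z b P Om l n * ∏ j ∈ Finset.univ.erase l, Uf z b P Om j n =
      ∑ E ∈ fa z b P, (∏ j, cl b l j (E j)) * if ee E ∣ n then 1 else 0 := by
    intro l
    rw [← expand_pt hP (cl b l) n]
    rw [← Finset.mul_prod_erase Finset.univ _ (Finset.mem_univ l)]
    congr 1
    · unfold Ef cl
      simp only [if_true]
    · refine Finset.prod_congr rfl fun j hj => ?_
      have : j ≠ l := Finset.ne_of_mem_erase hj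
      unfold Uf cl
      simp only [if_neg this]
  have h1 : ∑ E ∈ fa z b P, ww b E * (if ee E ∣ n then 1 else 0) =
      ∏ j : Fin (NJ z), Uf z b P Om j n -
        ∑ l : Fin (NJ z), Ef z b P Om l n * ∏ j ∈ Finset.univ.erase l, Uf z b P Om j n := by
    rw [hU]
    simp_rw [hE]
    rw [Finset.sum_comm, ← Finset.sum_sub_distrib]
    refine Finset.sum_congr rfl fun E _ => ?_
    unfold ww
    rw [← Finset.sum_mul]
    ring
  have h2 := prod_sub_le Finset.univ (fun j : Fin (NJ z) => Xf z P Om j n)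
      (fun j : Fin (NJ z) => Uf z b P Om j n) (fun j _ => Xf_nonneg z P Om j n)
      (fun j _ => Xf_le_Uf z b P Om j n)
  have h3 : ∑ l : Fin (NJ z), (Uf z b P Om l n - Xf z P Om l n) *
        ∏ j ∈ Finset.univ.erase l, Uf z b P Om j n ≤
      ∑ l : Fin (NJ z), Ef z b P Om l n * ∏ j ∈ Finset.univ.erase l, Uf z b P Om j n := by
    refine Finset.sum_le_sum fun l _ => ?_
    exact mul_le_mul_of_nonneg_right (Uf_sub_le z b P Om l n)
      (Finset.prod_nonneg fun j _ => Uf_nonneg z b P Om j n)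
  have h4 := prod_Xf hP Om n
  simp only [mem_Om] at h4
  rw [h1, ← h4]
  linarith

/-- the main term of the lower bound function -/
theorem sum_ww_main (hP : ∀ r ∈ P, r.Prime ∧ r ≤ z) (hz : 2 ≤ z) :
    (1 - K₀ * (1 / 2) ^ b) * ∏ r ∈ P, (1 - 1 / (r : ℝ)) ≤
      ∑ E ∈ fa z b P, ww b E * (1 / (ee E : ℝ)) := by
  classical
  have hΩ := Om_ok hP
  have hlev := fun j : Fin (NJ z) => level_all (b := b) hP hz Om hΩ j
  have hT : ∏ j : Fin (NJ z), Tj z b P Om j =
      ∑ E ∈ fa z b P, (∏ j : Fin (NJ z), cm b j (E j)) * (1 / (ee E : ℝ)) :=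
    expand_main (fun j d => cm b j d)
  have hE : ∀ l : Fin (NJ z), ej z b P Om l * ∏ j ∈ Finset.univ.erase l, Tj z b P Om j =
      ∑ E ∈ fa z b P, (∏ j, cl b l j (E j)) * (1 / (ee E : ℝ)) := by
    intro l
    rw [← expand_main (cl b l)]
    rw [← Finset.mul_prod_erase Finset.univ _ (Finset.mem_univ l)]
    congr 1
    · unfold ej cl
      simp only [if_true]
    · refine Finset.prod_congr rfl fun j hj => ?_
      have : j ≠ l := Finset.ne_of_mem_erase hj
      unfold Tj cl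
      simp only [if_neg this]
  have h1 : ∑ E ∈ fa z b P, ww b E * (1 / (ee E : ℝ)) =
      ∏ j : Fin (NJ z), Tj z b P Om j -
        ∑ l : Fin (NJ z), ej z b P Om l * ∏ j ∈ Finset.univ.erase l, Tj z b P Om j := by
    rw [hT]
    simp_rw [hE]
    rw [Finset.sum_comm, ← Finset.sum_sub_distrib]
    refine Finset.sum_congr rfl fun E _ => ?_
    unfold ww
    rw [← Finset.sum_mul]
    ring
  have hprod : ∏ r ∈ P, (1 - 1 / (r : ℝ)) = ∏ j : Fin (NJ z), Vj z P Om j := by
    have h := prod_PJ hP (fun r => 1 - ((Om r).card : ℝ) / r)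
    have hcard : ∀ r : ℕ, ((Om r).card : ℝ) = 1 := fun r => by simp [Om]
    simp only [hcard] at h
    rw [h]
    refine Finset.prod_congr rfl fun j _ => ?_
    unfold Vj
    simp only [hcard]
  have h5 : ∏ j : Fin (NJ z), Vj z P Om j ≤ ∏ j : Fin (NJ z), Tj z b P Om j :=
    Finset.prod_le_prod (fun j _ => (hlev j).1.le) fun j _ => (hlev j).2.1
  have h3 : ∀ l : Fin (NJ z), ej z b P Om l * ∏ j ∈ Finset.univ.erase l, Tj z b P Om j ≤
      ηj b l * (Real.exp κ₀ * ∏ j : Fin (NJ z), Vj z P Om j) := by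
    intro l
    calc ej z b P Om l * ∏ j ∈ Finset.univ.erase l, Tj z b P Om j
        ≤ (Vj z P Om l * ηj b l) * ∏ j ∈ Finset.univ.erase l, (Vj z P Om j * (1 + ηj b j)) := by
          refine mul_le_mul (hlev l).2.2.2.1 ?_ ?_ ?_
          · exact Finset.prod_le_prod (fun j _ => (hlev j).1.le.trans (hlev j).2.1)
              fun j _ => (hlev j).2.2.1
          · exact Finset.prod_nonneg fun j _ => (hlev j).1.le.trans (hlev j).2.1
          · exact mul_nonneg (hlev l).1.le (ηj_nonneg b l)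
      _ = (Vj z P Om l * ηj b l) * ((∏ j ∈ Finset.univ.erase l, Vj z P Om j) *
            ∏ j ∈ Finset.univ.erase l, (1 + ηj b j)) := by rw [Finset.prod_mul_distrib]
      _ ≤ (Vj z P Om l * ηj b l) * ((∏ j ∈ Finset.univ.erase l, Vj z P Om j) * Real.exp κ₀) := by
          refine mul_le_mul_of_nonneg_left ?_ (mul_nonneg (hlev l).1.le (ηj_nonneg b l))
          refine mul_le_mul_of_nonneg_left ?_ (Finset.prod_nonneg fun j _ => (hlev j).1.le)
          calc ∏ j ∈ Finset.univ.erase l, (1 + ηj b j)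
              ≤ ∏ j ∈ Finset.univ.erase l, Real.exp (ηj b j) := by
                refine Finset.prod_le_prod (fun j _ => by have := ηj_nonneg b j; linarith)
                  fun j _ => ?_
                have := Real.add_one_le_exp (ηj b j)
                linarith
            _ = Real.exp (∑ j ∈ Finset.univ.erase l, ηj b j) := (Real.exp_sum _ _).symm
            _ ≤ Real.exp κ₀ := by
                refine Real.exp_le_exp.mpr ?_
                refine (Finset.sum_le_sum_of_subset_of_nonneg (Finset.erase_subset l Finset.univ)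
                  (fun j _ _ => ηj_nonneg b j)).trans ?_
                refine (sum_ηj_le b (NJ z)).trans ?_
                have : (1 / 2 : ℝ) ^ b ≤ 1 := pow_le_one₀ (by norm_num) (by norm_num)
                have h5 := κ₀_pos
                nlinarith
      _ = ηj b l * (Real.exp κ₀ * (Vj z P Om l * ∏ j ∈ Finset.univ.erase l, Vj z P Om j)) := by ring
      _ = _ := by
          rw [Finset.mul_prod_erase Finset.univ (fun j : Fin (NJ z) => Vj z P Om j) (Finset.mem_univ l)]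
  have hV0 : 0 ≤ ∏ j : Fin (NJ z), Vj z P Om j := Finset.prod_nonneg fun j _ => (hlev j).1.le
  have h6 : ∑ l : Fin (NJ z), ej z b P Om l * ∏ j ∈ Finset.univ.erase l, Tj z b P Om j ≤
      K₀ * (1 / 2) ^ b * ∏ j : Fin (NJ z), Vj z P Om j := by
    refine (Finset.sum_le_sum fun l _ => h3 l).trans ?_
    rw [← Finset.sum_mul]
    have h7 := mul_le_mul_of_nonneg_right (sum_ηj_le b (NJ z))
      (mul_nonneg (Real.exp_pos κ₀).le hV0)
    refine h7.trans (le_of_eq ?_)
    unfold K₀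
    ring
  rw [h1, hprod]
  linarith

/-- the family is determined by its product -/
theorem ee_inj (hP : ∀ r ∈ P, r.Prime ∧ r ≤ z) : Set.InjOn (ee : (Fin (NJ z) → Finset ℕ) → ℕ) (fa z b P) := by
  classical
  intro D hD D' hD' h
  rw [mem_coe] at hD hD'
  have hun : ∀ E : Fin (NJ z) → Finset ℕ, E ∈ fa z b P → (∏ r ∈ un E, r).primeFactors = un E :=
    fun E hE => Nat.primeFactors_prod fun r hr => (hP r (un_sub E hE hr)).1
  have h2 : un D = un D' := by
    have h' : ∏ r ∈ un D, r = ∏ r ∈ un D', r := h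
    rw [← hun D hD, ← hun D' hD', h']
  funext j
  have key : ∀ E : Fin (NJ z) → Finset ℕ, E ∈ fa z b P →
      E j = (un E).filter (fun r => lev z r = (j : ℕ)) := by
    intro E hE
    ext r
    rw [mem_filter, un, mem_biUnion]
    constructor
    · intro hr
      exact ⟨⟨j, mem_univ _, hr⟩, (mem_filter.mp (mem_fam_sub (Fintype.mem_piFinset.mp hE j) hr)).2⟩
    · rintro ⟨⟨i, -, hi⟩, hr⟩
      have h3 := (mem_filter.mp (mem_fam_sub (Fintype.mem_piFinset.mp hE i) hi)).2
      have h4 : i = j := Fin.ext (h3.symm.trans hr)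
      rwa [h4] at hi
  rw [key D hD, key D' hD', h2]

theorem NJ_le_log (z : ℕ) (hz : 2 ≤ z) : (1 : ℝ) + NJ z ≤ 2 + 2 * Real.log z := by
  have h1 : Nat.log 2 (Nat.log 2 z) ≤ Nat.log 2 z := Nat.log_le_self _ _
  have h2 : NJ z ≤ Nat.log 2 z + 1 := by unfold NJ; omega
  have h3 : (NJ z : ℝ) ≤ (Nat.log 2 z : ℝ) + 1 := by exact_mod_cast h2
  have h4 : 2 ^ Nat.log 2 z ≤ z := Nat.pow_log_le_self 2 (by omega)
  have h5 : ((2 : ℝ)) ^ Nat.log 2 z ≤ z := by exact_mod_cast h4
  have h6 := Real.log_le_log (by positivity) h5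
  rw [Real.log_pow] at h6
  have h7 := Real.log_two_gt_d9
  have h8 : (0 : ℝ) ≤ (Nat.log 2 z : ℝ) := Nat.cast_nonneg _
  nlinarith

/-- **Lower bound sieve weights of dimension one.** -/
theorem lower_weights2 : ∃ K : ℕ, 1 ≤ K ∧ ∀ z : ℕ, 2 ≤ z → ∀ P : Finset ℕ,
    (∀ r ∈ P, r.Prime ∧ r ≤ z) → ∃ (D : Finset ℕ) (lam : ℕ → ℝ),
      (∀ d ∈ D, 1 ≤ d ∧ d ≤ z ^ K ∧ Squarefree d ∧ ∀ p, p.Prime → p ∣ d → p ∈ P) ∧
      (∀ d : ℕ, |lam d| ≤ 2 + 2 * Real.log z) ∧
      (∑ d ∈ D, |lam d| ≤ (z : ℝ) ^ K) ∧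
      (∀ n : ℕ, ∑ d ∈ D with d ∣ n, lam d ≤ if (∀ r ∈ P, ¬ r ∣ n) then (1 : ℝ) else 0) ∧
      (1 / 2) * ∏ r ∈ P, (1 - 1 / (r : ℝ)) ≤ ∑ d ∈ D, lam d / d := by
  classical
  have hlim : Filter.Tendsto (fun b : ℕ => K₀ * (1 / 2 : ℝ) ^ b) Filter.atTop (nhds (K₀ * 0)) :=
    (tendsto_pow_atTop_nhds_zero_of_lt_one (by norm_num) (by norm_num)).const_mul _
  rw [mul_zero] at hlim
  obtain ⟨b, hb, hb1⟩ : ∃ b : ℕ, K₀ * (1 / 2 : ℝ) ^ b ≤ 1 / 2 ∧ 1 ≤ b := by
    have h1 := (hlim.eventually (Iic_mem_nhds (by norm_num : (0 : ℝ) < 1 / 2))).and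
      (Filter.eventually_ge_atTop 1)
    exact h1.exists
  refine ⟨12 * b + 2, by omega, ?_⟩
  intro z hz P hP
  set lam : ℕ → ℝ := fun d => ∑ E ∈ fa z b P with ee E = d, ww b E with hlam
  have hzr : (1 : ℝ) ≤ z := by exact_mod_cast (by omega : 1 ≤ z)
  have push : ∀ g : ℕ → ℝ, ∑ d ∈ (fa z b P).image ee, lam d * g d =
      ∑ E ∈ fa z b P, ww b E * g (ee E) := by
    intro g
    rw [← Finset.sum_fiberwise_of_maps_to (s := fa z b P) (t := (fa z b P).image ee) (g := ee)
      (fun E hE => Finset.mem_image_of_mem _ hE)]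
    refine Finset.sum_congr rfl fun d _ => ?_
    rw [hlam, Finset.sum_mul]
    refine Finset.sum_congr rfl fun E hE => ?_
    rw [(mem_filter.mp hE).2]
  refine ⟨(fa z b P).image ee, lam, ?_, ?_, ?_, ?_, ?_⟩
  · intro d hd
    rw [mem_image] at hd
    obtain ⟨E, hE, rfl⟩ := hd
    have hpf : (ee E).primeFactors = un E :=
      Nat.primeFactors_prod fun r hr => (hP r (un_sub E hE hr)).1
    have hpos : 0 < ee E := Finset.prod_pos fun r hr => (hP r (un_sub E hE hr)).1.pos
    refine ⟨hpos, ?_, ?_, ?_⟩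
    · have h1 := prod_un_le hP hz hb1 E hE
      have h2 : ee E ≤ z ^ (12 * b) := by exact_mod_cast h1
      exact h2.trans (Nat.pow_le_pow_right (by omega) (by omega))
    · unfold ee
      refine Finset.squarefree_prod_of_pairwise_isCoprime ?_ fun r hr =>
        (hP r (un_sub E hE hr)).1.prime.squarefree
      intro r hr r' hr' hrr
      have h1 := (Nat.coprime_primes (hP r (un_sub E hE hr)).1 (hP r' (un_sub E hE hr')).1).mpr hrr
      exact Nat.coprime_iff_isRelPrime.mp h1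
    · intro p hp hpd
      have : p ∈ (ee E).primeFactors := Nat.mem_primeFactors.mpr ⟨hp, hpd, hpos.ne'⟩
      rw [hpf] at this
      exact un_sub E hE this
  · intro d
    refine le_trans ?_ (NJ_le_log z hz)
    show |∑ E ∈ fa z b P with ee E = d, ww b E| ≤ 1 + NJ z
    by_cases hd : ∃ E ∈ fa z b P, ee E = d
    · obtain ⟨E, hE, rfl⟩ := hd
      have h1 : (fa z b P).filter (fun E' => ee E' = ee E) = {E} := by
        ext E'
        rw [mem_filter, mem_singleton]
        constructor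
        · rintro ⟨h2, h3⟩
          exact ee_inj hP (mem_coe.mpr h2) (mem_coe.mpr hE) h3
        · rintro rfl
          exact ⟨hE, rfl⟩
      rw [h1, sum_singleton]
      exact abs_ww_le E
    · have h1 : (fa z b P).filter (fun E' => ee E' = d) = ∅ := by
        rw [Finset.filter_eq_empty_iff]
        intro E' hE' h2
        exact hd ⟨E', hE', h2⟩
      rw [h1, sum_empty, abs_zero]
      positivity
  · have h1 : ∑ d ∈ (fa z b P).image ee, |lam d| ≤ ∑ E ∈ fa z b P, |ww b E| := by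
      rw [← Finset.sum_fiberwise_of_maps_to (s := fa z b P) (t := (fa z b P).image ee) (g := ee)
        (fun E hE => Finset.mem_image_of_mem _ hE)]
      exact Finset.sum_le_sum fun d _ => Finset.abs_sum_le_sum_abs _ _
    refine h1.trans ?_
    refine (Finset.sum_le_sum fun E _ => abs_ww_le E).trans ?_
    rw [Finset.sum_const, nsmul_eq_mul]
    have h2 := card_pi_le hP hz hb1
    have h3 := NJ_le z hz
    rw [pow_add]
    refine mul_le_mul h2 (by linarith) (by positivity) (by positivity)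
  · intro n
    have h1 := push (fun d => if d ∣ n then 1 else 0)
    have h2 : ∑ d ∈ (fa z b P).image ee with d ∣ n, lam d =
        ∑ d ∈ (fa z b P).image ee, lam d * (if d ∣ n then 1 else 0) := by
      rw [Finset.sum_filter]
      refine Finset.sum_congr rfl fun d _ => ?_
      split_ifs <;> simp
    rw [h2, h1]
    exact sum_ww_le hP n
  · have h1 := push (fun d => 1 / (d : ℝ))
    have h2 : ∑ d ∈ (fa z b P).image ee, lam d / d =
        ∑ d ∈ (fa z b P).image ee, lam d * (1 / (d : ℝ)) := by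
      refine Finset.sum_congr rfl fun d _ => ?_
      ring
    rw [h2, h1]
    refine le_trans ?_ (sum_ww_main hP hz)
    refine mul_le_mul_of_nonneg_right (by linarith) ?_
    refine Finset.prod_nonneg fun r hr => ?_
    have hr1 : (1 : ℝ) ≤ r := by exact_mod_cast (hP r hr).1.one_le
    rw [sub_nonneg, div_le_one (by linarith)]
    exact hr1

theorem lower_weights : ∃ K : ℕ, 1 ≤ K ∧ ∀ z : ℕ, 2 ≤ z → ∀ P : Finset ℕ,
    (∀ r ∈ P, r.Prime ∧ r ≤ z) → ∃ (D : Finset ℕ) (lam : ℕ → ℝ),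
      (∀ d ∈ D, 1 ≤ d ∧ d ≤ z ^ K ∧ Squarefree d ∧ ∀ p, p.Prime → p ∣ d → p ∈ P) ∧
      (∑ d ∈ D, |lam d| ≤ (z : ℝ) ^ K) ∧
      (∀ n : ℕ, ∑ d ∈ D with d ∣ n, lam d ≤ if (∀ r ∈ P, ¬ r ∣ n) then (1 : ℝ) else 0) ∧
      (1 / 2) * ∏ r ∈ P, (1 - 1 / (r : ℝ)) ≤ ∑ d ∈ D, lam d / d := by
  obtain ⟨K, hK, h⟩ := lower_weights2
  refine ⟨K, hK, fun z hz P hP => ?_⟩
  obtain ⟨D, lam, h1, -, h3, h4, h5⟩ := h z hz P hP
  exact ⟨D, lam, h1, h3, h4, h5⟩

end Pool.Agent.Lib.RG
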