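import Pool.Agent.Lib.MP_7b7e48_nt.RG.Defs
import Pool.Agent.Lib.MP_7b7e48_nt.RG.SL
import Pool.Agent.Lib.MP_7b7e48_nt.RG.NOS

/-!
# Module A6 (75 minutes): the mean value inequality

PROOF. `SL.lower_weights` for `z` and `P = PN N z` and `NOS.nearOrthS`.
-/

open Finset

namespace Pool.Agent.Lib.RG

theorem coprime_count_nat (N w : ℕ) (hN : 1 ≤ N) :
    |(((Finset.Icc 1 w).filter fun m => m.Coprime N).card : ℝ) - (N.totient : ℝ) / N * w| ≤
      N.divisors.card := by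
  have h := coprime_count N hN (w : ℝ) (Nat.cast_nonneg w)
  rw [Nat.floor_natCast, mul_comm (w : ℝ)] at h
  exact h

theorem meanval : ∃ K : ℕ, 1 ≤ K ∧ ∀ (N : ℕ) [NeZero N] (z y : ℕ), 2 ≤ N → 2 ≤ z →
    ∀ (X : Finset (DirichletCharacter ℂ N)) (c : DirichletCharacter ℂ N → ℂ),
    (∑ χ ∈ X, ‖c χ‖ ^ 2) * ((1 / 2) * ((N.totient : ℝ) / N) * y * ∏ p ∈ PN N z, (1 - 1 / (p : ℝ)) -
      (z : ℝ) ^ K * (2 * N.divisors.card + X.card * PB N)) ≤
    ∑ n ∈ RN N z y, ‖∑ χ ∈ X, c χ * χ (n : ZMod N)‖ ^ 2 := by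
  classical
  obtain ⟨K, hK, hw⟩ := lower_weights
  refine ⟨K, hK, ?_⟩
  intro N _ z y hN hz X c
  have hP : ∀ r ∈ PN N z, r.Prime ∧ r ≤ z := by
    intro r hr
    obtain ⟨h1, h2, -⟩ := mem_filter.mp hr
    exact ⟨h2, by have := mem_range.mp h1; omega⟩
  obtain ⟨D, lam, hD, hlam, hle, hmain⟩ := hw z hz (PN N z) hP
  have hDc : ∀ d ∈ D, 1 ≤ d ∧ Nat.Coprime d N := by
    intro d hd
    obtain ⟨h1, -, -, h4⟩ := hD d hd
    refine ⟨h1, Nat.coprime_of_dvd fun p hp hpd hpN => ?_⟩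
    exact (mem_filter.mp (h4 p hp hpd)).2.2 hpN
  have hno := nearOrthS hN D lam hDc X c y
  set S : ℝ := ∑ χ ∈ X, ‖c χ‖ ^ 2 with hS
  have hS0 : 0 ≤ S := sum_nonneg fun _ _ => by positivity
  set T : ℕ → ℝ := fun n => ‖∑ χ ∈ X, c χ * χ (n : ZMod N)‖ ^ 2 with hT
  have hT0 : ∀ n, 0 ≤ T n := fun n => by rw [hT]; positivity
  have hTz : ∀ n : ℕ, ¬ n.Coprime N → T n = 0 := by
    intro n hn
    rw [hT]
    have h1 : ∑ χ ∈ X, c χ * χ (n : ZMod N) = 0 := by
      refine sum_eq_zero fun χ _ => ?_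
      rw [MulChar.map_nonunit χ (fun h3 => hn ((ZMod.isUnit_iff_coprime n N).mp h3)), mul_zero]
    simp only [h1]
    norm_num
  -- the sieve function is at most the indicator
  have h1 : ∑ n ∈ Icc 1 y, (∑ d ∈ D with d ∣ n, lam d) * T n ≤ ∑ n ∈ RN N z y, T n := by
    unfold RN
    rw [Finset.sum_filter]
    refine sum_le_sum fun n _ => ?_
    by_cases hc : n.Coprime N
    · have h2 := hle n
      by_cases hr : Rough z n
      · rw [if_pos ⟨hr, hc⟩]
        have h3 : (if (∀ r ∈ PN N z, ¬ r ∣ n) then (1 : ℝ) else 0) ≤ 1 := by split_ifs <;> norm_num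
        calc (∑ d ∈ D with d ∣ n, lam d) * T n ≤ 1 * T n :=
              mul_le_mul_of_nonneg_right (h2.trans h3) (hT0 n)
          _ = T n := one_mul _
      · rw [if_neg (fun h => hr h.1)]
        have h3 : ¬ (∀ r ∈ PN N z, ¬ r ∣ n) := by
          intro h4
          apply hr
          intro p hp hpn
          by_contra h5
          refine h4 p (mem_filter.mpr ⟨mem_range.mpr (by omega), hp, ?_⟩) hpn
          intro hpN
          have h6 := Nat.dvd_gcd hpn hpN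
          rw [hc] at h6
          exact hp.one_lt.ne' (Nat.dvd_one.mp h6)
        rw [if_neg h3] at h2
        exact mul_nonpos_of_nonpos_of_nonneg h2 (hT0 n)
    · rw [hTz n hc, mul_zero]
      split_ifs <;> norm_num
  refine le_trans ?_ h1
  rw [abs_le] at hno
  have h2 := hno.1
  -- main term
  have hφ : 0 ≤ (N.totient : ℝ) / N := by positivity
  have h3 : (1 / 2) * ((N.totient : ℝ) / N) * y * ∏ p ∈ PN N z, (1 - 1 / (p : ℝ)) ≤
      y * ((N.totient : ℝ) / N) * ∑ d ∈ D, lam d / d := by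
    have h4 := mul_le_mul_of_nonneg_left hmain (show (0 : ℝ) ≤ y * ((N.totient : ℝ) / N) by positivity)
    refine le_trans (le_of_eq ?_) h4
    ring
  have hPB : 0 ≤ PB N := by
    unfold PB
    have : 0 ≤ Real.log N := Real.log_natCast_nonneg N
    positivity
  have h5 : (∑ d ∈ D, |lam d|) * (((N.divisors.card : ℝ) + X.card * PB N) * S) ≤
      (z : ℝ) ^ K * ((2 * N.divisors.card + X.card * PB N) * S) := by
    have h6 : 0 ≤ (N.divisors.card : ℝ) := Nat.cast_nonneg _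
    have h7 : 0 ≤ (X.card : ℝ) * PB N := by positivity
    refine mul_le_mul hlam ?_ ?_ (by positivity)
    · refine mul_le_mul_of_nonneg_right ?_ hS0
      linarith
    · positivity
  have h8 := mul_le_mul_of_nonneg_right h3 hS0
  have h9 : S * ((1 / 2) * ((N.totient : ℝ) / N) * y * ∏ p ∈ PN N z, (1 - 1 / (p : ℝ)) -
      (z : ℝ) ^ K * (2 * N.divisors.card + X.card * PB N)) =
      (1 / 2) * ((N.totient : ℝ) / N) * y * (∏ p ∈ PN N z, (1 - 1 / (p : ℝ))) * S -
      (z : ℝ) ^ K * ((2 * N.divisors.card + X.card * PB N) * S) := by ring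
  rw [h9]
  linarith

end Pool.Agent.Lib.RG
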