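import Pool.Agent.Lib.MP_7b7e48_nt.RG.NUM

/-!
# Module BAS: basic facts
-/

open Finset
open Pool.Agent.Lib.MP_45349e_nt.LS (lam)

namespace Pool.Agent.Lib.RH

open Pool.Agent.Lib.RG hiding RR sig Good

variable {P : Prm} {N : ℕ}

theorem smc_mul {a b : ℕ} (ha : 0 < a) (hb : 0 < b) : smc P N (a * b) = smc P N a + smc P N b := by
  unfold smc
  rw [← List.countP_eq_length_filter, ← List.countP_eq_length_filter, ← List.countP_eq_length_filter,
    ← List.countP_append]
  exact (Nat.perm_primeFactorsList_mul ha.ne' hb.ne').countP_eq _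

theorem smc_prime_le {l : ℕ} (hl : l.Prime) : smc P N l ≤ 1 := by
  unfold smc
  rw [Nat.primeFactorsList_prime hl]
  exact (List.length_filter_le _ _).trans (by simp)

theorem smc_prime_big {l : ℕ} (hl : l.Prime) (h : zz P N < l) : smc P N l = 0 := by
  unfold smc
  rw [Nat.primeFactorsList_prime hl]
  simp [h]

theorem smc_rough {a : ℕ} (h : Rough (zz P N) a) (ha : 0 < a) : smc P N a = 0 := by
  unfold smc
  rw [List.length_eq_zero_iff, List.filter_eq_nil_iff]
  intro p hp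
  have h1 := (Nat.mem_primeFactorsList ha.ne').mp hp
  have h2 := h p h1.1 h1.2
  simpa using h2

theorem MM_le_zz (hn : Num P N) : 16 * MM P N ^ 4 ≤ zz P N := by
  have hK : (10 : ℝ) ^ 9 ≤ Real.log N := hn.K
  have hK1 : (1 : ℝ) ≤ Real.log N := le_trans (by norm_num) hK
  have h1 : (16 : ℝ) * (MM P N : ℝ) ^ 4 ≤ zz P N := by
    calc (16 : ℝ) * (MM P N : ℝ) ^ 4 ≤ 16 * (2 * (Real.log N) ^ P.C1) ^ 4 := by
          have := hn.M2
          gcongr
      _ = 256 * (Real.log N) ^ (P.C1 * 4) := by rw [mul_pow, ← pow_mul]; ring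
      _ ≤ (Real.log N) ^ 1 * (Real.log N) ^ (P.C1 * 4) := by
          gcongr
          rw [pow_one]
          linarith
      _ = (Real.log N) ^ (1 + P.C1 * 4) := by rw [pow_add]
      _ ≤ (Real.log N) ^ (100 * P.C1 + 10000) := pow_le_pow_right₀ hK1 (by omega)
      _ ≤ zz P N := hn.z5
  exact_mod_cast h1

theorem MM_lt_zz (hn : Num P N) : MM P N < zz P N := by
  have h := MM_le_zz hn
  have h1 : 1 ≤ MM P N := Nat.one_le_two_pow
  have h2 : MM P N ≤ MM P N ^ 4 := Nat.le_self_pow (by norm_num) _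
  omega

theorem JJ_le_zz (hn : Num P N) : JJ N ≤ zz P N := by
  have hK : (10 : ℝ) ^ 9 ≤ Real.log N := hn.K
  have hK1 : (1 : ℝ) ≤ Real.log N := le_trans (by norm_num) hK
  have h1 : (JJ N : ℝ) ≤ zz P N := by
    calc (JJ N : ℝ) ≤ 2 * (Real.log N) ^ 1000 := hn.J2
      _ ≤ (Real.log N) ^ 1 * (Real.log N) ^ 1000 := by
          gcongr
          rw [pow_one]
          linarith
      _ = (Real.log N) ^ (1 + 1000) := by rw [pow_add]
      _ ≤ (Real.log N) ^ (100 * P.C1 + 10000) := pow_le_pow_right₀ hK1 (by omega)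
      _ ≤ zz P N := hn.z5
  exact_mod_cast h1

theorem N_pos (hn : Num P N) : 2 ≤ N := by
  by_contra h
  have h1 : N = 0 ∨ N = 1 := by omega
  have h2 := hn.K
  rcases h1 with h1 | h1 <;> rw [h1] at h2 <;> norm_num at h2

theorem rgh_ww (hn : Num P N) {a : ℕ} (h : Rgh P N a) : WW P N 0 a :=
  ⟨h.1, h.2.1, fun p hp hd => (MM_lt_zz hn).trans (h.2.2 p hp hd),
    (smc_rough h.2.2 (by have := h.1; omega)).le⟩

theorem ww_mono {r r' a : ℕ} (h : r ≤ r') (ha : WW P N r a) : WW P N r' a :=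
  ⟨ha.1, ha.2.1, ha.2.2.1, ha.2.2.2.trans h⟩

theorem ww_mul_prime {r a l : ℕ} (hl : l.Prime) (hM : MM P N < l) (hN : ¬ l ∣ N) (ha : WW P N r a) :
    WW P N (r + 1) (l * a) := by
  have ha1 := ha.1
  have hl2 := hl.two_le
  refine ⟨by nlinarith, Nat.Coprime.mul_left ((Nat.Prime.coprime_iff_not_dvd hl).mpr hN) ha.2.1, ?_, ?_⟩
  · intro p hp hd
    rcases (Nat.Prime.dvd_mul hp).mp hd with h | h
    · rw [(Nat.prime_dvd_prime_iff_eq hp hl).mp h]
      exact hM
    · exact ha.2.2.1 p hp h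
  · rw [smc_mul (by omega) (by omega)]
    have h1 := smc_prime_le (P := P) (N := N) hl
    have h2 := ha.2.2.2
    omega

theorem ww_prime {l : ℕ} (hl : l.Prime) (hM : MM P N < l) (hN : ¬ l ∣ N) : WW P N 1 l := by
  refine ⟨hl.one_lt, (Nat.Prime.coprime_iff_not_dvd hl).mpr hN, ?_, smc_prime_le hl⟩
  intro p hp hd
  rw [(Nat.prime_dvd_prime_iff_eq hp hl).mp hd]
  exact hM

theorem mem_RR {x : ZMod N} {a : ℕ} :
    a ∈ RR P N x ↔ a < JJ N * N ∧ (a : ZMod N) = x ∧ Rgh P N a := by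
  classical
  unfold RR
  rw [mem_filter, mem_range]

theorem lam_pm (a : ℕ) : lam a = 1 ∨ lam a = -1 := by
  unfold lam
  exact neg_one_pow_eq_or ℝ _

theorem lam_mul_prime {l a : ℕ} (hl : l.Prime) (ha : 0 < a) : lam (l * a) = -lam a := by
  rw [Pool.Agent.Lib.MP_45349e_nt.LS.lam_mul l a hl.ne_zero ha.ne',
    Pool.Agent.Lib.MP_45349e_nt.LS.lam_prime l hl]
  ring

theorem unit_of_coprime {a : ℕ} (h : a.Coprime N) : IsUnit (a : ZMod N) :=
  (ZMod.isUnit_iff_coprime a N).mpr h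

theorem chi_pm {χ : DirichletCharacter ℂ N} (h : χ ^ 2 = 1) {x : ZMod N} (hx : IsUnit x) :
    χ x = 1 ∨ χ x = -1 := by
  have h1 : (χ x) ^ 2 = 1 := by
    rw [← MulChar.pow_apply' χ two_ne_zero, h, MulChar.one_apply hx]
  exact sq_eq_one_iff.mp h1

theorem DA_mul {χ : DirichletCharacter ℂ N} {l a : ℕ} (hl : l.Prime) (h : χ (l : ZMod N) = -1)
    (ha : 0 < a) : DA χ (l * a) ↔ DA χ a := by
  unfold DA
  rw [lam_mul_prime hl ha, Nat.cast_mul, map_mul, h]
  push_cast
  rw [neg_one_mul, Ne, Ne, neg_inj]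

/-- `a` is a product of primes with `χ = ±1`; if `DA χ a` one of them has `χ = 1` -/
theorem DA_prime {χ : DirichletCharacter ℂ N} (h : χ ^ 2 = 1) {a : ℕ} (ha : 0 < a) (hc : a.Coprime N)
    (hD : DA χ a) : ∃ q : ℕ, q.Prime ∧ q ∣ a ∧ χ (q : ZMod N) = 1 := by
  by_contra hcon
  push Not at hcon
  apply hD
  have key : ∀ n : ℕ, 0 < n → n.Coprime N → (∀ q : ℕ, q.Prime → q ∣ n → χ (q : ZMod N) ≠ 1) →
      (lam n : ℂ) = χ (n : ZMod N) := by
    intro n
    induction n using Nat.recOnMul with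
    | zero => intro h0; omega
    | one =>
      intro _ _ _
      rw [Pool.Agent.Lib.MP_45349e_nt.LS.lam_one]
      simp
    | prime p hp =>
      intro _ hc hq
      rw [Pool.Agent.Lib.MP_45349e_nt.LS.lam_prime p hp]
      have h1 := chi_pm h (unit_of_coprime hc)
      rcases h1 with h1 | h1
      · exact absurd h1 (hq p hp dvd_rfl)
      · rw [h1]; push_cast; rfl
    | mul a b iha ihb =>
      intro h0 hc hq
      have ha0 : 0 < a := Nat.pos_of_mul_pos_right h0 |> fun _ => by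
        rcases Nat.eq_zero_or_pos a with h | h
        · subst h; simp at h0
        · exact h
      have hb0 : 0 < b := by
        rcases Nat.eq_zero_or_pos b with h | h
        · subst h; simp at h0
        · exact h
      rw [Pool.Agent.Lib.MP_45349e_nt.LS.lam_mul a b ha0.ne' hb0.ne', Nat.cast_mul, map_mul]
      push_cast
      rw [iha ha0 (Nat.Coprime.coprime_dvd_left (Dvd.intro b rfl) hc)
          (fun q hq1 hq2 => hq q hq1 (hq2.trans (Dvd.intro b rfl))),
        ihb hb0 (Nat.Coprime.coprime_dvd_left (Dvd.intro_left a rfl) hc)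
          (fun q hq1 hq2 => hq q hq1 (hq2.trans (Dvd.intro_left a rfl)))]
  exact key a ha hc hcon

theorem DA_HQ {χ : DirichletCharacter ℂ N} (h : χ ^ 2 = 1) {a : ℕ} (ha : 0 < a) (hc : a.Coprime N)
    (hr : Rough (zz P N) a) (hD : DA χ a) : HQ P χ a := by
  obtain ⟨q, hq, hd, hx⟩ := DA_prime h ha hc hD
  exact ⟨q, hq, hr q hq hd, hd, hx⟩

theorem good_card (hn : Num P N) {x : ZMod N} (hx : IsUnit x) (hg : Good P N x) :
    (JJ N : ℝ) / (2 * (Real.log N) ^ 2) ≤ (RR P N x).card := by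
  have hN := N_pos hn
  have hK : (10 : ℝ) ^ 9 ≤ Real.log N := hn.K
  have hK1 : (1 : ℝ) ≤ Real.log N := le_trans (by norm_num) hK
  classical
  have hsub : RG.RR N (zz P N) (JJ N * N) x ⊆ insert 1 (RR P N x) := by
    intro a ha
    unfold RG.RR at ha
    rw [mem_filter, mem_Icc] at ha
    obtain ⟨⟨h1, h2⟩, h3, h4⟩ := ha
    rw [mem_insert]
    by_cases h5 : a = 1
    · exact Or.inl h5
    right
    have hc : a.Coprime N := by
      rw [← ZMod.isUnit_iff_coprime, h3]
      exact hx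
    rw [mem_RR]
    refine ⟨lt_of_le_of_ne h2 ?_, h3, by omega, hc, h4⟩
    rintro rfl
    have h6 : N ∣ JJ N * N := Dvd.intro_left _ rfl
    have h7 := Nat.Coprime.eq_one_of_dvd hc.symm h6
    omega
  have h1 : ((RG.RR N (zz P N) (JJ N * N) x).card : ℝ) ≤ (RR P N x).card + 1 := by
    exact_mod_cast (card_le_card hsub).trans (card_insert_le _ _)
  have h2 : (JJ N : ℝ) ≤ (Real.log N) ^ 2 * ((RG.RR N (zz P N) (JJ N * N) x).card : ℝ) := hg
  have hJ : (Real.log N) ^ 1000 ≤ JJ N := hn.J1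
  have h3 : 2 * (Real.log N) ^ 2 ≤ JJ N := by
    calc 2 * (Real.log N) ^ 2 ≤ (Real.log N) ^ 1 * (Real.log N) ^ 2 := by
          gcongr
          rw [pow_one]
          linarith
      _ = (Real.log N) ^ 3 := by rw [← pow_add]
      _ ≤ (Real.log N) ^ 1000 := pow_le_pow_right₀ hK1 (by norm_num)
      _ ≤ _ := hJ
  have hK2 : 0 < (Real.log N) ^ 2 := by positivity
  rw [div_le_iff₀ (by positivity)]
  nlinarith

theorem zero_sum {a b A : ℕ} (h : (a : ZMod N) + (b : ZMod N) = 0) (hA : a + b ≤ A * N) (hN : 0 < N) :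
    ∃ k : ℕ, a + b = k * N ∧ k ≤ A := by
  have h1 : ((a + b : ℕ) : ZMod N) = 0 := by
    push_cast
    exact h
  rw [ZMod.natCast_eq_zero_iff] at h1
  obtain ⟨k, hk⟩ := h1
  refine ⟨k, by rw [hk, mul_comm], ?_⟩
  rw [hk, mul_comm] at hA
  exact Nat.le_of_mul_le_mul_right hA hN

theorem omega_le (hP : P.Ok) (hn : Num P N) {r a : ℕ} (ha : WW P N r a) (h : a ≤ N ^ 2) :
    (ArithmeticFunction.cardFactors a : ℝ) ≤ r + 4 / P.c := by
  have hK : (10 : ℝ) ^ 9 ≤ Real.log N := hn.K
  have hK0 : (0 : ℝ) < Real.log N := lt_of_lt_of_le (by norm_num) hK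
  have ha0 : 0 < a := by have := ha.1; omega
  set l := a.primeFactorsList with hl
  set lb := l.filter (fun p => zz P N < p) with hlb
  have h1 : l.length = smc P N a + lb.length := by
    unfold smc
    rw [← hl, hlb]
    have := List.length_eq_length_filter_add (l := l) (fun p => decide (p ≤ zz P N))
    have h9 : (fun p => !decide (p ≤ zz P N)) = fun p => decide (zz P N < p) := by
      funext p
      by_cases hp : p ≤ zz P N
      · simp [hp]
      · simp [hp, not_le.mp hp]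
    rw [← h9]
    exact this
  have h2 : ArithmeticFunction.cardFactors a = l.length := rfl
  -- the product of the large ones
  have hz1 : (1 : ℕ) ≤ zz P N := by
    have := MM_lt_zz hn
    omega
  have h3 : zz P N ^ lb.length ≤ lb.prod := by
    apply List.pow_card_le_prod
    intro p hp
    rw [hlb, List.mem_filter] at hp
    have := hp.2
    simp at this
    omega
  have h4 : lb.prod ∣ a := by
    have h5 : lb.Sublist l := List.filter_sublist
    have h6 := List.Sublist.prod_dvd_prod h5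
    rwa [Nat.prod_primeFactorsList ha0.ne'] at h6
  have h5 : zz P N ^ lb.length ≤ N ^ 2 := (h3.trans (Nat.le_of_dvd ha0 h4)).trans h
  have h6 : (lb.length : ℝ) * Real.log (zz P N) ≤ 2 * Real.log N := by
    have h7 : ((zz P N : ℝ)) ^ lb.length ≤ (N : ℝ) ^ 2 := by exact_mod_cast h5
    have h8 : (0 : ℝ) < (zz P N : ℝ) ^ lb.length := by
      have : (0 : ℝ) < zz P N := by exact_mod_cast hz1
      positivity
    have h9 := Real.log_le_log h8 h7
    rw [Real.log_pow, Real.log_pow] at h9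
    exact_mod_cast h9
  have hc := hP.c0
  have h7 : (lb.length : ℝ) ≤ 4 / P.c := by
    rw [le_div_iff₀ hc]
    have h8 : (lb.length : ℝ) * ((P.c / 2) * Real.log N) ≤ 2 * Real.log N :=
      le_trans (mul_le_mul_of_nonneg_left hn.z3 (Nat.cast_nonneg _)) h6
    have h9 : ((lb.length : ℝ) * P.c) * Real.log N ≤ 4 * Real.log N := by linarith
    exact le_of_mul_le_mul_right h9 hK0
  rw [h2, h1]
  push_cast
  have h8 : (smc P N a : ℝ) ≤ r := by exact_mod_cast ha.2.2.2
  linarith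

end Pool.Agent.Lib.RH
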