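import Pool.Agent.Lib.MP_7b7e48_nt.RG.TOOLS
import Pool.Agent.Lib.MP_7b7e48_nt.RG.BAS

/-!
# Module BADC (90 minutes): few numbers with a prime factor in `Q` have a class which is not good

`K = log N`, `σ = sig P χ`, `Tools.sg` gives `L ≤ K^3 σ`. PROOF. Let `a` be counted and `q` the prime of `HQ`. (i) `q ≤ N^(1 - kap)`: `q ∈ QQ`, `a = q m` with `1 ≤ m ≤ T/q`, `m` coprime to `N`: `Tools.sm1` and the sum over `q ∈ QQ`: `≤ K^15 T σ/J`.
(ii) `q > N^(1 - kap)`: `a = m q`, `1 ≤ m < T/N^(1-kap) ≤ J N^kap`, `smc m ≤ smc a ≤ 2`, `m` coprime to `N`, `1 ≤ q ≤ T/m`: `Tools.sm2`, sum over `m`: `≤ K^15 L T/J · ∑_{m ≤ J N^kap} 1/m ≤ K^16 L T/J ≤ K^19 σ T/J`. Total `≤ K^20 σ T/J`.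
-/

open Finset

namespace Pool.Agent.Lib.RH

open Pool.Agent.Lib.RG hiding RR sig Good

private theorem badc_harm (M : ℕ) : ∑ m ∈ Finset.Icc 1 M, 1 / (m : ℝ) ≤ 1 + Real.log M := by
  have h := harmonic_le_one_add_log M
  rw [harmonic_eq_sum_Icc] at h
  push_cast at h
  simpa [one_div] using h

open Classical in
theorem badc (P : Prm) (hP : P.Ok) (N : ℕ) [NeZero N] (hn : Num P N) (ht : Tools P N)
    (χ : DirichletCharacter ℂ N) (hsq : χ ^ 2 = 1) (hne : χ ≠ 1) (w T : ℕ) (hw : W2 P N w)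
    (hT : N ≤ T) (hT2 : T ≤ JJ N * N) (ep : ℤ) (hep : ep = 1 ∨ ep = -1) :
    (((Finset.range T).filter fun a : ℕ => WW P N 2 a ∧ HQ P χ a ∧
      ¬ Good P N ((ep : ZMod N) * (w : ZMod N) * (a : ZMod N))).card : ℝ) ≤
      (Real.log N) ^ 20 * sig P χ * T / JJ N := by
  obtain ⟨L, hLV, hL0, hLs⟩ := ht.sg χ hsq hne
  have hK : (10 : ℝ) ^ 9 ≤ Real.log N := hn.K
  have hN2 : 2 ≤ N := N_pos hn
  have hN0 : (0 : ℝ) < N := by exact_mod_cast (by omega : 0 < N)
  have hN1 : (1 : ℝ) ≤ N := by exact_mod_cast (by omega : 1 ≤ N)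
  have hkap0 := hP.kap0
  have hkap1 := hP.kap1
  have hJ1 : (1 : ℝ) ≤ JJ N := by
    refine le_trans ?_ hn.J1
    exact one_le_pow₀ (by linarith)
  have hJ0 : (0 : ℝ) < JJ N := by linarith
  set K := Real.log N with hKdef
  have hK1 : (1 : ℝ) ≤ K := by linarith
  have hL : 0 < L := lt_of_lt_of_le (Real.rpow_pos_of_pos hN0 _) hL0
  have hsig0 : 0 ≤ sig P χ := Finset.sum_nonneg (fun q _ => by positivity)
  have hT0 : (0 : ℝ) ≤ T := Nat.cast_nonneg _
  -- the bound for the cofactors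
  set Y : ℕ := ⌊(JJ N : ℝ) * (N : ℝ) ^ P.kap⌋₊ with hY
  have hYN : (Y : ℝ) ≤ N := by
    have h1 : (Y : ℝ) ≤ (JJ N : ℝ) * (N : ℝ) ^ P.kap := Nat.floor_le (by positivity)
    have h2 : (JJ N : ℝ) ≤ (N : ℝ) ^ (P.kap / 1000) := by
      refine le_trans hn.J2 (le_trans ?_ hn.sm)
      calc 2 * K ^ 1000 ≤ K ^ 1 * K ^ 1000 := by
            rw [pow_one]
            gcongr
            linarith
        _ = K ^ 1001 := by rw [← pow_add]
        _ ≤ K ^ (100 * P.C1 + 10000) := pow_le_pow_right₀ hK1 (by omega)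
    calc (Y : ℝ) ≤ (JJ N : ℝ) * (N : ℝ) ^ P.kap := h1
      _ ≤ (N : ℝ) ^ (P.kap / 1000) * (N : ℝ) ^ P.kap := by gcongr
      _ = (N : ℝ) ^ (P.kap / 1000 + P.kap) := by rw [← Real.rpow_add hN0]
      _ ≤ (N : ℝ) ^ (1 : ℝ) := Real.rpow_le_rpow_of_exponent_le hN1 (by linarith)
      _ = N := Real.rpow_one _
  have hharm : ∑ m ∈ Finset.Icc 1 Y, 1 / (m : ℝ) ≤ 1 + K := by
    refine le_trans (badc_harm Y) ?_
    rcases Nat.eq_zero_or_pos Y with h0 | h0
    · rw [h0]
      simp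
      linarith
    · have : Real.log Y ≤ K := Real.log_le_log (by exact_mod_cast h0) hYN
      linarith
  set A1 : ℕ → Finset ℕ := fun q => (Finset.Icc 1 (T / q)).filter fun m : ℕ => m.Coprime N ∧
      ¬ Good P N ((ep : ZMod N) * (w : ZMod N) * (q : ZMod N) * (m : ZMod N)) with hA1
  set A2 : ℕ → Finset ℕ := fun m => (Finset.Icc 1 (T / m)).filter fun q : ℕ => q.Prime ∧
      (N : ℝ) ^ (1 - P.kap) < q ∧ χ (q : ZMod N) = 1 ∧
      ¬ Good P N ((ep : ZMod N) * (w : ZMod N) * (m : ZMod N) * (q : ZMod N)) with hA2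
  set MS : Finset ℕ := (Finset.Icc 1 Y).filter fun m => m.Coprime N ∧ smc P N m ≤ 2 with hMS
  set Q1 : Finset ℕ := (QQ P χ).filter fun q => ¬ q ∣ N with hQ1
  have hsub : ((Finset.range T).filter fun a : ℕ => WW P N 2 a ∧ HQ P χ a ∧
      ¬ Good P N ((ep : ZMod N) * (w : ZMod N) * (a : ZMod N))) ⊆
      (Q1.biUnion fun q => (A1 q).image fun m => q * m) ∪
      (MS.biUnion fun m => (A2 m).image fun q => m * q) := by
    intro a ha
    rw [mem_filter, mem_range] at ha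
    obtain ⟨haT, hWW, ⟨q, hq, hzq, hqa, hχq⟩, hng⟩ := ha
    obtain ⟨m, rfl⟩ := hqa
    have ha1 : 1 < q * m := hWW.1
    have hm0 : 0 < m := by
      rcases Nat.eq_zero_or_pos m with h | h
      · rw [h, mul_zero] at ha1
        omega
      · exact h
    have hcop : (q * m).Coprime N := hWW.2.1
    have hqN : q.Coprime N := Nat.Coprime.coprime_dvd_left (Dvd.intro m rfl) hcop
    have hmN : m.Coprime N := Nat.Coprime.coprime_dvd_left (Dvd.intro_left q rfl) hcop
    have hqdN : ¬ q ∣ N := (Nat.Prime.coprime_iff_not_dvd hq).mp hqN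
    by_cases hqs : (q : ℝ) ≤ (N : ℝ) ^ (1 - P.kap)
    · refine mem_union_left _ ?_
      rw [mem_biUnion]
      refine ⟨q, ?_, ?_⟩
      · rw [hQ1, mem_filter]
        refine ⟨?_, hqdN⟩
        unfold QQ
        rw [mem_filter, mem_range]
        refine ⟨?_, hq, hzq, hqs, hχq⟩
        have h1 : (q : ℝ) ≤ N := by
          calc (q : ℝ) ≤ (N : ℝ) ^ (1 - P.kap) := hqs
            _ ≤ (N : ℝ) ^ (1 : ℝ) := Real.rpow_le_rpow_of_exponent_le hN1 (by linarith)
            _ = N := Real.rpow_one _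
        have h2 : q ≤ N := by exact_mod_cast h1
        omega
      · rw [mem_image]
        refine ⟨m, ?_, rfl⟩
        rw [hA1, mem_filter, mem_Icc]
        refine ⟨⟨hm0, ?_⟩, hmN, ?_⟩
        · rw [Nat.le_div_iff_mul_le hq.pos]
          rw [mul_comm]
          exact haT.le
        · intro hg
          apply hng
          push_cast
          rw [← mul_assoc]
          exact hg
    · push Not at hqs
      refine mem_union_right _ ?_
      rw [mem_biUnion]
      refine ⟨m, ?_, ?_⟩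
      · rw [hMS, mem_filter, mem_Icc]
        refine ⟨⟨hm0, ?_⟩, hmN, ?_⟩
        · apply Nat.le_floor
          have h1 : (q : ℝ) * m ≤ JJ N * N := by
            have : q * m ≤ JJ N * N := le_trans haT.le hT2
            exact_mod_cast this
          have h2 : (N : ℝ) ^ (1 - P.kap) * m ≤ JJ N * N := by
            refine le_trans ?_ h1
            gcongr
          have h3 : (N : ℝ) = (N : ℝ) ^ (1 - P.kap) * (N : ℝ) ^ P.kap := by
            rw [← Real.rpow_add hN0, sub_add_cancel, Real.rpow_one]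
          have h4 : (0 : ℝ) < (N : ℝ) ^ (1 - P.kap) := Real.rpow_pos_of_pos hN0 _
          have h5 : (N : ℝ) ^ (1 - P.kap) * m ≤ (N : ℝ) ^ (1 - P.kap) * (JJ N * (N : ℝ) ^ P.kap) := by
            refine le_trans h2 (le_of_eq ?_)
            calc (JJ N : ℝ) * N = JJ N * ((N : ℝ) ^ (1 - P.kap) * (N : ℝ) ^ P.kap) := by rw [← h3]
              _ = _ := by ring
          exact le_of_mul_le_mul_left h5 h4
        · have h1 : smc P N (q * m) = smc P N q + smc P N m := smc_mul hq.pos hm0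
          have h2 := hWW.2.2.2
          omega
      · rw [mem_image]
        refine ⟨q, ?_, mul_comm _ _⟩
        rw [hA2, mem_filter, mem_Icc]
        refine ⟨⟨hq.one_lt.le, ?_⟩, hq, hqs, hχq, ?_⟩
        · rw [Nat.le_div_iff_mul_le hm0]
          exact haT.le
        · intro hg
          apply hng
          push_cast
          have : (ep : ZMod N) * w * (q * m) = (ep : ZMod N) * w * m * q := by ring
          rw [this]
          exact hg
  have hc1 : ∀ q ∈ Q1, ((((A1 q).image fun m => q * m).card : ℕ) : ℝ) ≤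
      K ^ 15 * T / JJ N * (1 / (q : ℝ)) := by
    intro q hq
    rw [hQ1, mem_filter] at hq
    obtain ⟨hq1, hq2⟩ := hq
    unfold QQ at hq1
    rw [mem_filter, mem_range] at hq1
    obtain ⟨-, hqp, hzq, hqs, hχq⟩ := hq1
    have h1 := ht.sm1 w q T hw hqp hq2 hqs hT hT2 ep hep
    have h2 : ((((A1 q).image fun m => q * m).card : ℕ) : ℝ) ≤ ((A1 q).card : ℝ) := by
      exact_mod_cast card_image_le
    refine le_trans h2 (le_trans h1 (le_of_eq ?_))
    ring
  have hc2 : ∀ m ∈ MS, ((((A2 m).image fun q => m * q).card : ℕ) : ℝ) ≤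
      K ^ 15 * L * T / JJ N * (1 / (m : ℝ)) := by
    intro m hm
    rw [hMS, mem_filter, mem_Icc] at hm
    obtain ⟨⟨hm1, hm2⟩, hm3, hm4⟩ := hm
    have hm5 : (m : ℝ) ≤ JJ N * (N : ℝ) ^ P.kap := by
      have : (m : ℝ) ≤ Y := by exact_mod_cast hm2
      exact le_trans this (Nat.floor_le (by positivity))
    have h1 := ht.sm2 χ L hsq hne hLV hL0 w m T hw hm1 hm3 hm5 hm4 hT hT2 ep hep
    have h2 : ((((A2 m).image fun q => m * q).card : ℕ) : ℝ) ≤ ((A2 m).card : ℝ) := by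
      exact_mod_cast card_image_le
    refine le_trans h2 (le_trans h1 (le_of_eq ?_))
    ring
  have hs1 : (((Q1.biUnion fun q => (A1 q).image fun m => q * m).card : ℕ) : ℝ) ≤
      K ^ 15 * T / JJ N * sig P χ := by
    calc (((Q1.biUnion fun q => (A1 q).image fun m => q * m).card : ℕ) : ℝ)
        ≤ ∑ q ∈ Q1, ((((A1 q).image fun m => q * m).card : ℕ) : ℝ) := by
          exact_mod_cast card_biUnion_le
      _ ≤ ∑ q ∈ Q1, K ^ 15 * T / JJ N * (1 / (q : ℝ)) := Finset.sum_le_sum hc1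
      _ = K ^ 15 * T / JJ N * ∑ q ∈ Q1, (1 / (q : ℝ)) := by rw [Finset.mul_sum]
      _ ≤ K ^ 15 * T / JJ N * sig P χ := by
          gcongr
          unfold sig
          exact Finset.sum_le_sum_of_subset_of_nonneg (filter_subset _ _) (fun q _ _ => by positivity)
  have hs2 : (((MS.biUnion fun m => (A2 m).image fun q => m * q).card : ℕ) : ℝ) ≤
      K ^ 15 * L * T / JJ N * (1 + K) := by
    calc (((MS.biUnion fun m => (A2 m).image fun q => m * q).card : ℕ) : ℝ)
        ≤ ∑ m ∈ MS, ((((A2 m).image fun q => m * q).card : ℕ) : ℝ) := by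
          exact_mod_cast card_biUnion_le
      _ ≤ ∑ m ∈ MS, K ^ 15 * L * T / JJ N * (1 / (m : ℝ)) := Finset.sum_le_sum hc2
      _ = K ^ 15 * L * T / JJ N * ∑ m ∈ MS, (1 / (m : ℝ)) := by rw [Finset.mul_sum]
      _ ≤ K ^ 15 * L * T / JJ N * ∑ m ∈ Finset.Icc 1 Y, (1 / (m : ℝ)) := by
          gcongr
          exact filter_subset _ _
      _ ≤ K ^ 15 * L * T / JJ N * (1 + K) := by gcongr
  have hfin : K ^ 15 * T / JJ N * sig P χ + K ^ 15 * L * T / JJ N * (1 + K) ≤
      K ^ 20 * sig P χ * T / JJ N := by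
    have hX : 0 ≤ K ^ 15 * T / JJ N := by positivity
    have h1 : K ^ 15 * L * T / JJ N * (1 + K) ≤ K ^ 15 * T / JJ N * ((K ^ 3 * sig P χ) * (1 + K)) := by
      have : K ^ 15 * L * T / JJ N * (1 + K) = K ^ 15 * T / JJ N * (L * (1 + K)) := by ring
      rw [this]
      gcongr
    have h2 : sig P χ + (K ^ 3 * sig P χ) * (1 + K) ≤ K ^ 5 * sig P χ := by
      have h3 : 1 + K ^ 3 * (1 + K) ≤ K ^ 5 := by
        have h4 : K ^ 4 * K ≥ K ^ 4 * 3 := by
          gcongr
          linarith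
        have h5 : (1 : ℝ) ≤ K ^ 4 := one_le_pow₀ hK1
        have h6 : K ^ 3 ≤ K ^ 4 := pow_le_pow_right₀ hK1 (by norm_num)
        nlinarith
      calc sig P χ + (K ^ 3 * sig P χ) * (1 + K) = (1 + K ^ 3 * (1 + K)) * sig P χ := by ring
        _ ≤ K ^ 5 * sig P χ := by gcongr
    calc K ^ 15 * T / JJ N * sig P χ + K ^ 15 * L * T / JJ N * (1 + K)
        ≤ K ^ 15 * T / JJ N * sig P χ + K ^ 15 * T / JJ N * ((K ^ 3 * sig P χ) * (1 + K)) := by
          linarith
      _ = K ^ 15 * T / JJ N * (sig P χ + (K ^ 3 * sig P χ) * (1 + K)) := by ring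
      _ ≤ K ^ 15 * T / JJ N * (K ^ 5 * sig P χ) := by gcongr
      _ = K ^ 20 * sig P χ * T / JJ N := by ring
  have hcard : ((((Finset.range T).filter fun a : ℕ => WW P N 2 a ∧ HQ P χ a ∧
      ¬ Good P N ((ep : ZMod N) * (w : ZMod N) * (a : ZMod N))).card : ℕ) : ℝ) ≤
      (((Q1.biUnion fun q => (A1 q).image fun m => q * m).card : ℕ) : ℝ) +
      (((MS.biUnion fun m => (A2 m).image fun q => m * q).card : ℕ) : ℝ) := by
    exact_mod_cast (card_le_card hsub).trans (card_union_le _ _)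
  linarith

end Pool.Agent.Lib.RH
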