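import Pool.Agent.Lib.MP_7b7e48_nt.RG.BADC

/-!
# Module BADV (60 minutes): the same for very good classes

`K = log N`, `B = block N M ⊆ PZ N M`. PROOF. `¬ VG (w a)` means: `w a` not good, or `- w a` not good (`badc` with `ep = 1, -1`), or for more than a quarter of the `l ∈ B` the class `l w a` or `-(l w a)` is not good. For every `l ∈ B`, `W2 (l w)` (or `W2 (w l)`)
holds, so by `badc` the number of pairs `(l, a)` is `≤ |B| · 2 K^20 σ T/J`, and the number of `a` with more than `|B|/4` such `l` is `≤ 8 K^20 σ T/J` (if `|B| = 0` there is no such `a`). Total `≤ 10 K^20 σ T/J ≤ K^22 σ T/J`.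
-/

open Finset

namespace Pool.Agent.Lib.RH

open Pool.Agent.Lib.RG hiding RR sig Good

open Classical in
theorem badv (P : Prm) (hP : P.Ok) (N : ℕ) [NeZero N] (hn : Num P N) (ht : Tools P N)
    (χ : DirichletCharacter ℂ N) (hsq : χ ^ 2 = 1) (hne : χ ≠ 1) (w T : ℕ)
    (hw : w = 1 ∨ w ∈ PZ N (MM P N)) (hT : N ≤ T) (hT2 : T ≤ JJ N * N) :
    (((Finset.range T).filter fun a : ℕ => WW P N 2 a ∧ HQ P χ a ∧
      ¬ VG P N ((w : ZMod N) * (a : ZMod N))).card : ℝ) ≤
      (Real.log N) ^ 22 * sig P χ * T / JJ N := by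
  have hK9 := hn.K
  have hK : (10 : ℝ) ≤ Real.log N := by
    have : (10 : ℝ) ≤ 10 ^ 9 := by norm_num
    linarith
  have hsig : 0 ≤ sig P χ := by
    unfold sig
    exact Finset.sum_nonneg fun q _ => by positivity
  set D : ℝ := (Real.log N) ^ 20 * sig P χ * T / JJ N with hD
  have hD0 : 0 ≤ D := by
    rw [hD]
    have : (0 : ℝ) ≤ Real.log N := by linarith
    positivity
  -- the sets of `badc`
  set S : ℤ → ℕ → Finset ℕ := fun ep v => (Finset.range T).filter fun a : ℕ => WW P N 2 a ∧ HQ P χ a ∧
      ¬ Good P N ((ep : ZMod N) * (v : ZMod N) * (a : ZMod N)) with hS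
  have hSb : ∀ ep : ℤ, (ep = 1 ∨ ep = -1) → ∀ v : ℕ, W2 P N v → ((S ep v).card : ℝ) ≤ D := by
    intro ep hep v hv
    exact badc P hP N hn ht χ hsq hne v T hv hT hT2 ep hep
  have hw2 : W2 P N w := by
    rcases hw with h | h
    · exact Or.inl h
    · exact Or.inr (Or.inl h)
  set B : Finset ℕ := block N (MM P N) with hB
  have hMM : 1 ≤ MM P N := by
    unfold MM
    exact Nat.one_le_two_pow
  have hBP : ∀ l ∈ B, l ∈ PZ N (MM P N) := by
    intro l hl
    rw [hB, mem_block] at hl
    rw [mem_PZ]
    refine ⟨hl.1, hl.2.1.trans ?_, hl.2.2⟩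
    nlinarith
  have hBw : ∀ l ∈ B, W2 P N (l * w) := by
    intro l hl
    rcases hw with h | h
    · subst h
      rw [mul_one]
      exact Or.inr (Or.inl (hBP l hl))
    · exact Or.inr (Or.inr ⟨l, hBP l hl, w, h, rfl⟩)
  set F : ℕ → Finset ℕ := fun a => B.filter fun l =>
    ¬ Good P N ((l : ZMod N) * ((w : ZMod N) * (a : ZMod N))) ∨
      ¬ Good P N (-((l : ZMod N) * ((w : ZMod N) * (a : ZMod N)))) with hF
  set C : Finset ℕ := (Finset.range T).filter fun a : ℕ => WW P N 2 a ∧ HQ P χ a ∧
    B.card < 4 * (F a).card with hC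
  have hsub : ((Finset.range T).filter fun a : ℕ => WW P N 2 a ∧ HQ P χ a ∧
      ¬ VG P N ((w : ZMod N) * (a : ZMod N))) ⊆ (S 1 w ∪ S (-1) w) ∪ C := by
    intro a ha
    rw [mem_filter] at ha
    obtain ⟨ha1, ha2, ha3, ha4⟩ := ha
    rw [mem_union, mem_union]
    by_cases h1 : Good P N ((w : ZMod N) * (a : ZMod N))
    · by_cases h2 : Good P N (-((w : ZMod N) * (a : ZMod N)))
      · right
        rw [hC, mem_filter]
        refine ⟨ha1, ha2, ha3, ?_⟩
        by_contra h3
        refine ha4 ⟨h1, h2, le_trans (Nat.mul_le_mul_left 4 ?_) (not_lt.1 h3)⟩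
        first
        | exact le_rfl
        | refine le_trans (Finset.card_le_card (t := (F a).image fun l : ℕ => (l : ZMod N)) ?_)
            Finset.card_image_le
          intro y hy
          rw [mem_filter] at hy
          obtain ⟨hy1, hy2⟩ := hy
          simp only [bind, pure, Finset.mem_sup, mem_singleton] at hy1
          obtain ⟨l, hl, hly⟩ := hy1
          have hly' : y = (l : ZMod N) := by simpa using hly
          subst hly'
          exact mem_image.2 ⟨l, mem_filter.2 ⟨hl, hy2⟩, rfl⟩
      · left; right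
        rw [hS, mem_filter]
        refine ⟨ha1, ha2, ha3, ?_⟩
        have e : (((-1 : ℤ) : ZMod N)) * (w : ZMod N) * (a : ZMod N) =
            -((w : ZMod N) * (a : ZMod N)) := by
          push_cast
          ring
        rw [e]
        exact h2
    · left; left
      rw [hS, mem_filter]
      refine ⟨ha1, ha2, ha3, ?_⟩
      have e : (((1 : ℤ) : ZMod N)) * (w : ZMod N) * (a : ZMod N) = (w : ZMod N) * (a : ZMod N) := by
        push_cast
        ring
      rw [e]
      exact h1
  have hC8 : (C.card : ℝ) ≤ 8 * D := by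
    rcases Nat.eq_zero_or_pos B.card with h0 | h0
    · have hC0 : C = ∅ := by
        rw [hC, Finset.filter_eq_empty_iff]
        rintro a _ ⟨_, _, h⟩
        have h1 : (F a).card ≤ B.card := Finset.card_filter_le _ _
        omega
      rw [hC0, Finset.card_empty, Nat.cast_zero]
      linarith
    · have h1 : (C.card : ℝ) * B.card ≤ ∑ a ∈ C, 4 * ((F a).card : ℝ) := by
        rw [← nsmul_eq_mul, ← Finset.sum_const]
        refine Finset.sum_le_sum fun a ha => ?_
        rw [hC, mem_filter] at ha
        exact_mod_cast ha.2.2.2.le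
      have h2 : ∑ a ∈ C, ((F a).card : ℝ) ≤ ∑ l ∈ B, ((S 1 (l * w)).card + (S (-1) (l * w)).card : ℝ) := by
        have h3 : ∀ a ∈ C, ((F a).card : ℝ) = ∑ l ∈ B, if (¬ Good P N ((l : ZMod N) * ((w : ZMod N) * (a : ZMod N))) ∨
            ¬ Good P N (-((l : ZMod N) * ((w : ZMod N) * (a : ZMod N))))) then (1 : ℝ) else 0 := by
          intro a _
          rw [← Finset.sum_filter, Finset.sum_const, nsmul_eq_mul, mul_one]
        rw [Finset.sum_congr rfl h3, Finset.sum_comm]
        refine Finset.sum_le_sum fun l _ => ?_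
        rw [← Finset.sum_filter, Finset.sum_const, nsmul_eq_mul, mul_one]
        have h4 : (C.filter fun a : ℕ => ¬ Good P N ((l : ZMod N) * ((w : ZMod N) * (a : ZMod N))) ∨
            ¬ Good P N (-((l : ZMod N) * ((w : ZMod N) * (a : ZMod N))))) ⊆
            S 1 (l * w) ∪ S (-1) (l * w) := by
          intro a ha
          rw [mem_filter, hC, mem_filter] at ha
          obtain ⟨⟨ha1, ha2, ha3, _⟩, ha4⟩ := ha
          rw [mem_union]
          rcases ha4 with h5 | h5
          · left
            rw [hS, mem_filter]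
            refine ⟨ha1, ha2, ha3, ?_⟩
            have e : (((1 : ℤ) : ZMod N)) * ((l * w : ℕ) : ZMod N) * (a : ZMod N) =
                (l : ZMod N) * ((w : ZMod N) * (a : ZMod N)) := by
              push_cast
              ring
            rw [e]
            exact h5
          · right
            rw [hS, mem_filter]
            refine ⟨ha1, ha2, ha3, ?_⟩
            have e : (((-1 : ℤ) : ZMod N)) * ((l * w : ℕ) : ZMod N) * (a : ZMod N) =
                -((l : ZMod N) * ((w : ZMod N) * (a : ZMod N))) := by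
              push_cast
              ring
            rw [e]
            exact h5
        have h6 := (Finset.card_le_card h4).trans (Finset.card_union_le _ _)
        exact_mod_cast h6
      have h3 : ∑ l ∈ B, ((S 1 (l * w)).card + (S (-1) (l * w)).card : ℝ) ≤ B.card * (2 * D) := by
        rw [← nsmul_eq_mul, ← Finset.sum_const]
        refine Finset.sum_le_sum fun l hl => ?_
        have h4 := hSb 1 (Or.inl rfl) _ (hBw l hl)
        have h5 := hSb (-1) (Or.inr rfl) _ (hBw l hl)
        linarith
      have hBr : (0 : ℝ) < B.card := by exact_mod_cast h0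
      rw [← Finset.mul_sum] at h1
      refine le_of_mul_le_mul_right ?_ hBr
      calc (C.card : ℝ) * B.card ≤ 4 * ∑ a ∈ C, ((F a).card : ℝ) := h1
        _ ≤ 4 * (B.card * (2 * D)) := by linarith [h2.trans h3]
        _ = 8 * D * B.card := by ring
  have h1 : (((Finset.range T).filter fun a : ℕ => WW P N 2 a ∧ HQ P χ a ∧
      ¬ VG P N ((w : ZMod N) * (a : ZMod N))).card : ℝ) ≤
      (S 1 w).card + (S (-1) w).card + C.card := by
    have h2 := Finset.card_le_card hsub
    have h3 := Finset.card_union_le (S 1 w ∪ S (-1) w) C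
    have h4 := Finset.card_union_le (S 1 w) (S (-1) w)
    have h5 := h2.trans (h3.trans (Nat.add_le_add_right h4 _))
    exact_mod_cast h5
  have h2 := hSb 1 (Or.inl rfl) w hw2
  have h3 := hSb (-1) (Or.inr rfl) w hw2
  have hK2 : 10 ≤ (Real.log N) ^ 2 := by nlinarith
  calc _ ≤ 10 * D := by linarith
    _ ≤ (Real.log N) ^ 2 * D := mul_le_mul_of_nonneg_right hK2 hD0
    _ = (Real.log N) ^ 22 * sig P χ * T / JJ N := by
        rw [hD]
        ring

end Pool.Agent.Lib.RH
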