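import Pool.Agent.Lib.MP_7b7e48_nt.RG.Defs

/-!
# Module C4 (45 minutes): expansion into characters

PROOF. `b χ = (1 / φ(N)) ∑_x f x χ⁻¹ x`. Inversion: `∑_χ χ(x) χ⁻¹(a) = φ(N) 1_{x = a}` for units `a`
(`DirichletCharacter.sum_char_inv_mul_char_eq`; the field `ℂ` has enough roots of unity). If `f (l x) = e f x` for all
`x`: substitute `x → l x` in the sum: `b χ = χ⁻¹(l) e b χ`, so `χ l = e` if `b χ ≠ 0`.
-/

open Finset

namespace Pool.Agent.Lib.RG

theorem four {N : ℕ} [NeZero N] (f : ZMod N → ℝ) (hf : ∀ x : ZMod N, ¬ IsUnit x → f x = 0) :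
    ∃ b : DirichletCharacter ℂ N → ℂ,
      (∀ x : ZMod N, (f x : ℂ) = ∑ χ : DirichletCharacter ℂ N, b χ * χ x) ∧
      (∀ (l : ZMod N) (e : ℝ), IsUnit l → (∀ x : ZMod N, f (l * x) = e * f x) →
        ∀ χ : DirichletCharacter ℂ N, b χ ≠ 0 → χ l = (e : ℂ)) := by
  classical
  have hφ : (N.totient : ℂ) ≠ 0 := by
    have : 0 < N.totient := Nat.totient_pos.2 (NeZero.pos N)
    exact_mod_cast this.ne'
  refine ⟨fun χ => (N.totient : ℂ)⁻¹ * ∑ x : ZMod N, (f x : ℂ) * χ x⁻¹, ?_, ?_⟩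
  · intro a
    by_cases ha : IsUnit a
    · have h1 : ∑ χ : DirichletCharacter ℂ N,
          (N.totient : ℂ)⁻¹ * (∑ x : ZMod N, (f x : ℂ) * χ x⁻¹) * χ a =
          (N.totient : ℂ)⁻¹ * ∑ x : ZMod N, (f x : ℂ) *
            ∑ χ : DirichletCharacter ℂ N, χ x⁻¹ * χ a := by
        simp only [mul_assoc, ← mul_sum, sum_mul]
        rw [sum_comm]
        simp only [mul_sum]
      rw [h1]
      have h2 : ∑ x : ZMod N, (f x : ℂ) * ∑ χ : DirichletCharacter ℂ N, χ x⁻¹ * χ a =
          (f a : ℂ) * N.totient := by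
        rw [sum_eq_single a]
        · rw [DirichletCharacter.sum_char_inv_mul_char_eq ℂ ha, if_pos rfl]
        · intro x _ hx
          by_cases hu : IsUnit x
          · rw [DirichletCharacter.sum_char_inv_mul_char_eq ℂ hu, if_neg hx, mul_zero]
          · rw [hf x hu, Complex.ofReal_zero, zero_mul]
        · intro h
          exact absurd (mem_univ a) h
      rw [h2]
      field_simp
    · rw [hf a ha, Complex.ofReal_zero]
      symm
      refine sum_eq_zero fun χ _ => ?_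
      rw [χ.map_nonunit ha, mul_zero]
  · intro l e hl hle χ hb
    simp only at hb
    set S := ∑ x : ZMod N, (f x : ℂ) * χ x⁻¹ with hS
    have hS0 : S ≠ 0 := fun h => hb (by rw [h, mul_zero])
    obtain ⟨v, rfl⟩ := hl
    have h1 : S = (e : ℂ) * χ ((v : ZMod N)⁻¹) * S := by
      have h2 : S = ∑ y : ZMod N, (f (v * y) : ℂ) * χ (v * y)⁻¹ := by
        rw [hS]
        exact (Equiv.sum_comp (Units.mulLeft v) fun x : ZMod N => (f x : ℂ) * χ x⁻¹).symm
      rw [h2]
      conv_rhs => rw [← h2, hS, mul_sum]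
      refine sum_congr rfl fun y _ => ?_
      rw [hle y, Complex.ofReal_mul]
      by_cases hy : IsUnit y
      · obtain ⟨t, rfl⟩ := hy
        have h3 : ((v : ZMod N) * (t : ZMod N))⁻¹ = (v : ZMod N)⁻¹ * (t : ZMod N)⁻¹ := by
          rw [← Units.val_mul, ZMod.inv_coe_unit, ZMod.inv_coe_unit, ZMod.inv_coe_unit, mul_inv,
            Units.val_mul]
        rw [h3, map_mul]
        ring
      · rw [hf y hy]
        simp
    have h2 : (e : ℂ) * χ ((v : ZMod N)⁻¹) = 1 := by
      have h3 : (1 : ℂ) * S = (e : ℂ) * χ ((v : ZMod N)⁻¹) * S := by rw [one_mul]; exact h1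
      exact (mul_right_cancel₀ hS0 h3).symm
    have h3 : χ (v : ZMod N) * χ ((v : ZMod N)⁻¹) = 1 := by
      rw [← map_mul, ZMod.inv_coe_unit, ← Units.val_mul, mul_inv_cancel, Units.val_one, map_one]
    have h4 : χ ((v : ZMod N)⁻¹) ≠ 0 := fun h => by
      rw [h, mul_zero] at h3
      exact zero_ne_one h3
    exact mul_right_cancel₀ h4 (h3.trans h2.symm)

end Pool.Agent.Lib.RG
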