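import Pool.Agent.Lib.MP_7b7e48_nt.RG.BAS

/-!
# Module CHR1 (75 minutes): the character is real and equals the sign function up to sign (no number theory)

`K = log N`, `δ = K^100/J`. PROOF. Parseval (`CHA.chParsF`): `φ(N) ∑_χ' ‖bch f χ'‖² = ∑ f² = φ(N)`, so `‖bch f χ‖² ≥ 1 - δ > 1/2`. `f` is real: `bch f (χ⁻¹) = conj (bch f χ)` (`χ⁻¹ = conj χ`), so `χ⁻¹ ≠ χ` would give
`‖bch f χ⁻¹‖² ≤ δ`, a contradiction. So `χ² = 1`, `χ` is real valued and `b = bch f χ` is real, `b² ≥ 1 - δ`, `|b| ≤ 1`. `β = sign b`. By `chInv` and Parseval `∑_x |f x - b χ x|² = φ(N) ∑_{χ' ≠ χ} ‖bch f χ'‖² ≤ δ φ(N)`. If `f x ≠ β χ x` then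
`f x = -β χ x` (both `±1`) and `|f x - b χ x| = 1 + |b| ≥ 1`. So the number of such `x` is `≤ δ φ(N) ≤ δ N`.
-/

open Finset

namespace Pool.Agent.Lib.RH

open Pool.Agent.Lib.RG hiding RR sig Good

private theorem chr1_conj {N : ℕ} [NeZero N] (f : ZMod N → ℝ) (χ : DirichletCharacter ℂ N) :
    bch (fun x => (f x : ℂ)) χ⁻¹ = (starRingEnd ℂ) (bch (fun x => (f x : ℂ)) χ) := by
  unfold bch
  rw [map_mul, map_sum, map_inv₀, Complex.conj_natCast]
  congr 1
  refine sum_congr rfl fun y _ => ?_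
  rw [map_mul, Complex.conj_ofReal, Complex.conj_conj, chStar, inv_inv]

private theorem chr1_sumsq {N : ℕ} [NeZero N] (f : ZMod N → ℝ)
    (f0 : ∀ x : ZMod N, ¬ IsUnit x → f x = 0) (f1 : ∀ x : ZMod N, IsUnit x → f x = 1 ∨ f x = -1) :
    ∑ x : ZMod N, ‖((f x : ℝ) : ℂ)‖ ^ 2 = (N.totient : ℝ) := by
  classical
  have h0 := chOrth (1 : DirichletCharacter ℂ N) 1
  rw [if_pos rfl] at h0
  have h1 : ∀ x : ZMod N, ((‖((f x : ℝ) : ℂ)‖ ^ 2 : ℝ) : ℂ) =
      (1 : DirichletCharacter ℂ N) x * (starRingEnd ℂ) ((1 : DirichletCharacter ℂ N) x) := by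
    intro x
    rw [← chNormsq, Complex.norm_real, Real.norm_eq_abs, sq_abs]
    congr 1
    by_cases h : IsUnit x
    · rw [chNorm _ h]
      rcases f1 x h with h2 | h2 <;> rw [h2] <;> norm_num
    · rw [f0 x h, MulChar.map_nonunit _ h]; norm_num
  have h2 : ((∑ x : ZMod N, ‖((f x : ℝ) : ℂ)‖ ^ 2 : ℝ) : ℂ) = ((N.totient : ℝ) : ℂ) := by
    rw [Complex.ofReal_sum, sum_congr rfl fun x _ => h1 x, h0]
    push_cast
    rfl
  exact_mod_cast h2

open Classical in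
theorem chr1 (P : Prm) (N : ℕ) [NeZero N] (hn : Num P N) (f : ZMod N → ℝ)
    (f0 : ∀ x : ZMod N, ¬ IsUnit x → f x = 0) (f1 : ∀ x : ZMod N, IsUnit x → f x = 1 ∨ f x = -1)
    (χ : DirichletCharacter ℂ N)
    (h : (N.totient : ℝ) * ∑ χ' ∈ Finset.univ.erase χ, ‖bch (fun x => (f x : ℂ)) χ'‖ ^ 2 ≤
        (Real.log N) ^ 100 * N.totient / JJ N) :
    χ ^ 2 = 1 ∧ ∃ β : ℝ, (β = 1 ∨ β = -1) ∧
      (((Finset.univ : Finset (ZMod N)).filter fun x => IsUnit x ∧ (f x : ℂ) ≠ β * χ x).card : ℝ) ≤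
        (Real.log N) ^ 100 * N / JJ N := by
  set K := Real.log N with hK
  set F : ZMod N → ℂ := fun x => (f x : ℂ) with hF
  have hK9 := hn.K
  rw [← hK] at hK9
  have hJ := hn.J1
  rw [← hK] at hJ
  have hKpos : 0 < K := by linarith
  have hJpos : (0 : ℝ) < JJ N := lt_of_lt_of_le (by positivity) hJ
  have hφ : (0 : ℝ) < (N.totient : ℝ) := phi_pos
  set δ : ℝ := K ^ 100 / JJ N with hδ
  have hδ0 : 0 ≤ δ := by positivity
  have hδ1 : δ < 1 / 2 := by
    rw [hδ, div_lt_iff₀ hJpos]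
    have h1 : K ^ 1000 = K ^ 100 * K ^ 900 := by rw [← pow_add]
    have h2 : (2 : ℝ) < K ^ 900 := by
      have : K ^ 1 ≤ K ^ 900 := pow_le_pow_right₀ (by linarith) (by norm_num)
      rw [pow_one] at this
      linarith
    have h3 : 0 < K ^ 100 := by positivity
    rw [h1] at hJ
    nlinarith
  have h0F : ∀ x, ¬ IsUnit x → F x = 0 := by
    intro x hx
    rw [hF]
    simp only
    rw [f0 x hx]
    norm_num
  have hpars := chParsF F h0F
  rw [show ∑ x : ZMod N, ‖F x‖ ^ 2 = (N.totient : ℝ) from chr1_sumsq f f0 f1] at hpars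
  have hsum1 : ∑ χ : DirichletCharacter ℂ N, ‖bch F χ‖ ^ 2 = 1 := by
    have := hpars
    field_simp at this
    linarith
  have hsum2 : ∑ χ' ∈ Finset.univ.erase χ, ‖bch F χ'‖ ^ 2 ≤ δ := by
    have h1 : (N.totient : ℝ) * ∑ χ' ∈ Finset.univ.erase χ, ‖bch F χ'‖ ^ 2 ≤ N.totient * δ := by
      refine h.trans (le_of_eq ?_)
      rw [hδ]
      ring
    exact le_of_mul_le_mul_left h1 hφ
  have hsplit : ‖bch F χ‖ ^ 2 + ∑ χ' ∈ Finset.univ.erase χ, ‖bch F χ'‖ ^ 2 = 1 := by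
    rw [← hsum1]
    exact Finset.add_sum_erase Finset.univ (fun χ' => ‖bch F χ'‖ ^ 2) (Finset.mem_univ χ)
  have hbig : 1 - δ ≤ ‖bch F χ‖ ^ 2 := by linarith
  have hconj : bch F χ⁻¹ = (starRingEnd ℂ) (bch F χ) := chr1_conj f χ
  have hinv : χ⁻¹ = χ := by
    by_contra hne
    have h1 : ‖bch F χ⁻¹‖ ^ 2 ≤ ∑ χ' ∈ Finset.univ.erase χ, ‖bch F χ'‖ ^ 2 :=
      Finset.single_le_sum (f := fun χ' => ‖bch F χ'‖ ^ 2) (fun _ _ => by positivity)
        (Finset.mem_erase.mpr ⟨hne, Finset.mem_univ _⟩)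
    rw [hconj, RCLike.norm_conj] at h1
    linarith
  have hsq : χ ^ 2 = 1 := by
    rw [sq]
    nth_rewrite 1 [← hinv]
    exact inv_mul_cancel χ
  refine ⟨hsq, ?_⟩
  rw [hinv] at hconj
  obtain ⟨b, hb⟩ := Complex.conj_eq_iff_real.mp hconj.symm
  have hpm : ∀ x : ZMod N, IsUnit x → χ x = 1 ∨ χ x = -1 := by
    intro x hx
    have h1 : χ x ^ 2 = 1 := by
      rw [← MulChar.pow_apply' χ (by norm_num) x, hsq, MulChar.one_apply hx]
    have h2 : (χ x - 1) * (χ x + 1) = 0 := by linear_combination h1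
    rcases mul_eq_zero.mp h2 with h3 | h3
    · left; exact sub_eq_zero.mp h3
    · right; exact eq_neg_of_add_eq_zero_left h3
  set β : ℝ := if 0 ≤ b then 1 else -1 with hβ
  have hβ1 : β = 1 ∨ β = -1 := by
    rw [hβ]; split_ifs
    · left; rfl
    · right; rfl
  have hβb : 1 ≤ |b + β| := by
    rw [hβ]
    split_ifs with h1
    · rw [abs_of_nonneg (by linarith)]; linarith
    · push Not at h1
      rw [abs_of_nonpos (by linarith)]; linarith
  refine ⟨β, hβ1, ?_⟩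
  have hexp : ∀ x : ZMod N, F x - bch F χ * χ x = ∑ χ' ∈ Finset.univ.erase χ, bch F χ' * χ' x := by
    intro x
    rw [chInv F h0F x, ← Finset.add_sum_erase _ _ (Finset.mem_univ χ)]
    ring
  have hp2 := chPars (Finset.univ.erase χ) (bch F)
  have hcard : (((Finset.univ : Finset (ZMod N)).filter
      fun x => IsUnit x ∧ (f x : ℂ) ≠ β * χ x).card : ℝ) ≤
      ∑ x : ZMod N, ‖∑ χ' ∈ Finset.univ.erase χ, bch F χ' * χ' x‖ ^ 2 := by
    rw [Finset.card_eq_sum_ones, Nat.cast_sum, Finset.sum_filter]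
    refine sum_le_sum fun x _ => ?_
    split_ifs with hx
    · obtain ⟨hu, hne⟩ := hx
      rw [← hexp x, hb]
      have h1 : F x = -(β : ℂ) * χ x := by
        have h2 : F x = (f x : ℂ) := rfl
        rw [h2]
        rcases f1 x hu with h3 | h3 <;> rcases hpm x hu with h4 | h4 <;>
          rcases hβ1 with h5 | h5 <;> rw [h3, h4, h5] at hne <;> rw [h3, h4, h5] <;>
          first | (norm_num; done) | exact absurd (by norm_num) hne
      have h2 : F x - (b : ℂ) * χ x = -(((b + β : ℝ)) : ℂ) * χ x := by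
        rw [h1]; push_cast; ring
      rw [h2, norm_mul, norm_neg, chNorm χ hu, mul_one, Complex.norm_real, Real.norm_eq_abs]
      push_cast
      nlinarith
    · push_cast
      positivity
  refine hcard.trans ?_
  rw [hp2]
  refine h.trans ?_
  have h1 : (N.totient : ℝ) ≤ N := by exact_mod_cast Nat.totient_le N
  gcongr

end Pool.Agent.Lib.RH
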