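import Pool.Agent.Lib.MP_7b7e48_nt.RG.TOOLS
import Pool.Agent.Lib.MP_7b7e48_nt.RG.BAS

/-!
# Module CHR2 (45 minutes): the values of the character at `-1` and at the primes of `PZ N M`

PROOF. The number of units is `φ(N) ≥ N/K`; `f(-x) ≠ -st f(x)` for `≤ 10 |NG| ≤ 10 K^15 N/J` units, `f ≠ β χ` at `x` (or at `-x`) for `≤ K^100 N/J` units; `J ≥ K^1000`, so there is a unit `x` with `β χ(-x) = -st β χ(x)`: `χ(-1) = -st`.
In the same way `χ(l) = -1` for `l ∈ PZ` (`f4`). `PZ` is not empty (`Num.bl`, `block N M ⊆ PZ N M`), so `χ ≠ 1`.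
-/

open Finset

namespace Pool.Agent.Lib.RH

open Pool.Agent.Lib.RG hiding RR sig Good

private lemma chr2_tot (N : ℕ) [NeZero N] [DecidablePred fun x : ZMod N => IsUnit x] :
    N.totient ≤ ((Finset.univ : Finset (ZMod N)).filter fun x => IsUnit x).card := by
  rw [← ZMod.card_units_eq_totient N, ← Finset.card_univ]
  refine Finset.card_le_card_of_injOn (fun u : (ZMod N)ˣ => (u : ZMod N)) ?_ ?_
  · intro u _
    simp only [Finset.coe_filter, Finset.mem_univ, true_and, Set.mem_setOf_eq]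
    exact u.isUnit
  · intro a _ b _ hab
    exact Units.ext hab

private lemma chr2_num {P : Prm} {N : ℕ} [NeZero N] (hn : Num P N) {a1 a2 a3 : ℕ}
    (h1 : (a1 : ℝ) ≤ (Real.log N) ^ 100 * N / JJ N) (h2 : (a2 : ℝ) ≤ (Real.log N) ^ 100 * N / JJ N)
    (h3 : (a3 : ℝ) ≤ 10 * ((Real.log N) ^ 15 * N / JJ N)) : a1 + a2 + a3 < N.totient := by
  have hK := hn.K
  have hJ := hn.J1
  have hph := hn.ph
  have hN : (0 : ℝ) < N := by exact_mod_cast (NeZero.pos N)
  generalize hKd : Real.log (N : ℝ) = K at *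
  have hK1 : (1 : ℝ) ≤ K := by linarith
  have hK0 : (0 : ℝ) < K := by linarith
  have hJ0 : (0 : ℝ) < JJ N := lt_of_lt_of_le (by positivity) hJ
  have e1 : K ^ 15 ≤ K ^ 100 := pow_le_pow_right₀ hK1 (by norm_num)
  have e2 : K ^ 102 ≤ K ^ 1000 := pow_le_pow_right₀ hK1 (by norm_num)
  have e3 : K ^ 15 * N / JJ N ≤ K ^ 100 * N / JJ N := by gcongr
  have e4 : (12 * K ^ 100) * N / JJ N * K < N := by
    rw [div_mul_eq_mul_div, div_lt_iff₀ hJ0]
    have e5 : 12 * K ^ 101 < K ^ 102 := by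
      have : K ^ 102 = K ^ 101 * K := by ring
      rw [this]
      have h6 : (0 : ℝ) < K ^ 101 := by positivity
      nlinarith
    have e6 : 12 * K ^ 101 < JJ N := by linarith
    have e7 : 12 * K ^ 100 * (N : ℝ) * K = (N : ℝ) * (12 * K ^ 101) := by
      rw [show K ^ 101 = K ^ 100 * K from pow_succ K 100]
      ring
    rw [e7]
    exact mul_lt_mul_of_pos_left e6 hN
  have e7 : ((a1 + a2 + a3 : ℕ) : ℝ) ≤ (12 * K ^ 100) * N / JJ N := by
    push_cast
    have : (12 * K ^ 100) * N / JJ N = 12 * (K ^ 100 * N / JJ N) := by ring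
    rw [this]
    linarith
  have e8 : ((a1 + a2 + a3 : ℕ) : ℝ) * K < N.totient * K := by
    calc ((a1 + a2 + a3 : ℕ) : ℝ) * K ≤ (12 * K ^ 100) * N / JJ N * K :=
          mul_le_mul_of_nonneg_right e7 hK0.le
      _ < N := e4
      _ ≤ K * N.totient := hph
      _ = N.totient * K := mul_comm _ _
  have e9 := lt_of_mul_lt_mul_right e8 hK0.le
  exact_mod_cast e9

open Classical in
private lemma chr2_core (P : Prm) (N : ℕ) [NeZero N] (hn : Num P N) (ht : Tools P N) (s t : ℝ)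
    (f : ZMod N → ℝ) (hf : FS P N s t f)
    (χ : DirichletCharacter ℂ N) (β : ℝ)
    (h : (((Finset.univ : Finset (ZMod N)).filter fun x => IsUnit x ∧ (f x : ℂ) ≠ β * χ x).card : ℝ) ≤
        (Real.log N) ^ 100 * N / JJ N) (u : ZMod N) (hu : IsUnit u) (κ : ℝ)
    (h3 : ((Finset.univ : Finset (ZMod N)).filter fun x => IsUnit x ∧
      f (u * x) ≠ κ * f x).card ≤ 10 * (NG P N).card) : χ u = (κ : ℂ) := by
  obtain ⟨A1, hA1⟩ : ∃ A, ((Finset.univ : Finset (ZMod N)).filter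
    fun x => IsUnit x ∧ (f x : ℂ) ≠ β * χ x) = A := ⟨_, rfl⟩
  obtain ⟨A3, hA3⟩ : ∃ A, ((Finset.univ : Finset (ZMod N)).filter
    fun x => IsUnit x ∧ f (u * x) ≠ κ * f x) = A := ⟨_, rfl⟩
  obtain ⟨A2, hA2⟩ : ∃ A, ((Finset.univ : Finset (ZMod N)).filter
    fun x => IsUnit x ∧ (f (u * x) : ℂ) ≠ β * χ (u * x)) = A := ⟨_, rfl⟩
  rw [hA1] at h
  rw [hA3] at h3
  have h2 : A2.card ≤ A1.card := by
    rw [← hA1, ← hA2]
    refine Finset.card_le_card_of_injOn (fun x => u * x) ?_ ?_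
    · intro x hx
      simp only [Finset.coe_filter, Finset.mem_univ, true_and, Set.mem_setOf_eq] at hx ⊢
      exact ⟨hu.mul hx.1, hx.2⟩
    · intro a _ b _ hab
      exact hu.mul_left_cancel hab
  have hlt : (A1 ∪ A2 ∪ A3).card < ((Finset.univ : Finset (ZMod N)).filter fun x => IsUnit x).card := by
    have e1 : (A1 ∪ A2 ∪ A3).card ≤ A1.card + A2.card + A3.card :=
      (Finset.card_union_le _ _).trans (Nat.add_le_add_right (Finset.card_union_le _ _) _)
    have e2 := chr2_tot N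
    have e3 : A1.card + A2.card + A3.card < N.totient := by
      refine chr2_num hn h ?_ ?_
      · exact le_trans (by exact_mod_cast h2) h
      · have e4 : (A3.card : ℝ) ≤ 10 * ((NG P N).card : ℝ) := by exact_mod_cast h3
        have e5 := ht.sm0
        linarith
    omega
  obtain ⟨x, hx, hx'⟩ := Finset.exists_mem_notMem_of_card_lt_card hlt
  rw [Finset.mem_filter] at hx
  have hxu : IsUnit x := hx.2
  rw [Finset.mem_union, Finset.mem_union, not_or, not_or, ← hA1, ← hA2, ← hA3] at hx'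
  obtain ⟨⟨k1, k2⟩, k3⟩ := hx'
  have m1 : (f x : ℂ) = β * χ x := by
    by_contra hc
    exact k1 (Finset.mem_filter.2 ⟨Finset.mem_univ _, hxu, hc⟩)
  have m2 : (f (u * x) : ℂ) = β * χ (u * x) := by
    by_contra hc
    exact k2 (Finset.mem_filter.2 ⟨Finset.mem_univ _, hxu, hc⟩)
  have m3 : f (u * x) = κ * f x := by
    by_contra hc
    exact k3 (Finset.mem_filter.2 ⟨Finset.mem_univ _, hxu, hc⟩)
  have hfx : (f x : ℂ) ≠ 0 := by
    rcases hf.f1 x hxu with e | e <;> rw [e] <;> norm_num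
  rw [m3, map_mul] at m2
  push_cast at m2
  have m4 : (κ : ℂ) * (f x : ℂ) = χ u * (f x : ℂ) := by
    rw [m2, m1]
    ring
  exact (mul_right_cancel₀ hfx m4).symm

open Classical in
theorem chr2 (P : Prm) (hP : P.Ok) (N : ℕ) [NeZero N] (hn : Num P N) (ht : Tools P N) (s t : ℝ)
    (hs : s = 1 ∨ s = -1) (ht' : t = 1 ∨ t = -1) (f : ZMod N → ℝ) (hf : FS P N s t f)
    (χ : DirichletCharacter ℂ N) (β : ℝ) (hβ : β = 1 ∨ β = -1)
    (h : (((Finset.univ : Finset (ZMod N)).filter fun x => IsUnit x ∧ (f x : ℂ) ≠ β * χ x).card : ℝ) ≤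
        (Real.log N) ^ 100 * N / JJ N) :
    χ ≠ 1 ∧ χ (-1) = ((-(s * t) : ℝ) : ℂ) ∧ ∀ l ∈ PZ N (MM P N), χ (l : ZMod N) = -1 := by
  have hl : ∀ l ∈ PZ N (MM P N), χ (l : ZMod N) = -1 := by
    intro l hl
    have hl' := mem_PZ.1 hl
    have hu : IsUnit (l : ZMod N) :=
      unit_of_coprime ((Nat.Prime.coprime_iff_not_dvd hl'.2.2.1).2 hl'.2.2.2)
    have e := chr2_core P N hn ht s t f hf χ β h (l : ZMod N) hu (-1) (by
      have := hf.f4 l hl
      simpa only [neg_one_mul] using this)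
    rw [e]
    push_cast
    rfl
  have hm1 : χ (-1) = ((-(s * t) : ℝ) : ℂ) := by
    refine chr2_core P N hn ht s t f hf χ β h (-1) isUnit_one.neg (-(s * t)) ?_
    have := hf.f3
    simpa only [neg_one_mul] using this
  refine ⟨?_, hm1, hl⟩
  rintro rfl
  have hK := hn.K
  have hK1 : (1 : ℝ) ≤ Real.log N := by linarith
  have hMK : (Real.log N) ^ 3 ≤ MM P N :=
    le_trans (pow_le_pow_right₀ hK1 (by have := hP.C1; omega)) hn.M1
  have hMN : MM P N ≤ N := by
    have h1 := MM_lt_zz hn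
    have h2 : zz P N ≤ N := by
      have h3 := hn.z1
      have h4 : (N : ℝ) ^ P.c ≤ (N : ℝ) ^ (1 : ℝ) := by
        apply Real.rpow_le_rpow_of_exponent_le
        · have h5 : 1 ≤ N := le_trans (by norm_num) (N_pos hn)
          exact_mod_cast h5
        · have := hP.c1
          have := hP.kap1
          linarith
      rw [Real.rpow_one] at h4
      exact_mod_cast h3.trans h4
    omega
  have hb := hn.bl (MM P N) hMK hMN
  have hM0 : (0 : ℝ) < MM P N := lt_of_lt_of_le (by positivity) hMK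
  have hbpos : 0 < (block N (MM P N)).card := by
    have : (0 : ℝ) < (block N (MM P N)).card := lt_of_lt_of_le (by positivity) hb
    exact_mod_cast this
  obtain ⟨l, hlb⟩ := Finset.card_pos.1 hbpos
  have hlb' := mem_block.1 hlb
  have hlP : l ∈ PZ N (MM P N) := by
    rw [mem_PZ]
    refine ⟨hlb'.1, hlb'.2.1.trans ?_, hlb'.2.2.1, hlb'.2.2.2⟩
    have : 1 ≤ MM P N := by exact_mod_cast hM0
    nlinarith
  have hu : IsUnit (l : ZMod N) :=
    unit_of_coprime ((Nat.Prime.coprime_iff_not_dvd hlb'.2.2.1).2 hlb'.2.2.2)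
  have e1 := hl l hlP
  rw [MulChar.one_apply hu] at e1
  norm_num at e1

end Pool.Agent.Lib.RH
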