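import Pool.Agent.Lib.MP_7b7e48_nt.RG.STR0

/-!
# Module STR2 (90 minutes): almost all numbers in `W_3` have the sign of their class

`B = block N M` (subset of `PZ N M`), `E0 = |NG|`. PROOF. `EX` = units `x` with: `-x` not good, or `f(-x) ≠ -st f(x)`, or for more than half of the `l ∈ B`: (`-l x` not good or `f(-l x) ≠ st f(x)`).
Sizes: `E0`; `10 E0` (`f3`); for every `l` the number of `x` with `-l x` not good is `E0`, and `f(-l x) = -f(-x)` off `10 E0` (`f4` at `-x`), `f(-x) = -st f(x)` off `10 E0`, so the number of pairs `(l, x)` is `≤ 21 E0 |B|` and the number of `x` with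
more than `|B|/2` bad `l` is `≤ 42 E0`. Total `≤ 53 E0`.
Let `a ∈ WW 3`, `a < J N`, `x = (a : ZMod N) ∉ EX` (a unit), and suppose `lam a ≠ f x`. If `lam a = s` then `f x = -s` and `f(-x) = t`: `b ∈ RR (-x)`, `lam b = t`, coprime to `a` (`FS.f2`, `pick`), `a + b = k N` (`zero_sum`) contradicts `Missing`.
If `lam a = -s` then `f x = s`: choose `l ∈ B` with `-l x` good and `f(-l x) = st f(x) = t` (at least half of the `l ∈ B`, `B` is not empty: `Num.bl`), `b ∈ RR(-l x)`, `lam b = t`, coprime to `l a`; `lam (l a) = s`, `l a ∈ WW 4`, `l a + b ≤ (2 M + 1) J N`. Contradiction.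
-/

open Finset
open Pool.Agent.Lib.MP_45349e_nt.LS (lam abs_lam lam_prime lam_one)

namespace Pool.Agent.Lib.RH

open Pool.Agent.Lib.RG hiding RR sig Good

variable {P : Prm} {N : ℕ}

/-- at most `log N` primes of a block divide a given number `≤ N ^ 2` -/
theorem block_dvd_card (hP : P.Ok) (hN : Num P N) (a : ℕ) (ha : 1 ≤ a) (ha2 : a ≤ N ^ 2) :
    (((block N (MM P N)).filter fun l => l ∣ a).card : ℝ) ≤ Real.log N := by
  classical
  have hK := hN.K
  have hK1 : (1 : ℝ) ≤ Real.log N := le_trans (by norm_num) hK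
  set B := (block N (MM P N)).filter fun l => l ∣ a with hB
  have hM : 1 < MM P N := (nat_facts hP hN).2.2.2.2.1
  have hM8 : (8 : ℝ) ≤ MM P N := by
    have h1 := hN.M1
    have h2 : Real.log N ≤ (Real.log N) ^ P.C1 := by
      have hC1 : 1 ≤ P.C1 := le_trans (by norm_num) hP.C1
      calc Real.log N = (Real.log N) ^ 1 := (pow_one _).symm
        _ ≤ _ := pow_le_pow_right₀ hK1 hC1
    have h3 : (8 : ℝ) ≤ Real.log N := le_trans (by norm_num) hK
    linarith
  have hprod : MM P N ^ B.card ≤ a := by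
    calc MM P N ^ B.card = ∏ _q ∈ B, MM P N := by rw [prod_const]
      _ ≤ ∏ q ∈ B, q := prod_le_prod' fun q hq => (mem_block.mp (mem_filter.mp hq).1).1.le
      _ ≤ ∏ q ∈ a.primeFactors, q := by
          refine prod_le_prod_of_subset_of_one_le' ?_ fun q hq _ => ?_
          · intro q hq
            obtain ⟨h1, h2⟩ := mem_filter.mp hq
            exact Nat.mem_primeFactors.mpr ⟨(mem_block.mp h1).2.2.1, h2, by omega⟩
          · exact (Nat.prime_of_mem_primeFactors hq).one_lt.le
      _ ≤ a := Nat.le_of_dvd ha (Nat.prod_primeFactors_dvd a)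
  have h1 : ((MM P N : ℝ)) ^ B.card ≤ (N : ℝ) ^ 2 := by
    have : MM P N ^ B.card ≤ N ^ 2 := hprod.trans ha2
    exact_mod_cast this
  have h2 := Real.log_le_log (by positivity) h1
  rw [Real.log_pow, Real.log_pow] at h2
  push_cast at h2
  have h3 : 2 ≤ Real.log (MM P N) := by
    have h4 : Real.log 8 ≤ Real.log (MM P N) := Real.log_le_log (by norm_num) hM8
    have h5 : Real.log 8 = 3 * Real.log 2 := by
      rw [show (8 : ℝ) = 2 ^ 3 by norm_num, Real.log_pow]
      norm_num
    have h6 := Real.log_two_gt_d9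
    rw [h5] at h4
    linarith
  have h4 : (B.card : ℝ) * 2 ≤ (B.card : ℝ) * Real.log (MM P N) :=
    mul_le_mul_of_nonneg_left h3 (Nat.cast_nonneg _)
  linarith

/-- numbers of sign `λ(a) ≠ f(x)` in a class `x` all of whose relatives are normal do not exist -/
theorem iv_main (hP : P.Ok) (hN : Num P N) [NeZero N] {s t : ℝ} (hs : s = 1 ∨ s = -1)
    (ht : t = 1 ∨ t = -1) (hm : Missing P N s t) (hbig : 4 * Real.log N < (block N (MM P N)).card)
    {f : ZMod N → ℝ} (hf : FS P N s t f) {x : ZMod N} (hu : IsUnit x) (hg : Good P N (-x))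
    (hfx : f (-x) = -(s * t) * f x)
    (hl : ∃ B : Finset ℕ, B ⊆ block N (MM P N) ∧ 2 * B.card ≤ (block N (MM P N)).card ∧
      ∀ l ∈ block N (MM P N), l ∉ B → Good P N (-((l : ZMod N) * x)) ∧
        f (-((l : ZMod N) * x)) = s * t * f x)
    {a : ℕ} (ha : WW P N 3 a) (hax : (a : ZMod N) = x) (hle : a ≤ 40 * MM P N ^ 6 * (JJ N * N)) :
    lam a = f x := by
  classical
  obtain ⟨hN0, h4M, hJz, hJ, hM, hKB, h16⟩ := nat_facts hP hN
  have hss : s * s = 1 := by
    rcases hs with rfl | rfl <;> norm_num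
  have htt : t * t = 1 := by
    rcases ht with rfl | rfl <;> norm_num
  have hN2 : 1 ≤ N ^ 2 := Nat.one_le_pow _ _ hN0
  have hM68 : 40 * MM P N ^ 6 ≤ 80 * MM P N ^ 7 := by
    have : MM P N ^ 6 ≤ MM P N ^ 7 := Nat.pow_le_pow_right (by omega) (by norm_num)
    omega
  have hM78 : MM P N ^ 7 ≤ MM P N ^ 8 := Nat.pow_le_pow_right (by omega) (by norm_num)
  have hM1 : 1 ≤ MM P N ^ 8 := Nat.one_le_pow _ _ (by omega)
  have haN : a ≤ N ^ 2 := by
    have h1 : a ≤ KB P N * N := by
      unfold KB
      have : 40 * MM P N ^ 6 * (JJ N * N) ≤ 100 * MM P N ^ 8 * (JJ N * N) :=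
        Nat.mul_le_mul_right _ (by omega)
      calc a ≤ 40 * MM P N ^ 6 * (JJ N * N) := hle
        _ ≤ 100 * MM P N ^ 8 * (JJ N * N) := this
        _ = _ := by ring
    calc a ≤ KB P N * N := h1
      _ ≤ N * N := Nat.mul_le_mul_right _ hKB
      _ = _ := by ring
  have ha1 : 1 ≤ a := ha.1.le
  have hfpm := hf.f1 x hu
  by_contra hcon
  have hsum : f x = -lam a := by
    rcases hfpm with h1 | h1 <;> rcases lam_pm a with h2 | h2
    · exact absurd (by rw [h1, h2]) hcon
    · rw [h1, h2]; norm_num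
    · rw [h1, h2]
    · exact absurd (by rw [h1, h2]) hcon
  -- picking an element of the majority sign in a good class
  have hpick : ∀ y : ZMod N, IsUnit y → Good P N y → ∃ b ∈ RR P N y, lam b = f y ∧ b.Coprime a := by
    intro y hy hgy
    obtain ⟨b, hb, hba⟩ := pick_sub hP hN hy hgy (filter_subset (fun a => lam a = f y) _)
      (by convert hf.f2 y hy hgy) ha1 ha.2.1 (haN.trans (Nat.pow_le_pow_right hN0 (by norm_num)))
    exact ⟨b, (mem_filter.mp hb).1, (mem_filter.mp hb).2, hba⟩
  have hla : lam a = s ∨ lam a = -s := by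
    rcases hs with rfl | rfl <;> rcases lam_pm a with h2 | h2
    · exact Or.inl h2
    · exact Or.inr h2
    · right; rw [h2]; norm_num
    · exact Or.inl h2
  rcases hla with hla | hla
  · -- `λ(a) = s`
    obtain ⟨b, hb, hb2, hba⟩ := hpick (-x) hu.neg hg
    obtain ⟨hb3, hb4, hb5⟩ := mem_RR.mp hb
    have hbt : lam b = t := by
      rw [hb2, hfx, hsum, hla]
      calc -(s * t) * -s = s * s * t := by ring
        _ = t := by rw [hss, one_mul]
    have hWb : WW P N 4 b := by
      have := WW_mul hP hN (w := 1) (r := 4) W2_one hb5 (by norm_num)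
      rwa [one_mul] at this
    have hWa : WW P N 4 a := ⟨ha.1, ha.2.1, ha.2.2.1, ha.2.2.2.trans (by norm_num)⟩
    refine engine' hN0 hm hWa hWb hba.symm (by rw [hax, hb4]; ring) ?_ ⟨hla, hbt⟩
    have h1 : JJ N * N ≤ 20 * MM P N ^ 8 * (JJ N * N) := by
      have : 1 ≤ 20 * MM P N ^ 8 := by omega
      nlinarith
    unfold KB
    calc a + b ≤ 40 * MM P N ^ 6 * (JJ N * N) + 20 * MM P N ^ 8 * (JJ N * N) := by omega
      _ ≤ 80 * MM P N ^ 8 * (JJ N * N) + 20 * MM P N ^ 8 * (JJ N * N) :=
          Nat.add_le_add_right (Nat.mul_le_mul_right _ (by omega)) _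
      _ = _ := by ring
  · -- `λ(a) = -s`
    obtain ⟨B, hB1, hB2, hB3⟩ := hl
    have hex : ∃ l ∈ block N (MM P N), l ∉ B ∧ ¬ l ∣ a := by
      by_contra hno
      push Not at hno
      have h1 : block N (MM P N) ⊆ B ∪ (block N (MM P N)).filter fun l => l ∣ a := by
        intro l hl
        by_cases h : l ∈ B
        · exact mem_union_left _ h
        · exact mem_union_right _ (mem_filter.mpr ⟨hl, hno l hl h⟩)
      have h2 := (card_le_card h1).trans (card_union_le _ _)
      have h3 := block_dvd_card hP hN a ha1 haN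
      have h4 : ((block N (MM P N)).card : ℝ) ≤ B.card +
          (((block N (MM P N)).filter fun l => l ∣ a).card : ℝ) := by exact_mod_cast h2
      have h5 : 2 * (B.card : ℝ) ≤ (block N (MM P N)).card := by exact_mod_cast hB2
      have h6 : (1 : ℝ) ≤ Real.log N := le_trans (by norm_num) hN.K
      linarith
    obtain ⟨l, hl, hlB, hla'⟩ := hex
    obtain ⟨hg2, hf2⟩ := hB3 l hl hlB
    have hlP : l ∈ PZ N (MM P N) := block_PZ (by omega) hl
    obtain ⟨hlp, hl1, hl2, hl3, hlN, hl4, hl5, hlam⟩ := PZ_facts hP hN hlP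
    have hul : IsUnit (l : ZMod N) := (ZMod.isUnit_iff_coprime l N).mpr hlN
    obtain ⟨b, hb, hb2, hba⟩ := hpick (-((l : ZMod N) * x)) (hul.mul hu).neg hg2
    obtain ⟨hb3, hb4, hb5⟩ := mem_RR.mp hb
    have hbt : lam b = t := by
      rw [hb2, hf2, hsum, hla]
      calc s * t * - -s = s * s * t := by ring
        _ = t := by rw [hss, one_mul]
    have hWb : WW P N 4 b := by
      have := WW_mul hP hN (w := 1) (r := 4) W2_one hb5 (by norm_num)
      rwa [one_mul] at this
    have hWa : WW P N 4 (l * a) := by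
      refine ⟨?_, Nat.Coprime.mul_left hlN ha.2.1, rough_mul hl5 ha.2.2.1, ?_⟩
      · have := hlp.one_lt
        nlinarith
      · rw [smc_mul hlp.pos (by omega)]
        have := ha.2.2.2
        omega
    have hlb : l.Coprime b := by
      refine Nat.coprime_of_dvd fun p hp hpl hpb => ?_
      have h1 := (Nat.prime_dvd_prime_iff_eq hp hlp).mp hpl
      have h2 := hb5.2.2 p hp hpb
      omega
    have hl2M : l ≤ 2 * MM P N := (mem_block.mp hl).2.1
    refine engine' hN0 hm hWa hWb (Nat.Coprime.mul_left hlb hba.symm)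
      (by push_cast; rw [hax, hb4]; ring) ?_ ⟨?_, hbt⟩
    · have h1 : JJ N * N ≤ 20 * MM P N ^ 8 * (JJ N * N) := by
        have : 1 ≤ 20 * MM P N ^ 8 := by omega
        nlinarith
      unfold KB
      calc l * a + b ≤ (2 * MM P N) * (40 * MM P N ^ 6 * (JJ N * N)) + 20 * MM P N ^ 8 * (JJ N * N) :=
            Nat.add_le_add (Nat.mul_le_mul hl2M hle) (by omega)
        _ = 80 * MM P N ^ 7 * (JJ N * N) + 20 * MM P N ^ 8 * (JJ N * N) := by ring
        _ ≤ 80 * MM P N ^ 8 * (JJ N * N) + 20 * MM P N ^ 8 * (JJ N * N) :=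
            Nat.add_le_add_right (Nat.mul_le_mul_right _ (by omega)) _
        _ = _ := by ring
    · rw [Pool.Agent.Lib.MP_45349e_nt.LS.lam_mul l a hlp.ne_zero (by omega), hlam, hla]
      ring

open Classical in
/-- `l` is bad for `x` -/
noncomputable def BL (P : Prm) (N : ℕ) (s t : ℝ) (f : ZMod N → ℝ) (x : ZMod N) : Finset ℕ :=
  (block N (MM P N)).filter fun l => ¬ (Good P N (-((l : ZMod N) * x)) ∧
    f (-((l : ZMod N) * x)) = s * t * f x)

open Classical in
/-- exceptional classes -/
noncomputable def EXs (P : Prm) (N : ℕ) [NeZero N] (s t : ℝ) (f : ZMod N → ℝ) : Finset (ZMod N) :=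
  univ.filter fun x => IsUnit x ∧ (¬ Good P N (-x) ∨ f (-x) ≠ -(s * t) * f x ∨
    (block N (MM P N)).card < 2 * (BL P N s t f x).card)

open Classical in
theorem ex_card (hP : P.Ok) (hN : Num P N) [NeZero N] {s t : ℝ}
    (hbig : 0 < (block N (MM P N)).card) {f : ZMod N → ℝ} (hf : FS P N s t f) :
    (EXs P N s t f).card ≤ 60 * (NG P N).card := by
  set T3 : Finset (ZMod N) := univ.filter fun x => IsUnit x ∧
    (block N (MM P N)).card < 2 * (BL P N s t f x).card with hT3
  set E3 : Finset (ZMod N) := univ.filter fun x => IsUnit x ∧ f (-x) ≠ -(s * t) * f x with hE3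
  have hE3c : E3.card ≤ 10 * (NG P N).card := hf.f3
  have hgood : ∀ x : ZMod N, IsUnit x → x ∉ NG P N → Good P N x := by
    intro x hx h
    by_contra hcon
    apply h
    unfold NG
    rw [mem_filter]
    exact ⟨mem_univ _, hx, hcon⟩
  have hsub : EXs P N s t f ⊆ (univ.filter fun x => -x ∈ NG P N) ∪ E3 ∪ T3 := by
    intro x hx
    obtain ⟨-, hu, h⟩ := mem_filter.mp hx
    rcases h with h | h | h
    · refine mem_union_left _ (mem_union_left _ (mem_filter.mpr ⟨mem_univ _, ?_⟩))
      by_contra hcon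
      exact h (hgood (-x) hu.neg hcon)
    · exact mem_union_left _ (mem_union_right _ (mem_filter.mpr ⟨mem_univ _, hu, h⟩))
    · exact mem_union_right _ (mem_filter.mpr ⟨mem_univ _, hu, h⟩)
  -- Markov
  have hl : ∀ l ∈ block N (MM P N), ((univ : Finset (ZMod N)).filter fun x => IsUnit x ∧
      l ∈ BL P N s t f x).card ≤ 21 * (NG P N).card := by
    intro l hl
    have hM : 1 < MM P N := (nat_facts hP hN).2.2.2.2.1
    have hlP : l ∈ PZ N (MM P N) := block_PZ (by omega) hl
    obtain ⟨hlp, -, -, -, hlN, -, -, hlam⟩ := PZ_facts hP hN hlP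
    have hul : IsUnit (l : ZMod N) := (ZMod.isUnit_iff_coprime l N).mpr hlN
    have h4 := hf.f4 l hlP
    have hsub2 : ((univ : Finset (ZMod N)).filter fun x => IsUnit x ∧ l ∈ BL P N s t f x) ⊆
        (univ.filter fun x => -((l : ZMod N) * x) ∈ NG P N) ∪
        (univ.filter fun x => (l : ZMod N) * x ∈ E3) ∪
        (univ.filter fun x => IsUnit x ∧ f ((l : ZMod N) * x) ≠ -f x) := by
      intro x hx
      obtain ⟨-, hu, hb⟩ := mem_filter.mp hx
      have hb2 := (mem_filter.mp hb).2
      by_cases h1 : -((l : ZMod N) * x) ∈ NG P N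
      · exact mem_union_left _ (mem_union_left _ (mem_filter.mpr ⟨mem_univ _, h1⟩))
      by_cases h2 : (l : ZMod N) * x ∈ E3
      · exact mem_union_left _ (mem_union_right _ (mem_filter.mpr ⟨mem_univ _, h2⟩))
      by_cases h3 : f ((l : ZMod N) * x) = -f x
      · exfalso
        apply hb2
        refine ⟨hgood _ (hul.mul hu).neg h1, ?_⟩
        have h5 : f (-((l : ZMod N) * x)) = -(s * t) * f ((l : ZMod N) * x) := by
          by_contra hcon
          exact h2 (mem_filter.mpr ⟨mem_univ _, hul.mul hu, hcon⟩)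
        rw [h5, h3]
        ring
      · exact mem_union_right _ (mem_filter.mpr ⟨mem_univ _, hu, h3⟩)
    have hc1 := card_pre (NG P N) (fun x => -((l : ZMod N) * x))
      (fun x y h => mul_inj hlN (neg_injective h))
    have hc2 := card_pre E3 (fun x => (l : ZMod N) * x) (mul_inj hlN)
    have h6 := card_le_card hsub2
    have h7 := h6.trans ((card_union_le _ _).trans (Nat.add_le_add_right (card_union_le _ _) _))
    omega
  have hmark : T3.card * (block N (MM P N)).card ≤ 42 * (NG P N).card * (block N (MM P N)).card := by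
    calc T3.card * (block N (MM P N)).card = ∑ _x ∈ T3, (block N (MM P N)).card := by
          rw [sum_const, smul_eq_mul]
      _ ≤ ∑ x ∈ T3, 2 * (BL P N s t f x).card :=
          sum_le_sum fun x hx => (mem_filter.mp hx).2.2.le
      _ = ∑ x ∈ T3, 2 * ∑ l ∈ block N (MM P N), (if l ∈ BL P N s t f x then 1 else 0) := by
          refine sum_congr rfl fun x _ => ?_
          rw [← Finset.sum_filter, ← Finset.card_eq_sum_ones]
          congr 2
          ext l
          rw [mem_filter]
          constructor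
          · intro h
            exact ⟨(mem_filter.mp h).1, h⟩
          · intro h
            exact h.2
      _ = 2 * ∑ l ∈ block N (MM P N), ∑ x ∈ T3, (if l ∈ BL P N s t f x then 1 else 0) := by
          rw [← mul_sum, sum_comm]
      _ ≤ 2 * ∑ _l ∈ block N (MM P N), 21 * (NG P N).card := by
          refine Nat.mul_le_mul_left 2 (sum_le_sum fun l hl' => ?_)
          rw [← Finset.sum_filter, ← Finset.card_eq_sum_ones]
          refine (card_le_card ?_).trans (hl l hl')
          intro x hx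
          obtain ⟨h1, h2⟩ := mem_filter.mp hx
          exact mem_filter.mpr ⟨mem_univ _, (mem_filter.mp h1).2.1, h2⟩
      _ = _ := by
          rw [sum_const, smul_eq_mul]
          ring
  have hT3c : T3.card ≤ 42 * (NG P N).card := Nat.le_of_mul_le_mul_right hmark hbig
  have hc1 := card_pre (NG P N) (fun x => -x) neg_injective
  have h6 := card_le_card hsub
  have h7 := h6.trans ((card_union_le _ _).trans (Nat.add_le_add_right (card_union_le _ _) _))
  omega

/-- outside the exceptional classes the sign of all the numbers is given by `f` -/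
theorem iv_ex (hP : P.Ok) (hN : Num P N) [NeZero N] {s t : ℝ} (hs : s = 1 ∨ s = -1)
    (ht : t = 1 ∨ t = -1) (hm : Missing P N s t) (hbig : 4 * Real.log N < (block N (MM P N)).card)
    {f : ZMod N → ℝ} (hf : FS P N s t f) {x : ZMod N} (hu : IsUnit x) (hx : x ∉ EXs P N s t f)
    {a : ℕ} (ha : WW P N 3 a) (hax : (a : ZMod N) = x) (hle : a ≤ 40 * MM P N ^ 6 * (JJ N * N)) :
    lam a = f x := by
  classical
  have h1 : ¬ (¬ Good P N (-x) ∨ f (-x) ≠ -(s * t) * f x ∨
      (block N (MM P N)).card < 2 * (BL P N s t f x).card) := by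
    intro h
    exact hx (mem_filter.mpr ⟨mem_univ _, hu, h⟩)
  push Not at h1
  obtain ⟨h2, h3, h4⟩ := h1
  refine iv_main hP hN hs ht hm hbig hf hu h2 h3 ⟨BL P N s t f x, filter_subset _ _, h4, ?_⟩ ha hax hle
  intro l hl hlB
  by_contra hcon
  exact hlB (mem_filter.mpr ⟨hl, hcon⟩)

theorem str2 (P : Prm) (hP : P.Ok) (N : ℕ) [NeZero N] (hn : Num P N) (s t : ℝ) (hs : s = 1 ∨ s = -1)
    (ht : t = 1 ∨ t = -1) (hm : Missing P N s t) (f : ZMod N → ℝ) (hf : FS P N s t f) :
    ∃ EX : Finset (ZMod N), EX.card ≤ 100 * (NG P N).card ∧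
      ∀ a : ℕ, WW P N 3 a → a < JJ N * N → (a : ZMod N) ∉ EX → lam a = f (a : ZMod N) := by
  have hbig := block_big hP hn
  have hpos : 0 < (block N (MM P N)).card := by
    have h1 : (1 : ℝ) ≤ Real.log N := le_trans (by norm_num) hn.K
    have h2 : (0 : ℝ) < (block N (MM P N)).card := by linarith
    exact_mod_cast h2
  refine ⟨EXs P N s t f, (ex_card hP hn hpos hf).trans (Nat.mul_le_mul_right _ (by norm_num)), ?_⟩
  intro a ha hlt hx
  have hM6 : 1 ≤ MM P N ^ 6 := Nat.one_le_pow _ _ (by
    have := (nat_facts hP hn).2.2.2.2.1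
    omega)
  refine iv_ex hP hn hs ht hm hbig hf (unit_of_coprime ha.2.1) hx ha rfl ?_
  have h1 : 1 ≤ 40 * MM P N ^ 6 := by omega
  nlinarith

end Pool.Agent.Lib.RH
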