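import Pool.Agent.Lib.MP_7b7e48_nt.RG.BAS

/-!
# Module TRI: many products of three primes with `χ = -1`
-/

open Finset

namespace Pool.Agent.Lib.RH

open Pool.Agent.Lib.RG hiding RR sig Good

/-- the exponent of the block -/
private theorem TRI_idx (y : ℕ) (hy : 9 ≤ y) : ∃ i : ℕ, 2 ^ (3 * i + 3) < y ∧ y ≤ 2 ^ (3 * i + 6) := by
  set t := Nat.log 2 (y - 1) with ht
  have h0 : y - 1 ≠ 0 := by omega
  have h1 : 2 ^ t ≤ y - 1 := Nat.pow_log_le_self 2 h0
  have h2 : y - 1 < 2 ^ (t + 1) := Nat.lt_pow_succ_log_self (by norm_num) (y - 1)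
  have h3 : 3 ≤ t := by
    by_contra hlt
    have h4 : t + 1 ≤ 3 := by omega
    have h5 : 2 ^ (t + 1) ≤ 2 ^ 3 := Nat.pow_le_pow_right (by norm_num) h4
    norm_num at h5
    omega
  refine ⟨(t - 3) / 3, ?_, ?_⟩
  · have h6 : 3 * ((t - 3) / 3) + 3 ≤ t := by omega
    have h7 : 2 ^ (3 * ((t - 3) / 3) + 3) ≤ 2 ^ t := Nat.pow_le_pow_right (by norm_num) h6
    omega
  · have h6 : t + 1 ≤ 3 * ((t - 3) / 3) + 6 := by omega
    have h7 : 2 ^ (t + 1) ≤ 2 ^ (3 * ((t - 3) / 3) + 6) := Nat.pow_le_pow_right (by norm_num) h6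
    omega

/-- the products of three elements of a set of primes -/
private theorem TRI_count (A T : Finset ℕ) (hA : ∀ l ∈ A, l.Prime)
    (hT : ∀ l1 ∈ A, ∀ l2 ∈ A, ∀ l3 ∈ A, l1 * l2 * l3 ∈ T) : A.card ^ 3 ≤ 27 * T.card := by
  classical
  set f : ℕ × ℕ × ℕ → ℕ := fun v => v.1 * v.2.1 * v.2.2 with hf
  have h1 : (A ×ˢ A ×ˢ A).card ≤ 27 * ((A ×ˢ A ×ˢ A).image f).card := by
    refine card_le_mul_card_image _ 27 ?_
    intro n hn
    obtain ⟨v, hv, rfl⟩ := mem_image.1 hn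
    rw [mem_product, mem_product] at hv
    have hp1 := hA _ hv.1
    have hp2 := hA _ hv.2.1
    have hp3 := hA _ hv.2.2
    have hpf : (f v).primeFactors = {v.1, v.2.1, v.2.2} := by
      simp only [hf]
      rw [Nat.primeFactors_mul (Nat.mul_ne_zero hp1.ne_zero hp2.ne_zero) hp3.ne_zero,
        Nat.primeFactors_mul hp1.ne_zero hp2.ne_zero, hp1.primeFactors, hp2.primeFactors,
        hp3.primeFactors]
      ext a
      simp only [mem_union, mem_singleton, mem_insert]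
      tauto
    have hc3 : (f v).primeFactors.card ≤ 3 := by
      rw [hpf]
      exact card_le_three
    have hsub : (A ×ˢ A ×ˢ A).filter (fun u => f u = f v) ⊆
        (f v).primeFactors ×ˢ (f v).primeFactors ×ˢ (f v).primeFactors := by
      intro u hu
      rw [mem_filter, mem_product, mem_product] at hu
      obtain ⟨⟨hu1, hu2, hu3⟩, hue⟩ := hu
      have hq1 := hA _ hu1
      have hq2 := hA _ hu2
      have hq3 := hA _ hu3
      have hne : f v ≠ 0 := by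
        simp only [hf]
        exact Nat.mul_ne_zero (Nat.mul_ne_zero hp1.ne_zero hp2.ne_zero) hp3.ne_zero
      rw [mem_product, mem_product, Nat.mem_primeFactors, Nat.mem_primeFactors, Nat.mem_primeFactors]
      refine ⟨⟨hq1, ?_, hne⟩, ⟨hq2, ?_, hne⟩, ⟨hq3, ?_, hne⟩⟩
      · rw [← hue]
        exact ⟨u.2.1 * u.2.2, by simp only [hf]; ring⟩
      · rw [← hue]
        exact ⟨u.1 * u.2.2, by simp only [hf]; ring⟩
      · rw [← hue]
        exact ⟨u.1 * u.2.1, by simp only [hf]; ring⟩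
    refine (card_le_card hsub).trans ?_
    rw [card_product, card_product]
    calc (f v).primeFactors.card * ((f v).primeFactors.card * (f v).primeFactors.card)
        ≤ 3 * (3 * 3) := Nat.mul_le_mul hc3 (Nat.mul_le_mul hc3 hc3)
      _ = 27 := by norm_num
  have h2 : (A ×ˢ A ×ˢ A).image f ⊆ T := by
    intro n hn
    obtain ⟨v, hv, rfl⟩ := mem_image.1 hn
    rw [mem_product, mem_product] at hv
    exact hT _ hv.1 _ hv.2.1 _ hv.2.2
  have h3 := card_le_card h2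
  rw [card_product, card_product] at h1
  calc A.card ^ 3 = A.card * (A.card * A.card) := by ring
    _ ≤ 27 * ((A ×ˢ A ×ˢ A).image f).card := h1
    _ ≤ 27 * T.card := Nat.mul_le_mul_left _ h3

theorem tri (P : Prm) (hP : P.Ok) (N : ℕ) [NeZero N] (hn : Num P N) (χ : DirichletCharacter ℂ N)
    (hsq : χ ^ 2 = 1) (hb : Blk P N 12 (-1) χ) (y : ℕ) (hy : (N : ℝ) ^ (P.kap / 2) ≤ y) (hyN : y ≤ N) :
    (y : ℝ) / (Real.log N) ^ 5 ≤ (T3 P χ y).card := by
  classical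
  set K := Real.log N with hK
  have hK9 : (10 : ℝ) ^ 9 ≤ K := hn.K
  have hK0 : 0 < K := by linarith [show (0 : ℝ) < 10 ^ 9 by norm_num]
  have hK1 : 1 ≤ K := by linarith [show (1 : ℝ) ≤ 10 ^ 9 by norm_num]
  have hN2 : 2 ≤ N := N_pos hn
  have hN0 : (0 : ℝ) < N := by
    have : 0 < N := by omega
    exact_mod_cast this
  have hN1 : (1 : ℝ) ≤ N := by
    have : 1 ≤ N := by omega
    exact_mod_cast this
  have hkap0 := hP.kap0
  -- N^(kap/1000) is large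
  have hbig : K ^ 10 ≤ (N : ℝ) ^ (P.kap / 1000) := by
    refine le_trans ?_ hn.sm
    exact pow_le_pow_right₀ hK1 (by omega)
  have hbig64 : 64 < (N : ℝ) ^ (P.kap / 1000) := by
    refine lt_of_lt_of_le ?_ hbig
    calc (64 : ℝ) < K := by linarith [show (64 : ℝ) < 10 ^ 9 by norm_num]
      _ ≤ K ^ 10 := le_self_pow₀ hK1 (by norm_num)
  have hy9 : 9 ≤ y := by
    have h1 : (N : ℝ) ^ (P.kap / 1000) ≤ (N : ℝ) ^ (P.kap / 2) :=
      Real.rpow_le_rpow_of_exponent_le hN1 (by linarith)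
    have h2 : (64 : ℝ) < y := by linarith
    have h3 : 64 < y := by exact_mod_cast h2
    omega
  obtain ⟨i, hi1, hi2⟩ := TRI_idx y hy9
  have hi1R : (8 : ℝ) * ((2 : ℝ) ^ i) ^ 3 < y := by
    have h1 : (((2 ^ (3 * i + 3) : ℕ)) : ℝ) < (y : ℝ) := by exact_mod_cast hi1
    push_cast at h1
    calc (8 : ℝ) * ((2 : ℝ) ^ i) ^ 3 = 2 ^ (3 * i + 3) := by
          rw [pow_add, pow_mul', mul_comm]
          norm_num
      _ < y := h1
  have hi2R : (y : ℝ) ≤ 64 * ((2 : ℝ) ^ i) ^ 3 := by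
    have h1 : (y : ℝ) ≤ (((2 ^ (3 * i + 6) : ℕ)) : ℝ) := by exact_mod_cast hi2
    push_cast at h1
    calc (y : ℝ) ≤ 2 ^ (3 * i + 6) := h1
      _ = 64 * ((2 : ℝ) ^ i) ^ 3 := by
          rw [pow_add, pow_mul', mul_comm]
          norm_num
  have h2i : (0 : ℝ) < (2 : ℝ) ^ i := by positivity
  -- 2^i > zz
  have hzlt : (zz P N : ℝ) < (2 : ℝ) ^ i := by
    have h1 : (zz P N : ℝ) ^ 3 < ((2 : ℝ) ^ i) ^ 3 := by
      have hc : P.c ≤ P.kap / 10000 := hP.c1
      have h2 : (zz P N : ℝ) ^ 3 ≤ (N : ℝ) ^ (3 * P.c) := by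
        calc (zz P N : ℝ) ^ 3 ≤ ((N : ℝ) ^ P.c) ^ 3 := pow_le_pow_left₀ (Nat.cast_nonneg _) hn.z1 3
          _ = (N : ℝ) ^ (3 * P.c) := by
              rw [← Real.rpow_natCast, ← Real.rpow_mul hN0.le]
              congr 1
              push_cast
              ring
      have h3 : (N : ℝ) ^ (3 * P.c) * 64 < (N : ℝ) ^ (P.kap / 2) := by
        calc (N : ℝ) ^ (3 * P.c) * 64 < (N : ℝ) ^ (3 * P.c) * (N : ℝ) ^ (P.kap / 1000) :=
              mul_lt_mul_of_pos_left hbig64 (by positivity)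
          _ = (N : ℝ) ^ (3 * P.c + P.kap / 1000) := by rw [← Real.rpow_add hN0]
          _ ≤ (N : ℝ) ^ (P.kap / 2) := Real.rpow_le_rpow_of_exponent_le hN1 (by linarith)
      nlinarith
    exact lt_of_pow_lt_pow_left₀ 3 h2i.le h1
  have hzlt' : zz P N < 2 ^ i := by exact_mod_cast hzlt
  have h2iN : (2 : ℝ) ^ i ≤ (N : ℝ) ^ ((1 : ℝ) / 3) := by
    have h1 : ((2 : ℝ) ^ i) ^ 3 ≤ ((N : ℝ) ^ ((1 : ℝ) / 3)) ^ 3 := by
      rw [← Real.rpow_natCast ((N : ℝ) ^ ((1 : ℝ) / 3)) 3, ← Real.rpow_mul hN0.le]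
      norm_num
      have h2 : (y : ℝ) ≤ N := by exact_mod_cast hyN
      have h3 : (0 : ℝ) < ((2 : ℝ) ^ i) ^ 3 := by positivity
      nlinarith
    exact le_of_pow_le_pow_left₀ (by norm_num) (by positivity) h1
  have hInR : InR P N i := by
    refine ⟨?_, ?_⟩
    · have h1 : MM P N < 2 ^ i := (MM_lt_zz hn).trans hzlt'
      unfold MM at h1
      exact ((Nat.pow_lt_pow_iff_right (by norm_num)).1 h1).le
    · refine h2iN.trans ?_
      unfold HH
      refine Real.rpow_le_rpow_of_exponent_le hN1 ?_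
      have := hP.kap1
      linarith
  have hblk := hb i hInR
  have hcast : (((2 ^ i : ℕ)) : ℝ) = (2 : ℝ) ^ i := by push_cast; rfl
  -- size of the block
  have hcard : (2 : ℝ) ^ i / (4 * K) ≤ (block N (2 ^ i)).card := by
    have h1 := hn.bl (2 ^ i) (by
      rw [hcast]
      refine le_trans ?_ hzlt.le
      refine le_trans ?_ hn.z5
      exact pow_le_pow_right₀ hK1 (by omega)) (by
      have h2 : (2 : ℝ) ^ i ≤ N := by
        refine h2iN.trans ?_
        have h3 := Real.rpow_le_rpow_of_exponent_le hN1 (show (1 : ℝ) / 3 ≤ 1 by norm_num)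
        rwa [Real.rpow_one] at h3
      have h4 : ((2 ^ i : ℕ) : ℝ) ≤ ((N : ℕ) : ℝ) := by rw [hcast]; exact h2
      exact_mod_cast h4)
    rw [hcast] at h1
    exact h1
  set A : Finset ℕ := (block N (2 ^ i)).filter (fun l : ℕ => χ (l : ZMod N) = -1) with hA
  set Bd : Finset ℕ := (block N (2 ^ i)).filter (fun l : ℕ => ¬ χ (l : ZMod N) = -1) with hBd
  have hBdc : (4 : ℝ) * Bd.card ≤ (2 : ℝ) ^ i / K ^ 12 := by
    refine le_trans ?_ hblk
    calc (4 : ℝ) * Bd.card = ∑ l ∈ Bd, (4 : ℝ) := by rw [sum_const, nsmul_eq_mul]; ring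
      _ = ∑ l ∈ Bd, ‖χ (l : ZMod N) - (((-1 : ℝ)) : ℂ)‖ ^ 2 := by
          refine sum_congr rfl fun l hl => ?_
          rw [hBd, mem_filter] at hl
          have h1 := mem_block.1 hl.1
          have h2 : IsUnit ((l : ℕ) : ZMod N) :=
            unit_of_coprime ((Nat.Prime.coprime_iff_not_dvd h1.2.2.1).2 h1.2.2.2)
          rcases chi_pm hsq h2 with h3 | h3
          · rw [h3]
            norm_num
          · exact absurd h3 hl.2
      _ ≤ ∑ l ∈ block N (2 ^ i), ‖χ (l : ZMod N) - (((-1 : ℝ)) : ℂ)‖ ^ 2 :=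
          sum_le_sum_of_subset_of_nonneg (filter_subset _ _) fun _ _ _ => by positivity
  have hsplit : A.card + Bd.card = (block N (2 ^ i)).card := card_filter_add_card_filter_not _
  have hAc : (2 : ℝ) ^ i / (8 * K) ≤ A.card := by
    have h1 : (A.card : ℝ) + Bd.card = (block N (2 ^ i)).card := by exact_mod_cast hsplit
    have h2 : (2 : ℝ) ^ i / K ^ 12 ≤ (2 : ℝ) ^ i / (2 * K) := by
      refine div_le_div_of_nonneg_left h2i.le (by positivity) ?_
      have h3 : 2 ≤ K := by linarith [show (2 : ℝ) ≤ 10 ^ 9 by norm_num]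
      calc 2 * K ≤ K * K := by nlinarith
        _ = K ^ 2 := by ring
        _ ≤ K ^ 12 := pow_le_pow_right₀ hK1 (by norm_num)
    have h4 : (2 : ℝ) ^ i / (4 * K) = 2 * ((2 : ℝ) ^ i / (8 * K)) := by
      field_simp
      norm_num
    have h5 : (2 : ℝ) ^ i / (2 * K) = 4 * ((2 : ℝ) ^ i / (8 * K)) := by
      field_simp
      norm_num
    linarith
  have hAT : ∀ l1 ∈ A, ∀ l2 ∈ A, ∀ l3 ∈ A, l1 * l2 * l3 ∈ T3 P χ y := by
    intro l1 h1 l2 h2 l3 h3
    rw [hA, mem_filter, mem_block] at h1 h2 h3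
    unfold T3
    rw [mem_filter, mem_range]
    refine ⟨?_, l1, l2, l3, ⟨h1.1.2.2.1, hzlt'.trans h1.1.1, h1.2⟩,
      ⟨h2.1.2.2.1, hzlt'.trans h2.1.1, h2.2⟩, ⟨h3.1.2.2.1, hzlt'.trans h3.1.1, h3.2⟩, rfl⟩
    calc l1 * l2 * l3 ≤ (2 * 2 ^ i) * (2 * 2 ^ i) * (2 * 2 ^ i) :=
          Nat.mul_le_mul (Nat.mul_le_mul h1.1.2.1 h2.1.2.1) h3.1.2.1
      _ = 2 ^ (3 * i + 3) := by ring
      _ < y := hi1
  have hfin := TRI_count A (T3 P χ y) (fun l hl => by
    rw [hA, mem_filter, mem_block] at hl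
    exact hl.1.2.2.1) hAT
  have hfinR : (A.card : ℝ) ^ 3 ≤ 27 * ((T3 P χ y).card : ℝ) := by exact_mod_cast hfin
  have hcube : ((2 : ℝ) ^ i / (8 * K)) ^ 3 ≤ (A.card : ℝ) ^ 3 := pow_le_pow_left₀ (by positivity) hAc 3
  have hfinal : (y : ℝ) / K ^ 5 ≤ ((2 : ℝ) ^ i / (8 * K)) ^ 3 / 27 := by
    rw [div_pow, div_div, div_le_div_iff₀ (by positivity) (by positivity)]
    have h6 : (884736 : ℝ) ≤ K ^ 2 := by
      nlinarith [show (884736 : ℝ) ≤ 10 ^ 9 by norm_num]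
    calc (y : ℝ) * ((8 * K) ^ 3 * 27) ≤ (64 * ((2 : ℝ) ^ i) ^ 3) * ((8 * K) ^ 3 * 27) :=
          mul_le_mul_of_nonneg_right hi2R (by positivity)
      _ = (((2 : ℝ) ^ i) ^ 3 * K ^ 3) * 884736 := by ring
      _ ≤ (((2 : ℝ) ^ i) ^ 3 * K ^ 3) * K ^ 2 := mul_le_mul_of_nonneg_left h6 (by positivity)
      _ = ((2 : ℝ) ^ i) ^ 3 * K ^ 5 := by ring
  calc (y : ℝ) / K ^ 5 ≤ ((2 : ℝ) ^ i / (8 * K)) ^ 3 / 27 := hfinal
    _ ≤ (27 * ((T3 P χ y).card : ℝ)) / 27 :=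
        div_le_div_of_nonneg_right (hcube.trans hfinR) (by norm_num)
    _ = ((T3 P χ y).card : ℝ) := by ring

end Pool.Agent.Lib.RH
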