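import Pool.Agent.Lib.MP_7b7e48_nt.RG.NUM
import Pool.Agent.Lib.MP_7b7e48_nt.RG.E3

/-!
# The tools of sections 2, 4, 5, 8 for given parameters (definition only)
-/

open Finset

namespace Pool.Agent.Lib.RH

open Pool.Agent.Lib.RG hiding RR sig Good

open Classical in
/-- the tools which hold for all large `N` if `kap`, `c` are small and `C1` is large (`K = log N`) -/
structure Tools (P : Prm) (N : ℕ) [NeZero N] : Prop where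
  sm0 : ((NG P N).card : ℝ) ≤ (Real.log N) ^ 15 * N / JJ N
  sm1 : ∀ w q T : ℕ, W2 P N w → q.Prime → ¬ q ∣ N → (q : ℝ) ≤ (N : ℝ) ^ (1 - P.kap) → N ≤ T →
    T ≤ JJ N * N → ∀ ep : ℤ, ep = 1 ∨ ep = -1 →
    (((Finset.Icc 1 (T / q)).filter fun m : ℕ => m.Coprime N ∧
      ¬ Good P N ((ep : ZMod N) * (w : ZMod N) * (q : ZMod N) * (m : ZMod N))).card : ℝ) ≤
      (Real.log N) ^ 15 * T / (q * JJ N)
  sm2 : ∀ (χ : DirichletCharacter ℂ N) (L : ℝ), χ ^ 2 = 1 → χ ≠ 1 →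
    LV N (fun n => (χ (n : ZMod N)).re) L → (N : ℝ) ^ (-(1 / 50) : ℝ) ≤ L →
    ∀ w m T : ℕ, W2 P N w → 1 ≤ m → m.Coprime N → (m : ℝ) ≤ JJ N * (N : ℝ) ^ P.kap → smc P N m ≤ 2 →
    N ≤ T → T ≤ JJ N * N → ∀ ep : ℤ, ep = 1 ∨ ep = -1 →
    (((Finset.Icc 1 (T / m)).filter fun q : ℕ => q.Prime ∧ (N : ℝ) ^ (1 - P.kap) < q ∧
      χ (q : ZMod N) = 1 ∧
      ¬ Good P N ((ep : ZMod N) * (w : ZMod N) * (m : ZMod N) * (q : ZMod N))).card : ℝ) ≤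
      (Real.log N) ^ 15 * L * T / (m * JJ N)
  sg : ∀ χ : DirichletCharacter ℂ N, χ ^ 2 = 1 → χ ≠ 1 → ∃ L : ℝ,
    LV N (fun n => (χ (n : ZMod N)).re) L ∧ (N : ℝ) ^ (-(1 / 50) : ℝ) ≤ L ∧
    L ≤ (Real.log N) ^ 3 * sig P χ
  mass : ∀ (θ ε : ℝ) (h : ZMod N → ℝ) (ρ : ℕ → ℝ) (L : ℕ → Finset ℕ), θ ^ 2 = 1 → 0 ≤ ε →
    (Real.log N) ^ 40 * ε ≤ 1 → 0 < ∑ x : ZMod N, h x ^ 2 →
    (∀ i : ℕ, InR P N i →
      ((block N (2 ^ i) \ L (2 ^ i)).card : ℝ) ≤ (2 : ℝ) ^ i / (Real.log N) ^ 10) →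
    USLH N (MM P N) (zz P N) P.kap ε θ h ρ L →
    ∃ χ0 : DirichletCharacter ℂ N,
      ((N.totient : ℝ) * ∑ χ ∈ Finset.univ.erase χ0, ‖bch (fun x => (h x : ℂ)) χ‖ ^ 2 ≤
        (Real.log N) ^ 30 * (ε * ∑ x : ZMod N, h x ^ 2)) ∧
      (∀ i : ℕ, InR P N i → ∑ l ∈ L (2 ^ i), ‖χ0 (l : ZMod N) - (θ : ℂ)‖ ^ 2 ≤
          2 * (Real.log N) ^ 15 * ε * (L (2 ^ i)).card) ∧
      ∀ χ : DirichletCharacter ℂ N, Blk P N 9 θ χ → χ = χ0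

end Pool.Agent.Lib.RH
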