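import Pool.Agent.Lib.MP_7b7e48_nt.RG.STR2
import Pool.Agent.Lib.MP_7b7e48_nt.RG.TOOLS

/-!
# Module UF (90 minutes): the sign function is concentrated on one character

`K = log N`, `J = JJ N`. PROOF. `Tools.mass` with `θ = -1`, `h = f`, `ρ n = -lam n`, `L Y = block N Y`, `ε = K^70/J`. `∑ f² = φ(N) ≥ N/K`, `|NG| ≤ K^15 N/J`, `EX` from `str2`.
`inv`: `l ∈ PZ`: `f(l x) + f x = 0` off `10 |NG|` units, else `≤ 2`: the sum is `≤ 40 K^15 N/J ≤ ε φ(N)`. `big`: `Num.bl`.
`one`: `l ∈ block N (2^i)`, `n ∈ RN N zz (N/(2 · 2^i))`: `a = l n ≤ N`, `< N` since coprime to `N`, `a ∈ WW 2`. If its class is not in `EX`: `f(l n) = lam(l n) = -lam n = ρ n`. Otherwise the square is `≤ 4`; `E3.mult_one` with `W` = indicator of `EX`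
bounds the sum by `4 · 2K |EX| ≤ 800 K^16 N/J`. `two`: `f(l1 l2 n) = lam n = -ρ n = θ ρ n` off `EX`, `mult_two`: `4 (2K)² |EX|` (`WW 3`: `l1 ∈ block N M`, `l2 ∈ block N (2^i/(2M))`, `2^i/(2M) ≥ M`; `2 M · (2 · 2^i/(2M)) n ≤ N`).
(`n = 1` is allowed; then `l n = l > 1`.) Conclusion: `χ`, and (second claim) `∑_{l ∈ block} ‖χ l + 1‖² ≤ 2 K^15 K^70/J 2^i ≤ 2^i/K^12`.
-/

open Finset

namespace Pool.Agent.Lib.RH

open Pool.Agent.Lib.RG hiding RR sig Good

open Pool.Agent.Lib.MP_45349e_nt.LS (lam)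

private theorem uf_sumsq {N : ℕ} [NeZero N] (f : ZMod N → ℝ)
    (f0 : ∀ x : ZMod N, ¬ IsUnit x → f x = 0) (f1 : ∀ x : ZMod N, IsUnit x → f x = 1 ∨ f x = -1) :
    ∑ x : ZMod N, f x ^ 2 = (N.totient : ℝ) := by
  classical
  have h0 := chOrth (1 : DirichletCharacter ℂ N) 1
  rw [if_pos rfl] at h0
  have h1 : ∀ x : ZMod N, ((f x ^ 2 : ℝ) : ℂ) =
      (1 : DirichletCharacter ℂ N) x * (starRingEnd ℂ) ((1 : DirichletCharacter ℂ N) x) := by
    intro x
    rw [← chNormsq]
    congr 1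
    by_cases h : IsUnit x
    · rw [chNorm _ h]
      rcases f1 x h with h2 | h2 <;> rw [h2] <;> norm_num
    · rw [f0 x h, MulChar.map_nonunit _ h]; norm_num
  have h2 : ((∑ x : ZMod N, f x ^ 2 : ℝ) : ℂ) = ((N.totient : ℝ) : ℂ) := by
    rw [Complex.ofReal_sum, sum_congr rfl fun x _ => h1 x, h0]
    push_cast
    rfl
  exact_mod_cast h2

private theorem uf_abs {N : ℕ} (f : ZMod N → ℝ)
    (f0 : ∀ x : ZMod N, ¬ IsUnit x → f x = 0) (f1 : ∀ x : ZMod N, IsUnit x → f x = 1 ∨ f x = -1)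
    (x : ZMod N) (b : ℝ) (hb : b = 1 ∨ b = -1) : (f x - b) ^ 2 ≤ 4 := by
  by_cases h : IsUnit x
  · rcases f1 x h with h1 | h1 <;> rcases hb with h2 | h2 <;> rw [h1, h2] <;> norm_num
  · rw [f0 x h]
    rcases hb with h2 | h2 <;> rw [h2] <;> norm_num

open Classical in
theorem uf (P : Prm) (hP : P.Ok) (N : ℕ) [NeZero N] (hn : Num P N) (ht : Tools P N) (s t : ℝ)
    (hs : s = 1 ∨ s = -1) (ht' : t = 1 ∨ t = -1) (hm : Missing P N s t) (f : ZMod N → ℝ)
    (hf : FS P N s t f) : ∃ χ : DirichletCharacter ℂ N, Blk P N 12 (-1) χ ∧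
      (N.totient : ℝ) * ∑ χ' ∈ Finset.univ.erase χ, ‖bch (fun x => (f x : ℂ)) χ'‖ ^ 2 ≤
        (Real.log N) ^ 100 * N.totient / JJ N := by
  obtain ⟨EX, hEX, hEXa⟩ := str2 P hP N hn s t hs ht' hm f hf
  set K := Real.log N with hK
  have hK9 := hn.K
  rw [← hK] at hK9
  have hKpos : 0 < K := by linarith
  have hK1 : 1 ≤ K := by linarith
  have hJ := hn.J1
  rw [← hK] at hJ
  have hJpos : (0 : ℝ) < JJ N := lt_of_lt_of_le (by positivity) hJ
  have hφ : (0 : ℝ) < (N.totient : ℝ) := phi_pos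
  have hN2 := N_pos hn
  have hM1 : 1 ≤ MM P N := Nat.one_le_two_pow
  have hzN : zz P N ≤ N := by
    have h1 := hn.z1
    have h2 : (N : ℝ) ^ P.c ≤ (N : ℝ) ^ (1 : ℝ) := by
      refine Real.rpow_le_rpow_of_exponent_le (by exact_mod_cast (by omega : 1 ≤ N)) ?_
      have := hP.c1
      have := hP.kap1
      linarith
    rw [Real.rpow_one] at h2
    exact_mod_cast h1.trans h2
  have hJ2 : 2 ≤ JJ N := by
    have h1 : K ^ 1 ≤ K ^ 1000 := pow_le_pow_right₀ hK1 (by norm_num)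
    rw [pow_one] at h1
    have h2 : (2 : ℝ) ≤ JJ N := by linarith
    exact_mod_cast h2
  have h3N : 3 ≤ N := by
    by_contra hcon
    have h1 : N ≤ 2 := by omega
    have h2 : K ≤ Real.log 2 := Real.log_le_log (by exact_mod_cast (by omega : 0 < N)) (by exact_mod_cast h1)
    have h4 := Real.log_two_lt_d9
    linarith
  have hHH : HH N P.kap ≤ N := by
    unfold HH
    have h2 : (N : ℝ) ^ (1 / 2 - 2 * P.kap) ≤ (N : ℝ) ^ (1 : ℝ) := by
      refine Real.rpow_le_rpow_of_exponent_le (by exact_mod_cast (by omega : 1 ≤ N)) ?_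
      have := hP.kap0
      linarith
    rwa [Real.rpow_one] at h2
  set ε : ℝ := K ^ 70 / JJ N with hε
  have hε0 : 0 ≤ ε := by positivity
  have hsq := uf_sumsq f hf.f0 hf.f1
  -- the main comparison
  have hkey : K ^ 60 * (N : ℝ) / JJ N ≤ ε * ∑ x : ZMod N, f x ^ 2 := by
    rw [hsq, hε, div_mul_eq_mul_div]
    gcongr ?_ / _
    have h1 := hn.ph
    rw [← hK] at h1
    calc K ^ 60 * (N : ℝ) ≤ K ^ 60 * (K * N.totient) := by gcongr
      _ = K ^ 61 * N.totient := by ring
      _ ≤ K ^ 70 * N.totient := by gcongr; norm_num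
  have hNG := ht.sm0
  rw [← hK] at hNG
  have hEXr : (EX.card : ℝ) ≤ 100 * (K ^ 15 * N / JJ N) := by
    have h1 : (EX.card : ℝ) ≤ 100 * ((NG P N).card : ℝ) := by exact_mod_cast hEX
    linarith
  have hpow : ∀ m : ℕ, m ≤ 50 → 3200 * (K ^ m * (N : ℝ) / JJ N) ≤ K ^ 60 * (N : ℝ) / JJ N := by
    intro m hm50
    rw [← mul_div_assoc]
    gcongr ?_ / _
    rw [← mul_assoc]
    gcongr
    calc 3200 * K ^ m ≤ K * K ^ 50 := by gcongr; linarith
      _ = K ^ 51 := by ring
      _ ≤ K ^ 60 := by gcongr; norm_num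
  set W : ZMod N → ℝ := fun x => if x ∈ EX then 4 else 0 with hW
  have hW0 : ∀ x, 0 ≤ W x := by
    intro x
    rw [hW]
    simp only
    split_ifs <;> norm_num
  have hWs : ∑ x : ZMod N, W x = 4 * EX.card := by
    rw [hW]
    simp only
    rw [Finset.sum_ite_mem, Finset.univ_inter, Finset.sum_const, nsmul_eq_mul]
    ring
  -- membership in `W_3`
  have hww : ∀ y n : ℕ, n ∈ RN N (zz P N) y → 1 ≤ n ∧ n ≤ y ∧ n.Coprime N ∧ Rough (zz P N) n := by
    intro y n hn'
    unfold RN at hn'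
    rw [mem_filter, mem_Icc] at hn'
    exact ⟨hn'.1.1, hn'.1.2, hn'.2.2, hn'.2.1⟩
  have hMz := MM_lt_zz hn
  have hrough : ∀ n : ℕ, Rough (zz P N) n → Rough (MM P N) n := fun n h p hp hd => hMz.trans (h p hp hd)
  have hW3a : ∀ l n : ℕ, l.Prime → MM P N < l → ¬ l ∣ N → 1 ≤ n → n.Coprime N → Rough (zz P N) n →
      WW P N 1 (l * n) := by
    intro l n hl hMl hlN hn1 hnN hnr
    have hlc : l.Coprime N := (Nat.Prime.coprime_iff_not_dvd hl).mpr hlN
    refine ⟨?_, Nat.Coprime.mul_left hlc hnN, ?_, ?_⟩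
    · have := hl.one_lt
      nlinarith
    · intro p hp hd
      rcases hp.dvd_mul.mp hd with h | h
      · rw [(Nat.prime_dvd_prime_iff_eq hp hl).mp h]
        exact hMl
      · exact hrough n hnr p hp h
    · rw [smc_mul hl.pos (by omega), smc_rough hnr (by omega), add_zero]
      exact smc_prime_le hl
  have hlt : ∀ a : ℕ, 1 ≤ a → a ≤ N → a < JJ N * N := by
    intro a _ h
    nlinarith
  have hsubN : ∀ i : ℕ, (2 : ℝ) ^ i ≤ HH N P.kap → 2 ^ i ≤ N := by
    intro i hi
    have h1 : ((2 ^ i : ℕ) : ℝ) ≤ (N : ℝ) := by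
      push_cast
      exact hi.trans hHH
    exact_mod_cast h1
  have husl : USLH N (MM P N) (zz P N) P.kap ε (-1) f (fun n => -lam n) (fun Y => block N Y) := by
    refine ⟨hf.f0, fun Y => subset_refl _, ?_, ?_, ?_, ?_⟩
    · intro i hMi hi
      have h1 := hsubN i hi
      have h2 : K ^ 3 ≤ ((2 ^ i : ℕ) : ℝ) := by
        have h3 : K ^ 3 ≤ K ^ P.C1 := pow_le_pow_right₀ hK1 (by have := hP.C1; omega)
        have h4 := hn.M1
        rw [← hK] at h4
        have h5 : (MM P N : ℝ) ≤ ((2 ^ i : ℕ) : ℝ) := by exact_mod_cast hMi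
        linarith
      have h3 := hn.bl (2 ^ i) h2 h1
      rw [← hK] at h3
      refine le_trans ?_ h3
      push_cast
      have h4 : (0 : ℝ) < 2 ^ i := by positivity
      gcongr
      nlinarith
    · intro l hl
      have hlm := mem_PZ.mp hl
      have hlu : IsUnit (l : ZMod N) := (ZMod.isUnit_iff_coprime l N).mpr
        ((Nat.Prime.coprime_iff_not_dvd hlm.2.2.1).mpr hlm.2.2.2)
      have h1 : ∀ x : ZMod N, (f ((l : ZMod N) * x) - -1 * f x) ^ 2 ≤
          if IsUnit x ∧ f ((l : ZMod N) * x) ≠ -f x then 4 else 0 := by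
        intro x
        by_cases hx : IsUnit x
        · split_ifs with h2
          · rcases hf.f1 _ (hlu.mul hx) with h3 | h3 <;> rcases hf.f1 x hx with h4 | h4 <;>
              rw [h3, h4] <;> norm_num
          · push Not at h2
            rw [h2 hx]
            apply le_of_eq
            ring
        · have h2 : ¬ IsUnit ((l : ZMod N) * x) := by
            intro h3
            exact hx (isUnit_of_mul_isUnit_right h3)
          rw [hf.f0 x hx, hf.f0 _ h2]
          split_ifs <;> norm_num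
      refine (sum_le_sum fun x _ => h1 x).trans ?_
      rw [← Finset.sum_filter, Finset.sum_const, nsmul_eq_mul]
      have h2 : (((Finset.univ : Finset (ZMod N)).filter fun x => IsUnit x ∧
          f ((l : ZMod N) * x) ≠ -f x).card : ℝ) ≤ 10 * (NG P N).card := by
        exact_mod_cast hf.f4 l hl
      have h3 := hpow 15 (by norm_num)
      have h4 : (0 : ℝ) ≤ K ^ 15 * N / JJ N := by positivity
      linarith
    · intro i hMi hi
      have h2i : 0 < 2 ^ i := by positivity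
      have hy : 2 * 2 ^ i * (N / (2 * 2 ^ i)) ≤ N := Nat.mul_div_le N _
      have h1 : ∀ l ∈ block N (2 ^ i), ∀ n ∈ RN N (zz P N) (N / (2 * 2 ^ i)),
          (f ((l * n : ℕ) : ZMod N) - -lam n) ^ 2 ≤ W ((l * n : ℕ) : ZMod N) := by
        intro l hl n hn'
        obtain ⟨hn1, hny, hnN, hnr⟩ := hww _ n hn'
        have hlm := mem_block.mp hl
        have hlam : -lam n = 1 ∨ -lam n = -1 := by
          rcases lam_pm n with h | h <;> rw [h] <;> norm_num
        rw [hW]
        simp only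
        split_ifs with h2
        · exact uf_abs f hf.f0 hf.f1 _ _ hlam
        · have hMl : MM P N < l := by
            have : MM P N ≤ 2 * MM P N ^ 2 := by nlinarith
            omega
          have h3 := hW3a l n hlm.2.2.1 hMl hlm.2.2.2 hn1 hnN hnr
          have h4 : l * n ≤ N := (Nat.mul_le_mul hlm.2.1 hny).trans hy
          have h5 := hEXa (l * n) (ww_mono (by norm_num) h3)
            (hlt _ (Nat.mul_pos hlm.2.2.1.pos hn1) h4) h2
          rw [← h5, lam_mul_prime hlm.2.2.1 (by omega)]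
          apply le_of_eq
          ring
      refine (sum_le_sum fun l hl => sum_le_sum fun n hn' => h1 l hl n hn').trans ?_
      refine (mult_one N h3N (zz P N) (2 ^ i) (N / (2 * 2 ^ i)) hy (block N (2 ^ i)) (subset_refl _)
        W hW0).trans ?_
      rw [← hK, hWs]
      refine le_trans ?_ hkey
      have h3 := hpow 16 (by norm_num)
      have h4 : 2 * K * (4 * (EX.card : ℝ)) ≤ 2 * K * (4 * (100 * (K ^ 15 * N / JJ N))) := by gcongr
      have h5 : 2 * K * (4 * (100 * (K ^ 15 * N / JJ N))) = 800 * (K ^ 16 * (N : ℝ) / JJ N) := by ring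
      have h6 : (0 : ℝ) ≤ K ^ 16 * N / JJ N := by positivity
      linarith
    · intro i hMi hi
      set Y' : ℕ := 2 ^ i / (2 * MM P N) with hY'
      have h2i : 0 < 2 ^ i := by positivity
      have hy : 2 * 2 ^ i * (N / (2 * 2 ^ i)) ≤ N := Nat.mul_div_le N _
      have hY1 : 2 * MM P N * Y' ≤ 2 ^ i := Nat.mul_div_le _ _
      have hY2 : MM P N ≤ Y' := by
        rw [hY', Nat.le_div_iff_mul_le (by omega)]
        nlinarith
      have hyy : 2 * MM P N * (2 * Y') * (N / (2 * 2 ^ i)) ≤ N := by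
        refine le_trans (Nat.mul_le_mul_right _ ?_) hy
        calc 2 * MM P N * (2 * Y') = 2 * (2 * MM P N * Y') := by ring
          _ ≤ 2 * 2 ^ i := Nat.mul_le_mul_left _ hY1
      have h1 : ∀ l1 ∈ block N (MM P N), ∀ l2 ∈ block N Y', ∀ n ∈ RN N (zz P N) (N / (2 * 2 ^ i)),
          (f ((l1 * l2 * n : ℕ) : ZMod N) - -1 * -lam n) ^ 2 ≤ W ((l1 * l2 * n : ℕ) : ZMod N) := by
        intro l1 hl1 l2 hl2 n hn'
        obtain ⟨hn1, hny, hnN, hnr⟩ := hww _ n hn'
        have hm1 := mem_block.mp hl1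
        have hm2 := mem_block.mp hl2
        rw [neg_one_mul, neg_neg]
        rw [hW]
        simp only
        split_ifs with h2
        · exact uf_abs f hf.f0 hf.f1 _ _ (lam_pm n)
        · have h3 := hW3a l2 n hm2.2.2.1 (by omega) hm2.2.2.2 hn1 hnN hnr
          have h4 := ww_mul_prime hm1.2.2.1 hm1.1 hm1.2.2.2 h3
          rw [← mul_assoc] at h4
          have h5 : l1 * l2 * n ≤ N :=
            (Nat.mul_le_mul (Nat.mul_le_mul hm1.2.1 hm2.2.1) hny).trans hyy
          have hpos : 0 < l2 * n := Nat.mul_pos hm2.2.2.1.pos hn1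
          have h6 := hEXa (l1 * l2 * n) (ww_mono (by norm_num) h4)
            (hlt _ (by rw [mul_assoc]; exact Nat.mul_pos hm1.2.2.1.pos hpos) h5) h2
          rw [← h6, mul_assoc, lam_mul_prime hm1.2.2.1 hpos, lam_mul_prime hm2.2.2.1 (by omega)]
          apply le_of_eq
          ring
      refine (sum_le_sum fun l1 hl1 => sum_le_sum fun l2 hl2 => sum_le_sum fun n hn' =>
        h1 l1 hl1 l2 hl2 n hn').trans ?_
      refine (mult_two N h3N (zz P N) (MM P N) Y' (N / (2 * 2 ^ i)) hyy (block N (MM P N)) (block N Y')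
        (subset_refl _) (subset_refl _) W hW0).trans ?_
      rw [← hK, hWs]
      refine le_trans ?_ hkey
      have h3 := hpow 17 (by norm_num)
      have h4 : (2 * K) ^ 2 * (4 * (EX.card : ℝ)) ≤ (2 * K) ^ 2 * (4 * (100 * (K ^ 15 * N / JJ N))) := by
        gcongr
      have h5 : (2 * K) ^ 2 * (4 * (100 * (K ^ 15 * N / JJ N))) = 1600 * (K ^ 17 * (N : ℝ) / JJ N) := by
        ring
      have h6 : (0 : ℝ) ≤ K ^ 17 * N / JJ N := by positivity
      linarith
  have hbigJ : ∀ m : ℕ, m ≤ 900 → 2 * K ^ m ≤ JJ N := by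
    intro m hm9
    refine le_trans ?_ hJ
    calc 2 * K ^ m ≤ K * K ^ m := by gcongr; linarith
      _ = K ^ (m + 1) := by ring
      _ ≤ K ^ 1000 := pow_le_pow_right₀ hK1 (by omega)
  obtain ⟨χ, h1, h2, -⟩ := ht.mass (-1) ε f (fun n => -lam n) (fun Y => block N Y) (by norm_num) hε0
    (by
      rw [← hK, hε, ← mul_div_assoc, ← pow_add, div_le_one hJpos]
      have := hbigJ (40 + 70) (by norm_num)
      have h3 : 0 < K ^ (40 + 70) := by positivity
      linarith)
    (by rw [hsq]; exact hφ)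
    (by
      intro i _
      rw [sdiff_self]
      simp only [Finset.bot_eq_empty, card_empty, Nat.cast_zero]
      rw [← hK]
      positivity)
    husl
  refine ⟨χ, ?_, ?_⟩
  · intro i hi
    refine (h2 i hi).trans ?_
    rw [← hK]
    have h3 : ((block N (2 ^ i)).card : ℝ) ≤ 2 ^ i := by exact_mod_cast block_card_le N (2 ^ i)
    have h4 : 2 * K ^ 15 * ε ≤ 1 / K ^ 12 := by
      rw [le_div_iff₀ (by positivity), hε]
      have h5 : 2 * K ^ 15 * (K ^ 70 / JJ N) * K ^ 12 = 2 * K ^ 97 / JJ N := by ring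
      rw [h5, div_le_one hJpos]
      exact hbigJ 97 (by norm_num)
    calc 2 * K ^ 15 * ε * ((block N (2 ^ i)).card : ℝ) ≤ 1 / K ^ 12 * 2 ^ i := by gcongr
      _ = 2 ^ i / K ^ 12 := by ring
  · refine h1.trans (le_of_eq ?_)
    rw [← hK, hsq, hε]
    ring

end Pool.Agent.Lib.RH
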