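import Pool.Agent.Lib.MP_7b7e48_nt.RG.STR1
import Pool.Agent.Lib.MP_7b7e48_nt.RG.STR2
import Pool.Agent.Lib.MP_7b7e48_nt.RG.UF
import Pool.Agent.Lib.MP_7b7e48_nt.RG.CHR1
import Pool.Agent.Lib.MP_7b7e48_nt.RG.CHR2
import Pool.Agent.Lib.MP_7b7e48_nt.RG.TRI

/-!
# Module CHR3 (75 minutes): the environment

`K = log N`. PROOF. `str1` gives `f`, `str2` gives `EX` (`|EX| ≤ 100 K^15 N/J`), `uf` gives `χ`, `chr1` gives `β`, `chr2` the values. It remains to show `β = 1` and `typ`. The numbers `n ∈ T3 χ N` (`≥ N/K^5` of them by `tri`, different classes as `n < N`) have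
`lam n = -1 = χ n` and are in `WW 3` (primes `> zz > M`, not dividing `N` since `χ ≠ 0`); at most `|EX| + K^100 N/J` of them are in `EX` or have `f ≠ β χ`; for the others `-1 = lam n = f n = β χ n = -β`. So `β = 1`.
`typ`: if `x ∉ EX` and `f x = χ x`, then all `a ∈ RR x` have `lam a = f x = χ a`. So the set is contained in `EX ∪ {f ≠ χ}`.
-/

open Finset
open Pool.Agent.Lib.MP_45349e_nt.LS (lam)

namespace Pool.Agent.Lib.RH

open Pool.Agent.Lib.RG hiding RR sig Good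

/-- `100 K^15 N/J + K^100 N/J < N/K^5` -/
private theorem chr3_num {P : Prm} {N : ℕ} (hn : Num P N) :
    100 * ((Real.log N) ^ 15 * N / JJ N) + (Real.log N) ^ 100 * N / JJ N <
      (N : ℝ) / (Real.log N) ^ 5 := by
  have hK9 : (10 : ℝ) ^ 9 ≤ Real.log N := hn.K
  set K := Real.log N with hK
  have hK0 : 0 < K := lt_of_lt_of_le (by norm_num) hK9
  have hK1 : 1 ≤ K := le_trans (by norm_num) hK9
  have hJ : K ^ 1000 ≤ (JJ N : ℝ) := hn.J1
  have hJ0 : (0 : ℝ) < JJ N := lt_of_lt_of_le (by positivity) hJ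
  have hN : (0 : ℝ) < N := by
    have := N_pos hn
    exact_mod_cast (by omega : 0 < N)
  have h1 : 100 * (K ^ 15 * N / JJ N) + K ^ 100 * N / JJ N = (100 * K ^ 15 + K ^ 100) * N / JJ N := by
    ring
  rw [h1, div_lt_div_iff₀ hJ0 (by positivity)]
  have h2 : (100 * K ^ 15 + K ^ 100) * K ^ 5 < K ^ 1000 := by
    have e1 : K ^ 15 ≤ K ^ 100 := pow_le_pow_right₀ hK1 (by norm_num)
    have e2 : (0 : ℝ) < K ^ 105 := by positivity
    calc (100 * K ^ 15 + K ^ 100) * K ^ 5 ≤ (100 * K ^ 100 + K ^ 100) * K ^ 5 := by gcongr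
      _ = 101 * K ^ 105 := by ring
      _ < K ^ 1 * K ^ 105 := by
          apply mul_lt_mul_of_pos_right _ e2
          rw [pow_one]
          exact lt_of_lt_of_le (by norm_num) hK9
      _ = K ^ 106 := by ring
      _ ≤ K ^ 1000 := pow_le_pow_right₀ hK1 (by norm_num)
  calc (100 * K ^ 15 + K ^ 100) * N * K ^ 5 = ((100 * K ^ 15 + K ^ 100) * K ^ 5) * N := by ring
    _ < K ^ 1000 * N := mul_lt_mul_of_pos_right h2 hN
    _ ≤ JJ N * N := mul_le_mul_of_nonneg_right hJ hN.le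
    _ = N * JJ N := mul_comm _ _

private theorem chr3_ndvd {N : ℕ} [NeZero N] {χ : DirichletCharacter ℂ N} {l : ℕ} (hl : l.Prime)
    (h : χ (l : ZMod N) = -1) : ¬ l ∣ N := by
  intro hd
  have h1 : ¬ IsUnit (l : ZMod N) := by
    rw [ZMod.isUnit_iff_coprime]
    exact fun hc => (Nat.Prime.coprime_iff_not_dvd hl).mp hc hd
  rw [MulChar.map_nonunit χ h1] at h
  norm_num at h

private theorem chr3_T3 {P : Prm} {N : ℕ} [NeZero N] (hn : Num P N) {χ : DirichletCharacter ℂ N}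
    {n : ℕ} (h : n ∈ T3 P χ N) :
    WW P N 3 n ∧ n < N ∧ lam n = -1 ∧ χ (n : ZMod N) = -1 := by
  classical
  unfold T3 at h
  rw [mem_filter, mem_range] at h
  obtain ⟨hlt, l1, l2, l3, ⟨p1, z1, c1⟩, ⟨p2, z2, c2⟩, ⟨p3, z3, c3⟩, rfl⟩ := h
  have hz := MM_lt_zz hn
  have e : l1 * l2 * l3 = l1 * (l2 * l3) := mul_assoc _ _ _
  have hlt' := hlt
  rw [e] at hlt' ⊢
  have w3 : WW P N 1 l3 := ww_prime p3 (hz.trans z3) (chr3_ndvd p3 c3)
  have w2 : WW P N 2 (l2 * l3) := ww_mul_prime p2 (hz.trans z2) (chr3_ndvd p2 c2) w3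
  have w1 : WW P N 3 (l1 * (l2 * l3)) := ww_mul_prime p1 (hz.trans z1) (chr3_ndvd p1 c1) w2
  refine ⟨w1, hlt', ?_, ?_⟩
  · rw [lam_mul_prime p1 (Nat.mul_pos p2.pos p3.pos), lam_mul_prime p2 p3.pos,
      Pool.Agent.Lib.MP_45349e_nt.LS.lam_prime l3 p3]
    norm_num
  · push_cast
    rw [map_mul, map_mul, c1, c2, c3]
    norm_num

theorem env_exists (P : Prm) (hP : P.Ok) (N : ℕ) [NeZero N] (hn : Num P N) (ht : Tools P N) (s t : ℝ)
    (hs : s = 1 ∨ s = -1) (ht' : t = 1 ∨ t = -1) (hm : Missing P N s t) :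
    ∃ χ : DirichletCharacter ℂ N, Env P N s t χ := by
  classical
  obtain ⟨f, hf⟩ := str1 P hP N hn s t hs ht' hm
  obtain ⟨EX, hEX, hlam⟩ := str2 P hP N hn s t hs ht' hm f hf
  obtain ⟨χ, hblk, hmass⟩ := uf P hP N hn ht s t hs ht' hm f hf
  obtain ⟨hsq, β, hβ, hB⟩ := chr1 P N hn f hf.f0 hf.f1 χ hmass
  obtain ⟨hne, hneg, hsmall⟩ := chr2 P hP N hn ht s t hs ht' f hf χ β hβ hB
  set B : Finset (ZMod N) :=
    (Finset.univ : Finset (ZMod N)).filter fun x => IsUnit x ∧ (f x : ℂ) ≠ β * χ x with hBdef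
  have hN2 := N_pos hn
  have hJ1 : 1 ≤ JJ N := by
    have h1 : (1 : ℝ) ≤ JJ N := le_trans (one_le_pow₀ (le_trans (by norm_num) hn.K)) hn.J1
    exact_mod_cast h1
  have hJN : N ≤ JJ N * N := Nat.le_mul_of_pos_left N hJ1
  -- the exceptional sets are small
  have hsize : ((EX ∪ B).card : ℝ) < (N : ℝ) / (Real.log N) ^ 5 := by
    have h1 : ((EX ∪ B).card : ℝ) ≤ (EX.card : ℝ) + B.card := by exact_mod_cast card_union_le EX B
    have h2 : (EX.card : ℝ) ≤ 100 * (NG P N).card := by exact_mod_cast hEX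
    have h3 : ((NG P N).card : ℝ) ≤ (Real.log N) ^ 15 * N / JJ N := ht.sm0
    have h4 := chr3_num hn
    linarith
  -- the sign
  have hβ1 : β = 1 := by
    rcases hβ with h | h
    · exact h
    exfalso
    have hsub : (T3 P χ N).image (fun n : ℕ => (n : ZMod N)) ⊆ EX ∪ B := by
      intro x hx
      obtain ⟨n, hnT, rfl⟩ := mem_image.mp hx
      obtain ⟨hw, hlt, hl, hc⟩ := chr3_T3 hn hnT
      rw [mem_union]
      by_contra hcon
      push Not at hcon
      have h1 := hlam n hw (lt_of_lt_of_le hlt hJN) hcon.1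
      have h2 : (f (n : ZMod N) : ℂ) = β * χ (n : ZMod N) := by
        by_contra h3
        exact hcon.2 (mem_filter.mpr ⟨mem_univ _, unit_of_coprime hw.2.1, h3⟩)
      rw [← h1, hl, hc, h] at h2
      norm_num at h2
    have hinj : Set.InjOn (fun n : ℕ => (n : ZMod N)) (T3 P χ N : Set ℕ) := by
      intro a ha b hb hab
      have ha1 := (chr3_T3 hn (mem_coe.mp ha)).2.1
      have hb1 := (chr3_T3 hn (mem_coe.mp hb)).2.1
      have h1 := (ZMod.natCast_eq_natCast_iff' a b N).mp hab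
      rwa [Nat.mod_eq_of_lt ha1, Nat.mod_eq_of_lt hb1] at h1
    have h1 : (T3 P χ N).card ≤ (EX ∪ B).card := by
      rw [← card_image_of_injOn hinj]
      exact card_le_card hsub
    have h2 : ((T3 P χ N).card : ℝ) ≤ (EX ∪ B).card := by exact_mod_cast h1
    have hN1 : (1 : ℝ) ≤ N := by exact_mod_cast (by omega : 1 ≤ N)
    have hy : (N : ℝ) ^ (P.kap / 2) ≤ (N : ℝ) := by
      calc (N : ℝ) ^ (P.kap / 2) ≤ (N : ℝ) ^ (1 : ℝ) :=
            Real.rpow_le_rpow_of_exponent_le hN1 (by have := hP.kap1; linarith)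
        _ = N := Real.rpow_one _
    have h3 := tri P hP N hn χ hsq hblk N hy le_rfl
    linarith
  refine ⟨χ, ⟨hm, hs, ht', hsq, hne, hneg, hsmall, hblk, ?_⟩⟩
  have hsub : ((Finset.univ : Finset (ZMod N)).filter fun x => IsUnit x ∧ ∃ a ∈ RR P N x, DA χ a) ⊆
      EX ∪ B := by
    intro x hx
    obtain ⟨-, hu, a, ha, hD⟩ := mem_filter.mp hx
    obtain ⟨hlt, hax, hr⟩ := mem_RR.mp ha
    rw [mem_union]
    by_contra hcon
    push Not at hcon
    have hw : WW P N 3 a := ww_mono (by norm_num) (rgh_ww hn hr)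
    have h1 := hlam a hw hlt (by rw [hax]; exact hcon.1)
    rw [hax] at h1
    have h2 : (f x : ℂ) = β * χ x := by
      by_contra h3
      exact hcon.2 (mem_filter.mpr ⟨mem_univ _, hu, h3⟩)
    apply hD
    rw [h1, h2, hβ1, hax]
    push_cast
    ring
  have h1 : (((Finset.univ : Finset (ZMod N)).filter fun x => IsUnit x ∧ ∃ a ∈ RR P N x, DA χ a).card
      : ℝ) ≤ (EX ∪ B).card := by exact_mod_cast card_le_card hsub
  exact h1.trans hsize.le

end Pool.Agent.Lib.RH
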