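import Pool.Agent.Lib.MP_7b7e48_nt.RG.E0

/-!
# Module E1: few characters are close to `θ` on average (combinatorial form)

PROOF. `|χ l - θ|² = 2 - 2 θ Re χ l` (`‖χ l‖ = 1`), so `θ Re ∑_Q χ l ≥ |Q| (1 - 1/(2K))` and
`‖(∑_Q χ l)^u‖ ≥ |Q|^u (1 - 1/(2K))^u ≥ |Q|^u (1 - u/(2K)) ≥ |Q|^u / 2`. And `(∑_Q χ l)^u = ∑_f χ (∏ f)` over
`f ∈ Fintype.piFinset (fun _ : Fin u => Q)`, so `∑_χ ‖.‖² = φ(N) #{(f, g) : ∏ f = ∏ g}` (`∏ f ≤ B^u < N`, coprime to `N`) and for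
given `f` the `g` are permutations of `f` (`List.ofFn g ∈ (List.ofFn f).permutations`, unique factorization,
`Nat.primeFactorsList_unique`), at most `u!`.
-/

open Finset

namespace Pool.Agent.Lib.RG

/-- `u`-tuples with the same product are permutations of each other -/
private theorem E1_perm {u : ℕ} (f g : Fin u → ℕ) (hf : ∀ i, (f i).Prime) (hg : ∀ i, (g i).Prime)
    (h : ∏ i, f i = ∏ i, g i) : (List.ofFn g).Perm (List.ofFn f) := by
  have h1 : (List.ofFn g).prod = ∏ i, f i := by rw [List.prod_ofFn, h]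
  have h2 : (List.ofFn f).prod = ∏ i, f i := by rw [List.prod_ofFn]
  have h3 := Nat.primeFactorsList_unique h1 (by
    intro p hp
    rw [List.mem_ofFn] at hp
    obtain ⟨i, rfl⟩ := hp
    exact hg i)
  have h4 := Nat.primeFactorsList_unique h2 (by
    intro p hp
    rw [List.mem_ofFn] at hp
    obtain ⟨i, rfl⟩ := hp
    exact hf i)
  exact h3.trans h4.symm

open Classical in
private theorem E1_count {u : ℕ} (Q : Finset ℕ) (hQ : ∀ l ∈ Q, l.Prime) (f : Fin u → ℕ)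
    (hf : ∀ i, f i ∈ Q) :
    ((Fintype.piFinset (fun _ : Fin u => Q)).filter (fun g => ∏ i, f i = ∏ i, g i)).card ≤ u.factorial := by
  have h1 : ((Fintype.piFinset (fun _ : Fin u => Q)).filter (fun g => ∏ i, f i = ∏ i, g i)).card ≤
      ((List.ofFn f).permutations.toFinset).card := by
    refine card_le_card_of_injOn (fun g => List.ofFn g) ?_ ?_
    · intro g hg
      rw [mem_coe, mem_filter, Fintype.mem_piFinset] at hg
      rw [mem_coe, List.mem_toFinset, List.mem_permutations]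
      exact E1_perm f g (fun i => hQ _ (hf i)) (fun i => hQ _ (hg.1 i)) hg.2
    · intro g _ g' _ h
      exact List.ofFn_injective h
  refine h1.trans ((List.toFinset_card_le _).trans ?_)
  rw [List.length_permutations, List.length_ofFn]

private theorem E1_conj {N : ℕ} [NeZero N] (χ : DirichletCharacter ℂ N) (a : ZMod N) (ha : IsUnit a) :
    (starRingEnd ℂ) (χ a) = χ a⁻¹ := by
  obtain ⟨v, rfl⟩ := ha
  have h1 : ‖χ (v : ZMod N)‖ = 1 := DirichletCharacter.unit_norm_eq_one χ v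
  rw [← Complex.inv_eq_conj h1, ZMod.inv_coe_unit, ← MulChar.inv_apply_eq_inv', MulChar.inv_apply,
    Ring.inverse_unit]

open Classical in
private theorem E1_moment (N : ℕ) [NeZero N] (Q : Finset ℕ) (B u : ℕ)
    (hQ : ∀ l ∈ Q, l.Prime ∧ l ≤ B ∧ ¬ l ∣ N) (hB : B ^ u < N) :
    ∑ χ : DirichletCharacter ℂ N, (‖(∑ l ∈ Q, χ (l : ZMod N)) ^ u‖ ^ 2 : ℝ) ≤
      N.totient * ((Q.card : ℝ) ^ u * u.factorial) := by
  set P := Fintype.piFinset (fun _ : Fin u => Q) with hP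
  have hPc : P.card = Q.card ^ u := by
    rw [hP, Fintype.card_piFinset, prod_const, card_univ, Fintype.card_fin]
  have hmem : ∀ f ∈ P, ∀ i, f i ∈ Q := fun f hf i => Fintype.mem_piFinset.1 hf i
  have hunit : ∀ f ∈ P, IsUnit (((∏ i, f i : ℕ) : ZMod N)) := by
    intro f hf
    rw [ZMod.isUnit_iff_coprime]
    refine Nat.Coprime.prod_left fun i _ => ?_
    obtain ⟨h1, -, h3⟩ := hQ (f i) (hmem f hf i)
    exact (Nat.Prime.coprime_iff_not_dvd h1).2 h3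
  have hlt : ∀ f ∈ P, ∏ i, f i < N := by
    intro f hf
    refine lt_of_le_of_lt ?_ hB
    have h := prod_le_pow_card (univ : Finset (Fin u)) f B fun i _ => (hQ _ (hmem f hf i)).2.1
    rwa [card_univ, Fintype.card_fin] at h
  have hinj : ∀ f ∈ P, ∀ g ∈ P, (((∏ i, f i : ℕ) : ZMod N)) = ((∏ i, g i : ℕ) : ZMod N) →
      ∏ i, f i = ∏ i, g i := by
    intro f hf g hg h
    rwa [ZMod.natCast_eq_natCast_iff', Nat.mod_eq_of_lt (hlt f hf), Nat.mod_eq_of_lt (hlt g hg)] at h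
  have hpow : ∀ χ : DirichletCharacter ℂ N, (∑ l ∈ Q, χ (l : ZMod N)) ^ u =
      ∑ f ∈ P, χ (((∏ i, f i : ℕ) : ZMod N)) := by
    intro χ
    have h1 := prod_univ_sum (fun _ : Fin u => Q) (fun _ l => χ (l : ZMod N))
    rw [prod_const, card_univ, Fintype.card_fin] at h1
    rw [h1]
    refine sum_congr rfl fun f _ => ?_
    rw [Nat.cast_prod, map_prod]
  have key : ((∑ χ : DirichletCharacter ℂ N, (‖(∑ l ∈ Q, χ (l : ZMod N)) ^ u‖ ^ 2 : ℝ) : ℝ) : ℂ) =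
      (((N.totient : ℝ) * ∑ f ∈ P, ((P.filter (fun g => ∏ i, f i = ∏ i, g i)).card : ℝ) : ℝ) : ℂ) := by
    push_cast
    have h2 : ∀ χ : DirichletCharacter ℂ N,
        ((‖(∑ l ∈ Q, χ (l : ZMod N)) ^ u‖ : ℂ) ^ 2) =
        ∑ f ∈ P, ∑ g ∈ P, χ ((((∏ i, f i : ℕ) : ZMod N))⁻¹) * χ (((∏ i, g i : ℕ) : ZMod N)) := by
      intro χ
      rw [hpow χ, ← Complex.conj_mul', map_sum, sum_mul_sum]
      refine sum_congr rfl fun f hf => sum_congr rfl fun g _ => ?_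
      rw [E1_conj χ _ (hunit f hf)]
    have h3 : ∑ χ : DirichletCharacter ℂ N, ((‖(∑ l ∈ Q, χ (l : ZMod N)) ^ u‖ : ℂ) ^ 2) =
        ∑ f ∈ P, ∑ g ∈ P, ∑ χ : DirichletCharacter ℂ N,
          χ ((((∏ i, f i : ℕ) : ZMod N))⁻¹) * χ (((∏ i, g i : ℕ) : ZMod N)) := by
      rw [sum_congr rfl fun χ _ => h2 χ, sum_comm]
      refine sum_congr rfl fun f _ => ?_
      rw [sum_comm]
    have h4 : ∀ f ∈ P, ∑ g ∈ P, ∑ χ : DirichletCharacter ℂ N,
          χ ((((∏ i, f i : ℕ) : ZMod N))⁻¹) * χ (((∏ i, g i : ℕ) : ZMod N)) =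
          (N.totient : ℂ) * ((P.filter (fun g => ∏ i, f i = ∏ i, g i)).card : ℂ) := by
      intro f hf
      have h5 : ∀ g ∈ P, ∑ χ : DirichletCharacter ℂ N,
          χ ((((∏ i, f i : ℕ) : ZMod N))⁻¹) * χ (((∏ i, g i : ℕ) : ZMod N)) =
          if ∏ i, f i = ∏ i, g i then (N.totient : ℂ) else 0 := by
        intro g hg
        rw [DirichletCharacter.sum_char_inv_mul_char_eq ℂ (hunit f hf)]
        by_cases h : ∏ i, f i = ∏ i, g i
        · rw [if_pos h, if_pos (by rw [h])]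
        · rw [if_neg h, if_neg (fun h' => h (hinj f hf g hg h'))]
      rw [sum_congr rfl h5, ← sum_filter, sum_const, nsmul_eq_mul, mul_comm]
    rw [h3, sum_congr rfl h4, ← mul_sum]
  have key2 := Complex.ofReal_injective key
  rw [key2]
  refine mul_le_mul_of_nonneg_left ?_ (Nat.cast_nonneg _)
  calc ∑ f ∈ P, ((P.filter (fun g => ∏ i, f i = ∏ i, g i)).card : ℝ) ≤ ∑ f ∈ P, (u.factorial : ℝ) := by
        refine sum_le_sum fun f hf => ?_
        exact_mod_cast E1_count Q (fun l hl => (hQ l hl).1) f (hmem f hf)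
    _ = (Q.card : ℝ) ^ u * u.factorial := by
        rw [sum_const, nsmul_eq_mul, hPc]
        push_cast
        ring

/-- `|χ l - θ|² = 2 - 2 θ Re χ l` -/
private theorem E1_norm (w : ℂ) (θ : ℝ) (hw : ‖w‖ = 1) (hθ : θ ^ 2 = 1) :
    ‖w - (θ : ℂ)‖ ^ 2 = 2 - 2 * (θ * w.re) := by
  have h1 : w.re ^ 2 + w.im ^ 2 = 1 := by
    have h := Complex.sq_norm w
    rw [hw, Complex.normSq_apply] at h
    nlinarith [h]
  rw [Complex.sq_norm, Complex.normSq_apply]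
  simp only [Complex.sub_re, Complex.sub_im, Complex.ofReal_re, Complex.ofReal_im, sub_zero]
  nlinarith [h1, hθ]

theorem few_ap (N : ℕ) [NeZero N] (Q : Finset ℕ) (B u : ℕ) (K : ℝ)
    (hQ : ∀ l ∈ Q, l.Prime ∧ l ≤ B ∧ ¬ l ∣ N) (hB : B ^ u < N) (hK : 1 ≤ K) (hu : (u : ℝ) ≤ K)
    (θ : ℝ) (hθ : θ ^ 2 = 1) (X : Finset (DirichletCharacter ℂ N))
    (hX : ∀ χ ∈ X, ∑ l ∈ Q, ‖χ (l : ZMod N) - (θ : ℂ)‖ ^ 2 ≤ Q.card / K) :
    (X.card : ℝ) * (Q.card : ℝ) ^ u ≤ 4 * N.totient * (u.factorial : ℝ) := by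
  classical
  have hK0 : 0 < K := by linarith
  have hq0 : (0 : ℝ) ≤ Q.card := Nat.cast_nonneg _
  have hq : (0 : ℝ) ≤ (Q.card : ℝ) ^ u := by positivity
  have habs : |θ| = 1 := by
    rw [← sq_eq_sq₀ (abs_nonneg _) zero_le_one, sq_abs, hθ, one_pow]
  have hlow : ∀ χ ∈ X, (Q.card : ℝ) ^ u / 2 ≤ ‖(∑ l ∈ Q, χ (l : ZMod N)) ^ u‖ := by
    intro χ hχ
    set s := ∑ l ∈ Q, χ (l : ZMod N) with hs
    have h1 : ∀ l ∈ Q, ‖χ (l : ZMod N) - (θ : ℂ)‖ ^ 2 = 2 - 2 * (θ * (χ (l : ZMod N)).re) := by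
      intro l hl
      refine E1_norm _ θ ?_ hθ
      obtain ⟨hl1, -, hl3⟩ := hQ l hl
      have hun : IsUnit ((l : ℕ) : ZMod N) := by
        rw [ZMod.isUnit_iff_coprime]
        exact (Nat.Prime.coprime_iff_not_dvd hl1).2 hl3
      obtain ⟨v, hv⟩ := hun
      rw [← hv]
      exact DirichletCharacter.unit_norm_eq_one χ v
    have h2 := hX χ hχ
    rw [sum_congr rfl h1, sum_sub_distrib, sum_const, nsmul_eq_mul, ← mul_sum, ← mul_sum] at h2
    have h3 : ∑ l ∈ Q, (χ (l : ZMod N)).re = s.re := by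
      rw [hs, Complex.re_sum]
    rw [h3] at h2
    have h4 : θ * s.re ≤ ‖s‖ := by
      calc θ * s.re ≤ |θ * s.re| := le_abs_self _
        _ = |s.re| := by rw [abs_mul, habs, one_mul]
        _ ≤ ‖s‖ := Complex.abs_re_le_norm s
    have h5 : (Q.card : ℝ) * (1 - 1 / (2 * K)) ≤ ‖s‖ := by
      have h6 : (Q.card : ℝ) * (1 - 1 / (2 * K)) = (Q.card * 2 - Q.card / K) / 2 := by
        field_simp
      rw [h6]
      linarith
    have h7 : 0 ≤ 1 - 1 / (2 * K) := by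
      have : 1 / (2 * K) ≤ 1 / 2 := by
        apply one_div_le_one_div_of_le <;> linarith
      linarith
    have h8 : 1 / 2 ≤ (1 - 1 / (2 * K)) ^ u := by
      have h9 := one_add_mul_le_pow (a := -(1 / (2 * K))) (by
        have : 1 / (2 * K) ≤ 1 / 2 := by
          apply one_div_le_one_div_of_le <;> linarith
        linarith) u
      have h10 : (u : ℝ) * -(1 / (2 * K)) = -((u : ℝ) / K / 2) := by
        field_simp
      rw [h10] at h9
      have h11 : (u : ℝ) / K ≤ 1 := by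
        rw [div_le_one hK0]
        exact hu
      have h12 : (1 : ℝ) + -(1 / (2 * K)) = 1 - 1 / (2 * K) := by ring
      rw [h12] at h9
      linarith
    rw [norm_pow]
    calc (Q.card : ℝ) ^ u / 2 = (Q.card : ℝ) ^ u * (1 / 2) := by ring
      _ ≤ (Q.card : ℝ) ^ u * (1 - 1 / (2 * K)) ^ u := mul_le_mul_of_nonneg_left h8 hq
      _ = ((Q.card : ℝ) * (1 - 1 / (2 * K))) ^ u := by rw [mul_pow]
      _ ≤ ‖s‖ ^ u := pow_le_pow_left₀ (mul_nonneg hq0 h7) h5 u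
  have hm := E1_moment N Q B u hQ hB
  have h1 : (X.card : ℝ) * ((Q.card : ℝ) ^ u / 2) ^ 2 ≤ N.totient * ((Q.card : ℝ) ^ u * u.factorial) := by
    refine le_trans ?_ hm
    calc (X.card : ℝ) * ((Q.card : ℝ) ^ u / 2) ^ 2 = ∑ _χ ∈ X, ((Q.card : ℝ) ^ u / 2) ^ 2 := by
          rw [sum_const, nsmul_eq_mul]
      _ ≤ ∑ χ ∈ X, ‖(∑ l ∈ Q, χ (l : ZMod N)) ^ u‖ ^ 2 :=
          sum_le_sum fun χ hχ => pow_le_pow_left₀ (by positivity) (hlow χ hχ) 2
      _ ≤ _ := sum_le_sum_of_subset_of_nonneg (subset_univ _) fun _ _ _ => by positivity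
  rcases eq_or_lt_of_le hq with h0 | h0
  · rw [← h0, mul_zero]
    positivity
  · refine le_of_mul_le_mul_right ?_ h0
    have h2 : (X.card : ℝ) * (Q.card : ℝ) ^ u * (Q.card : ℝ) ^ u =
        4 * ((X.card : ℝ) * ((Q.card : ℝ) ^ u / 2) ^ 2) := by ring
    rw [h2]
    calc 4 * ((X.card : ℝ) * ((Q.card : ℝ) ^ u / 2) ^ 2) ≤
          4 * (N.totient * ((Q.card : ℝ) ^ u * u.factorial)) := mul_le_mul_of_nonneg_left h1 (by norm_num)
      _ = 4 * N.totient * (u.factorial : ℝ) * (Q.card : ℝ) ^ u := by ring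

end Pool.Agent.Lib.RG
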