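import Pool.Agent.Lib.MP_7b7e48_nt.RG.E1

/-!
# Module E1b: few characters are close to `θ`, numerically

PROOF. `Q = block N M`, `B = 2M`, `u` maximal with `(2M)^u < N`; `u ≤ log N / log (2M)`, `N ≤ (2M)^(u+1)`,
`u! ≤ u^u ≤ (log N)^u`, `|Q| ≥ M / (4 log N)` (`block_card`). So
`|X| ≤ 4 N (4 (log N)²/M)^u ≤ 4 (2M)^(u+1) (4 (log N)²/M)^u = 8 M (8 (log N)²)^u ≤ 8 M exp (log N (3 log log N) / (A log log N))
= 8 M N^(3/A)` for `M ≥ (log N)^A`, which is `≤ N^κ` for `A ≥ 12/κ`, `M ≤ N^(κ/2)`, `N` large.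
-/

open Finset

namespace Pool.Agent.Lib.RG

theorem few_XX (κ : ℝ) (hκ : 0 < κ) : ∃ A : ℕ, 3 ≤ A ∧ ∃ N0 : ℕ, ∀ (N : ℕ) [NeZero N], N0 ≤ N →
    ∀ M : ℕ, (Real.log N) ^ A ≤ M → (M : ℝ) ≤ (N : ℝ) ^ (κ / 2) → ∀ θ : ℝ, θ ^ 2 = 1 →
    ((XX N M θ).card : ℝ) ≤ (N : ℝ) ^ κ := by
  classical
  obtain ⟨N1, hN1⟩ := block_card
  have hlog : Filter.Tendsto (fun N : ℕ => Real.log N) Filter.atTop Filter.atTop :=
    Real.tendsto_log_atTop.comp tendsto_natCast_atTop_atTop
  have hpw : ∀ δ : ℝ, 0 < δ → Filter.Tendsto (fun N : ℕ => (N : ℝ) ^ δ) Filter.atTop Filter.atTop :=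
    fun δ hδ => (tendsto_rpow_atTop hδ).comp tendsto_natCast_atTop_atTop
  obtain ⟨A, hA3, hAκ⟩ : ∃ A : ℕ, 3 ≤ A ∧ 12 / κ ≤ (A : ℝ) :=
    ⟨max 3 ⌈12 / κ⌉₊, le_max_left _ _, (Nat.le_ceil _).trans (by exact_mod_cast le_max_right _ _)⟩
  have hA0 : (0 : ℝ) < A := by
    have : 0 < A := by omega
    exact_mod_cast this
  have hAκ' : 3 / (A : ℝ) ≤ κ / 4 := by
    rw [div_le_iff₀ hκ] at hAκ
    rw [div_le_div_iff₀ hA0 (by norm_num)]
    linarith
  refine ⟨A, hA3, ?_⟩
  rcases le_or_gt κ 1 with hκ1 | hκ1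
  · -- the main case
    have hev := (hlog.eventually_ge_atTop 8).and (((hpw (κ / 4) (by linarith)).eventually_ge_atTop 8).and
      (Filter.eventually_ge_atTop (max N1 2)))
    obtain ⟨N0, hN0⟩ := Filter.eventually_atTop.1 hev
    refine ⟨N0, ?_⟩
    intro N _ hN M hM1 hM2 θ hθ
    obtain ⟨hL8, h8, hNmax⟩ := hN0 N hN
    have hN2 : 2 ≤ N := (le_max_right _ _).trans hNmax
    have hNN1 : N1 ≤ N := (le_max_left _ _).trans hNmax
    have hNr1 : (1 : ℝ) ≤ N := by
      have : 1 ≤ N := by omega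
      exact_mod_cast this
    have hNr : (0 : ℝ) < N := by linarith
    set L : ℝ := Real.log N with hL
    have hL0 : 0 < L := by linarith
    have hL1 : 1 ≤ L := by linarith
    have hLA : L ≤ L ^ A := le_self_pow₀ hL1 (by omega)
    have hMr : 8 ≤ (M : ℝ) := by linarith
    have hM0 : (0 : ℝ) < M := by linarith
    have hMN : M ≤ N := by
      have h1 : (M : ℝ) ≤ N := by
        calc (M : ℝ) ≤ (N : ℝ) ^ (κ / 2) := hM2
          _ ≤ (N : ℝ) ^ (1 : ℝ) := Real.rpow_le_rpow_of_exponent_le hNr1 (by linarith)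
          _ = N := Real.rpow_one _
      exact_mod_cast h1
    have hM3 : L ^ 3 ≤ M := (pow_le_pow_right₀ hL1 hA3).trans hM1
    have hQ := hN1 N hNN1 M hM3 hMN
    -- the exponent
    set u : ℕ := Nat.log (2 * M) (N - 1) with hu
    have h2M : 1 < 2 * M := by
      have h1 : 8 ≤ M := by exact_mod_cast hMr
      omega
    have hu1 : (2 * M) ^ u < N := by
      have h1 := Nat.pow_log_le_self (2 * M) (x := N - 1) (by omega)
      rw [← hu] at h1
      omega
    have hu2 : N ≤ (2 * M) ^ (u + 1) := by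
      have h1 := Nat.lt_pow_succ_log_self h2M (N - 1)
      rw [← hu, Nat.succ_eq_add_one] at h1
      omega
    have hl2M : 0 < Real.log ((2 : ℝ) * M) := Real.log_pos (by linarith)
    have hul : (u : ℝ) * Real.log (2 * M) ≤ L := by
      have h1 : ((2 : ℝ) * M) ^ u ≤ N := by exact_mod_cast hu1.le
      have h2 := Real.log_le_log (by positivity) h1
      rwa [Real.log_pow] at h2
    have hl1 : 1 ≤ Real.log ((2 : ℝ) * M) := by
      have h1 : Real.log (Real.exp 1) ≤ Real.log ((2 : ℝ) * M) := by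
        refine Real.log_le_log (Real.exp_pos 1) ?_
        have := Real.exp_one_lt_d9
        linarith
      rwa [Real.log_exp] at h1
    have hu0 : (0 : ℝ) ≤ u := Nat.cast_nonneg u
    have huL : (u : ℝ) ≤ L := by nlinarith
    have hlL : 0 ≤ Real.log L := Real.log_nonneg hL1
    have hAl : (A : ℝ) * Real.log L ≤ Real.log (2 * M) := by
      rw [← Real.log_pow]
      exact Real.log_le_log (by positivity) (by linarith)
    have huA : (u : ℝ) * (A * Real.log L) ≤ L := (mul_le_mul_of_nonneg_left hAl hu0).trans hul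
    -- the counting inequality
    have h1 := few_ap N (block N M) (2 * M) u L (fun l hl => by
      rw [mem_block] at hl
      exact ⟨hl.2.2.1, hl.2.1, hl.2.2.2⟩) hu1 hL1 huL θ hθ (XX N M θ) (fun χ hχ => by
      unfold XX at hχ
      exact (Finset.mem_filter.1 hχ).2)
    have hX0 : (0 : ℝ) ≤ ((XX N M θ).card : ℝ) := Nat.cast_nonneg _
    set q : ℝ := (M : ℝ) / (4 * L) with hq
    have hq0 : 0 < q := by positivity
    have h2 : ((XX N M θ).card : ℝ) * q ^ u ≤ 4 * N * L ^ u := by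
      calc ((XX N M θ).card : ℝ) * q ^ u ≤ ((XX N M θ).card : ℝ) * ((block N M).card : ℝ) ^ u :=
            mul_le_mul_of_nonneg_left (pow_le_pow_left₀ hq0.le hQ u) hX0
        _ ≤ 4 * N.totient * (u.factorial : ℝ) := h1
        _ ≤ 4 * N * L ^ u := by
            have h3 : (N.totient : ℝ) ≤ N := by exact_mod_cast Nat.totient_le N
            have h4 : (u.factorial : ℝ) ≤ L ^ u := by
              calc (u.factorial : ℝ) ≤ (u : ℝ) ^ u := by exact_mod_cast Nat.factorial_le_pow u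
                _ ≤ L ^ u := pow_le_pow_left₀ hu0 huL u
            exact mul_le_mul (by linarith) h4 (Nat.cast_nonneg _) (by positivity)
    have h3 : ((XX N M θ).card : ℝ) ≤ 8 * M * (8 * L ^ 2) ^ u := by
      have hqu : 0 < q ^ u := pow_pos hq0 u
      refine le_of_mul_le_mul_right ?_ hqu
      refine h2.trans ?_
      have e1 : 8 * (M : ℝ) * (8 * L ^ 2) ^ u * q ^ u = 4 * (2 * M) ^ (u + 1) * L ^ u := by
        have e2 : (8 * L ^ 2) ^ u * q ^ u = (2 * M) ^ u * L ^ u := by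
          rw [← mul_pow, ← mul_pow]
          congr 1
          rw [hq]
          field_simp
          ring
        calc 8 * (M : ℝ) * (8 * L ^ 2) ^ u * q ^ u = 8 * M * ((8 * L ^ 2) ^ u * q ^ u) := by ring
          _ = 8 * M * ((2 * M) ^ u * L ^ u) := by rw [e2]
          _ = 4 * (2 * M) ^ (u + 1) * L ^ u := by rw [pow_succ]; ring
      rw [e1]
      have h4 : (N : ℝ) ≤ (2 * M) ^ (u + 1) := by exact_mod_cast hu2
      refine mul_le_mul_of_nonneg_right ?_ (by positivity)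
      linarith
    have h4 : (8 * L ^ 2) ^ u ≤ (N : ℝ) ^ (κ / 4) := by
      have h5 : 8 * L ^ 2 ≤ L ^ 3 := by nlinarith [sq_nonneg L]
      have h6 : (8 * L ^ 2) ^ u ≤ (L ^ 3) ^ u := pow_le_pow_left₀ (by positivity) h5 u
      refine h6.trans ?_
      have h7 : (L ^ 3) ^ u = Real.exp (3 * (u * Real.log L)) := by
        rw [← pow_mul, ← Real.exp_log hL0, ← Real.exp_nat_mul, Real.exp_log hL0]
        congr 1
        push_cast
        ring
      rw [h7, Real.rpow_def_of_pos hNr]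
      refine Real.exp_le_exp.2 ?_
      have h8 : (u : ℝ) * Real.log L ≤ L / A := by
        rw [le_div_iff₀ hA0]
        linarith
      calc 3 * ((u : ℝ) * Real.log L) ≤ 3 * (L / A) := by linarith
        _ = 3 / A * L := by ring
        _ ≤ κ / 4 * L := mul_le_mul_of_nonneg_right hAκ' hL0.le
        _ = Real.log N * (κ / 4) := by rw [← hL]; ring
    have hκ4 : (0 : ℝ) ≤ (N : ℝ) ^ (κ / 4) := Real.rpow_nonneg hNr.le _
    have hκ2 : (0 : ℝ) ≤ (N : ℝ) ^ (κ / 2) := Real.rpow_nonneg hNr.le _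
    calc ((XX N M θ).card : ℝ) ≤ 8 * M * (8 * L ^ 2) ^ u := h3
      _ ≤ (N : ℝ) ^ (κ / 4) * (N : ℝ) ^ (κ / 2) * (N : ℝ) ^ (κ / 4) :=
          mul_le_mul (mul_le_mul h8 hM2 hM0.le hκ4) h4 (by positivity) (mul_nonneg hκ4 hκ2)
      _ = (N : ℝ) ^ κ := by
          rw [← Real.rpow_add hNr, ← Real.rpow_add hNr]
          congr 1
          ring
  · -- trivial case
    have hev := (hlog.eventually_ge_atTop 1).and
      (((hpw (κ - 1) (by linarith)).eventually_ge_atTop 4).and (Filter.eventually_ge_atTop 2))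
    obtain ⟨N0, hN0⟩ := Filter.eventually_atTop.1 hev
    refine ⟨N0, ?_⟩
    intro N _ hN M _ _ θ hθ
    obtain ⟨hL1, h4, hN2⟩ := hN0 N hN
    have hNr1 : (1 : ℝ) ≤ N := by
      have : 1 ≤ N := by omega
      exact_mod_cast this
    have hNr : (0 : ℝ) < N := by linarith
    have h1 := few_ap N (block N M) (2 * M) 0 (Real.log N) (fun l hl => by
      rw [mem_block] at hl
      exact ⟨hl.2.2.1, hl.2.1, hl.2.2.2⟩) (by rw [pow_zero]; omega) hL1 (by
      rw [Nat.cast_zero]; linarith) θ hθ (XX N M θ) (fun χ hχ => by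
      unfold XX at hχ
      exact (Finset.mem_filter.1 hχ).2)
    rw [pow_zero, mul_one, Nat.factorial_zero, Nat.cast_one, mul_one] at h1
    have h3 : (N.totient : ℝ) ≤ N := by exact_mod_cast Nat.totient_le N
    calc ((XX N M θ).card : ℝ) ≤ 4 * N.totient := h1
      _ ≤ 4 * N := by linarith
      _ ≤ (N : ℝ) ^ (κ - 1) * N := mul_le_mul_of_nonneg_right h4 hNr.le
      _ = (N : ℝ) ^ κ := by
          rw [← Real.rpow_add_one hNr.ne']
          congr 1
          ring

end Pool.Agent.Lib.RG
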