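import Pool.Agent.Lib.MP_7b7e48_nt.RG.E3

/-!
# Module E4: one step of the spectral lemma

PROOF. `S = ∑ h²`, `b χ = bch h χ`, `h_X x = ∑_{χ ∈ XX} b χ χ x`; `∑_x |h - h_X|² = φ(N) ∑_{χ ∉ XX} |b χ|² ≤ K ε S`
(`chPars`, `chInv`, `usl_first`). By `one`, `two`, `mult_one`, `mult_two`:
`∑_{l} ∑_n |h_X(l n) - ρ n|² ≤ 2 ε S + 4 K · K ε S ≤ K³ ε S`, `∑_{l1,l2} ∑_n |h_X(l1 l2 n) - θ ρ n|² ≤ 2 ε S + 8 K² · K ε S ≤ K⁴ ε S`.
For fixed `l, l1, l2`: `θ h_X(l n) - h_X(l1 l2 n) = ∑_{χ ∈ XX} b χ (θ χ l - χ l1 χ l2) χ n`, and by `no3`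
(`y = N / (2 · 2^i) ≥ N^(1/2+κ/2)`, `|XX| ≤ N^(κ/10)` by `few_XX (κ/10)`)
`c₃ (y / log z) ∑_{XX} |b χ|² |θ χ l - χ l1 χ l2|² ≤ ∑_n |..|² ≤ 2 ∑_n |h_X(l n) - ρ n|² + 2 ∑_n |h_X(l1 l2 n) - θ ρ n|²`.
Sum over `l, l1, l2`; `|L_Y| ≥ Y/K²`, `|L_{Y/2M}| |P1| ≥ Y/(16 K³)`, `y ≥ N/(4Y)`, `φ(N) ≤ N`.
-/

open Finset

namespace Pool.Agent.Lib.RG

private theorem E4_num (c3 l Y p q : ℝ) (hc3 : 0 < c3) (hl : 1 ≤ l) (hl2 : 1280 / c3 ≤ l) (hY : 0 ≤ Y)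
    (hp : Y / l ^ 2 ≤ p) (hq : Y / (8 * l ^ 3) ≤ q) :
    4 * Y * l / c3 * (2 * q * (4 * l ^ 2 + 2) + 2 * p * (8 * l ^ 3 + 2)) ≤ l ^ 12 * (p * q) := by
  have hl0 : 0 < l := by linarith
  have hp0 : 0 ≤ p := le_trans (by positivity) hp
  have hq0 : 0 ≤ q := le_trans (by positivity) hq
  have h1 : Y ≤ p * l ^ 2 := by
    rwa [div_le_iff₀ (by positivity)] at hp
  have h2 : Y ≤ q * (8 * l ^ 3) := by
    rwa [div_le_iff₀ (by positivity)] at hq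
  have h3 : 1 / c3 ≤ l / 1280 := by
    rw [div_le_iff₀ hc3] at hl2
    rw [div_le_iff₀ hc3]
    linarith
  have hp2 : (1 : ℝ) ≤ l ^ 2 := one_le_pow₀ hl
  have hp3 : (1 : ℝ) ≤ l ^ 3 := one_le_pow₀ hl
  have e1 : 4 * Y * l / c3 * (2 * q * (4 * l ^ 2 + 2)) ≤ 1 / 2 * (l ^ 12 * (p * q)) := by
    calc 4 * Y * l / c3 * (2 * q * (4 * l ^ 2 + 2)) = (8 * Y * l * q * (4 * l ^ 2 + 2)) * (1 / c3) := by ring
      _ ≤ (8 * Y * l * q * (4 * l ^ 2 + 2)) * (l / 1280) := mul_le_mul_of_nonneg_left h3 (by positivity)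
      _ ≤ (8 * Y * l * q * (6 * l ^ 2)) * (l / 1280) := by
          refine mul_le_mul_of_nonneg_right ?_ (by positivity)
          refine mul_le_mul_of_nonneg_left ?_ (by positivity)
          linarith
      _ = Y * (q * l ^ 4 * (48 / 1280)) := by ring
      _ ≤ (p * l ^ 2) * (q * l ^ 4 * (48 / 1280)) := mul_le_mul_of_nonneg_right h1 (by positivity)
      _ = (48 / 1280) * (l ^ 6 * (p * q)) := by ring
      _ ≤ 1 / 2 * (l ^ 6 * (p * q)) := mul_le_mul_of_nonneg_right (by norm_num) (by positivity)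
      _ ≤ 1 / 2 * (l ^ 12 * (p * q)) := by
          refine mul_le_mul_of_nonneg_left ?_ (by norm_num)
          exact mul_le_mul_of_nonneg_right (pow_le_pow_right₀ hl (by norm_num)) (by positivity)
  have e2 : 4 * Y * l / c3 * (2 * p * (8 * l ^ 3 + 2)) ≤ 1 / 2 * (l ^ 12 * (p * q)) := by
    calc 4 * Y * l / c3 * (2 * p * (8 * l ^ 3 + 2)) = (8 * Y * l * p * (8 * l ^ 3 + 2)) * (1 / c3) := by ring
      _ ≤ (8 * Y * l * p * (8 * l ^ 3 + 2)) * (l / 1280) := mul_le_mul_of_nonneg_left h3 (by positivity)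
      _ ≤ (8 * Y * l * p * (10 * l ^ 3)) * (l / 1280) := by
          refine mul_le_mul_of_nonneg_right ?_ (by positivity)
          refine mul_le_mul_of_nonneg_left ?_ (by positivity)
          linarith
      _ = Y * (p * l ^ 5 * (80 / 1280)) := by ring
      _ ≤ (q * (8 * l ^ 3)) * (p * l ^ 5 * (80 / 1280)) := mul_le_mul_of_nonneg_right h2 (by positivity)
      _ = 1 / 2 * (l ^ 8 * (p * q)) := by ring
      _ ≤ 1 / 2 * (l ^ 12 * (p * q)) := by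
          refine mul_le_mul_of_nonneg_left ?_ (by norm_num)
          exact mul_le_mul_of_nonneg_right (pow_le_pow_right₀ hl (by norm_num)) (by positivity)
  calc 4 * Y * l / c3 * (2 * q * (4 * l ^ 2 + 2) + 2 * p * (8 * l ^ 3 + 2)) =
        4 * Y * l / c3 * (2 * q * (4 * l ^ 2 + 2)) + 4 * Y * l / c3 * (2 * p * (8 * l ^ 3 + 2)) := by ring
    _ ≤ 1 / 2 * (l ^ 12 * (p * q)) + 1 / 2 * (l ^ 12 * (p * q)) := add_le_add e1 e2
    _ = l ^ 12 * (p * q) := by ring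

private theorem E4_sq (a b : ℂ) : ‖a - b‖ ^ 2 ≤ 2 * ‖a‖ ^ 2 + 2 * ‖b‖ ^ 2 := by
  have h1 : ‖a - b‖ ≤ ‖a‖ + ‖b‖ := norm_sub_le a b
  have h2 : ‖a - b‖ ^ 2 ≤ (‖a‖ + ‖b‖) ^ 2 := pow_le_pow_left₀ (norm_nonneg _) h1 2
  nlinarith [sq_nonneg (‖a‖ - ‖b‖)]

open Classical in
private theorem E4_det (N : ℕ) [NeZero N] (l ε θ D : ℝ) (h : ZMod N → ℝ) (ρ : ℕ → ℝ)
    (hl : 0 ≤ l) (hθ : θ ^ 2 = 1)
    (X : Finset (DirichletCharacter ℂ N)) (R P P1 P' : Finset ℕ)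
    (h0 : ∀ x : ZMod N, ¬ IsUnit x → h x = 0)
    (first : (N.totient : ℝ) * ∑ χ ∈ Finset.univ \ X, ‖bch (fun x => (h x : ℂ)) χ‖ ^ 2 ≤
      l * (ε * ∑ x : ZMod N, h x ^ 2))
    (one : ∑ a ∈ P, ∑ n ∈ R, (h ((a * n : ℕ) : ZMod N) - ρ n) ^ 2 ≤ ε * ∑ x : ZMod N, h x ^ 2)
    (two : ∑ a ∈ P1, ∑ b ∈ P', ∑ n ∈ R, (h ((a * b * n : ℕ) : ZMod N) - θ * ρ n) ^ 2 ≤
      ε * ∑ x : ZMod N, h x ^ 2)
    (m1 : ∀ W : ZMod N → ℝ, (∀ x, 0 ≤ W x) →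
      ∑ a ∈ P, ∑ n ∈ R, W ((a * n : ℕ) : ZMod N) ≤ 2 * l * ∑ x : ZMod N, W x)
    (m2 : ∀ W : ZMod N → ℝ, (∀ x, 0 ≤ W x) →
      ∑ a ∈ P1, ∑ b ∈ P', ∑ n ∈ R, W ((a * b * n : ℕ) : ZMod N) ≤ (2 * l) ^ 2 * ∑ x : ZMod N, W x)
    (no : ∀ c : DirichletCharacter ℂ N → ℂ, D * ∑ χ ∈ X, ‖c χ‖ ^ 2 ≤
      ∑ n ∈ R, ‖∑ χ ∈ X, c χ * χ (n : ZMod N)‖ ^ 2) :
    D * (∑ a ∈ P, ∑ b ∈ P1, ∑ b' ∈ P', ∑ χ ∈ X, ‖bch (fun x => (h x : ℂ)) χ‖ ^ 2 *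
        ‖(θ : ℂ) * χ (a : ZMod N) - χ (b : ZMod N) * χ (b' : ZMod N)‖ ^ 2) ≤
      (2 * (P1.card * P'.card) * (4 * l ^ 2 + 2) + 2 * P.card * (8 * l ^ 3 + 2)) *
        (ε * ∑ x : ZMod N, h x ^ 2) := by
  set S : ℝ := ε * ∑ x : ZMod N, h x ^ 2 with hS
  set F : ZMod N → ℂ := fun x => (h x : ℂ) with hF
  set B : DirichletCharacter ℂ N → ℂ := bch F with hB
  set hX : ZMod N → ℂ := fun x => ∑ χ ∈ X, B χ * χ x with hhX
  set W : ZMod N → ℝ := fun x => ‖F x - hX x‖ ^ 2 with hW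
  have hW0 : ∀ x, 0 ≤ W x := fun x => by rw [hW]; positivity
  have hF0 : ∀ x, ¬ IsUnit x → F x = 0 := fun x hx => by
    rw [hF]
    simp only
    rw [h0 x hx, Complex.ofReal_zero]
  have hWs : ∑ x : ZMod N, W x ≤ l * S := by
    refine le_trans (le_of_eq ?_) first
    rw [← chPars (Finset.univ \ X) B]
    refine sum_congr rfl fun x _ => ?_
    rw [hW]
    simp only
    congr 2
    rw [chInv F hF0 x, ← Finset.sum_sdiff (Finset.subset_univ X)]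
    rw [hhX]
    simp only
    rw [add_sub_cancel_right]
  have hU : ∀ a n : ℕ, ‖hX ((a * n : ℕ) : ZMod N) - (ρ n : ℂ)‖ ^ 2 ≤
      2 * W ((a * n : ℕ) : ZMod N) + 2 * (h ((a * n : ℕ) : ZMod N) - ρ n) ^ 2 := by
    intro a n
    set x : ZMod N := ((a * n : ℕ) : ZMod N)
    have e : hX x - (ρ n : ℂ) = (F x - (ρ n : ℂ)) - (F x - hX x) := by ring
    rw [e]
    refine (E4_sq _ _).trans ?_
    have e2 : ‖F x - (ρ n : ℂ)‖ ^ 2 = (h x - ρ n) ^ 2 := by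
      rw [hF]
      simp only
      rw [← Complex.ofReal_sub, Complex.norm_real, Real.norm_eq_abs, sq_abs]
    rw [e2]
    linarith
  have hV : ∀ a b n : ℕ, ‖hX ((a * b * n : ℕ) : ZMod N) - ((θ * ρ n : ℝ) : ℂ)‖ ^ 2 ≤
      2 * W ((a * b * n : ℕ) : ZMod N) + 2 * (h ((a * b * n : ℕ) : ZMod N) - θ * ρ n) ^ 2 := by
    intro a b n
    set x : ZMod N := ((a * b * n : ℕ) : ZMod N)
    have e : hX x - ((θ * ρ n : ℝ) : ℂ) = (F x - ((θ * ρ n : ℝ) : ℂ)) - (F x - hX x) := by ring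
    rw [e]
    refine (E4_sq _ _).trans ?_
    have e2 : ‖F x - ((θ * ρ n : ℝ) : ℂ)‖ ^ 2 = (h x - θ * ρ n) ^ 2 := by
      rw [hF]
      simp only
      rw [← Complex.ofReal_sub, Complex.norm_real, Real.norm_eq_abs, sq_abs]
    rw [e2]
    linarith
  have sU : ∑ a ∈ P, ∑ n ∈ R, ‖hX ((a * n : ℕ) : ZMod N) - (ρ n : ℂ)‖ ^ 2 ≤ (4 * l ^ 2 + 2) * S := by
    calc ∑ a ∈ P, ∑ n ∈ R, ‖hX ((a * n : ℕ) : ZMod N) - (ρ n : ℂ)‖ ^ 2 ≤
          ∑ a ∈ P, ∑ n ∈ R, (2 * W ((a * n : ℕ) : ZMod N) + 2 * (h ((a * n : ℕ) : ZMod N) - ρ n) ^ 2) :=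
          sum_le_sum fun a _ => sum_le_sum fun n _ => hU a n
      _ = 2 * (∑ a ∈ P, ∑ n ∈ R, W ((a * n : ℕ) : ZMod N)) +
          2 * ∑ a ∈ P, ∑ n ∈ R, (h ((a * n : ℕ) : ZMod N) - ρ n) ^ 2 := by
          simp only [sum_add_distrib, mul_sum]
      _ ≤ 2 * (2 * l * (l * S)) + 2 * S := by
          refine add_le_add ?_ (mul_le_mul_of_nonneg_left one (by norm_num))
          refine mul_le_mul_of_nonneg_left ?_ (by norm_num)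
          exact (m1 W hW0).trans (mul_le_mul_of_nonneg_left hWs (by positivity))
      _ = (4 * l ^ 2 + 2) * S := by ring
  have sV : ∑ a ∈ P1, ∑ b ∈ P', ∑ n ∈ R, ‖hX ((a * b * n : ℕ) : ZMod N) - ((θ * ρ n : ℝ) : ℂ)‖ ^ 2 ≤
      (8 * l ^ 3 + 2) * S := by
    calc ∑ a ∈ P1, ∑ b ∈ P', ∑ n ∈ R, ‖hX ((a * b * n : ℕ) : ZMod N) - ((θ * ρ n : ℝ) : ℂ)‖ ^ 2 ≤
          ∑ a ∈ P1, ∑ b ∈ P', ∑ n ∈ R, (2 * W ((a * b * n : ℕ) : ZMod N) +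
            2 * (h ((a * b * n : ℕ) : ZMod N) - θ * ρ n) ^ 2) :=
          sum_le_sum fun a _ => sum_le_sum fun b _ => sum_le_sum fun n _ => hV a b n
      _ = 2 * (∑ a ∈ P1, ∑ b ∈ P', ∑ n ∈ R, W ((a * b * n : ℕ) : ZMod N)) +
          2 * ∑ a ∈ P1, ∑ b ∈ P', ∑ n ∈ R, (h ((a * b * n : ℕ) : ZMod N) - θ * ρ n) ^ 2 := by
          simp only [sum_add_distrib, mul_sum]
      _ ≤ 2 * ((2 * l) ^ 2 * (l * S)) + 2 * S := by
          refine add_le_add ?_ (mul_le_mul_of_nonneg_left two (by norm_num))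
          refine mul_le_mul_of_nonneg_left ?_ (by norm_num)
          exact (m2 W hW0).trans (mul_le_mul_of_nonneg_left hWs (by positivity))
      _ = (8 * l ^ 3 + 2) * S := by ring
  have hθn : ‖(θ : ℂ)‖ ^ 2 = 1 := by
    rw [Complex.norm_real, Real.norm_eq_abs, sq_abs, hθ]
  have step : ∀ a b b' : ℕ, D * (∑ χ ∈ X, ‖B χ‖ ^ 2 *
        ‖(θ : ℂ) * χ (a : ZMod N) - χ (b : ZMod N) * χ (b' : ZMod N)‖ ^ 2) ≤
      ∑ n ∈ R, (2 * ‖hX ((a * n : ℕ) : ZMod N) - (ρ n : ℂ)‖ ^ 2 +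
        2 * ‖hX ((b * b' * n : ℕ) : ZMod N) - ((θ * ρ n : ℝ) : ℂ)‖ ^ 2) := by
    intro a b b'
    have e1 : ∑ χ ∈ X, ‖B χ‖ ^ 2 * ‖(θ : ℂ) * χ (a : ZMod N) - χ (b : ZMod N) * χ (b' : ZMod N)‖ ^ 2 =
        ∑ χ ∈ X, ‖B χ * ((θ : ℂ) * χ (a : ZMod N) - χ (b : ZMod N) * χ (b' : ZMod N))‖ ^ 2 := by
      refine sum_congr rfl fun χ _ => ?_
      rw [norm_mul, mul_pow]
    rw [e1]
    refine (no _).trans (sum_le_sum fun n _ => ?_)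
    have e2 : ∑ χ ∈ X, B χ * ((θ : ℂ) * χ (a : ZMod N) - χ (b : ZMod N) * χ (b' : ZMod N)) * χ (n : ZMod N) =
        (θ : ℂ) * (hX ((a * n : ℕ) : ZMod N) - (ρ n : ℂ)) -
          (hX ((b * b' * n : ℕ) : ZMod N) - ((θ * ρ n : ℝ) : ℂ)) := by
      have e3 : (θ : ℂ) * hX ((a * n : ℕ) : ZMod N) - hX ((b * b' * n : ℕ) : ZMod N) =
          ∑ χ ∈ X, B χ * ((θ : ℂ) * χ (a : ZMod N) - χ (b : ZMod N) * χ (b' : ZMod N)) *
            χ (n : ZMod N) := by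
        rw [hhX]
        simp only
        rw [mul_sum, ← sum_sub_distrib]
        refine sum_congr rfl fun χ _ => ?_
        push_cast
        rw [map_mul, map_mul, map_mul]
        ring
      rw [← e3]
      push_cast
      ring
    rw [e2]
    refine (E4_sq _ _).trans ?_
    rw [norm_mul, mul_pow, hθn, one_mul]
  calc D * (∑ a ∈ P, ∑ b ∈ P1, ∑ b' ∈ P', ∑ χ ∈ X, ‖B χ‖ ^ 2 *
        ‖(θ : ℂ) * χ (a : ZMod N) - χ (b : ZMod N) * χ (b' : ZMod N)‖ ^ 2) =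
      ∑ a ∈ P, ∑ b ∈ P1, ∑ b' ∈ P', D * (∑ χ ∈ X, ‖B χ‖ ^ 2 *
        ‖(θ : ℂ) * χ (a : ZMod N) - χ (b : ZMod N) * χ (b' : ZMod N)‖ ^ 2) := by
        simp only [← mul_sum]
    _ ≤ ∑ a ∈ P, ∑ b ∈ P1, ∑ b' ∈ P', ∑ n ∈ R, (2 * ‖hX ((a * n : ℕ) : ZMod N) - (ρ n : ℂ)‖ ^ 2 +
        2 * ‖hX ((b * b' * n : ℕ) : ZMod N) - ((θ * ρ n : ℝ) : ℂ)‖ ^ 2) :=
        sum_le_sum fun a _ => sum_le_sum fun b _ => sum_le_sum fun b' _ => step a b b'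
    _ = 2 * (P1.card * P'.card) * (∑ a ∈ P, ∑ n ∈ R, ‖hX ((a * n : ℕ) : ZMod N) - (ρ n : ℂ)‖ ^ 2) +
        2 * P.card * ∑ b ∈ P1, ∑ b' ∈ P', ∑ n ∈ R,
          ‖hX ((b * b' * n : ℕ) : ZMod N) - ((θ * ρ n : ℝ) : ℂ)‖ ^ 2 := by
        simp only [sum_add_distrib, sum_const, nsmul_eq_mul, ← mul_sum]
        ring
    _ ≤ 2 * (P1.card * P'.card) * ((4 * l ^ 2 + 2) * S) + 2 * P.card * ((8 * l ^ 3 + 2) * S) :=
        add_le_add (mul_le_mul_of_nonneg_left sU (by positivity))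
          (mul_le_mul_of_nonneg_left sV (by positivity))
    _ = _ := by ring

private theorem E4_large (κ A : ℝ) (hκ : 0 < κ) : ∃ N0 : ℕ, ∀ N : ℕ, N0 ≤ N →
    3 ≤ N ∧ 1 ≤ Real.log N ∧ A ≤ Real.log N ∧ 4 ≤ (N : ℝ) ^ κ := by
  have h1 : Filter.Tendsto (fun N : ℕ => Real.log (N : ℝ)) Filter.atTop Filter.atTop :=
    Real.tendsto_log_atTop.comp tendsto_natCast_atTop_atTop
  have h2 : Filter.Tendsto (fun N : ℕ => (N : ℝ) ^ κ) Filter.atTop Filter.atTop :=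
    (tendsto_rpow_atTop hκ).comp tendsto_natCast_atTop_atTop
  have h := ((Filter.eventually_ge_atTop 3).and ((h1.eventually_ge_atTop 1).and
    ((h1.eventually_ge_atTop A).and (h2.eventually_ge_atTop 4))))
  obtain ⟨N0, hN0⟩ := Filter.eventually_atTop.1 h
  exact ⟨N0, fun N hN => hN0 N hN⟩

theorem usl_step (κ : ℝ) (hκ : 0 < κ) (hκ1 : κ ≤ 1 / 20) : ∃ c0 : ℝ, 0 < c0 ∧ ∃ A : ℕ, 3 ≤ A ∧ ∃ N0 : ℕ,
    ∀ (N : ℕ) [NeZero N], N0 ≤ N → ∀ j z : ℕ, (Real.log N) ^ A ≤ (2 : ℝ) ^ j →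
    (2 : ℝ) ^ j ≤ (N : ℝ) ^ (κ / 20) → 2 ^ j ≤ z → (z : ℝ) ≤ (N : ℝ) ^ c0 →
    ∀ (θ ε : ℝ) (h : ZMod N → ℝ) (ρ : ℕ → ℝ) (L : ℕ → Finset ℕ), θ ^ 2 = 1 → 0 ≤ ε →
    USLH N (2 ^ j) z κ ε θ h ρ L →
    ∀ i : ℕ, 2 * (2 ^ j) ^ 2 < 2 ^ i → (2 : ℝ) ^ i ≤ HH N κ →
    (N.totient : ℝ) * ∑ l ∈ L (2 ^ i), ∑ l1 ∈ block N (2 ^ j), ∑ l2 ∈ L (2 ^ i / (2 * 2 ^ j)),
      ∑ χ ∈ XX N (2 ^ j) θ, ‖bch (fun x => (h x : ℂ)) χ‖ ^ 2 *
        ‖(θ : ℂ) * χ (l : ZMod N) - χ (l1 : ZMod N) * χ (l2 : ZMod N)‖ ^ 2 ≤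
      (Real.log N) ^ 12 * (ε * ∑ x : ZMod N, h x ^ 2) *
        ((L (2 ^ i)).card * (block N (2 ^ j)).card * (L (2 ^ i / (2 * 2 ^ j))).card) := by
  classical
  obtain ⟨c3, hc3, hno3⟩ := no3
  obtain ⟨c0', hc0', N1, hno⟩ := hno3 κ hκ
  obtain ⟨A, hA3, N2, hfew⟩ := few_XX (κ / 10) (by positivity)
  obtain ⟨N3, hblock⟩ := block_card
  obtain ⟨N4, hlarge⟩ := E4_large κ (1280 / c3) hκ
  refine ⟨min c0' 1, lt_min hc0' one_pos, A, hA3, N1 + N2 + N3 + N4, ?_⟩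
  intro N _ hN j z hj1 hj2 hjz hz θ ε h ρ L hθ hε H i hi1 hi2
  obtain ⟨hN3, hl1, hl2, hNκ⟩ := hlarge N (by omega)
  set l : ℝ := Real.log N with hl
  have hx1 : (1 : ℝ) ≤ N := by
    have : 1 ≤ N := by omega
    exact_mod_cast this
  have hx0 : (0 : ℝ) < N := by linarith
  have hl0 : 0 < l := by linarith
  have hij : 2 * j + 1 < i := by
    have h1 : 2 * (2 ^ j) ^ 2 = 2 ^ (2 * j + 1) := by
      rw [← pow_mul, pow_succ]
      ring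
    rw [h1] at hi1
    exact (Nat.pow_lt_pow_iff_right (by norm_num)).1 hi1
  have hdiv : 2 ^ i / (2 * 2 ^ j) = 2 ^ (i - j - 1) := by
    have h1 : 2 * 2 ^ j = 2 ^ (j + 1) := by rw [pow_succ]; ring
    rw [h1, Nat.pow_div (by omega) (by norm_num)]
    congr 1
  have hij2 : 2 * 2 ^ j * 2 ^ (i - j - 1) = 2 ^ i := by
    have h1 : 2 * 2 ^ j = 2 ^ (j + 1) := by rw [pow_succ]; ring
    rw [h1, ← pow_add]
    congr 1
    omega
  have hij2' : 2 * (2 : ℝ) ^ j * (2 : ℝ) ^ (i - j - 1) = (2 : ℝ) ^ i := by exact_mod_cast hij2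
  set y : ℕ := N / (2 * 2 ^ i) with hy
  set Y : ℝ := (2 : ℝ) ^ i with hY
  have hY0 : 0 < Y := by positivity
  -- the size of y
  have hX : 2 * (N : ℝ) ^ (1 / 2 + κ) ≤ (N : ℝ) / (2 * Y) := by
    rw [le_div_iff₀ (by positivity)]
    calc 2 * (N : ℝ) ^ (1 / 2 + κ) * (2 * Y) = 4 * (N : ℝ) ^ (1 / 2 + κ) * Y := by ring
      _ ≤ (N : ℝ) ^ κ * (N : ℝ) ^ (1 / 2 + κ) * HH N κ :=
          mul_le_mul (mul_le_mul_of_nonneg_right hNκ (by positivity)) hi2 hY0.le (by positivity)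
      _ = (N : ℝ) := by
          unfold HH
          rw [← Real.rpow_add hx0, ← Real.rpow_add hx0]
          have e : κ + (1 / 2 + κ) + (1 / 2 - 2 * κ) = 1 := by ring
          rw [e, Real.rpow_one]
  have hX2 : 1 ≤ (N : ℝ) ^ (1 / 2 + κ) := Real.one_le_rpow hx1 (by positivity)
  have hyX : (N : ℝ) / (2 * Y) - 1 ≤ (y : ℝ) := by
    have h1 : ((2 * 2 ^ i : ℕ) : ℝ) = 2 * Y := by
      rw [hY]
      push_cast
      ring
    have h2 : (N : ℝ) / (2 * Y) < (y : ℝ) + 1 := by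
      rw [← h1, hy]
      rw [div_lt_iff₀ (by positivity)]
      have h3 := Nat.lt_div_mul_add (a := N) (b := 2 * 2 ^ i) (by positivity)
      have h4 : N < (N / (2 * 2 ^ i) + 1) * (2 * 2 ^ i) := by
        rw [add_mul, one_mul]
        exact h3
      exact_mod_cast h4
    linarith
  have hyN : (N : ℝ) / (4 * Y) ≤ (y : ℝ) := by
    have h1 : (N : ℝ) / (4 * Y) = (N : ℝ) / (2 * Y) / 2 := by
      field_simp
      ring
    rw [h1]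
    linarith
  have hyκ : (N : ℝ) ^ (1 / 2 + κ / 2) ≤ (y : ℝ) := by
    have h1 : (N : ℝ) ^ (1 / 2 + κ / 2) ≤ (N : ℝ) ^ (1 / 2 + κ) :=
      Real.rpow_le_rpow_of_exponent_le hx1 (by linarith)
    linarith
  have hyle : 2 * 2 ^ i * y ≤ N := by
    rw [hy]
    exact Nat.mul_div_le N _
  -- the conditions on z
  have hzA : (1 : ℝ) ≤ l ^ A := one_le_pow₀ hl1
  have hlA : l ≤ l ^ A := by
    calc l = l ^ 1 := (pow_one l).symm
      _ ≤ l ^ A := pow_le_pow_right₀ hl1 (by omega)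
  have hjz' : (2 : ℝ) ^ j ≤ z := by exact_mod_cast hjz
  have hzl : l ≤ z := by linarith
  have hz0 : (0 : ℝ) < z := by linarith
  have hzc : (z : ℝ) ≤ (N : ℝ) ^ c0' :=
    hz.trans (Real.rpow_le_rpow_of_exponent_le hx1 (min_le_left _ _))
  have hzN : (z : ℝ) ≤ N := by
    have h1 := hz.trans (Real.rpow_le_rpow_of_exponent_le hx1 (min_le_right c0' 1))
    rwa [Real.rpow_one] at h1
  have hlz : Real.log z ≤ l := Real.log_le_log hz0 hzN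
  have hcastj : (((2 ^ j : ℕ)) : ℝ) = (2 : ℝ) ^ j := by push_cast; ring
  have hXX : ((XX N (2 ^ j) θ).card : ℝ) ≤ (N : ℝ) ^ (κ / 10) := by
    refine hfew N (by omega) (2 ^ j) ?_ ?_ θ hθ
    · rw [hcastj]; exact hj1
    · rw [hcastj]
      have e : κ / 10 / 2 = κ / 20 := by ring
      rw [e]
      exact hj2
  have hMN : (2 : ℝ) ^ j ≤ N := by
    refine hj2.trans ?_
    calc (N : ℝ) ^ (κ / 20) ≤ (N : ℝ) ^ (1 : ℝ) := Real.rpow_le_rpow_of_exponent_le hx1 (by linarith)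
      _ = N := Real.rpow_one _
  have hbc : (2 : ℝ) ^ j / (4 * l) ≤ (block N (2 ^ j)).card := by
    have h1 := hblock N (by omega) (2 ^ j) (by
      rw [hcastj]
      exact (pow_le_pow_right₀ hl1 hA3).trans hj1) (by
      have : (((2 ^ j : ℕ)) : ℝ) ≤ (N : ℝ) := by rw [hcastj]; exact hMN
      exact_mod_cast this)
    rwa [hcastj] at h1
  have hP : Y / l ^ 2 ≤ (L (2 ^ i)).card := by
    refine H.big i ?_ hi2
    exact Nat.pow_le_pow_right (by norm_num) (by omega)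
  have hP' : (2 : ℝ) ^ (i - j - 1) / l ^ 2 ≤ (L (2 ^ (i - j - 1))).card := by
    refine H.big (i - j - 1) (Nat.pow_le_pow_right (by norm_num) (by omega)) ?_
    refine le_trans ?_ hi2
    exact pow_le_pow_right₀ (by norm_num) (by omega)
  have hbpos : 0 < (block N (2 ^ j)).card := by
    have h1 : (0 : ℝ) < (block N (2 ^ j)).card := lt_of_lt_of_le (by positivity) hbc
    exact_mod_cast h1
  have first := usl_first N hN3 (2 ^ j) (Nat.one_le_two_pow) θ ε h H.zero hbpos H.inv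
  have m1 : ∀ W : ZMod N → ℝ, (∀ x, 0 ≤ W x) →
      ∑ a ∈ L (2 ^ i), ∑ n ∈ RN N z y, W ((a * n : ℕ) : ZMod N) ≤ 2 * l * ∑ x : ZMod N, W x :=
    fun W hW => mult_one N hN3 z (2 ^ i) y hyle (L (2 ^ i)) (H.sub _) W hW
  have m2 : ∀ W : ZMod N → ℝ, (∀ x, 0 ≤ W x) →
      ∑ a ∈ block N (2 ^ j), ∑ b ∈ L (2 ^ (i - j - 1)), ∑ n ∈ RN N z y, W ((a * b * n : ℕ) : ZMod N) ≤
        (2 * l) ^ 2 * ∑ x : ZMod N, W x := by
    intro W hW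
    refine mult_two N hN3 z (2 ^ j) (2 ^ (i - j - 1)) y ?_ (block N (2 ^ j)) (L (2 ^ (i - j - 1)))
      (subset_refl _) (H.sub _) W hW
    have e : 2 * 2 ^ j * (2 * 2 ^ (i - j - 1)) = 2 * 2 ^ i := by
      rw [← hij2]
      ring
    rw [e]
    exact hyle
  have no := hno N (by omega) z hzl hzc y hyκ (XX N (2 ^ j) θ) hXX
  have one := H.one i hi1 hi2
  have two := H.two i hi1 hi2
  rw [hdiv] at two ⊢
  have key := E4_det N l ε θ (c3 * (y / Real.log z)) h ρ hl0.le hθ (XX N (2 ^ j) θ) (RN N z y)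
    (L (2 ^ i)) (block N (2 ^ j)) (L (2 ^ (i - j - 1))) H.zero first one two m1 m2 no
  set T : ℝ := ∑ a ∈ L (2 ^ i), ∑ b ∈ block N (2 ^ j), ∑ b' ∈ L (2 ^ (i - j - 1)),
    ∑ χ ∈ XX N (2 ^ j) θ, ‖bch (fun x => (h x : ℂ)) χ‖ ^ 2 *
        ‖(θ : ℂ) * χ (a : ZMod N) - χ (b : ZMod N) * χ (b' : ZMod N)‖ ^ 2 with hT
  have hT0 : 0 ≤ T := by
    rw [hT]
    exact sum_nonneg fun _ _ => sum_nonneg fun _ _ => sum_nonneg fun _ _ => sum_nonneg fun _ _ => by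
      positivity
  set p : ℝ := ((L (2 ^ i)).card : ℝ) with hp
  set q : ℝ := ((block N (2 ^ j)).card : ℝ) * (L (2 ^ (i - j - 1))).card with hq
  set S : ℝ := ε * ∑ x : ZMod N, h x ^ 2 with hS
  have hS0 : 0 ≤ S := mul_nonneg hε (sum_nonneg fun _ _ => sq_nonneg _)
  have hq1 : Y / (8 * l ^ 3) ≤ q := by
    calc Y / (8 * l ^ 3) = (2 : ℝ) ^ j / (4 * l) * ((2 : ℝ) ^ (i - j - 1) / l ^ 2) := by
          rw [← hij2']
          field_simp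
          ring
      _ ≤ q := mul_le_mul hbc hP' (by positivity) (by positivity)
  have hnum := E4_num c3 l Y p q hc3 hl1 hl2 hY0.le hP hq1
  have hlz0 : 0 < Real.log z := by
    refine Real.log_pos ?_
    have h1 : (2 : ℝ) ^ 1 ≤ (2 : ℝ) ^ j := by
      refine pow_le_pow_right₀ (by norm_num) ?_
      by_contra hj
      have hj0 : j = 0 := by omega
      rw [hj0, pow_zero] at hj1
      have hl3 : (1 : ℝ) < l := by
        have h3 : Real.exp 1 < N := by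
          have h4 : (3 : ℝ) ≤ N := by exact_mod_cast hN3
          have := Real.exp_one_lt_d9
          linarith
        rw [hl]
        rw [Real.lt_log_iff_exp_lt hx0]
        exact h3
      have h5 : (1 : ℝ) < l ^ A := one_lt_pow₀ hl3 (by omega)
      linarith
    linarith
  have hD : c3 * ((N : ℝ) / (4 * Y * l)) ≤ c3 * (y / Real.log z) := by
    refine mul_le_mul_of_nonneg_left ?_ hc3.le
    calc (N : ℝ) / (4 * Y * l) = (N : ℝ) / (4 * Y) / l := by rw [div_div]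
      _ ≤ y / l := div_le_div_of_nonneg_right hyN hl0.le
      _ ≤ y / Real.log z := div_le_div_of_nonneg_left (Nat.cast_nonneg _) hlz0 hlz
  have hNT : (N : ℝ) * T ≤ 4 * Y * l / c3 * ((2 * q * (4 * l ^ 2 + 2) + 2 * p * (8 * l ^ 3 + 2)) * S) := by
    have h1 := (mul_le_mul_of_nonneg_right hD hT0).trans key
    have h2 : (N : ℝ) * T = 4 * Y * l / c3 * (c3 * ((N : ℝ) / (4 * Y * l)) * T) := by
      field_simp
    rw [h2]
    exact mul_le_mul_of_nonneg_left h1 (by positivity)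
  have hφ : (N.totient : ℝ) ≤ N := by exact_mod_cast Nat.totient_le N
  calc (N.totient : ℝ) * T ≤ N * T := mul_le_mul_of_nonneg_right hφ hT0
    _ ≤ 4 * Y * l / c3 * ((2 * q * (4 * l ^ 2 + 2) + 2 * p * (8 * l ^ 3 + 2)) * S) := hNT
    _ = 4 * Y * l / c3 * (2 * q * (4 * l ^ 2 + 2) + 2 * p * (8 * l ^ 3 + 2)) * S := by ring
    _ ≤ l ^ 12 * (p * q) * S := mul_le_mul_of_nonneg_right hnum hS0
    _ = _ := by ring

end Pool.Agent.Lib.RG
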