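import Pool.Agent.Lib.MP_7b7e48_nt.RG.E4

/-!
# Module E5: the spectral lemma

PROOF. `E i := (φ(N) |L_Y|⁻¹ ∑_{l ∈ L_Y} ∑_{XX} |b χ|² |χ l - θ|²)^(1/2)`, `Y = 2^i`. For `Y ≤ 2M²` every `l ∈ L_Y` is in `PZ N M` and
`chMulSq` and `inv` give `E i ≤ (ε S)^(1/2)`; the same for the average over `block N M`. For `Y > 2M²`:
`θ χ l - 1 = (θ χ l - χ l1 χ l2) + (χ l1 - θ) χ l2 + θ (χ l2 - θ)` and Minkowski (`L²` norm on
`L_Y × P1 × L_{Y/2M} × XX`): `E i ≤ (K^12 ε S)^(1/2) + (ε S)^(1/2) + E (i - j - 1)`, so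
`E i ≤ (1 + 2 i) K^6 (ε S)^(1/2)` by strong induction on `i` and `i ≤ 2 log N`; the square is `≤ K^15 ε S`.
(Elementary form of Minkowski: `(a + b + c)² ≤ (1 + 1/t)(a + b)² + (1 + t) c²` is not needed: use norms of functions on a
finite product, e.g. `EuclideanSpace` / `Real.sqrt` of sums of squares, `Real.Lp_add_le` with `p = 2`.)
-/

open Finset

namespace Pool.Agent.Lib.RG

/-- pointwise inequality -/
theorem usl_pt (K : ℝ) (hK : 0 < K) (θ : ℝ) (hθ : θ ^ 2 = 1) (u v w : ℂ) (hw : ‖w‖ ≤ 1) :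
    ‖u - (θ : ℂ)‖ ^ 2 ≤ (1 + 1 / K) * ‖w - (θ : ℂ)‖ ^ 2 +
      (1 + K) * (2 * ‖(θ : ℂ) * u - v * w‖ ^ 2 + 2 * ‖v - (θ : ℂ)‖ ^ 2) := by
  have hθn : ‖(θ : ℂ)‖ = 1 := by
    rw [Complex.norm_real, Real.norm_eq_abs]
    have : |θ| ^ 2 = 1 := by rw [sq_abs]; exact hθ
    exact (pow_eq_one_iff_of_nonneg (abs_nonneg θ) two_ne_zero).1 this
  have h1 : ‖u - (θ : ℂ)‖ ≤ ‖(θ : ℂ) * u - v * w‖ + ‖v - (θ : ℂ)‖ + ‖w - (θ : ℂ)‖ := by
    have h2 : (θ : ℂ) * (u - θ) = ((θ : ℂ) * u - v * w) + (v - θ) * w + (θ : ℂ) * (w - θ) := by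
      ring
    have h3 : ‖u - (θ : ℂ)‖ = ‖(θ : ℂ) * (u - θ)‖ := by rw [norm_mul, hθn, one_mul]
    rw [h3, h2]
    refine (norm_add₃_le).trans ?_
    rw [norm_mul (v - (θ : ℂ)) w, norm_mul (θ : ℂ) (w - θ), hθn, one_mul]
    have h4 : ‖v - (θ : ℂ)‖ * ‖w‖ ≤ ‖v - (θ : ℂ)‖ * 1 :=
      mul_le_mul_of_nonneg_left hw (norm_nonneg _)
    linarith
  set a := ‖(θ : ℂ) * u - v * w‖
  set c := ‖v - (θ : ℂ)‖
  set d := ‖w - (θ : ℂ)‖
  have ha : 0 ≤ a := norm_nonneg _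
  have hc : 0 ≤ c := norm_nonneg _
  have hd : 0 ≤ d := norm_nonneg _
  have h5 : ‖u - (θ : ℂ)‖ ^ 2 ≤ (a + c + d) ^ 2 := pow_le_pow_left₀ (norm_nonneg _) h1 2
  refine h5.trans ?_
  -- `2 (a+c) d ≤ K (a+c)² + d²/K`, `(a+c)² ≤ 2a² + 2c²`
  have h6 : 2 * (a + c) * d ≤ K * (a + c) ^ 2 + (1 / K) * d ^ 2 := by
    have h7 : 0 ≤ (K * (a + c) - d) ^ 2 / K := by positivity
    have h8 : (K * (a + c) - d) ^ 2 / K = K * (a + c) ^ 2 - 2 * (a + c) * d + (1 / K) * d ^ 2 := by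
      field_simp
      ring
    linarith
  have h9 : (a + c) ^ 2 ≤ 2 * a ^ 2 + 2 * c ^ 2 := by nlinarith [sq_nonneg (a - c)]
  have h10 : (1 + K) * (a + c) ^ 2 ≤ (1 + K) * (2 * a ^ 2 + 2 * c ^ 2) :=
    mul_le_mul_of_nonneg_left h9 (by linarith)
  nlinarith

/-- abstract step: division by the cardinalities -/
theorem usl_div {K εS ai ai' T PC c12 ci' l p l' : ℝ} (hK : 0 < K) (hl : 0 ≤ l) (hp : 0 < p)
    (hl' : 0 < l') (hmain : p * l' * ai ≤ (1 + 1 / K) * (l * p * ai') +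
      (1 + K) * (2 * T + 2 * (l * l' * PC))) (hai' : ai' ≤ ci' * εS * l') (hT : T ≤ c12 * εS * (l * p * l'))
    (hPC : PC ≤ εS * p) :
    ai ≤ ((1 + 1 / K) * ci' + (1 + K) * (2 * c12 + 2)) * εS * l := by
  have h1 : (1 + 1 / K) * (l * p * ai') ≤ (1 + 1 / K) * (l * p * (ci' * εS * l')) := by
    have : 0 ≤ 1 + 1 / K := by positivity
    gcongr
  have h2 : (1 + K) * (2 * T + 2 * (l * l' * PC)) ≤
      (1 + K) * (2 * (c12 * εS * (l * p * l')) + 2 * (l * l' * (εS * p))) := by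
    gcongr
  have h3 : p * l' * ai ≤ p * l' * (((1 + 1 / K) * ci' + (1 + K) * (2 * c12 + 2)) * εS * l) := by
    refine hmain.trans ((add_le_add h1 h2).trans (le_of_eq ?_))
    ring
  exact le_of_mul_le_mul_left h3 (by positivity)

/-- final numerics -/
theorem usl_num {K : ℝ} (hK : 100 ≤ K) (i : ℕ) (hi : (i : ℝ) ≤ K) :
    (1 + 1 / K) ^ i * (1 + i * ((1 + K) * (2 * K ^ 12 + 2))) ≤ K ^ 15 := by
  have hK0 : 0 < K := by linarith
  have h1 : (1 + 1 / K) ^ i ≤ 3 := by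
    have h2 : (1 + 1 / K) ^ i ≤ Real.exp (1 / K) ^ i :=
      pow_le_pow_left₀ (by positivity) (by linarith [Real.add_one_le_exp (1 / K)]) i
    rw [← Real.exp_nat_mul] at h2
    have h3 : (i : ℝ) * (1 / K) ≤ 1 := by
      rw [mul_one_div, div_le_one hK0]; exact hi
    have h4 := Real.exp_le_exp.mpr h3
    have h5 := Real.exp_one_lt_d9
    linarith
  have h6 : 1 + i * ((1 + K) * (2 * K ^ 12 + 2)) ≤ 9 * K ^ 14 := by
    have h7 : (i : ℝ) * ((1 + K) * (2 * K ^ 12 + 2)) ≤ K * ((2 * K) * (4 * K ^ 12)) := by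
      have h8 : (1 : ℝ) ≤ K ^ 12 := one_le_pow₀ (by linarith)
      gcongr
      · linarith
      · linarith
    have h9 : K * ((2 * K) * (4 * K ^ 12)) = 8 * K ^ 14 := by ring
    have h10 : (1 : ℝ) ≤ K ^ 14 := one_le_pow₀ (by linarith)
    linarith
  calc (1 + 1 / K) ^ i * (1 + i * ((1 + K) * (2 * K ^ 12 + 2))) ≤ 3 * (9 * K ^ 14) := by
        have h11 : (0 : ℝ) ≤ 1 + i * ((1 + K) * (2 * K ^ 12 + 2)) := by positivity
        exact mul_le_mul h1 h6 h11 (by norm_num)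
    _ ≤ K * K ^ 14 := by nlinarith [show (0 : ℝ) ≤ K ^ 14 by positivity]
    _ = K ^ 15 := by ring

theorem usl (κ : ℝ) (hκ : 0 < κ) (hκ1 : κ ≤ 1 / 20) : ∃ c0 : ℝ, 0 < c0 ∧ ∃ A : ℕ, 3 ≤ A ∧ ∃ N0 : ℕ,
    ∀ (N : ℕ) [NeZero N], N0 ≤ N → ∀ j z : ℕ, (Real.log N) ^ A ≤ (2 : ℝ) ^ j →
    (2 : ℝ) ^ j ≤ (N : ℝ) ^ (κ / 20) → 2 ^ j ≤ z → (z : ℝ) ≤ (N : ℝ) ^ c0 →
    ∀ (θ ε : ℝ) (h : ZMod N → ℝ) (ρ : ℕ → ℝ) (L : ℕ → Finset ℕ), θ ^ 2 = 1 → 0 ≤ ε →
    USLH N (2 ^ j) z κ ε θ h ρ L →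
    ∀ i : ℕ, j ≤ i → (2 : ℝ) ^ i ≤ HH N κ →
    (N.totient : ℝ) * ∑ l ∈ L (2 ^ i), ∑ χ ∈ XX N (2 ^ j) θ, ‖bch (fun x => (h x : ℂ)) χ‖ ^ 2 *
        ‖χ (l : ZMod N) - (θ : ℂ)‖ ^ 2 ≤
      (Real.log N) ^ 15 * (ε * ∑ x : ZMod N, h x ^ 2) * (L (2 ^ i)).card := by
  classical
  obtain ⟨c0, hc0, A, hA, N0, hstep⟩ := usl_step κ hκ hκ1
  have hlog : Filter.Tendsto (fun N : ℕ => Real.log N) Filter.atTop Filter.atTop :=
    Real.tendsto_log_atTop.comp tendsto_natCast_atTop_atTop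
  obtain ⟨N1, hN1⟩ := Filter.eventually_atTop.mp (hlog.eventually (Filter.eventually_ge_atTop 100))
  refine ⟨c0, hc0, A, hA, max N0 (max N1 3), ?_⟩
  intro N _ hN j z hj1 hj2 hjz hz θ ε h ρ L hθ hε hU
  have hN0' : N0 ≤ N := (le_max_left _ _).trans hN
  have hNN1 : N1 ≤ N := (le_max_left _ _).trans ((le_max_right _ _).trans hN)
  have hN3 : 3 ≤ N := (le_max_right _ _).trans ((le_max_right _ _).trans hN)
  set K : ℝ := Real.log N with hKdef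
  have hK : 100 ≤ K := hN1 N hNN1
  have hK0 : 0 < K := by linarith
  have hNr : (1 : ℝ) ≤ N := by exact_mod_cast (by omega : 1 ≤ N)
  set S : ℝ := ∑ x : ZMod N, h x ^ 2 with hS
  have hS0 : 0 ≤ S := sum_nonneg fun _ _ => sq_nonneg _
  set b : DirichletCharacter ℂ N → ℝ := fun χ => ‖bch (fun x => (h x : ℂ)) χ‖ ^ 2 with hb
  have hb0 : ∀ χ, 0 ≤ b χ := fun χ => by rw [hb]; positivity
  set X := XX N (2 ^ j) θ with hX
  have hφ : (0 : ℝ) < N.totient := phi_pos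
  -- one prime of `PZ`
  have hone : ∀ l ∈ PZ N (2 ^ j), (N.totient : ℝ) * ∑ χ ∈ X, b χ * ‖χ (l : ZMod N) - (θ : ℂ)‖ ^ 2 ≤
      ε * S := by
    intro l hl
    have h1 := hU.inv l hl
    rw [← mulSq_real h hU.zero θ (l : ZMod N)] at h1
    refine le_trans ?_ h1
    refine mul_le_mul_of_nonneg_left ?_ hφ.le
    exact sum_le_sum_of_subset_of_nonneg (subset_univ _) fun χ _ _ => by positivity
  have hM1 : 1 ≤ 2 ^ j := Nat.one_le_two_pow
  have hLsub := hU.sub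
  -- the claim
  have claim : ∀ i : ℕ, j ≤ i → (2 : ℝ) ^ i ≤ HH N κ →
      (N.totient : ℝ) * ∑ l ∈ L (2 ^ i), ∑ χ ∈ X, b χ * ‖χ (l : ZMod N) - (θ : ℂ)‖ ^ 2 ≤
      ((1 + 1 / K) ^ i * (1 + i * ((1 + K) * (2 * K ^ 12 + 2)))) * (ε * S) * (L (2 ^ i)).card := by
    intro i
    induction i using Nat.strong_induction_on with
    | _ i ih =>
    intro hji hi
    by_cases hcase : 2 * (2 ^ j) ^ 2 < 2 ^ i
    · -- step
      have h2j : 2 * j + 1 < i := by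
        have h1 : (2 : ℕ) ^ (2 * j + 1) < 2 ^ i := by
          calc (2 : ℕ) ^ (2 * j + 1) = 2 * (2 ^ j) ^ 2 := by rw [pow_succ, pow_mul', mul_comm]
            _ < _ := hcase
        exact (Nat.pow_lt_pow_iff_right (by norm_num)).mp h1
      set i' := i - j - 1 with hi'
      have hii : i' + (j + 1) = i := by omega
      have hdiv : 2 ^ i / (2 * 2 ^ j) = 2 ^ i' := by
        rw [← hii, ← pow_succ', pow_add, Nat.mul_div_cancel _ (by positivity)]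
      have hji' : j ≤ i' := by omega
      have hi'2 : (2 : ℝ) ^ i' ≤ HH N κ :=
        (pow_le_pow_right₀ (by norm_num) (by omega : i' ≤ i)).trans hi
      have hih := ih i' (by omega) hji' hi'2
      have hst := hstep N hN0' j z hj1 hj2 hjz hz θ ε h ρ L hθ hε hU i hcase hi
      rw [hdiv] at hst
      rw [← hKdef] at hst
      -- cardinalities
      have hl' : (0 : ℝ) < ((L (2 ^ i')).card : ℝ) := by
        have h1 := hU.big i' (Nat.pow_le_pow_right (by norm_num) hji') hi'2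
        have h2 : (0 : ℝ) < (2 : ℝ) ^ i' / (Real.log N) ^ 2 := by rw [← hKdef]; positivity
        exact lt_of_lt_of_le h2 h1
      have hp : (0 : ℝ) < ((block N (2 ^ j)).card : ℝ) := by
        have h1 := hU.big j (le_refl _) ((pow_le_pow_right₀ (by norm_num) hji).trans hi)
        have h2 : (0 : ℝ) < (2 : ℝ) ^ j / (Real.log N) ^ 2 := by rw [← hKdef]; positivity
        have h3 : ((L (2 ^ j)).card : ℝ) ≤ ((block N (2 ^ j)).card : ℝ) := by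
          exact_mod_cast card_le_card (hLsub _)
        linarith
      have hPC : (N.totient : ℝ) * ∑ l1 ∈ block N (2 ^ j), ∑ χ ∈ X, b χ * ‖χ (l1 : ZMod N) - (θ : ℂ)‖ ^ 2 ≤
          (ε * S) * (block N (2 ^ j)).card := by
        rw [mul_sum]
        refine (sum_le_sum fun l hl => hone l (block_sub_PZ hM1 hl)).trans (le_of_eq ?_)
        rw [sum_const, nsmul_eq_mul]
        ring
      have hmain : ((block N (2 ^ j)).card : ℝ) * ((L (2 ^ i')).card : ℝ) *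
          ((N.totient : ℝ) * ∑ l ∈ L (2 ^ i), ∑ χ ∈ X, b χ * ‖χ (l : ZMod N) - (θ : ℂ)‖ ^ 2) ≤
          (1 + 1 / K) * (((L (2 ^ i)).card : ℝ) * ((block N (2 ^ j)).card : ℝ) *
            ((N.totient : ℝ) * ∑ l ∈ L (2 ^ i'), ∑ χ ∈ X, b χ * ‖χ (l : ZMod N) - (θ : ℂ)‖ ^ 2)) +
          (1 + K) * (2 * ((N.totient : ℝ) * ∑ l ∈ L (2 ^ i), ∑ l1 ∈ block N (2 ^ j), ∑ l2 ∈ L (2 ^ i'),
            ∑ χ ∈ X, b χ * ‖(θ : ℂ) * χ (l : ZMod N) - χ (l1 : ZMod N) * χ (l2 : ZMod N)‖ ^ 2) +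
            2 * (((L (2 ^ i)).card : ℝ) * ((L (2 ^ i')).card : ℝ) *
            ((N.totient : ℝ) * ∑ l1 ∈ block N (2 ^ j), ∑ χ ∈ X, b χ * ‖χ (l1 : ZMod N) - (θ : ℂ)‖ ^ 2))) := by
        have e1 : ((block N (2 ^ j)).card : ℝ) * ((L (2 ^ i')).card : ℝ) *
            ((N.totient : ℝ) * ∑ l ∈ L (2 ^ i), ∑ χ ∈ X, b χ * ‖χ (l : ZMod N) - (θ : ℂ)‖ ^ 2) =
            ∑ l ∈ L (2 ^ i), ∑ l1 ∈ block N (2 ^ j), ∑ l2 ∈ L (2 ^ i'), ∑ χ ∈ X,
              (N.totient : ℝ) * (b χ * ‖χ (l : ZMod N) - (θ : ℂ)‖ ^ 2) := by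
          simp only [sum_const, nsmul_eq_mul, mul_sum]
          refine sum_congr rfl fun l _ => sum_congr rfl fun χ _ => ?_
          ring
        have e2 : ((L (2 ^ i)).card : ℝ) * ((block N (2 ^ j)).card : ℝ) *
            ((N.totient : ℝ) * ∑ l ∈ L (2 ^ i'), ∑ χ ∈ X, b χ * ‖χ (l : ZMod N) - (θ : ℂ)‖ ^ 2) =
            ∑ l ∈ L (2 ^ i), ∑ l1 ∈ block N (2 ^ j), ∑ l2 ∈ L (2 ^ i'), ∑ χ ∈ X,
              (N.totient : ℝ) * (b χ * ‖χ (l2 : ZMod N) - (θ : ℂ)‖ ^ 2) := by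
          simp only [sum_const, nsmul_eq_mul, mul_sum]
          refine sum_congr rfl fun l _ => sum_congr rfl fun χ _ => ?_
          ring
        have e3 : ((L (2 ^ i)).card : ℝ) * ((L (2 ^ i')).card : ℝ) *
            ((N.totient : ℝ) * ∑ l1 ∈ block N (2 ^ j), ∑ χ ∈ X, b χ * ‖χ (l1 : ZMod N) - (θ : ℂ)‖ ^ 2) =
            ∑ l ∈ L (2 ^ i), ∑ l1 ∈ block N (2 ^ j), ∑ l2 ∈ L (2 ^ i'), ∑ χ ∈ X,
              (N.totient : ℝ) * (b χ * ‖χ (l1 : ZMod N) - (θ : ℂ)‖ ^ 2) := by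
          simp only [sum_const, nsmul_eq_mul, mul_sum]
          refine sum_congr rfl fun l _ => sum_congr rfl fun χ _ => ?_
          ring
        have e4 : (N.totient : ℝ) * ∑ l ∈ L (2 ^ i), ∑ l1 ∈ block N (2 ^ j), ∑ l2 ∈ L (2 ^ i'),
            ∑ χ ∈ X, b χ * ‖(θ : ℂ) * χ (l : ZMod N) - χ (l1 : ZMod N) * χ (l2 : ZMod N)‖ ^ 2 =
            ∑ l ∈ L (2 ^ i), ∑ l1 ∈ block N (2 ^ j), ∑ l2 ∈ L (2 ^ i'), ∑ χ ∈ X,
              (N.totient : ℝ) * (b χ * ‖(θ : ℂ) * χ (l : ZMod N) - χ (l1 : ZMod N) * χ (l2 : ZMod N)‖ ^ 2) := by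
          simp only [mul_sum]
        rw [e1, e2, e3, e4]
        simp only [mul_sum, ← sum_add_distrib]
        refine sum_le_sum fun l _ => sum_le_sum fun l1 _ => sum_le_sum fun l2 _ => sum_le_sum fun χ _ => ?_
        have h1 := usl_pt K hK0 θ hθ (χ (l : ZMod N)) (χ (l1 : ZMod N)) (χ (l2 : ZMod N))
          (DirichletCharacter.norm_le_one χ _)
        have h2 := mul_le_mul_of_nonneg_left h1 (mul_nonneg hφ.le (hb0 χ))
        refine le_trans (le_of_eq (by ring)) (h2.trans (le_of_eq (by ring)))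
      have hfin := usl_div (K := K) hK0 (Nat.cast_nonneg _) hp hl' hmain hih (hst.trans (le_of_eq (by ring)))
        hPC (c12 := K ^ 12)
      refine hfin.trans ?_
      have hcard0 : (0 : ℝ) ≤ ((L (2 ^ i)).card : ℝ) := Nat.cast_nonneg _
      refine mul_le_mul_of_nonneg_right ?_ hcard0
      refine mul_le_mul_of_nonneg_right ?_ (by positivity)
      -- numerical recursion
      set q : ℝ := 1 + 1 / K with hq
      have hq1 : 1 ≤ q := by rw [hq]; have : 0 < 1 / K := by positivity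
                             linarith
      set c : ℝ := (1 + K) * (2 * K ^ 12 + 2) with hc
      have hc00 : 0 ≤ c := by positivity
      have hi'i : (i' : ℝ) + 1 ≤ i := by exact_mod_cast (by omega : i' + 1 ≤ i)
      have h1 : q * q ^ i' ≤ q ^ i := by
        rw [← pow_succ']
        exact pow_le_pow_right₀ hq1 (by omega)
      have h2 : 1 ≤ q ^ i := one_le_pow₀ hq1
      calc q * (q ^ i' * (1 + i' * c)) + c = (q * q ^ i') * (1 + i' * c) + c * 1 := by ring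
        _ ≤ q ^ i * (1 + i' * c) + c * q ^ i := by gcongr
        _ = q ^ i * (1 + (i' + 1) * c) := by ring
        _ ≤ q ^ i * (1 + i * c) := by gcongr
    · -- base
      have h1 : ∀ l ∈ L (2 ^ i), l ∈ PZ N (2 ^ j) := by
        intro l hl
        have h2 := mem_block.mp (hLsub _ hl)
        rw [mem_PZ]
        have h3 : 2 ^ j ≤ 2 ^ i := Nat.pow_le_pow_right (by norm_num) hji
        refine ⟨by omega, by omega, h2.2.2⟩
      have h2 : (N.totient : ℝ) * ∑ l ∈ L (2 ^ i), ∑ χ ∈ X, b χ * ‖χ (l : ZMod N) - (θ : ℂ)‖ ^ 2 ≤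
          1 * (ε * S) * (L (2 ^ i)).card := by
        rw [mul_sum]
        refine (sum_le_sum fun l hl => hone l (h1 l hl)).trans (le_of_eq ?_)
        rw [sum_const, nsmul_eq_mul]
        ring
      refine h2.trans ?_
      have h3 : (1 : ℝ) ≤ (1 + 1 / K) ^ i * (1 + i * ((1 + K) * (2 * K ^ 12 + 2))) := by
        have h4 : (1 : ℝ) ≤ (1 + 1 / K) ^ i := one_le_pow₀ (by
          have : 0 < 1 / K := by positivity
          linarith)
        have h5 : (1 : ℝ) ≤ 1 + i * ((1 + K) * (2 * K ^ 12 + 2)) := by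
          have : (0 : ℝ) ≤ i * ((1 + K) * (2 * K ^ 12 + 2)) := by positivity
          linarith
        nlinarith
      gcongr
  intro i hji hi
  refine (claim i hji hi).trans ?_
  have hiK : (i : ℝ) ≤ K := by
    have h1 : (2 : ℝ) ^ i ≤ (N : ℝ) ^ (1 / 2 : ℝ) := by
      refine hi.trans ?_
      unfold HH
      exact Real.rpow_le_rpow_of_exponent_le hNr (by linarith)
    have h2 := Real.log_le_log (by positivity) h1
    rw [Real.log_pow, Real.log_rpow (by linarith), ← hKdef] at h2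
    have h3 := Real.log_two_gt_d9
    have h4 : (0 : ℝ) ≤ (i : ℝ) := Nat.cast_nonneg _
    nlinarith
  have h5 := usl_num hK i hiK
  gcongr

end Pool.Agent.Lib.RG
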