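import Pool.Agent.Lib.MP_7b7e48_nt.RG.E2
import Pool.Agent.Lib.MP_7b7e48_nt.RG.B4

/-!
# Module E6: uniqueness

PROOF. Suppose `χ1 ≠ χ2`, `y = ⌈N^(1/2+κ)⌉`, `W = ⌊N^(1/2-3κ)⌋`. `no3` with `X = {χ1, χ2}`, coefficients `1, -1`:
`2 c₃ y / log z ≤ ∑_{n ∈ RN N z y} ‖χ1 n - χ2 n‖²`. The `n ∈ BW z y W` contribute at most `4 |BW|`,
`|BW| ≤ C (y / log W)(1 + (log y - log W)/log z) ≤ 4 C (y / log z) (log z / log N + 5 κ)` (`BW_card`; `log W ≥ (log N)/3`), which is
`≤ c₃ y / (4 log z)` if `κ ≤ κ₀` and `c₀ ≤ κ` (this fixes `κ₀` in terms of `C, c₃`). The other `n` have all prime factors in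
`(z, W]`; with multiplicity at most `log N / log z ≤ log N` of them, so
`‖χ1 n - χ2 n‖² ≤ (log N) ∑_{l^k | n} ‖χ1 l - χ2 l‖²` (telescoping, Cauchy; sum over prime powers `l^k ∣ n`, `k ≥ 1`), and
`∑_n ≤ (log N) ∑_{z < l ≤ W} ‖χ1 l - χ2 l‖² ∑_k y/l^k ≤ 2 y (log N) ∑_l ‖χ1 l - χ2 l‖² / l`, and over a block `(2^i, 2^(i+1)]` the
last sum is `≤ 2^(-i) (2 + 2) 2^i / (log N)^9`; `≤ 2 log N` blocks (all with `i ≥ j` as `l > z ≥ 2^j`). Total `≤ y / (log N)^6`.
-/

open Finset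

namespace Pool.Agent.Lib.RG

/-- telescoping for products over lists -/
private theorem list_tele_E6 (a b : ℕ → ℂ) (ha : ∀ n, ‖a n‖ ≤ 1) (hb : ∀ n, ‖b n‖ ≤ 1) (l : List ℕ) :
    ‖(l.map a).prod‖ ≤ 1 ∧ ‖(l.map b).prod‖ ≤ 1 ∧
      ‖(l.map a).prod - (l.map b).prod‖ ≤ (l.map (fun n => ‖a n - b n‖)).sum := by
  induction l with
  | nil => simp
  | cons x t ih =>
    obtain ⟨h1, h2, h3⟩ := ih
    simp only [List.map_cons, List.prod_cons, List.sum_cons]
    refine ⟨?_, ?_, ?_⟩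
    · rw [norm_mul]
      exact mul_le_one₀ (ha x) (norm_nonneg _) h1
    · rw [norm_mul]
      exact mul_le_one₀ (hb x) (norm_nonneg _) h2
    · have h4 : a x * (t.map a).prod - b x * (t.map b).prod =
          (a x - b x) * (t.map a).prod + b x * ((t.map a).prod - (t.map b).prod) := by ring
      rw [h4]
      refine (norm_add_le _ _).trans ?_
      rw [norm_mul, norm_mul]
      have h5 : ‖a x - b x‖ * ‖(t.map a).prod‖ ≤ ‖a x - b x‖ * 1 := mul_le_mul_of_nonneg_left h1 (norm_nonneg _)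
      have h6 : ‖b x‖ * ‖(t.map a).prod - (t.map b).prod‖ ≤ 1 * ‖(t.map a).prod - (t.map b).prod‖ :=
        mul_le_mul_of_nonneg_right (hb x) (norm_nonneg _)
      linarith

private theorem len_E6 (n : ℕ) (hn : 1 ≤ n) : (n.primeFactorsList.length : ℝ) ≤ 2 * Real.log n := by
  have h1 : 2 ^ n.primeFactorsList.length ≤ n.primeFactorsList.prod :=
    List.pow_card_le_prod _ _ (fun x hx => (Nat.prime_of_mem_primeFactorsList hx).two_le)
  rw [Nat.prod_primeFactorsList (by omega)] at h1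
  have h2 : ((2 : ℝ)) ^ n.primeFactorsList.length ≤ n := by exact_mod_cast h1
  have h3 := Real.log_le_log (by positivity) h2
  rw [Real.log_pow] at h3
  have h4 := Real.log_two_gt_d9
  have h5 : (0 : ℝ) ≤ (n.primeFactorsList.length : ℝ) := Nat.cast_nonneg _
  nlinarith

private theorem chi_list_E6 {N : ℕ} (χ : DirichletCharacter ℂ N) (l : List ℕ) :
    χ ((l.prod : ℕ) : ZMod N) = (l.map (fun n : ℕ => χ ((n : ℕ) : ZMod N))).prod := by
  induction l with
  | nil => simp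
  | cons x t ih => simp only [List.prod_cons, List.map_cons, Nat.cast_mul, map_mul, ih]

private theorem inner_sq_E6 (s : Finset ℕ) (f : ℕ → ℝ) :
    (∑ l ∈ s, f l) ^ 2 ≤ (s.card : ℝ) * ∑ l ∈ s, f l ^ 2 := by
  have h := Finset.sum_mul_sq_le_sq_mul_sq s (fun _ => (1 : ℝ)) f
  simpa using h

/-- the difference at `n` in terms of the differences at the primes -/
private theorem diff_E6 {N : ℕ} (χ1 χ2 : DirichletCharacter ℂ N) (n : ℕ) (hn : 1 ≤ n) (K : ℝ) (hK : Real.log n ≤ K) :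
    ‖χ1 (n : ZMod N) - χ2 (n : ZMod N)‖ ^ 2 ≤
      (2 * K) ^ 3 * ∑ l ∈ n.primeFactors, ‖χ1 (l : ZMod N) - χ2 (l : ZMod N)‖ ^ 2 := by
  classical
  obtain ⟨f, hf⟩ : ∃ f : ℕ → ℝ, f = fun l : ℕ => ‖χ1 (l : ZMod N) - χ2 (l : ZMod N)‖ := ⟨_, rfl⟩
  have hf0 : ∀ l, 0 ≤ f l := by
    intro l
    rw [hf]
    exact norm_nonneg _
  obtain ⟨L, hL⟩ : ∃ L : ℝ, L = (n.primeFactorsList.length : ℝ) := ⟨_, rfl⟩
  have hL0 : 0 ≤ L := by rw [hL]; positivity
  have hLK : L ≤ 2 * K := by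
    rw [hL]
    exact (len_E6 n hn).trans (by linarith)
  have h1 := (list_tele_E6 (fun m : ℕ => χ1 ((m : ℕ) : ZMod N)) (fun m : ℕ => χ2 ((m : ℕ) : ZMod N))
    (fun m => DirichletCharacter.norm_le_one χ1 _) (fun m => DirichletCharacter.norm_le_one χ2 _)
    n.primeFactorsList).2.2
  rw [← chi_list_E6, ← chi_list_E6, Nat.prod_primeFactorsList (by omega)] at h1
  have h2 : (n.primeFactorsList.map f).sum ≤ L * ∑ l ∈ n.primeFactors, f l := by
    rw [Finset.sum_list_map_count, Finset.mul_sum]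
    have h3 : n.primeFactorsList.toFinset = n.primeFactors := rfl
    rw [h3]
    refine Finset.sum_le_sum ?_
    intro l _
    rw [nsmul_eq_mul]
    refine mul_le_mul_of_nonneg_right ?_ (hf0 l)
    rw [hL]
    exact_mod_cast List.count_le_length
  have h3 : ‖χ1 (n : ZMod N) - χ2 (n : ZMod N)‖ ≤ L * ∑ l ∈ n.primeFactors, f l := by
    refine h1.trans (le_trans (le_of_eq ?_) h2)
    rw [hf]
  have h4 : (∑ l ∈ n.primeFactors, f l) ^ 2 ≤ L * ∑ l ∈ n.primeFactors, f l ^ 2 := by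
    have h5 := inner_sq_E6 n.primeFactors f
    have h6 : ((n.primeFactors.card : ℕ) : ℝ) ≤ L := by
      rw [hL]
      have : n.primeFactors.card ≤ n.primeFactorsList.length := List.toFinset_card_le _
      exact_mod_cast this
    have h7 : 0 ≤ ∑ l ∈ n.primeFactors, f l ^ 2 := Finset.sum_nonneg (fun l _ => sq_nonneg _)
    exact h5.trans (mul_le_mul_of_nonneg_right h6 h7)
  have h5 : ‖χ1 (n : ZMod N) - χ2 (n : ZMod N)‖ ^ 2 ≤ (L * ∑ l ∈ n.primeFactors, f l) ^ 2 :=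
    pow_le_pow_left₀ (norm_nonneg _) h3 2
  refine h5.trans ?_
  have h7 : 0 ≤ ∑ l ∈ n.primeFactors, f l ^ 2 := Finset.sum_nonneg (fun l _ => sq_nonneg _)
  calc (L * ∑ l ∈ n.primeFactors, f l) ^ 2 = L ^ 2 * (∑ l ∈ n.primeFactors, f l) ^ 2 := by ring
    _ ≤ L ^ 2 * (L * ∑ l ∈ n.primeFactors, f l ^ 2) := mul_le_mul_of_nonneg_left h4 (by positivity)
    _ = L ^ 3 * ∑ l ∈ n.primeFactors, f l ^ 2 := by ring
    _ ≤ (2 * K) ^ 3 * ∑ l ∈ n.primeFactors, f l ^ 2 :=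
        mul_le_mul_of_nonneg_right (pow_le_pow_left₀ hL0 hLK 3) h7
    _ = _ := by rw [hf]

open Classical in
/-- the primes in `(z, W]` which do not divide `N` -/
private noncomputable def PR (N z W : ℕ) : Finset ℕ :=
  (Finset.Ioc z W).filter fun l => l.Prime ∧ ¬ l ∣ N

open Classical in
private theorem blocks_E6 {N : ℕ} (j z W : ℕ) (K H : ℝ) (hN : 1 ≤ N) (hK : 2 ≤ K) (hKN : K = Real.log N) (hjz : 2 ^ j ≤ z)
    (hWN : W ≤ N) (hWH : (W : ℝ) ≤ H) (g : ℕ → ℝ) (hg : ∀ l, 0 ≤ g l) (B : ℝ) (hB : 0 ≤ B)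
    (hb : ∀ i : ℕ, j ≤ i → (2 : ℝ) ^ i ≤ H → ∑ l ∈ block N (2 ^ i), g l ≤ (2 : ℝ) ^ i * B) :
    ∑ l ∈ PR N z W, g l / l ≤ 2 * K * B := by
  obtain ⟨I, hI⟩ : ∃ I : Finset ℕ, I = (range (Nat.log 2 N + 1)).filter (fun i => j ≤ i ∧ (2 : ℝ) ^ i ≤ H) := ⟨_, rfl⟩
  have hcardI : ((I.card : ℕ) : ℝ) ≤ 2 * K := by
    have h1 : I.card ≤ Nat.log 2 N + 1 := by
      rw [hI]
      exact (card_filter_le _ _).trans (by rw [card_range])
    have h2 : 2 ^ Nat.log 2 N ≤ N := Nat.pow_log_le_self 2 (by omega)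
    have h3 : ((2 : ℝ)) ^ Nat.log 2 N ≤ N := by exact_mod_cast h2
    have h4 := Real.log_le_log (by positivity) h3
    rw [Real.log_pow, ← hKN] at h4
    have h5 := Real.log_two_gt_d9
    have h6 : (0 : ℝ) ≤ (Nat.log 2 N : ℝ) := Nat.cast_nonneg _
    have h7 : ((I.card : ℕ) : ℝ) ≤ (Nat.log 2 N : ℝ) + 1 := by exact_mod_cast h1
    nlinarith
  have h1 : ∀ l ∈ PR N z W, g l / l ≤ ∑ i ∈ I, if l ∈ block N (2 ^ i) then g l / 2 ^ i else 0 := by
    intro l hl
    unfold PR at hl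
    rw [mem_filter, mem_Ioc] at hl
    obtain ⟨⟨hl1, hl2⟩, hl3, hl4⟩ := hl
    have hl2' := hl3.two_le
    obtain ⟨i, hi⟩ : ∃ i, i = Nat.log 2 (l - 1) := ⟨_, rfl⟩
    have hi1 : 2 ^ i ≤ l - 1 := by
      rw [hi]
      exact Nat.pow_log_le_self 2 (by omega)
    have hi2 : l - 1 < 2 ^ (i + 1) := by
      rw [hi]
      exact Nat.lt_pow_succ_log_self (by norm_num) _
    have hi3 : l ≤ 2 * 2 ^ i := by
      rw [pow_succ] at hi2
      omega
    have hmem : l ∈ block N (2 ^ i) := mem_block.mpr ⟨by omega, hi3, hl3, hl4⟩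
    have hji : j ≤ i := by
      have h2 : 2 ^ j < 2 ^ (i + 1) := by
        rw [pow_succ]
        omega
      have h3 := (Nat.pow_lt_pow_iff_right (by norm_num : 1 < 2)).mp h2
      omega
    have hiH : (2 : ℝ) ^ i ≤ H := by
      have h2 : 2 ^ i ≤ W := by omega
      have h3 : ((2 : ℝ)) ^ i ≤ W := by exact_mod_cast h2
      exact h3.trans hWH
    have hiI : i ∈ I := by
      rw [hI, mem_filter, mem_range]
      refine ⟨?_, hji, hiH⟩
      have h2 : i ≤ Nat.log 2 N := by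
        rw [hi]
        exact Nat.log_mono_right (by omega)
      omega
    have h2 : g l / l ≤ g l / 2 ^ i := by
      have h3 : ((2 : ℝ)) ^ i ≤ l := by
        have : 2 ^ i ≤ l := by omega
        exact_mod_cast this
      exact div_le_div_of_nonneg_left (hg l) (by positivity) h3
    refine h2.trans ?_
    have h3 := Finset.single_le_sum (f := fun i => if l ∈ block N (2 ^ i) then g l / 2 ^ i else 0)
      (fun i _ => by
        split_ifs
        · exact div_nonneg (hg l) (by positivity)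
        · exact le_rfl) hiI
    simp only [if_pos hmem] at h3
    exact h3
  refine (sum_le_sum h1).trans ?_
  rw [sum_comm]
  have h2 : ∀ i ∈ I, ∑ l ∈ PR N z W, (if l ∈ block N (2 ^ i) then g l / 2 ^ i else 0) ≤ B := by
    intro i hi
    rw [hI, mem_filter] at hi
    rw [← sum_filter]
    have h3 : ∑ l ∈ (PR N z W).filter (fun l => l ∈ block N (2 ^ i)), g l / 2 ^ i ≤
        ∑ l ∈ block N (2 ^ i), g l / 2 ^ i :=
      sum_le_sum_of_subset_of_nonneg (fun l hl => (mem_filter.mp hl).2)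
        (fun l _ _ => div_nonneg (hg l) (by positivity))
    refine h3.trans ?_
    rw [← sum_div, div_le_iff₀ (by positivity), mul_comm B]
    exact hb i hi.2.1 hi.2.2
  refine (sum_le_sum h2).trans ?_
  rw [sum_const, nsmul_eq_mul]
  exact mul_le_mul_of_nonneg_right hcardI hB

theorem uniq : ∃ κ0 : ℝ, 0 < κ0 ∧ ∀ κ : ℝ, 0 < κ → κ ≤ κ0 → ∃ c0 : ℝ, 0 < c0 ∧ ∃ N0 : ℕ,
    ∀ (N : ℕ) [NeZero N], N0 ≤ N → ∀ j z : ℕ, (Real.log N) ^ 3 ≤ (2 : ℝ) ^ j → 2 ^ j ≤ z →
    (z : ℝ) ≤ (N : ℝ) ^ c0 → ∀ θ : ℝ, ∀ χ1 χ2 : DirichletCharacter ℂ N,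
    (∀ i : ℕ, j ≤ i → (2 : ℝ) ^ i ≤ HH N κ →
      ∑ l ∈ block N (2 ^ i), ‖χ1 (l : ZMod N) - (θ : ℂ)‖ ^ 2 ≤ (2 : ℝ) ^ i / (Real.log N) ^ 9) →
    (∀ i : ℕ, j ≤ i → (2 : ℝ) ^ i ≤ HH N κ →
      ∑ l ∈ block N (2 ^ i), ‖χ2 (l : ZMod N) - (θ : ℂ)‖ ^ 2 ≤ (2 : ℝ) ^ i / (Real.log N) ^ 9) →
    χ1 = χ2 := by
  classical
  obtain ⟨c3, hc3, h3⟩ := no3
  obtain ⟨C, hC, hBW⟩ := BW_card
  refine ⟨min (1 / 60) (c3 / (144 * C)), by positivity, ?_⟩
  intro κ hκ hκ0
  have hκ60 : κ ≤ 1 / 60 := hκ0.trans (min_le_left _ _)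
  have hκC : κ * (144 * C) ≤ c3 := by
    have := hκ0.trans (min_le_right _ _)
    rwa [le_div_iff₀ (by positivity)] at this
  obtain ⟨c0', hc0', N1, hN1⟩ := h3 κ hκ
  refine ⟨min c0' κ, by positivity, ?_⟩
  have hlog : Filter.Tendsto (fun N : ℕ => Real.log N) Filter.atTop Filter.atTop :=
    Real.tendsto_log_atTop.comp tendsto_natCast_atTop_atTop
  obtain ⟨N2, hN2⟩ := Filter.eventually_atTop.mp
    (hlog.eventually (Filter.eventually_ge_atTop (max (20 / κ) (64 / c3))))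
  refine ⟨max (max N1 N2) 1, ?_⟩
  intro N _ hN j z hj hjz hz θ χ1 χ2 h1 h2
  by_contra hne
  have hNN1 : N1 ≤ N := ((le_max_left _ _).trans (le_max_left _ _)).trans hN
  have hNN2 : N2 ≤ N := ((le_max_right _ _).trans (le_max_left _ _)).trans hN
  have hN0 : 1 ≤ N := (le_max_right _ _).trans hN
  have hKm := hN2 N hNN2
  obtain ⟨K, hK⟩ : ∃ K : ℝ, K = Real.log N := ⟨_, rfl⟩
  rw [← hK] at hKm hj h1 h2
  have hK1 : 20 / κ ≤ K := (le_max_left _ _).trans hKm
  have hK2 : 64 / c3 ≤ K := (le_max_right _ _).trans hKm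
  have hκK : 20 ≤ κ * K := by
    rw [div_le_iff₀ hκ] at hK1
    linarith
  have hcK : 64 ≤ c3 * K := by
    rw [div_le_iff₀ hc3] at hK2
    linarith
  have hK1200 : 1200 ≤ K := by nlinarith
  have hK0 : 0 < K := by linarith
  have hNR : (0 : ℝ) < N := by exact_mod_cast hN0
  have hpow : ∀ a : ℝ, (N : ℝ) ^ a = Real.exp (K * a) := by
    intro a
    rw [Real.rpow_def_of_pos hNR, hK]
  have hlog2 : Real.log 2 ≤ 1 := by
    have := Real.log_two_lt_d9
    linarith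
  -- z
  have hzR : (2 : ℝ) ^ j ≤ z := by exact_mod_cast hjz
  have hK3 : K ≤ K ^ 3 := by nlinarith [mul_nonneg hK0.le (show (0 : ℝ) ≤ K ^ 2 - 1 by nlinarith)]
  have hKz : K ≤ z := hK3.trans (hj.trans hzR)
  have hz2 : 2 ≤ z := by
    have : (2 : ℝ) ≤ z := by linarith
    exact_mod_cast this
  have hz0 : (0 : ℝ) < z := by linarith
  have hlz : 0 < Real.log z := Real.log_pos (by linarith)
  have hN1R : (1 : ℝ) ≤ N := by exact_mod_cast hN0
  have hzc : (z : ℝ) ≤ (N : ℝ) ^ c0' :=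
    hz.trans (Real.rpow_le_rpow_of_exponent_le hN1R (min_le_left _ _))
  have hlzK : Real.log z ≤ κ * K := by
    have h4 : (z : ℝ) ≤ (N : ℝ) ^ κ := hz.trans (Real.rpow_le_rpow_of_exponent_le hN1R (min_le_right _ _))
    have h5 := Real.log_le_log hz0 h4
    rw [Real.log_rpow hNR, ← hK] at h5
    exact h5
  have hlzK1 : Real.log z ≤ K := by nlinarith
  -- y and W
  obtain ⟨y, hy⟩ : ∃ y : ℕ, y = ⌈(N : ℝ) ^ (1 / 2 + κ)⌉₊ := ⟨_, rfl⟩
  obtain ⟨W, hW⟩ : ∃ W : ℕ, W = ⌊(N : ℝ) ^ (1 / 2 - 3 * κ)⌋₊ := ⟨_, rfl⟩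
  have hyl : (N : ℝ) ^ (1 / 2 + κ) ≤ y := by
    rw [hy]
    exact Nat.le_ceil _
  have hx1 : 1 ≤ (N : ℝ) ^ (1 / 2 + κ) := Real.one_le_rpow hN1R (by linarith)
  have hyu : (y : ℝ) ≤ 2 * (N : ℝ) ^ (1 / 2 + κ) := by
    have := Nat.ceil_lt_add_one (by positivity : 0 ≤ (N : ℝ) ^ (1 / 2 + κ))
    rw [← hy] at this
    linarith
  have hy0 : (0 : ℝ) < y := by linarith
  have hWu : (W : ℝ) ≤ (N : ℝ) ^ (1 / 2 - 3 * κ) := by
    rw [hW]
    exact Nat.floor_le (by positivity)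
  have hx2 : 2 ≤ (N : ℝ) ^ (1 / 2 - 3 * κ) := by
    rw [hpow]
    have h4 : (1 : ℝ) ≤ K * (1 / 2 - 3 * κ) := by nlinarith
    have h5 := Real.add_one_le_exp (K * (1 / 2 - 3 * κ))
    linarith
  have hWl : (N : ℝ) ^ (1 / 2 - 3 * κ) / 2 ≤ W := by
    have := Nat.lt_floor_add_one ((N : ℝ) ^ (1 / 2 - 3 * κ))
    rw [← hW] at this
    linarith
  have hW0 : (0 : ℝ) < W := by linarith
  have hlogy : Real.log y ≤ 1 + (1 / 2 + κ) * K := by
    have h4 := Real.log_le_log hy0 hyu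
    rw [Real.log_mul (by norm_num) (by positivity), Real.log_rpow hNR, ← hK] at h4
    linarith
  have hlogW : (1 / 2 - 3 * κ) * K - 1 ≤ Real.log W := by
    have h4 := Real.log_le_log (by positivity) hWl
    rw [Real.log_div (by positivity) (by norm_num), Real.log_rpow hNR, ← hK] at h4
    linarith
  have hlogW3 : K / 3 ≤ Real.log W := by nlinarith
  have hWy : W ≤ y := by
    have h4 : (W : ℝ) ≤ y := hWu.trans ((Real.rpow_le_rpow_of_exponent_le hN1R (by linarith)).trans hyl)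
    exact_mod_cast h4
  have hW2 : 2 ≤ W := by
    by_contra h
    have h4 : W ≤ 1 := by omega
    have h5 : (W : ℝ) ≤ 1 := by exact_mod_cast h4
    have h6 := Real.log_nonpos hW0.le h5
    linarith
  have hyN : y ≤ N := by
    have h4 : (y : ℝ) ≤ N := by
      refine hyu.trans ?_
      have h5 : (N : ℝ) = (N : ℝ) ^ (1 / 2 - κ) * (N : ℝ) ^ (1 / 2 + κ) := by
        rw [← Real.rpow_add hNR]
        norm_num
      have h6 : 2 ≤ (N : ℝ) ^ (1 / 2 - κ) := hx2.trans (Real.rpow_le_rpow_of_exponent_le hN1R (by linarith))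
      calc 2 * (N : ℝ) ^ (1 / 2 + κ) ≤ (N : ℝ) ^ (1 / 2 - κ) * (N : ℝ) ^ (1 / 2 + κ) :=
            mul_le_mul_of_nonneg_right h6 (by linarith)
        _ = N := h5.symm
    exact_mod_cast h4
  -- near orthogonality
  have hX := hN1 N hNN1 z (by rw [← hK]; exact hKz) hzc y
    ((Real.rpow_le_rpow_of_exponent_le hN1R (by linarith)).trans hyl) {χ1, χ2} (by
      rw [Finset.card_pair hne, hpow]
      have h4 := Real.add_one_le_exp (K * (κ / 10))
      push_cast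
      linarith) (fun χ => if χ = χ1 then 1 else -1)
  rw [Finset.sum_pair hne] at hX
  have hne' : χ2 ≠ χ1 := fun h => hne h.symm
  have hsq : ‖(if χ1 = χ1 then (1 : ℂ) else -1)‖ ^ 2 + ‖(if χ2 = χ1 then (1 : ℂ) else -1)‖ ^ 2 = 2 := by
    rw [if_pos rfl, if_neg hne', norm_neg, norm_one]
    norm_num
  rw [hsq] at hX
  have hX2 : ∀ n : ℕ, ∑ χ ∈ ({χ1, χ2} : Finset (DirichletCharacter ℂ N)),
      (if χ = χ1 then (1 : ℂ) else -1) * χ (n : ZMod N) = χ1 (n : ZMod N) - χ2 (n : ZMod N) := by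
    intro n
    rw [Finset.sum_pair hne, if_pos rfl, if_neg hne']
    ring
  simp only [hX2] at hX
  -- splitting
  obtain ⟨F, hF⟩ : ∃ F : ℕ → ℝ, F = fun n : ℕ => ‖χ1 (n : ZMod N) - χ2 (n : ZMod N)‖ ^ 2 := ⟨_, rfl⟩
  have hF0 : ∀ n, 0 ≤ F n := by
    intro n
    rw [hF]
    positivity
  have hF4 : ∀ n, F n ≤ 4 := by
    intro n
    rw [hF]
    have h4 : ‖χ1 (n : ZMod N) - χ2 (n : ZMod N)‖ ≤ 2 := by
      refine (norm_sub_le _ _).trans ?_
      have := DirichletCharacter.norm_le_one χ1 (n : ZMod N)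
      have := DirichletCharacter.norm_le_one χ2 (n : ZMod N)
      linarith
    have h5 := pow_le_pow_left₀ (norm_nonneg _) h4 2
    simp only
    linarith
  have hsum : ∑ n ∈ RN N z y, ‖χ1 (n : ZMod N) - χ2 (n : ZMod N)‖ ^ 2 =
      ∑ n ∈ (RN N z y).filter (fun n => n ∈ BW z y W), F n +
        ∑ n ∈ (RN N z y).filter (fun n => n ∉ BW z y W), F n := by
    rw [Finset.sum_filter_add_sum_filter_not, hF]
  rw [hsum] at hX
  have hfirst : ∑ n ∈ (RN N z y).filter (fun n => n ∈ BW z y W), F n ≤ 4 * ((BW z y W).card : ℝ) := by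
    calc ∑ n ∈ (RN N z y).filter (fun n => n ∈ BW z y W), F n
        ≤ ∑ n ∈ (RN N z y).filter (fun n => n ∈ BW z y W), (4 : ℝ) := sum_le_sum (fun n _ => hF4 n)
      _ = (((RN N z y).filter (fun n => n ∈ BW z y W)).card : ℝ) * 4 := by rw [sum_const, nsmul_eq_mul]
      _ ≤ ((BW z y W).card : ℝ) * 4 := by
          refine mul_le_mul_of_nonneg_right ?_ (by norm_num)
          exact_mod_cast Finset.card_le_card (fun n hn => (mem_filter.mp hn).2)
      _ = _ := by ring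
  -- second part
  have hsecond : ∑ n ∈ (RN N z y).filter (fun n => n ∉ BW z y W), F n ≤
      (2 * K) ^ 3 * (y * ∑ l ∈ PR N z W, F l / l) := by
    have h4 : ∀ n ∈ (RN N z y).filter (fun n => n ∉ BW z y W),
        F n ≤ (2 * K) ^ 3 * ∑ l ∈ PR N z W, if l ∣ n then F l else 0 := by
      intro n hn
      rw [mem_filter] at hn
      obtain ⟨hn1, hn2⟩ := hn
      unfold RN at hn1
      rw [mem_filter, mem_Icc] at hn1
      obtain ⟨⟨hn3, hn4⟩, hn5, hn6⟩ := hn1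
      have h5 : Real.log n ≤ K := by
        rw [hK]
        exact Real.log_le_log (by exact_mod_cast hn3) (by exact_mod_cast hn4.trans hyN)
      have h6 := diff_E6 χ1 χ2 n hn3 K h5
      have h7 : F n ≤ (2 * K) ^ 3 * ∑ l ∈ n.primeFactors, F l := by
        rw [hF]
        exact h6
      refine h7.trans (mul_le_mul_of_nonneg_left ?_ (by positivity))
      rw [← sum_filter]
      refine sum_le_sum_of_subset_of_nonneg ?_ (fun l _ _ => hF0 l)
      intro l hl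
      have hlp := Nat.prime_of_mem_primeFactors hl
      have hld := Nat.dvd_of_mem_primeFactors hl
      unfold PR
      rw [mem_filter, mem_filter, mem_Ioc]
      refine ⟨⟨⟨hn5 l hlp hld, ?_⟩, hlp, ?_⟩, hld⟩
      · by_contra h
        push Not at h
        apply hn2
        unfold BW
        rw [mem_filter, mem_Icc]
        exact ⟨⟨hn3, hn4⟩, hn5, l, hlp, h, hld⟩
      · intro h
        have h8 := Nat.dvd_gcd hld h
        rw [hn6] at h8
        exact hlp.one_lt.ne' (Nat.dvd_one.mp h8)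
    refine (sum_le_sum h4).trans ?_
    rw [← mul_sum]
    refine mul_le_mul_of_nonneg_left ?_ (by positivity)
    have h5 : ∑ n ∈ (RN N z y).filter (fun n => n ∉ BW z y W), ∑ l ∈ PR N z W, (if l ∣ n then F l else 0) ≤
        ∑ n ∈ Ioc 0 y, ∑ l ∈ PR N z W, (if l ∣ n then F l else 0) := by
      refine sum_le_sum_of_subset_of_nonneg ?_ (fun n _ _ => sum_nonneg (fun l _ => by
        split_ifs
        · exact hF0 l
        · exact le_rfl))
      intro n hn
      rw [mem_filter] at hn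
      have h6 := hn.1
      unfold RN at h6
      rw [mem_filter, mem_Icc] at h6
      rw [mem_Ioc]
      omega
    refine h5.trans ?_
    rw [sum_comm, mul_sum]
    refine sum_le_sum ?_
    intro l _
    rw [← sum_filter, sum_const, nsmul_eq_mul, Nat.Ioc_filter_dvd_card_eq_div]
    have h6 : ((y / l : ℕ) : ℝ) ≤ y / l := Nat.cast_div_le
    calc ((y / l : ℕ) : ℝ) * F l ≤ y / l * F l := mul_le_mul_of_nonneg_right h6 (hF0 l)
      _ = y * (F l / l) := by ring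
  have hblocks : ∑ l ∈ PR N z W, F l / l ≤ 2 * K * (4 / K ^ 9) := by
    have hWH : (W : ℝ) ≤ HH N κ := by
      unfold HH
      exact hWu.trans (Real.rpow_le_rpow_of_exponent_le hN1R (by linarith))
    refine blocks_E6 j z W K (HH N κ) hN0 (by linarith) hK hjz (hWy.trans hyN) hWH F hF0 (4 / K ^ 9)
      (by positivity) ?_
    intro i hji hiH
    have h4 := h1 i hji hiH
    have h5 := h2 i hji hiH
    have h6 : ∀ l ∈ block N (2 ^ i), F l ≤ 2 * ‖χ1 (l : ZMod N) - (θ : ℂ)‖ ^ 2 +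
        2 * ‖χ2 (l : ZMod N) - (θ : ℂ)‖ ^ 2 := by
      intro l _
      rw [hF]
      simp only
      have h7 : χ1 (l : ZMod N) - χ2 (l : ZMod N) =
          (χ1 (l : ZMod N) - (θ : ℂ)) - (χ2 (l : ZMod N) - (θ : ℂ)) := by ring
      have h8 : ‖χ1 (l : ZMod N) - χ2 (l : ZMod N)‖ ≤
          ‖χ1 (l : ZMod N) - (θ : ℂ)‖ + ‖χ2 (l : ZMod N) - (θ : ℂ)‖ := by
        rw [h7]
        exact norm_sub_le _ _
      have h9 := pow_le_pow_left₀ (norm_nonneg _) h8 2
      nlinarith [sq_nonneg (‖χ1 (l : ZMod N) - (θ : ℂ)‖ - ‖χ2 (l : ZMod N) - (θ : ℂ)‖)]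
    refine (sum_le_sum h6).trans ?_
    rw [sum_add_distrib, ← mul_sum, ← mul_sum]
    have h7 : (2 : ℝ) ^ i * (4 / K ^ 9) = 2 * ((2 : ℝ) ^ i / K ^ 9) + 2 * ((2 : ℝ) ^ i / K ^ 9) := by ring
    rw [h7]
    linarith
  -- the final comparison
  obtain ⟨X, hXd⟩ : ∃ X : ℝ, X = y / Real.log z := ⟨_, rfl⟩
  have hX0 : 0 < X := by
    rw [hXd]
    positivity
  rw [← hXd] at hX
  have hBW1 : 4 * ((BW z y W).card : ℝ) ≤ c3 / 2 * X := by
    have h4 := hBW z y W hz2 hW2 hWy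
    have hlW0 : 0 < Real.log W := by linarith
    have h5 : (y : ℝ) / Real.log W ≤ 3 * (y / K) := by
      rw [div_le_iff₀ hlW0]
      have h6 : 3 * ((y : ℝ) / K) * (K / 3) = y := by field_simp
      have h7 : 3 * ((y : ℝ) / K) * (K / 3) ≤ 3 * ((y : ℝ) / K) * Real.log W :=
        mul_le_mul_of_nonneg_left hlogW3 (by positivity)
      linarith
    have h6 : (Real.log y - Real.log W) / Real.log z ≤ 5 * κ * K / Real.log z := by
      refine div_le_div_of_nonneg_right ?_ hlz.le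
      nlinarith
    have h7 : (y : ℝ) / K ≤ κ * X := by
      rw [div_le_iff₀ hK0, hXd]
      have h8 : κ * ((y : ℝ) / Real.log z) * K = (y / Real.log z) * (κ * K) := by ring
      rw [h8]
      have h9 : (y : ℝ) = (y / Real.log z) * Real.log z := by field_simp
      calc (y : ℝ) = (y / Real.log z) * Real.log z := h9
        _ ≤ (y / Real.log z) * (κ * K) := mul_le_mul_of_nonneg_left hlzK (by positivity)
    have h8 : C * ((y : ℝ) / Real.log W) * (1 + (Real.log y - Real.log W) / Real.log z) ≤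
        C * (3 * (y / K)) * (1 + 5 * κ * K / Real.log z) := by
      refine mul_le_mul (mul_le_mul_of_nonneg_left h5 hC.le) (by linarith) ?_ (by positivity)
      have : 0 ≤ (Real.log y - Real.log W) / Real.log z := by
        refine div_nonneg ?_ hlz.le
        rw [sub_nonneg]
        exact Real.log_le_log hW0 (by exact_mod_cast hWy)
      linarith
    have h9 : C * (3 * ((y : ℝ) / K)) * (1 + 5 * κ * K / Real.log z) =
        3 * C * (y / K) + 15 * C * κ * X := by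
      rw [hXd]
      field_simp
      ring
    have h10 : 3 * C * ((y : ℝ) / K) ≤ 3 * C * (κ * X) := mul_le_mul_of_nonneg_left h7 (by positivity)
    have h11 : 4 * (3 * C * (κ * X) + 15 * C * κ * X) = κ * (144 * C) / 2 * X := by ring
    have h12 : κ * (144 * C) / 2 * X ≤ c3 / 2 * X := mul_le_mul_of_nonneg_right (by linarith) hX0.le
    linarith
  have hsec2 : (2 * K) ^ 3 * (y * ∑ l ∈ PR N z W, F l / l) ≤ c3 * X := by
    have h4 : (2 * K) ^ 3 * (y * ∑ l ∈ PR N z W, F l / l) ≤ (2 * K) ^ 3 * (y * (2 * K * (4 / K ^ 9))) := by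
      refine mul_le_mul_of_nonneg_left ?_ (by positivity)
      exact mul_le_mul_of_nonneg_left hblocks hy0.le
    refine h4.trans ?_
    have h5 : (2 * K) ^ 3 * ((y : ℝ) * (2 * K * (4 / K ^ 9))) = 64 / K ^ 4 * (y / K) := by
      field_simp
      ring
    have h6 : 64 / K ^ 4 ≤ c3 := by
      rw [div_le_iff₀ (by positivity)]
      have h7 : K ≤ K ^ 4 := by
        calc K = K ^ 1 := (pow_one K).symm
          _ ≤ K ^ 4 := pow_le_pow_right₀ (by linarith) (by norm_num)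
      have h8 := mul_le_mul_of_nonneg_left h7 hc3.le
      linarith
    have h7 : (y : ℝ) / K ≤ X := by
      rw [hXd]
      exact div_le_div_of_nonneg_left hy0.le hlz hlzK1
    rw [h5]
    exact mul_le_mul h6 h7 (by positivity) hc3.le
  have h13 : 0 < c3 * X := by positivity
  linarith

end Pool.Agent.Lib.RG
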