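import Pool.Agent.Lib.MP_7b7e48_nt.RG.LBM

/-!
# Module THIN (90 minutes): on small products the indicator of `ZZ` is `DA`

`K = log N`, `σ = sig P χ`, `J = JJ N`. PROOF. Let `a < N`, `a ∈ WW 2`, `x` its class. (1) `x ∈ ZZ` implies `DA a`: `v6` with a member of `RR x` (`good_card`) and `e = a`. (2) `DA a` and `VG x` imply `x ∈ ZZ` (`v6` with `a` and `e ∈ RR x`).
Let `l ∈ block N (2^i)`, `χ l = -1`, `n ∈ RN N zz (N/(2 · 2^i))`, `a = l n < N` (`≤ N` and coprime to `N`), `a ∈ WW 1`. `DA a ↔ DA n` (`DA_mul`). So `1_ZZ(l n) ≠ D(n)` only if `DA n` (so `HQ n`, `HQ a` by `DA_HQ`; `n` is rough) and `x` is not `VG`, i.e. if `x` is in the set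
`B` of the classes of the `a < N` with `WW 2 a`, `HQ a`, `¬ VG a`: `|B| ≤ K^22 σ N/J ≤ K^29 |ZZ|/J` (`badv` with `w = 1`, `T = N`; `lbm`). `E3.mult_one` with `W = 1_B` gives the first claim: `2K |B|`.
Second claim: `a = l1 l2 n`, `l1 ∈ block N M` (`χ l1 = -1` by `Env.small`), `l2 ∈ block N (2^i/(2M))`, `χ l2 = -1`, `a ∈ WW 2`, `DA a ↔ DA n`, `E3.mult_two`: `(2K)² |B|`. (`n = 1`: `a = l` resp. `l1 l2`, `DA 1` is false.)
-/

open Finset

namespace Pool.Agent.Lib.RH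

open Pool.Agent.Lib.RG hiding RR sig Good

open Classical in
/-- the primes of a block with `χ = -1` -/
noncomputable def LQ {N : ℕ} (χ : DirichletCharacter ℂ N) (Y : ℕ) : Finset ℕ :=
  (block N Y).filter fun l => χ (l : ZMod N) = -1

open Classical in
/-- the classes which are not covered by the rule -/
private noncomputable def BT (P : Prm) (N : ℕ) [NeZero N] (χ : DirichletCharacter ℂ N) : Finset (ZMod N) :=
  ((Finset.range N).filter fun a : ℕ => WW P N 2 a ∧ HQ P χ a ∧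
    ¬ VG P N (((1 : ℕ) : ZMod N) * (a : ZMod N))).image (fun a : ℕ => (a : ZMod N))

open Classical in
private theorem thin_pt (P : Prm) (hP : P.Ok) (N : ℕ) [NeZero N] (hn : Num P N) (s t : ℝ)
    (χ : DirichletCharacter ℂ N) (h : Env P N s t χ) (n a : ℕ) (hn0 : 0 < n) (hnc : n.Coprime N)
    (hnr : Rough (zz P N) n) (ha : WW P N 2 a) (haN : a < N) (hda : DA χ a ↔ DA χ n) (hdvd : n ∣ a) :
    ((if (a : ZMod N) ∈ ZZ P χ then (1 : ℝ) else 0) - (if DA χ n then (1 : ℝ) else 0)) ^ 2 ≤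
      if (a : ZMod N) ∈ BT P N χ then (1 : ℝ) else 0 := by
  have hJ : 1 ≤ JJ N := by
    have h1 := hn.J1
    have h2 : (1 : ℝ) ≤ (Real.log N) ^ 1000 := one_le_pow₀ (by have := hn.K; linarith [this])
    have h3 : (1 : ℝ) ≤ JJ N := h2.trans h1
    exact_mod_cast h3
  have hM : 1 ≤ MM P N := by
    unfold MM
    exact Nat.one_le_two_pow
  have hJN : JJ N * N ≤ 8 * (MM P N) ^ 2 * JJ N * N := by
    have h1 : 1 ≤ 8 * (MM P N) ^ 2 := by
      have : 1 ≤ (MM P N) ^ 2 := Nat.one_le_pow _ _ hM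
      omega
    calc JJ N * N = 1 * (JJ N * N) := (one_mul _).symm
      _ ≤ (8 * (MM P N) ^ 2) * (JJ N * N) := Nat.mul_le_mul_right _ h1
      _ = _ := by ring
  have hNJ : N ≤ JJ N * N := Nat.le_mul_of_pos_left _ hJ
  have ha2 : a < 8 * (MM P N) ^ 2 * JJ N * N := by omega
  have hx : IsUnit (a : ZMod N) := unit_of_coprime ha.2.1
  have hR : ∀ b ∈ RR P N (a : ZMod N), WW P N 2 b ∧ (b : ZMod N) = (a : ZMod N) ∧
      b < 8 * (MM P N) ^ 2 * JJ N * N := by
    intro b hb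
    rw [mem_RR] at hb
    exact ⟨ww_mono (by norm_num) (rgh_ww hn hb.2.2), hb.2.1, lt_of_lt_of_le hb.1 hJN⟩
  have hBT0 : (0 : ℝ) ≤ if (a : ZMod N) ∈ BT P N χ then (1 : ℝ) else 0 := by
    split_ifs <;> norm_num
  by_cases hz : (a : ZMod N) ∈ ZZ P χ
  · have hz2 := hz
    unfold ZZ at hz2
    rw [Finset.mem_filter] at hz2
    obtain ⟨_, _, hvg, hall⟩ := hz2
    have hcard := good_card hn hx hvg.1
    have hpos : (0 : ℝ) < (RR P N (a : ZMod N)).card := by
      refine lt_of_lt_of_le ?_ hcard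
      have h1 : (0 : ℝ) < JJ N := by exact_mod_cast hJ
      have h2 : 0 < Real.log N := by have := hn.K; linarith
      positivity
    have hpos2 : 0 < (RR P N (a : ZMod N)).card := by exact_mod_cast hpos
    obtain ⟨b, hb⟩ := Finset.card_pos.mp hpos2
    obtain ⟨hb1, hb2, hb3⟩ := hR b hb
    have hDa := v6 P hP N hn s t χ h (a : ZMod N) hx hvg b a hb1 ha hb2 rfl hb3 ha2 (hall b hb)
    rw [if_pos hz, if_pos (hda.mp hDa), sub_self]
    simpa using hBT0
  · by_cases hD : DA χ n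
    · have hDa := hda.mpr hD
      have hnv : ¬ VG P N (a : ZMod N) := by
        intro hv
        apply hz
        unfold ZZ
        rw [Finset.mem_filter]
        refine ⟨Finset.mem_univ _, hx, hv, ?_⟩
        intro e he
        obtain ⟨he1, he2, he3⟩ := hR e he
        exact v6 P hP N hn s t χ h (a : ZMod N) hx hv a e ha he1 rfl he2 ha2 he3 hDa
      have hHQ : HQ P χ a := by
        obtain ⟨q, hq1, hq2, hq3, hq4⟩ := DA_HQ h.sq hn0 hnc hnr hD
        exact ⟨q, hq1, hq2, hq3.trans hdvd, hq4⟩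
      have hmem : (a : ZMod N) ∈ BT P N χ := by
        unfold BT
        rw [Finset.mem_image]
        refine ⟨a, ?_, rfl⟩
        rw [Finset.mem_filter, Finset.mem_range]
        refine ⟨haN, ha, hHQ, ?_⟩
        rw [Nat.cast_one, one_mul]
        exact hnv
      rw [if_neg hz, if_pos hD, if_pos hmem]
      norm_num
    · rw [if_neg hz, if_neg hD, sub_self]
      simpa using hBT0

open Classical in
private theorem BT_card (P : Prm) (hP : P.Ok) (N : ℕ) [NeZero N] (hn : Num P N) (ht : Tools P N) (s t : ℝ)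
    (χ : DirichletCharacter ℂ N) (h : Env P N s t χ) :
    ∑ x : ZMod N, (if x ∈ BT P N χ then (1 : ℝ) else 0) ≤ (Real.log N) ^ 29 * (ZZ P χ).card / JJ N := by
  have hK := hn.K
  have hK0 : 0 < Real.log N := by linarith
  have hJ : (1 : ℝ) ≤ JJ N := (one_le_pow₀ (by linarith)).trans hn.J1
  have hJ1 : 1 ≤ JJ N := by exact_mod_cast hJ
  have hJ0 : (0 : ℝ) < JJ N := by linarith
  rw [← Finset.sum_filter, Finset.filter_mem_eq_inter, Finset.univ_inter, Finset.sum_const, nsmul_eq_mul, mul_one]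
  have h1 := badv P hP N hn ht χ h.sq h.ne 1 N (Or.inl rfl) le_rfl (Nat.le_mul_of_pos_left _ hJ1)
  have h2 : ((BT P N χ).card : ℝ) ≤ (((Finset.range N).filter fun a : ℕ => WW P N 2 a ∧ HQ P χ a ∧
      ¬ VG P N (((1 : ℕ) : ZMod N) * (a : ZMod N))).card : ℝ) := by
    unfold BT
    exact_mod_cast Finset.card_image_le
  have h3 := lbm P hP N hn ht s t χ h
  rw [div_le_iff₀ (by positivity)] at h3
  refine (h2.trans h1).trans ?_
  rw [div_le_div_iff_of_pos_right hJ0]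
  calc (Real.log N) ^ 22 * sig P χ * N = (Real.log N) ^ 22 * (sig P χ * N) := by ring
    _ ≤ (Real.log N) ^ 22 * ((ZZ P χ).card * (Real.log N) ^ 7) := mul_le_mul_of_nonneg_left h3 (by positivity)
    _ = _ := by ring

private theorem lt_of_cop {N a : ℕ} (hN : 2 ≤ N) (ha : a ≤ N) (hc : a.Coprime N) : a < N := by
  refine lt_of_le_of_ne ha ?_
  intro h
  rw [h] at hc
  rw [Nat.coprime_self] at hc
  omega

open Classical in
theorem thin_one (P : Prm) (hP : P.Ok) (N : ℕ) [NeZero N] (hn : Num P N) (ht : Tools P N) (s t : ℝ)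
    (χ : DirichletCharacter ℂ N) (h : Env P N s t χ) (i : ℕ) (hi : InR P N i) :
    ∑ l ∈ LQ χ (2 ^ i), ∑ n ∈ RN N (zz P N) (N / (2 * 2 ^ i)),
      ((if ((l * n : ℕ) : ZMod N) ∈ ZZ P χ then (1 : ℝ) else 0) -
        (if DA χ n then (1 : ℝ) else 0)) ^ 2 ≤ (Real.log N) ^ 33 * (ZZ P χ).card / JJ N := by
  have hK := hn.K
  have hK0 : 0 < Real.log N := by linarith
  have hN2 : 2 ≤ N := N_pos hn
  have hN3 : 3 ≤ N := by
    by_contra hcon
    have h1 : N = 2 := by omega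
    rw [h1] at hK
    have := Real.log_two_lt_d9
    push_cast at hK
    linarith
  have hy : 2 * 2 ^ i * (N / (2 * 2 ^ i)) ≤ N := Nat.mul_div_le _ _
  have h1 := mult_one N hN3 (zz P N) (2 ^ i) (N / (2 * 2 ^ i)) hy (LQ χ (2 ^ i))
    (by unfold LQ; exact Finset.filter_subset _ _) (fun x => if x ∈ BT P N χ then (1 : ℝ) else 0)
    (fun x => by split_ifs <;> norm_num)
  have h2 : ∑ l ∈ LQ χ (2 ^ i), ∑ n ∈ RN N (zz P N) (N / (2 * 2 ^ i)),
      ((if ((l * n : ℕ) : ZMod N) ∈ ZZ P χ then (1 : ℝ) else 0) -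
        (if DA χ n then (1 : ℝ) else 0)) ^ 2 ≤
      ∑ l ∈ LQ χ (2 ^ i), ∑ n ∈ RN N (zz P N) (N / (2 * 2 ^ i)),
        (if ((l * n : ℕ) : ZMod N) ∈ BT P N χ then (1 : ℝ) else 0) := by
    refine Finset.sum_le_sum ?_
    intro l hl
    refine Finset.sum_le_sum ?_
    intro n hnn
    unfold LQ at hl
    rw [Finset.mem_filter, mem_block] at hl
    obtain ⟨⟨hl1, hl2, hlp, hlN⟩, hlχ⟩ := hl
    unfold RN at hnn
    rw [Finset.mem_filter, Finset.mem_Icc] at hnn
    obtain ⟨⟨hn1, hn2⟩, hn3, hn4⟩ := hnn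
    have hlc : l.Coprime N := (Nat.Prime.coprime_iff_not_dvd hlp).mpr hlN
    have hac : (l * n).Coprime N := Nat.Coprime.mul_left hlc hn4
    have haN : l * n < N := lt_of_cop hN2 ((Nat.mul_le_mul hl2 hn2).trans hy) hac
    have hMl : MM P N < l := by
      refine lt_of_le_of_lt ?_ hl1
      unfold MM
      exact Nat.pow_le_pow_right (by norm_num) hi.1
    have hww : WW P N 2 (l * n) := by
      rcases Nat.lt_or_ge 1 n with hn5 | hn5
      · exact ww_mono (by norm_num) (ww_mul_prime hlp hMl hlN (rgh_ww hn ⟨hn5, hn4, hn3⟩))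
      · have : n = 1 := by omega
        rw [this, mul_one]
        exact ww_mono (by norm_num) (ww_prime hlp hMl hlN)
    exact thin_pt P hP N hn s t χ h n (l * n) hn1 hn4 hn3 hww haN (DA_mul hlp hlχ hn1) (dvd_mul_left n l)
  refine h2.trans (h1.trans ?_)
  have h3 := BT_card P hP N hn ht s t χ h
  have hJ : (1 : ℝ) ≤ JJ N := (one_le_pow₀ (by linarith)).trans hn.J1
  have hJ0 : (0 : ℝ) < JJ N := by linarith
  calc 2 * Real.log N * ∑ x : ZMod N, (if x ∈ BT P N χ then (1 : ℝ) else 0)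
      ≤ 2 * Real.log N * ((Real.log N) ^ 29 * (ZZ P χ).card / JJ N) := mul_le_mul_of_nonneg_left h3 (by positivity)
    _ = 2 * ((Real.log N) ^ 30 * (ZZ P χ).card / JJ N) := by ring
    _ ≤ (Real.log N) ^ 3 * ((Real.log N) ^ 30 * (ZZ P χ).card / JJ N) := by
        refine mul_le_mul_of_nonneg_right ?_ (by positivity)
        calc (2 : ℝ) ≤ Real.log N := by linarith
          _ = (Real.log N) ^ 1 := (pow_one _).symm
          _ ≤ (Real.log N) ^ 3 := pow_le_pow_right₀ (by linarith) (by norm_num)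
    _ = _ := by ring

open Classical in
theorem thin_two (P : Prm) (hP : P.Ok) (N : ℕ) [NeZero N] (hn : Num P N) (ht : Tools P N) (s t : ℝ)
    (χ : DirichletCharacter ℂ N) (h : Env P N s t χ) (i : ℕ) (hi : 2 * (MM P N) ^ 2 < 2 ^ i)
    (hi2 : (2 : ℝ) ^ i ≤ HH N P.kap) :
    ∑ l1 ∈ block N (MM P N), ∑ l2 ∈ LQ χ (2 ^ i / (2 * MM P N)),
      ∑ n ∈ RN N (zz P N) (N / (2 * 2 ^ i)),
      ((if ((l1 * l2 * n : ℕ) : ZMod N) ∈ ZZ P χ then (1 : ℝ) else 0) - 1 *
        (if DA χ n then (1 : ℝ) else 0)) ^ 2 ≤ (Real.log N) ^ 33 * (ZZ P χ).card / JJ N := by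
  have hK := hn.K
  have hK0 : 0 < Real.log N := by linarith
  have hN2 : 2 ≤ N := N_pos hn
  have hN3 : 3 ≤ N := by
    by_contra hcon
    have h1 : N = 2 := by omega
    rw [h1] at hK
    have := Real.log_two_lt_d9
    push_cast at hK
    linarith
  have hM : 1 ≤ MM P N := by
    unfold MM
    exact Nat.one_le_two_pow
  obtain ⟨Y, hY⟩ : ∃ Y : ℕ, Y = 2 ^ i / (2 * MM P N) := ⟨_, rfl⟩
  have hMY : MM P N ≤ Y := by
    rw [hY, Nat.le_div_iff_mul_le (by omega)]
    calc MM P N * (2 * MM P N) = 2 * (MM P N) ^ 2 := by ring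
      _ ≤ 2 ^ i := hi.le
  have hy0 : 2 * MM P N * (2 * Y) ≤ 2 * 2 ^ i := by
    have h1 : 2 * MM P N * Y ≤ 2 ^ i := by
      rw [hY]
      exact Nat.mul_div_le _ _
    calc 2 * MM P N * (2 * Y) = 2 * (2 * MM P N * Y) := by ring
      _ ≤ 2 * 2 ^ i := Nat.mul_le_mul_left _ h1
  have hy : 2 * MM P N * (2 * Y) * (N / (2 * 2 ^ i)) ≤ N :=
    (Nat.mul_le_mul_right _ hy0).trans (Nat.mul_div_le _ _)
  rw [← hY]
  have h1 := mult_two N hN3 (zz P N) (MM P N) Y (N / (2 * 2 ^ i)) hy (block N (MM P N)) (LQ χ Y)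
    (Finset.Subset.refl _) (by unfold LQ; exact Finset.filter_subset _ _)
    (fun x => if x ∈ BT P N χ then (1 : ℝ) else 0) (fun x => by split_ifs <;> norm_num)
  have h2 : ∑ l1 ∈ block N (MM P N), ∑ l2 ∈ LQ χ Y, ∑ n ∈ RN N (zz P N) (N / (2 * 2 ^ i)),
      ((if ((l1 * l2 * n : ℕ) : ZMod N) ∈ ZZ P χ then (1 : ℝ) else 0) - 1 *
        (if DA χ n then (1 : ℝ) else 0)) ^ 2 ≤
      ∑ l1 ∈ block N (MM P N), ∑ l2 ∈ LQ χ Y, ∑ n ∈ RN N (zz P N) (N / (2 * 2 ^ i)),
        (if ((l1 * l2 * n : ℕ) : ZMod N) ∈ BT P N χ then (1 : ℝ) else 0) := by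
    refine Finset.sum_le_sum ?_
    intro l1 hl1
    refine Finset.sum_le_sum ?_
    intro l hl
    refine Finset.sum_le_sum ?_
    intro n hnn
    have hl1χ := h.small l1 (block_sub_PZ hM hl1)
    rw [mem_block] at hl1
    obtain ⟨hl11, hl12, hl1p, hl1N⟩ := hl1
    unfold LQ at hl
    rw [Finset.mem_filter, mem_block] at hl
    obtain ⟨⟨hl3, hl2, hlp, hlN⟩, hlχ⟩ := hl
    unfold RN at hnn
    rw [Finset.mem_filter, Finset.mem_Icc] at hnn
    obtain ⟨⟨hn1, hn2⟩, hn3, hn4⟩ := hnn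
    have hlc : l.Coprime N := (Nat.Prime.coprime_iff_not_dvd hlp).mpr hlN
    have hl1c : l1.Coprime N := (Nat.Prime.coprime_iff_not_dvd hl1p).mpr hl1N
    have hac : (l1 * l * n).Coprime N := Nat.Coprime.mul_left (Nat.Coprime.mul_left hl1c hlc) hn4
    have haN : l1 * l * n < N :=
      lt_of_cop hN2 ((Nat.mul_le_mul (Nat.mul_le_mul hl12 hl2) hn2).trans hy) hac
    have hMl : MM P N < l := lt_of_le_of_lt hMY hl3
    have hww : WW P N 2 (l1 * l * n) := by
      rcases Nat.lt_or_ge 1 n with hn5 | hn5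
      · rw [mul_assoc]
        exact ww_mul_prime hl1p hl11 hl1N (ww_mul_prime hlp hMl hlN (rgh_ww hn ⟨hn5, hn4, hn3⟩))
      · have : n = 1 := by omega
        rw [this, mul_one]
        exact ww_mul_prime hl1p hl11 hl1N (ww_prime hlp hMl hlN)
    have hda : DA χ (l1 * l * n) ↔ DA χ n := by
      rw [mul_assoc, DA_mul hl1p hl1χ (Nat.mul_pos hlp.pos hn1), DA_mul hlp hlχ hn1]
    rw [one_mul]
    exact thin_pt P hP N hn s t χ h n (l1 * l * n) hn1 hn4 hn3 hww haN hda (dvd_mul_left n (l1 * l))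
  refine h2.trans (h1.trans ?_)
  have h3 := BT_card P hP N hn ht s t χ h
  have hJ : (1 : ℝ) ≤ JJ N := (one_le_pow₀ (by linarith)).trans hn.J1
  have hJ0 : (0 : ℝ) < JJ N := by linarith
  calc (2 * Real.log N) ^ 2 * ∑ x : ZMod N, (if x ∈ BT P N χ then (1 : ℝ) else 0)
      ≤ (2 * Real.log N) ^ 2 * ((Real.log N) ^ 29 * (ZZ P χ).card / JJ N) :=
        mul_le_mul_of_nonneg_left h3 (by positivity)
    _ = 4 * ((Real.log N) ^ 31 * (ZZ P χ).card / JJ N) := by ring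
    _ ≤ (Real.log N) ^ 2 * ((Real.log N) ^ 31 * (ZZ P χ).card / JJ N) := by
        refine mul_le_mul_of_nonneg_right ?_ (by positivity)
        calc (4 : ℝ) ≤ Real.log N := by linarith
          _ = (Real.log N) ^ 1 := (pow_one _).symm
          _ ≤ (Real.log N) ^ 2 := pow_le_pow_right₀ (by linarith) (by norm_num)
    _ = _ := by ring

end Pool.Agent.Lib.RH
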