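import Pool.Agent.Lib.MP_7b7e48_nt.RG.INV
import Pool.Agent.Lib.MP_7b7e48_nt.RG.THIN

/-!
# Module FIN (90 minutes): the contradiction

`K = log N`, `J = JJ N`, `Z = ZZ P χ`, `|Z| > 0` (`lbm`, `sig_pos`). PROOF. `Tools.mass` with `θ = 1`, `h = 1_Z`, `ρ n = 1 if DA χ n`, `L = LQ χ`, `ε = K^33/J`: `∑ h² = |Z|`; `zero`: `Z` consists of units; `inv` = `inv_sum`, `one` = `thin_one`, `two` = `thin_two`; a prime of `block N (2^i)` not in `LQ` has
`χ l = 1` (`chi_pm`) and contributes `4` to the sum in `Env.blk`: `|block \ LQ| ≤ 2^i/(4 K^12)`, so `big` holds (`Num.bl`: `2^i/(4K) - 2^i/(4K^12) ≥ 2^i/K^2`) and also the hypothesis with `K^10`. Conclusion: `χ0`; the principal character `1` is `Blk 9 1` (`(1 : DirichletCharacter) l = 1` for `l ∤ N`), so `χ0 = 1` and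
`φ(N) ∑_{χ' ≠ 1} ‖bch h χ'‖² ≤ K^63 |Z|/J`. Parseval (`chParsF`): `φ(N) ‖bch h 1‖² ≥ (1 - K^63/J) |Z| ≥ |Z|/2`. `bch h 1 = |Z|/φ(N)`, so `|Z| ≥ φ(N)/2 ≥ N/(2K)`. But for `x ∈ Z` some `a ∈ RR x` (`good_card`) has `DA a`, so `|Z| ≤ N/K^5` (`Env.typ`). Contradiction.
-/

open Finset

namespace Pool.Agent.Lib.RH

open Pool.Agent.Lib.RG hiding RR sig Good

private theorem fin_block (P : Prm) (N : ℕ) [NeZero N] (s t : ℝ)
    (χ : DirichletCharacter ℂ N) (h : Env P N s t χ) (i : ℕ) (hi : InR P N i) :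
    ((block N (2 ^ i) \ LQ χ (2 ^ i)).card : ℝ) ≤ (2 : ℝ) ^ i / (4 * (Real.log N) ^ 12) := by
  classical
  have h1 := h.blk i hi
  have h2 : ∀ l ∈ block N (2 ^ i) \ LQ χ (2 ^ i), ‖χ (l : ZMod N) - ((-1 : ℝ) : ℂ)‖ ^ 2 = 4 := by
    intro l hl
    rw [Finset.mem_sdiff] at hl
    obtain ⟨hl1, hl2⟩ := hl
    have hl3 := mem_block.1 hl1
    have hu : IsUnit (l : ZMod N) :=
      unit_of_coprime ((Nat.Prime.coprime_iff_not_dvd hl3.2.2.1).2 hl3.2.2.2)
    have h3 : χ (l : ZMod N) = 1 := by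
      rcases chi_pm h.sq hu with h4 | h4
      · exact h4
      · exfalso
        apply hl2
        unfold LQ
        rw [Finset.mem_filter]
        exact ⟨hl1, h4⟩
    rw [h3]
    have : (1 : ℂ) - ((-1 : ℝ) : ℂ) = ((2 : ℝ) : ℂ) := by push_cast; ring
    rw [this, Complex.norm_real, Real.norm_eq_abs]
    norm_num
  have h5 : (4 : ℝ) * (block N (2 ^ i) \ LQ χ (2 ^ i)).card ≤
      ∑ l ∈ block N (2 ^ i), ‖χ (l : ZMod N) - ((-1 : ℝ) : ℂ)‖ ^ 2 := by
    calc (4 : ℝ) * (block N (2 ^ i) \ LQ χ (2 ^ i)).card =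
          ∑ l ∈ block N (2 ^ i) \ LQ χ (2 ^ i), ‖χ (l : ZMod N) - ((-1 : ℝ) : ℂ)‖ ^ 2 := by
          rw [Finset.sum_congr rfl h2, Finset.sum_const, nsmul_eq_mul, mul_comm]
      _ ≤ _ := Finset.sum_le_sum_of_subset_of_nonneg Finset.sdiff_subset fun _ _ _ => by positivity
  have h6 : (2 : ℝ) ^ i / (4 * (Real.log N) ^ 12) = (2 : ℝ) ^ i / (Real.log N) ^ 12 / 4 := by
    rw [mul_comm, div_div]
  rw [h6]
  linarith

private theorem fin_sq (N : ℕ) [NeZero N] (Z : Finset (ZMod N)) [DecidablePred (· ∈ Z)] :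
    ∑ x : ZMod N, (if x ∈ Z then (1 : ℝ) else 0) ^ 2 = Z.card := by
  have h1 : ∀ x : ZMod N, (if x ∈ Z then (1 : ℝ) else 0) ^ 2 = if x ∈ Z then (1 : ℝ) else 0 := by
    intro x
    split_ifs
    · norm_num
    · norm_num
  rw [Finset.sum_congr rfl fun x _ => h1 x, ← Finset.sum_filter, Finset.sum_const, nsmul_eq_mul, mul_one]
  congr 2
  ext x
  rw [Finset.mem_filter]
  exact ⟨fun hx => hx.2, fun hx => ⟨Finset.mem_univ _, hx⟩⟩

private theorem fin_alg {a : ℝ} (ha : 0 < a) (b : ℝ) : a * (a⁻¹ * b) ^ 2 = b ^ 2 / a := by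
  field_simp

private theorem fin_alg2 {K : ℝ} (hK : 0 < K) (b : ℝ) : K * (2 * (b / K ^ 5)) = b * (2 / K ^ 4) := by
  field_simp

open Classical in
theorem fin_false (P : Prm) (hP : P.Ok) (N : ℕ) [NeZero N] (hn : Num P N) (ht : Tools P N) (s t : ℝ)
    (χ : DirichletCharacter ℂ N) (h : Env P N s t χ) : False := by
  have hK9 : (10 : ℝ) ^ 9 ≤ Real.log N := hn.K
  have hK2 : (2 : ℝ) ≤ Real.log N := le_trans (by norm_num) hK9
  have hK8 : (8 : ℝ) ≤ Real.log N := le_trans (by norm_num) hK9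
  have hK1 : (1 : ℝ) ≤ Real.log N := by linarith
  have hK0 : 0 < Real.log N := by linarith
  have hN0 : (0 : ℝ) < N := by
    have := N_pos hn
    have h2 : (2 : ℝ) ≤ N := by exact_mod_cast this
    linarith
  have hN1 : (1 : ℝ) ≤ N := by
    have := N_pos hn
    have h2 : (2 : ℝ) ≤ N := by exact_mod_cast this
    linarith
  have hJ : ∀ m : ℕ, m ≤ 1000 → (Real.log N) ^ m ≤ JJ N := fun m hm =>
    (pow_le_pow_right₀ hK1 hm).trans hn.J1
  have hJ0 : (0 : ℝ) < JJ N := lt_of_lt_of_le (pow_pos hK0 _) (hJ 1 (by norm_num))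
  have hσ := sig_pos P N hn ht χ h.sq h.ne
  have hZ := lbm P hP N hn ht s t χ h
  have hZ0 : (0 : ℝ) < (ZZ P χ).card := lt_of_lt_of_le (by positivity) hZ
  -- membership facts
  have hZu : ∀ x ∈ ZZ P χ, IsUnit x ∧ VG P N x ∧ ∀ a ∈ RR P N x, DA χ a := by
    intro x hx
    unfold ZZ at hx
    rw [Finset.mem_filter] at hx
    exact hx.2
  have hHHN : ∀ i : ℕ, (2 : ℝ) ^ i ≤ HH N P.kap → ((2 ^ i : ℕ) : ℝ) ≤ N := by
    intro i hi
    push_cast
    refine hi.trans ?_
    unfold HH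
    calc (N : ℝ) ^ (1 / 2 - 2 * P.kap) ≤ (N : ℝ) ^ (1 : ℝ) :=
          Real.rpow_le_rpow_of_exponent_le hN1 (by linarith [hP.kap0])
      _ = N := Real.rpow_one _
  have hm0 : ∀ i : ℕ, MM P N ≤ 2 ^ i → m0 P N ≤ i := by
    intro i hi
    unfold MM at hi
    exact (Nat.pow_le_pow_iff_right (by norm_num : 1 < 2)).1 hi
  have hblk := fin_block P N s t χ h
  have hε0 : 0 ≤ (Real.log N) ^ 33 / JJ N := by positivity
  have hsum := fin_sq N (ZZ P χ)
  have hmass := ht.mass 1 ((Real.log N) ^ 33 / JJ N) (fun x => if x ∈ ZZ P χ then (1 : ℝ) else 0)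
    (fun n => if DA χ n then (1 : ℝ) else 0) (LQ χ) (by norm_num) hε0 (by
      rw [← mul_div_assoc, div_le_one hJ0, ← pow_add]
      exact hJ _ (by norm_num)) (by
      rw [hsum]
      exact hZ0) (by
      intro i hi
      refine (hblk i hi).trans ?_
      apply div_le_div_of_nonneg_left (by positivity) (by positivity)
      calc (Real.log N) ^ 10 ≤ (Real.log N) ^ 12 := pow_le_pow_right₀ hK1 (by norm_num)
        _ ≤ 4 * (Real.log N) ^ 12 := by
            have : 0 ≤ (Real.log N) ^ 12 := by positivity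
            linarith) (by
      refine ⟨?_, ?_, ?_, ?_, ?_, ?_⟩
      · intro x hx
        show (if x ∈ ZZ P χ then (1 : ℝ) else 0) = 0
        rw [if_neg]
        intro hx'
        exact hx (hZu x hx').1
      · intro Y
        unfold LQ
        exact Finset.filter_subset _ _
      · intro i hi hi2
        have hin : InR P N i := ⟨hm0 i hi, hi2⟩
        have h1 := hblk i hin
        have hcard : ((block N (2 ^ i)).card : ℝ) ≤
            (LQ χ (2 ^ i)).card + (block N (2 ^ i) \ LQ χ (2 ^ i)).card := by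
          have h2 : (block N (2 ^ i)).card ≤
              (LQ χ (2 ^ i)).card + (block N (2 ^ i) \ LQ χ (2 ^ i)).card := by
            have h3 := Finset.card_le_card_sdiff_add_card (s := block N (2 ^ i)) (t := LQ χ (2 ^ i))
            omega
          exact_mod_cast h2
        have hY3 : (Real.log N) ^ 3 ≤ ((2 ^ i : ℕ) : ℝ) := by
          calc (Real.log N) ^ 3 ≤ (Real.log N) ^ P.C1 := pow_le_pow_right₀ hK1 (by have := hP.C1; omega)
            _ ≤ MM P N := hn.M1
            _ ≤ _ := by exact_mod_cast hi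
        have h4 := hn.bl (2 ^ i) hY3 (by exact_mod_cast hHHN i hi2)
        push_cast at h4
        have h5 : (2 : ℝ) ^ i / (Real.log N) ^ 2 ≤ (2 : ℝ) ^ i / (8 * Real.log N) := by
          apply div_le_div_of_nonneg_left (by positivity) (by positivity)
          nlinarith
        have h6 : (2 : ℝ) ^ i / (4 * (Real.log N) ^ 12) ≤ (2 : ℝ) ^ i / (8 * Real.log N) := by
          apply div_le_div_of_nonneg_left (by positivity) (by positivity)
          have h7 : Real.log N * 2 ≤ (Real.log N) ^ 12 := by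
            calc Real.log N * 2 ≤ Real.log N * Real.log N := mul_le_mul_of_nonneg_left hK2 hK0.le
              _ = (Real.log N) ^ 2 := by ring
              _ ≤ (Real.log N) ^ 12 := pow_le_pow_right₀ hK1 (by norm_num)
          linarith
        have h8 : (2 : ℝ) ^ i / (4 * Real.log N) = (2 : ℝ) ^ i / (8 * Real.log N) +
            (2 : ℝ) ^ i / (8 * Real.log N) := by
          field_simp
          norm_num
        linarith
      · intro l hl
        have h1 := inv_sum P hP N hn ht s t χ h l hl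
        rw [hsum]
        refine h1.trans (le_of_eq ?_)
        ring
      · intro i hi hi2
        have hin : InR P N i := by
          refine ⟨hm0 i ?_, hi2⟩
          have hM1 : 1 ≤ MM P N := by
            unfold MM
            exact Nat.one_le_two_pow
          nlinarith
        have h1 := thin_one P hP N hn ht s t χ h i hin
        rw [hsum]
        refine h1.trans (le_of_eq ?_)
        ring
      · intro i hi hi2
        have h1 := thin_two P hP N hn ht s t χ h i hi hi2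
        rw [hsum]
        refine h1.trans (le_of_eq ?_)
        ring)
  obtain ⟨χ0, hmain, -, huniq⟩ := hmass
  -- the principal character
  have h1blk : Blk P N 9 1 (1 : DirichletCharacter ℂ N) := by
    intro i _
    have hz : ∀ l ∈ block N (2 ^ i), ‖(1 : DirichletCharacter ℂ N) (l : ZMod N) - ((1 : ℝ) : ℂ)‖ ^ 2 = 0 := by
      intro l hl
      have hl3 := mem_block.1 hl
      have hu : IsUnit (l : ZMod N) :=
        unit_of_coprime ((Nat.Prime.coprime_iff_not_dvd hl3.2.2.1).2 hl3.2.2.2)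
      rw [MulChar.one_apply hu]
      simp
    rw [Finset.sum_congr rfl hz, Finset.sum_const_zero]
    positivity
  have hχ0 : (1 : DirichletCharacter ℂ N) = χ0 := huniq 1 h1blk
  subst hχ0
  rw [hsum] at hmain
  have hphi : (0 : ℝ) < (N.totient : ℝ) := phi_pos
  -- Parseval
  have hpars := chParsF (fun x : ZMod N => (((if x ∈ ZZ P χ then (1 : ℝ) else 0) : ℝ) : ℂ)) (by
    intro x hx
    show (((if x ∈ ZZ P χ then (1 : ℝ) else 0) : ℝ) : ℂ) = 0
    rw [if_neg (fun hx' => hx (hZu x hx').1)]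
    simp)
  have hpars2 : ((ZZ P χ).card : ℝ) = (N.totient : ℝ) * ∑ χ' : DirichletCharacter ℂ N,
      ‖bch (fun x : ZMod N => (((if x ∈ ZZ P χ then (1 : ℝ) else 0) : ℝ) : ℂ)) χ'‖ ^ 2 := by
    rw [← hpars, ← hsum]
    refine Finset.sum_congr rfl fun x _ => ?_
    rw [Complex.norm_real, Real.norm_eq_abs, sq_abs]
  rw [← Finset.add_sum_erase Finset.univ _ (Finset.mem_univ (1 : DirichletCharacter ℂ N)), mul_add] at hpars2
  -- the coefficient of the principal character
  have hb1 : bch (fun x : ZMod N => (((if x ∈ ZZ P χ then (1 : ℝ) else 0) : ℝ) : ℂ))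
      (1 : DirichletCharacter ℂ N) = (((N.totient : ℝ)⁻¹ * (ZZ P χ).card : ℝ) : ℂ) := by
    unfold bch
    have e1 : ∀ y : ZMod N, (((if y ∈ ZZ P χ then (1 : ℝ) else 0) : ℝ) : ℂ) *
        (starRingEnd ℂ) ((1 : DirichletCharacter ℂ N) y) =
        (((if y ∈ ZZ P χ then (1 : ℝ) else 0) ^ 2 : ℝ) : ℂ) := by
      intro y
      by_cases hy : y ∈ ZZ P χ
      · rw [if_pos hy, MulChar.one_apply (hZu y hy).1]
        simp
      · rw [if_neg hy]
        simp
    rw [Finset.sum_congr rfl fun y _ => e1 y, ← Complex.ofReal_sum, hsum]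
    push_cast
    rfl
  rw [hb1, Complex.norm_real, Real.norm_eq_abs, sq_abs] at hpars2
  -- lower bound for `|Z|`
  have hC : (Real.log N) ^ 30 * ((Real.log N) ^ 33 / JJ N * ((ZZ P χ).card : ℝ)) ≤ ((ZZ P χ).card : ℝ) / 2 := by
    have h1 : (Real.log N) ^ 30 * ((Real.log N) ^ 33 / JJ N) ≤ 1 / 2 := by
      rw [← mul_div_assoc, div_le_div_iff₀ hJ0 (by norm_num), ← pow_add, one_mul]
      calc (Real.log N) ^ (30 + 33) * 2 ≤ (Real.log N) ^ (30 + 33) * Real.log N :=
            mul_le_mul_of_nonneg_left hK2 (by positivity)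
        _ = (Real.log N) ^ 64 := by ring
        _ ≤ JJ N := hJ _ (by norm_num)
    calc (Real.log N) ^ 30 * ((Real.log N) ^ 33 / JJ N * ((ZZ P χ).card : ℝ)) =
          ((Real.log N) ^ 30 * ((Real.log N) ^ 33 / JJ N)) * ((ZZ P χ).card : ℝ) := by ring
      _ ≤ 1 / 2 * ((ZZ P χ).card : ℝ) := mul_le_mul_of_nonneg_right h1 hZ0.le
      _ = ((ZZ P χ).card : ℝ) / 2 := by ring
  have hlow : (N.totient : ℝ) ≤ 2 * (ZZ P χ).card := by
    have h1 : ((ZZ P χ).card : ℝ) / 2 ≤
        (N.totient : ℝ) * ((N.totient : ℝ)⁻¹ * (ZZ P χ).card) ^ 2 := by linarith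
    have h2 : (N.totient : ℝ) * ((N.totient : ℝ)⁻¹ * (ZZ P χ).card) ^ 2 =
        (ZZ P χ).card ^ 2 / (N.totient : ℝ) := fin_alg hphi _
    rw [h2, div_le_div_iff₀ (by norm_num) hphi] at h1
    have h3 : ((ZZ P χ).card : ℝ) * N.totient ≤ (ZZ P χ).card * (2 * (ZZ P χ).card) := by
      calc ((ZZ P χ).card : ℝ) * N.totient ≤ (ZZ P χ).card ^ 2 * 2 := h1
        _ = _ := by ring
    exact le_of_mul_le_mul_left h3 hZ0
  -- upper bound for `|Z|`
  have hup : ((ZZ P χ).card : ℝ) ≤ (N : ℝ) / (Real.log N) ^ 5 := by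
    refine le_trans ?_ h.typ
    have : (ZZ P χ).card ≤ ((Finset.univ : Finset (ZMod N)).filter fun x => IsUnit x ∧
        ∃ a ∈ RR P N x, DA χ a).card := by
      apply Finset.card_le_card
      intro x hx
      obtain ⟨hu, hv, ha⟩ := hZu x hx
      rw [Finset.mem_filter]
      refine ⟨Finset.mem_univ _, hu, ?_⟩
      have h1 := good_card hn hu hv.1
      have h2 : (0 : ℝ) < (RR P N x).card := lt_of_lt_of_le (by positivity) h1
      have h3 : 0 < (RR P N x).card := by exact_mod_cast h2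
      obtain ⟨a, ha'⟩ := Finset.card_pos.1 h3
      exact ⟨a, ha', ha a ha'⟩
    exact_mod_cast this
  -- contradiction
  have hph := hn.ph
  have h1 : (N : ℝ) ≤ Real.log N * (2 * ((N : ℝ) / (Real.log N) ^ 5)) :=
    hph.trans (mul_le_mul_of_nonneg_left (hlow.trans (by linarith)) hK0.le)
  have h2 : Real.log N * (2 * ((N : ℝ) / (Real.log N) ^ 5)) = (N : ℝ) * (2 / (Real.log N) ^ 4) :=
    fin_alg2 hK0 _
  have h3 : (2 : ℝ) / (Real.log N) ^ 4 < 1 := by
    rw [div_lt_one (by positivity)]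
    calc (2 : ℝ) < 8 := by norm_num
      _ ≤ Real.log N := hK8
      _ = (Real.log N) ^ 1 := (pow_one _).symm
      _ ≤ (Real.log N) ^ 4 := pow_le_pow_right₀ hK1 (by norm_num)
  rw [h2] at h1
  have h4 : (N : ℝ) * (2 / (Real.log N) ^ 4) < N * 1 := mul_lt_mul_of_pos_left h3 hN0
  linarith

end Pool.Agent.Lib.RH
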