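import Pool.Agent.Lib.MP_7b7e48_nt.RG.LBM

/-!
# Module INV (75 minutes): the set `ZZ` is almost invariant under `PZ N M`

`K = log N`, `σ = sig P χ`, `J = JJ N`, `l ∈ PZ N M`. PROOF. (1) `x ∈ ZZ` and `VG (l x)` imply `l x ∈ ZZ`: choose `a ∈ RR x` (`good_card`), `DA a`, so `DA (l a)` (`Env.small`, `DA_mul`), `l a ∈ WW 1`, `l a < 4 M² J N`, and `v6` at `l x` gives `DA e` for all `e ∈ RR (l x)`.
(2) So `{x ∈ ZZ : l x ∉ ZZ} ⊆ {x ∈ ZZ : ¬ VG (l x)}`. Each such `x` has `≥ J/(2 K²)` members `a ∈ RR x`, all with `DA a`, `HQ a` (`DA_HQ`), `a ∈ WW 0`, and the class of `l a` is `l x`, not `VG`. By `badv` (`w = l`, `T = J N`) `#{x} · J/(2K²) ≤ K^22 σ J N/J = K^22 σ N`,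
so `#{x} ≤ 2 K^24 σ N/J ≤ 2 K^31 |ZZ|/J` (`lbm`). (3) `#{x ∉ ZZ : l x ∈ ZZ} = #{x ∈ ZZ : l x ∉ ZZ}` as `x ↦ l x` is a bijection: `inv_sum`.
-/

open Finset

namespace Pool.Agent.Lib.RH

open Pool.Agent.Lib.RG hiding RR sig Good

/-- if `x ∈ ZZ` and `l x` is very good then `l x ∈ ZZ` -/
theorem inv_step {P : Prm} (hP : P.Ok) {N : ℕ} [NeZero N] (hn : Num P N) {s t : ℝ}
    {χ : DirichletCharacter ℂ N} (h : Env P N s t χ) {l : ℕ} (hl : l ∈ PZ N (MM P N)) {x : ZMod N}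
    (hx : x ∈ ZZ P χ) (hv : VG P N ((l : ZMod N) * x)) : (l : ZMod N) * x ∈ ZZ P χ := by
  classical
  have hχl := h.small l hl
  unfold PZ at hl
  rw [Finset.mem_filter, Finset.mem_Ioc] at hl
  obtain ⟨⟨hl1, hl2⟩, hlp, hlN⟩ := hl
  unfold ZZ at hx
  rw [Finset.mem_filter] at hx
  obtain ⟨-, hxu, hxv, hxa⟩ := hx
  have hK : (1 : ℝ) ≤ Real.log N := le_trans (by norm_num) hn.K
  have hJ : (0 : ℝ) < JJ N := lt_of_lt_of_le one_pos ((one_le_pow₀ hK).trans hn.J1)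
  have hpos : 0 < (RR P N x).card := by
    have h1 := good_card hn hxu hxv.1
    have h2 : (0 : ℝ) < (JJ N : ℝ) / (2 * (Real.log N) ^ 2) := by positivity
    exact_mod_cast h2.trans_le h1
  obtain ⟨a, ha⟩ := Finset.card_pos.1 hpos
  have hDa := hxa a ha
  obtain ⟨ha1, ha2, ha3⟩ := mem_RR.1 ha
  have ha0 : 0 < a := by have := ha3.1; omega
  have hw : WW P N 2 (l * a) := ww_mono (by norm_num) (ww_mul_prime hlp hl1 hlN (rgh_ww hn ha3))
  have hcast : ((l * a : ℕ) : ZMod N) = (l : ZMod N) * x := by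
    rw [Nat.cast_mul, ha2]
  rw [← hcast]
  refine mem_ZZ_of hP hn h hw ?_ ((DA_mul hlp hχl ha0).2 hDa) ?_
  · calc l * a ≤ (4 * (MM P N) ^ 2) * a := Nat.mul_le_mul_right _ hl2
      _ < (8 * (MM P N) ^ 2) * (JJ N * N) := by
        apply Nat.mul_lt_mul_of_le_of_lt _ ha1
        · have hM : 1 ≤ MM P N := Nat.one_le_two_pow
          positivity
        · nlinarith
      _ = 8 * (MM P N) ^ 2 * JJ N * N := by ring
  · rw [hcast]; exact hv

open Classical in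
theorem inv_card (P : Prm) (hP : P.Ok) (N : ℕ) [NeZero N] (hn : Num P N) (ht : Tools P N) (s t : ℝ)
    (χ : DirichletCharacter ℂ N) (h : Env P N s t χ) (l : ℕ) (hl : l ∈ PZ N (MM P N)) :
    (((ZZ P χ).filter fun x => (l : ZMod N) * x ∉ ZZ P χ).card : ℝ) ≤
      (Real.log N) ^ 32 * (ZZ P χ).card / JJ N := by
  have hN : (0 : ℝ) < N := by exact_mod_cast Nat.pos_of_ne_zero (NeZero.ne N)
  have hN0 : 0 < N := Nat.pos_of_ne_zero (NeZero.ne N)
  have hJ1' := hn.J1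
  have hLB := lbm P hP N hn ht s t χ h
  have hbad := badv P hP N hn ht χ h.sq h.ne l (JJ N * N) (Or.inr hl) (by
    have hK : (1 : ℝ) ≤ Real.log N := le_trans (by norm_num) hn.K
    have hJ : 1 ≤ JJ N := by
      have h1 : (1 : ℝ) ≤ JJ N := (one_le_pow₀ hK).trans hn.J1
      exact_mod_cast h1
    nlinarith) le_rfl
  have hgc := fun (x : ZMod N) (hx : IsUnit x) (hg : Good P N x) => good_card hn hx hg
  have hK9' := hn.K
  obtain ⟨K, hKe⟩ : ∃ K : ℝ, K = Real.log N := ⟨_, rfl⟩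
  rw [← hKe] at hJ1' hLB hbad hK9' ⊢
  simp only [← hKe] at hgc
  have hK1 : (1 : ℝ) ≤ K := le_trans (by norm_num) hK9'
  have hK0 : (0 : ℝ) < K := lt_of_lt_of_le one_pos hK1
  have hJ0 : (0 : ℝ) < JJ N := lt_of_lt_of_le (pow_pos hK0 _) hJ1'
  obtain ⟨Bd, hBd⟩ : ∃ Bd : Finset ℕ, Bd = ((Finset.range (JJ N * N)).filter fun a : ℕ =>
      WW P N 2 a ∧ HQ P χ a ∧ ¬ VG P N ((l : ZMod N) * (a : ZMod N))) := ⟨_, rfl⟩
  rw [← hBd] at hbad
  obtain ⟨X, hX⟩ : ∃ X : Finset (ZMod N), X = (ZZ P χ).filter fun x => (l : ZMod N) * x ∉ ZZ P χ :=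
    ⟨_, rfl⟩
  rw [← hX]
  have hXm : ∀ x ∈ X, IsUnit x ∧ Good P N x ∧ ∀ a ∈ RR P N x, a ∈ Bd := by
    intro x hx
    rw [hX, Finset.mem_filter] at hx
    obtain ⟨hx1, hx2⟩ := hx
    have hnv : ¬ VG P N ((l : ZMod N) * x) := fun hv => hx2 (inv_step hP hn h hl hx1 hv)
    unfold ZZ at hx1
    rw [Finset.mem_filter] at hx1
    obtain ⟨-, hxu, hxv, hxa⟩ := hx1
    refine ⟨hxu, hxv.1, fun a ha => ?_⟩
    have hDa := hxa a ha
    obtain ⟨ha1, ha2, ha3⟩ := mem_RR.1 ha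
    have ha0 : 0 < a := by have := ha3.1; omega
    rw [hBd, Finset.mem_filter, Finset.mem_range]
    refine ⟨ha1, ww_mono (Nat.zero_le 2) (rgh_ww hn ha3), DA_HQ h.sq ha0 ha3.2.1 ha3.2.2 hDa, ?_⟩
    rw [ha2]; exact hnv
  have hsub : X.biUnion (fun x => RR P N x) ⊆ Bd := by
    intro a ha
    rw [Finset.mem_biUnion] at ha
    obtain ⟨x, hx, hax⟩ := ha
    exact (hXm x hx).2.2 a hax
  have hcard : (X.biUnion (fun x => RR P N x)).card = ∑ x ∈ X, (RR P N x).card := by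
    apply Finset.card_biUnion
    intro x _ y _ hxy
    rw [Function.onFun, Finset.disjoint_left]
    intro a ha ha'
    exact hxy ((mem_RR.1 ha).2.1.symm.trans (mem_RR.1 ha').2.1)
  have h1 : (X.card : ℝ) * ((JJ N : ℝ) / (2 * K ^ 2)) ≤ Bd.card := by
    calc (X.card : ℝ) * ((JJ N : ℝ) / (2 * K ^ 2)) = ∑ _x ∈ X, (JJ N : ℝ) / (2 * K ^ 2) := by
          rw [Finset.sum_const, nsmul_eq_mul]
      _ ≤ ∑ x ∈ X, ((RR P N x).card : ℝ) :=
          Finset.sum_le_sum fun x hx => hgc x (hXm x hx).1 (hXm x hx).2.1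
      _ = ((∑ x ∈ X, (RR P N x).card : ℕ) : ℝ) := by rw [Nat.cast_sum]
      _ ≤ Bd.card := by
          rw [← hcard]
          exact_mod_cast Finset.card_le_card hsub
  have h2 : (Bd.card : ℝ) ≤ K ^ 22 * (sig P χ * N) := by
    refine hbad.trans (le_of_eq ?_)
    rw [Nat.cast_mul]
    field_simp
  have h3 : sig P χ * N ≤ K ^ 7 * (ZZ P χ).card := by
    rw [div_le_iff₀ (pow_pos hK0 7)] at hLB
    linarith
  have h4 : (X.card : ℝ) * ((JJ N : ℝ) / (2 * K ^ 2)) ≤ K ^ 29 * (ZZ P χ).card := by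
    calc (X.card : ℝ) * ((JJ N : ℝ) / (2 * K ^ 2)) ≤ K ^ 22 * (sig P χ * N) := h1.trans h2
      _ ≤ K ^ 22 * (K ^ 7 * (ZZ P χ).card) := mul_le_mul_of_nonneg_left h3 (by positivity)
      _ = K ^ 29 * (ZZ P χ).card := by ring
  rw [le_div_iff₀ hJ0]
  have h5 : (X.card : ℝ) * JJ N = (2 * K ^ 2) * ((X.card : ℝ) * ((JJ N : ℝ) / (2 * K ^ 2))) := by
    field_simp
  rw [h5]
  calc (2 * K ^ 2) * ((X.card : ℝ) * ((JJ N : ℝ) / (2 * K ^ 2)))
      ≤ (2 * K ^ 2) * (K ^ 29 * (ZZ P χ).card) := mul_le_mul_of_nonneg_left h4 (by positivity)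
    _ = 2 * (K ^ 31 * (ZZ P χ).card) := by ring
    _ ≤ K * (K ^ 31 * (ZZ P χ).card) := mul_le_mul_of_nonneg_right (by linarith) (by positivity)
    _ = K ^ 32 * (ZZ P χ).card := by ring

open Classical in
theorem inv_sum (P : Prm) (hP : P.Ok) (N : ℕ) [NeZero N] (hn : Num P N) (ht : Tools P N) (s t : ℝ)
    (χ : DirichletCharacter ℂ N) (h : Env P N s t χ) (l : ℕ) (hl : l ∈ PZ N (MM P N)) :
    ∑ x : ZMod N, ((if (l : ZMod N) * x ∈ ZZ P χ then (1 : ℝ) else 0) - 1 *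
      (if x ∈ ZZ P χ then (1 : ℝ) else 0)) ^ 2 ≤ (Real.log N) ^ 33 * (ZZ P χ).card / JJ N := by
  have hI := inv_card P hP N hn ht s t χ h l hl
  have hK9 := hn.K
  have hlN : l.Coprime N := by
    unfold PZ at hl
    rw [Finset.mem_filter] at hl
    exact (Nat.Prime.coprime_iff_not_dvd hl.2.1).2 hl.2.2
  obtain ⟨f, hf⟩ : ∃ f : ZMod N → ℝ, f = fun x => if x ∈ ZZ P χ then (1 : ℝ) else 0 := ⟨_, rfl⟩
  have hff : ∀ x, f x * f x = f x := by
    intro x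
    rw [hf]
    by_cases hx : x ∈ ZZ P χ <;> simp [hx]
  have hbij : ∑ x : ZMod N, f ((l : ZMod N) * x) = ∑ x : ZMod N, f x := by
    have h1 := Equiv.sum_comp (Units.mulLeft (ZMod.unitOfCoprime l hlN)) f
    rw [← h1]
    refine Finset.sum_congr rfl fun x _ => ?_
    rw [Units.mulLeft_apply, ZMod.coe_unitOfCoprime]
  have h2 : ∑ x : ZMod N, ((if (l : ZMod N) * x ∈ ZZ P χ then (1 : ℝ) else 0) - 1 *
      (if x ∈ ZZ P χ then (1 : ℝ) else 0)) ^ 2 =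
      2 * ∑ x : ZMod N, f x * (1 - f ((l : ZMod N) * x)) := by
    have h3 : ∀ x : ZMod N, ((if (l : ZMod N) * x ∈ ZZ P χ then (1 : ℝ) else 0) - 1 *
      (if x ∈ ZZ P χ then (1 : ℝ) else 0)) ^ 2 =
        f ((l : ZMod N) * x) + f x - 2 * (f x * f ((l : ZMod N) * x)) := by
      intro x
      have e1 := hff ((l : ZMod N) * x)
      have e2 := hff x
      have e3 : (if (l : ZMod N) * x ∈ ZZ P χ then (1 : ℝ) else 0) = f ((l : ZMod N) * x) := by
        rw [hf]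
      have e4 : (if x ∈ ZZ P χ then (1 : ℝ) else 0) = f x := by rw [hf]
      rw [e3, e4]
      linear_combination e1 + e2
    rw [Finset.sum_congr rfl fun x _ => h3 x, Finset.sum_sub_distrib, Finset.sum_add_distrib, hbij,
      ← Finset.mul_sum]
    have h4 : ∀ x : ZMod N, f x * (1 - f ((l : ZMod N) * x)) = f x - f x * f ((l : ZMod N) * x) := by
      intro x; ring
    rw [Finset.sum_congr rfl fun x _ => h4 x, Finset.sum_sub_distrib]
    ring
  have h5 : ∑ x : ZMod N, f x * (1 - f ((l : ZMod N) * x)) =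
      (((ZZ P χ).filter fun x => (l : ZMod N) * x ∉ ZZ P χ).card : ℝ) := by
    rw [Finset.card_filter, Nat.cast_sum, ← Finset.sum_filter_add_sum_filter_not Finset.univ
      (fun x => x ∈ ZZ P χ)]
    have h6 : ∑ x ∈ Finset.univ.filter (fun x => ¬ x ∈ ZZ P χ), f x * (1 - f ((l : ZMod N) * x)) = 0 := by
      apply Finset.sum_eq_zero
      intro x hx
      rw [Finset.mem_filter] at hx
      rw [hf]
      simp [hx.2]
    rw [h6, add_zero]
    have h7 : Finset.univ.filter (fun x => x ∈ ZZ P χ) = ZZ P χ := by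
      ext x; simp
    rw [h7]
    refine Finset.sum_congr rfl fun x hx => ?_
    rw [hf]
    by_cases h8 : (l : ZMod N) * x ∈ ZZ P χ <;> simp [hx, h8]
  rw [h2, h5]
  have hK1 : (1 : ℝ) ≤ Real.log N := le_trans (by norm_num) hK9
  have hJ0 : (0 : ℝ) < JJ N := lt_of_lt_of_le (pow_pos (by linarith) _) hn.J1
  calc 2 * (((ZZ P χ).filter fun x => (l : ZMod N) * x ∉ ZZ P χ).card : ℝ)
      ≤ Real.log N * ((Real.log N) ^ 32 * (ZZ P χ).card / JJ N) := by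
        apply mul_le_mul (by linarith) hI (Nat.cast_nonneg _) (by linarith)
    _ = (Real.log N) ^ 33 * (ZZ P χ).card / JJ N := by ring

end Pool.Agent.Lib.RH
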