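import Pool.Agent.Lib.MP_7b7e48_nt.RG.BAS

/-!
# Module PICK (60 minutes): coprime members of a class

`K = log N`. PROOF of `share`. Let `a ∈ RR x` be not coprime to `b`: a prime `p` divides both, `p > zz` since `a` is rough. `b` has at most `log b / log zz ≤ 5 K / ((c/2) K) = 10/c ≤ K` prime factors
`> zz` (`Num.z3`, `Num.Kc`; their product divides `b`). For given `p` (not dividing `N`, as `p ∣ b`) there is at most one `a < J N` with `a ≡ x mod N`, `p ∣ a`: two such numbers differ by a multiple of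
`N` and of `p`, hence of `p N > J N` (`J ≤ zz < p`, `JJ_le_zz`). `pick`: `(RR x).card / 2 ≥ J/(4 K²) > K` (`good_card`, `J ≥ K^1000`).
-/

open Finset
open Pool.Agent.Lib.MP_45349e_nt.LS (lam)

namespace Pool.Agent.Lib.RH

open Pool.Agent.Lib.RG hiding RR sig Good

variable {P : Prm} {N : ℕ}

open Classical in
private theorem big_card (hP : P.Ok) (hn : Num P N) {b : ℕ} (hb : 0 < b) (hb5 : b ≤ N ^ 5) :
    ((b.primeFactors.filter fun p => zz P N < p).card : ℝ) ≤ Real.log N := by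
  have hK := hn.K
  have hKpos : 0 < Real.log N := lt_of_lt_of_le (by norm_num) hK
  have hc := hP.c0
  have hz3 := hn.z3
  have hz0 : 0 < Real.log (zz P N) := lt_of_lt_of_le (by positivity) hz3
  have hzpos : (0 : ℝ) < (zz P N : ℝ) := by
    rcases Nat.eq_zero_or_pos (zz P N) with h0 | h0
    · rw [h0] at hz0; simp at hz0
    · exact_mod_cast h0
  set S := b.primeFactors.filter fun p => zz P N < p with hS
  have h1 : (S.card : ℝ) * Real.log (zz P N) ≤ Real.log b := by
    have h2 : ∏ p ∈ S, p ∣ b :=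
      (Finset.prod_dvd_prod_of_subset _ _ _ (Finset.filter_subset _ _)).trans
        (Nat.prod_primeFactors_dvd b)
    have h3 : ∏ p ∈ S, p ≤ b := Nat.le_of_dvd hb h2
    have h4 : (∏ p ∈ S, (p : ℝ)) ≤ b := by
      have h4' : ((∏ p ∈ S, p : ℕ) : ℝ) ≤ (b : ℝ) := Nat.cast_le.mpr h3
      rwa [Nat.cast_prod] at h4'
    have h5 : ∀ p ∈ S, (0 : ℝ) < (p : ℝ) := by
      intro p hp
      rw [hS, mem_filter] at hp
      exact_mod_cast lt_of_le_of_lt (Nat.zero_le _) hp.2
    have h6 : Real.log (∏ p ∈ S, (p : ℝ)) = ∑ p ∈ S, Real.log p :=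
      Real.log_prod (fun p hp => (h5 p hp).ne')
    have h7 : (S.card : ℝ) * Real.log (zz P N) ≤ ∑ p ∈ S, Real.log p := by
      rw [← nsmul_eq_mul]
      refine Finset.card_nsmul_le_sum _ _ _ ?_
      intro p hp
      refine Real.log_le_log hzpos ?_
      rw [hS, mem_filter] at hp
      exact_mod_cast hp.2.le
    rw [← h6] at h7
    exact h7.trans (Real.log_le_log (Finset.prod_pos h5) h4)
  have h2 : Real.log b ≤ 5 * Real.log N := by
    have h3 : (b : ℝ) ≤ (N : ℝ) ^ 5 := by exact_mod_cast hb5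
    have h4 := Real.log_le_log (by exact_mod_cast hb) h3
    rw [Real.log_pow] at h4
    exact_mod_cast h4
  have h3 : (S.card : ℝ) * ((P.c / 2) * Real.log N) ≤ 5 * Real.log N :=
    (mul_le_mul_of_nonneg_left hz3 (Nat.cast_nonneg _)).trans (h1.trans h2)
  have h4 : (S.card : ℝ) * P.c ≤ 10 := by
    have : ((S.card : ℝ) * P.c) * Real.log N ≤ 10 * Real.log N := by nlinarith
    exact le_of_mul_le_mul_right this hKpos
  have h5 : (S.card : ℝ) ≤ 10 / P.c := by
    rw [le_div_iff₀ hc]; exact h4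
  have h6 : 10 / P.c ≤ 100 / P.c := by
    rw [div_le_div_iff_of_pos_right hc]; norm_num
  exact h5.trans (h6.trans hn.Kc)

open Classical in
theorem share (hP : P.Ok) (hn : Num P N) {x : ZMod N} {b : ℕ} (hb : 0 < b) (hbN : b.Coprime N)
    (hb5 : b ≤ N ^ 5) : (((RR P N x).filter fun a => ¬ a.Coprime b).card : ℝ) ≤ Real.log N := by
  refine le_trans ?_ (big_card hP hn hb hb5)
  have hN2 : 2 ≤ N := N_pos hn
  have hJz : JJ N ≤ zz P N := JJ_le_zz hn
  have hex : ∀ a ∈ (RR P N x).filter (fun a => ¬ a.Coprime b), ∃ p : ℕ,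
      p ∈ b.primeFactors.filter (fun p => zz P N < p) ∧ p ∣ a ∧ p.Prime ∧ ¬ p ∣ N := by
    intro a ha
    rw [mem_filter, mem_RR] at ha
    obtain ⟨⟨ha1, ha2, ha3⟩, ha4⟩ := ha
    obtain ⟨p, hp, hpa, hpb⟩ := Nat.Prime.not_coprime_iff_dvd.mp ha4
    refine ⟨p, ?_, hpa, hp, ?_⟩
    · rw [mem_filter, Nat.mem_primeFactors]
      exact ⟨⟨hp, hpb, hb.ne'⟩, ha3.2.2 p hp hpa⟩
    · intro hpN
      have := Nat.dvd_gcd hpb hpN
      rw [hbN] at this
      exact hp.one_lt.ne' (Nat.dvd_one.mp this)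
  choose! F hF using hex
  have hcard := Finset.card_le_card_of_injOn F (s := (RR P N x).filter (fun a => ¬ a.Coprime b))
    (t := b.primeFactors.filter (fun p => zz P N < p)) (fun a ha => (hF a ha).1) ?_
  · exact_mod_cast hcard
  · intro a ha a' ha' hEq
    have ha0 : a ∈ (RR P N x).filter (fun a => ¬ a.Coprime b) := ha
    have ha0' : a' ∈ (RR P N x).filter (fun a => ¬ a.Coprime b) := ha'
    obtain ⟨h1, h2, h3, h4⟩ := hF a ha0
    obtain ⟨h1', h2', h3', h4'⟩ := hF a' ha0'
    rw [mem_filter, mem_RR] at ha0 ha0'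
    have hEq' : F a = F a' := hEq
    rw [← hEq'] at h2'
    set p := F a with hpdef
    have hpz : zz P N < p := by
      rw [mem_filter] at h1; exact h1.2
    have hmodN : a ≡ a' [MOD N] := by
      rw [← ZMod.natCast_eq_natCast_iff]
      rw [ha0.1.2.1, ha0'.1.2.1]
    have hmodp : a ≡ a' [MOD p] := by
      have e1 : a ≡ 0 [MOD p] := (Nat.modEq_zero_iff_dvd).mpr h2
      have e2 : a' ≡ 0 [MOD p] := (Nat.modEq_zero_iff_dvd).mpr h2'
      exact e1.trans e2.symm
    have hcop : Nat.Coprime N p := ((Nat.Prime.coprime_iff_not_dvd h3).mpr h4).symm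
    have hmod : a ≡ a' [MOD N * p] := (Nat.modEq_and_modEq_iff_modEq_mul hcop).mp ⟨hmodN, hmodp⟩
    have hlt : JJ N * N < N * p := by
      have : JJ N < p := lt_of_le_of_lt hJz hpz
      nlinarith
    exact Nat.ModEq.eq_of_lt_of_lt hmod (ha0.1.1.trans hlt) (ha0'.1.1.trans hlt)

private theorem J_big (hn : Num P N) : Real.log N < (JJ N : ℝ) / (4 * (Real.log N) ^ 2) := by
  have hK := hn.K
  have hKpos : 0 < Real.log N := lt_of_lt_of_le (by norm_num) hK
  have hK1 : (1 : ℝ) ≤ Real.log N := le_trans (by norm_num) hK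
  rw [lt_div_iff₀ (by positivity)]
  refine lt_of_lt_of_le ?_ hn.J1
  have h4 : (Real.log N) ^ 4 ≤ (Real.log N) ^ 1000 := pow_le_pow_right₀ hK1 (by norm_num)
  have h5 : 4 < Real.log N := lt_of_lt_of_le (by norm_num) hK
  have h6 : (0 : ℝ) < (Real.log N) ^ 3 := by positivity
  nlinarith

theorem pick (hP : P.Ok) (hn : Num P N) {x : ZMod N} (hx : IsUnit x) (hg : Good P N x) {b : ℕ}
    (hb : 0 < b) (hbN : b.Coprime N) (hb5 : b ≤ N ^ 5) {e : ℝ}
    (he : (RR P N x).card ≤ 2 * ((RR P N x).filter fun a => lam a = e).card) :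
    ∃ a ∈ RR P N x, lam a = e ∧ a.Coprime b := by
  classical
  by_contra hcon
  push Not at hcon
  have hsub : ((RR P N x).filter fun a => lam a = e) ⊆
      ((RR P N x).filter fun a => ¬ a.Coprime b) := by
    intro a ha
    rw [mem_filter] at ha ⊢
    exact ⟨ha.1, hcon a ha.1 ha.2⟩
  have h1 : (((RR P N x).filter fun a => lam a = e).card : ℝ) ≤
      (((RR P N x).filter fun a => ¬ a.Coprime b).card : ℝ) := by
    exact_mod_cast Finset.card_le_card hsub
  have h2 := share hP hn (x := x) hb hbN hb5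
  have h3 := good_card hn hx hg
  have h4 : ((RR P N x).card : ℝ) ≤ 2 * (((RR P N x).filter fun a => lam a = e).card : ℝ) := by
    have : ((RR P N x).card : ℝ) ≤ ((2 * ((RR P N x).filter fun a => lam a = e).card : ℕ) : ℝ) := by
      exact_mod_cast he
    push_cast at this
    convert this
  have h5 := J_big hn
  have hKpos : 0 < Real.log N := lt_of_lt_of_le (by norm_num) hn.K
  have h6 : (JJ N : ℝ) / (2 * (Real.log N) ^ 2) = 2 * ((JJ N : ℝ) / (4 * (Real.log N) ^ 2)) := by
    field_simp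
    ring
  rw [h6] at h3
  linarith

theorem pick0 (hP : P.Ok) (hn : Num P N) {x : ZMod N} (hx : IsUnit x) (hg : Good P N x) {b : ℕ}
    (hb : 0 < b) (hbN : b.Coprime N) (hb5 : b ≤ N ^ 5) : ∃ a ∈ RR P N x, a.Coprime b := by
  classical
  by_contra hcon
  push Not at hcon
  have hsub : RR P N x ⊆ ((RR P N x).filter fun a => ¬ a.Coprime b) := by
    intro a ha
    rw [mem_filter]
    exact ⟨ha, hcon a ha⟩
  have h1 : ((RR P N x).card : ℝ) ≤
      (((RR P N x).filter fun a => ¬ a.Coprime b).card : ℝ) := by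
    exact_mod_cast Finset.card_le_card hsub
  have h2 := share hP hn (x := x) hb hbN hb5
  have h3 := good_card hn hx hg
  have h5 := J_big hn
  have hKpos : 0 < Real.log N := lt_of_lt_of_le (by norm_num) hn.K
  have h6 : (JJ N : ℝ) / (2 * (Real.log N) ^ 2) = 2 * ((JJ N : ℝ) / (4 * (Real.log N) ^ 2)) := by
    field_simp
    ring
  rw [h6] at h3
  have h7 : (0 : ℝ) ≤ (JJ N : ℝ) / (4 * (Real.log N) ^ 2) := by positivity
  linarith

end Pool.Agent.Lib.RH
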