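import Pool.Agent.Lib.MP_7b7e48_nt.RG.V5
import Pool.Agent.Lib.MP_7b7e48_nt.RG.PICK

/-!
# Module V6 (120 minutes): in a very good class `DA` is constant on the numbers of `W_2`

All pairs below are coprime, in `WW 4`, their sum is `0` modulo `N` and `≤ 40 M³ J N ≤ KB N`; `v5_rule` is applied (R). Members of `RR y` are rough: not divisible by `l, l' ≤ 2M ≤ zz`. `pick0` gives members of `RR y` (`y` good) coprime to a given number `≤ N^5`.
`lam b = -χ b` if `DA b` (both `±1`), `DA (l b) ↔ DA b` and `lam (l b) = -lam b` for `l ∈ PZ` (`Env.small`). PROOF.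
CASE `s ≠ t`: `d ∈ RR (-x)` coprime to `a e`: `DA a ↔ DA d ↔ DA e`.
CASE `s = t`: `χ (-1) = -1`. Choose `l ≠ l'` in `block N M` with `l x, -l x, l' x, -l' x` good (three quarters of the block, which has at least 8 elements by `Num.bl`).
 (A) `χ x = s`, so `lam a = -s`. `b1 ∈ RR (-(l x))` coprime to `a`: (R) for `l a` (`lam = s`) and `b1`: `DA b1`; `χ b1 = s` (`χ(-1) χ(l) χ(x)`), so `lam b1 = -s`. `c ∈ RR (l' x)` coprime to `b1`: (R) for `l' b1` (`lam = s`) and `l c`: `DA c`; `χ c = -s`, `lam c = s`.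
   `d ∈ RR (-x)` coprime to `c e`: (R) for `c` (`lam = s`) and `l' d`: `DA d`; `χ d = -s`, `lam d = s`. (R) for `d` and `e`: `DA e`.
 (B) `χ x = -s`, so `lam a = s`. `d ∈ RR (-x)` coprime to `a`: (R) for `a` and `d`: `DA d`; `χ d = s`, `lam d = -s`. `c ∈ RR (l' x)` coprime to `d`: (R) for `l' d` (`lam = s`) and `c`: `DA c`; `χ c = s`, `lam c = -s`.
   `b3 ∈ RR (-(l x))` coprime to `c e`: (R) for `l c` (`lam = s`) and `l' b3`: `DA b3`; `χ b3 = -s`, `lam b3 = s`. (R) for `b3` and `l e`: `DA (l e)`, so `DA e`.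
(`l a ∈ WW 3` also if `l ∣ a`; `l a` and `b1` are coprime since `l ∤ b1`.)
-/

open Finset
open Pool.Agent.Lib.MP_45349e_nt.LS (lam)

namespace Pool.Agent.Lib.RH

open Pool.Agent.Lib.RG hiding RR sig Good

theorem V6_lam {N : ℕ} {χ : DirichletCharacter ℂ N} {b : ℕ} (hD : DA χ b) {σ : ℝ}
    (hσ : σ = 1 ∨ σ = -1) (hb : χ (b : ZMod N) = ((σ : ℝ) : ℂ)) : lam b = -σ := by
  have h1 : lam b ≠ σ := fun h => hD (by rw [h, hb])
  rcases lam_pm b with h | h <;> rcases hσ with h' | h'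
  · exact absurd (h.trans h'.symm) h1
  · rw [h, h']; norm_num
  · rw [h, h']
  · exact absurd (h.trans h'.symm) h1

/-- two different primes of the block with good classes -/
theorem V6_two (P : Prm) (hP : P.Ok) (N : ℕ) (hn : Num P N) (x : ZMod N) (hv : VG P N x) :
    ∃ l ∈ block N (MM P N), ∃ l' ∈ block N (MM P N), l ≠ l' ∧
      Good P N ((l : ZMod N) * x) ∧ Good P N (-((l : ZMod N) * x)) ∧
      Good P N ((l' : ZMod N) * x) ∧ Good P N (-((l' : ZMod N) * x)) := by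
  classical
  have hK := hn.K
  have hK1 : (1 : ℝ) ≤ Real.log N := by linarith
  have hK0 : (0 : ℝ) < Real.log N := by linarith
  have hM1 := hn.M1
  have h3 : (Real.log N) ^ 3 ≤ MM P N :=
    (pow_le_pow_right₀ hK1 (by have := hP.C1; omega)).trans hM1
  have hzN : zz P N ≤ N := by
    have h1 := hn.z1
    have hN1 : (1 : ℝ) ≤ N := by
      have := N_pos hn
      exact_mod_cast (by omega : 1 ≤ N)
    have h2 : (N : ℝ) ^ P.c ≤ (N : ℝ) ^ (1 : ℝ) := by
      apply Real.rpow_le_rpow_of_exponent_le hN1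
      have := hP.c1
      have := hP.kap1
      linarith
    rw [Real.rpow_one] at h2
    exact_mod_cast h1.trans h2
  have hMN : MM P N ≤ N := (MM_lt_zz hn).le.trans hzN
  have hbl := hn.bl (MM P N) h3 hMN
  have h10 : (Real.log N) ^ 10 ≤ MM P N :=
    (pow_le_pow_right₀ hK1 hP.C1).trans hM1
  have hcard : 8 ≤ (block N (MM P N)).card := by
    have h5 : (8 : ℝ) ≤ (MM P N : ℝ) / (4 * Real.log N) := by
      rw [le_div_iff₀ (by linarith)]
      have h6 : (Real.log N) ^ 10 = (Real.log N) ^ 8 * Real.log N * Real.log N := by ring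
      have h7 : (1 : ℝ) ≤ (Real.log N) ^ 8 := one_le_pow₀ hK1
      have h8 : (32 : ℝ) * Real.log N ≤ (Real.log N) ^ 10 := by
        rw [h6]
        have h9 : (32 : ℝ) ≤ (Real.log N) ^ 8 * Real.log N := by nlinarith
        exact mul_le_mul_of_nonneg_right h9 hK0.le
      linarith
    exact_mod_cast h5.trans hbl
  set Bd : Finset ℕ := (block N (MM P N)).filter fun l : ℕ => ¬ Good P N ((l : ZMod N) * x) ∨
    ¬ Good P N (-((l : ZMod N) * x)) with hBd
  have hbad : 4 * Bd.card ≤ (block N (MM P N)).card := by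
    have := hv.2.2
    rw [hBd]
    exact this
  have hgood : 1 < (block N (MM P N) \ Bd).card := by
    have h1 := card_sdiff_add_card_inter (block N (MM P N)) Bd
    have h2 : (block N (MM P N) ∩ Bd).card ≤ Bd.card := card_le_card inter_subset_right
    omega
  obtain ⟨l, hl, l', hl', hne⟩ := one_lt_card.mp hgood
  have hg : ∀ l ∈ block N (MM P N) \ Bd, l ∈ block N (MM P N) ∧ Good P N ((l : ZMod N) * x) ∧
      Good P N (-((l : ZMod N) * x)) := by
    intro l hl
    obtain ⟨h1, h2⟩ := mem_sdiff.mp hl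
    refine ⟨h1, ?_⟩
    rw [hBd, mem_filter, not_and] at h2
    have h3 := h2 h1
    push Not at h3
    exact h3
  exact ⟨l, (hg l hl).1, l', (hg l' hl').1, hne, (hg l hl).2.1, (hg l hl).2.2, (hg l' hl').2.1,
    (hg l' hl').2.2⟩

theorem v6 (P : Prm) (hP : P.Ok) (N : ℕ) [NeZero N] (hn : Num P N) (s t : ℝ)
    (χ : DirichletCharacter ℂ N) (h : Env P N s t χ) (x : ZMod N) (hx : IsUnit x) (hv : VG P N x)
    (a e : ℕ) (ha : WW P N 2 a) (he : WW P N 2 e) (hax : (a : ZMod N) = x) (hex : (e : ZMod N) = x)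
    (ha2 : a < 8 * (MM P N) ^ 2 * JJ N * N) (he2 : e < 8 * (MM P N) ^ 2 * JJ N * N) (hD : DA χ a) :
    DA χ e := by
  have hM1 : 1 ≤ MM P N := Nat.one_le_two_pow
  have hMz := MM_le_zz hn
  have hJz := JJ_le_zz hn
  have hN2 := N_pos hn
  have hN1r : (1 : ℝ) ≤ N := by exact_mod_cast (by omega : 1 ≤ N)
  -- `zz ^ 2 ≤ N`
  have hz2 : zz P N ^ 2 ≤ N := by
    have h1 := hn.z1
    have h2 : (N : ℝ) ^ P.c ≤ (N : ℝ) ^ (1 / 2 : ℝ) := by
      apply Real.rpow_le_rpow_of_exponent_le hN1r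
      have := hP.c1
      have := hP.kap1
      linarith
    have h3 : (zz P N : ℝ) ^ 2 ≤ ((N : ℝ) ^ (1 / 2 : ℝ)) ^ 2 :=
      pow_le_pow_left₀ (by positivity) (h1.trans h2) 2
    have h4 : ((N : ℝ) ^ (1 / 2 : ℝ)) ^ 2 = N := by
      rw [← Real.rpow_natCast, ← Real.rpow_mul (by positivity)]
      norm_num
    rw [h4] at h3
    exact_mod_cast h3
  have hM2z : 8 * MM P N ^ 2 ≤ zz P N := by
    have h1 : MM P N ^ 2 ≤ MM P N ^ 4 := Nat.pow_le_pow_right hM1 (by norm_num)
    omega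
  have h2Mz : 2 * MM P N ≤ zz P N := by
    have h1 : MM P N ≤ MM P N ^ 2 := Nat.le_self_pow (by norm_num) _
    omega
  have hJN : JJ N * N ≤ N ^ 2 := by
    have h1 : JJ N ≤ N := hJz.trans ((Nat.le_self_pow (by norm_num) _).trans hz2)
    calc JJ N * N ≤ N * N := Nat.mul_le_mul_right _ h1
      _ = N ^ 2 := by ring
  have hsz : 8 * MM P N ^ 2 * JJ N * N ≤ N ^ 2 := by
    calc 8 * MM P N ^ 2 * JJ N * N ≤ zz P N * zz P N * N :=
          Nat.mul_le_mul_right _ (Nat.mul_le_mul hM2z hJz)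
      _ = zz P N ^ 2 * N := by ring
      _ ≤ N * N := Nat.mul_le_mul_right _ hz2
      _ = N ^ 2 := by ring
  -- sizes in terms of `X = M^3 J N`
  obtain ⟨X, hX⟩ : ∃ X : ℕ, X = MM P N ^ 3 * (JJ N * N) := ⟨_, rfl⟩
  have hXsmall : ∀ d : ℕ, d < JJ N * N → d ≤ X := by
    intro d hd
    rw [hX]
    have : JJ N * N ≤ MM P N ^ 3 * (JJ N * N) := Nat.le_mul_of_pos_left _ (by positivity)
    omega
  have hXl : ∀ l d : ℕ, l ≤ 2 * MM P N → d < JJ N * N → l * d ≤ 2 * X := by
    intro l d hl hd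
    calc l * d ≤ (2 * MM P N) * (JJ N * N) := Nat.mul_le_mul hl hd.le
      _ ≤ (2 * MM P N ^ 3) * (JJ N * N) :=
          Nat.mul_le_mul_right _ (Nat.mul_le_mul_left _ (Nat.le_self_pow (by norm_num) _))
      _ = 2 * X := by rw [hX]; ring
  have hXa : ∀ d : ℕ, d < 8 * MM P N ^ 2 * JJ N * N → d ≤ 8 * X := by
    intro d hd
    refine hd.le.trans ?_
    calc 8 * MM P N ^ 2 * JJ N * N = 8 * MM P N ^ 2 * (JJ N * N) := by ring
      _ ≤ 8 * MM P N ^ 3 * (JJ N * N) :=
          Nat.mul_le_mul_right _ (Nat.mul_le_mul_left _ (Nat.pow_le_pow_right hM1 (by norm_num)))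
      _ = 8 * X := by rw [hX]; ring
  have hXla : ∀ l d : ℕ, l ≤ 2 * MM P N → d < 8 * MM P N ^ 2 * JJ N * N → l * d ≤ 16 * X := by
    intro l d hl hd
    calc l * d ≤ (2 * MM P N) * (8 * MM P N ^ 2 * JJ N * N) := Nat.mul_le_mul hl hd.le
      _ = 16 * X := by rw [hX]; ring
  have hXK : 40 * X ≤ KB P N * N := by
    unfold KB
    calc 40 * X = 40 * MM P N ^ 3 * (JJ N * N) := by rw [hX]; ring
      _ ≤ 100 * MM P N ^ 8 * (JJ N * N) :=
          Nat.mul_le_mul_right _ (Nat.mul_le_mul (by norm_num) (Nat.pow_le_pow_right hM1 (by norm_num)))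
      _ = 100 * MM P N ^ 8 * JJ N * N := by ring
  -- the rule
  have R : ∀ a' b' : ℕ, WW P N 4 a' → WW P N 4 b' → a'.Coprime b' →
      (a' : ZMod N) + (b' : ZMod N) = 0 → a' + b' ≤ 40 * X →
      (s ≠ t ∨ lam a' = s ∨ lam b' = s) → (DA χ a' ↔ DA χ b') :=
    fun a' b' h1 h2 h3 h4 h5 h6 => v5_rule P N s t χ h a' b' h1 h2 h3 h4 (h5.trans hXK) h6
  have pk : ∀ y : ZMod N, IsUnit y → Good P N y → ∀ b : ℕ, 0 < b → b.Coprime N → b ≤ N ^ 4 →
      ∃ d : ℕ, d < JJ N * N ∧ (d : ZMod N) = y ∧ Rgh P N d ∧ d.Coprime b := by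
    intro y hy hg b h0 h1 h2
    obtain ⟨d, hd, hdb⟩ := pick0 hP hn hy hg h0 h1
      (h2.trans (Nat.pow_le_pow_right (by omega) (by norm_num)))
    exact ⟨d, (mem_RR.mp hd).1, (mem_RR.mp hd).2.1, (mem_RR.mp hd).2.2, hdb⟩
  have ha0 : 0 < a := by have := ha.1; omega
  have he0 : 0 < e := by have := he.1; omega
  have ha4 := ww_mono (by norm_num : 2 ≤ 4) ha
  have he4 := ww_mono (by norm_num : 2 ≤ 4) he
  have w4 : ∀ d : ℕ, Rgh P N d → WW P N 4 d := fun d hd => ww_mono (by norm_num) (rgh_ww hn hd)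
  have haN : a ≤ N ^ 2 := ha2.le.trans hsz
  have heN : e ≤ N ^ 2 := he2.le.trans hsz
  have hN24 : N ^ 2 ≤ N ^ 4 := Nat.pow_le_pow_right (by omega) (by norm_num)
  have hmulN : ∀ u v : ℕ, u ≤ N ^ 2 → v ≤ N ^ 2 → u * v ≤ N ^ 4 := by
    intro u v hu hv'
    calc u * v ≤ N ^ 2 * N ^ 2 := Nat.mul_le_mul hu hv'
      _ = N ^ 4 := by ring
  have hnx : IsUnit (-x) := hx.neg
  by_cases hst : s = t
  · -- the case `s = t`
    have hs := h.hs
    have hneg : χ (-1) = -1 := by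
      rw [h.neg, ← hst]
      rcases hs with h1 | h1 <;> rw [h1] <;> norm_num
    obtain ⟨l, hl, l', hl', hne, gl, gnl, gl', gnl'⟩ := V6_two P hP N hn x hv
    obtain ⟨hlM, hl2, hlp, hlN⟩ := mem_block.mp hl
    obtain ⟨hlM', hl2', hlp', hlN'⟩ := mem_block.mp hl'
    have h4M : 2 * MM P N ≤ 4 * MM P N ^ 2 := by
      have h1 : MM P N ≤ MM P N ^ 2 := Nat.le_self_pow (by norm_num) _
      omega
    have hχl : χ (l : ZMod N) = -1 := h.small l (mem_PZ.mpr ⟨hlM, hl2.trans h4M, hlp, hlN⟩)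
    have hχl' : χ (l' : ZMod N) = -1 := h.small l' (mem_PZ.mpr ⟨hlM', hl2'.trans h4M, hlp', hlN'⟩)
    have hlu : IsUnit (l : ZMod N) := unit_of_coprime ((Nat.Prime.coprime_iff_not_dvd hlp).mpr hlN)
    have hlu' : IsUnit (l' : ZMod N) := unit_of_coprime ((Nat.Prime.coprime_iff_not_dvd hlp').mpr hlN')
    have ndl : ∀ d : ℕ, Rgh P N d → l.Coprime d := by
      intro d hd
      rw [Nat.Prime.coprime_iff_not_dvd hlp]
      intro hdv
      have := hd.2.2 l hlp hdv
      omega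
    have ndl' : ∀ d : ℕ, Rgh P N d → l'.Coprime d := by
      intro d hd
      rw [Nat.Prime.coprime_iff_not_dvd hlp']
      intro hdv
      have := hd.2.2 l' hlp' hdv
      omega
    have hll : l.Coprime l' := (Nat.coprime_primes hlp hlp').mpr hne
    have wl : ∀ (r d : ℕ), r + 1 ≤ 4 → WW P N r d → WW P N 4 (l * d) := fun r d hr hd =>
      ww_mono hr (ww_mul_prime hlp hlM hlN hd)
    have wl' : ∀ (r d : ℕ), r + 1 ≤ 4 → WW P N r d → WW P N 4 (l' * d) := fun r d hr hd =>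
      ww_mono hr (ww_mul_prime hlp' hlM' hlN' hd)
    have w0 : ∀ d : ℕ, Rgh P N d → 0 < d := fun d hd => by have := hd.1; omega
    have Dl : ∀ d : ℕ, 0 < d → (DA χ (l * d) ↔ DA χ d) := fun d hd => DA_mul hlp hχl hd
    have Dl' : ∀ d : ℕ, 0 < d → (DA χ (l' * d) ↔ DA χ d) := fun d hd => DA_mul hlp' hχl' hd
    -- values of `χ`
    have cneg : ∀ y : ZMod N, χ (-y) = -χ y := by
      intro y
      rw [← neg_one_mul, map_mul, hneg, neg_one_mul]
    have cl : ∀ y : ZMod N, χ ((l : ZMod N) * y) = -χ y := by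
      intro y
      rw [map_mul, hχl, neg_one_mul]
    have cl' : ∀ y : ZMod N, χ ((l' : ZMod N) * y) = -χ y := by
      intro y
      rw [map_mul, hχl', neg_one_mul]
    have hns : -s = 1 ∨ -s = -1 := by
      rcases hs with h1 | h1
      · right; rw [h1]
      · left; rw [h1]; norm_num
    have hxs : χ x = ((s : ℝ) : ℂ) ∨ χ x = ((-s : ℝ) : ℂ) := by
      rcases chi_pm h.sq hx with h1 | h1 <;> rcases hs with h2 | h2
      · left; rw [h1, h2]; norm_num
      · right; rw [h1, h2]; norm_num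
      · right; rw [h1, h2]; norm_num
      · left; rw [h1, h2]; norm_num
    rcases hxs with hxs | hxs
    · -- (A)
      have la : lam a = -s := V6_lam hD hs (by rw [hax, hxs])
      obtain ⟨b1, hb1, hb1x, hb1r, hb1a⟩ := pk (-((l : ZMod N) * x)) (hlu.mul hx).neg gnl a ha0 ha.2.1
        (haN.trans hN24)
      have r1 : DA χ (l * a) ↔ DA χ b1 := by
        refine R (l * a) b1 (wl 2 a (by norm_num) ha) (w4 b1 hb1r) ?_ ?_ ?_ (Or.inr (Or.inl ?_))
        · exact Nat.coprime_mul_iff_left.mpr ⟨ndl b1 hb1r, hb1a.symm⟩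
        · rw [Nat.cast_mul, hax, hb1x]; ring
        · have := hXla l a hl2 ha2
          have := hXsmall b1 hb1
          omega
        · rw [lam_mul_prime hlp ha0, la, neg_neg]
      have D1 : DA χ b1 := r1.mp ((Dl a ha0).mpr hD)
      have l1 : lam b1 = -s := V6_lam D1 hs (by rw [hb1x, cneg, cl, neg_neg, hxs])
      obtain ⟨c, hc, hcx, hcr, hcb⟩ := pk ((l' : ZMod N) * x) (hlu'.mul hx) gl' b1 (w0 b1 hb1r)
        hb1r.2.1 ((hb1.le.trans hJN).trans hN24)
      have r2 : DA χ (l' * b1) ↔ DA χ (l * c) := by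
        refine R (l' * b1) (l * c) (wl' 0 b1 (by norm_num) (rgh_ww hn hb1r))
          (wl 0 c (by norm_num) (rgh_ww hn hcr)) ?_ ?_ ?_ (Or.inr (Or.inl ?_))
        · rw [Nat.coprime_mul_iff_left, Nat.coprime_mul_iff_right, Nat.coprime_mul_iff_right]
          exact ⟨⟨hll.symm, ndl' c hcr⟩, (ndl b1 hb1r).symm, hcb.symm⟩
        · rw [Nat.cast_mul, Nat.cast_mul, hb1x, hcx]; ring
        · have := hXl l' b1 hl2' hb1
          have := hXl l c hl2 hc
          omega
        · rw [lam_mul_prime hlp' (w0 b1 hb1r), l1, neg_neg]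
      have D2 : DA χ c := (Dl c (w0 c hcr)).mp (r2.mp ((Dl' b1 (w0 b1 hb1r)).mpr D1))
      have l2 : lam c = s := by
        have := V6_lam D2 hns (by rw [hcx, cl', hxs]; push_cast; rfl)
        rw [this, neg_neg]
      obtain ⟨d, hd, hdx, hdr, hdc⟩ := pk (-x) hnx hv.2.1 (c * e) (Nat.mul_pos (w0 c hcr) he0)
        (Nat.coprime_mul_iff_left.mpr ⟨hcr.2.1, he.2.1⟩) (hmulN c e (hc.le.trans hJN) heN)
      obtain ⟨hdc1, hde⟩ := Nat.coprime_mul_iff_right.mp hdc
      have r3 : DA χ c ↔ DA χ (l' * d) := by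
        refine R c (l' * d) (w4 c hcr) (wl' 0 d (by norm_num) (rgh_ww hn hdr)) ?_ ?_ ?_
          (Or.inr (Or.inl l2))
        · rw [Nat.coprime_mul_iff_right]
          exact ⟨(ndl' c hcr).symm, hdc1.symm⟩
        · rw [Nat.cast_mul, hcx, hdx]; ring
        · have := hXl l' d hl2' hd
          have := hXsmall c hc
          omega
      have D3 : DA χ d := (Dl' d (w0 d hdr)).mp (r3.mp D2)
      have l3 : lam d = s := by
        have := V6_lam D3 hns (by rw [hdx, cneg, hxs]; push_cast; rfl)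
        rw [this, neg_neg]
      have r4 : DA χ d ↔ DA χ e := by
        refine R d e (w4 d hdr) he4 hde ?_ ?_ (Or.inr (Or.inl l3))
        · rw [hdx, hex]; ring
        · have := hXa e he2
          have := hXsmall d hd
          omega
      exact r4.mp D3
    · -- (B)
      have la : lam a = s := by
        have := V6_lam hD hns (by rw [hax, hxs])
        rw [this, neg_neg]
      obtain ⟨d, hd, hdx, hdr, hda⟩ := pk (-x) hnx hv.2.1 a ha0 ha.2.1 (haN.trans hN24)
      have r1 : DA χ a ↔ DA χ d := by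
        refine R a d ha4 (w4 d hdr) hda.symm ?_ ?_ (Or.inr (Or.inl la))
        · rw [hax, hdx]; ring
        · have := hXa a ha2
          have := hXsmall d hd
          omega
      have D1 : DA χ d := r1.mp hD
      have l1 : lam d = -s := V6_lam D1 hs (by rw [hdx, cneg, hxs]; push_cast; rw [neg_neg])
      obtain ⟨c, hc, hcx, hcr, hcd⟩ := pk ((l' : ZMod N) * x) (hlu'.mul hx) gl' d (w0 d hdr)
        hdr.2.1 ((hd.le.trans hJN).trans hN24)
      have r2 : DA χ (l' * d) ↔ DA χ c := by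
        refine R (l' * d) c (wl' 0 d (by norm_num) (rgh_ww hn hdr)) (w4 c hcr) ?_ ?_ ?_
          (Or.inr (Or.inl ?_))
        · rw [Nat.coprime_mul_iff_left]
          exact ⟨ndl' c hcr, hcd.symm⟩
        · rw [Nat.cast_mul, hdx, hcx]; ring
        · have := hXl l' d hl2' hd
          have := hXsmall c hc
          omega
        · rw [lam_mul_prime hlp' (w0 d hdr), l1, neg_neg]
      have D2 : DA χ c := r2.mp ((Dl' d (w0 d hdr)).mpr D1)
      have l2 : lam c = -s := V6_lam D2 hs (by rw [hcx, cl', hxs]; push_cast; rw [neg_neg])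
      obtain ⟨b3, hb3, hb3x, hb3r, hb3c⟩ := pk (-((l : ZMod N) * x)) (hlu.mul hx).neg gnl (c * e)
        (Nat.mul_pos (w0 c hcr) he0) (Nat.coprime_mul_iff_left.mpr ⟨hcr.2.1, he.2.1⟩)
        (hmulN c e (hc.le.trans hJN) heN)
      obtain ⟨hb3c1, hb3e⟩ := Nat.coprime_mul_iff_right.mp hb3c
      have r3 : DA χ (l * c) ↔ DA χ (l' * b3) := by
        refine R (l * c) (l' * b3) (wl 0 c (by norm_num) (rgh_ww hn hcr))
          (wl' 0 b3 (by norm_num) (rgh_ww hn hb3r)) ?_ ?_ ?_ (Or.inr (Or.inl ?_))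
        · rw [Nat.coprime_mul_iff_left, Nat.coprime_mul_iff_right, Nat.coprime_mul_iff_right]
          exact ⟨⟨hll, ndl b3 hb3r⟩, (ndl' c hcr).symm, hb3c1.symm⟩
        · rw [Nat.cast_mul, Nat.cast_mul, hb3x, hcx]; ring
        · have := hXl l' b3 hl2' hb3
          have := hXl l c hl2 hc
          omega
        · rw [lam_mul_prime hlp (w0 c hcr), l2, neg_neg]
      have D3 : DA χ b3 := (Dl' b3 (w0 b3 hb3r)).mp (r3.mp ((Dl c (w0 c hcr)).mpr D2))
      have l3 : lam b3 = s := by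
        have := V6_lam D3 hns (by rw [hb3x, cneg, cl, neg_neg, hxs])
        rw [this, neg_neg]
      have r4 : DA χ b3 ↔ DA χ (l * e) := by
        refine R b3 (l * e) (w4 b3 hb3r) (wl 2 e (by norm_num) he) ?_ ?_ ?_ (Or.inr (Or.inl l3))
        · rw [Nat.coprime_mul_iff_right]
          exact ⟨(ndl b3 hb3r).symm, hb3e⟩
        · rw [Nat.cast_mul, hb3x, hex]; ring
        · have := hXla l e hl2 he2
          have := hXsmall b3 hb3
          omega
      exact (Dl e he0).mp (r4.mp D3)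
  · -- the case `s ≠ t`
    obtain ⟨d, hd, hdx, hdr, hdae⟩ := pk (-x) hnx hv.2.1 (a * e) (Nat.mul_pos ha0 he0)
      (Nat.coprime_mul_iff_left.mpr ⟨ha.2.1, he.2.1⟩) (hmulN a e haN heN)
    obtain ⟨hda, hde⟩ := Nat.coprime_mul_iff_right.mp hdae
    have r1 : DA χ a ↔ DA χ d := by
      refine R a d ha4 (w4 d hdr) hda.symm ?_ ?_ (Or.inl hst)
      · rw [hax, hdx]; ring
      · have := hXa a ha2
        have := hXsmall d hd
        omega
    have r2 : DA χ d ↔ DA χ e := by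
      refine R d e (w4 d hdr) he4 hde ?_ ?_ (Or.inl hst)
      · rw [hdx, hex]; ring
      · have := hXa e he2
        have := hXsmall d hd
        omega
    exact r2.mp (r1.mp hD)

end Pool.Agent.Lib.RH
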