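import Pool.Agent.Lib.MP_7b7e48_nt.RG.BADV
import Pool.Agent.Lib.MP_7b7e48_nt.RG.TRI
import Pool.Agent.Lib.MP_7b7e48_nt.RG.V6

/-!
# Module LBM (75 minutes): the set `ZZ` is large

`K = log N`, `σ = sig P χ`. PROOF. `A0` = the numbers `a = q m` with `q ∈ QQ`, `m ∈ T3 χ (N/q)` (so `a < N`). All prime factors are `> zz` and do not divide `N` (`χ = ±1` there), so `a` is `Rgh`, `χ a = 1 · (-1)^3 = -1`, `lam a = 1`: `DA a`, and `HQ a`.
`N/q ≥ N^kap - 1 ≥ N^(kap/2)`, so by `tri` `|T3 χ (N/q)| ≥ (N/q)/K^5 ≥ N/(2 q K^5)`. A number `a < N` has at most `log N / log zz ≤ K` prime factors `> zz`, hence comes from at most `K` pairs `(q, m)`: `|A0| ≥ σ N/(2 K^6)`.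
By `badv` (`w = 1`, `T = N`) at most `K^22 σ N/J` of them have a class which is not `VG`. If `x = (a : ZMod N)` is `VG`, then by `v6` (`e ∈ RR x` is in `WW 0`) all `e ∈ RR x` have `DA`: `x ∈ ZZ`. Different `a < N` have different classes. `|ZZ| ≥ σ N/(2 K^6) - K^22 σ N/J ≥ σ N/K^7`.
`sig_pos`: `0 < L ≤ K^3 σ` (`Tools.sg`).
-/

open Finset
open Pool.Agent.Lib.MP_45349e_nt.LS (lam lam_mul lam_prime)

namespace Pool.Agent.Lib.RH

open Pool.Agent.Lib.RG hiding RR sig Good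

theorem sig_pos (P : Prm) (N : ℕ) [NeZero N] (hn : Num P N) (ht : Tools P N)
    (χ : DirichletCharacter ℂ N) (hsq : χ ^ 2 = 1) (hne : χ ≠ 1) : 0 < sig P χ := by
  obtain ⟨L, -, h1, h2⟩ := ht.sg χ hsq hne
  have hN : (0 : ℝ) < N := by exact_mod_cast Nat.pos_of_ne_zero (NeZero.ne N)
  have h3 : 0 < (N : ℝ) ^ (-(1 / 50) : ℝ) := Real.rpow_pos_of_pos hN _
  have hK : (0 : ℝ) < Real.log N := lt_of_lt_of_le (by norm_num) hn.K
  have h4 : 0 < (Real.log N) ^ 3 * sig P χ := lt_of_lt_of_le h3 (h1.trans h2)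
  exact (mul_pos_iff_of_pos_left (pow_pos hK 3)).1 h4

/-- the elements of `A0` -/
theorem lbm_elt {P : Prm} {N : ℕ} [NeZero N] {χ : DirichletCharacter ℂ N} {q m : ℕ}
    (hq : q ∈ QQ P χ) (hm : m ∈ T3 P χ (N / q)) :
    q * m < N ∧ Rgh P N (q * m) ∧ DA χ (q * m) ∧ HQ P χ (q * m) ∧ 0 < m := by
  classical
  unfold QQ at hq
  rw [Finset.mem_filter] at hq
  obtain ⟨-, hqp, hqz, hqN, hqc⟩ := hq
  unfold T3 at hm
  rw [Finset.mem_filter, Finset.mem_range] at hm
  obtain ⟨hmN, l1, l2, l3, ⟨p1, z1, c1⟩, ⟨p2, z2, c2⟩, ⟨p3, z3, c3⟩, rfl⟩ := hm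
  have hlt : q * (l1 * l2 * l3) < N :=
    lt_of_lt_of_le (Nat.mul_lt_mul_of_pos_left hmN hqp.pos) (Nat.mul_div_le N q)
  have hcop : ∀ p : ℕ, (χ (p : ZMod N) = 1 ∨ χ (p : ZMod N) = -1) → p.Coprime N := by
    intro p h
    by_contra hc
    have h0 : ¬ IsUnit (p : ZMod N) := by
      intro hu
      exact hc ((ZMod.isUnit_iff_coprime p N).1 hu)
    have h1 := χ.map_nonunit h0
    rw [h1] at h
    rcases h with h | h
    · exact zero_ne_one h
    · rw [eq_comm, neg_eq_zero] at h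
      exact one_ne_zero h
  have hq0 := hqp.pos
  have h10 := p1.pos
  have h20 := p2.pos
  have h30 := p3.pos
  refine ⟨hlt, ⟨?_, ?_, ?_⟩, ?_, ⟨q, hqp, hqz, Dvd.intro _ rfl, hqc⟩, by positivity⟩
  · have h1 : 0 < l1 * l2 * l3 := by positivity
    calc 1 < q := hqp.one_lt
      _ ≤ q * (l1 * l2 * l3) := Nat.le_mul_of_pos_right q h1
  · exact Nat.Coprime.mul_left (hcop q (Or.inl hqc)) (Nat.Coprime.mul_left (Nat.Coprime.mul_left
      (hcop l1 (Or.inr c1)) (hcop l2 (Or.inr c2))) (hcop l3 (Or.inr c3)))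
  · intro p hp hpd
    rcases (Nat.Prime.dvd_mul hp).1 hpd with h | h
    · rw [(Nat.prime_dvd_prime_iff_eq hp hqp).1 h]; exact hqz
    · rcases (Nat.Prime.dvd_mul hp).1 h with h | h
      · rcases (Nat.Prime.dvd_mul hp).1 h with h | h
        · rw [(Nat.prime_dvd_prime_iff_eq hp p1).1 h]; exact z1
        · rw [(Nat.prime_dvd_prime_iff_eq hp p2).1 h]; exact z2
      · rw [(Nat.prime_dvd_prime_iff_eq hp p3).1 h]; exact z3
  · have hl : lam (q * (l1 * l2 * l3)) = 1 := by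
      rw [lam_mul q _ hq0.ne' (by positivity), lam_mul (l1 * l2) _ (by positivity) h30.ne',
        lam_mul l1 l2 h10.ne' h20.ne', lam_prime q hqp, lam_prime l1 p1, lam_prime l2 p2,
        lam_prime l3 p3]
      norm_num
    have hc : χ ((q * (l1 * l2 * l3) : ℕ) : ZMod N) = -1 := by
      rw [Nat.cast_mul, Nat.cast_mul, Nat.cast_mul, map_mul, map_mul, map_mul, hqc, c1, c2, c3]
      norm_num
    unfold DA
    rw [hl, hc]
    norm_num

/-- a class which contains a small number of `DA` and is very good belongs to `ZZ` -/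
theorem mem_ZZ_of {P : Prm} (hP : P.Ok) {N : ℕ} [NeZero N] (hn : Num P N) {s t : ℝ}
    {χ : DirichletCharacter ℂ N} (h : Env P N s t χ) {a : ℕ} (ha : WW P N 2 a)
    (ha2 : a < 8 * (MM P N) ^ 2 * JJ N * N) (hD : DA χ a) (hv : VG P N (a : ZMod N)) :
    (a : ZMod N) ∈ ZZ P χ := by
  classical
  unfold ZZ
  rw [Finset.mem_filter]
  refine ⟨Finset.mem_univ _, unit_of_coprime ha.2.1, hv, ?_⟩
  intro e he
  obtain ⟨he1, he2, he3⟩ := mem_RR.1 he
  refine v6 P hP N hn s t χ h (a : ZMod N) (unit_of_coprime ha.2.1) hv a e ha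
    (ww_mono (Nat.zero_le 2) (rgh_ww hn he3)) rfl he2 ha2 ?_ hD
  have hM : 1 ≤ MM P N := Nat.one_le_two_pow
  calc e < JJ N * N := he1
    _ = 1 * (JJ N * N) := (one_mul _).symm
    _ ≤ (8 * (MM P N) ^ 2) * (JJ N * N) := Nat.mul_le_mul_right _ (by nlinarith)
    _ = 8 * (MM P N) ^ 2 * JJ N * N := by ring

theorem lt_range {P : Prm} {N : ℕ} (hn : Num P N) {a : ℕ} (ha : a < N) :
    a < 8 * (MM P N) ^ 2 * JJ N * N := by
  have hM : 1 ≤ MM P N := Nat.one_le_two_pow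
  have hK : (1 : ℝ) ≤ Real.log N := le_trans (by norm_num) hn.K
  have hJ : 1 ≤ JJ N := by
    have h1 : (1 : ℝ) ≤ JJ N := (one_le_pow₀ hK).trans hn.J1
    exact_mod_cast h1
  calc a < N := ha
    _ = 1 * N := (one_mul _).symm
    _ ≤ (8 * (MM P N) ^ 2 * JJ N) * N := Nat.mul_le_mul_right _ (by nlinarith [Nat.one_le_pow 2 (MM P N) hM])

/-- the size of `N / q` -/
theorem lbm_size {P : Prm} (hP : P.Ok) {N : ℕ} [NeZero N] (hn : Num P N) {q : ℕ} (hq0 : 0 < q)
    (hq : (q : ℝ) ≤ (N : ℝ) ^ (1 - P.kap)) :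
    (N : ℝ) ^ (P.kap / 2) ≤ ((N / q : ℕ) : ℝ) ∧ (N : ℝ) / (2 * q) ≤ ((N / q : ℕ) : ℝ) := by
  have hN : (0 : ℝ) < N := by exact_mod_cast Nat.pos_of_ne_zero (NeZero.ne N)
  have hK : (1 : ℝ) ≤ Real.log N := le_trans (by norm_num) hn.K
  have hN1 : (1 : ℝ) ≤ N := by exact_mod_cast Nat.pos_of_ne_zero (NeZero.ne N)
  have hqr : (0 : ℝ) < q := by exact_mod_cast hq0
  have h2 : (2 : ℝ) ≤ (N : ℝ) ^ (P.kap / 1000) := by
    refine le_trans ?_ hn.sm
    calc (2 : ℝ) ≤ (10 : ℝ) ^ 9 := by norm_num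
      _ ≤ Real.log N := hn.K
      _ ≤ (Real.log N) ^ (100 * P.C1 + 10000) := le_self_pow₀ hK (by omega)
  have h3 : (2 : ℝ) ≤ (N : ℝ) ^ (P.kap / 2) := by
    refine h2.trans (Real.rpow_le_rpow_of_exponent_le hN1 ?_)
    have := hP.kap0
    linarith
  have h4 : (N : ℝ) ^ P.kap = ((N : ℝ) ^ (P.kap / 2)) * ((N : ℝ) ^ (P.kap / 2)) := by
    rw [← Real.rpow_add hN]; congr 1; ring
  have h5 : (N : ℝ) ^ P.kap ≤ (N : ℝ) / q := by
    rw [le_div_iff₀ hqr]
    calc (N : ℝ) ^ P.kap * q ≤ (N : ℝ) ^ P.kap * (N : ℝ) ^ (1 - P.kap) :=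
          mul_le_mul_of_nonneg_left hq (Real.rpow_nonneg hN.le _)
      _ = N := by rw [← Real.rpow_add hN]; simp
  have h6 : (N : ℝ) / q < ((N / q : ℕ) : ℝ) + 1 := by
    have := Nat.lt_floor_add_one ((N : ℝ) / q)
    rwa [Nat.floor_div_natCast, Nat.floor_natCast] at this
  constructor
  · nlinarith
  · have h7 : (N : ℝ) / (2 * q) = ((N : ℝ) / q) / 2 := by field_simp
    rw [h7]
    nlinarith

theorem lbm (P : Prm) (hP : P.Ok) (N : ℕ) [NeZero N] (hn : Num P N) (ht : Tools P N) (s t : ℝ)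
    (χ : DirichletCharacter ℂ N) (h : Env P N s t χ) :
    sig P χ * N / (Real.log N) ^ 7 ≤ (ZZ P χ).card := by
  classical
  have hN : (0 : ℝ) < N := by exact_mod_cast Nat.pos_of_ne_zero (NeZero.ne N)
  obtain ⟨K, hKe⟩ : ∃ K : ℝ, K = Real.log N := ⟨_, rfl⟩
  have hK9 : (10 : ℝ) ^ 9 ≤ K := by rw [hKe]; exact hn.K
  have hK1 : (1 : ℝ) ≤ K := le_trans (by norm_num) hK9
  have hK0 : (0 : ℝ) < K := lt_of_lt_of_le one_pos hK1
  have hσ := sig_pos P N hn ht χ h.sq h.ne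
  -- the pairs
  obtain ⟨S, hS⟩ : ∃ S : Finset (Σ _ : ℕ, ℕ), S = (QQ P χ).sigma (fun q => T3 P χ (N / q)) := ⟨_, rfl⟩
  obtain ⟨A0, hA0⟩ : ∃ A0 : Finset ℕ, A0 = S.image (fun p => p.1 * p.2) := ⟨_, rfl⟩
  have hel : ∀ a ∈ A0, a < N ∧ Rgh P N a ∧ DA χ a ∧ HQ P χ a := by
    intro a ha
    rw [hA0, Finset.mem_image] at ha
    obtain ⟨⟨q, m⟩, hp, rfl⟩ := ha
    rw [hS, Finset.mem_sigma] at hp
    obtain ⟨x1, x2, x3, x4, -⟩ := lbm_elt hp.1 hp.2
    exact ⟨x1, x2, x3, x4⟩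
  -- number of pairs
  have hScard : sig P χ * (N / (2 * K ^ 5)) ≤ (S.card : ℝ) := by
    rw [hS, Finset.card_sigma, Nat.cast_sum]
    unfold sig
    rw [Finset.sum_mul]
    refine Finset.sum_le_sum fun q hq => ?_
    have hq' := hq
    unfold QQ at hq'
    rw [Finset.mem_filter] at hq'
    obtain ⟨-, hqp, hqz, hqN, hqc⟩ := hq'
    obtain ⟨y1, y2⟩ := lbm_size hP hn hqp.pos hqN
    have h1 := tri P hP N hn χ h.sq h.blk (N / q) y1 (Nat.div_le_self N q)
    rw [← hKe] at h1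
    refine le_trans ?_ h1
    have hqr : (0 : ℝ) < q := by exact_mod_cast hqp.pos
    rw [le_div_iff₀ (by positivity)]
    refine le_trans (le_of_eq ?_) y2
    field_simp
  -- fibres
  have hfib : (S.card : ℝ) ≤ K * A0.card := by
    have h1 : S.card ≤ ⌊K⌋₊ * A0.card := by
      rw [hA0]
      refine Finset.card_le_mul_card_image S _ ?_
      intro a ha
      obtain ⟨x1, x2, x3, x4⟩ := hel a (by rw [hA0]; exact ha)
      have h2 : (S.filter (fun p => p.1 * p.2 = a)).card ≤ a.primeFactors.card := by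
        refine Finset.card_le_card_of_injOn (fun p => p.1) ?_ ?_
        · intro p hp
          rw [Finset.mem_coe, Finset.mem_filter] at hp
          obtain ⟨hp1, hp2⟩ := hp
          rw [hS, Finset.mem_sigma] at hp1
          have hq' := hp1.1
          unfold QQ at hq'
          rw [Finset.mem_filter] at hq'
          rw [Finset.mem_coe, Nat.mem_primeFactors]
          exact ⟨hq'.2.1, ⟨p.2, hp2.symm⟩, by have := x2.1; omega⟩
        · intro p hp p' hp' hpp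
          rw [Finset.mem_coe, Finset.mem_filter] at hp hp'
          have hq' := hp.1
          rw [hS, Finset.mem_sigma] at hq'
          have hq'' := hq'.1
          unfold QQ at hq''
          rw [Finset.mem_filter] at hq''
          have h3 : p.1 * p.2 = p'.1 * p'.2 := hp.2.trans hp'.2.symm
          have hpp' : p.1 = p'.1 := hpp
          rw [← hpp'] at h3
          have h4 : p.2 = p'.2 := Nat.eq_of_mul_eq_mul_left hq''.2.1.pos h3
          rcases p with ⟨u, v⟩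
          rcases p' with ⟨u', v'⟩
          simp only at hpp' h4
          subst hpp' h4
          rfl
      refine h2.trans ?_
      have h5 : a.primeFactors.card ≤ ArithmeticFunction.cardFactors a := by
        rw [ArithmeticFunction.cardFactors_apply]
        exact List.toFinset_card_le _
      refine h5.trans ?_
      have h6 := omega_le hP hn (rgh_ww hn x2) (le_trans x1.le (by nlinarith [Nat.pos_of_ne_zero (NeZero.ne N)]))
      apply Nat.le_floor
      refine h6.trans ?_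
      have h7 := hn.Kc
      rw [← hKe] at h7
      have h8 : 4 / P.c ≤ 100 / P.c := by
        apply div_le_div_of_nonneg_right _ hP.c0.le
        norm_num
      push_cast
      linarith
    calc (S.card : ℝ) ≤ ((⌊K⌋₊ * A0.card : ℕ) : ℝ) := by exact_mod_cast h1
      _ = (⌊K⌋₊ : ℝ) * A0.card := by push_cast; ring
      _ ≤ K * A0.card := mul_le_mul_of_nonneg_right (Nat.floor_le hK0.le) (Nat.cast_nonneg _)
  -- bad ones
  obtain ⟨Bd, hBd⟩ : ∃ Bd : Finset ℕ, Bd = ((Finset.range N).filter fun a : ℕ => WW P N 2 a ∧ HQ P χ a ∧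
      ¬ VG P N (((1 : ℕ) : ZMod N) * (a : ZMod N))) := ⟨_, rfl⟩
  have hbad : (Bd.card : ℝ) ≤ K ^ 22 * sig P χ * N / JJ N := by
    have hJ : 1 ≤ JJ N := by
      have h1 : (1 : ℝ) ≤ JJ N := (one_le_pow₀ (hKe ▸ hK1)).trans hn.J1
      exact_mod_cast h1
    have h1 := badv P hP N hn ht χ h.sq h.ne 1 N (Or.inl rfl) le_rfl (by nlinarith)
    rw [hBd, hKe]
    convert h1 using 3
  have himg : (A0 \ Bd).image (fun a : ℕ => (a : ZMod N)) ⊆ ZZ P χ := by
    intro x hx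
    rw [Finset.mem_image] at hx
    obtain ⟨a, ha, rfl⟩ := hx
    rw [Finset.mem_sdiff] at ha
    obtain ⟨x1, x2, x3, x4⟩ := hel a ha.1
    have hw : WW P N 2 a := ww_mono (Nat.zero_le 2) (rgh_ww hn x2)
    refine mem_ZZ_of hP hn h hw (lt_range hn x1) x3 ?_
    by_contra hv
    apply ha.2
    rw [hBd, Finset.mem_filter, Finset.mem_range]
    refine ⟨x1, hw, x4, ?_⟩
    rwa [Nat.cast_one, one_mul]
  have hinj : ((A0 \ Bd).image (fun a : ℕ => (a : ZMod N))).card = (A0 \ Bd).card := by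
    apply Finset.card_image_of_injOn
    intro a ha b hb hab
    rw [Finset.mem_coe, Finset.mem_sdiff] at ha hb
    have h1 := (hel a ha.1).1
    have h2 := (hel b hb.1).1
    have h3 := (ZMod.natCast_eq_natCast_iff' a b N).1 hab
    rwa [Nat.mod_eq_of_lt h1, Nat.mod_eq_of_lt h2] at h3
  have hcard : (A0.card : ℝ) ≤ (ZZ P χ).card + Bd.card := by
    have h1 : A0.card ≤ (A0 \ Bd).card + Bd.card := by
      have := Finset.card_le_card (Finset.subset_union_left (s₁ := A0) (s₂ := Bd))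
      rw [← Finset.sdiff_union_self_eq_union] at this
      exact this.trans (Finset.card_union_le _ _)
    have h2 := Finset.card_le_card himg
    rw [hinj] at h2
    exact_mod_cast h1.trans (Nat.add_le_add_right h2 _)
  -- conclusion
  rw [← hKe]
  have hJ1 : K ^ 1000 ≤ (JJ N : ℝ) := by rw [hKe]; exact hn.J1
  have hJ2 : K ^ 22 / (JJ N : ℝ) ≤ 1 / K ^ 7 := by
    rw [div_le_div_iff₀ (lt_of_lt_of_le (pow_pos hK0 _) hJ1) (pow_pos hK0 _), ← pow_add, one_mul]
    exact (pow_le_pow_right₀ hK1 (by norm_num)).trans hJ1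
  obtain ⟨X, hX⟩ : ∃ X : ℝ, X = sig P χ * N := ⟨_, rfl⟩
  have hX0 : 0 < X := by rw [hX]; positivity
  have e1 : sig P χ * N / K ^ 7 = X / K ^ 7 := by rw [hX]
  have e2 : sig P χ * (N / (2 * K ^ 5)) = K * (X / (2 * K ^ 6)) := by rw [hX]; field_simp
  have e3 : K ^ 22 * sig P χ * N / JJ N = X * (K ^ 22 / JJ N) := by rw [hX]; ring
  rw [e1]
  rw [e2] at hScard
  rw [e3] at hbad
  have h10 : X / (2 * K ^ 6) ≤ A0.card := by
    have := hScard.trans hfib
    exact le_of_mul_le_mul_left this hK0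
  have h11 : X * (K ^ 22 / JJ N) ≤ X / K ^ 7 := by
    calc X * (K ^ 22 / JJ N) ≤ X * (1 / K ^ 7) := mul_le_mul_of_nonneg_left hJ2 hX0.le
      _ = X / K ^ 7 := by ring
  have h12 : 2 * (X / K ^ 7) ≤ X / (2 * K ^ 6) := by
    rw [← mul_div_assoc, div_le_div_iff₀ (by positivity) (by positivity)]
    have : 4 * K ^ 6 ≤ K ^ 7 := by
      have : K ^ 7 = K * K ^ 6 := by ring
      rw [this]
      have h6 : 0 < K ^ 6 := by positivity
      nlinarith
    nlinarith
  linarith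

end Pool.Agent.Lib.RH
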