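import Pool.Agent.Lib.MP_7b7e48_nt.RG.SMg
import Pool.Agent.Lib.MP_7b7e48_nt.RG.SMi

/-!
# Module SM0 (45 minutes): few classes are not good

PROOF. `bad_classes` with `v = 1`, `S4 = ∅`, `u p = 1/p`, `e p = 0`, `I = Ioc 0 (N - 1)`, `om = 1`, `X = N - 1`, `Err = 1`, `k0 = 0`
(`n / N = 0` for `n < N`), `ep = 1`. Law: `SMi.unif_law`. The units `x` are
the classes of the `n < N` coprime to `N`, one each (`N ≥ 2`). `K₁ = 2K` of `bad_classes`; `(log N)^14 N/J + (log N)^3 z^(K₁)` is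
at most `(log N)^15 N/J`, as `z^(K₁) J ≤ N^(1/2)`.
-/

open Finset

namespace Pool.Agent.Lib.RG

open Classical in
theorem SM0 : ∃ K : ℕ, 1 ≤ K ∧ ∃ N0 : ℕ, ∀ (N : ℕ) [NeZero N], N0 ≤ N → ∀ z J : ℕ, 2 ≤ z → 1 ≤ J →
    (z : ℝ) ^ K * J ≤ (N : ℝ) ^ ((1 : ℝ) / 2) →
    (((Finset.univ : Finset (ZMod N)).filter fun x => IsUnit x ∧ ¬ Good N z J x).card : ℝ) ≤
      (Real.log N) ^ 15 * N / J := by
  obtain ⟨K, hK, N0, h⟩ := bad_classes
  refine ⟨2 * K, by omega, N0 + 8, ?_⟩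
  intro N _ hN z J hz hJ hzJ
  have hN8 : (8 : ℝ) ≤ N := by
    have : 8 ≤ N := by omega
    exact_mod_cast this
  have hN1 : (1 : ℝ) ≤ N := by linarith
  have hz1 : (1 : ℝ) ≤ z := by exact_mod_cast (by omega : 1 ≤ z)
  have hJ1 : (1 : ℝ) ≤ J := by exact_mod_cast hJ
  have hlog : (2 : ℝ) ≤ Real.log N := by
    have h1 : Real.log 8 ≤ Real.log N := Real.log_le_log (by norm_num) hN8
    have h2 : Real.log 8 = 3 * Real.log 2 := by
      rw [show (8 : ℝ) = 2 ^ 3 by norm_num, Real.log_pow]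
      norm_num
    have h3 := Real.log_two_gt_d9
    rw [h2] at h1
    linarith
  have hsq : (N : ℝ) ^ ((1 : ℝ) / 2) ≤ N := by
    calc (N : ℝ) ^ ((1 : ℝ) / 2) ≤ (N : ℝ) ^ (1 : ℝ) :=
          Real.rpow_le_rpow_of_exponent_le hN1 (by norm_num)
      _ = N := Real.rpow_one _
  have hzK : (z : ℝ) ≤ (z : ℝ) ^ (2 * K) := by
    calc (z : ℝ) = (z : ℝ) ^ 1 := (pow_one _).symm
      _ ≤ _ := pow_le_pow_right₀ hz1 (by omega)
  have hzK0 : (0 : ℝ) ≤ (z : ℝ) ^ (2 * K) := by positivity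
  have hzN : z ≤ N := by
    have h1 : (z : ℝ) ≤ N := by
      calc (z : ℝ) ≤ (z : ℝ) ^ (2 * K) := hzK
        _ = (z : ℝ) ^ (2 * K) * 1 := (mul_one _).symm
        _ ≤ (z : ℝ) ^ (2 * K) * J := mul_le_mul_of_nonneg_left hJ1 hzK0
        _ ≤ _ := hzJ.trans hsq
    exact_mod_cast h1
  have hlaw : Law z (PN N z) ∅ (fun p => if p ∈ (∅ : Finset ℕ) then 0 else 1 / (p : ℝ))
      (fun p => if p ∈ (∅ : Finset ℕ) then 1 else 0) := by
    refine ⟨?_, ?_, ?_, ?_, ?_⟩
    · intro p hp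
      unfold PN at hp
      have h1 := mem_filter.mp hp
      have h2 := mem_range.mp h1.1
      exact ⟨h1.2.1, by omega⟩
    · simp
    · intro p hp
      simp at hp
    · intro p _ _
      have h3 : (0 : ℝ) ≤ 1 / (p : ℝ) := by positivity
      simp only [notMem_empty, if_false, abs_zero, add_zero]
      refine ⟨?_, h3, h3⟩
      rw [abs_of_nonneg h3, div_eq_mul_one_div 3 (p : ℝ)]
      linarith
    · intro p _
      simp only [notMem_empty, if_false, zero_div, add_zero]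
  have hS4 : ∀ p : ℕ, p ∈ (∅ : Finset ℕ) ↔ p ∈ PN N z ∧ p ∣ 1 := by
    intro p
    constructor
    · intro hp
      simp at hp
    · rintro ⟨h1, h2⟩
      have h3 := (hlaw.prime p h1).1
      exact absurd (Nat.dvd_one.mp h2) h3.ne_one
  have hmain := h N (by omega) z J 1 hz hzN hJ le_rfl (Nat.coprime_one_left N) ∅ _ _ hlaw hS4
    (Finset.Ioc 0 (N - 1)) (fun _ => 1) (((N - 1 : ℕ) : ℝ) - (0 : ℕ)) 1 (by simp) zero_le_one
    (fun _ _ => zero_le_one) (unif_law (PN N z) ∅ 0 (N - 1) (Nat.zero_le _) _) 0 (by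
      intro n hn
      have h1 := mem_Ioc.mp hn
      rw [one_mul]
      exact Nat.div_eq_of_lt (by omega)) 1 (Or.inl rfl)
  rw [sum_const, nsmul_eq_mul, mul_one] at hmain
  have hcard : ((Finset.univ : Finset (ZMod N)).filter fun x => IsUnit x ∧ ¬ Good N z J x).card ≤
      ((Finset.Ioc 0 (N - 1)).filter (fun n : ℕ => n.Coprime N ∧
        ¬ Good N z J (((1 : ℤ) : ZMod N) * ((1 : ℕ) : ZMod N) * (n : ZMod N)))).card := by
    refine Finset.card_le_card_of_injOn (fun x => x.val) ?_ ?_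
    · intro x hx
      have h1 := mem_filter.mp hx
      obtain ⟨_, hu, hg⟩ := h1
      have hxv : ((x.val : ℕ) : ZMod N) = x := ZMod.natCast_zmod_val x
      have hcop : x.val.Coprime N := by
        rw [← ZMod.isUnit_iff_coprime, hxv]
        exact hu
      have hlt := ZMod.val_lt x
      have hpos : 0 < x.val := by
        rcases Nat.eq_zero_or_pos x.val with h0 | h0
        · rw [h0, Nat.coprime_zero_left] at hcop
          omega
        · exact h0
      rw [mem_coe, mem_filter, mem_Ioc]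
      refine ⟨⟨hpos, by change x.val ≤ N - 1; omega⟩, hcop, ?_⟩
      change ¬ Good N z J (((1 : ℤ) : ZMod N) * ((1 : ℕ) : ZMod N) * ((x.val : ℕ) : ZMod N))
      rw [hxv]
      push_cast
      rw [one_mul, one_mul]
      exact hg
    · intro x _ y _ hxy
      exact ZMod.val_injective N hxy
  have hcard' : ((((Finset.univ : Finset (ZMod N)).filter fun x =>
      IsUnit x ∧ ¬ Good N z J x).card : ℕ) : ℝ) ≤ _ := Nat.cast_le.mpr hcard
  refine hcard'.trans (hmain.trans ?_)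
  have hX : (((N - 1 : ℕ) : ℝ) - ((0 : ℕ) : ℝ)) ≤ N := by
    have : (((N - 1 : ℕ) : ℝ)) ≤ N := by exact_mod_cast Nat.sub_le N 1
    push_cast at this ⊢
    linarith
  have hz2 : (z : ℝ) ^ (2 * K) ≤ N / J := by
    rw [le_div_iff₀ (by linarith)]
    exact hzJ.trans hsq
  have hL0 : (0 : ℝ) ≤ Real.log N := by linarith
  have hNJ : (0 : ℝ) ≤ (N : ℝ) / J := by positivity
  have h3 : (Real.log N) ^ 3 ≤ (Real.log N) ^ 14 := pow_le_pow_right₀ (by linarith) (by norm_num)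
  calc (Real.log N) ^ 14 * (((N - 1 : ℕ) : ℝ) - ((0 : ℕ) : ℝ)) / J +
        (Real.log N) ^ 3 * (z : ℝ) ^ (2 * K) * 1
      ≤ (Real.log N) ^ 14 * N / J + (Real.log N) ^ 14 * (N / J) := by
        refine add_le_add ?_ ?_
        · exact div_le_div_of_nonneg_right (mul_le_mul_of_nonneg_left hX (by positivity))
            (by linarith)
        · rw [mul_one]
          exact mul_le_mul h3 hz2 hzK0 (by positivity)
    _ = (Real.log N) ^ 14 * 2 * (N / J) := by ring
    _ ≤ (Real.log N) ^ 14 * Real.log N * (N / J) := by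
        refine mul_le_mul_of_nonneg_right ?_ hNJ
        exact mul_le_mul_of_nonneg_left hlog (by positivity)
    _ = _ := by ring

end Pool.Agent.Lib.RG
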