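import Pool.Agent.Lib.MP_7b7e48_nt.RG.SMg
import Pool.Agent.Lib.MP_7b7e48_nt.RG.SMi

/-!
# Module SM1 (75 minutes): the classes of the multiples of a prime `q ≤ N^(1-κ)`

PROOF. `v = w0 q` is coprime to `N`, `S4` = the primes of `PN N z` dividing `v` (at most `3`), `u p = 1/p`, `e p = 0` outside `S4`, `0, 1`
on `S4`; this is a `Law` (`u + e/p = 1/p` in both cases). Cut `Ioc 0 (T/q)` into the sets where `v m / N = k0`: by `SMi.floor_int`
intervals `Ioc a b`, by `floor_card` at most `w0 T/N + 1 ≤ 16 M^4 J + 1` of them; `unif_law` gives `HasLaw` with `X = b - a`, `Err = 1`.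
`bad_classes` on each of them, sum: `≤ (log N)^14 (T/q)/J + 17 M^4 J (log N)^3 z^(2K')`. With `K = 2K'` and
`M^4 J² z^K ≤ N^(κ/2)`, `T/q ≥ N^κ` (`T ≥ N`, `q ≤ N^(1-κ)`) the second term is `≤ (log N)^4 N^(κ/2)/J ≤ (log N)^14 (T/q)/J` for large `N`.
(`z ≤ N` follows from the hypothesis. `T/q` in `ℕ` is `≤ T/q` in `ℝ`.)
-/

open Finset

namespace Pool.Agent.Lib.RG

open Classical in
private theorem SM1_law (N z v : ℕ) (S4 : Finset ℕ) (hS : ∀ p : ℕ, p ∈ S4 ↔ p ∈ PN N z ∧ p ∣ v)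
    (hv : v ≠ 0) (hc : v.primeFactors.card ≤ 4) :
    Law z (PN N z) S4 (fun p => if p ∈ S4 then 0 else 1 / (p : ℝ)) (fun p => if p ∈ S4 then 1 else 0) where
  prime := by
    intro p hp
    rw [PN, Finset.mem_filter, Finset.mem_range] at hp
    exact ⟨hp.2.1, by omega⟩
  card := by
    refine le_trans (Finset.card_le_card ?_) hc
    intro p hp
    have h := (hS p).1 hp
    have h1 := h.1
    rw [PN, Finset.mem_filter, Finset.mem_range] at h1
    exact Nat.mem_primeFactors.2 ⟨h1.2.1, h.2, hv⟩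
  four := by
    intro p hp
    simp [hp]
  small := by
    intro p hp hp4
    have h1 := hp
    rw [PN, Finset.mem_filter, Finset.mem_range] at h1
    have hp0 : (0 : ℝ) < p := by exact_mod_cast h1.2.1.pos
    simp only [if_neg hp4, abs_zero, add_zero]
    refine ⟨?_, by positivity, by positivity⟩
    rw [abs_of_nonneg (by positivity)]
    gcongr
    norm_num
  mean := by
    intro p hp
    by_cases h4 : p ∈ S4
    · simp [h4]
    · simp [h4]

open Classical in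
theorem SM1 : ∃ K : ℕ, 1 ≤ K ∧ ∀ κ : ℝ, 0 < κ → κ ≤ 1 / 20 → ∃ N0 : ℕ, ∀ (N : ℕ) [NeZero N], N0 ≤ N →
    ∀ z J M : ℕ, 2 ≤ z → 1 ≤ J → 1 ≤ M → (M : ℝ) ^ 4 * (J : ℝ) ^ 2 * (z : ℝ) ^ K ≤ (N : ℝ) ^ (κ / 2) →
    ∀ w0 q T : ℕ, 1 ≤ w0 → w0.Coprime N → w0 ≤ 16 * M ^ 4 → w0.primeFactors.card ≤ 2 →
    q.Prime → ¬ q ∣ N → (q : ℝ) ≤ (N : ℝ) ^ (1 - κ) → N ≤ T → T ≤ J * N →
    ∀ ep : ℤ, ep = 1 ∨ ep = -1 →
    (((Finset.Icc 1 (T / q)).filter fun m : ℕ => m.Coprime N ∧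
      ¬ Good N z J ((ep : ZMod N) * (w0 : ZMod N) * (q : ZMod N) * (m : ZMod N))).card : ℝ) ≤
      (Real.log N) ^ 15 * T / (q * J) := by
  obtain ⟨K', hK', N0', hb⟩ := bad_classes
  refine ⟨2 * K', by omega, fun κ hκ0 hκ1 => ⟨max N0' ⌈Real.exp 18⌉₊, ?_⟩⟩
  intro N _ hN z J M hz hJ hM hsize w0 q T hw1 hwN hwM hwc hq hqN hqle hNT hTJ ep hep
  have hN0 : N0' ≤ N := le_trans (le_max_left _ _) hN
  have hNe : Real.exp 18 ≤ (N : ℝ) :=
    le_trans (Nat.le_ceil _) (by exact_mod_cast le_trans (le_max_right _ _) hN)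
  have hNpos : (0 : ℝ) < N := lt_of_lt_of_le (Real.exp_pos _) hNe
  have hN1 : (1 : ℝ) ≤ N := le_trans (by have := Real.add_one_le_exp (18 : ℝ); linarith) hNe
  have hNpos' : 1 ≤ N := by exact_mod_cast hN1
  have hlog : (18 : ℝ) ≤ Real.log N := by
    rw [Real.le_log_iff_exp_le hNpos]; exact hNe
  have hJr : (1 : ℝ) ≤ J := by exact_mod_cast hJ
  have hMr : (1 : ℝ) ≤ M := by exact_mod_cast hM
  have hzr : (2 : ℝ) ≤ z := by exact_mod_cast hz
  have hz1 : (1 : ℝ) ≤ z := by linarith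
  -- z ≤ N
  have hzN : z ≤ N := by
    have h1 : (z : ℝ) ≤ (z : ℝ) ^ (2 * K') := le_self_pow₀ hz1 (by omega)
    have h2 : (z : ℝ) ^ (2 * K') ≤ (M : ℝ) ^ 4 * (J : ℝ) ^ 2 * (z : ℝ) ^ (2 * K') := by
      have h3 : (1 : ℝ) ≤ (M : ℝ) ^ 4 * (J : ℝ) ^ 2 :=
        one_le_mul_of_one_le_of_one_le (one_le_pow₀ hMr) (one_le_pow₀ hJr)
      exact le_mul_of_one_le_left (by positivity) h3
    have h4 : (N : ℝ) ^ (κ / 2) ≤ (N : ℝ) ^ (1 : ℝ) :=
      Real.rpow_le_rpow_of_exponent_le hN1 (by linarith)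
    rw [Real.rpow_one] at h4
    exact_mod_cast le_trans h1 (le_trans h2 (le_trans hsize h4))
  have hqpos : 0 < q := hq.pos
  have hqr : (0 : ℝ) < q := by exact_mod_cast hqpos
  set v : ℕ := w0 * q with hv
  have hv1 : 1 ≤ v := Nat.mul_pos (by omega) hqpos
  have hvN : v.Coprime N := Nat.Coprime.mul_left hwN ((Nat.Prime.coprime_iff_not_dvd hq).2 hqN)
  set S4 : Finset ℕ := (PN N z).filter (fun p => p ∣ v) with hS4
  have hSmem : ∀ p : ℕ, p ∈ S4 ↔ p ∈ PN N z ∧ p ∣ v := by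
    intro p; rw [hS4, Finset.mem_filter]
  have hvc : v.primeFactors.card ≤ 4 := by
    rw [hv, Nat.primeFactors_mul (by omega) (by omega)]
    refine le_trans (Finset.card_union_le _ _) ?_
    rw [Nat.Prime.primeFactors hq, Finset.card_singleton]
    omega
  have hlaw := SM1_law N z v S4 hSmem (by omega) hvc
  set Bad : Finset ℕ := (Finset.Icc 1 (T / q)).filter fun m : ℕ => m.Coprime N ∧
      ¬ Good N z J ((ep : ZMod N) * (w0 : ZMod N) * (q : ZMod N) * (m : ZMod N)) with hBad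
  set KS : Finset ℕ := (Finset.Ioc 0 (T / q)).image fun n => v * n / N with hKS
  -- each piece
  have hpiece : ∀ k0 : ℕ, ((Bad.filter fun n => v * n / N = k0).card : ℝ) ≤
      (Real.log N) ^ 14 * (((Finset.Ioc 0 (T / q)).filter fun n => v * n / N = k0).card : ℝ) / J +
        (Real.log N) ^ 3 * (z : ℝ) ^ (2 * K') := by
    intro k0
    obtain ⟨a, b, hab, -, -, hI⟩ := floor_int N v 0 (T / q) k0 hNpos' (Nat.zero_le _)
    have hul := unif_law (PN N z) S4 a b hab (z ^ (2 * K'))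
    have hk : ∀ n ∈ Finset.Ioc a b, v * n / N = k0 := by
      intro n hn
      rw [← hI, Finset.mem_filter] at hn
      exact hn.2
    have := hb N hN0 z J v hz hzN hJ hv1 hvN S4 _ _ hlaw hSmem (Finset.Ioc a b) (fun _ => 1)
      ((b : ℝ) - a) 1 (by rw [sub_nonneg]; exact_mod_cast hab) zero_le_one (fun _ _ => zero_le_one) hul k0 hk ep hep
    rw [hI, Nat.card_Ioc, Nat.cast_sub hab]
    rw [mul_one] at this
    refine le_trans (le_of_eq ?_) this
    rw [Finset.sum_const, nsmul_eq_mul, mul_one]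
    congr 2
    ext n
    constructor
    · intro hn
      rw [hBad, Finset.mem_filter, Finset.mem_filter, Finset.mem_Icc] at hn
      rw [Finset.mem_filter]
      refine ⟨?_, hn.1.2.1, ?_⟩
      · rw [← hI, Finset.mem_filter, Finset.mem_Ioc]
        exact ⟨⟨hn.1.1.1, hn.1.1.2⟩, hn.2⟩
      · have h2 := hn.1.2.2
        rw [hv]
        push_cast
        rw [← mul_assoc]
        exact h2
    · intro hn
      rw [Finset.mem_filter] at hn
      have h1 := hn.1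
      rw [← hI, Finset.mem_filter, Finset.mem_Ioc] at h1
      rw [hBad, Finset.mem_filter, Finset.mem_filter, Finset.mem_Icc]
      refine ⟨⟨⟨h1.1.1, h1.1.2⟩, hn.2.1, ?_⟩, h1.2⟩
      have h2 := hn.2.2
      rw [hv] at h2
      push_cast at h2
      rw [← mul_assoc] at h2
      exact h2
  -- sum of the pieces
  have hBsum : (Bad.card : ℝ) = ∑ k0 ∈ KS, ((Bad.filter fun n => v * n / N = k0).card : ℝ) := by
    rw [← Nat.cast_sum, ← Finset.card_eq_sum_card_fiberwise]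
    intro n hn
    rw [Finset.mem_coe, hBad, Finset.mem_filter, Finset.mem_Icc] at hn
    rw [Finset.mem_coe, hKS, Finset.mem_image]
    exact ⟨n, Finset.mem_Ioc.2 ⟨hn.1.1, hn.1.2⟩, rfl⟩
  have hIsum : ∑ k0 ∈ KS, (((Finset.Ioc 0 (T / q)).filter fun n => v * n / N = k0).card : ℝ) = ((T / q : ℕ) : ℝ) := by
    rw [← Nat.cast_sum, ← Finset.card_eq_sum_card_fiberwise, Nat.card_Ioc, Nat.sub_zero]
    intro n hn
    rw [Finset.mem_coe, hKS, Finset.mem_image]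
    exact ⟨n, hn, rfl⟩
  have hKcard : (KS.card : ℝ) ≤ 17 * (M : ℝ) ^ 4 * J := by
    have h1 : KS.card ≤ v * (T / q) / N + 1 := by rw [hKS]; exact floor_card N v 0 (T / q) hNpos'
    have h2 : v * (T / q) / N ≤ 16 * M ^ 4 * J := by
      apply Nat.div_le_of_le_mul
      calc v * (T / q) = w0 * (q * (T / q)) := by rw [hv]; ring
        _ ≤ w0 * T := Nat.mul_le_mul_left _ (Nat.mul_div_le _ _)
        _ ≤ (16 * M ^ 4) * (J * N) := Nat.mul_le_mul hwM hTJ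
        _ = N * (16 * M ^ 4 * J) := by ring
    have h3 : 1 ≤ M ^ 4 * J := Nat.mul_pos (Nat.pow_pos (by omega)) (by omega)
    have h4 : KS.card ≤ 17 * M ^ 4 * J := by
      calc KS.card ≤ 16 * M ^ 4 * J + 1 := by omega
        _ ≤ 16 * M ^ 4 * J + M ^ 4 * J := by omega
        _ = 17 * M ^ 4 * J := by ring
    exact_mod_cast h4
  have htot : (Bad.card : ℝ) ≤ (Real.log N) ^ 14 * ((T / q : ℕ) : ℝ) / J +
      17 * (M : ℝ) ^ 4 * J * ((Real.log N) ^ 3 * (z : ℝ) ^ (2 * K')) := by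
    rw [hBsum]
    refine le_trans (Finset.sum_le_sum fun k0 _ => hpiece k0) ?_
    rw [Finset.sum_add_distrib, Finset.sum_const, nsmul_eq_mul, ← Finset.sum_div, ← Finset.mul_sum, hIsum]
    gcongr
  -- numerical end
  have hTq : ((T / q : ℕ) : ℝ) ≤ (T : ℝ) / q := Nat.cast_div_le
  have hTqN : (N : ℝ) ^ κ ≤ (T : ℝ) / q := by
    rw [le_div_iff₀ hqr]
    calc (N : ℝ) ^ κ * q ≤ (N : ℝ) ^ κ * (N : ℝ) ^ (1 - κ) := by gcongr
      _ = N := by rw [← Real.rpow_add hNpos]; simp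
      _ ≤ T := by exact_mod_cast hNT
  set L := Real.log N with hL
  have hJ0 : (0 : ℝ) < J := by linarith
  have hL0 : 0 < L := by linarith
  have hsec : 17 * (M : ℝ) ^ 4 * J * (L ^ 3 * (z : ℝ) ^ (2 * K')) ≤ 17 * L ^ 3 * ((T : ℝ) / q) / J := by
    rw [le_div_iff₀ hJ0]
    calc 17 * (M : ℝ) ^ 4 * J * (L ^ 3 * (z : ℝ) ^ (2 * K')) * J
        = 17 * L ^ 3 * ((M : ℝ) ^ 4 * (J : ℝ) ^ 2 * (z : ℝ) ^ (2 * K')) := by ring
      _ ≤ 17 * L ^ 3 * (N : ℝ) ^ (κ / 2) := by gcongr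
      _ ≤ 17 * L ^ 3 * (N : ℝ) ^ κ := by
          have : (N : ℝ) ^ (κ / 2) ≤ (N : ℝ) ^ κ := Real.rpow_le_rpow_of_exponent_le hN1 (by linarith)
          gcongr
      _ ≤ 17 * L ^ 3 * ((T : ℝ) / q) := by gcongr
  have hTq0 : (0 : ℝ) ≤ (T : ℝ) / q := by positivity
  have hpow : L ^ 14 + 17 * L ^ 3 ≤ L ^ 15 := by
    have h1 : L ^ 3 ≤ L ^ 14 := pow_le_pow_right₀ (by linarith) (by norm_num)
    have h2 : 18 * L ^ 14 ≤ L * L ^ 14 := by gcongr
    have h3 : L ^ 15 = L * L ^ 14 := by ring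
    rw [h3]; linarith
  calc (Bad.card : ℝ) ≤ L ^ 14 * ((T / q : ℕ) : ℝ) / J +
      17 * (M : ℝ) ^ 4 * J * (L ^ 3 * (z : ℝ) ^ (2 * K')) := htot
    _ ≤ L ^ 14 * ((T : ℝ) / q) / J + 17 * L ^ 3 * ((T : ℝ) / q) / J := by
        refine add_le_add ?_ hsec
        gcongr
    _ = (L ^ 14 + 17 * L ^ 3) * (((T : ℝ) / q) / J) := by ring
    _ ≤ L ^ 15 * (((T : ℝ) / q) / J) := by gcongr
    _ = L ^ 15 * T / (q * J) := by
        rw [div_div, mul_div_assoc]

end Pool.Agent.Lib.RG
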