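import Pool.Agent.Lib.MP_7b7e48_nt.RG.SMg
import Pool.Agent.Lib.MP_7b7e48_nt.RG.SMi
import Pool.Agent.Lib.MP_7b7e48_nt.RG.RAP2

/-!
# Module SM2 (90 minutes): the classes of `m q`, `q > N^(1-κ)` a prime with `c q = 1`

PROOF. `v = w0 m` is coprime to `N`, `S4` = the primes of `PN N z` dividing `v` (at most `2 + 2`), `u p = (1 - c p/p)/p`, `e p = c p/p`
outside `S4`, `0, 1` on `S4`. This is a `Law`: `u + e/p = 1/p`, `|u| + |e| ≤ 3/p`, `u ≥ 0`, `u + e ≥ 0` (`c p = -1`: `1/p²`). The weights are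
`om n = rr c n ≥ 0` (`A3.rr_nonneg`); `rr c q = 2 ≥ 1` for the primes counted. Cut `Ioc lo (T/m)`, `lo = ⌊N^(1-κ)⌋`, into intervals
`Ioc a b` on which `v n / N` is constant (`SMi`), at most `16 M^4 J + 1` of them. `rap_law` at `b` and at `a` (`T/m ≤ J N ≤ N^(21/20)`;
moduli `≤ z^(2K') ≤ N^(1/50)`, coprime to `N`) gives `HasLaw` with `X = L (b - a)`, `Err = N^(4/5)`.
`bad_classes`, sum: `≤ (log N)^14 L (T/m)/J + 17 M^4 J (log N)^3 z^(2K') N^(4/5)`. As `T/m ≥ N^(1-κ)/J`, `L ≥ N^(-1/50)`, the first term is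
`≥ N^(0.98-κ)/J² ≥ N^(0.9)` and the second `≤ N^(4/5+κ)`; `κ ≤ 1/20`. (If `T/m < lo` there is nothing to prove.)
-/

open Finset

namespace Pool.Agent.Lib.RG

private theorem sm2_one {N : ℕ} {c : ℕ → ℝ} (hc : RC N c) : c 1 = 1 := by
  have h1 := hc.mul 1 1
  rw [mul_one] at h1
  rcases hc.val 1 (Nat.coprime_one_left N) with h | h
  · exact h
  · rw [h] at h1
    norm_num at h1

open Classical in
/-- first part of the local densities of `1 * c` -/
private noncomputable def sm2u (c : ℕ → ℝ) (S4 : Finset ℕ) (p : ℕ) : ℝ :=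
  if p ∈ S4 then 0 else (1 - c p / p) / p

open Classical in
/-- second part of the local densities of `1 * c` -/
private noncomputable def sm2e (c : ℕ → ℝ) (S4 : Finset ℕ) (p : ℕ) : ℝ :=
  if p ∈ S4 then 1 else c p / p

private theorem sm2_law {N z : ℕ} {c : ℕ → ℝ} (hc : RC N c) {S4 : Finset ℕ} (hcard : S4.card ≤ 4) :
    Law z (PN N z) S4 (sm2u c S4) (sm2e c S4) := by
  have hmem : ∀ p ∈ PN N z, p.Prime ∧ p ≤ z ∧ ¬ p ∣ N := by
    intro p hp
    unfold PN at hp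
    rw [Finset.mem_filter, Finset.mem_range] at hp
    exact ⟨hp.2.1, by omega, hp.2.2⟩
  refine ⟨fun p hp => ⟨(hmem p hp).1, (hmem p hp).2.1⟩, hcard, ?_, ?_, ?_⟩
  · intro p hp
    unfold sm2u sm2e
    rw [if_pos hp, if_pos hp]
    exact ⟨rfl, rfl⟩
  · intro p hp hp4
    obtain ⟨hpr, -, hpN⟩ := hmem p hp
    have hcop : p.Coprime N := (Nat.Prime.coprime_iff_not_dvd hpr).2 hpN
    have hp2 : (2 : ℝ) ≤ p := by exact_mod_cast hpr.two_le
    have hp0 : (0 : ℝ) < p := by linarith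
    have hinv : (1 : ℝ) / p ≤ 1 / 2 := one_div_le_one_div_of_le (by norm_num) hp2
    have hinv0 : (0 : ℝ) < 1 / p := by positivity
    unfold sm2u sm2e
    rw [if_neg hp4, if_neg hp4]
    set t : ℝ := 1 / (p : ℝ) with ht
    have e1 : (1 - c p / p) / p = t * (1 - c p * t) := by rw [ht]; ring
    have e2 : c p / (p : ℝ) = c p * t := by rw [ht]; ring
    have e3 : 3 / (p : ℝ) = 3 * t := by rw [ht]; ring
    rw [e1, e2, e3]
    rcases hc.val p hcop with h | h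
    · rw [h]
      have h1 : 0 ≤ t * (1 - 1 * t) := mul_nonneg hinv0.le (by linarith)
      refine ⟨?_, h1, by linarith⟩
      rw [abs_of_nonneg h1, abs_of_nonneg (by linarith)]
      nlinarith
    · rw [h]
      have h1 : 0 ≤ t * (1 - -1 * t) := mul_nonneg hinv0.le (by linarith)
      refine ⟨?_, h1, by nlinarith⟩
      rw [abs_of_nonneg h1, abs_of_nonpos (by linarith)]
      nlinarith
  · intro p hp
    obtain ⟨hpr, -, -⟩ := hmem p hp
    have hp0 : (0 : ℝ) < p := by exact_mod_cast hpr.pos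
    unfold sm2u sm2e
    by_cases h : p ∈ S4
    · rw [if_pos h, if_pos h, zero_add]
    · rw [if_neg h, if_neg h]
      field_simp
      ring

private theorem sm2_prog {N : ℕ} (c : ℕ → ℝ) (m a b r : ℕ) (hab : a ≤ b) :
    ∑ n ∈ (Finset.Ioc a b).filter (fun n => n % m = r % m), rr c n =
      ∑ n ∈ (Finset.Icc 1 b).filter (fun n => n % m = r % m), rr c n -
        ∑ n ∈ (Finset.Icc 1 a).filter (fun n => n % m = r % m), rr c n := by
  have _ := N
  rw [eq_sub_iff_add_eq, ← Finset.sum_union]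
  · refine Finset.sum_congr ?_ fun _ _ => rfl
    ext n
    simp only [Finset.mem_union, Finset.mem_filter, Finset.mem_Ioc, Finset.mem_Icc]
    constructor
    · rintro (⟨⟨h1, h2⟩, h3⟩ | ⟨⟨h1, h2⟩, h3⟩)
      · exact ⟨⟨by omega, h2⟩, h3⟩
      · exact ⟨⟨h1, by omega⟩, h3⟩
    · rintro ⟨⟨h1, h2⟩, h3⟩
      by_cases h : n ≤ a
      · right; exact ⟨⟨h1, h⟩, h3⟩
      · left; exact ⟨⟨by omega, h2⟩, h3⟩
  · rw [Finset.disjoint_left]
    intro n h1 h2
    simp only [Finset.mem_filter, Finset.mem_Ioc, Finset.mem_Icc] at h1 h2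
    omega

private theorem sm2_haslaw {N z : ℕ} {c : ℕ → ℝ} {L : ℝ}
    (hrap : ∀ m : ℕ, Squarefree m → m.Coprime N → (m : ℝ) ≤ (N : ℝ) ^ ((1 : ℝ) / 50) → ∀ b y : ℕ,
      (y : ℝ) ≤ (N : ℝ) ^ ((21 : ℝ) / 20) →
      |∑ n ∈ (Finset.Icc 1 y).filter (fun n => n % m = b % m), rr c n -
        L * y * ∏ p ∈ m.primeFactors, ((1 - c p / p) / p + if p ∣ b then c p / p else 0)| ≤
        (N : ℝ) ^ ((4 : ℝ) / 5) / 2)
    (S4 : Finset ℕ) {a b : ℕ} (hab : a ≤ b) (hb : (b : ℝ) ≤ (N : ℝ) ^ ((21 : ℝ) / 20)) {Y : ℕ}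
    (hY : (Y : ℝ) ≤ (N : ℝ) ^ ((1 : ℝ) / 50)) :
    HasLaw (PN N z) S4 (sm2u c S4) (sm2e c S4) (Finset.Ioc a b) (rr c) (L * ((b : ℝ) - a))
      ((N : ℝ) ^ ((4 : ℝ) / 5)) Y := by
  intro m hm hmp hmY r
  have hmN : m.Coprime N := by
    apply Nat.Coprime.symm
    apply Nat.coprime_of_dvd
    intro p hp hpN hpm
    have h1 := (hmp p hp hpm).1
    unfold PN at h1
    rw [Finset.mem_filter] at h1
    exact h1.2.2 hpN
  have hmY' : (m : ℝ) ≤ (N : ℝ) ^ ((1 : ℝ) / 50) := le_trans (by exact_mod_cast hmY) hY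
  have ha : (a : ℝ) ≤ (N : ℝ) ^ ((21 : ℝ) / 20) := le_trans (by exact_mod_cast hab) hb
  have h1 := hrap m hm hmN hmY' r b hb
  have h2 := hrap m hm hmN hmY' r a ha
  have h3 : ∏ p ∈ m.primeFactors, (sm2u c S4 p + if p ∣ r then sm2e c S4 p else 0) =
      ∏ p ∈ m.primeFactors, ((1 - c p / p) / p + if p ∣ r then c p / p else 0) := by
    refine Finset.prod_congr rfl fun p hp => ?_
    have h4 := hmp p (Nat.prime_of_mem_primeFactors hp) (Nat.dvd_of_mem_primeFactors hp)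
    unfold sm2u sm2e
    rw [if_neg h4.2, if_neg h4.2]
  rw [h3, sm2_prog (N := N) c m a b r hab]
  set P := ∏ p ∈ m.primeFactors, ((1 - c p / p) / p + if p ∣ r then c p / p else 0) with hP
  have h5 := abs_le.1 h1
  have h6 := abs_le.1 h2
  have e : L * ((b : ℝ) - a) * P = L * b * P - L * a * P := by ring
  rw [e, abs_le]
  constructor <;> linarith [h5.1, h5.2, h6.1, h6.2]

open Classical in
theorem SM2 : ∃ K : ℕ, 1 ≤ K ∧ ∀ κ : ℝ, 0 < κ → κ ≤ 1 / 25 → ∃ N0 : ℕ, ∀ (N : ℕ) [NeZero N], N0 ≤ N →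
    ∀ z J M : ℕ, 2 ≤ z → 1 ≤ J → 1 ≤ M → (M : ℝ) ^ 4 * (J : ℝ) ^ 2 * (z : ℝ) ^ K ≤ (N : ℝ) ^ (κ / 2) →
    ∀ (c : ℕ → ℝ) (L : ℝ), RC N c → LV N c L → (N : ℝ) ^ (-(1 / 50) : ℝ) ≤ L →
    ∀ w0 m T : ℕ, 1 ≤ w0 → w0.Coprime N → w0 ≤ 16 * M ^ 4 → w0.primeFactors.card ≤ 2 →
    1 ≤ m → m.Coprime N → (m : ℝ) ≤ J * (N : ℝ) ^ κ →
    (m.primeFactors.filter fun p => p ≤ z).card ≤ 2 → N ≤ T → T ≤ J * N →
    ∀ ep : ℤ, ep = 1 ∨ ep = -1 →
    (((Finset.Icc 1 (T / m)).filter fun q : ℕ => q.Prime ∧ (N : ℝ) ^ (1 - κ) < q ∧ c q = 1 ∧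
      ¬ Good N z J ((ep : ZMod N) * (w0 : ZMod N) * (m : ZMod N) * (q : ZMod N))).card : ℝ) ≤
      (Real.log N) ^ 15 * L * T / (m * J) := by
  obtain ⟨K', hK', N1, hbad⟩ := bad_classes
  obtain ⟨N2, hrap⟩ := rap_law
  refine ⟨2 * K', by omega, fun κ hκ hκ' => ?_⟩
  refine ⟨max N1 (max N2 ⌈Real.exp 17⌉₊), ?_⟩
  intro N hNz hN z J M hz hJ hM hsize c L hc hL hLlow w0 m T hw1 hwN hwM hwc hm1 hmN hmJ hmc hNT hTJ ep hep
  have hN1 : N1 ≤ N := le_trans (le_max_left _ _) hN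
  have hN2 : N2 ≤ N := le_trans (le_trans (le_max_left _ _) (le_max_right _ _)) hN
  have hN3 : ⌈Real.exp 17⌉₊ ≤ N := le_trans (le_trans (le_max_right _ _) (le_max_right _ _)) hN
  have hNexp : Real.exp 17 ≤ N := le_trans (Nat.le_ceil _) (by exact_mod_cast hN3)
  have hN0 : (0 : ℝ) < N := lt_of_lt_of_le (Real.exp_pos _) hNexp
  have hlog : 17 ≤ Real.log N := by
    rw [Real.le_log_iff_exp_le hN0]
    exact hNexp
  have hNge1 : (1 : ℝ) ≤ N := le_trans (Real.one_le_exp (by norm_num)) hNexp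
  have hNnat : 0 < N := by exact_mod_cast hN0
  have hL0 : 0 ≤ L := hL.1
  have hJ1 : (1 : ℝ) ≤ J := by exact_mod_cast hJ
  have hM1 : (1 : ℝ) ≤ M := by exact_mod_cast hM
  have hz1 : (1 : ℝ) ≤ z := by
    have : (2 : ℝ) ≤ z := by exact_mod_cast hz
    linarith
  have hM4 : (1 : ℝ) ≤ (M : ℝ) ^ 4 := one_le_pow₀ hM1
  have hJ2 : (1 : ℝ) ≤ (J : ℝ) ^ 2 := one_le_pow₀ hJ1
  have hzK : (1 : ℝ) ≤ (z : ℝ) ^ (2 * K') := one_le_pow₀ hz1
  have hNk0 : 0 < (N : ℝ) ^ (κ / 2) := Real.rpow_pos_of_pos hN0 _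
  -- consequences of the size hypothesis
  have hzK' : (z : ℝ) ^ (2 * K') ≤ (N : ℝ) ^ (κ / 2) := by
    calc (z : ℝ) ^ (2 * K') = 1 * 1 * (z : ℝ) ^ (2 * K') := by ring
      _ ≤ (M : ℝ) ^ 4 * (J : ℝ) ^ 2 * (z : ℝ) ^ (2 * K') := by gcongr
      _ ≤ _ := hsize
  have hJk : (J : ℝ) ≤ (N : ℝ) ^ (κ / 2) := by
    calc (J : ℝ) ≤ (J : ℝ) ^ 2 := by nlinarith
      _ = 1 * (J : ℝ) ^ 2 * 1 := by ring
      _ ≤ (M : ℝ) ^ 4 * (J : ℝ) ^ 2 * (z : ℝ) ^ (2 * K') := by gcongr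
      _ ≤ _ := hsize
  have hk50 : (N : ℝ) ^ (κ / 2) ≤ (N : ℝ) ^ ((1 : ℝ) / 50) :=
    Real.rpow_le_rpow_of_exponent_le hNge1 (by linarith)
  have hzN : z ≤ N := by
    have h1 : (z : ℝ) ≤ (N : ℝ) := by
      calc (z : ℝ) = (z : ℝ) ^ 1 := (pow_one _).symm
        _ ≤ (z : ℝ) ^ (2 * K') := pow_le_pow_right₀ hz1 (by omega)
        _ ≤ (N : ℝ) ^ (κ / 2) := hzK'
        _ ≤ (N : ℝ) ^ (1 : ℝ) := Real.rpow_le_rpow_of_exponent_le hNge1 (by linarith)
        _ = N := Real.rpow_one _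
    exact_mod_cast h1
  have hYz : ((z ^ (2 * K') : ℕ) : ℝ) ≤ (N : ℝ) ^ ((1 : ℝ) / 50) := by
    push_cast
    exact hzK'.trans hk50
  -- the parameters
  set v : ℕ := w0 * m with hv
  have hv1 : 1 ≤ v := Nat.mul_pos hw1 hm1
  have hvN : v.Coprime N := Nat.Coprime.mul_left hwN hmN
  set S4 : Finset ℕ := (PN N z).filter (fun p => p ∣ v) with hS4
  have hS4' : ∀ p : ℕ, p ∈ S4 ↔ p ∈ PN N z ∧ p ∣ v := by
    intro p
    rw [hS4, Finset.mem_filter]
  have hcard : S4.card ≤ 4 := by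
    have hsub : S4 ⊆ w0.primeFactors ∪ m.primeFactors.filter (fun p => p ≤ z) := by
      intro p hp
      obtain ⟨h1, h2⟩ := (hS4' p).1 hp
      unfold PN at h1
      rw [Finset.mem_filter, Finset.mem_range] at h1
      have hpr := h1.2.1
      rw [Finset.mem_union, Finset.mem_filter]
      rcases (Nat.Prime.dvd_mul hpr).1 h2 with h3 | h3
      · left
        exact Nat.mem_primeFactors.2 ⟨hpr, h3, by omega⟩
      · right
        exact ⟨Nat.mem_primeFactors.2 ⟨hpr, h3, by omega⟩, by omega⟩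
    calc S4.card ≤ (w0.primeFactors ∪ m.primeFactors.filter (fun p => p ≤ z)).card :=
          Finset.card_le_card hsub
      _ ≤ w0.primeFactors.card + (m.primeFactors.filter (fun p => p ≤ z)).card :=
          Finset.card_union_le _ _
      _ ≤ 4 := by omega
  have hlaw := sm2_law (N := N) (z := z) hc hcard
  set hi : ℕ := T / m with hhi
  have hhiT : hi ≤ T := Nat.div_le_self _ _
  have hT2120 : (T : ℝ) ≤ (N : ℝ) ^ ((21 : ℝ) / 20) := by
    calc (T : ℝ) ≤ J * N := by exact_mod_cast hTJ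
      _ ≤ (N : ℝ) ^ ((1 : ℝ) / 50) * (N : ℝ) ^ (1 : ℝ) := by
          rw [Real.rpow_one]
          exact mul_le_mul_of_nonneg_right (hJk.trans hk50) hN0.le
      _ = (N : ℝ) ^ ((1 : ℝ) / 50 + 1) := (Real.rpow_add hN0 _ _).symm
      _ ≤ (N : ℝ) ^ ((21 : ℝ) / 20) := Real.rpow_le_rpow_of_exponent_le hNge1 (by norm_num)
  set A : Finset ℕ := (Finset.Ioc 0 hi).filter (fun n : ℕ => n.Coprime N ∧
    ¬ Good N z J ((ep : ZMod N) * (v : ZMod N) * (n : ZMod N))) with hA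
  -- step 1: bound by the weights
  have step1 : (((Finset.Icc 1 (T / m)).filter fun q : ℕ => q.Prime ∧ (N : ℝ) ^ (1 - κ) < q ∧ c q = 1 ∧
      ¬ Good N z J ((ep : ZMod N) * (w0 : ZMod N) * (m : ZMod N) * (q : ZMod N))).card : ℝ) ≤
      ∑ n ∈ A, rr c n := by
    rw [Finset.card_eq_sum_ones]
    push_cast
    refine le_trans (Finset.sum_le_sum (g := fun n => rr c n) ?_)
      (Finset.sum_le_sum_of_subset_of_nonneg ?_ fun n _ _ => rr_nonneg N c hc n)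
    · intro q hq
      rw [Finset.mem_filter] at hq
      obtain ⟨-, hqp, -, hcq, -⟩ := hq
      have : rr c q = c 1 + c q := by
        unfold rr
        rw [Nat.Prime.divisors hqp, Finset.sum_pair hqp.one_lt.ne]
      rw [this, sm2_one hc, hcq]
      norm_num
    · intro q hq
      rw [Finset.mem_filter, Finset.mem_Icc] at hq
      obtain ⟨⟨hq1, hq2⟩, hqp, -, hcq, hgood⟩ := hq
      rw [hA, Finset.mem_filter, Finset.mem_Ioc]
      refine ⟨⟨by omega, hq2⟩, ?_, ?_⟩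
      · by_contra hcop
        rw [hc.zero q hcop] at hcq
        norm_num at hcq
      · have e : (ep : ZMod N) * (v : ZMod N) * (q : ZMod N) =
            (ep : ZMod N) * (w0 : ZMod N) * (m : ZMod N) * (q : ZMod N) := by
          rw [hv]
          push_cast
          ring
        rw [e]
        exact hgood
  -- step 2: the fibres
  set img : Finset ℕ := (Finset.Ioc 0 hi).image (fun n => v * n / N) with himg
  have step2 : ∑ n ∈ A, rr c n = ∑ k ∈ img, ∑ n ∈ A.filter (fun n => v * n / N = k), rr c n := by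
    refine (Finset.sum_fiberwise_of_maps_to (fun n hn => ?_) _).symm
    rw [himg]
    exact Finset.mem_image_of_mem _ (Finset.mem_filter.1 hn).1
  have step3 : ∀ k ∈ img, ∑ n ∈ A.filter (fun n => v * n / N = k), rr c n ≤
      (Real.log N) ^ 14 * (L * (((Finset.Ioc 0 hi).filter (fun n => v * n / N = k)).card : ℝ)) / J +
        (Real.log N) ^ 3 * (z : ℝ) ^ (2 * K') * (N : ℝ) ^ ((4 : ℝ) / 5) := by
    intro k _
    obtain ⟨a, b, hab, -, hbhi, hfil⟩ := floor_int N v 0 hi k hNnat (Nat.zero_le _)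
    have hb : (b : ℝ) ≤ (N : ℝ) ^ ((21 : ℝ) / 20) :=
      le_trans (by exact_mod_cast hbhi.trans hhiT) hT2120
    have hab' : (a : ℝ) ≤ b := by exact_mod_cast hab
    have hhl := sm2_haslaw (z := z) (hrap N hN2 c L hc hL) S4 hab hb hYz
    have hconst : ∀ n ∈ Finset.Ioc a b, v * n / N = k := by
      intro n hn
      rw [← hfil] at hn
      exact (Finset.mem_filter.1 hn).2
    have h1 := hbad N hN1 z J v hz hzN hJ hv1 hvN S4 (sm2u c S4) (sm2e c S4) hlaw hS4'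
      (Finset.Ioc a b) (rr c) (L * ((b : ℝ) - a)) ((N : ℝ) ^ ((4 : ℝ) / 5))
      (mul_nonneg hL0 (by linarith)) (Real.rpow_nonneg hN0.le _)
      (fun n _ => rr_nonneg N c hc n) hhl k hconst ep hep
    have h2 : A.filter (fun n => v * n / N = k) = (Finset.Ioc a b).filter (fun n : ℕ => n.Coprime N ∧
        ¬ Good N z J ((ep : ZMod N) * (v : ZMod N) * (n : ZMod N))) := by
      rw [← hfil, hA]
      ext n
      simp only [Finset.mem_filter]
      tauto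
    have h3 : (((Finset.Ioc 0 hi).filter (fun n => v * n / N = k)).card : ℝ) = (b : ℝ) - a := by
      rw [hfil, Nat.card_Ioc]
      push_cast [Nat.cast_sub hab]
      ring
    rw [h2, h3]
    exact h1
  -- step 4: summation
  have step4 : ∑ k ∈ img, (((Finset.Ioc 0 hi).filter (fun n => v * n / N = k)).card : ℝ) = hi := by
    rw [← Nat.cast_sum, ← Finset.card_eq_sum_card_fiberwise (fun n hn => ?_)]
    · rw [Nat.card_Ioc]
      simp
    · rw [himg]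
      exact Finset.mem_image_of_mem _ hn
  have step5 : (img.card : ℝ) ≤ 17 * (M : ℝ) ^ 4 * J := by
    have h1 := floor_card N v 0 hi hNnat
    have h2 : v * hi ≤ 16 * M ^ 4 * J * N := by
      calc v * hi = w0 * (m * (T / m)) := by rw [hv, hhi]; ring
        _ ≤ w0 * T := Nat.mul_le_mul_left _ (Nat.mul_div_le T m)
        _ ≤ (16 * M ^ 4) * (J * N) := Nat.mul_le_mul hwM hTJ
        _ = 16 * M ^ 4 * J * N := by ring
    have h3 : v * hi / N ≤ 16 * M ^ 4 * J := by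
      apply Nat.div_le_of_le_mul
      calc v * hi ≤ 16 * M ^ 4 * J * N := h2
        _ = N * (16 * M ^ 4 * J) := by ring
    have h4 : img.card ≤ 16 * M ^ 4 * J + 1 := by
      calc img.card ≤ v * hi / N + 1 := h1
        _ ≤ _ := by omega
    have h5 : (img.card : ℝ) ≤ 16 * (M : ℝ) ^ 4 * J + 1 := by exact_mod_cast h4
    have h6 : (1 : ℝ) ≤ (M : ℝ) ^ 4 * J := by nlinarith
    linarith
  have hsum : ∑ n ∈ A, rr c n ≤ (Real.log N) ^ 14 * (L * hi) / J +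
      17 * (M : ℝ) ^ 4 * J * ((Real.log N) ^ 3 * (z : ℝ) ^ (2 * K') * (N : ℝ) ^ ((4 : ℝ) / 5)) := by
    rw [step2]
    refine (Finset.sum_le_sum step3).trans ?_
    rw [Finset.sum_add_distrib]
    have e1 : ∑ k ∈ img, (Real.log N) ^ 14 *
        (L * (((Finset.Ioc 0 hi).filter (fun n => v * n / N = k)).card : ℝ)) / J =
        (Real.log N) ^ 14 * (L * hi) / J := by
      rw [← step4, Finset.mul_sum, Finset.mul_sum, Finset.sum_div]
    rw [e1, Finset.sum_const, nsmul_eq_mul]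
    have hpos : 0 ≤ (Real.log N) ^ 3 * (z : ℝ) ^ (2 * K') * (N : ℝ) ^ ((4 : ℝ) / 5) := by
      have : 0 ≤ Real.log N := by linarith
      positivity
    have := mul_le_mul_of_nonneg_right step5 hpos
    linarith
  refine step1.trans (hsum.trans ?_)
  -- the numerical part
  have hm0 : (0 : ℝ) < m := by exact_mod_cast hm1
  have hJ0 : (0 : ℝ) < J := by linarith
  have hl0 : 0 < Real.log N := by linarith
  have hhiR : (hi : ℝ) ≤ (T : ℝ) / m := Nat.cast_div_le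
  have hT0 : (N : ℝ) ≤ T := by exact_mod_cast hNT
  set l : ℝ := Real.log N with hl
  have h1 : l ^ 14 * (L * hi) / J ≤ l ^ 14 * L * T / (m * J) := by
    rw [div_le_div_iff₀ hJ0 (by positivity)]
    have : (hi : ℝ) * m ≤ T := by
      rwa [le_div_iff₀ hm0] at hhiR
    calc l ^ 14 * (L * hi) * (m * J) = l ^ 14 * L * J * (hi * m) := by ring
      _ ≤ l ^ 14 * L * J * T := mul_le_mul_of_nonneg_left this (by positivity)
      _ = l ^ 14 * L * T * J := by ring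
  have h2 : 17 * (M : ℝ) ^ 4 * J * (l ^ 3 * (z : ℝ) ^ (2 * K') * (N : ℝ) ^ ((4 : ℝ) / 5)) ≤
      l ^ 14 * L * T / (m * J) := by
    rw [le_div_iff₀ (by positivity)]
    have h3 : (m : ℝ) * (N : ℝ) ^ ((4 : ℝ) / 5) * ((M : ℝ) ^ 4 * (J : ℝ) ^ 2 * (z : ℝ) ^ (2 * K')) ≤ L * T := by
      calc (m : ℝ) * (N : ℝ) ^ ((4 : ℝ) / 5) * ((M : ℝ) ^ 4 * (J : ℝ) ^ 2 * (z : ℝ) ^ (2 * K'))
          ≤ ((N : ℝ) ^ (κ / 2) * (N : ℝ) ^ κ) * (N : ℝ) ^ ((4 : ℝ) / 5) * (N : ℝ) ^ (κ / 2) := by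
            have h4 : (m : ℝ) ≤ (N : ℝ) ^ (κ / 2) * (N : ℝ) ^ κ :=
              hmJ.trans (mul_le_mul_of_nonneg_right hJk (Real.rpow_nonneg hN0.le _))
            gcongr
        _ = (N : ℝ) ^ (κ / 2 + κ + 4 / 5 + κ / 2) := by
            rw [Real.rpow_add hN0, Real.rpow_add hN0, Real.rpow_add hN0]
        _ ≤ (N : ℝ) ^ (-(1 / 50) + 1 : ℝ) :=
            Real.rpow_le_rpow_of_exponent_le hNge1 (by linarith)
        _ = (N : ℝ) ^ (-(1 / 50) : ℝ) * N := by rw [Real.rpow_add hN0, Real.rpow_one]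
        _ ≤ L * T := mul_le_mul hLlow hT0 hN0.le hL0
    have h5 : 17 * l ^ 3 ≤ l ^ 14 := by
      have h6 : 17 ≤ l ^ 11 := by
        calc (17 : ℝ) ≤ l := hlog
          _ = l ^ 1 := (pow_one l).symm
          _ ≤ l ^ 11 := pow_le_pow_right₀ (by linarith) (by norm_num)
      calc 17 * l ^ 3 ≤ l ^ 11 * l ^ 3 := mul_le_mul_of_nonneg_right h6 (by positivity)
        _ = l ^ 14 := by ring
    calc 17 * (M : ℝ) ^ 4 * J * (l ^ 3 * (z : ℝ) ^ (2 * K') * (N : ℝ) ^ ((4 : ℝ) / 5)) * (m * J)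
        = (17 * l ^ 3) * ((m : ℝ) * (N : ℝ) ^ ((4 : ℝ) / 5) *
            ((M : ℝ) ^ 4 * (J : ℝ) ^ 2 * (z : ℝ) ^ (2 * K'))) := by ring
      _ ≤ l ^ 14 * (L * T) := mul_le_mul h5 h3 (by positivity) (by positivity)
      _ = l ^ 14 * L * T := by ring
  have h6 : l ^ 14 * L * T / (m * J) + l ^ 14 * L * T / (m * J) ≤ l ^ 15 * L * T / (m * J) := by
    rw [← add_div]
    apply div_le_div_of_nonneg_right _ (by positivity)
    have h7 : 0 ≤ l ^ 14 * L * T := by positivity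
    have h8 : l ^ 15 * L * T = l * (l ^ 14 * L * T) := by ring
    rw [h8]
    nlinarith
  linarith

end Pool.Agent.Lib.RG
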