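import Pool.Agent.Lib.MP_7b7e48_nt.RG.TOOLS
import Pool.Agent.Lib.MP_7b7e48_nt.RG.SM0
import Pool.Agent.Lib.MP_7b7e48_nt.RG.SM1
import Pool.Agent.Lib.MP_7b7e48_nt.RG.SM2
import Pool.Agent.Lib.MP_7b7e48_nt.RG.A2
import Pool.Agent.Lib.MP_7b7e48_nt.RG.A4b
import Pool.Agent.Lib.MP_7b7e48_nt.RG.E7

/-!
# Module TOOL2 (75 minutes): the tools hold for all large `N`

PROOF. `κ0 = min κ0(E7.mass) (1/1000)`. Given `κ`, `c0(mass)`, `A(mass)`; let `K` be the maximum of the constants `K` of `SM0`, `SM1`, `SM2`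
(apply them with `z^K ≤ z^(max)`), `c0 = min (c0(mass)) (κ / (10000 (K + 1)))`. `num` gives `Num P N`. The conditions: `M^4 J^2 z^K ≤ N^(κ/2)` from `M ≤ 2 (log N)^C1`,
`J ≤ 2 (log N)^1000`, `sm` and `z^K ≤ N^(c K) ≤ N^(κ/10000)`. A number `w` with `W2` is `≤ 16 M^4` (`(4 M²)² `), coprime to `N`, at most two prime factors. `smc m ≤ 2` implies that
at most two primes `≤ zz` divide `m`. `c n = Re χ n`: `RC_char`, `LV_char (1/100)` (`κ' N^(-1/100) ≥ N^(-1/50)` for large `N`), `χ q = 1 ↔ Re χ q = 1` (`χ² = 1`).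
`sg`: `A4b.sig_lower` with `z = zz`, `T = ⌊N^(1-κ)⌋ ≥ N^(9/10)`, `zz ≤ N^(1/20)`: `L / (C log N) ≤ sig c z T`, and `sig c z T ≤ sig P χ` (the same primes; those dividing `N` have `c = 0`), `C ≤ (log N)^2`.
`mass`: `E7.mass` with `j = m0`, `z = zz`: `(log N)^A ≤ (log N)^C1 ≤ MM = 2^m0`, `MM ≤ N^(κ/20)`, `MM ≤ zz ≤ N^c0` (`Blk` and `InR` unfold to the hypotheses of `E7`).
(`[NeZero N]`: the theorem is applied after fixing `N ≥ N0 ≥ 1`.)
-/

open Finset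

namespace Pool.Agent.Lib.RH

open Pool.Agent.Lib.RG hiding RR sig Good

private theorem t_N1 {P : Prm} {N : ℕ} (hn : Num P N) : (1 : ℝ) ≤ N := by
  by_contra h
  push Not at h
  have h0 : N = 0 := by
    have : N < 1 := by exact_mod_cast h
    omega
  have h1 := hn.K
  rw [h0] at h1
  norm_num at h1

private theorem t_zz {P : Prm} {N : ℕ} (hn : Num P N) : 2 ≤ zz P N := by
  have h1 := hn.K
  have h2 : (1 : ℝ) ≤ Real.log N := by linarith
  have h3 : Real.log N ^ 1 ≤ Real.log N ^ (100 * P.C1 + 10000) := pow_le_pow_right₀ h2 (by omega)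
  rw [pow_one] at h3
  have h4 := hn.z5
  have h5 : (2 : ℝ) ≤ zz P N := by linarith
  exact_mod_cast h5

private theorem t_JJ {P : Prm} {N : ℕ} (hn : Num P N) : 1 ≤ JJ N := by
  have h1 := hn.K
  have h2 : (1 : ℝ) ≤ Real.log N := by linarith
  have h3 : (1 : ℝ) ≤ Real.log N ^ 1000 := one_le_pow₀ h2
  have h4 : (1 : ℝ) ≤ JJ N := h3.trans hn.J1
  exact_mod_cast h4

private theorem t_MM1 (P : Prm) (N : ℕ) : 1 ≤ MM P N := Nat.one_le_two_pow

private theorem t_size {P : Prm} {N : ℕ} (hn : Num P N) :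
    (MM P N : ℝ) ^ 4 * (JJ N : ℝ) ^ 2 ≤ (N : ℝ) ^ (P.kap / 1000) := by
  have h1 := hn.K
  have h2 : (1 : ℝ) ≤ Real.log N := by linarith
  have hM : (MM P N : ℝ) ^ 4 ≤ (2 * Real.log N ^ P.C1) ^ 4 :=
    pow_le_pow_left₀ (Nat.cast_nonneg _) hn.M2 4
  have hJ : (JJ N : ℝ) ^ 2 ≤ (2 * Real.log N ^ 1000) ^ 2 :=
    pow_le_pow_left₀ (Nat.cast_nonneg _) hn.J2 2
  calc (MM P N : ℝ) ^ 4 * (JJ N : ℝ) ^ 2
      ≤ (2 * Real.log N ^ P.C1) ^ 4 * (2 * Real.log N ^ 1000) ^ 2 :=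
        mul_le_mul hM hJ (by positivity) (by positivity)
    _ = 64 * Real.log N ^ (4 * P.C1 + 2000) := by ring
    _ ≤ Real.log N * Real.log N ^ (4 * P.C1 + 2000) :=
        mul_le_mul_of_nonneg_right (by linarith) (by positivity)
    _ = Real.log N ^ (4 * P.C1 + 2001) := by ring
    _ ≤ Real.log N ^ (100 * P.C1 + 10000) := pow_le_pow_right₀ h2 (by omega)
    _ ≤ _ := hn.sm

private theorem t_MMsmall {P : Prm} {N : ℕ} (hn : Num P N) :
    (MM P N : ℝ) ≤ (N : ℝ) ^ (P.kap / 1000) := by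
  refine le_trans ?_ (t_size hn)
  have hM : (1 : ℝ) ≤ MM P N := by exact_mod_cast t_MM1 P N
  have hJ : (1 : ℝ) ≤ JJ N := by exact_mod_cast t_JJ hn
  calc (MM P N : ℝ) = (MM P N : ℝ) ^ 1 * 1 := by ring
    _ ≤ (MM P N : ℝ) ^ 4 * (JJ N : ℝ) ^ 2 :=
        mul_le_mul (pow_le_pow_right₀ hM (by norm_num)) (one_le_pow₀ hJ) (by norm_num)
          (by positivity)

private theorem t_MMzz {P : Prm} {N : ℕ} (hn : Num P N) : MM P N ≤ zz P N := by
  have h1 := hn.K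
  have h2 : (1 : ℝ) ≤ Real.log N := by linarith
  have h3 : (MM P N : ℝ) ≤ zz P N := by
    calc (MM P N : ℝ) ≤ 2 * Real.log N ^ P.C1 := hn.M2
      _ ≤ Real.log N * Real.log N ^ P.C1 :=
          mul_le_mul_of_nonneg_right (by linarith) (by positivity)
      _ = Real.log N ^ (P.C1 + 1) := by ring
      _ ≤ Real.log N ^ (100 * P.C1 + 10000) := pow_le_pow_right₀ h2 (by omega)
      _ ≤ _ := hn.z5
  exact_mod_cast h3

private theorem t_W2 {P : Prm} {N w : ℕ} (h : W2 P N w) :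
    1 ≤ w ∧ w.Coprime N ∧ w ≤ 16 * MM P N ^ 4 ∧ w.primeFactors.card ≤ 2 := by
  have hP1 : ∀ l ∈ PZ N (MM P N), l.Prime ∧ l.Coprime N ∧ l ≤ 4 * MM P N ^ 2 := by
    intro l hl
    unfold PZ at hl
    rw [mem_filter, mem_Ioc] at hl
    exact ⟨hl.2.1, (Nat.Prime.coprime_iff_not_dvd hl.2.1).2 hl.2.2, hl.1.2⟩
  have hM := t_MM1 P N
  rcases h with h | h | ⟨l, hl, l', hl', h⟩
  · subst h
    refine ⟨le_rfl, Nat.coprime_one_left N, ?_, by simp⟩
    have : 1 ≤ MM P N ^ 4 := Nat.one_le_pow _ _ hM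
    omega
  · obtain ⟨h1, h2, h3⟩ := hP1 w h
    refine ⟨h1.one_lt.le, h2, ?_, ?_⟩
    · have h4 : MM P N ^ 2 ≤ MM P N ^ 4 := Nat.pow_le_pow_right hM (by norm_num)
      omega
    · rw [h1.primeFactors]
      simp
  · obtain ⟨h1, h2, h3⟩ := hP1 l hl
    obtain ⟨h1', h2', h3'⟩ := hP1 l' hl'
    subst h
    refine ⟨Nat.mul_pos h1.pos h1'.pos, Nat.Coprime.mul_left h2 h2', ?_, ?_⟩
    · calc l * l' ≤ (4 * MM P N ^ 2) * (4 * MM P N ^ 2) := Nat.mul_le_mul h3 h3'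
        _ = 16 * MM P N ^ 4 := by ring
    · rw [Nat.primeFactors_mul h1.ne_zero h1'.ne_zero, h1.primeFactors, h1'.primeFactors]
      exact (card_union_le _ _).trans (by simp)

private theorem t_smc {P : Prm} {N m : ℕ} (h : smc P N m ≤ 2) :
    (m.primeFactors.filter fun p => p ≤ zz P N).card ≤ 2 := by
  refine le_trans ?_ h
  unfold smc
  have h1 : (m.primeFactors.filter fun p => p ≤ zz P N) =
      (m.primeFactorsList.filter fun p => p ≤ zz P N).toFinset := by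
    ext p
    simp
  rw [h1]
  exact List.toFinset_card_le _

private theorem t_zpow {P : Prm} {N : ℕ} (hP : P.Ok) (hn : Num P N) {K' Kx : ℕ} (hK : K' ≤ Kx)
    (hc : P.c ≤ P.kap / (10000 * ((Kx : ℝ) + 1))) :
    (zz P N : ℝ) ^ K' ≤ (N : ℝ) ^ (P.kap / 10000) := by
  have hN := t_N1 hn
  have h0 : (0 : ℝ) ≤ N := by linarith
  calc (zz P N : ℝ) ^ K' ≤ ((N : ℝ) ^ P.c) ^ K' := pow_le_pow_left₀ (Nat.cast_nonneg _) hn.z1 K'
    _ = (N : ℝ) ^ (P.c * K') := by rw [← Real.rpow_natCast, ← Real.rpow_mul h0]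
    _ ≤ (N : ℝ) ^ (P.kap / 10000) := by
        apply Real.rpow_le_rpow_of_exponent_le hN
        have hKx : (0 : ℝ) < (Kx : ℝ) + 1 := by positivity
        have h1 : P.c * (10000 * ((Kx : ℝ) + 1)) ≤ P.kap := by
          rwa [le_div_iff₀ (by positivity)] at hc
        have h2 : (K' : ℝ) ≤ Kx := by exact_mod_cast hK
        have h3 : P.c * K' ≤ P.c * ((Kx : ℝ) + 1) :=
          mul_le_mul_of_nonneg_left (by linarith) hP.c0.le
        linarith

private theorem t_cond {P : Prm} {N : ℕ} (hP : P.Ok) (hn : Num P N) {K' Kx : ℕ} (hK : K' ≤ Kx)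
    (hc : P.c ≤ P.kap / (10000 * ((Kx : ℝ) + 1))) :
    (MM P N : ℝ) ^ 4 * (JJ N : ℝ) ^ 2 * (zz P N : ℝ) ^ K' ≤ (N : ℝ) ^ (P.kap / 2) := by
  have hN := t_N1 hn
  have h0 : (0 : ℝ) < N := by linarith
  calc (MM P N : ℝ) ^ 4 * (JJ N : ℝ) ^ 2 * (zz P N : ℝ) ^ K'
      ≤ (N : ℝ) ^ (P.kap / 1000) * (N : ℝ) ^ (P.kap / 10000) :=
        mul_le_mul (t_size hn) (t_zpow hP hn hK hc) (by positivity) (by positivity)
    _ = (N : ℝ) ^ (P.kap / 1000 + P.kap / 10000) := by rw [Real.rpow_add h0]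
    _ ≤ _ := by
        apply Real.rpow_le_rpow_of_exponent_le hN
        have := hP.kap0
        linarith

theorem tools : ∃ κ0 : ℝ, 0 < κ0 ∧ κ0 ≤ 1 / 1000 ∧ ∀ κ : ℝ, 0 < κ → κ ≤ κ0 → ∃ c0 : ℝ, 0 < c0 ∧ ∃ A : ℕ,
    ∀ P : Prm, P.Ok → P.kap = κ → P.c ≤ c0 → A ≤ P.C1 → ∃ N0 : ℕ, ∀ (N : ℕ) [NeZero N], N0 ≤ N →
    Tools P N := by
  obtain ⟨κm, hκm, hκm1, hmass⟩ := RG.mass
  obtain ⟨K0, hK0, N0, h0⟩ := RG.SM0
  obtain ⟨K1, hK1, h1⟩ := RG.SM1
  obtain ⟨K2, hK2, h2⟩ := RG.SM2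
  obtain ⟨Cs, hCs, Ns, hs⟩ := RG.sig_lower
  obtain ⟨κL, hκL, hL⟩ := RG.LV_char (1 / 100) (by norm_num)
  refine ⟨min κm (1 / 1000), by positivity, min_le_right _ _, ?_⟩
  intro κ hκ hκle
  have hκm' : κ ≤ κm := hκle.trans (min_le_left _ _)
  have hκ1 : κ ≤ 1 / 1000 := hκle.trans (min_le_right _ _)
  obtain ⟨cm, hcm, Am, hAm, Nm, hm⟩ := hmass κ hκ hκm'
  obtain ⟨Kx, hKx⟩ : ∃ Kx : ℕ, Kx = K0 + K1 + K2 := ⟨_, rfl⟩
  refine ⟨min cm (κ / (10000 * ((Kx : ℝ) + 1))), by positivity, Am, ?_⟩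
  intro P hP hPκ hPc hPA
  subst hPκ
  have hPc1 : P.c ≤ cm := hPc.trans (min_le_left _ _)
  have hPc2 : P.c ≤ P.kap / (10000 * ((Kx : ℝ) + 1)) := hPc.trans (min_le_right _ _)
  obtain ⟨Nn, hnum⟩ := num P hP
  obtain ⟨N1, h1'⟩ := h1 P.kap hκ (by linarith)
  obtain ⟨N2, h2'⟩ := h2 P.kap hκ (by linarith)
  have hlog : Filter.Tendsto (fun N : ℕ => Real.log N) Filter.atTop Filter.atTop :=
    Real.tendsto_log_atTop.comp tendsto_natCast_atTop_atTop
  have hpw : ∀ δ : ℝ, 0 < δ → Filter.Tendsto (fun N : ℕ => (N : ℝ) ^ δ) Filter.atTop Filter.atTop :=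
    fun δ hδ => (tendsto_rpow_atTop hδ).comp tendsto_natCast_atTop_atTop
  obtain ⟨N3, hN3⟩ := Filter.eventually_atTop.mp (hlog.eventually (Filter.eventually_ge_atTop Cs))
  obtain ⟨N4, hN4⟩ := Filter.eventually_atTop.mp
    ((hpw (1 / 100) (by norm_num)).eventually (Filter.eventually_ge_atTop (1 / κL)))
  obtain ⟨N5, hN5⟩ := Filter.eventually_atTop.mp
    ((hpw (1 / 20) (by norm_num)).eventually (Filter.eventually_ge_atTop (2 : ℝ)))
  refine ⟨N0 + N1 + N2 + N3 + N4 + N5 + Nm + Ns + Nn + 2, ?_⟩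
  intro N _ hN
  have hn : Num P N := hnum N (by omega)
  have hNr := t_N1 hn
  have hNp : (0 : ℝ) < N := by linarith
  have hK := hn.K
  have hK1' : (1 : ℝ) ≤ Real.log N := by linarith
  have hz2 := t_zz hn
  have hJ1 := t_JJ hn
  have hM1 := t_MM1 P N
  have hN2' : 2 ≤ N := by omega
  constructor
  · -- sm0
    have hc : (zz P N : ℝ) ^ K0 * JJ N ≤ (N : ℝ) ^ ((1 : ℝ) / 2) := by
      have hMr : (1 : ℝ) ≤ MM P N := by exact_mod_cast hM1
      have hJr : (1 : ℝ) ≤ JJ N := by exact_mod_cast hJ1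
      calc (zz P N : ℝ) ^ K0 * JJ N
          ≤ (MM P N : ℝ) ^ 4 * (JJ N : ℝ) ^ 2 * (zz P N : ℝ) ^ K0 := by
            have e1 : (JJ N : ℝ) ≤ (MM P N : ℝ) ^ 4 * (JJ N : ℝ) ^ 2 := by
              calc (JJ N : ℝ) = 1 * (JJ N : ℝ) ^ 1 := by ring
                _ ≤ (MM P N : ℝ) ^ 4 * (JJ N : ℝ) ^ 2 :=
                    mul_le_mul (one_le_pow₀ hMr) (pow_le_pow_right₀ hJr (by norm_num))
                      (by positivity) (by positivity)
            rw [mul_comm]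
            exact mul_le_mul_of_nonneg_right e1 (by positivity)
        _ ≤ (N : ℝ) ^ (P.kap / 2) := t_cond hP hn (by omega) hPc2
        _ ≤ _ := by
            apply Real.rpow_le_rpow_of_exponent_le hNr
            linarith
    exact h0 N (by omega) (zz P N) (JJ N) hz2 hJ1 hc
  · -- sm1
    intro w q T hw hq hqN hq2 hT1 hT2 ep hep
    obtain ⟨w1, w2, w3, w4⟩ := t_W2 hw
    exact h1' N (by omega) (zz P N) (JJ N) (MM P N) hz2 hJ1 hM1 (t_cond hP hn (by omega) hPc2)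
      w q T w1 w2 w3 w4 hq hqN hq2 hT1 hT2 ep hep
  · -- sm2
    intro χ L hχ hχ1 hLV hLl w m T hw hm1 hmN hm2 hm3 hT1 hT2 ep hep
    obtain ⟨w1, w2, w3, w4⟩ := t_W2 hw
    have h3 := h2' N (by omega) (zz P N) (JJ N) (MM P N) hz2 hJ1 hM1
      (t_cond hP hn (by omega) hPc2) (fun n => (χ (n : ZMod N)).re) L
      (RC_char N hN2' χ hχ hχ1) hLV hLl w m T w1 w2 w3 w4 hm1 hmN hm2 (t_smc hm3) hT1 hT2 ep hep
    refine le_trans (Nat.cast_le.2 (card_le_card ?_)) h3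
    intro q hq
    simp only [Finset.mem_filter] at hq ⊢
    obtain ⟨a1, a2, a3, a4, a5⟩ := hq
    refine ⟨a1, a2, a3, ?_, a5⟩
    show (χ (q : ZMod N)).re = 1
    rw [a4]
    simp
  · -- sg
    intro χ hχ hχ1
    obtain ⟨L, hLV, hLl⟩ := hL N hN2' χ hχ hχ1
    have h4 : (N : ℝ) ^ (-(1 / 50) : ℝ) ≤ L := by
      refine le_trans ?_ hLl
      have h5 := hN4 N (by omega)
      have h6 : (1 : ℝ) ≤ κL * (N : ℝ) ^ ((1 : ℝ) / 100) := by
        rw [div_le_iff₀ hκL] at h5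
        linarith
      calc (N : ℝ) ^ (-(1 / 50) : ℝ) = 1 * (N : ℝ) ^ (-(1 / 50) : ℝ) := by ring
        _ ≤ (κL * (N : ℝ) ^ ((1 : ℝ) / 100)) * (N : ℝ) ^ (-(1 / 50) : ℝ) :=
            mul_le_mul_of_nonneg_right h6 (by positivity)
        _ = κL * ((N : ℝ) ^ ((1 : ℝ) / 100) * (N : ℝ) ^ (-(1 / 50) : ℝ)) := by ring
        _ = κL * (N : ℝ) ^ (-(1 / 100) : ℝ) := by
            rw [← Real.rpow_add hNp]
            norm_num
    refine ⟨L, hLV, h4, ?_⟩
    obtain ⟨T, hT⟩ : ∃ T : ℕ, T = ⌊(N : ℝ) ^ (1 - P.kap)⌋₊ := ⟨_, rfl⟩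
    have hTle : (T : ℝ) ≤ (N : ℝ) ^ (1 - P.kap) := by
      rw [hT]
      exact Nat.floor_le (by positivity)
    have hT2 : (N : ℝ) ^ ((9 : ℝ) / 10) ≤ T := by
      have h5 : (N : ℝ) ^ (1 - P.kap) - 1 ≤ T := by
        rw [hT]
        exact (Nat.sub_one_lt_floor _).le
      have h6 := hN5 N (by omega)
      have h7 : (N : ℝ) ^ ((9 : ℝ) / 10) * 2 ≤ (N : ℝ) ^ (1 - P.kap) := by
        calc (N : ℝ) ^ ((9 : ℝ) / 10) * 2 ≤ (N : ℝ) ^ ((9 : ℝ) / 10) * (N : ℝ) ^ ((1 : ℝ) / 20) :=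
              mul_le_mul_of_nonneg_left h6 (by positivity)
          _ = (N : ℝ) ^ ((9 : ℝ) / 10 + 1 / 20) := by rw [Real.rpow_add hNp]
          _ ≤ _ := by
              apply Real.rpow_le_rpow_of_exponent_le hNr
              linarith
      have h8 : (1 : ℝ) ≤ (N : ℝ) ^ ((9 : ℝ) / 10) := Real.one_le_rpow hNr (by norm_num)
      linarith
    have hzl : Real.log N ≤ zz P N := by
      have h5 : Real.log N ^ 1 ≤ Real.log N ^ (100 * P.C1 + 10000) :=
        pow_le_pow_right₀ hK1' (by omega)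
      rw [pow_one] at h5
      exact h5.trans hn.z5
    have hzu : (zz P N : ℝ) ≤ (N : ℝ) ^ ((1 : ℝ) / 20) := by
      refine hn.z1.trans (Real.rpow_le_rpow_of_exponent_le hNr ?_)
      have := hP.c1
      have := hP.kap1
      linarith
    have h9 := hs N (by omega) (fun n => (χ (n : ZMod N)).re) L (RC_char N hN2' χ hχ hχ1) hLV h4
      (zz P N) T hzl hzu hT2
    have h10 : RG.sig (fun n => (χ (n : ZMod N)).re) (zz P N) T ≤ sig P χ := by
      unfold RG.sig sig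
      refine sum_le_sum_of_subset_of_nonneg ?_ (fun _ _ _ => by positivity)
      intro q hq
      rw [mem_filter, mem_range] at hq
      obtain ⟨b1, b2, b3, b4⟩ := hq
      have hqT : (q : ℝ) ≤ T := by exact_mod_cast (by omega : q ≤ T)
      have hq2 : (q : ℝ) ≤ (N : ℝ) ^ (1 - P.kap) := hqT.trans hTle
      unfold QQ
      rw [mem_filter, mem_range]
      refine ⟨?_, b2, b3, hq2, ?_⟩
      · have h11 : (q : ℝ) ≤ N := by
          refine hq2.trans ?_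
          calc (N : ℝ) ^ (1 - P.kap) ≤ (N : ℝ) ^ (1 : ℝ) :=
                Real.rpow_le_rpow_of_exponent_le hNr (by linarith)
            _ = N := Real.rpow_one _
        have h12 : q ≤ N := by exact_mod_cast h11
        omega
      · have hu : IsUnit ((q : ℕ) : ZMod N) := by
          by_contra hu
          have b5 : (χ (q : ZMod N)).re = 1 := b4
          rw [MulChar.map_nonunit χ hu] at b5
          simp at b5
        have h13 : (χ (q : ZMod N)) ^ 2 = 1 := by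
          rw [← MulChar.pow_apply' χ two_ne_zero, hχ, MulChar.one_apply hu]
        rcases mul_eq_zero.1 (show (χ (q : ZMod N) - 1) * (χ (q : ZMod N) + 1) = 0 by
          linear_combination h13) with h14 | h14
        · exact sub_eq_zero.1 h14
        · exfalso
          have b5 : (χ (q : ZMod N)).re = 1 := b4
          rw [eq_neg_of_add_eq_zero_left h14] at b5
          norm_num at b5
    have h11 : L / (Cs * Real.log N) ≤ sig P χ := h9.trans h10
    have h12 : 0 < Cs * Real.log N := by positivity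
    rw [div_le_iff₀ h12] at h11
    have h13 : 0 ≤ sig P χ := by
      unfold sig
      exact sum_nonneg fun _ _ => by positivity
    have h14 : Cs ≤ Real.log N := hN3 N (by omega)
    calc L ≤ sig P χ * (Cs * Real.log N) := h11
      _ ≤ sig P χ * (Real.log N * Real.log N) := by
          apply mul_le_mul_of_nonneg_left _ h13
          exact mul_le_mul_of_nonneg_right h14 (by linarith)
      _ ≤ sig P χ * (Real.log N * Real.log N * Real.log N) := by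
          apply mul_le_mul_of_nonneg_left _ h13
          exact le_mul_of_one_le_right (by positivity) hK1'
      _ = (Real.log N) ^ 3 * sig P χ := by ring
  · -- mass
    intro θ ε h ρ L hθ hε hKε hS hBL hH
    have e1 : (Real.log N) ^ Am ≤ (2 : ℝ) ^ m0 P N := by
      have h3 := hn.M1
      have h4 : (MM P N : ℝ) = (2 : ℝ) ^ m0 P N := by
        unfold MM
        push_cast
        rfl
      rw [← h4]
      exact (pow_le_pow_right₀ hK1' hPA).trans h3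
    have h4 : (MM P N : ℝ) = (2 : ℝ) ^ m0 P N := by
      unfold MM
      push_cast
      rfl
    have e2 : (2 : ℝ) ^ m0 P N ≤ (N : ℝ) ^ (P.kap / 20) := by
      rw [← h4]
      refine (t_MMsmall hn).trans (Real.rpow_le_rpow_of_exponent_le hNr ?_)
      linarith
    have e3 : 2 ^ m0 P N ≤ zz P N := t_MMzz hn
    have e4 : (zz P N : ℝ) ≤ (N : ℝ) ^ cm :=
      hn.z1.trans (Real.rpow_le_rpow_of_exponent_le hNr hPc1)
    obtain ⟨χ0, c1, c2, c3⟩ := hm N (by omega) (m0 P N) (zz P N) e1 e2 e3 e4 θ ε h ρ L hθ hε hKε hS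
      (fun i hi1 hi2 => hBL i ⟨hi1, hi2⟩) hH
    exact ⟨χ0, c1, fun i hi => c2 i hi.1 hi.2, fun χ hχ => c3 χ (fun i hi1 hi2 => hχ i ⟨hi1, hi2⟩)⟩

end Pool.Agent.Lib.RH
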