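import Pool.Agent.Lib.MP_7b7e48_nt.RG.FIN
import Pool.Agent.Lib.MP_7b7e48_nt.RG.CHR3
import Pool.Agent.Lib.MP_7b7e48_nt.RG.TOOL2

/-!
# Module RFIN (60 minutes): the theorem

PROOF. Given `A`. `tools` gives `κ0`; `kap = κ0`, then `c0`, `A'`; `P = (κ0, min c0 (κ0/10000), max A' (max A 10))`. For `N ≥ N0` (`num`, `tools`) and `s, t = ±1`: if `Missing P N s t`, then `env_exists` and `fin_false` give a contradiction. So there are `a, b ∈ WW 4`, coprime, `a + b = k N`,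
`k ≤ KB = 100 M^8 J ≤ 100 · 2^8 K^(8 C1) · 2 K^1000 ≤ K^C`, `lam a = s`, `lam b = t`. `Ω ≤ 4 + 4/c` (`omega_le`; `a, b ≤ k N ≤ N^2`). `k > 0` as `a > 1`. The prime factors are `> M ≥ K^C1 ≥ K^A`. `lam a = (-1)^Ω(a)` is the definition (real); `s = (-1)^i`, so `(-1)^Ω(a) = (-1)^i` gives `Ω(a) ≡ i mod 2`.
-/

open Finset

namespace Pool.Agent.Lib.RH

open Pool.Agent.Lib.RG hiding RR sig Good

private theorem rfin_par {m n : ℕ} (h : (-1 : ℝ) ^ m = (-1 : ℝ) ^ n) : m % 2 = n % 2 := by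
  rcases Nat.even_or_odd m with hm | hm <;> rcases Nat.even_or_odd n with hn | hn
  · rw [Nat.even_iff] at hm hn
    omega
  · rw [hm.neg_one_pow, hn.neg_one_pow] at h
    norm_num at h
  · rw [hm.neg_one_pow, hn.neg_one_pow] at h
    norm_num at h
  · rw [Nat.odd_iff] at hm hn
    omega

theorem r3 (A : ℕ) : ∃ C N0 : ℕ, ∀ N : ℕ, N0 ≤ N → ∀ i j : ℕ, ∃ k a b : ℕ,
    0 < k ∧ (k : ℝ) ≤ (Real.log N) ^ C ∧ 1 < a ∧ 1 < b ∧ a.Coprime b ∧ a + b = k * N ∧
    (∀ p : ℕ, p.Prime → p ∣ a * b → (Real.log N) ^ A < p) ∧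
    ArithmeticFunction.cardFactors a ≤ C ∧ ArithmeticFunction.cardFactors b ≤ C ∧
    ArithmeticFunction.cardFactors a % 2 = i % 2 ∧ ArithmeticFunction.cardFactors b % 2 = j % 2 := by
  obtain ⟨κ0, hκ0, hκ1, htools⟩ := tools
  obtain ⟨c0, hc0, A', hA'⟩ := htools κ0 hκ0 le_rfl
  obtain ⟨P, hPk, hPc, hPC⟩ : ∃ P : Prm, P.kap = κ0 ∧ P.c = min c0 (κ0 / 10000) ∧
      P.C1 = max A' (max A 10) := ⟨⟨κ0, min c0 (κ0 / 10000), max A' (max A 10)⟩, rfl, rfl, rfl⟩
  have hP : P.Ok := by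
    refine ⟨?_, ?_, ?_, ?_, ?_⟩
    · rw [hPk]; exact hκ0
    · rw [hPk]; exact hκ1
    · rw [hPc]; exact lt_min hc0 (by positivity)
    · rw [hPc, hPk]; exact min_le_right _ _
    · rw [hPC]; exact (le_max_right _ _).trans (le_max_right _ _)
  obtain ⟨N1, hN1⟩ := hA' P hP hPk (by rw [hPc]; exact min_le_left _ _) (by rw [hPC]; exact le_max_left _ _)
  obtain ⟨N2, hN2⟩ := num P hP
  refine ⟨8 * P.C1 + 1001 + (4 + ⌈4 / P.c⌉₊), max N1 (max N2 1), ?_⟩
  intro N hN i j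
  have hNN1 : N1 ≤ N := (le_max_left _ _).trans hN
  have hNN2 : N2 ≤ N := ((le_max_left _ _).trans (le_max_right _ _)).trans hN
  have hNN3 : 1 ≤ N := ((le_max_right _ _).trans (le_max_right _ _)).trans hN
  haveI : NeZero N := ⟨by omega⟩
  have hn := hN2 N hNN2
  have ht := hN1 N hNN1
  have hK9 : (10 : ℝ) ^ 9 ≤ Real.log N := hn.K
  have hK1 : (1 : ℝ) ≤ Real.log N := le_trans (by norm_num) hK9
  have hK0 : 0 < Real.log N := by linarith
  have hN1' : (1 : ℝ) ≤ N := by exact_mod_cast hNN3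
  have hnot : ¬ Missing P N ((-1 : ℝ) ^ i) ((-1 : ℝ) ^ j) := by
    intro hm
    obtain ⟨χ, hχ⟩ := env_exists P hP N hn ht _ _ (neg_one_pow_eq_or ℝ i) (neg_one_pow_eq_or ℝ j) hm
    exact fin_false P hP N hn ht _ _ χ hχ
  unfold Missing at hnot
  push Not at hnot
  obtain ⟨a, b, k, ha, hb, hab, hsum, hk, hla, hlb⟩ := hnot
  -- bound for `k`
  have hKB : ((KB P N : ℕ) : ℝ) ≤ (Real.log N) ^ (8 * P.C1 + 1001) := by
    unfold KB
    push_cast
    have hM := hn.M2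
    have hJ := hn.J2
    calc (100 : ℝ) * (MM P N : ℝ) ^ 8 * (JJ N : ℝ) ≤
          100 * (2 * (Real.log N) ^ P.C1) ^ 8 * (2 * (Real.log N) ^ 1000) := by gcongr
      _ = 51200 * ((Real.log N) ^ P.C1) ^ 8 * (Real.log N) ^ 1000 := by ring
      _ = 51200 * (Real.log N) ^ (8 * P.C1 + 1000) := by
          rw [← pow_mul, mul_assoc, ← pow_add]
          congr 2
          ring
      _ ≤ Real.log N * (Real.log N) ^ (8 * P.C1 + 1000) := by
          apply mul_le_mul_of_nonneg_right _ (by positivity)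
          exact le_trans (by norm_num) hK9
      _ = (Real.log N) ^ (8 * P.C1 + 1001) := by
          rw [← pow_succ']
  have hkr : (k : ℝ) ≤ (Real.log N) ^ (8 * P.C1 + 1001) := le_trans (by exact_mod_cast hk) hKB
  have hkN : k ≤ N := by
    have h1 : (k : ℝ) ≤ N := by
      calc (k : ℝ) ≤ (Real.log N) ^ (8 * P.C1 + 1001) := hkr
        _ ≤ (Real.log N) ^ (100 * P.C1 + 10000) := pow_le_pow_right₀ hK1 (by omega)
        _ ≤ zz P N := hn.z5
        _ ≤ (N : ℝ) ^ P.c := hn.z1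
        _ ≤ (N : ℝ) ^ (1 : ℝ) := by
            apply Real.rpow_le_rpow_of_exponent_le hN1'
            have := hP.c1
            have := hP.kap1
            linarith
        _ = N := Real.rpow_one _
    exact_mod_cast h1
  have ha1 : 1 < a := ha.1
  have hb1 : 1 < b := hb.1
  have hkpos : 0 < k := by
    rcases Nat.eq_zero_or_pos k with h | h
    · rw [h, zero_mul] at hsum
      omega
    · exact h
  have hkNN : k * N ≤ N ^ 2 := by
    rw [pow_two]
    exact Nat.mul_le_mul_right _ hkN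
  have hoa := omega_le hP hn ha (by omega)
  have hob := omega_le hP hn hb (by omega)
  have hceil : (4 : ℝ) / P.c ≤ ⌈4 / P.c⌉₊ := Nat.le_ceil _
  refine ⟨k, a, b, hkpos, ?_, ha1, hb1, hab, hsum, ?_, ?_, ?_, ?_, ?_⟩
  · exact hkr.trans (pow_le_pow_right₀ hK1 (by omega))
  · intro p hp hpab
    have hMp : MM P N < p := by
      rcases (Nat.Prime.dvd_mul hp).1 hpab with h | h
      · exact ha.2.2.1 p hp h
      · exact hb.2.2.1 p hp h
    calc (Real.log N) ^ A ≤ (Real.log N) ^ P.C1 := pow_le_pow_right₀ hK1 (by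
          rw [hPC]
          exact (le_max_left _ _).trans (le_max_right _ _))
      _ ≤ MM P N := hn.M1
      _ < p := by exact_mod_cast hMp
  · have h1 : (ArithmeticFunction.cardFactors a : ℝ) ≤ ((4 + ⌈4 / P.c⌉₊ : ℕ) : ℝ) := by
      push_cast
      push_cast at hoa
      linarith
    have h2 : ArithmeticFunction.cardFactors a ≤ 4 + ⌈4 / P.c⌉₊ := by exact_mod_cast h1
    omega
  · have h1 : (ArithmeticFunction.cardFactors b : ℝ) ≤ ((4 + ⌈4 / P.c⌉₊ : ℕ) : ℝ) := by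
      push_cast
      push_cast at hob
      linarith
    have h2 : ArithmeticFunction.cardFactors b ≤ 4 + ⌈4 / P.c⌉₊ := by exact_mod_cast h1
    omega
  · exact rfin_par hla
  · exact rfin_par hlb

end Pool.Agent.Lib.RH
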