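import Pool.Agent.Lib.MP_7b7e48_nt.RG.RFIN

/-!
# Module RX: multiples `k` in prescribed classes, and many `k`
-/

open Finset

namespace Pool.Agent.Lib.RH

open Pool.Agent.Lib.RG hiding RR sig Good

/-- `k N = a + b` with coprime `a, b > 1`, all prime factors `> (log N)^A`, at most `C` prime factors, parities `i`, `j` -/
def RepK (A C N i j k : ℕ) : Prop := 0 < k ∧ (k : ℝ) ≤ (Real.log N) ^ C ∧ ∃ a b : ℕ,
    1 < a ∧ 1 < b ∧ a.Coprime b ∧ a + b = k * N ∧
    (∀ p : ℕ, p.Prime → p ∣ a * b → (Real.log N) ^ A < p) ∧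
    ArithmeticFunction.cardFactors a ≤ C ∧ ArithmeticFunction.cardFactors b ≤ C ∧
    ArithmeticFunction.cardFactors a % 2 = i % 2 ∧ ArithmeticFunction.cardFactors b % 2 = j % 2

private theorem rx_ev (A C : ℕ) : ∃ N0 : ℕ, ∀ N : ℕ, N0 ≤ N → 10 ≤ Real.log N ∧
    A * Real.log (Real.log N) ≤ Real.log N ∧ 8 * C * Real.log (Real.log N) ≤ Real.log N ∧
    2 * (Real.log N) ^ (A + 3) + 2 ≤ N := by
  have t1 : Filter.Tendsto (fun X : ℕ => Real.log (X : ℝ)) Filter.atTop Filter.atTop :=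
    Real.tendsto_log_atTop.comp tendsto_natCast_atTop_atTop
  have t2 : ∀ c : ℝ, ∀ᶠ X : ℕ in Filter.atTop, c * Real.log (Real.log X) ≤ Real.log X := by
    intro c
    have h1 := (Real.isLittleO_log_id_atTop.comp_tendsto t1)
    have h2 := h1.const_mul_left c
    have h3 := h2.def (c := 1) one_pos
    filter_upwards [h3, t1.eventually_ge_atTop 1] with X h4 h5
    simp only [Function.comp, id, Real.norm_eq_abs, one_mul] at h4
    calc c * Real.log (Real.log X) ≤ |c * Real.log (Real.log X)| := le_abs_self _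
      _ ≤ |Real.log X| := h4
      _ = Real.log X := abs_of_nonneg (by linarith)
  have t3 : ∀ᶠ X : ℕ in Filter.atTop, 2 * (Real.log X) ^ (A + 3) + 2 ≤ X := by
    have h1 : (fun x : ℝ => Real.log x ^ (A + 3)) =o[Filter.atTop] id :=
      Real.isLittleO_pow_log_id_atTop
    have h2 := (h1.comp_tendsto (tendsto_natCast_atTop_atTop (R := ℝ))).def (c := 1 / 4) (by norm_num)
    filter_upwards [h2, Filter.eventually_ge_atTop 8, t1.eventually_ge_atTop 1] with X h4 h5 h6
    simp only [Function.comp, id, Real.norm_eq_abs] at h4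
    have h7 : (8 : ℝ) ≤ X := by exact_mod_cast h5
    rw [abs_of_nonneg (by positivity), abs_of_nonneg (by positivity)] at h4
    linarith
  exact Filter.eventually_atTop.mp (((t1.eventually_ge_atTop 10).and ((t2 A).and
    ((t2 (8 * C)).and t3))).mono fun X h => ⟨h.1, h.2.1, h.2.2.1, h.2.2.2⟩)

theorem r3_mult (A : ℕ) : ∃ C N0 : ℕ, ∀ N : ℕ, N0 ≤ N → ∀ i j : ℕ, ∀ m : ℕ, 1 ≤ m →
    (m : ℝ) ≤ (Real.log N) ^ A → ∃ k : ℕ, m ∣ k ∧ RepK A C N i j k := by
  obtain ⟨C, N0, h⟩ := r3 A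
  obtain ⟨N1, h1⟩ := rx_ev A 1
  refine ⟨2 * C + A, max N0 N1, ?_⟩
  intro N hN i j m hm hm2
  obtain ⟨e1, e2, -, -⟩ := h1 N (le_trans (le_max_right _ _) hN)
  have hN0 : N0 ≤ m * N := (le_trans (le_max_left _ _) hN).trans (Nat.le_mul_of_pos_left _ hm)
  obtain ⟨k, a, b, hk0, hk, ha, hb, hab, hs, hp, hC1, hC2, hi, hj⟩ := h (m * N) hN0 i j
  have hm0 : (1 : ℝ) ≤ m := by exact_mod_cast hm
  have hNp : (0 : ℝ) < N := by
    rcases Nat.eq_zero_or_pos N with h0 | h0
    · subst h0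
      norm_num at e1
    · exact_mod_cast h0
  have hL1 : Real.log N ≤ Real.log ((m * N : ℕ) : ℝ) := by
    push_cast
    rw [Real.log_mul (by linarith) hNp.ne']
    have := Real.log_nonneg hm0
    linarith
  have hL2 : Real.log ((m * N : ℕ) : ℝ) ≤ (Real.log N) ^ 2 := by
    push_cast
    rw [Real.log_mul (by linarith) hNp.ne']
    have h2 : Real.log m ≤ A * Real.log (Real.log N) := by
      rw [← Real.log_pow]
      exact Real.log_le_log (by linarith) hm2
    nlinarith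
  have hLp : 0 < Real.log N := by linarith
  have hk2 : (k : ℝ) ≤ (Real.log N) ^ (2 * C) := by
    rw [pow_mul]
    refine hk.trans (pow_le_pow_left₀ (by linarith) hL2 _)
  have hL3 : (1 : ℝ) ≤ Real.log N := by linarith
  refine ⟨m * k, Dvd.intro _ rfl, Nat.mul_pos hm hk0, ?_, a, b, ha, hb, hab, ?_, ?_, by omega, by omega,
    hi, hj⟩
  · push_cast
    rw [pow_add, mul_comm]
    exact mul_le_mul hk2 hm2 (by linarith) (by positivity)
  · rw [hs]
    ring
  · intro p hp1 hp2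
    exact lt_of_le_of_lt (pow_le_pow_left₀ hLp.le hL1 _) (hp p hp1 hp2)

open Classical in
theorem r3_many (A : ℕ) : ∃ C N0 : ℕ, ∀ N : ℕ, N0 ≤ N → ∀ i j : ℕ,
    (∀ m : ℕ, 1 ≤ m → (m : ℝ) ≤ (Real.log N) ^ A → ∃ k : ℕ, m ∣ k ∧ RepK A C N i j k) ∧
    (Real.log N) ^ A ≤ (((Finset.range (⌊(Real.log N) ^ C⌋₊ + 1)).filter
      (fun k => RepK A C N i j k)).card : ℝ) := by
  obtain ⟨C, N0, h⟩ := r3_mult (A + 4)
  obtain ⟨N1, h1⟩ := rx_ev A C
  obtain ⟨N2, h2⟩ := block_card
  have hmono : ∀ N i j k : ℕ, 1 ≤ Real.log N → RepK (A + 4) C N i j k → RepK A C N i j k := by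
    intro N i j k hL hr
    obtain ⟨r1, r2, a, b, r3, r4, r5, r6, r7, r8⟩ := hr
    exact ⟨r1, r2, a, b, r3, r4, r5, r6, fun p hp1 hp2 =>
      lt_of_le_of_lt (pow_le_pow_right₀ hL (by omega)) (r7 p hp1 hp2), r8⟩
  refine ⟨C, max N0 (max N1 N2), ?_⟩
  intro N hN i j
  obtain ⟨e1, e2, e3, e4⟩ := h1 N (le_trans (le_trans (le_max_left _ _) (le_max_right _ _)) hN)
  have hN2 := le_trans (le_trans (le_max_right _ _) (le_max_right _ _)) hN
  have hN0 := le_trans (le_max_left _ _) hN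
  have hL : (1 : ℝ) ≤ Real.log N := by linarith
  have hLp : (0 : ℝ) < Real.log N := by linarith
  refine ⟨fun m hm hm2 => ?_, ?_⟩
  · obtain ⟨k, hk1, hk2⟩ := h N hN0 i j m hm (hm2.trans (pow_le_pow_right₀ hL (by omega)))
    exact ⟨k, hk1, hmono N i j k hL hk2⟩
  -- the block of primes
  set K := (Finset.range (⌊(Real.log N) ^ C⌋₊ + 1)).filter (fun k => RepK A C N i j k) with hK
  set Y := ⌈(Real.log N) ^ (A + 3)⌉₊ with hY
  have hY1 : (Real.log N) ^ (A + 3) ≤ Y := Nat.le_ceil _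
  have hY2 : (Y : ℝ) ≤ (Real.log N) ^ (A + 3) + 1 :=
    (Nat.ceil_lt_add_one (by positivity)).le
  have hYN : Y ≤ N := by
    have : (Y : ℝ) ≤ N := by
      have : (0 : ℝ) ≤ (Real.log N) ^ (A + 3) := by positivity
      linarith
    exact_mod_cast this
  have hb := h2 N hN2 Y ((pow_le_pow_right₀ hL (by omega)).trans hY1) hYN
  -- choose k for every prime of the block
  have hch : ∀ l ∈ block N Y, ∃ k ∈ K, l ∣ k := by
    intro l hl
    rw [mem_block] at hl
    obtain ⟨hl1, hl2, hl3, hl4⟩ := hl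
    have h5 : (l : ℝ) ≤ (Real.log N) ^ (A + 4) := by
      have h6 : (l : ℝ) ≤ 2 * Y := by exact_mod_cast hl2
      have h7 : (1 : ℝ) ≤ (Real.log N) ^ (A + 3) := one_le_pow₀ hL
      have h8 : (Real.log N) ^ (A + 4) = (Real.log N) ^ (A + 3) * Real.log N := by ring
      rw [h8]
      nlinarith
    obtain ⟨k, hk1, hk2⟩ := h N hN0 i j l hl3.one_lt.le h5
    refine ⟨k, ?_, hk1⟩
    rw [hK, mem_filter, mem_range]
    exact ⟨Nat.lt_succ_of_le (Nat.le_floor hk2.2.1), hmono N i j k hL hk2⟩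
  have hcount : (block N Y).card ≤ ∑ k ∈ K, (k.primeFactors).card := by
    have hsub : block N Y ⊆ K.biUnion fun k => k.primeFactors := by
      intro l hl
      obtain ⟨k, hk, hd⟩ := hch l hl
      rw [mem_biUnion]
      have h9 : 0 < k := by
        rw [hK, mem_filter] at hk
        exact hk.2.1
      exact ⟨k, hk, Nat.mem_primeFactors.mpr ⟨((mem_block.mp hl).2.2.1), hd, h9.ne'⟩⟩
    exact (card_le_card hsub).trans card_biUnion_le
  have hpf : ∀ k ∈ K, ((k.primeFactors.card : ℕ) : ℝ) ≤ Real.log N / 4 := by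
    intro k hk
    rw [hK, mem_filter] at hk
    have hk0 : 0 < k := hk.2.1
    have hk1 : (k : ℝ) ≤ (Real.log N) ^ C := hk.2.2.1
    have h9 : 2 ^ k.primeFactors.card ≤ k := by
      calc 2 ^ k.primeFactors.card = ∏ p ∈ k.primeFactors, 2 := by rw [prod_const]
        _ ≤ ∏ p ∈ k.primeFactors, p :=
            prod_le_prod' fun p hp => (Nat.prime_of_mem_primeFactors hp).two_le
        _ ≤ k := Nat.le_of_dvd hk0 (Nat.prod_primeFactors_dvd k)
    have h10 : (2 : ℝ) ^ k.primeFactors.card ≤ (Real.log N) ^ C :=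
      le_trans (by exact_mod_cast h9) hk1
    have h11 := Real.log_le_log (by positivity) h10
    rw [Real.log_pow, Real.log_pow] at h11
    have h12 := Real.log_two_gt_d9
    have h13 : (0 : ℝ) ≤ (k.primeFactors.card : ℝ) := Nat.cast_nonneg _
    nlinarith
  have h14 : ((block N Y).card : ℝ) ≤ K.card * (Real.log N / 4) := by
    have h15 : ((block N Y).card : ℝ) ≤ ∑ k ∈ K, ((k.primeFactors.card : ℕ) : ℝ) := by
      exact_mod_cast hcount
    refine h15.trans ((sum_le_sum hpf).trans ?_)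
    rw [sum_const, nsmul_eq_mul]
  have h16 : (Real.log N) ^ (A + 3) / (4 * Real.log N) ≤ K.card * (Real.log N / 4) := by
    refine le_trans ?_ (hb.trans h14)
    gcongr
  have h17 : (Real.log N) ^ (A + 3) = (Real.log N) ^ A * ((Real.log N) ^ 2 * Real.log N) := by ring
  have h18 : (Real.log N) ^ (A + 3) / (4 * Real.log N) = (Real.log N) ^ A * ((Real.log N) ^ 2 / 4) := by
    rw [h17]
    field_simp
  rw [h18] at h16
  have h19 : (Real.log N) ^ A * (Real.log N) ≤ K.card := by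
    have h20 : ((Real.log N) ^ A * (Real.log N)) * (Real.log N / 4) ≤ K.card * (Real.log N / 4) := by
      calc ((Real.log N) ^ A * (Real.log N)) * (Real.log N / 4)
          = (Real.log N) ^ A * ((Real.log N) ^ 2 / 4) := by ring
        _ ≤ _ := h16
    exact le_of_mul_le_mul_right h20 (by positivity)
  have h21 : (0 : ℝ) ≤ (Real.log N) ^ A := by positivity
  nlinarith

end Pool.Agent.Lib.RH
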