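import Pool.Agent.Lib.MP_7b7e48_nt.RG.SMdef

/-!
# Module SMa (45 minutes): the sum of the density over a window

PROOF. `∏_{p ∣ d} (u p + e p 1_{p ∣ k}) = ∑_{h ∣ d} (∏_{p ∣ h} e p) (∏_{p ∣ d/h} u p) 1_{h ∣ k}` (`Finset.prod_add`). The number of the
`k` in a window of `J` consecutive integers with `h ∣ k` and `g ∣ k - k₁` is `J/(h g) + θ`, `|θ| ≤ 1`: `h` and `g` are coprime
(`h ∣ d`), so it is one class modulo `h g` (for instance `Int.Ico_filter_modEq_card` or the library). The main terms add up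
to `(J/g) ∏_{p ∣ d} (u p + e p / p) = J/(g d)`, the errors to `≤ ∑_h ∏ |e p| ∏ |u p| = Ew d`.
-/

open Finset

namespace Pool.Agent.Lib.RG

theorem int_card_class (m : ℕ) (hm : 0 < m) (r a : ℤ) (J : ℕ) :
    |(((Finset.Ico a (a + J)).filter (fun k : ℤ => (m : ℤ) ∣ k - r)).card : ℝ) - (J : ℝ) / m| ≤ 1 := by
  have hmz : (0 : ℤ) < m := by exact_mod_cast hm
  have h1 : (Finset.Ico a (a + J)).filter (fun k : ℤ => (m : ℤ) ∣ k - r) =
      (Finset.Ico a (a + J)).filter (fun k : ℤ => k ≡ r [ZMOD (m : ℤ)]) := by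
    refine filter_congr fun k _ => ?_
    rw [Int.modEq_iff_dvd, dvd_sub_comm]
  have h2 := Int.Ico_filter_modEq_card a (a + J) hmz r
  rw [h1]
  have hmq : (0 : ℚ) < (m : ℚ) := by exact_mod_cast hm
  set y : ℚ := (((a + J : ℤ) : ℚ) - (r : ℚ)) / (((m : ℤ)) : ℚ) with hy
  set x : ℚ := ((a : ℚ) - (r : ℚ)) / (((m : ℤ)) : ℚ) with hx
  have hyx : y = x + (J : ℚ) / m := by
    rw [hy, hx]
    push_cast
    ring
  have hJ : (0 : ℚ) ≤ (J : ℚ) / m := by positivity
  have h3 : ⌈x⌉ ≤ ⌈y⌉ := Int.ceil_le_ceil (by linarith)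
  rw [max_eq_left (by linarith)] at h2
  have h4 : ((((Finset.Ico a (a + J)).filter (fun k : ℤ => k ≡ r [ZMOD (m : ℤ)])).card : ℚ)) =
      (⌈y⌉ : ℚ) - ⌈x⌉ := by
    exact_mod_cast h2
  have h5 := Int.le_ceil x
  have h6 := Int.ceil_lt_add_one x
  have h7 := Int.le_ceil y
  have h8 := Int.ceil_lt_add_one y
  have h9 : |((((Finset.Ico a (a + J)).filter (fun k : ℤ => k ≡ r [ZMOD (m : ℤ)])).card : ℚ)) -
      (J : ℚ) / m| ≤ 1 := by
    rw [h4, abs_le]
    constructor <;> linarith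
  have h10 := (Rat.cast_le (K := ℝ)).mpr h9
  push_cast at h10
  exact h10

theorem int_card_two (h g : ℕ) (hh : 0 < h) (hg : 0 < g) (hc : h.Coprime g) (k₁ a : ℤ) (J : ℕ) :
    |(((Finset.Ico a (a + J)).filter (fun k : ℤ => (h : ℤ) ∣ k ∧ (g : ℤ) ∣ k - k₁)).card : ℝ) -
      (J : ℝ) / (h * g)| ≤ 1 := by
  obtain ⟨x, y, hxy⟩ := Nat.isCoprime_iff_coprime.mpr hc
  set r : ℤ := x * h * k₁ with hr
  have h1 : (h : ℤ) ∣ r := ⟨x * k₁, by rw [hr]; ring⟩
  have h2 : (g : ℤ) ∣ r - k₁ := ⟨- (y * k₁), by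
    have : r - k₁ = (x * h - 1) * k₁ := by rw [hr]; ring
    rw [this, show x * (h : ℤ) - 1 = -(y * g) by linarith]
    ring⟩
  have h3 : (Finset.Ico a (a + J)).filter (fun k : ℤ => (h : ℤ) ∣ k ∧ (g : ℤ) ∣ k - k₁) =
      (Finset.Ico a (a + J)).filter (fun k : ℤ => ((h * g : ℕ) : ℤ) ∣ k - r) := by
    refine filter_congr fun k _ => ?_
    constructor
    · rintro ⟨h4, h5⟩
      have h6 : (h : ℤ) ∣ k - r := dvd_sub h4 h1
      have h7 : (g : ℤ) ∣ k - r := by
        have := dvd_sub h5 h2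
        rwa [show k - k₁ - (r - k₁) = k - r by ring] at this
      push_cast
      exact (Nat.isCoprime_iff_coprime.mpr hc).mul_dvd h6 h7
    · intro h4
      push_cast at h4
      have h5 : (h : ℤ) ∣ k - r := (dvd_mul_right _ _).trans h4
      have h6 : (g : ℤ) ∣ k - r := (dvd_mul_left _ _).trans h4
      refine ⟨?_, ?_⟩
      · have := dvd_add h5 h1
        rwa [sub_add_cancel] at this
      · have := dvd_add h6 h2
        rwa [show k - r + (r - k₁) = k - k₁ by ring] at this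
  have h4 := int_card_class (h * g) (Nat.mul_pos hh hg) r a J
  rw [h3]
  push_cast at h4 ⊢
  exact h4

open Classical in
theorem prod_ind (t : Finset ℕ) (ht : ∀ p ∈ t, p.Prime) (e : ℕ → ℝ) (k : ℤ) :
    ∏ p ∈ t, (if (p : ℤ) ∣ k then e p else 0) =
      (∏ p ∈ t, e p) * (if ((∏ p ∈ t, p : ℕ) : ℤ) ∣ k then 1 else 0) := by
  by_cases h : ((∏ p ∈ t, p : ℕ) : ℤ) ∣ k
  · rw [if_pos h, mul_one]
    refine prod_congr rfl fun p hp => ?_
    have h1 : (p : ℤ) ∣ ((∏ p ∈ t, p : ℕ) : ℤ) := by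
      exact_mod_cast Finset.dvd_prod_of_mem (fun p => p) hp
    rw [if_pos (h1.trans h)]
  · rw [if_neg h, mul_zero]
    have h2 : ∃ p ∈ t, ¬ (p : ℤ) ∣ k := by
      by_contra hcon
      push Not at hcon
      apply h
      rw [Int.natCast_dvd]
      refine Finset.prod_primes_dvd _ (fun p hp => (ht p hp).prime) fun p hp => ?_
      exact Int.natCast_dvd.mp (hcon p hp)
    obtain ⟨p, hp, hpk⟩ := h2
    exact Finset.prod_eq_zero hp (if_neg hpk)

open Classical in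
theorem win_sum (u e : ℕ → ℝ) (d : ℕ) (hd : Squarefree d)
    (h : ∀ p ∈ d.primeFactors, u p + e p / p = 1 / p) (g : ℕ) (hg : 1 ≤ g) (hdg : d.Coprime g)
    (k₁ a : ℤ) (J : ℕ) :
    |∑ k ∈ Finset.Ico a (a + J), (if (g : ℤ) ∣ k - k₁ then pw u e d k else 0) - (J : ℝ) / (d * g)| ≤
      Ew u e d := by
  have hpr : ∀ p ∈ d.primeFactors, p.Prime := fun p hp => Nat.prime_of_mem_primeFactors hp
  -- the expansion
  have hexp : ∀ k : ℤ, pw u e d k = ∑ t ∈ d.primeFactors.powerset,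
      ((∏ p ∈ t, u p) * ∏ p ∈ d.primeFactors \ t, e p) *
        (if ((∏ p ∈ d.primeFactors \ t, p : ℕ) : ℤ) ∣ k then 1 else 0) := by
    intro k
    unfold pw
    rw [Finset.prod_add]
    refine sum_congr rfl fun t _ => ?_
    rw [prod_ind _ (fun p hp => hpr p (mem_sdiff.mp hp).1) e k]
    ring
  have hsum : ∑ k ∈ Finset.Ico a (a + J), (if (g : ℤ) ∣ k - k₁ then pw u e d k else 0) =
      ∑ t ∈ d.primeFactors.powerset, ((∏ p ∈ t, u p) * ∏ p ∈ d.primeFactors \ t, e p) *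
        (((Finset.Ico a (a + J)).filter (fun k : ℤ =>
          ((∏ p ∈ d.primeFactors \ t, p : ℕ) : ℤ) ∣ k ∧ (g : ℤ) ∣ k - k₁)).card : ℝ) := by
    have h1 : ∀ k ∈ Finset.Ico a (a + J), (if (g : ℤ) ∣ k - k₁ then pw u e d k else 0) =
        ∑ t ∈ d.primeFactors.powerset, ((∏ p ∈ t, u p) * ∏ p ∈ d.primeFactors \ t, e p) *
        (if ((∏ p ∈ d.primeFactors \ t, p : ℕ) : ℤ) ∣ k ∧ (g : ℤ) ∣ k - k₁ then 1 else 0) := by
      intro k _
      by_cases hk : (g : ℤ) ∣ k - k₁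
      · rw [if_pos hk, hexp k]
        refine sum_congr rfl fun t _ => ?_
        simp only [hk, and_true]
      · rw [if_neg hk]
        symm
        refine sum_eq_zero fun t _ => ?_
        rw [if_neg (fun hh => hk hh.2), mul_zero]
    rw [sum_congr rfl h1, sum_comm]
    refine sum_congr rfl fun t _ => ?_
    rw [← mul_sum, Finset.sum_boole]
  -- the main term
  have hmain : (J : ℝ) / (d * g) = ∑ t ∈ d.primeFactors.powerset,
      ((∏ p ∈ t, u p) * ∏ p ∈ d.primeFactors \ t, e p) *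
        ((J : ℝ) / (((∏ p ∈ d.primeFactors \ t, p : ℕ) : ℝ) * g)) := by
    have h1 : ∏ p ∈ d.primeFactors, (u p + e p / p) = 1 / (d : ℝ) := by
      rw [prod_congr rfl h, prod_div_distrib, prod_const_one]
      congr 1
      have h2 := Nat.prod_primeFactors_of_squarefree hd
      conv_rhs => rw [← h2]
      push_cast
      rfl
    have h2 : (J : ℝ) / (d * g) = (J : ℝ) / g * ∏ p ∈ d.primeFactors, (u p + e p / p) := by
      rw [h1]
      ring
    rw [h2, Finset.prod_add, mul_sum]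
    refine sum_congr rfl fun t _ => ?_
    rw [Finset.prod_div_distrib]
    push_cast
    have h3 : ∀ A B C D E : ℝ, D / E * (A * (B / C)) = A * B * (D / (C * E)) := by
      intro A B C D E
      ring
    exact h3 _ _ _ _ _
  have hEw : Ew u e d = ∑ t ∈ d.primeFactors.powerset,
      (∏ p ∈ t, |u p|) * ∏ p ∈ d.primeFactors \ t, |e p| := by
    unfold Ew
    rw [Finset.prod_add]
  rw [hsum, hmain, ← sum_sub_distrib, hEw]
  refine (abs_sum_le_sum_abs _ _).trans (sum_le_sum fun t _ => ?_)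
  rw [← mul_sub, abs_mul, abs_mul, abs_prod, abs_prod]
  refine mul_le_of_le_one_right (mul_nonneg (prod_nonneg fun _ _ => abs_nonneg _)
    (prod_nonneg fun _ _ => abs_nonneg _)) ?_
  set H := ∏ p ∈ d.primeFactors \ t, p with hH
  have hH0 : 0 < H := Finset.prod_pos fun p hp => (hpr p (mem_sdiff.mp hp).1).pos
  have hHd : H ∣ d := by
    have h1 : H ∣ ∏ p ∈ d.primeFactors, p := Finset.prod_dvd_prod_of_subset _ _ _ sdiff_subset
    exact h1.trans (Nat.prod_primeFactors_dvd d)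
  have h1 := int_card_two H g hH0 hg (Nat.Coprime.coprime_dvd_left hHd hdg) k₁ a J
  convert h1 using 6

end Pool.Agent.Lib.RG
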