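import Pool.Agent.Lib.MP_7b7e48_nt.RG.SMdef
import Pool.Agent.Lib.Sieve.Mertens

/-!
# Module SMp (30 minutes): products over primes

PROOF. `1 + k/p ≤ (1 + 1/p)^k ≤ (1 - 1/p)^(-k)` and `∏_{p ≤ z} (1 - 1/p)⁻¹ ≤ C log z`.
-/

open Finset

namespace Pool.Agent.Lib.RG

private theorem SMp_fac {p : ℕ} (hp : p.Prime) (k : ℕ) :
    1 + (k : ℝ) / p ≤ ((1 - 1 / (p : ℝ))⁻¹) ^ k ∧ 1 ≤ (1 - 1 / (p : ℝ))⁻¹ := by
  have h2 : (2 : ℝ) ≤ p := by exact_mod_cast hp.two_le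
  have h3 : (0 : ℝ) < 1 / (p : ℝ) := by positivity
  have h4 : (0 : ℝ) < 1 - 1 / (p : ℝ) := by
    rw [sub_pos, div_lt_one (by linarith)]
    linarith
  have h5 : 1 + 1 / (p : ℝ) ≤ (1 - 1 / (p : ℝ))⁻¹ := by
    rw [le_inv_comm₀ (by linarith) h4, inv_eq_one_div, le_div_iff₀ (by linarith)]
    nlinarith
  have h6 : 1 + (k : ℝ) * (1 / p) ≤ (1 + 1 / (p : ℝ)) ^ k :=
    one_add_mul_le_pow (by linarith) k
  have h7 : (1 + 1 / (p : ℝ)) ^ k ≤ ((1 - 1 / (p : ℝ))⁻¹) ^ k :=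
    pow_le_pow_left₀ (by linarith) h5 k
  refine ⟨?_, by linarith⟩
  calc 1 + (k : ℝ) / p = 1 + (k : ℝ) * (1 / p) := by ring
    _ ≤ _ := h6.trans h7

theorem prod_upper (k : ℕ) : ∃ C : ℝ, 1 ≤ C ∧ ∀ z : ℕ, 2 ≤ z → ∀ P : Finset ℕ,
    (∀ r ∈ P, r.Prime ∧ r ≤ z) → ∏ p ∈ P, (1 + (k : ℝ) / p) ≤ C * (1 + Real.log z) ^ k := by
  obtain ⟨C, hC, h⟩ := Pool.Agent.Lib.Sieve.mertens_product_upper
  refine ⟨(1 + C) ^ k, one_le_pow₀ (by linarith), ?_⟩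
  intro z hz P hP
  have hlog : 0 < Real.log z := Real.log_pos (by exact_mod_cast hz)
  have hsub : P ⊆ (Finset.Icc 1 z).filter Nat.Prime := by
    intro p hp
    rw [Finset.mem_filter, Finset.mem_Icc]
    exact ⟨⟨(hP p hp).1.one_lt.le, (hP p hp).2⟩, (hP p hp).1⟩
  have h1 : ∏ p ∈ P, (1 - 1 / (p : ℝ))⁻¹ ≤ C * Real.log z := by
    refine le_trans ?_ (h z hz)
    rw [← Finset.prod_sdiff hsub]
    have h2 : 1 ≤ ∏ p ∈ (Finset.Icc 1 z).filter Nat.Prime \ P, (1 - (1 : ℝ) / p)⁻¹ := by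
      calc (1 : ℝ) = ∏ _p ∈ (Finset.Icc 1 z).filter Nat.Prime \ P, (1 : ℝ) :=
            Finset.prod_const_one.symm
        _ ≤ _ := Finset.prod_le_prod (fun _ _ => zero_le_one) fun p hp =>
            (SMp_fac (Finset.mem_filter.mp (Finset.mem_sdiff.mp hp).1).2 1).2
    refine le_mul_of_one_le_left (Finset.prod_nonneg fun p hp => ?_) h2
    exact le_trans zero_le_one (SMp_fac (hP p hp).1 1).2
  have h0 : 0 ≤ ∏ p ∈ P, (1 - 1 / (p : ℝ))⁻¹ :=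
    Finset.prod_nonneg fun p hp => le_trans zero_le_one (SMp_fac (hP p hp).1 1).2
  calc ∏ p ∈ P, (1 + (k : ℝ) / p) ≤ ∏ p ∈ P, ((1 - 1 / (p : ℝ))⁻¹) ^ k :=
        Finset.prod_le_prod (fun p _ => by positivity) fun p hp => (SMp_fac (hP p hp).1 k).1
    _ = (∏ p ∈ P, (1 - 1 / (p : ℝ))⁻¹) ^ k := Finset.prod_pow _ _ _
    _ ≤ (C * Real.log z) ^ k := pow_le_pow_left₀ h0 h1 k
    _ ≤ ((1 + C) * (1 + Real.log z)) ^ k := by
        refine pow_le_pow_left₀ (by positivity) ?_ k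
        exact mul_le_mul (by linarith) (by linarith) hlog.le (by linarith)
    _ = _ := mul_pow _ _ _

end Pool.Agent.Lib.RG
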