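import Pool.Agent.Lib.MP_7b7e48_nt.RG.SMa
import Pool.Agent.Lib.MP_7b7e48_nt.RG.SMp

/-!
# Module SMc1 (60 minutes): the covariance for one pair of divisors

Let `g = (d₁, d₂)`, `W` the window. `pw ≥ 0` for `d₁` (`u ≥ 0`, `u + e ≥ 0`; on `S4`: `0, 1`). PROOF of the first claim.
`∑_{k₁, k₂} jw - ∑_{k₁} pw d₁ k₁ ∑_{k₂} pw d₂ k₂ = ∑_{k₁} pw d₁ k₁ (∑_{k₂} 1_{g ∣ k₂ - k₁} pw (d₂/g) k₂ - ∑_{k₂} pw d₂ k₂)`. By
`SMa.win_sum` (with `g` and `d₂/g`, coprime as `d₂` is squarefree; and with `1` and `d₂`) both inner sums are `J/d₂` up to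
`Ew (d₂/g)` and `Ew d₂`. `Ew d₂ = Ew g · Ew (d₂/g) ≤ 2 Ew (d₂/g)`, since `|u p| + |e p| ≤ 3/2` for `p = 2` and `≤ 1` for the
other primes (`3/p ≤ 1`, on `S4` it is `1`). And `∑_{k₁} pw d₁ k₁ ≤ J/d₁ + Ew d₁` (`win_sum` with `g = 1`).
Second claim: `win_sum` with `g = 1`, summed with the weights.
-/

open Finset

namespace Pool.Agent.Lib.RG

theorem pw_nonneg {z : ℕ} {P S4 : Finset ℕ} {u e : ℕ → ℝ} (hL : Law z P S4 u e) (d : ℕ)
    (hd : ∀ p : ℕ, p.Prime → p ∣ d → p ∈ P) (k : ℤ) : 0 ≤ pw u e d k := by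
  unfold pw
  refine prod_nonneg fun p hp => ?_
  obtain ⟨hpp, hpd, -⟩ := Nat.mem_primeFactors.mp hp
  have hpP := hd p hpp hpd
  by_cases h4 : p ∈ S4
  · obtain ⟨h0, h1⟩ := hL.four p h4
    rw [h0, h1]
    split_ifs <;> norm_num
  · obtain ⟨-, h0, h1⟩ := hL.small p hpP h4
    split_ifs
    · exact h1
    · rw [add_zero]; exact h0

theorem SMc1_Ew_nonneg (u e : ℕ → ℝ) (d : ℕ) : 0 ≤ Ew u e d :=
  prod_nonneg fun _ _ => add_nonneg (abs_nonneg _) (abs_nonneg _)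

/-- `|u p| + |e p|` is at most `3/2` for `p = 2` and at most `1` for the other primes -/
theorem SMc1_local {z : ℕ} {P S4 : Finset ℕ} {u e : ℕ → ℝ} (hL : Law z P S4 u e) (p : ℕ)
    (hp : p ∈ P) : |u p| + |e p| ≤ if p = 2 then 3 / 2 else 1 := by
  by_cases h4 : p ∈ S4
  · obtain ⟨h0, h1⟩ := hL.four p h4
    rw [h0, h1]
    split_ifs <;> norm_num
  · obtain ⟨h0, -, -⟩ := hL.small p hp h4
    have hpp := (hL.prime p hp).1
    refine h0.trans ?_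
    split_ifs with h2
    · rw [h2]; norm_num
    · have h3 : 3 ≤ p := by
        have := hpp.two_le
        omega
      have h3' : (3 : ℝ) ≤ p := by exact_mod_cast h3
      rw [div_le_one (by linarith)]
      exact h3'

theorem SMc1_Ew_le_two {z : ℕ} {P S4 : Finset ℕ} {u e : ℕ → ℝ} (hL : Law z P S4 u e) (g : ℕ)
    (hg : ∀ p : ℕ, p.Prime → p ∣ g → p ∈ P) : Ew u e g ≤ 2 := by
  unfold Ew
  have h1 : ∏ p ∈ g.primeFactors, (|u p| + |e p|) ≤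
      ∏ p ∈ g.primeFactors, (if p = 2 then (3 / 2 : ℝ) else 1) := by
    refine prod_le_prod (fun _ _ => add_nonneg (abs_nonneg _) (abs_nonneg _)) fun p hp => ?_
    obtain ⟨hpp, hpd, -⟩ := Nat.mem_primeFactors.mp hp
    exact SMc1_local hL p (hg p hpp hpd)
  refine h1.trans ?_
  rw [prod_ite_eq' g.primeFactors 2 (fun _ => (3 / 2 : ℝ))]
  split_ifs <;> norm_num

/-- the sum over the window with `g = 1` -/
theorem SMc1_win {z : ℕ} {P S4 : Finset ℕ} {u e : ℕ → ℝ} (hL : Law z P S4 u e) (d : ℕ)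
    (hd : 1 ≤ d ∧ Squarefree d ∧ ∀ p : ℕ, p.Prime → p ∣ d → p ∈ P) (a : ℤ) (J : ℕ) :
    |∑ k ∈ Finset.Ico a (a + J), pw u e d k - (J : ℝ) / d| ≤ Ew u e d := by
  have h := win_sum u e d hd.2.1 (fun p hp => by
    obtain ⟨hpp, hpd, -⟩ := Nat.mem_primeFactors.mp hp
    exact hL.mean p (hd.2.2 p hpp hpd)) 1 le_rfl (Nat.coprime_one_right d) 0 a J
  simpa only [Nat.cast_one, mul_one, one_dvd, if_true] using h

theorem cov_pair {z : ℕ} {P S4 : Finset ℕ} {u e : ℕ → ℝ} (hL : Law z P S4 u e) (d₁ d₂ : ℕ)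
    (h1 : 1 ≤ d₁ ∧ Squarefree d₁ ∧ ∀ p : ℕ, p.Prime → p ∣ d₁ → p ∈ P)
    (h2 : 1 ≤ d₂ ∧ Squarefree d₂ ∧ ∀ p : ℕ, p.Prime → p ∣ d₂ → p ∈ P) (a : ℤ) (J : ℕ) :
    |∑ k₁ ∈ Finset.Ico a (a + J), ∑ k₂ ∈ Finset.Ico a (a + J), jw u e d₁ d₂ k₁ k₂ -
      (∑ k ∈ Finset.Ico a (a + J), pw u e d₁ k) * ∑ k ∈ Finset.Ico a (a + J), pw u e d₂ k| ≤
      3 * ((J : ℝ) / d₁ + Ew u e d₁) * Ew u e (d₂ / d₁.gcd d₂) := by
  set g : ℕ := d₁.gcd d₂ with hg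
  have hgpos : 0 < g := Nat.gcd_pos_of_pos_left _ h1.1
  have hgd : g ∣ d₂ := Nat.gcd_dvd_right _ _
  set f : ℕ := d₂ / g with hf
  have hfg : f * g = d₂ := Nat.div_mul_cancel hgd
  have hfpos : 0 < f := Nat.div_pos (Nat.le_of_dvd h2.1 hgd) hgpos
  have hfd : f ∣ d₂ := ⟨g, hfg.symm⟩
  have hcop : f.Coprime g := by
    apply Nat.coprime_of_squarefree_mul
    rw [hfg]
    exact h2.2.1
  have hfP : ∀ p : ℕ, p.Prime → p ∣ f → p ∈ P := fun p hp hpf => h2.2.2 p hp (hpf.trans hfd)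
  have hgP : ∀ p : ℕ, p.Prime → p ∣ g → p ∈ P := fun p hp hpg => h2.2.2 p hp (hpg.trans hgd)
  have hEw : Ew u e d₂ ≤ 2 * Ew u e f := by
    have e1 : Ew u e d₂ = Ew u e f * Ew u e g := by
      rw [← hfg]
      unfold Ew
      rw [hcop.primeFactors_mul, prod_union hcop.disjoint_primeFactors]
    rw [e1, mul_comm]
    exact mul_le_mul_of_nonneg_right (SMc1_Ew_le_two hL g hgP) (SMc1_Ew_nonneg u e f)
  have hin : ∀ k₁ : ℤ, |∑ k ∈ Finset.Ico a (a + J), (if (g : ℤ) ∣ k - k₁ then pw u e f k else 0) -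
      ∑ k ∈ Finset.Ico a (a + J), pw u e d₂ k| ≤ 3 * Ew u e f := by
    intro k₁
    have s1 := win_sum u e f (h2.2.1.squarefree_of_dvd hfd) (fun p hp => by
      obtain ⟨hpp, hpd, -⟩ := Nat.mem_primeFactors.mp hp
      exact hL.mean p (hfP p hpp hpd)) g hgpos hcop k₁ a J
    have s2 := SMc1_win hL d₂ h2 a J
    have e2 : ((f : ℝ) * g) = d₂ := by exact_mod_cast hfg
    rw [e2] at s1
    rw [abs_le] at s1 s2 ⊢
    constructor <;> linarith [s1.1, s1.2, s2.1, s2.2]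
  have e3 : ∑ k₁ ∈ Finset.Ico a (a + J), ∑ k₂ ∈ Finset.Ico a (a + J), jw u e d₁ d₂ k₁ k₂ -
      (∑ k ∈ Finset.Ico a (a + J), pw u e d₁ k) * ∑ k ∈ Finset.Ico a (a + J), pw u e d₂ k =
      ∑ k₁ ∈ Finset.Ico a (a + J), pw u e d₁ k₁ *
        (∑ k ∈ Finset.Ico a (a + J), (if (g : ℤ) ∣ k - k₁ then pw u e f k else 0) -
          ∑ k ∈ Finset.Ico a (a + J), pw u e d₂ k) := by
    rw [sum_mul, ← sum_sub_distrib]
    refine sum_congr rfl fun k₁ _ => ?_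
    rw [mul_sub]
    have e4 : ∑ k₂ ∈ Finset.Ico a (a + J), jw u e d₁ d₂ k₁ k₂ =
        ∑ k ∈ Finset.Ico a (a + J), pw u e d₁ k₁ * (if (g : ℤ) ∣ k - k₁ then pw u e f k else 0) := by
      refine sum_congr rfl fun k₂ _ => ?_
      unfold jw
      rw [← hg, ← hf]
      split_ifs <;> ring
    rw [e4, ← mul_sum]
  rw [e3]
  refine (abs_sum_le_sum_abs _ _).trans ?_
  have h5 : ∀ k₁ ∈ Finset.Ico a (a + J), |pw u e d₁ k₁ *
        (∑ k ∈ Finset.Ico a (a + J), (if (g : ℤ) ∣ k - k₁ then pw u e f k else 0) -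
          ∑ k ∈ Finset.Ico a (a + J), pw u e d₂ k)| ≤ pw u e d₁ k₁ * (3 * Ew u e f) := by
    intro k₁ _
    rw [abs_mul, abs_of_nonneg (pw_nonneg hL d₁ h1.2.2 k₁)]
    exact mul_le_mul_of_nonneg_left (hin k₁) (pw_nonneg hL d₁ h1.2.2 k₁)
  refine (sum_le_sum h5).trans ?_
  rw [← sum_mul]
  have s3 := SMc1_win hL d₁ h1 a J
  have s4 : ∑ k ∈ Finset.Ico a (a + J), pw u e d₁ k ≤ (J : ℝ) / d₁ + Ew u e d₁ := by
    have := (abs_le.mp s3).2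
    linarith
  have s5 := mul_le_mul_of_nonneg_right s4 (by
    have := SMc1_Ew_nonneg u e f
    linarith : 0 ≤ 3 * Ew u e f)
  refine s5.trans (le_of_eq ?_)
  ring

theorem mean_err {z : ℕ} {P S4 : Finset ℕ} {u e : ℕ → ℝ} (hL : Law z P S4 u e) (D : Finset ℕ)
    (w : ℕ → ℝ) (Lam : ℝ) (hw : Wts P D w Lam) (a : ℤ) (J : ℕ) :
    |M1 u e D w (Finset.Ico a (a + J)) - J * Vw D w| ≤ Lam * ∑ d ∈ D, Ew u e d := by
  unfold M1 Vw
  rw [mul_sum, mul_sum, ← sum_sub_distrib]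
  refine (abs_sum_le_sum_abs _ _).trans (sum_le_sum fun d hd => ?_)
  have e1 : w d * ∑ k ∈ Finset.Ico a (a + J), pw u e d k - J * (w d / d) =
      w d * (∑ k ∈ Finset.Ico a (a + J), pw u e d k - (J : ℝ) / d) := by ring
  rw [e1, abs_mul]
  exact mul_le_mul (hw.bd d hd) (SMc1_win hL d (hw.sq d hd) a J) (abs_nonneg _)
    ((abs_nonneg _).trans (hw.bd d hd))

end Pool.Agent.Lib.RG
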