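import Pool.Agent.Lib.MP_7b7e48_nt.RG.SMdef

/-!
# Module SMl (90 minutes): from the law of the weights to the second moment

`S4` is the set of the primes of `P` which divide `v`; `v` is coprime to `N`; no prime of `P` divides `N`.
PROOF. For `p ∈ P`, `p ∤ v`: `p ∣ k N + ε v n` iff `n = -ε k N v⁻¹` modulo `p`, and `p ∣ (this residue)` iff `p ∣ k`. For `p ∣ v`:
`p ∣ k N + ε v n` iff `p ∣ k`. So for given `d₁, d₂ ∈ D`, `k₁, k₂` the conditions `d₁ ∣ k₁ N + ε v n`, `d₂ ∣ k₂ N + ε v n` are either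
contradictory (if `k₁ ≠ k₂` modulo some `p ∣ (d₁,d₂)`, or `p ∣ v`, `p ∣ d₁`, `p ∤ k₁`, or the same with `d₂, k₂`) and then
`jw u e d₁ d₂ k₁ k₂ = 0` as well (`u p = 0`, `e p = 1` for `p ∣ v`), or they are `n = b` modulo `m`, where `m` is the part of `lcm(d₁,d₂)`
which is coprime to `v` (`b` by the Chinese remainder theorem; `m ≤ Y`, since `d₁, d₂ ≤ y0`, `y0 ^ 2 ≤ Y`), and
`X ∏_{p ∣ m} (u p + e p 1_{p ∣ b}) = X jw u e d₁ d₂ k₁ k₂`. So `∑_{n : both} om n = X jw + θ Err`. Sum with the weights: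
`∑ om A² = X M2 + θ Λ² J² Err` with `Λ = ∑ |w d|`, `J = |W|`. In the same way (`d₂ = 1`) `∑ om A = X M1 + θ Λ J Err` and
`∑ om = X + θ Err` (`m = 1`). `|V| ≤ Λ`. Hence the claim.
(`Aw` is `∑_{k ∈ W} ∑_{d ∈ D} 1[d ∣ k N + ε v n] w d`; `ep = 1` or `-1`.)
-/

open Finset

namespace Pool.Agent.Lib.RG

private theorem sml_dvd (s : ℕ) (hs : Squarefree s) (k : ℤ) :
    (∀ p ∈ s.primeFactors, (p : ℤ) ∣ k) ↔ (s : ℤ) ∣ k := by
  have hs0 : s ≠ 0 := hs.ne_zero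
  constructor
  · intro h
    rw [Int.natCast_dvd]
    have h1 : ∏ p ∈ s.primeFactors, p ∣ k.natAbs := by
      apply Finset.prod_primes_dvd
      · intro p hp
        exact (Nat.prime_of_mem_primeFactors hp).prime
      · intro p hp
        exact Int.natCast_dvd.mp (h p hp)
    rwa [Nat.prod_primeFactors_of_squarefree hs] at h1
  · intro h p hp
    exact (Int.natCast_dvd_natCast.mpr (Nat.dvd_of_mem_primeFactors hp)).trans h

open Classical in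
private theorem sml_pw {z v : ℕ} {P S4 : Finset ℕ} {u e : ℕ → ℝ} (hL : Law z P S4 u e)
    (hS4 : ∀ p : ℕ, p ∈ S4 ↔ p ∈ P ∧ p ∣ v) (d : ℕ) (hd : Squarefree d)
    (hdP : ∀ p : ℕ, p.Prime → p ∣ d → p ∈ P) (k : ℤ) :
    pw u e d k = (if ((d.gcd v : ℕ) : ℤ) ∣ k then 1 else 0) *
      ∏ p ∈ (d / d.gcd v).primeFactors, (u p + if (p : ℤ) ∣ k then e p else 0) := by
  have hd0 : d ≠ 0 := hd.ne_zero
  have hg : d.gcd v ∣ d := Nat.gcd_dvd_left _ _
  have hmul : d.gcd v * (d / d.gcd v) = d := Nat.mul_div_cancel' hg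
  have hcop : (d.gcd v).Coprime (d / d.gcd v) := by
    have : Squarefree (d.gcd v * (d / d.gcd v)) := by rw [hmul]; exact hd
    exact Nat.coprime_of_squarefree_mul this
  have hsg : Squarefree (d.gcd v) := hd.squarefree_of_dvd hg
  unfold pw
  conv_lhs => rw [← hmul]
  rw [hcop.primeFactors_mul, Finset.prod_union hcop.disjoint_primeFactors]
  congr 1
  have h1 : ∀ p ∈ (d.gcd v).primeFactors, (u p + if (p : ℤ) ∣ k then e p else 0) =
      if (p : ℤ) ∣ k then 1 else 0 := by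
    intro p hp
    have hpp := Nat.prime_of_mem_primeFactors hp
    have hpd := Nat.dvd_of_mem_primeFactors hp
    have hp4 : p ∈ S4 := (hS4 p).mpr ⟨hdP p hpp (hpd.trans hg), hpd.trans (Nat.gcd_dvd_right _ _)⟩
    obtain ⟨h2, h3⟩ := hL.four p hp4
    rw [h2, h3, zero_add]
  rw [Finset.prod_congr rfl h1, Finset.prod_ite_zero]
  simp only [Finset.prod_const_one]
  by_cases h4 : ((d.gcd v : ℕ) : ℤ) ∣ k
  · rw [if_pos h4, if_pos ((sml_dvd _ hsg k).mpr h4)]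
  · rw [if_neg h4, if_neg (fun h5 => h4 ((sml_dvd _ hsg k).mp h5))]

private theorem sml_cong {N v m : ℕ} (hm : 1 ≤ m) (hmv : v.Coprime m) (hmN : N.Coprime m)
    (ep : ℤ) (hep : ep = 1 ∨ ep = -1) (k : ℤ) :
    ∃ b : ℕ, (∀ n : ℕ, (m : ℤ) ∣ k * N + ep * v * n ↔ n % m = b % m) ∧
      ∀ p ∈ m.primeFactors, (p ∣ b ↔ (p : ℤ) ∣ k) := by
  have hee : ep * ep = 1 := by rcases hep with h | h <;> rw [h] <;> norm_num
  have hc : IsCoprime (v : ℤ) (m : ℤ) := Nat.isCoprime_iff_coprime.mpr hmv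
  obtain ⟨a, c, hac⟩ := hc
  have hm0 : (0 : ℤ) < m := by exact_mod_cast hm
  set bz : ℤ := (-(ep * k * N * a)) % m with hbz
  have hbz0 : 0 ≤ bz := Int.emod_nonneg _ hm0.ne'
  have hbzd : (m : ℤ) ∣ -(ep * k * N * a) - bz := by
    rw [hbz]
    exact Int.dvd_self_sub_emod
  have hb : ((bz.toNat : ℕ) : ℤ) = bz := Int.toNat_of_nonneg hbz0
  -- the value at b
  have hval : (m : ℤ) ∣ k * N + ep * v * (bz.toNat : ℕ) := by
    rw [hb]
    obtain ⟨t, ht⟩ := hbzd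
    have h1 : bz = -(ep * k * N * a) - m * t := by linarith
    have h2 : k * N + ep * v * bz = m * (k * N * c - ep * v * t) := by
      rw [h1]
      have h3 : (m : ℤ) * c = 1 - a * v := by linarith
      have h4 : k * (N : ℤ) + ep * v * (-(ep * k * N * a) - m * t) =
          k * N - (ep * ep) * (k * N * (a * v)) - m * (ep * v * t) := by ring
      rw [h4, hee]
      have h5 : (m : ℤ) * (k * N * c - ep * v * t) = k * N * (m * c) - m * (ep * v * t) := by ring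
      rw [h5, h3]
      ring
    rw [h2]
    exact dvd_mul_right _ _
  have hepv : IsCoprime (m : ℤ) (ep * v) := by
    have h1 : IsCoprime (m : ℤ) (v : ℤ) := (Nat.isCoprime_iff_coprime.mpr hmv).symm
    have h2 : IsCoprime (m : ℤ) ep := ⟨0, ep, by rw [zero_mul, zero_add, hee]⟩
    exact h2.mul_right h1
  refine ⟨bz.toNat, ?_, ?_⟩
  · intro n
    have h1 : (m : ℤ) ∣ k * N + ep * v * n ↔ (m : ℤ) ∣ ep * v * ((n : ℤ) - (bz.toNat : ℕ)) := by
      have h2 : k * (N : ℤ) + ep * v * n = (k * N + ep * v * (bz.toNat : ℕ)) +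
          ep * v * ((n : ℤ) - (bz.toNat : ℕ)) := by ring
      rw [h2]
      exact (Int.dvd_add_right hval)
    rw [h1]
    have h3 : (m : ℤ) ∣ ep * v * ((n : ℤ) - (bz.toNat : ℕ)) ↔ (m : ℤ) ∣ (n : ℤ) - (bz.toNat : ℕ) :=
      ⟨fun h => hepv.dvd_of_dvd_mul_left h, fun h => h.mul_left _⟩
    rw [h3]
    have h4 : (m : ℤ) ∣ (n : ℤ) - (bz.toNat : ℕ) ↔ ((bz.toNat : ℕ) : ℤ) ≡ (n : ℤ) [ZMOD (m : ℤ)] :=
      Int.modEq_iff_dvd.symm
    rw [h4, Int.natCast_modEq_iff]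
    unfold Nat.ModEq
    exact eq_comm
  · intro p hp
    have hpm : (p : ℤ) ∣ m := Int.natCast_dvd_natCast.mpr (Nat.dvd_of_mem_primeFactors hp)
    have hpp := Nat.prime_of_mem_primeFactors hp
    have hpi : Prime (p : ℤ) := Nat.prime_iff_prime_int.mp hpp
    have h1 : (p : ℤ) ∣ k * N + ep * v * (bz.toNat : ℕ) := hpm.trans hval
    have hpN : ¬ (p : ℤ) ∣ N := by
      intro h
      have h2 : p ∣ N := Int.natCast_dvd_natCast.mp h
      have h3 : p ∣ 1 := by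
        have := Nat.dvd_gcd h2 (Nat.dvd_of_mem_primeFactors hp)
        rwa [hmN] at this
      exact hpp.one_lt.ne' (Nat.dvd_one.mp h3)
    constructor
    · intro h
      have h2 : (p : ℤ) ∣ ((bz.toNat : ℕ) : ℤ) := Int.natCast_dvd_natCast.mpr h
      have h3 : (p : ℤ) ∣ k * N := (Int.dvd_add_left (h2.mul_left _)).mp h1
      rcases hpi.dvd_or_dvd h3 with h4 | h4
      · exact h4
      · exact absurd h4 hpN
    · intro h
      have h3 : (p : ℤ) ∣ ep * v * (bz.toNat : ℕ) := (Int.dvd_add_right (h.mul_right _)).mp h1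
      have h4 : IsCoprime (p : ℤ) (ep * v) := hepv.of_isCoprime_of_dvd_left hpm
      exact Int.natCast_dvd_natCast.mp (h4.dvd_of_dvd_mul_left h3)

private theorem sml_copN {N d : ℕ} {P : Finset ℕ} (hPN : ∀ p ∈ P, ¬ p ∣ N)
    (hdP : ∀ p : ℕ, p.Prime → p ∣ d → p ∈ P) : N.Coprime d := by
  rw [Nat.coprime_iff_gcd_eq_one, Nat.eq_one_iff_not_exists_prime_dvd]
  intro p hp hpd
  exact hPN p (hdP p hp (hpd.trans (Nat.gcd_dvd_right _ _))) (hpd.trans (Nat.gcd_dvd_left _ _))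

private theorem sml_split {N v d : ℕ} (hd : Squarefree d) (hdN : N.Coprime d) (ep k : ℤ) (n : ℕ) :
    (d : ℤ) ∣ k * N + ep * v * n ↔ ((d.gcd v : ℕ) : ℤ) ∣ k ∧
      ((d / d.gcd v : ℕ) : ℤ) ∣ k * N + ep * v * n := by
  have hg : d.gcd v ∣ d := Nat.gcd_dvd_left _ _
  have hmul : d.gcd v * (d / d.gcd v) = d := Nat.mul_div_cancel' hg
  have hcop : (d.gcd v).Coprime (d / d.gcd v) := by
    have : Squarefree (d.gcd v * (d / d.gcd v)) := by rw [hmul]; exact hd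
    exact Nat.coprime_of_squarefree_mul this
  have hci : IsCoprime ((d.gcd v : ℕ) : ℤ) ((d / d.gcd v : ℕ) : ℤ) :=
    Nat.isCoprime_iff_coprime.mpr hcop
  have hv : ((d.gcd v : ℕ) : ℤ) ∣ ep * v * n := by
    have h1 : ((d.gcd v : ℕ) : ℤ) ∣ (v : ℤ) := Int.natCast_dvd_natCast.mpr (Nat.gcd_dvd_right _ _)
    exact (h1.mul_left _).mul_right _
  have hgN : IsCoprime ((d.gcd v : ℕ) : ℤ) (N : ℤ) :=
    Nat.isCoprime_iff_coprime.mpr ((hdN.coprime_dvd_right hg).symm)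
  have h2 : ((d.gcd v : ℕ) : ℤ) ∣ k * N + ep * v * n ↔ ((d.gcd v : ℕ) : ℤ) ∣ k := by
    rw [Int.dvd_add_left hv]
    exact ⟨fun h => hgN.dvd_of_dvd_mul_right h, fun h => h.mul_right _⟩
  rw [← h2]
  have h3 : (d : ℤ) = ((d.gcd v : ℕ) : ℤ) * ((d / d.gcd v : ℕ) : ℤ) := by exact_mod_cast hmul.symm
  constructor
  · intro h
    rw [h3] at h
    exact ⟨(dvd_mul_right _ _).trans h, (dvd_mul_left _ _).trans h⟩
  · rintro ⟨h4, h5⟩
    rw [h3]
    exact hci.mul_dvd h4 h5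

open Classical in
private theorem sml_pair {N z v : ℕ} {P S4 : Finset ℕ} {u e : ℕ → ℝ}
    (hL : Law z P S4 u e) (hPN : ∀ p ∈ P, ¬ p ∣ N)
    (hS4 : ∀ p : ℕ, p ∈ S4 ↔ p ∈ P ∧ p ∣ v) (y0 Y : ℕ) (hY : y0 ^ 2 ≤ Y) (hY1 : 1 ≤ Y)
    (I : Finset ℕ) (om : ℕ → ℝ) (X Err : ℝ) (hlaw : HasLaw P S4 u e I om X Err Y)
    (ep : ℤ) (hep : ep = 1 ∨ ep = -1) (d₁ d₂ : ℕ)
    (h1 : d₁ ≤ y0 ∧ Squarefree d₁ ∧ ∀ p : ℕ, p.Prime → p ∣ d₁ → p ∈ P)
    (h2 : d₂ ≤ y0 ∧ Squarefree d₂ ∧ ∀ p : ℕ, p.Prime → p ∣ d₂ → p ∈ P) (k₁ k₂ : ℤ) :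
    |∑ n ∈ I, (if (d₁ : ℤ) ∣ k₁ * N + ep * v * n ∧ (d₂ : ℤ) ∣ k₂ * N + ep * v * n then om n
      else 0) - X * jw u e d₁ d₂ k₁ k₂| ≤ Err := by
  obtain ⟨h1y, h1s, h1P⟩ := h1
  obtain ⟨h2y, h2s, h2P⟩ := h2
  have hErr : 0 ≤ Err := by
    have h := hlaw 1 squarefree_one (fun p hp hp1 => absurd (Nat.dvd_one.mp hp1) hp.one_lt.ne')
      hY1 0
    exact (abs_nonneg _).trans h
  have hgd2 : d₁.gcd d₂ ∣ d₂ := Nat.gcd_dvd_right _ _
  have hmul2 : d₁.gcd d₂ * (d₂ / d₁.gcd d₂) = d₂ := Nat.mul_div_cancel' hgd2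
  have hcop2 : (d₁.gcd d₂).Coprime (d₂ / d₁.gcd d₂) := by
    have : Squarefree (d₁.gcd d₂ * (d₂ / d₁.gcd d₂)) := by rw [hmul2]; exact h2s
    exact Nat.coprime_of_squarefree_mul this
  have hd2' : d₂ / d₁.gcd d₂ ∣ d₂ := Nat.div_dvd_of_dvd hgd2
  have h2s' : Squarefree (d₂ / d₁.gcd d₂) := h2s.squarefree_of_dvd hd2'
  have h2P' : ∀ p : ℕ, p.Prime → p ∣ d₂ / d₁.gcd d₂ → p ∈ P := fun p hp hpd =>
    h2P p hp (hpd.trans hd2')
  have hN1 : N.Coprime d₁ := sml_copN hPN h1P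
  have hN2 : N.Coprime d₂ := sml_copN hPN h2P
  have hN2' : N.Coprime (d₂ / d₁.gcd d₂) := hN2.coprime_dvd_right hd2'
  -- d₁ and d₂ / g are coprime
  have hc12 : d₁.Coprime (d₂ / d₁.gcd d₂) := by
    rw [Nat.coprime_iff_gcd_eq_one, Nat.eq_one_iff_not_exists_prime_dvd]
    intro p hp hpd
    have ha : p ∣ d₁ := hpd.trans (Nat.gcd_dvd_left _ _)
    have hb : p ∣ d₂ / d₁.gcd d₂ := hpd.trans (Nat.gcd_dvd_right _ _)
    have hc : p ∣ d₁.gcd d₂ := Nat.dvd_gcd ha (hb.trans hd2')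
    have hd : p ∣ (d₁.gcd d₂).gcd (d₂ / d₁.gcd d₂) := Nat.dvd_gcd hc hb
    rw [hcop2] at hd
    exact hp.one_lt.ne' (Nat.dvd_one.mp hd)
  -- the equivalence
  have hequiv : ∀ n : ℕ, ((d₁ : ℤ) ∣ k₁ * N + ep * v * n ∧ (d₂ : ℤ) ∣ k₂ * N + ep * v * n) ↔
      (((d₁.gcd d₂ : ℕ) : ℤ) ∣ k₂ - k₁ ∧ (d₁ : ℤ) ∣ k₁ * N + ep * v * n ∧
        ((d₂ / d₁.gcd d₂ : ℕ) : ℤ) ∣ k₂ * N + ep * v * n) := by
    intro n
    have hg1 : ((d₁.gcd d₂ : ℕ) : ℤ) ∣ (d₁ : ℤ) :=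
      Int.natCast_dvd_natCast.mpr (Nat.gcd_dvd_left _ _)
    have hgN : IsCoprime ((d₁.gcd d₂ : ℕ) : ℤ) (N : ℤ) :=
      Nat.isCoprime_iff_coprime.mpr ((hN2.coprime_dvd_right hgd2).symm)
    have h3 : (d₂ : ℤ) = ((d₁.gcd d₂ : ℕ) : ℤ) * ((d₂ / d₁.gcd d₂ : ℕ) : ℤ) := by
      exact_mod_cast hmul2.symm
    have hci : IsCoprime ((d₁.gcd d₂ : ℕ) : ℤ) ((d₂ / d₁.gcd d₂ : ℕ) : ℤ) :=
      Nat.isCoprime_iff_coprime.mpr hcop2
    have hdiff : k₂ * (N : ℤ) + ep * v * n = (k₁ * N + ep * v * n) + (k₂ - k₁) * N := by ring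
    constructor
    · rintro ⟨ha, hb⟩
      have hb1 : ((d₁.gcd d₂ : ℕ) : ℤ) ∣ k₂ * N + ep * v * n := by
        rw [h3] at hb
        exact (dvd_mul_right _ _).trans hb
      refine ⟨?_, ha, ?_⟩
      · rw [hdiff] at hb1
        have hb2 := (Int.dvd_add_right (hg1.trans ha)).mp hb1
        exact hgN.dvd_of_dvd_mul_right hb2
      · rw [h3] at hb
        exact (dvd_mul_left _ _).trans hb
    · rintro ⟨hg, ha, hb⟩
      refine ⟨ha, ?_⟩
      rw [h3]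
      refine hci.mul_dvd ?_ hb
      rw [hdiff]
      exact (Int.dvd_add_right (hg1.trans ha)).mpr (hg.mul_right _)
  by_cases hg : ((d₁.gcd d₂ : ℕ) : ℤ) ∣ k₂ - k₁
  swap
  · have hz : ∑ n ∈ I, (if (d₁ : ℤ) ∣ k₁ * N + ep * v * n ∧ (d₂ : ℤ) ∣ k₂ * N + ep * v * n
        then om n else 0) = 0 := by
      refine Finset.sum_eq_zero fun n _ => if_neg ?_
      rw [hequiv n]
      exact fun h => hg h.1
    rw [hz]
    unfold jw
    rw [if_neg hg, mul_zero, mul_zero, sub_zero, abs_zero]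
    exact hErr
  -- split off the part dividing v
  have hs1 := fun n => sml_split (v := v) h1s hN1 ep k₁ n
  have hs2 := fun n => sml_split (v := v) h2s' hN2' ep k₂ n
  have hp1 := sml_pw hL hS4 d₁ h1s h1P k₁
  have hp2 := sml_pw hL hS4 (d₂ / d₁.gcd d₂) h2s' h2P' k₂
  set m₁ := d₁ / d₁.gcd v with hm₁
  set m₂ := (d₂ / d₁.gcd d₂) / (d₂ / d₁.gcd d₂).gcd v with hm₂
  by_cases ha1 : ((d₁.gcd v : ℕ) : ℤ) ∣ k₁
  swap
  · have hz : ∑ n ∈ I, (if (d₁ : ℤ) ∣ k₁ * N + ep * v * n ∧ (d₂ : ℤ) ∣ k₂ * N + ep * v * n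
        then om n else 0) = 0 := by
      refine Finset.sum_eq_zero fun n _ => if_neg ?_
      rintro ⟨h, -⟩
      exact ha1 ((hs1 n).mp h).1
    rw [hz]
    unfold jw
    rw [hp1, if_neg ha1, zero_mul, zero_mul, zero_mul, mul_zero, sub_zero, abs_zero]
    exact hErr
  by_cases ha2 : (((d₂ / d₁.gcd d₂).gcd v : ℕ) : ℤ) ∣ k₂
  swap
  · have hz : ∑ n ∈ I, (if (d₁ : ℤ) ∣ k₁ * N + ep * v * n ∧ (d₂ : ℤ) ∣ k₂ * N + ep * v * n
        then om n else 0) = 0 := by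
      refine Finset.sum_eq_zero fun n _ => if_neg ?_
      rw [hequiv n]
      rintro ⟨-, -, h⟩
      exact ha2 ((hs2 n).mp h).1
    rw [hz]
    unfold jw
    rw [hp2, if_neg ha2, zero_mul, mul_zero, zero_mul, mul_zero, sub_zero, abs_zero]
    exact hErr
  -- the main case
  have hm1d : m₁ ∣ d₁ := Nat.div_dvd_of_dvd (Nat.gcd_dvd_left _ _)
  have hm2d : m₂ ∣ d₂ / d₁.gcd d₂ := Nat.div_dvd_of_dvd (Nat.gcd_dvd_left _ _)
  have hm1s : Squarefree m₁ := h1s.squarefree_of_dvd hm1d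
  have hm2s : Squarefree m₂ := h2s'.squarefree_of_dvd hm2d
  have hm12 : m₁.Coprime m₂ := Nat.Coprime.coprime_dvd_left hm1d (hc12.coprime_dvd_right hm2d)
  have hcv : ∀ d : ℕ, Squarefree d → (d / d.gcd v).Coprime v := by
    intro d hd
    rw [Nat.coprime_iff_gcd_eq_one, Nat.eq_one_iff_not_exists_prime_dvd]
    intro p hp hpd
    have ha : p ∣ d / d.gcd v := hpd.trans (Nat.gcd_dvd_left _ _)
    have hb : p ∣ v := hpd.trans (Nat.gcd_dvd_right _ _)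
    have hg' : d.gcd v ∣ d := Nat.gcd_dvd_left _ _
    have hmul : d.gcd v * (d / d.gcd v) = d := Nat.mul_div_cancel' hg'
    have hc : p ∣ d.gcd v := Nat.dvd_gcd (ha.trans (Nat.div_dvd_of_dvd hg')) hb
    have hsq : Squarefree (d.gcd v * (d / d.gcd v)) := by rw [hmul]; exact hd
    have hd' : p ∣ (d.gcd v).gcd (d / d.gcd v) := Nat.dvd_gcd hc ha
    rw [Nat.coprime_of_squarefree_mul hsq] at hd'
    exact hp.one_lt.ne' (Nat.dvd_one.mp hd')
  have hm1v : v.Coprime m₁ := (hcv d₁ h1s).symm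
  have hm2v : v.Coprime m₂ := (hcv _ h2s').symm
  have hm1N : N.Coprime m₁ := hN1.coprime_dvd_right hm1d
  have hm2N : N.Coprime m₂ := hN2'.coprime_dvd_right hm2d
  have hm1p : 1 ≤ m₁ := Nat.pos_of_ne_zero hm1s.ne_zero
  have hm2p : 1 ≤ m₂ := Nat.pos_of_ne_zero hm2s.ne_zero
  have hmp : 1 ≤ m₁ * m₂ := Nat.mul_pos hm1p hm2p
  obtain ⟨x, y, hxy⟩ : IsCoprime (m₁ : ℤ) (m₂ : ℤ) := Nat.isCoprime_iff_coprime.mpr hm12
  set k : ℤ := k₁ * (y * m₂) + k₂ * (x * m₁) with hk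
  have hk1 : (m₁ : ℤ) ∣ k - k₁ := by
    refine ⟨(k₂ - k₁) * x, ?_⟩
    have : y * (m₂ : ℤ) = 1 - x * m₁ := by linarith
    rw [hk, this]
    ring
  have hk2 : (m₂ : ℤ) ∣ k - k₂ := by
    refine ⟨(k₁ - k₂) * y, ?_⟩
    have : x * (m₁ : ℤ) = 1 - y * m₂ := by linarith
    rw [hk, this]
    ring
  obtain ⟨b, hb1, hb2⟩ := sml_cong hmp (hm1v.mul_right hm2v) (hm1N.mul_right hm2N) ep hep k
  have hmod : ∀ n : ℕ, ((d₁ : ℤ) ∣ k₁ * N + ep * v * n ∧ (d₂ : ℤ) ∣ k₂ * N + ep * v * n) ↔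
      n % (m₁ * m₂) = b % (m₁ * m₂) := by
    intro n
    rw [hequiv n, hs1 n, hs2 n, ← hb1 n]
    have e1 : k * (N : ℤ) + ep * v * n = (k₁ * N + ep * v * n) + (k - k₁) * N := by ring
    have e2 : k * (N : ℤ) + ep * v * n = (k₂ * N + ep * v * n) + (k - k₂) * N := by ring
    have i1 : (m₁ : ℤ) ∣ k * N + ep * v * n ↔ (m₁ : ℤ) ∣ k₁ * N + ep * v * n := by
      rw [e1]
      exact Int.dvd_add_left (hk1.mul_right _)
    have i2 : (m₂ : ℤ) ∣ k * N + ep * v * n ↔ (m₂ : ℤ) ∣ k₂ * N + ep * v * n := by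
      rw [e2]
      exact Int.dvd_add_left (hk2.mul_right _)
    have i3 : ((m₁ * m₂ : ℕ) : ℤ) ∣ k * N + ep * v * n ↔
        (m₁ : ℤ) ∣ k * N + ep * v * n ∧ (m₂ : ℤ) ∣ k * N + ep * v * n := by
      push_cast
      constructor
      · intro h
        exact ⟨(dvd_mul_right _ _).trans h, (dvd_mul_left _ _).trans h⟩
      · rintro ⟨h, h'⟩
        exact IsCoprime.mul_dvd ⟨x, y, hxy⟩ h h'
    rw [i3, i1, i2]
    constructor
    · rintro ⟨-, ⟨-, h⟩, ⟨-, h'⟩⟩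
      exact ⟨h, h'⟩
    · rintro ⟨h, h'⟩
      exact ⟨hg, ⟨ha1, h⟩, ⟨ha2, h'⟩⟩
  have hsum : ∑ n ∈ I, (if (d₁ : ℤ) ∣ k₁ * N + ep * v * n ∧ (d₂ : ℤ) ∣ k₂ * N + ep * v * n
      then om n else 0) = ∑ n ∈ I.filter (fun n => n % (m₁ * m₂) = b % (m₁ * m₂)), om n := by
    rw [Finset.sum_filter]
    refine Finset.sum_congr rfl fun n _ => ?_
    by_cases h : n % (m₁ * m₂) = b % (m₁ * m₂)
    · rw [if_pos h, if_pos ((hmod n).mpr h)]
    · rw [if_neg h, if_neg (fun h' => h ((hmod n).mp h'))]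
  have hmle : m₁ * m₂ ≤ Y := by
    have h3 : m₁ ≤ y0 := (Nat.le_of_dvd (Nat.pos_of_ne_zero h1s.ne_zero) hm1d).trans h1y
    have h4 : m₂ ≤ y0 := (Nat.le_of_dvd (Nat.pos_of_ne_zero h2s.ne_zero)
      (hm2d.trans hd2')).trans h2y
    calc m₁ * m₂ ≤ y0 * y0 := Nat.mul_le_mul h3 h4
      _ = y0 ^ 2 := (sq y0).symm
      _ ≤ Y := hY
  have hprimes : ∀ p : ℕ, p.Prime → p ∣ m₁ * m₂ → p ∈ P ∧ p ∉ S4 := by
    intro p hp hpd
    have hpv : ¬ p ∣ v := by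
      intro h
      have h3 : p ∣ v.gcd (m₁ * m₂) := Nat.dvd_gcd h hpd
      rw [hm1v.mul_right hm2v] at h3
      exact hp.one_lt.ne' (Nat.dvd_one.mp h3)
    refine ⟨?_, fun h => hpv ((hS4 p).mp h).2⟩
    rcases (hp.dvd_mul).mp hpd with h | h
    · exact h1P p hp (h.trans hm1d)
    · exact h2P' p hp (h.trans hm2d)
  have hl := hlaw (m₁ * m₂) ((Nat.squarefree_mul hm12).mpr ⟨hm1s, hm2s⟩) hprimes hmle b
  have hjw : jw u e d₁ d₂ k₁ k₂ =
      ∏ p ∈ (m₁ * m₂).primeFactors, (u p + if p ∣ b then e p else 0) := by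
    unfold jw
    rw [hp1, hp2, if_pos ha1, if_pos ha2, if_pos hg, one_mul, one_mul, mul_one,
      hm12.primeFactors_mul, Finset.prod_union hm12.disjoint_primeFactors]
    congr 1
    · refine Finset.prod_congr rfl fun p hp => ?_
      have hpm : (p : ℤ) ∣ m₁ := Int.natCast_dvd_natCast.mpr (Nat.dvd_of_mem_primeFactors hp)
      have h3 : p ∈ (m₁ * m₂).primeFactors := by
        rw [hm12.primeFactors_mul]
        exact Finset.mem_union_left _ hp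
      have h4 : (p : ℤ) ∣ k ↔ (p : ℤ) ∣ k₁ := by
        have h5 : k = k₁ + (k - k₁) := by ring
        rw [h5]
        exact Int.dvd_add_left (hpm.trans hk1)
      have h6 : (p ∣ b) ↔ (p : ℤ) ∣ k₁ := (hb2 p h3).trans h4
      by_cases h7 : (p : ℤ) ∣ k₁
      · rw [if_pos h7, if_pos (h6.mpr h7)]
      · rw [if_neg h7, if_neg (fun h8 => h7 (h6.mp h8))]
    · refine Finset.prod_congr rfl fun p hp => ?_
      have hpm : (p : ℤ) ∣ m₂ := Int.natCast_dvd_natCast.mpr (Nat.dvd_of_mem_primeFactors hp)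
      have h3 : p ∈ (m₁ * m₂).primeFactors := by
        rw [hm12.primeFactors_mul]
        exact Finset.mem_union_right _ hp
      have h4 : (p : ℤ) ∣ k ↔ (p : ℤ) ∣ k₂ := by
        have h5 : k = k₂ + (k - k₂) := by ring
        rw [h5]
        exact Int.dvd_add_left (hpm.trans hk2)
      have h6 : (p ∣ b) ↔ (p : ℤ) ∣ k₂ := (hb2 p h3).trans h4
      by_cases h7 : (p : ℤ) ∣ k₂
      · rw [if_pos h7, if_pos (h6.mpr h7)]
      · rw [if_neg h7, if_neg (fun h8 => h7 (h6.mp h8))]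
  rw [hsum, hjw]
  exact hl

theorem second_moment {N z v : ℕ} {P S4 : Finset ℕ} {u e : ℕ → ℝ} (hN : 1 ≤ N) (hv : 1 ≤ v)
    (hvN : v.Coprime N) (hL : Law z P S4 u e) (hPN : ∀ p ∈ P, ¬ p ∣ N)
    (hS4 : ∀ p : ℕ, p ∈ S4 ↔ p ∈ P ∧ p ∣ v) (D : Finset ℕ) (w : ℕ → ℝ) (Lam : ℝ)
    (hw : Wts P D w Lam) (y0 Y : ℕ) (hy0 : ∀ d ∈ D, d ≤ y0) (hY : y0 ^ 2 ≤ Y) (hY1 : 1 ≤ Y)
    (I : Finset ℕ) (om : ℕ → ℝ) (X Err : ℝ) (hX : 0 ≤ X) (hlaw : HasLaw P S4 u e I om X Err Y)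
    (W : Finset ℤ) (ep : ℤ) (hep : ep = 1 ∨ ep = -1) :
    |∑ n ∈ I, om n * (Aw D w W N v ep n - W.card * Vw D w) ^ 2 -
      X * (M2 u e D w W - 2 * (W.card * Vw D w) * M1 u e D w W + (W.card * Vw D w) ^ 2)| ≤
      4 * (∑ d ∈ D, |w d|) ^ 2 * (W.card : ℝ) ^ 2 * Err := by
  classical
  have _ := hN
  have _ := hv
  have _ := hvN
  have _ := hX
  set Λ : ℝ := ∑ d ∈ D, |w d| with hΛ
  set J : ℝ := (W.card : ℝ) with hJ
  set V : ℝ := Vw D w with hV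
  have hJ0 : 0 ≤ J := Nat.cast_nonneg _
  have hΛ0 : 0 ≤ Λ := Finset.sum_nonneg fun _ _ => abs_nonneg _
  have h0 : |∑ n ∈ I, om n - X| ≤ Err := by
    have h := hlaw 1 squarefree_one (fun p hp hp1 => absurd (Nat.dvd_one.mp hp1) hp.one_lt.ne')
      hY1 0
    rw [Nat.primeFactors_one, Finset.prod_empty, mul_one] at h
    have e1 : I.filter (fun n => n % 1 = 0 % 1) = I := by
      apply Finset.filter_true_of_mem
      intro n _
      omega
    rwa [e1] at h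
  have hErr : 0 ≤ Err := (abs_nonneg _).trans h0
  have hVΛ : |V| ≤ Λ := by
    rw [hV, hΛ]
    unfold Vw
    refine (Finset.abs_sum_le_sum_abs _ _).trans (Finset.sum_le_sum fun d hd => ?_)
    have h1 : (1 : ℝ) ≤ d := by exact_mod_cast (hw.sq d hd).1
    rw [abs_div, Nat.abs_cast]
    exact div_le_self (abs_nonneg _) h1
  set R : Finset (ℕ × ℤ) := D ×ˢ W with hR
  set ind : ℕ × ℤ → ℕ → ℝ := fun r n => if (r.1 : ℤ) ∣ r.2 * N + ep * v * n then 1 else 0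
    with hind
  have hA : ∀ n : ℕ, Aw D w W N v ep n = ∑ r ∈ R, w r.1 * ind r n := by
    intro n
    unfold Aw
    rw [hR, Finset.sum_product, Finset.sum_comm]
    refine Finset.sum_congr rfl fun d _ => Finset.sum_congr rfl fun k _ => ?_
    simp only [hind]
    split_ifs <;> simp
  have hRΛ : ∑ r ∈ R, |w r.1| = J * Λ := by
    rw [hR, Finset.sum_product]
    simp only [Finset.sum_const, nsmul_eq_mul]
    rw [← Finset.mul_sum]
  -- the first moment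
  have hT1 : ∀ r ∈ R, |∑ n ∈ I, om n * ind r n - X * pw u e r.1 r.2| ≤ Err := by
    intro r hr
    rw [hR, Finset.mem_product] at hr
    obtain ⟨hd1, hdsq, hdP⟩ := hw.sq r.1 hr.1
    have h := sml_pair (N := N) hL hPN hS4 y0 Y hY hY1 I om X Err hlaw ep hep r.1 1
      ⟨hy0 _ hr.1, hdsq, hdP⟩ ⟨hd1.trans (hy0 _ hr.1), squarefree_one,
        fun p hp hp1 => absurd (Nat.dvd_one.mp hp1) hp.one_lt.ne'⟩ r.2 0
    have e1 : jw u e r.1 1 r.2 0 = pw u e r.1 r.2 := by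
      unfold jw
      rw [Nat.gcd_one_right]
      simp [pw]
    rw [e1] at h
    refine le_trans (le_of_eq ?_) h
    congr 2
    refine Finset.sum_congr rfl fun n _ => ?_
    simp only [hind, Nat.cast_one, one_dvd, and_true]
    split_ifs <;> simp
  have hS1 : |∑ n ∈ I, om n * Aw D w W N v ep n - X * M1 u e D w W| ≤ J * Λ * Err := by
    have e1 : ∑ n ∈ I, om n * Aw D w W N v ep n = ∑ r ∈ R, w r.1 * ∑ n ∈ I, om n * ind r n := by
      simp_rw [hA, Finset.mul_sum]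
      rw [Finset.sum_comm]
      refine Finset.sum_congr rfl fun r _ => Finset.sum_congr rfl fun n _ => ?_
      ring
    have e2 : M1 u e D w W = ∑ r ∈ R, w r.1 * pw u e r.1 r.2 := by
      unfold M1
      rw [hR, Finset.sum_product]
      refine Finset.sum_congr rfl fun d _ => ?_
      rw [Finset.mul_sum]
    rw [e1, e2, Finset.mul_sum, ← Finset.sum_sub_distrib]
    refine (Finset.abs_sum_le_sum_abs _ _).trans ?_
    rw [← hRΛ, Finset.sum_mul]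
    refine Finset.sum_le_sum fun r hr => ?_
    have e3 : w r.1 * ∑ n ∈ I, om n * ind r n - X * (w r.1 * pw u e r.1 r.2) =
        w r.1 * (∑ n ∈ I, om n * ind r n - X * pw u e r.1 r.2) := by ring
    rw [e3, abs_mul]
    exact mul_le_mul_of_nonneg_left (hT1 r hr) (abs_nonneg _)
  -- the second moment
  have hT2 : ∀ r ∈ R, ∀ s ∈ R, |∑ n ∈ I, om n * (ind r n * ind s n) -
      X * jw u e r.1 s.1 r.2 s.2| ≤ Err := by
    intro r hr s hs
    rw [hR, Finset.mem_product] at hr hs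
    obtain ⟨-, hdsq, hdP⟩ := hw.sq r.1 hr.1
    obtain ⟨-, hdsq', hdP'⟩ := hw.sq s.1 hs.1
    have h := sml_pair (N := N) hL hPN hS4 y0 Y hY hY1 I om X Err hlaw ep hep r.1 s.1
      ⟨hy0 _ hr.1, hdsq, hdP⟩ ⟨hy0 _ hs.1, hdsq', hdP'⟩ r.2 s.2
    refine le_trans (le_of_eq ?_) h
    congr 2
    refine Finset.sum_congr rfl fun n _ => ?_
    simp only [hind]
    by_cases h1 : (r.1 : ℤ) ∣ r.2 * N + ep * v * n
    · by_cases h2 : (s.1 : ℤ) ∣ s.2 * N + ep * v * n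
      · simp [h1, h2]
      · simp [h1, h2]
    · simp [h1]
  have hS2 : |∑ n ∈ I, om n * (Aw D w W N v ep n) ^ 2 - X * M2 u e D w W| ≤
      (J * Λ) ^ 2 * Err := by
    have e1 : ∑ n ∈ I, om n * (Aw D w W N v ep n) ^ 2 =
        ∑ r ∈ R, ∑ s ∈ R, w r.1 * w s.1 * ∑ n ∈ I, om n * (ind r n * ind s n) := by
      have e3 : ∀ n ∈ I, om n * (Aw D w W N v ep n) ^ 2 =
          ∑ r ∈ R, ∑ s ∈ R, w r.1 * w s.1 * (om n * (ind r n * ind s n)) := by
        intro n _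
        rw [hA, sq, Finset.sum_mul_sum, Finset.mul_sum]
        refine Finset.sum_congr rfl fun r _ => ?_
        rw [Finset.mul_sum]
        refine Finset.sum_congr rfl fun s _ => ?_
        ring
      rw [Finset.sum_congr rfl e3, Finset.sum_comm]
      refine Finset.sum_congr rfl fun r _ => ?_
      rw [Finset.sum_comm]
      refine Finset.sum_congr rfl fun s _ => ?_
      rw [Finset.mul_sum]
    have e2 : M2 u e D w W = ∑ r ∈ R, ∑ s ∈ R, w r.1 * w s.1 * jw u e r.1 s.1 r.2 s.2 := by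
      unfold M2
      rw [hR, Finset.sum_product]
      refine Finset.sum_congr rfl fun d _ => ?_
      have e4 : ∀ k ∈ W, ∑ s ∈ D ×ˢ W, w (d, k).1 * w s.1 * jw u e (d, k).1 s.1 (d, k).2 s.2 =
          ∑ d' ∈ D, ∑ k' ∈ W, w d * w d' * jw u e d d' k k' := by
        intro k _
        rw [Finset.sum_product]
      rw [Finset.sum_congr rfl e4, Finset.sum_comm]
      refine Finset.sum_congr rfl fun d' _ => ?_
      rw [Finset.mul_sum]
      refine Finset.sum_congr rfl fun k _ => ?_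
      rw [Finset.mul_sum]
    rw [e1, e2, Finset.mul_sum, ← Finset.sum_sub_distrib]
    refine (Finset.abs_sum_le_sum_abs _ _).trans ?_
    have e5 : (J * Λ) ^ 2 * Err = ∑ r ∈ R, ∑ s ∈ R, |w r.1| * |w s.1| * Err := by
      rw [← hRΛ, sq, Finset.sum_mul_sum, Finset.sum_mul]
      refine Finset.sum_congr rfl fun r _ => ?_
      rw [Finset.sum_mul]
    rw [e5]
    refine Finset.sum_le_sum fun r hr => ?_
    rw [Finset.mul_sum, ← Finset.sum_sub_distrib]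
    refine (Finset.abs_sum_le_sum_abs _ _).trans (Finset.sum_le_sum fun s hs => ?_)
    have e6 : w r.1 * w s.1 * ∑ n ∈ I, om n * (ind r n * ind s n) -
        X * (w r.1 * w s.1 * jw u e r.1 s.1 r.2 s.2) =
        w r.1 * w s.1 * (∑ n ∈ I, om n * (ind r n * ind s n) - X * jw u e r.1 s.1 r.2 s.2) := by
      ring
    rw [e6, abs_mul, abs_mul]
    exact mul_le_mul_of_nonneg_left (hT2 r hr s hs) (by positivity)
  -- combine
  have e7 : ∑ n ∈ I, om n * (Aw D w W N v ep n - J * V) ^ 2 =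
      ∑ n ∈ I, om n * (Aw D w W N v ep n) ^ 2 - 2 * (J * V) * ∑ n ∈ I, om n * Aw D w W N v ep n +
        (J * V) ^ 2 * ∑ n ∈ I, om n := by
    rw [Finset.mul_sum, Finset.mul_sum, ← Finset.sum_sub_distrib, ← Finset.sum_add_distrib]
    refine Finset.sum_congr rfl fun n _ => ?_
    ring
  rw [e7]
  set S2 := ∑ n ∈ I, om n * (Aw D w W N v ep n) ^ 2 with hS2d
  set S1 := ∑ n ∈ I, om n * Aw D w W N v ep n with hS1d
  set S0 := ∑ n ∈ I, om n with hS0d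
  have e8 : S2 - 2 * (J * V) * S1 + (J * V) ^ 2 * S0 -
      X * (M2 u e D w W - 2 * (J * V) * M1 u e D w W + (J * V) ^ 2) =
      (S2 - X * M2 u e D w W) + (-(2 * (J * V)) * (S1 - X * M1 u e D w W) +
        (J * V) ^ 2 * (S0 - X)) := by ring
  rw [e8]
  have hJV : |J * V| ≤ J * Λ := by
    rw [abs_mul, abs_of_nonneg hJ0]
    exact mul_le_mul_of_nonneg_left hVΛ hJ0
  have hJΛ : 0 ≤ J * Λ := mul_nonneg hJ0 hΛ0
  have b1 : |-(2 * (J * V)) * (S1 - X * M1 u e D w W)| ≤ 2 * (J * Λ) * (J * Λ * Err) := by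
    rw [abs_mul, abs_neg, abs_mul, abs_two]
    exact mul_le_mul (by linarith) hS1 (abs_nonneg _) (by positivity)
  have b2 : |(J * V) ^ 2 * (S0 - X)| ≤ (J * Λ) ^ 2 * Err := by
    rw [abs_mul, abs_pow]
    exact mul_le_mul (pow_le_pow_left₀ (abs_nonneg _) hJV 2) h0 (abs_nonneg _) (by positivity)
  calc _ ≤ |S2 - X * M2 u e D w W| + (|-(2 * (J * V)) * (S1 - X * M1 u e D w W)| +
        |(J * V) ^ 2 * (S0 - X)|) := (abs_add_le _ _).trans (add_le_add le_rfl (abs_add_le _ _))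
    _ ≤ (J * Λ) ^ 2 * Err + (2 * (J * Λ) * (J * Λ * Err) + (J * Λ) ^ 2 * Err) :=
        add_le_add hS2 (add_le_add b1 b2)
    _ = 4 * Λ ^ 2 * J ^ 2 * Err := by ring

end Pool.Agent.Lib.RG
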