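import Pool.Agent.Lib.MP_7b7e48_nt.RG.SMc2
import Pool.Agent.Lib.MP_7b7e48_nt.RG.SMl
import Pool.Agent.Lib.MP_7b7e48_nt.RG.SL
import Pool.Agent.Lib.MP_7b7e48_nt.RG.A7

/-!
# Module SMg (60 minutes): few classes are not good, with respect to weights with a law

PROOF. `P = PN N z`, `(D, w)` the weights of `SL.lower_weights2` for `z, P`: `d ≤ z^K`, `∑ |w d| ≤ z^K`, `|w d| ≤ 2 + 2 log z`,
`V = ∑ w d/d ≥ (1/2) ∏_{p ∈ P} (1 - 1/p) ≥ c / log z` (`A7.prod_lower`). The window: for all `n ∈ I` we have `⌊v n / N⌋ = k0`; if `ep = 1`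
let `W = Ico (-k0) (J - k0)`, if `ep = -1` let `W = Ico (k0 + 1) (k0 + 1 + J)`. For `n ∈ I` coprime to `N` and `k ∈ W` we have
`0 < k N + ep v n < J N` (`v n` is not divisible by `N`; if `N = 1`... `N ≥ 2`), so the `k` with `k N + ep v n` free of primes of `P`
give different elements of `RR N z (J N) (ep v n)` (these integers are coprime to `N`, hence `Rough z`). As
`∑_{d ∣ m} w d ≤ 1[m free of primes of P]`, `Aw n ≤ |RR N z (J N) (ep v n)|`. If this class is not good, then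
`Aw n < J/(log N)² ≤ J V/2` (`V ≥ c/log z ≥ 2/(log N)²` as `z ≤ N` and `N` is large), so `(Aw n - J V)² ≥ (J V)²/4 ≥ c² J²/(4 log² z)`.
By `SMl.second_moment` (`Y = z^(2K)`, `W.card = J`) and `SMc2.variance`:
`∑_{bad} om n ≤ (4 log² z/(c² J²)) (X C Lam² J (1 + log z)⁹ + 4 z^(2K) J² Err)`, `Lam = 2 + 2 log z`: this is
`≤ C' X (log N)^13 / J + C' (log N)² z^(2K) Err`; absorb the constants in one more power of `log N` (`N` large).
-/

open Finset

namespace Pool.Agent.Lib.RG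

/-- one window element: the shifted integer lies in `(0, J N)` -/
private theorem SMg_range {N v n k0 J : ℕ} {k ep : ℤ} (hN : 2 ≤ N) (hco : (v * n).Coprime N)
    (hk0 : v * n / N = k0) (hep : ep = 1 ∨ ep = -1)
    (hk : k ∈ Finset.Ico (if ep = 1 then -(k0 : ℤ) else k0 + 1)
      ((if ep = 1 then -(k0 : ℤ) else k0 + 1) + J)) :
    0 < k * N + ep * v * n ∧ k * N + ep * v * n < J * N := by
  have hN0 : 0 < N := by omega
  have h1 : k0 * N ≤ v * n := by
    rw [← hk0]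
    exact Nat.div_mul_le_self _ _
  have h2 : v * n < (k0 + 1) * N := by
    have h0 := Nat.lt_mul_div_succ (v * n) hN0
    rw [hk0] at h0
    calc v * n < N * (k0 + 1) := h0
      _ = (k0 + 1) * N := mul_comm _ _
  have h3 : k0 * N ≠ v * n := by
    intro h
    have h4 : N ∣ v * n := ⟨k0, by rw [← h, mul_comm]⟩
    have h5 : N = 1 := by
      have h6 := Nat.Coprime.eq_one_of_dvd hco.symm h4
      exact h6
    omega
  have h1' : (k0 : ℤ) * N < (v : ℤ) * n := by
    have : k0 * N < v * n := lt_of_le_of_ne h1 h3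
    exact_mod_cast this
  have h2' : (v : ℤ) * n < ((k0 : ℤ) + 1) * N := by exact_mod_cast h2
  have hNz : (0 : ℤ) < N := by exact_mod_cast hN0
  rw [Finset.mem_Ico] at hk
  rcases hep with rfl | rfl
  · rw [if_pos rfl] at hk
    have e1 : -(k0 : ℤ) * N ≤ k * N := mul_le_mul_of_nonneg_right hk.1 hNz.le
    have e2 : (k + 1) * N ≤ (-(k0 : ℤ) + J) * N := mul_le_mul_of_nonneg_right (by omega) hNz.le
    constructor <;> nlinarith
  · rw [if_neg (by norm_num)] at hk
    have e1 : ((k0 : ℤ) + 1) * N ≤ k * N := mul_le_mul_of_nonneg_right hk.1 hNz.le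
    have e2 : (k + 1) * N ≤ ((k0 : ℤ) + 1 + J) * N := mul_le_mul_of_nonneg_right (by omega) hNz.le
    constructor <;> nlinarith

open Classical in
/-- the sieve sum is at most the number of rough representatives -/
private theorem SMg_Aw_le {N z J v n k0 : ℕ} {ep : ℤ} (hN : 2 ≤ N) (hvN : v.Coprime N)
    (hn : n.Coprime N) (hk0 : v * n / N = k0) (hep : ep = 1 ∨ ep = -1) (D : Finset ℕ) (w : ℕ → ℝ)
    (hD : ∀ m : ℕ, ∑ d ∈ D with d ∣ m, w d ≤ if (∀ r ∈ PN N z, ¬ r ∣ m) then (1 : ℝ) else 0) :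
    Aw D w (Finset.Ico (if ep = 1 then -(k0 : ℤ) else k0 + 1)
      ((if ep = 1 then -(k0 : ℤ) else k0 + 1) + J)) N v ep n ≤
      ((RR N z (J * N) ((ep : ZMod N) * (v : ZMod N) * (n : ZMod N))).card : ℝ) := by
  have hco : (v * n).Coprime N := Nat.Coprime.mul_left hvN hn
  set W := Finset.Ico (if ep = 1 then -(k0 : ℤ) else k0 + 1)
      ((if ep = 1 then -(k0 : ℤ) else k0 + 1) + J) with hW
  set t : ℤ → ℤ := fun k => k * N + ep * v * n with ht
  have hrange : ∀ k ∈ W, 0 < t k ∧ t k < J * N := fun k hk =>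
    SMg_range hN hco hk0 hep hk
  have hNz : (N : ℤ) ≠ 0 := by
    have : 0 < N := by omega
    exact_mod_cast this.ne'
  have h1 : Aw D w W N v ep n ≤ ∑ k ∈ W, (if (∀ r ∈ PN N z, ¬ r ∣ (t k).toNat) then (1 : ℝ) else 0) := by
    unfold Aw
    refine Finset.sum_le_sum fun k hk => ?_
    refine le_trans (le_of_eq ?_) (hD (t k).toNat)
    rw [Finset.sum_filter]
    refine Finset.sum_congr rfl fun d _ => ?_
    have h2 : ((d : ℤ) ∣ k * N + ep * v * n) ↔ d ∣ (t k).toNat := by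
      have h3 : ((t k).toNat : ℤ) = t k := Int.toNat_of_nonneg (hrange k hk).1.le
      rw [← Int.natCast_dvd_natCast, h3]
    simp only [h2]
  refine h1.trans ?_
  rw [Finset.sum_boole]
  have h4 : ((W.filter fun k => ∀ r ∈ PN N z, ¬ r ∣ (t k).toNat).card) ≤
      (RR N z (J * N) ((ep : ZMod N) * (v : ZMod N) * (n : ZMod N))).card := by
    refine Finset.card_le_card_of_injOn (fun k => (t k).toNat) ?_ ?_
    · intro k hk
      rw [Finset.mem_coe, Finset.mem_filter] at hk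
      obtain ⟨hkW, hkr⟩ := hk
      obtain ⟨r1, r2⟩ := hrange k hkW
      have h3 : ((t k).toNat : ℤ) = t k := Int.toNat_of_nonneg r1.le
      rw [Finset.mem_coe]
      unfold RR
      rw [Finset.mem_filter, Finset.mem_Icc]
      have h3p : 1 ≤ (t k).toNat := by
        have : (1 : ℤ) ≤ ((t k).toNat : ℤ) := by rw [h3]; exact r1
        exact_mod_cast this
      refine ⟨⟨h3p, ?_⟩, ?_, ?_⟩
      · have : ((t k).toNat : ℤ) ≤ ((J * N : ℕ) : ℤ) := by
          rw [h3]
          push_cast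
          exact r2.le
        exact_mod_cast this
      · have h5 : (((t k).toNat : ℕ) : ZMod N) = ((t k : ℤ) : ZMod N) := by
          rw [← h3]
          push_cast
          rfl
        rw [h5, ht]
        push_cast
        rw [ZMod.natCast_self, mul_zero, zero_add]
      · intro p hp hpd
        by_contra hzp
        push Not at hzp
        have hpz : (p : ℤ) ∣ t k := by
          rw [← h3]
          exact_mod_cast hpd
        by_cases hpN : p ∣ N
        · have h6 : (p : ℤ) ∣ ep * v * n := by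
            have h7 : (p : ℤ) ∣ k * N := Dvd.dvd.mul_left (by exact_mod_cast hpN) _
            have h8 := dvd_sub hpz h7
            have h9 : t k - k * N = ep * v * n := by
              rw [ht]
              ring
            rwa [h9] at h8
          have h10 : (p : ℤ) ∣ (v : ℤ) * n := by
            rcases hep with rfl | rfl
            · rwa [one_mul] at h6
            · have h11 : (-1 : ℤ) * v * n = -((v : ℤ) * n) := by ring
              rw [h11, dvd_neg] at h6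
              exact h6
          have h12 : p ∣ v * n := by exact_mod_cast h10
          exact hp.one_lt.ne' (Nat.Coprime.eq_one_of_dvd (Nat.Coprime.coprime_dvd_left h12 hco) hpN)
        · refine hkr p ?_ hpd
          unfold PN
          rw [Finset.mem_filter, Finset.mem_range]
          exact ⟨by omega, hp, hpN⟩
    · intro k hk k' hk' h
      rw [Finset.mem_coe, Finset.mem_filter] at hk hk'
      have r1 := (hrange k hk.1).1
      have r2 := (hrange k' hk'.1).1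
      have h3 : ((t k).toNat : ℤ) = t k := Int.toNat_of_nonneg r1.le
      have h4 : ((t k').toNat : ℤ) = t k' := Int.toNat_of_nonneg r2.le
      have h5 : t k = t k' := by
        rw [← h3, ← h4]
        exact_mod_cast h
      rw [ht] at h5
      have h6 : k * (N : ℤ) = k' * N := by
        simp only at h5
        linarith
      exact mul_right_cancel₀ hNz h6
  exact_mod_cast h4

/-- the final numerical step -/
private theorem SMg_final {c C ll lz X Err S J V Zp Lam : ℝ} (hc : 0 < c) (hC : 0 < C)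
    (h1 : 1 ≤ ll) (h3 : 64 * 2048 * C / c ^ 2 ≤ ll) (h4 : 64 / c ^ 2 ≤ ll)
    (hlz : 0 < lz) (hlz2 : lz ≤ ll) (hX : 0 ≤ X) (hErr : 0 ≤ Err) (hJ : 1 ≤ J)
    (hV : c / (2 * lz) ≤ V) (hZp : 0 ≤ Zp) (hLam : Lam = 2 + 2 * lz)
    (hmain : S * (J * V) ^ 2 / 4 ≤ X * (C * Lam ^ 2 * J * (1 + lz) ^ 9) + 4 * Zp * J ^ 2 * Err) :
    S ≤ ll ^ 14 * X / J + ll ^ 3 * Zp * Err := by
  have hV0 : 0 < c / (2 * lz) := by positivity
  have hVp : 0 < V := lt_of_lt_of_le hV0 hV
  have hJ0 : 0 < J := by linarith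
  have hinv : 1 / V ^ 2 ≤ 4 * lz ^ 2 / c ^ 2 := by
    have e1 : (c / (2 * lz)) ^ 2 ≤ V ^ 2 := pow_le_pow_left₀ hV0.le hV 2
    have e2 : 1 / V ^ 2 ≤ 1 / (c / (2 * lz)) ^ 2 := one_div_le_one_div_of_le (by positivity) e1
    refine e2.trans (le_of_eq ?_)
    field_simp
    ring
  have hS : S ≤ (4 / J ^ 2) * (1 / V ^ 2) *
      (X * (C * Lam ^ 2 * J * (1 + lz) ^ 9) + 4 * Zp * J ^ 2 * Err) := by
    have e1 : S = (4 / J ^ 2) * (1 / V ^ 2) * (S * (J * V) ^ 2 / 4) := by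
      field_simp
    calc S = (4 / J ^ 2) * (1 / V ^ 2) * (S * (J * V) ^ 2 / 4) := e1
      _ ≤ _ := mul_le_mul_of_nonneg_left hmain (by positivity)
  have hR0 : 0 ≤ X * (C * Lam ^ 2 * J * (1 + lz) ^ 9) + 4 * Zp * J ^ 2 * Err := by positivity
  have hS2 : S ≤ (4 / J ^ 2) * (4 * lz ^ 2 / c ^ 2) *
      (X * (C * Lam ^ 2 * J * (1 + lz) ^ 9) + 4 * Zp * J ^ 2 * Err) := by
    refine hS.trans ?_
    refine mul_le_mul_of_nonneg_right ?_ hR0
    exact mul_le_mul_of_nonneg_left hinv (by positivity)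
  have e3 : (4 / J ^ 2) * (4 * lz ^ 2 / c ^ 2) *
      (X * (C * Lam ^ 2 * J * (1 + lz) ^ 9) + 4 * Zp * J ^ 2 * Err) =
      (64 * C / c ^ 2) * (lz ^ 2 * (1 + lz) ^ 11) * (X / J) + (64 / c ^ 2) * lz ^ 2 * (Zp * Err) := by
    rw [hLam]
    field_simp
    ring
  rw [e3] at hS2
  have e4 : lz ^ 2 * (1 + lz) ^ 11 ≤ 2048 * ll ^ 13 := by
    have f1 : lz ^ 2 ≤ ll ^ 2 := pow_le_pow_left₀ hlz.le hlz2 2
    have f2 : (1 + lz) ^ 11 ≤ (2 * ll) ^ 11 := pow_le_pow_left₀ (by linarith) (by linarith) 11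
    calc lz ^ 2 * (1 + lz) ^ 11 ≤ ll ^ 2 * (2 * ll) ^ 11 :=
          mul_le_mul f1 f2 (by positivity) (by positivity)
      _ = 2048 * ll ^ 13 := by ring
  have e5 : (64 * C / c ^ 2) * (lz ^ 2 * (1 + lz) ^ 11) ≤ ll ^ 14 := by
    calc (64 * C / c ^ 2) * (lz ^ 2 * (1 + lz) ^ 11) ≤ (64 * C / c ^ 2) * (2048 * ll ^ 13) :=
          mul_le_mul_of_nonneg_left e4 (by positivity)
      _ = (64 * 2048 * C / c ^ 2) * ll ^ 13 := by ring
      _ ≤ ll * ll ^ 13 := mul_le_mul_of_nonneg_right h3 (by positivity)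
      _ = ll ^ 14 := by ring
  have e6 : (64 / c ^ 2) * lz ^ 2 ≤ ll ^ 3 := by
    calc (64 / c ^ 2) * lz ^ 2 ≤ ll * ll ^ 2 :=
          mul_le_mul h4 (pow_le_pow_left₀ hlz.le hlz2 2) (by positivity) (by linarith)
      _ = ll ^ 3 := by ring
  have e7 : (64 * C / c ^ 2) * (lz ^ 2 * (1 + lz) ^ 11) * (X / J) ≤ ll ^ 14 * (X / J) :=
    mul_le_mul_of_nonneg_right e5 (by positivity)
  have e8 : (64 / c ^ 2) * lz ^ 2 * (Zp * Err) ≤ ll ^ 3 * (Zp * Err) :=
    mul_le_mul_of_nonneg_right e6 (by positivity)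
  calc S ≤ ll ^ 14 * (X / J) + ll ^ 3 * (Zp * Err) := by linarith
    _ = ll ^ 14 * X / J + ll ^ 3 * Zp * Err := by ring

open Classical in
theorem bad_classes : ∃ K : ℕ, 1 ≤ K ∧ ∃ N0 : ℕ, ∀ (N : ℕ) [NeZero N], N0 ≤ N → ∀ z J v : ℕ,
    2 ≤ z → z ≤ N → 1 ≤ J → 1 ≤ v → v.Coprime N → ∀ (S4 : Finset ℕ) (u e : ℕ → ℝ),
    Law z (PN N z) S4 u e → (∀ p : ℕ, p ∈ S4 ↔ p ∈ PN N z ∧ p ∣ v) →
    ∀ (I : Finset ℕ) (om : ℕ → ℝ) (X Err : ℝ), 0 ≤ X → 0 ≤ Err → (∀ n ∈ I, 0 ≤ om n) →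
    HasLaw (PN N z) S4 u e I om X Err (z ^ (2 * K)) →
    ∀ k0 : ℕ, (∀ n ∈ I, v * n / N = k0) → ∀ ep : ℤ, ep = 1 ∨ ep = -1 →
    ∑ n ∈ I.filter (fun n : ℕ => n.Coprime N ∧
        ¬ Good N z J ((ep : ZMod N) * (v : ZMod N) * (n : ZMod N))), om n ≤
      (Real.log N) ^ 14 * X / J + (Real.log N) ^ 3 * (z : ℝ) ^ (2 * K) * Err := by
  obtain ⟨K, hK, hlw⟩ := lower_weights2
  obtain ⟨c, hc, hpl⟩ := prod_lower
  obtain ⟨C, hC, hvar⟩ := variance
  refine ⟨K, hK, ⌈Real.exp (1 + 4 / c + 64 * 2048 * C / c ^ 2 + 64 / c ^ 2)⌉₊ + 2, ?_⟩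
  intro N _ hN0 z J v hz hzN hJ hv hvN S4 u e hL hS4 I om X Err hX hErr hom hlaw k0 hk0 ep hep
  have hN2 : 2 ≤ N := by omega
  have hlogN : 1 + 4 / c + 64 * 2048 * C / c ^ 2 + 64 / c ^ 2 ≤ Real.log N := by
    rw [Real.le_log_iff_exp_le (by positivity)]
    have h1 := Nat.le_ceil (Real.exp (1 + 4 / c + 64 * 2048 * C / c ^ 2 + 64 / c ^ 2))
    have h2 : ((⌈Real.exp (1 + 4 / c + 64 * 2048 * C / c ^ 2 + 64 / c ^ 2)⌉₊ : ℕ) : ℝ) ≤ N := by
      exact_mod_cast (by omega : ⌈Real.exp (1 + 4 / c + 64 * 2048 * C / c ^ 2 + 64 / c ^ 2)⌉₊ ≤ N)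
    exact h1.trans h2
  set ll := Real.log N with hll
  have p1 : 0 < 4 / c := by positivity
  have p2 : 0 < 64 * 2048 * C / c ^ 2 := by positivity
  have p3 : 0 < 64 / c ^ 2 := by positivity
  have hPN : ∀ r ∈ PN N z, r.Prime ∧ r ≤ z := by
    intro r hr
    unfold PN at hr
    rw [Finset.mem_filter, Finset.mem_range] at hr
    exact ⟨hr.2.1, by omega⟩
  have hPN2 : ∀ p ∈ PN N z, ¬ p ∣ N := by
    intro r hr
    unfold PN at hr
    rw [Finset.mem_filter, Finset.mem_range] at hr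
    exact hr.2.2
  obtain ⟨D, w, hD1, hD2, hD3, hD4, hD5⟩ := hlw z hz (PN N z) hPN
  have hlz : 0 < Real.log z := Real.log_pos (by exact_mod_cast (by omega : 1 < z))
  have hlzN : Real.log z ≤ ll := Real.log_le_log (by positivity) (by exact_mod_cast hzN)
  have hV : c / (2 * Real.log z) ≤ Vw D w := by
    have h1 := hpl z hz (PN N z) hPN
    have h2 : c / (2 * Real.log z) = (1 / 2) * (c / Real.log z) := by
      field_simp
    rw [h2]
    refine le_trans ?_ hD5
    exact mul_le_mul_of_nonneg_left h1 (by norm_num)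
  have hWts : Wts (PN N z) D w (2 + 2 * Real.log z) :=
    ⟨fun d hd => ⟨(hD1 d hd).1, (hD1 d hd).2.2.1, (hD1 d hd).2.2.2⟩, fun d _ => hD2 d⟩
  set a : ℤ := if ep = 1 then -(k0 : ℤ) else k0 + 1 with ha
  set W := Finset.Ico a (a + J) with hW
  have hWc : W.card = J := by
    rw [hW, Int.card_Ico]
    simp
  have hsm := second_moment (N := N) (z := z) (v := v) (by omega) hv hvN hL hPN2 hS4 D w _ hWts
    (z ^ K) (z ^ (2 * K)) (fun d hd => (hD1 d hd).2.1) (by rw [← pow_mul, mul_comm])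
    (Nat.one_le_pow _ _ (by omega)) I om X Err hX hlaw W ep hep
  have hvr := hvar z hz (PN N z) S4 u e hL D w _ hWts a J hJ
  rw [← hW] at hvr
  rw [hWc] at hsm
  set V := Vw D w with hVdef
  have hVp : 0 < V := lt_of_lt_of_le (by positivity) hV
  have hJr : (1 : ℝ) ≤ J := by exact_mod_cast hJ
  -- upper bound of the second moment
  have hup : ∑ n ∈ I, om n * (Aw D w W N v ep n - J * V) ^ 2 ≤
      X * (C * (2 + 2 * Real.log z) ^ 2 * J * (1 + Real.log z) ^ 9) +
        4 * (z : ℝ) ^ (2 * K) * (J : ℝ) ^ 2 * Err := by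
    have h1 := (abs_le.mp hsm).2
    have h2 := mul_le_mul_of_nonneg_left hvr hX
    have h3 : (∑ d ∈ D, |w d|) ^ 2 ≤ (z : ℝ) ^ (2 * K) := by
      have h4 : 0 ≤ ∑ d ∈ D, |w d| := Finset.sum_nonneg fun _ _ => abs_nonneg _
      calc (∑ d ∈ D, |w d|) ^ 2 ≤ ((z : ℝ) ^ K) ^ 2 := pow_le_pow_left₀ h4 hD3 2
        _ = (z : ℝ) ^ (2 * K) := by rw [← pow_mul, mul_comm]
    have h5 : 4 * (∑ d ∈ D, |w d|) ^ 2 * (J : ℝ) ^ 2 * Err ≤
        4 * (z : ℝ) ^ (2 * K) * (J : ℝ) ^ 2 * Err := by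
      refine mul_le_mul_of_nonneg_right ?_ hErr
      refine mul_le_mul_of_nonneg_right ?_ (by positivity)
      linarith
    linarith
  -- lower bound of the second moment
  set B := I.filter (fun n : ℕ => n.Coprime N ∧
        ¬ Good N z J ((ep : ZMod N) * (v : ZMod N) * (n : ZMod N))) with hB
  have hlow : (∑ n ∈ B, om n) * (J * V) ^ 2 / 4 ≤ ∑ n ∈ I, om n * (Aw D w W N v ep n - J * V) ^ 2 := by
    have h1 : ∑ n ∈ B, om n * (Aw D w W N v ep n - J * V) ^ 2 ≤
        ∑ n ∈ I, om n * (Aw D w W N v ep n - J * V) ^ 2 := by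
      refine Finset.sum_le_sum_of_subset_of_nonneg (Finset.filter_subset _ _) ?_
      intro n hn _
      exact mul_nonneg (hom n hn) (sq_nonneg _)
    refine le_trans ?_ h1
    rw [Finset.sum_mul, Finset.sum_div]
    refine Finset.sum_le_sum fun n hn => ?_
    rw [hB, Finset.mem_filter] at hn
    obtain ⟨hnI, hnco, hngood⟩ := hn
    have h2 := SMg_Aw_le (J := J) (z := z) hN2 hvN hnco (hk0 n hnI) hep D w hD4
    rw [← ha, ← hW] at h2
    unfold Good at hngood
    push Not at hngood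
    rw [← hll] at hngood
    have hl1 : 1 ≤ ll := by linarith
    have h3 : ((RR N z (J * N) ((ep : ZMod N) * (v : ZMod N) * (n : ZMod N))).card : ℝ) ≤ J * V / 2 := by
      have h4 : ((RR N z (J * N) ((ep : ZMod N) * (v : ZMod N) * (n : ZMod N))).card : ℝ) ≤ J / ll ^ 2 := by
        rw [le_div_iff₀ (by positivity), mul_comm]
        exact hngood.le
      refine h4.trans ?_
      have h5 : 2 / ll ^ 2 ≤ V := by
        refine le_trans ?_ hV
        rw [div_le_div_iff₀ (by positivity) (by positivity)]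
        have h6 : 4 ≤ c * ll := by
          have : 4 / c ≤ ll := by linarith
          rwa [div_le_iff₀ hc, mul_comm] at this
        nlinarith
      have h7 : (J : ℝ) / ll ^ 2 = J * (2 / ll ^ 2) / 2 := by
        field_simp
      rw [h7]
      have := mul_le_mul_of_nonneg_left h5 (by linarith : (0 : ℝ) ≤ J)
      linarith
    have h8 : Aw D w W N v ep n ≤ J * V / 2 := h2.trans h3
    have h9 : 0 < (J : ℝ) * V := by positivity
    have h10 : (J * V) ^ 2 / 4 ≤ (Aw D w W N v ep n - J * V) ^ 2 := by nlinarith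
    have h11 := mul_le_mul_of_nonneg_left h10 (hom n hnI)
    calc om n * (J * V) ^ 2 / 4 = om n * ((J * V) ^ 2 / 4) := by ring
      _ ≤ _ := h11
  have hfin := SMg_final (S := ∑ n ∈ B, om n) (X := X) (Err := Err) (J := J) (V := V)
    (Zp := (z : ℝ) ^ (2 * K)) (Lam := 2 + 2 * Real.log z) (lz := Real.log z) (ll := ll) hc hC
    (by linarith) (by linarith) (by linarith) hlz hlzN hX hErr hJr hV (by positivity) rfl
    (hlow.trans hup)
  exact hfin

end Pool.Agent.Lib.RG
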