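import Pool.Agent.Lib.MP_7b7e48_nt.RG.PICK

/-!
# Module STR0: tools for STR1, STR2

sizes in natural numbers, products `w a` with `w ∈ W2` and rough `a`, the contradiction to a missing pattern (`engine`, `clash`).
-/

open Finset
open Pool.Agent.Lib.MP_45349e_nt.LS (lam abs_lam lam_prime lam_one)

namespace Pool.Agent.Lib.RH

open Pool.Agent.Lib.RG hiding RR sig Good

variable {P : Prm} {N : ℕ}

theorem smc_one : smc P N 1 = 0 := by
  unfold smc
  simp

theorem rough_mul {z a b : ℕ} (ha : Rough z a) (hb : Rough z b) : Rough z (a * b) := by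
  intro p hp hpd
  rcases (Nat.Prime.dvd_mul hp).mp hpd with h | h
  · exact ha p hp h
  · exact hb p hp h

theorem rough_mono {z z' a : ℕ} (h : z ≤ z') (ha : Rough z' a) : Rough z a := fun p hp hpd =>
  lt_of_le_of_lt h (ha p hp hpd)

theorem rough_prime {z l : ℕ} (hl : l.Prime) (h : z < l) : Rough z l := by
  intro p hp hpd
  rw [(Nat.prime_dvd_prime_iff_eq hp hl).mp hpd]
  exact h

theorem rough_one {z : ℕ} : Rough z 1 := by
  intro p hp hpd
  exact absurd (Nat.dvd_one.mp hpd) hp.ne_one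

/-- the basic facts about the sizes, in natural numbers -/
theorem nat_facts (hP : P.Ok) (hN : Num P N) : 0 < N ∧ 4 * MM P N ^ 2 ≤ zz P N ∧ JJ N ≤ zz P N ∧
    1 ≤ JJ N ∧ 1 < MM P N ∧ KB P N ≤ N ∧ 16 * MM P N ^ 4 ≤ zz P N := by
  have hK := hN.K
  have hK2 : (2000000 : ℝ) ≤ Real.log N := le_trans (by norm_num) hK
  have hK1 : (1 : ℝ) ≤ Real.log N := by linarith
  have hNpos : 0 < N := by
    rcases Nat.eq_zero_or_pos N with h | h
    · rw [h] at hK1
      norm_num at hK1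
    · exact h
  have hM1 := hN.M1
  have hM2 := hN.M2
  have hJ1 := hN.J1
  have hJ2 := hN.J2
  have hz5 := hN.z5
  have hsm := hN.sm
  have hkap0 := hP.kap0
  have hkap1 := hP.kap1
  have hC1 : 1 ≤ P.C1 := le_trans (by norm_num) hP.C1
  have hNr : (1 : ℝ) ≤ N := by exact_mod_cast hNpos
  have hNkap : (N : ℝ) ^ (P.kap / 1000) ≤ N := by
    calc (N : ℝ) ^ (P.kap / 1000) ≤ (N : ℝ) ^ (1 : ℝ) :=
          Real.rpow_le_rpow_of_exponent_le hNr (by linarith)
      _ = N := Real.rpow_one _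
  set K := Real.log N with hKd
  have hMpos : (0 : ℝ) ≤ MM P N := Nat.cast_nonneg _
  have hKC : (1 : ℝ) ≤ K ^ P.C1 := one_le_pow₀ hK1
  have hp : ∀ a b : ℕ, a ≤ b → K ^ a ≤ K ^ b := fun a b h => pow_le_pow_right₀ hK1 h
  have hc : ∀ a b : ℕ, a + 1 ≤ b → 2000000 * K ^ a ≤ K ^ b := by
    intro a b hab
    calc 2000000 * K ^ a ≤ K * K ^ a := mul_le_mul_of_nonneg_right hK2 (by positivity)
      _ = K ^ (a + 1) := by ring
      _ ≤ _ := hp _ _ hab
  have hM4 : (MM P N : ℝ) ^ 4 ≤ 16 * K ^ (4 * P.C1) := by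
    calc (MM P N : ℝ) ^ 4 ≤ (2 * K ^ P.C1) ^ 4 := pow_le_pow_left₀ hMpos hM2 4
      _ = _ := by ring
  have hM8 : (MM P N : ℝ) ^ 8 ≤ 256 * K ^ (8 * P.C1) := by
    calc (MM P N : ℝ) ^ 8 ≤ (2 * K ^ P.C1) ^ 8 := pow_le_pow_left₀ hMpos hM2 8
      _ = _ := by ring
  have hMone : 1 < MM P N := by
    have h1 : K ≤ K ^ P.C1 := by
      calc K = K ^ 1 := (pow_one _).symm
        _ ≤ _ := hp _ _ hC1
    have h2 : (1 : ℝ) < MM P N := by linarith
    exact_mod_cast h2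
  have hM16 : 16 * MM P N ^ 4 ≤ zz P N := by
    have h1 : (16 : ℝ) * (MM P N : ℝ) ^ 4 ≤ zz P N := by
      have h2 := hc (4 * P.C1) (100 * P.C1 + 10000) (by omega)
      have h3 : (0 : ℝ) ≤ K ^ (4 * P.C1) := by positivity
      linarith
    exact_mod_cast h1
  refine ⟨hNpos, ?_, ?_, ?_, hMone, ?_, hM16⟩
  · have h1 : MM P N ^ 2 ≤ MM P N ^ 4 := Nat.pow_le_pow_right (by omega) (by norm_num)
    omega
  · have h2 := hc 1000 (100 * P.C1 + 10000) (by omega)
    have h3 : (0 : ℝ) ≤ K ^ 1000 := by positivity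
    have h4 : (JJ N : ℝ) ≤ zz P N := by linarith
    exact_mod_cast h4
  · have h1 : (1 : ℝ) ≤ K ^ 1000 := one_le_pow₀ hK1
    have h2 : (1 : ℝ) ≤ JJ N := by linarith
    exact_mod_cast h2
  · have h1 : ((KB P N : ℕ) : ℝ) = 100 * (MM P N : ℝ) ^ 8 * JJ N := by
      unfold KB
      push_cast
      ring
    have h2 : 100 * (MM P N : ℝ) ^ 8 * JJ N ≤ 100 * (256 * K ^ (8 * P.C1)) * (2 * K ^ 1000) := by
      refine mul_le_mul (mul_le_mul_of_nonneg_left hM8 (by norm_num)) hJ2 (Nat.cast_nonneg _)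
        (by positivity)
    have h3 : 100 * (256 * K ^ (8 * P.C1)) * (2 * K ^ 1000) = 51200 * K ^ (8 * P.C1 + 1000) := by
      rw [pow_add]
      ring
    have h4 := hc (8 * P.C1 + 1000) (100 * P.C1 + 10000) (by omega)
    have h5 : (0 : ℝ) ≤ K ^ (8 * P.C1 + 1000) := by positivity
    have h6 : ((KB P N : ℕ) : ℝ) ≤ N := by
      rw [h1]
      linarith
    exact_mod_cast h6

theorem PZ_facts (hP : P.Ok) (hN : Num P N) {l : ℕ} (hl : l ∈ PZ N (MM P N)) : l.Prime ∧ MM P N < l ∧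
    l ≤ 4 * MM P N ^ 2 ∧ l ≤ zz P N ∧ l.Coprime N ∧ smc P N l ≤ 1 ∧ Rough (MM P N) l ∧ lam l = -1 := by
  obtain ⟨h1, h2, h3, h4⟩ := mem_PZ.mp hl
  obtain ⟨-, h5, -⟩ := nat_facts hP hN
  exact ⟨h3, h1, h2, h2.trans h5, (Nat.Prime.coprime_iff_not_dvd h3).mpr h4, smc_prime_le h3,
    rough_prime h3 h1, lam_prime l h3⟩

theorem W2_facts (hP : P.Ok) (hN : Num P N) {w : ℕ} (hw : W2 P N w) : 1 ≤ w ∧ w ≤ 16 * MM P N ^ 4 ∧ w.Coprime N ∧
    smc P N w ≤ 2 ∧ Rough (MM P N) w ∧ (∀ p : ℕ, p.Prime → p ∣ w → p ≤ zz P N) := by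
  have hM : 1 < MM P N := (nat_facts hP hN).2.2.2.2.1
  have hM4 : 1 ≤ MM P N ^ 4 := Nat.one_le_pow _ _ (by omega)
  have hM24 : MM P N ^ 2 ≤ MM P N ^ 4 := Nat.pow_le_pow_right (by omega) (by norm_num)
  rcases hw with rfl | hl | ⟨l, hl, l', hl', rfl⟩
  · refine ⟨le_rfl, by omega, Nat.coprime_one_left N, ?_, rough_one, ?_⟩
    · rw [smc_one]; omega
    · intro p hp h
      exact absurd (Nat.dvd_one.mp h) hp.ne_one
  · obtain ⟨h1, h2, h3, h4, h5, h6, h7, -⟩ := PZ_facts hP hN hl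
    refine ⟨h1.one_lt.le, by omega, h5, by omega, h7, ?_⟩
    intro p hp h
    rw [(Nat.prime_dvd_prime_iff_eq hp h1).mp h]
    exact h4
  · obtain ⟨h1, h2, h3, h4, h5, h6, h7, -⟩ := PZ_facts hP hN hl
    obtain ⟨h1', h2', h3', h4', h5', h6', h7', -⟩ := PZ_facts hP hN hl'
    refine ⟨Nat.mul_pos h1.pos h1'.pos, ?_, Nat.Coprime.mul_left h5 h5', ?_, rough_mul h7 h7', ?_⟩
    · calc l * l' ≤ (4 * MM P N ^ 2) * (4 * MM P N ^ 2) := Nat.mul_le_mul h3 h3'
        _ = _ := by ring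
    · rw [smc_mul h1.pos h1'.pos]
      omega
    · intro p hp h
      rcases (Nat.Prime.dvd_mul hp).mp h with h | h
      · rw [(Nat.prime_dvd_prime_iff_eq hp h1).mp h]
        exact h4
      · rw [(Nat.prime_dvd_prime_iff_eq hp h1').mp h]
        exact h4'

theorem engine' (hN0 : 0 < N) {s t : ℝ} (hm : Missing P N s t) {a b : ℕ} (ha : WW P N 4 a)
    (hb : WW P N 4 b) (hab : a.Coprime b) (h0 : (a : ZMod N) + (b : ZMod N) = 0)
    (hle : a + b ≤ KB P N * N) : ¬ (lam a = s ∧ lam b = t) := by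
  have h1 : ((a + b : ℕ) : ZMod N) = 0 := by
    push_cast
    exact h0
  obtain ⟨k, hk⟩ := (ZMod.natCast_eq_zero_iff _ _).mp h1
  refine hm a b k ha hb hab (by rw [hk, mul_comm]) ?_
  rw [hk, mul_comm N k] at hle
  exact Nat.le_of_mul_le_mul_right hle hN0

theorem WW_mul (hP : P.Ok) (hN : Num P N) {w a r : ℕ} (hw : W2 P N w) (ha : Rgh P N a) (hr : 2 ≤ r) :
    WW P N r (w * a) := by
  obtain ⟨h1, h2, h3, h4, h5, h6⟩ := W2_facts hP hN hw
  obtain ⟨ha1, ha2, ha3⟩ := ha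
  have hMz : MM P N ≤ zz P N := by
    obtain ⟨-, h7, -, -, h8, -⟩ := nat_facts hP hN
    nlinarith
  refine ⟨?_, Nat.Coprime.mul_left h3 ha2, rough_mul h5 (rough_mono hMz ha3), ?_⟩
  · nlinarith
  · rw [smc_mul (by omega) (by omega), smc_rough ha3 (by omega)]
    omega

theorem engine (hP : P.Ok) (hN : Num P N) {s t : ℝ} (hm : Missing P N s t) {w w' a b : ℕ}
    {x y : ZMod N} (hw : W2 P N w) (hw' : W2 P N w') (hcw : w.Coprime w') (ha : a ∈ RR P N x)
    (hb : b ∈ RR P N y) (hab : a.Coprime b) (h0 : (w : ZMod N) * x + (w' : ZMod N) * y = 0) :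
    ¬ (lam w * lam a = s ∧ lam w' * lam b = t) := by
  obtain ⟨ha1, ha2, ha3⟩ := mem_RR.mp ha
  obtain ⟨hb1, hb2, hb3⟩ := mem_RR.mp hb
  obtain ⟨h1, h2, h3, h4, h5, h6⟩ := W2_facts hP hN hw
  obtain ⟨h1', h2', h3', h4', h5', h6'⟩ := W2_facts hP hN hw'
  obtain ⟨hN0, -, -, hJ, hM, -⟩ := nat_facts hP hN
  have hwb : w.Coprime b := by
    refine Nat.coprime_of_dvd fun p hp hpw hpb => ?_
    have := h6 p hp hpw
    have := hb3.2.2 p hp hpb
    omega
  have haw' : a.Coprime w' := by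
    refine Nat.coprime_of_dvd fun p hp hpa hpw => ?_
    have := h6' p hp hpw
    have := ha3.2.2 p hp hpa
    omega
  have hco : (w * a).Coprime (w' * b) :=
    Nat.Coprime.mul_left (Nat.Coprime.mul_right hcw hwb) (Nat.Coprime.mul_right haw' hab)
  have key := engine' hN0 hm (WW_mul hP hN hw ha3 (by norm_num)) (WW_mul hP hN hw' hb3 (by norm_num))
    hco (by push_cast; rw [ha2, hb2]; exact h0) (by
      have hA : w * a ≤ 16 * MM P N ^ 4 * (JJ N * N) := Nat.mul_le_mul h2 ha1.le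
      have hB : w' * b ≤ 16 * MM P N ^ 4 * (JJ N * N) := Nat.mul_le_mul h2' hb1.le
      have hM48 : MM P N ^ 4 ≤ MM P N ^ 8 := Nat.pow_le_pow_right (by omega) (by norm_num)
      unfold KB
      calc w * a + w' * b ≤ 32 * MM P N ^ 4 * (JJ N * N) := by linarith
        _ ≤ 100 * MM P N ^ 8 * (JJ N * N) := Nat.mul_le_mul_right _ (by omega)
        _ = _ := by ring)
  rw [Pool.Agent.Lib.MP_45349e_nt.LS.lam_mul w a (by omega) (by have := ha3.1; omega),
    Pool.Agent.Lib.MP_45349e_nt.LS.lam_mul w' b (by omega) (by have := hb3.1; omega)] at key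
  exact key

/-- a good class at least half of whose members have sign `e` -/
def MajE (P : Prm) (N : ℕ) (e : ℝ) (x : ZMod N) : Prop := IsUnit x ∧ Good P N x ∧
  ∃ S : Finset ℕ, S ⊆ RR P N x ∧ (∀ a ∈ S, lam a = e) ∧ (RR P N x).card ≤ 2 * S.card

theorem W2_one : W2 P N 1 := Or.inl rfl

theorem W2_PZ {l : ℕ} (hl : l ∈ PZ N (MM P N)) : W2 P N l := Or.inr (Or.inl hl)

theorem RR_le (hP : P.Ok) (hN : Num P N) {x : ZMod N} {a : ℕ} (ha : a ∈ RR P N x) :
    0 < a ∧ a.Coprime N ∧ a ≤ N ^ 5 := by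
  obtain ⟨h1, -, h2⟩ := mem_RR.mp ha
  obtain ⟨hN0, -, -, hJ, hM, hKB, -⟩ := nat_facts hP hN
  have h3 : JJ N ≤ KB P N := by
    unfold KB
    have : 1 ≤ 100 * MM P N ^ 8 := by
      have := Nat.one_le_pow 8 (MM P N) (by omega)
      omega
    nlinarith
  refine ⟨by have := h2.1; omega, h2.2.1, ?_⟩
  calc a ≤ JJ N * N := h1.le
    _ ≤ N * N := Nat.mul_le_mul_right _ (h3.trans hKB)
    _ = N ^ 2 := by ring
    _ ≤ N ^ 5 := Nat.pow_le_pow_right hN0 (by norm_num)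

/-- a large set of members of a good class contains one which is coprime to a given number -/
theorem pick_sub (hP : P.Ok) (hN : Num P N) {x : ZMod N} (hu : IsUnit x) (hg : Good P N x)
    {S : Finset ℕ} (hS : S ⊆ RR P N x) (hS2 : (RR P N x).card ≤ 2 * S.card) {b : ℕ} (hb : 0 < b)
    (hbN : b.Coprime N) (hb5 : b ≤ N ^ 5) : ∃ a ∈ S, a.Coprime b := by
  classical
  by_contra hcon
  push Not at hcon
  have h1 : S ⊆ (RR P N x).filter fun a => ¬ a.Coprime b := by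
    intro a ha
    exact mem_filter.mpr ⟨hS ha, hcon a ha⟩
  have h3 := share hP hN (x := x) hb hbN hb5
  have h5 : (S.card : ℝ) ≤ Real.log N := by
    have : (S.card : ℝ) ≤ (((RR P N x).filter fun a => ¬ a.Coprime b).card : ℝ) := by
      exact_mod_cast card_le_card h1
    linarith
  have hK := hN.K
  have hK1 : (1 : ℝ) ≤ Real.log N := le_trans (by norm_num) hK
  have h6 : (JJ N : ℝ) / (2 * (Real.log N) ^ 2) ≤ 2 * Real.log N := by
    have h7 : ((RR P N x).card : ℝ) ≤ 2 * S.card := by exact_mod_cast hS2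
    have h8 := good_card hN hu hg
    linarith
  rw [div_le_iff₀ (by positivity)] at h6
  have h9 := hN.J1
  have h10 : (Real.log N) ^ 4 ≤ (Real.log N) ^ 1000 := pow_le_pow_right₀ hK1 (by norm_num)
  have h11 : 2 * Real.log N * (2 * (Real.log N) ^ 2) < (Real.log N) ^ 4 := by
    have h12 : (4 : ℝ) < Real.log N := lt_of_lt_of_le (by norm_num) hK
    calc 2 * Real.log N * (2 * (Real.log N) ^ 2) = 4 * (Real.log N) ^ 3 := by ring
      _ < Real.log N * (Real.log N) ^ 3 := mul_lt_mul_of_pos_right h12 (by positivity)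
      _ = _ := by ring
  linarith

theorem clash (hP : P.Ok) (hN : Num P N) {s t : ℝ} (hm : Missing P N s t) {w w' : ℕ}
    {x y : ZMod N} {e e' : ℝ} (hw : W2 P N w) (hw' : W2 P N w') (hcw : w.Coprime w')
    (hx : MajE P N e x) (hy : MajE P N e' y) (h0 : (w : ZMod N) * x + (w' : ZMod N) * y = 0)
    (h1 : lam w * e = s) (h2 : lam w' * e' = t) : False := by
  obtain ⟨hux, hgx, S, hS1, hS2, hS3⟩ := hx
  obtain ⟨huy, hgy, S', hS1', hS2', hS3'⟩ := hy
  have hN0 := (nat_facts hP hN).1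
  have hN2 : 1 ≤ N ^ 5 := Nat.one_le_pow _ _ hN0
  obtain ⟨a, ha, -⟩ := pick_sub hP hN hux hgx hS1 hS3 one_pos (Nat.coprime_one_left N) hN2
  obtain ⟨ha1, ha2, ha3⟩ := RR_le hP hN (hS1 ha)
  obtain ⟨b, hb, hba⟩ := pick_sub hP hN huy hgy hS1' hS3' ha1 ha2 ha3
  refine engine hP hN hm hw hw' hcw (hS1 ha) (hS1' hb) hba.symm h0 ⟨?_, ?_⟩
  · rw [hS2 a ha, h1]
  · rw [hS2' b hb, h2]

open Classical in
theorem card_pre [NeZero N] (S : Finset (ZMod N)) (g : ZMod N → ZMod N) (hg : Function.Injective g) :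
    ((univ : Finset (ZMod N)).filter fun x => g x ∈ S).card ≤ S.card := by
  refine card_le_card_of_injOn g ?_ (fun x _ y _ h => hg h)
  intro x hx
  exact (mem_filter.mp hx).2

theorem mul_inj {l : ℕ} (hl : l.Coprime N) : Function.Injective fun x : ZMod N => (l : ZMod N) * x := by
  intro x y h
  have hu : IsUnit (l : ZMod N) := (ZMod.isUnit_iff_coprime l N).mpr hl
  exact hu.mul_left_cancel h


theorem block_PZ {N M l : ℕ} (hM : 1 ≤ M) (hl : l ∈ block N M) : l ∈ PZ N M := by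
  rw [mem_block] at hl
  rw [mem_PZ]
  refine ⟨hl.1, ?_, hl.2.2⟩
  have : M ≤ M ^ 2 := by nlinarith
  omega

theorem block_big (hP : P.Ok) (hN : Num P N) : 4 * Real.log N < (block N (MM P N)).card := by
  have hK := hN.K
  have hK1 : (1 : ℝ) ≤ Real.log N := le_trans (by norm_num) hK
  have hM1 := hN.M1
  obtain ⟨hN0, -, -, -, hM, hKB, h16⟩ := nat_facts hP hN
  have h1 : (Real.log N) ^ 10 ≤ MM P N :=
    (pow_le_pow_right₀ hK1 hP.C1).trans hM1
  have hMN : MM P N ≤ N := by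
    refine le_trans ?_ hKB
    unfold KB
    have h2 : MM P N ≤ MM P N ^ 8 := Nat.le_self_pow (by norm_num) _
    have h3 : 1 ≤ JJ N := (nat_facts hP hN).2.2.2.1
    have h4 : 1 ≤ MM P N ^ 8 := Nat.one_le_pow _ _ (by omega)
    nlinarith
  have h2 := hN.bl (MM P N) ((pow_le_pow_right₀ hK1 (by norm_num)).trans h1) hMN
  refine lt_of_lt_of_le ?_ h2
  rw [lt_div_iff₀ (by positivity)]
  have h3 : 4 * Real.log N * (4 * Real.log N) < (Real.log N) ^ 10 := by
    have h4 : (16 : ℝ) < (Real.log N) ^ 8 := by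
      calc (16 : ℝ) < Real.log N := lt_of_lt_of_le (by norm_num) hK
        _ = (Real.log N) ^ 1 := (pow_one _).symm
        _ ≤ _ := pow_le_pow_right₀ hK1 (by norm_num)
    have h5 : 0 < (Real.log N) ^ 2 := by positivity
    calc 4 * Real.log N * (4 * Real.log N) = 16 * (Real.log N) ^ 2 := by ring
      _ < (Real.log N) ^ 8 * (Real.log N) ^ 2 := mul_lt_mul_of_pos_right h4 h5
      _ = _ := by ring
  linarith

end Pool.Agent.Lib.RH
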