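import Pool.Agent.Lib.MP_7b7e48_nt.RG.STR0

/-!
# Module STR1 (150 minutes): a missing pattern gives a sign function

`g = |G|` (units), `E0 = |NG|`. PROOF. For `e = ±1` let `M^e` = good units `x` with `|RR x| ≤ 2 |{a ∈ RR x : lam a = e}|` (`lam = ±1`, so every good unit is in `M^1` or `M^-1`). `U = M^s`, `V = M^(-s)`.
`f x = 0` off the units, `f = s` on `U`, `f = -s` on the other good units, `f = 1` on the other units. `f2`: a good unit not in `U` is in `V`.
Every step of the form (*) below: choose `a ∈ RR x` with the wanted `lam` (`pick` with `b = 1`), then `b ∈ RR y` with the wanted `lam` and coprime to `a` (`pick`), multiply by different primes `l, l' ∈ PZ N M` or by nothing (`l ∤ b`, `l' ∤ a`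
since `a, b` are rough and `l, l' ≤ 4 M² ≤ zz`), all numbers are in `WW 4`, the sum is `0` modulo `N` and `≤ 8 M² J N` so `k ≤ KB` (`zero_sum`), and the pair has the pattern `(s, t)` or, exchanged, `(t, s)`: contradiction to `Missing`.
CASE `s = t`. (*) `U ∩ -U = ∅` (`a + b`); `l V ∩ -l' V = ∅` for `l ≠ l'` (`l a + l' b`, `lam = s` both); `U ∩ -l V = ∅` for all `l` (`a + l b`). As `|l V| = |V|`: `2|U| ≤ g`, `2|V| ≤ g` (two different `l, l'` exist: `PZ` has at least two elements,
`Num.bl`), `|U ∪ V| ≥ g - E0`, so `|U|, |V| ≥ g/2 - E0`, `|U ∩ V| ≤ E0`.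
 `f(-x) = -f(x)` unless: `x` or `-x` not good (`≤ 2 E0`), or neither `x` nor `-x` in `U` (`≤ g - 2|U| ≤ 2 E0`; both in `U` is impossible).
 `f(l x) = -f(x)`: let `H` = units not in `-U`... i.e. `U ⊆ H` and `l V ⊆ H` where `H = {x : -x ∉ U}`, `|H| = g - |U| ≤ g/2 + E0`, so `|H \ U| ≤ 2 E0`, `|H \ l V| ≤ 2 E0`. Exceptions: `x` or `l x` not good (`2 E0`); `x ∈ V`, `l x ∉ U` (`l x ∈ H \ U`: `2 E0`);
 `x ∈ U` and `l x ∈ U`: `l x ∈ l V` up to `2 E0`, so `x ∈ U ∩ V` (`E0`). Total `≤ 7 E0`.
CASE `s = -t`. (*) `U ∩ -V = ∅`; `U ∩ -l U = ∅`; `l V ∩ -V = ∅` for all `l`. Again `|U|, |V| ≤ g/2`, `|U ∩ V| ≤ E0`. If `x, -x` good: `x ∈ U → -x ∉ V → -x ∈ U`; `x ∈ V → -x ∉ U`. So `f(-x) = f(x)` off `2 E0`.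
 If `l x, -l x` (and `x`) are good: `x ∈ U → -l x ∉ U`, so `l x ∉ U` (`l x ∈ U` would give `-l x ∈ U`), `f(l x) = -s = -f(x)`; `x ∉ U → x ∈ V → -l x ∉ V → -l x ∈ U → l x ∈ U`. Exceptions `≤ 3 E0`.
-/

open Finset
open Pool.Agent.Lib.MP_45349e_nt.LS (lam abs_lam lam_prime lam_one)

namespace Pool.Agent.Lib.RH

open Pool.Agent.Lib.RG hiding RR sig Good

variable {P : Prm} {N : ℕ}

open Classical in
/-- the sign function -/
noncomputable def sgf (P : Prm) (N : ℕ) (s : ℝ) (x : ZMod N) : ℝ :=
  if IsUnit x then (if Good P N x then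
    (if (RR P N x).card ≤ 2 * ((RR P N x).filter fun a => lam a = s).card then s else -s) else 1) else 0

theorem sgf_maj {s : ℝ} (hs : s = 1 ∨ s = -1) {x : ZMod N} (hu : IsUnit x) (hg : Good P N x) :
    MajE P N (sgf P N s x) x ∧ (sgf P N s x = s ∨ sgf P N s x = -s) := by
  classical
  have hcard : ((RR P N x).filter fun a => lam a = s).card +
      ((RR P N x).filter fun a => lam a = -s).card = (RR P N x).card := by
    rw [← card_union_of_disjoint]
    · congr 1
      ext a
      rw [mem_union, mem_filter, mem_filter]
      constructor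
      · rintro (h | h)
        · exact h.1
        · exact h.1
      · intro h
        rcases hs with rfl | rfl <;> rcases lam_pm a with h1 | h1
        · exact Or.inl ⟨h, h1⟩
        · exact Or.inr ⟨h, h1⟩
        · exact Or.inr ⟨h, by rw [h1]; norm_num⟩
        · exact Or.inl ⟨h, h1⟩
    · rw [disjoint_left]
      intro a h1 h2
      have h3 := (mem_filter.mp h1).2
      have h4 := (mem_filter.mp h2).2
      rw [h3] at h4
      rcases hs with rfl | rfl <;> norm_num at h4
  by_cases h : (RR P N x).card ≤ 2 * ((RR P N x).filter fun a => lam a = s).card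
  · have h1 : sgf P N s x = s := by
      unfold sgf
      rw [if_pos hu, if_pos hg, if_pos h]
    rw [h1]
    exact ⟨⟨hu, hg, _, filter_subset _ _, fun a ha => (mem_filter.mp ha).2, h⟩, Or.inl rfl⟩
  · have h1 : sgf P N s x = -s := by
      unfold sgf
      rw [if_pos hu, if_pos hg, if_neg h]
    rw [h1]
    exact ⟨⟨hu, hg, _, filter_subset _ _, fun a ha => (mem_filter.mp ha).2, by omega⟩, Or.inr rfl⟩

open Classical in
theorem card_W (hP : P.Ok) (hN : Num P N) [NeZero N] {s : ℝ} (hs : s = 1 ∨ s = -1)
    (hm : Missing P N s s) (h2 : ∃ l ∈ PZ N (MM P N), ∃ l' ∈ PZ N (MM P N), l ≠ l') :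
    ((univ : Finset (ZMod N)).filter fun y => IsUnit y ∧ Good P N y ∧ Good P N (-y) ∧
      sgf P N s y = -s ∧ sgf P N s (-y) = -s).card ≤ 2 * (NG P N).card := by
  set W := (univ : Finset (ZMod N)).filter fun y => IsUnit y ∧ Good P N y ∧ Good P N (-y) ∧
      sgf P N s y = -s ∧ sgf P N s (-y) = -s with hW
  set G := (univ : Finset (ZMod N)).filter fun y => IsUnit y with hG
  set U := (univ : Finset (ZMod N)).filter fun y => IsUnit y ∧ Good P N y ∧ sgf P N s y = s with hU
  set V := (univ : Finset (ZMod N)).filter fun y => IsUnit y ∧ Good P N y ∧ sgf P N s y = -s with hV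
  have hss : s ≠ -s := by
    rcases hs with rfl | rfl <;> norm_num
  have hgood : ∀ x : ZMod N, IsUnit x → x ∈ NG P N ∨ Good P N x := by
    intro x hx
    by_cases h : Good P N x
    · exact Or.inr h
    · left
      unfold NG
      rw [mem_filter]
      exact ⟨mem_univ _, hx, h⟩
  -- the partition of the units
  have hpart : G.card ≤ U.card + V.card + (NG P N).card := by
    have h1 : G ⊆ U ∪ V ∪ NG P N := by
      intro x hx
      have hu := (mem_filter.mp hx).2
      rcases hgood x hu with h | h
      · exact mem_union_right _ h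
      · rcases (sgf_maj hs hu h).2 with h3 | h3
        · exact mem_union_left _ (mem_union_left _ (mem_filter.mpr ⟨mem_univ _, hu, h, h3⟩))
        · exact mem_union_left _ (mem_union_right _ (mem_filter.mpr ⟨mem_univ _, hu, h, h3⟩))
    calc G.card ≤ (U ∪ V ∪ NG P N).card := card_le_card h1
      _ ≤ (U ∪ V).card + (NG P N).card := card_union_le _ _
      _ ≤ _ := Nat.add_le_add_right (card_union_le _ _) _
  -- twice `V`
  have hV2 : 2 * V.card ≤ G.card := by
    obtain ⟨l, hl, l', hl', hne⟩ := h2
    obtain ⟨hlp, -, -, -, hlN, -, -, hlam⟩ := PZ_facts hP hN hl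
    obtain ⟨hlp', -, -, -, hlN', -, -, hlam'⟩ := PZ_facts hP hN hl'
    have hul : IsUnit (l : ZMod N) := (ZMod.isUnit_iff_coprime l N).mpr hlN
    have hul' : IsUnit (l' : ZMod N) := (ZMod.isUnit_iff_coprime l' N).mpr hlN'
    have hinj : Function.Injective fun x : ZMod N => (l : ZMod N) * x := mul_inj hlN
    have hinj' : Function.Injective fun x : ZMod N => -((l' : ZMod N) * x) := fun x y h =>
      mul_inj hlN' (neg_injective h)
    have h1 : (V.image fun x : ZMod N => (l : ZMod N) * x).card = V.card := card_image_of_injective _ hinj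
    have h3 : (V.image fun x : ZMod N => -((l' : ZMod N) * x)).card = V.card :=
      card_image_of_injective _ hinj'
    have hdis : Disjoint (V.image fun x : ZMod N => (l : ZMod N) * x)
        (V.image fun x : ZMod N => -((l' : ZMod N) * x)) := by
      rw [disjoint_left]
      intro y hy hy'
      obtain ⟨x, hx, hxy⟩ := mem_image.mp hy
      obtain ⟨x', hx', hxy'⟩ := mem_image.mp hy'
      obtain ⟨-, hux, hgx, hfx⟩ := mem_filter.mp hx
      obtain ⟨-, hux', hgx', hfx'⟩ := mem_filter.mp hx'
      have hM := (sgf_maj hs hux hgx).1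
      have hM' := (sgf_maj hs hux' hgx').1
      rw [hfx] at hM
      rw [hfx'] at hM'
      refine clash hP hN hm (W2_PZ hl) (W2_PZ hl') ((Nat.coprime_primes hlp hlp').mpr hne) hM hM' ?_
        (by rw [hlam]; ring) (by rw [hlam']; ring)
      rw [show (l : ZMod N) * x = y from hxy, ← hxy']
      ring
    have hsub : (V.image fun x : ZMod N => (l : ZMod N) * x) ∪
        (V.image fun x : ZMod N => -((l' : ZMod N) * x)) ⊆ G := by
      intro y hy
      rcases mem_union.mp hy with h | h
      · obtain ⟨x, hx, hxy⟩ := mem_image.mp h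
        have hux := (mem_filter.mp hx).2.1
        rw [mem_filter, ← hxy]
        exact ⟨mem_univ _, hul.mul hux⟩
      · obtain ⟨x, hx, hxy⟩ := mem_image.mp h
        have hux := (mem_filter.mp hx).2.1
        rw [mem_filter, ← hxy]
        exact ⟨mem_univ _, (hul'.mul hux).neg⟩
    have h4 := card_le_card hsub
    rw [card_union_of_disjoint hdis, h1, h3] at h4
    omega
  -- twice `U`, and `W`
  have hU2 : 2 * U.card + W.card ≤ G.card := by
    have h1 : (U.image fun x : ZMod N => -x).card = U.card := card_image_of_injective _ neg_injective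
    have hdis : Disjoint U (U.image fun x : ZMod N => -x) := by
      rw [disjoint_left]
      intro y hy hy'
      obtain ⟨x, hx, hxy⟩ := mem_image.mp hy'
      obtain ⟨-, hux, hgx, hfx⟩ := mem_filter.mp hx
      obtain ⟨-, huy, hgy, hfy⟩ := mem_filter.mp hy
      have hM := (sgf_maj hs hux hgx).1
      have hM' := (sgf_maj hs huy hgy).1
      rw [hfx] at hM
      rw [hfy] at hM'
      refine clash hP hN hm W2_one W2_one (Nat.coprime_one_left 1) hM hM' ?_
        (by rw [lam_one, one_mul]) (by rw [lam_one, one_mul])
      rw [← hxy]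
      push_cast
      ring
    have hdis2 : Disjoint (U ∪ (U.image fun x : ZMod N => -x)) W := by
      rw [disjoint_left]
      intro y hy hy'
      obtain ⟨-, huy, hgy, hgy2, hfy, hfy2⟩ := mem_filter.mp hy'
      rcases mem_union.mp hy with h | h
      · have h3 := (mem_filter.mp h).2.2.2
        rw [hfy] at h3
        exact hss h3.symm
      · obtain ⟨x, hx, hxy⟩ := mem_image.mp h
        have h3 := (mem_filter.mp hx).2.2.2
        have h4 : -y = x := by rw [← hxy, neg_neg]
        rw [h4, h3] at hfy2
        exact hss hfy2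
    have hsub : U ∪ (U.image fun x : ZMod N => -x) ∪ W ⊆ G := by
      intro y hy
      rcases mem_union.mp hy with h | h
      · rcases mem_union.mp h with h | h
        · exact mem_filter.mpr ⟨mem_univ _, (mem_filter.mp h).2.1⟩
        · obtain ⟨x, hx, hxy⟩ := mem_image.mp h
          have hux := (mem_filter.mp hx).2.1
          rw [mem_filter, ← hxy]
          exact ⟨mem_univ _, hux.neg⟩
      · exact mem_filter.mpr ⟨mem_univ _, (mem_filter.mp h).2.1⟩
    have h4 := card_le_card hsub
    rw [card_union_of_disjoint hdis2, card_union_of_disjoint hdis, h1] at h4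
    omega
  omega

open Classical in
/-- a missing pattern gives a sign function which is odd or even and changes sign at the small primes -/
theorem str_main (hP : P.Ok) (hN : Num P N) [NeZero N] {s t : ℝ} (hs : s = 1 ∨ s = -1)
    (ht : t = 1 ∨ t = -1) (hm : Missing P N s t)
    (h2 : ∃ l ∈ PZ N (MM P N), ∃ l' ∈ PZ N (MM P N), l ≠ l') :
    FS P N s t (sgf P N s) := by
  have hgood : ∀ x : ZMod N, IsUnit x → x ∉ NG P N → Good P N x := by
    intro x hx h
    by_contra hcon
    apply h
    unfold NG
    rw [mem_filter]
    exact ⟨mem_univ _, hx, hcon⟩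
  have hss : s * s = 1 := by
    rcases hs with rfl | rfl <;> norm_num
  have hne : s ≠ -s := by
    rcases hs with rfl | rfl <;> norm_num
  have hcase : t = s ∨ t = -s := by
    rcases hs with rfl | rfl <;> rcases ht with rfl | rfl <;> norm_num
  refine ⟨?_, ?_, ?_, ?_, ?_⟩
  · intro x hx
    unfold sgf
    rw [if_neg hx]
  · intro x hx
    by_cases hg : Good P N x
    · rcases (sgf_maj hs hx hg).2 with h | h
      · rw [h]; exact hs
      · rw [h]
        rcases hs with rfl | rfl
        · exact Or.inr rfl
        · exact Or.inl (by norm_num)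
    · left
      unfold sgf
      rw [if_pos hx, if_neg hg]
  · intro x hx hg
    obtain ⟨-, -, S, hS1, hS2, hS3⟩ := (sgf_maj hs hx hg).1
    refine hS3.trans (Nat.mul_le_mul_left 2 (card_le_card ?_))
    intro a ha
    exact mem_filter.mpr ⟨hS1 ha, hS2 a ha⟩
  · -- parity
    set W := (univ : Finset (ZMod N)).filter fun y => IsUnit y ∧ Good P N y ∧ Good P N (-y) ∧
      sgf P N s y = -s ∧ sgf P N s (-y) = -s with hW
    rcases hcase with rfl | rfl
    · have hWc := card_W hP hN hs hm h2
      rw [← hW] at hWc
      have hsub : ((univ : Finset (ZMod N)).filter fun x => IsUnit x ∧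
          sgf P N t (-x) ≠ -(t * t) * sgf P N t x) ⊆
          (univ.filter fun x => x ∈ NG P N) ∪ (univ.filter fun x => -x ∈ NG P N) ∪ W := by
        intro x hx
        obtain ⟨-, hu, hne2⟩ := mem_filter.mp hx
        by_cases h1 : x ∈ NG P N
        · exact mem_union_left _ (mem_union_left _ (mem_filter.mpr ⟨mem_univ _, h1⟩))
        by_cases h3 : -x ∈ NG P N
        · exact mem_union_left _ (mem_union_right _ (mem_filter.mpr ⟨mem_univ _, h3⟩))
        have hg := hgood x hu h1
        have hg' := hgood (-x) hu.neg h3
        have hM := sgf_maj hs hu hg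
        have hM' := sgf_maj hs hu.neg hg'
        rw [hss] at hne2
        rcases hM.2 with h4 | h4 <;> rcases hM'.2 with h5 | h5
        · exfalso
          have hA := hM.1
          have hB := hM'.1
          rw [h4] at hA
          rw [h5] at hB
          exact clash hP hN hm W2_one W2_one (Nat.coprime_one_left 1) hA hB (by push_cast; ring)
            (by rw [lam_one, one_mul]) (by rw [lam_one, one_mul])
        · exfalso
          apply hne2
          rw [h4, h5]
          ring
        · exfalso
          apply hne2
          rw [h4, h5]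
          ring
        · exact mem_union_right _ (mem_filter.mpr ⟨mem_univ _, hu, hg, hg', h4, h5⟩)
      have hc1 := card_pre (NG P N) (fun x => x) (fun _ _ h => h)
      have hc2 := card_pre (NG P N) (fun x => -x) neg_injective
      have h6 := card_le_card hsub
      have h7 := h6.trans ((card_union_le _ _).trans (Nat.add_le_add_right (card_union_le _ _) _))
      omega
    · have hsub : ((univ : Finset (ZMod N)).filter fun x => IsUnit x ∧
          sgf P N s (-x) ≠ -(s * -s) * sgf P N s x) ⊆
          (univ.filter fun x => x ∈ NG P N) ∪ (univ.filter fun x => -x ∈ NG P N) := by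
        intro x hx
        obtain ⟨-, hu, hne2⟩ := mem_filter.mp hx
        by_cases h1 : x ∈ NG P N
        · exact mem_union_left _ (mem_filter.mpr ⟨mem_univ _, h1⟩)
        by_cases h3 : -x ∈ NG P N
        · exact mem_union_right _ (mem_filter.mpr ⟨mem_univ _, h3⟩)
        have hg := hgood x hu h1
        have hg' := hgood (-x) hu.neg h3
        have hM := sgf_maj hs hu hg
        have hM' := sgf_maj hs hu.neg hg'
        exfalso
        have h8 : -(s * -s) = 1 := by linarith
        rw [h8, one_mul] at hne2
        rcases hM.2 with h4 | h4 <;> rcases hM'.2 with h5 | h5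
        · exact hne2 (by rw [h4, h5])
        · have hA := hM.1
          have hB := hM'.1
          rw [h4] at hA
          rw [h5] at hB
          exact clash hP hN hm W2_one W2_one (Nat.coprime_one_left 1) hA hB (by push_cast; ring)
            (by rw [lam_one, one_mul]) (by rw [lam_one, one_mul])
        · have hA := hM.1
          have hB := hM'.1
          rw [h4] at hA
          rw [h5] at hB
          exact clash hP hN hm W2_one W2_one (Nat.coprime_one_left 1) hB hA (by push_cast; ring)
            (by rw [lam_one, one_mul]) (by rw [lam_one, one_mul])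
        · exact hne2 (by rw [h4, h5])
      have hc1 := card_pre (NG P N) (fun x => x) (fun _ _ h => h)
      have hc2 := card_pre (NG P N) (fun x => -x) neg_injective
      have h6 := card_le_card hsub
      have h7 := h6.trans (card_union_le _ _)
      omega
  · -- small primes
    intro l hl
    obtain ⟨hlp, -, -, -, hlN, -, -, hlam⟩ := PZ_facts hP hN hl
    have hul : IsUnit (l : ZMod N) := (ZMod.isUnit_iff_coprime l N).mpr hlN
    set W := (univ : Finset (ZMod N)).filter fun y => IsUnit y ∧ Good P N y ∧ Good P N (-y) ∧
      sgf P N s y = -s ∧ sgf P N s (-y) = -s with hW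
    have hc1 := card_pre (NG P N) (fun x => x) (fun _ _ h => h)
    have hc2 := card_pre (NG P N) (fun x => -x) neg_injective
    have hc3 := card_pre (NG P N) (fun x => (l : ZMod N) * x) (mul_inj hlN)
    have hc4 := card_pre (NG P N) (fun x => -((l : ZMod N) * x))
      (fun x y h => mul_inj hlN (neg_injective h))
    have hcW := card_pre W (fun x => (l : ZMod N) * x) (mul_inj hlN)
    have hsub : ((univ : Finset (ZMod N)).filter fun x => IsUnit x ∧
        sgf P N s ((l : ZMod N) * x) ≠ -sgf P N s x) ⊆
        (univ.filter fun x => x ∈ NG P N) ∪ (univ.filter fun x => -x ∈ NG P N) ∪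
        (univ.filter fun x => (l : ZMod N) * x ∈ NG P N) ∪
        (univ.filter fun x => -((l : ZMod N) * x) ∈ NG P N) ∪
        (if t = s then (univ.filter fun x => (l : ZMod N) * x ∈ W) else ∅) := by
      intro x hx
      obtain ⟨-, hu, hne2⟩ := mem_filter.mp hx
      by_cases h1 : x ∈ NG P N
      · exact mem_union_left _ (mem_union_left _ (mem_union_left _ (mem_union_left _
          (mem_filter.mpr ⟨mem_univ _, h1⟩))))
      by_cases h3 : -x ∈ NG P N
      · exact mem_union_left _ (mem_union_left _ (mem_union_left _ (mem_union_right _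
          (mem_filter.mpr ⟨mem_univ _, h3⟩))))
      by_cases h4 : (l : ZMod N) * x ∈ NG P N
      · exact mem_union_left _ (mem_union_left _ (mem_union_right _
          (mem_filter.mpr ⟨mem_univ _, h4⟩)))
      by_cases h5 : -((l : ZMod N) * x) ∈ NG P N
      · exact mem_union_left _ (mem_union_right _ (mem_filter.mpr ⟨mem_univ _, h5⟩))
      have hg1 := hgood x hu h1
      have hg3 := hgood (-x) hu.neg h3
      have hg4 := hgood _ (hul.mul hu) h4
      have hg5 := hgood _ (hul.mul hu).neg h5
      have hM1 := sgf_maj hs hu hg1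
      have hM3 := sgf_maj hs hu.neg hg3
      have hM4 := sgf_maj hs (hul.mul hu) hg4
      have hM5 := sgf_maj hs (hul.mul hu).neg hg5
      have hA1 := hM1.1
      have hA3 := hM3.1
      have hA4 := hM4.1
      have hA5 := hM5.1
      have hll : (1 : ℕ).Coprime l := Nat.coprime_one_left l
      rcases hcase with hts | hts
      · -- `s = t`
        rcases hM1.2 with e1 | e1 <;> rcases hM4.2 with e4 | e4
        · -- both `s`
          exfalso
          rcases hM3.2 with e3 | e3
          · rw [e1] at hA1
            rw [e3] at hA3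
            exact clash hP hN hm W2_one W2_one (Nat.coprime_one_left 1) hA1 hA3 (by push_cast; ring)
              (by rw [lam_one, one_mul]) (by rw [lam_one, one_mul, hts])
          · rw [e4] at hA4
            rw [e3] at hA3
            exact clash hP hN hm W2_one (W2_PZ hl) hll hA4 hA3 (by push_cast; ring)
              (by rw [lam_one, one_mul]) (by rw [hlam, hts]; ring)
        · exfalso
          apply hne2
          rw [e1, e4]
        · exfalso
          apply hne2
          rw [e1, e4]
          ring
        · -- both `-s`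
          rcases hM5.2 with e5 | e5
          · exfalso
            rw [e5] at hA5
            rw [e1] at hA1
            exact clash hP hN hm W2_one (W2_PZ hl) hll hA5 hA1 (by push_cast; ring)
              (by rw [lam_one, one_mul]) (by rw [hlam, hts]; ring)
          · rw [if_pos hts]
            exact mem_union_right _ (mem_filter.mpr ⟨mem_univ _,
              mem_filter.mpr ⟨mem_univ _, hul.mul hu, hg4, hg5, e4, e5⟩⟩)
      · -- `t = -s`
        exfalso
        rcases hM1.2 with e1 | e1 <;> rcases hM4.2 with e4 | e4
        · rcases hM5.2 with e5 | e5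
          · rw [e5] at hA5
            rw [e1] at hA1
            exact clash hP hN hm W2_one (W2_PZ hl) hll hA5 hA1 (by push_cast; ring)
              (by rw [lam_one, one_mul]) (by rw [hlam, hts]; ring)
          · rw [e4] at hA4
            rw [e5] at hA5
            exact clash hP hN hm W2_one W2_one (Nat.coprime_one_left 1) hA4 hA5 (by push_cast; ring)
              (by rw [lam_one, one_mul]) (by rw [lam_one, one_mul, hts])
        · apply hne2
          rw [e1, e4]
        · apply hne2
          rw [e1, e4]
          ring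
        · rcases hM5.2 with e5 | e5
          · rw [e4] at hA4
            rw [e5] at hA5
            exact clash hP hN hm W2_one W2_one (Nat.coprime_one_left 1) hA5 hA4 (by push_cast; ring)
              (by rw [lam_one, one_mul]) (by rw [lam_one, one_mul, hts])
          · rw [e1] at hA1
            rw [e5] at hA5
            exact clash hP hN hm (W2_PZ hl) W2_one (Nat.coprime_one_right l) hA1 hA5 (by push_cast; ring)
              (by rw [hlam]; ring) (by rw [lam_one, one_mul, hts])
    have h6 := card_le_card hsub
    have h7 : (if t = s then (univ.filter fun x => (l : ZMod N) * x ∈ W) else ∅).card ≤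
        2 * (NG P N).card := by
      split_ifs with hts
      · have hWc := card_W hP hN hs (hts ▸ hm) h2
        rw [← hW] at hWc
        omega
      · simp
    have h8 := card_union_le
      ((univ.filter fun x => x ∈ NG P N) ∪ (univ.filter fun x => -x ∈ NG P N) ∪
        (univ.filter fun x => (l : ZMod N) * x ∈ NG P N) ∪
        (univ.filter fun x => -((l : ZMod N) * x) ∈ NG P N))
      (if t = s then (univ.filter fun x => (l : ZMod N) * x ∈ W) else ∅)
    have h9 := card_union_le ((univ.filter fun x => x ∈ NG P N) ∪ (univ.filter fun x => -x ∈ NG P N) ∪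
        (univ.filter fun x => (l : ZMod N) * x ∈ NG P N))
        (univ.filter fun x => -((l : ZMod N) * x) ∈ NG P N)
    have h10 := card_union_le ((univ.filter fun x => x ∈ NG P N) ∪ (univ.filter fun x => -x ∈ NG P N))
        (univ.filter fun x => (l : ZMod N) * x ∈ NG P N)
    have h11 := card_union_le (univ.filter fun x => x ∈ NG P N) (univ.filter fun x => -x ∈ NG P N)
    omega

theorem two_PZ (hP : P.Ok) (hN : Num P N) : ∃ l ∈ PZ N (MM P N), ∃ l' ∈ PZ N (MM P N), l ≠ l' := by
  have h := block_big hP hN
  have hM : 1 < MM P N := (nat_facts hP hN).2.2.2.2.1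
  have h1 : 1 < (block N (MM P N)).card := by
    have h2 : (1 : ℝ) < (block N (MM P N)).card := by
      have := hN.K
      have h3 : (1 : ℝ) ≤ Real.log N := le_trans (by norm_num) hN.K
      linarith
    exact_mod_cast h2
  obtain ⟨l, hl, l', hl', hne⟩ := Finset.one_lt_card.mp h1
  exact ⟨l, block_PZ (by omega) hl, l', block_PZ (by omega) hl', hne⟩

theorem str1 (P : Prm) (hP : P.Ok) (N : ℕ) [NeZero N] (hn : Num P N) (s t : ℝ) (hs : s = 1 ∨ s = -1)
    (ht : t = 1 ∨ t = -1) (hm : Missing P N s t) : ∃ f : ZMod N → ℝ, FS P N s t f :=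
  ⟨sgf P N s, str_main hP hn hs ht hm (two_PZ hP hn)⟩

end Pool.Agent.Lib.RH
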