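import Pool.Agent.Lib.MP_7b7e48_nt.RG.BAS

/-!
# Module V5: the rule for sums of two numbers with different `DA`
-/

open Finset
open Pool.Agent.Lib.MP_45349e_nt.LS (lam)

namespace Pool.Agent.Lib.RH

open Pool.Agent.Lib.RG hiding RR sig Good

theorem v5 (P : Prm) (N : ℕ) [NeZero N] (s t : ℝ) (χ : DirichletCharacter ℂ N) (h : Env P N s t χ)
    (a b k : ℕ) (ha : WW P N 4 a) (hb : WW P N 4 b) (hab : a.Coprime b) (hk : a + b = k * N)
    (hk2 : k ≤ KB P N) (hD : ¬ (DA χ a ↔ DA χ b)) : s = t ∧ lam a = -s ∧ lam b = -s := by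
  have hua : IsUnit (a : ZMod N) := unit_of_coprime ha.2.1
  have hub : IsUnit (b : ZMod N) := unit_of_coprime hb.2.1
  have hba : (b : ZMod N) = -1 * (a : ZMod N) := by
    have h1 : ((a + b : ℕ) : ZMod N) = 0 := by
      rw [hk]
      push_cast
      simp
    push_cast at h1
    linear_combination h1
  have hχ : χ (b : ZMod N) = ((-(s * t) : ℝ) : ℂ) * χ (a : ZMod N) := by
    rw [hba, map_mul, h.neg]
  have hm1 := h.miss a b k ha hb hab hk hk2
  have hm2 := h.miss b a k hb ha hab.symm (by rw [add_comm]; exact hk) hk2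
  have hD' : ¬ (((lam a : ℝ) : ℂ) ≠ χ (a : ZMod N) ↔ ((lam b : ℝ) : ℂ) ≠ χ (b : ZMod N)) := hD
  rw [hχ] at hD'
  have hs := h.hs
  have ht := h.ht
  have n1 : ¬ ((1 : ℝ) = -1) := by norm_num
  have n2 : ¬ ((-1 : ℝ) = 1) := by norm_num
  have n3 : ¬ ((1 : ℂ) = -1) := by
    intro h0
    have := congrArg Complex.re h0
    norm_num at this
  have n4 : ¬ ((-1 : ℂ) = 1) := fun h0 => n3 h0.symm
  rcases lam_pm a with e1 | e1 <;> rcases lam_pm b with e2 | e2 <;>
    rcases hs with e3 | e3 <;> rcases ht with e4 | e4 <;> rcases chi_pm h.sq hua with e5 | e5 <;>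
    rw [e1, e2, e3, e4, e5] at hD' <;> rw [e1, e2, e3, e4] at hm1 <;>
    rw [e2, e1, e3, e4] at hm2 <;> rw [e1, e2, e3, e4] <;>
    simp_all

theorem v5_rule (P : Prm) (N : ℕ) [NeZero N] (s t : ℝ) (χ : DirichletCharacter ℂ N)
    (h : Env P N s t χ) (a b : ℕ) (ha : WW P N 4 a) (hb : WW P N 4 b) (hab : a.Coprime b)
    (h0 : (a : ZMod N) + (b : ZMod N) = 0) (hk : a + b ≤ KB P N * N)
    (hr : s ≠ t ∨ lam a = s ∨ lam b = s) : DA χ a ↔ DA χ b := by
  by_contra hD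
  obtain ⟨k, hk1, hk2⟩ := zero_sum h0 hk (Nat.pos_of_ne_zero (NeZero.ne N))
  obtain ⟨h1, h2, h3⟩ := v5 P N s t χ h a b k ha hb hab hk1 hk2 hD
  have hs : s ≠ -s := by
    rcases h.hs with e | e <;> rw [e] <;> norm_num
  rcases hr with hr | hr | hr
  · exact hr h1
  · exact hs (hr.symm.trans h2)
  · exact hs (hr.symm.trans h3)

end Pool.Agent.Lib.RH
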